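import Pool.Agent.MQ.FDefs
import Pool.Agent.H22.HF.Div
import Pool.Agent.H62.BU.Inv

/-!
# MQ2 AlgConv: a formal solution of an analytic equation converges

`f (t, ∑ c i t^i) = 0` formally, `f` analytic and not `0`: the series `∑ c i t^i` converges.
-/

set_option autoImplicit false

open Topology Filter Asymptotics

noncomputable section

namespace Pool.Agent.MQ2.AC

open Pool.Agent.MQ (jet)

/-! ## divisibility by `t ^ n` -/

/-- `g` is divisible by `t ^ n` near `0` -/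
def Dv (n : ℕ) (g : ℂ → ℂ) : Prop := ∃ k : ℂ → ℂ, AnalyticAt ℂ k 0 ∧ ∀ᶠ t in 𝓝 (0 : ℂ), g t = t ^ n * k t

/-- `g` has a zero of order `n` at `0` -/
def Oq (n : ℕ) (g : ℂ → ℂ) : Prop := ∃ k : ℂ → ℂ, AnalyticAt ℂ k 0 ∧ k 0 ≠ 0 ∧ ∀ᶠ t in 𝓝 (0 : ℂ), g t = t ^ n * k t

theorem Dv.congr {n : ℕ} {g h : ℂ → ℂ} (hg : Dv n g) (e : ∀ᶠ t in 𝓝 (0 : ℂ), h t = g t) : Dv n h := by
  obtain ⟨k, h1, h2⟩ := hg
  exact ⟨k, h1, by filter_upwards [h2, e] with t a b; rw [b, a]⟩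

theorem Dv.add {n : ℕ} {g h : ℂ → ℂ} (hg : Dv n g) (hh : Dv n h) : Dv n fun t => g t + h t := by
  obtain ⟨k, h1, h2⟩ := hg
  obtain ⟨l, h3, h4⟩ := hh
  exact ⟨fun t => k t + l t, h1.add h3, by filter_upwards [h2, h4] with t a b; rw [a, b]; ring⟩

theorem Dv.sub {n : ℕ} {g h : ℂ → ℂ} (hg : Dv n g) (hh : Dv n h) : Dv n fun t => g t - h t := by
  obtain ⟨k, h1, h2⟩ := hg
  obtain ⟨l, h3, h4⟩ := hh
  exact ⟨fun t => k t - l t, h1.sub h3, by filter_upwards [h2, h4] with t a b; rw [a, b]; ring⟩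

theorem Dv.mono {m n : ℕ} (hmn : m ≤ n) {g : ℂ → ℂ} (hg : Dv n g) : Dv m g := by
  obtain ⟨k, h1, h2⟩ := hg
  obtain ⟨d, rfl⟩ := Nat.exists_eq_add_of_le hmn
  exact ⟨fun t => t ^ d * k t, (analyticAt_id.pow d).mul h1, by filter_upwards [h2] with t a; rw [a, pow_add]; ring⟩

theorem Dv.pow_mul {n : ℕ} (a : ℕ) {g : ℂ → ℂ} (hg : Dv n g) : Dv (a + n) fun t => t ^ a * g t := by
  obtain ⟨k, h1, h2⟩ := hg
  exact ⟨k, h1, by filter_upwards [h2] with t a; rw [a, pow_add]; ring⟩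

theorem Dv.analytic {n : ℕ} {g : ℂ → ℂ} (hg : Dv n g) : AnalyticAt ℂ g 0 := by
  obtain ⟨k, h1, h2⟩ := hg
  exact ((analyticAt_id.pow n).mul h1).congr (by filter_upwards [h2] with t a; rw [a]; rfl)

theorem Dv.zero {n : ℕ} {g : ℂ → ℂ} (hg : Dv (n + 1) g) : g 0 = 0 := by
  obtain ⟨k, _, h2⟩ := hg
  rw [h2.self_of_nhds, zero_pow (Nat.succ_ne_zero n), zero_mul]

theorem Dv.isBigO {n : ℕ} {g : ℂ → ℂ} (hg : Dv n g) : g =O[𝓝 0] fun t => t ^ n := by
  obtain ⟨k, h1, h2⟩ := hg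
  have h3 : k =O[𝓝 0] fun _ => (1 : ℂ) := h1.continuousAt.isBigO_one ℂ
  have h4 : (fun t : ℂ => t ^ n * k t) =O[𝓝 0] fun t => t ^ n * 1 := (isBigO_refl _ _).mul h3
  refine (h4.congr' ?_ ?_)
  · filter_upwards [h2] with t a
    rw [a]
  · filter_upwards with t
    rw [mul_one]

theorem not_eventually_iff {g : ℂ → ℂ} (hg : AnalyticAt ℂ g 0) (h : ¬ ∀ᶠ t in 𝓝 (0 : ℂ), g t = 0) : ∃ n, Oq n g := by
  have h1 : analyticOrderAt g 0 ≠ ⊤ := fun h2 => h (analyticOrderAt_eq_top.1 h2)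
  obtain ⟨n, hn⟩ := ENat.ne_top_iff_exists.1 h1
  obtain ⟨k, hk, hk0, he⟩ := (hg.analyticOrderAt_eq_natCast).1 hn.symm
  exact ⟨n, k, hk, hk0, by filter_upwards [he] with t a; rw [a, sub_zero, smul_eq_mul]⟩

theorem Oq.dv_iff {n m : ℕ} {g : ℂ → ℂ} (h : Oq n g) (hd : Dv m g) : m ≤ n := by
  by_contra hlt
  rw [not_le] at hlt
  obtain ⟨k, h1, h2, h3⟩ := h
  obtain ⟨l, h4, h5⟩ := hd
  obtain ⟨d, rfl⟩ := Nat.exists_eq_add_of_lt hlt
  have h6 : ∀ᶠ t in 𝓝[≠] (0 : ℂ), k t = t ^ (d + 1) * l t := by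
    filter_upwards [h3.filter_mono nhdsWithin_le_nhds, h5.filter_mono nhdsWithin_le_nhds, self_mem_nhdsWithin] with t a b ht
    have ht' : t ^ n ≠ 0 := pow_ne_zero _ ht
    have : t ^ n * k t = t ^ n * (t ^ (d + 1) * l t) := by
      rw [← a, b]; ring
    exact mul_left_cancel₀ ht' this
  have h7 : Tendsto k (𝓝[≠] 0) (𝓝 (k 0)) := h1.continuousAt.tendsto.mono_left nhdsWithin_le_nhds
  have h8 : Tendsto (fun t : ℂ => t ^ (d + 1) * l t) (𝓝[≠] 0) (𝓝 ((0 : ℂ) ^ (d + 1) * l 0)) :=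
    ((continuousAt_id.pow _).mul h4.continuousAt).tendsto.mono_left nhdsWithin_le_nhds
  have h9 := tendsto_nhds_unique (h7.congr' h6) h8
  rw [zero_pow (Nat.succ_ne_zero d), zero_mul] at h9
  exact h2 h9

theorem dv_of_isBigO {n : ℕ} {g : ℂ → ℂ} (hg : AnalyticAt ℂ g 0) (h : g =O[𝓝[≠] 0] fun t => t ^ n) : Dv n g := by
  by_cases h0 : ∀ᶠ t in 𝓝 (0 : ℂ), g t = 0
  · exact ⟨fun _ => 0, analyticAt_const, by filter_upwards [h0] with t a; rw [a, mul_zero]⟩
  · obtain ⟨m, k, h1, h2, h3⟩ := not_eventually_iff hg h0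
    by_cases hmn : n ≤ m
    · exact Dv.mono hmn ⟨k, h1, h3⟩
    · exfalso
      rw [not_le] at hmn
      obtain ⟨d, rfl⟩ := Nat.exists_eq_add_of_lt hmn
      obtain ⟨C, hC⟩ := h.bound
      have h4 : ∀ᶠ t in 𝓝[≠] (0 : ℂ), ‖k t‖ ≤ C * ‖t‖ ^ (d + 1) := by
        filter_upwards [hC, h3.filter_mono nhdsWithin_le_nhds, self_mem_nhdsWithin] with t a b ht
        have ht' : 0 < ‖t‖ ^ m := pow_pos (norm_pos_iff.2 ht) _
        rw [b, norm_mul, norm_pow, norm_pow, show m + d + 1 = m + (d + 1) by ring, pow_add] at a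
        have : ‖t‖ ^ m * ‖k t‖ ≤ ‖t‖ ^ m * (C * ‖t‖ ^ (d + 1)) := by linarith
        exact le_of_mul_le_mul_left this ht'
      have h5 : Tendsto (fun t : ℂ => C * ‖t‖ ^ (d + 1)) (𝓝[≠] 0) (𝓝 0) := by
        have h6 : Continuous fun t : ℂ => C * ‖t‖ ^ (d + 1) := by fun_prop
        have h7 := h6.tendsto 0
        simp only [norm_zero, zero_pow (Nat.succ_ne_zero d), mul_zero] at h7
        exact h7.mono_left nhdsWithin_le_nhds
      have h8 : Tendsto k (𝓝[≠] 0) (𝓝 0) := squeeze_zero_norm' h4 h5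
      have h9 : Tendsto k (𝓝[≠] 0) (𝓝 (k 0)) := h1.continuousAt.tendsto.mono_left nhdsWithin_le_nhds
      exact h2 (tendsto_nhds_unique h9 h8)

theorem Dv.cancel {a b : ℕ} {g : ℂ → ℂ} (hg : AnalyticAt ℂ g 0) (h : Dv (a + b) fun t => t ^ a * g t) : Dv b g := by
  obtain ⟨k, h1, h2⟩ := h
  refine dv_of_isBigO hg ?_
  have h3 : (fun t : ℂ => t ^ b * k t) =O[𝓝[≠] 0] fun t => t ^ b := by
    have : Dv b fun t => t ^ b * k t := ⟨k, h1, Eventually.of_forall fun t => rfl⟩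
    exact this.isBigO.mono nhdsWithin_le_nhds
  refine h3.congr' ?_ EventuallyEq.rfl
  filter_upwards [h2.filter_mono nhdsWithin_le_nhds, self_mem_nhdsWithin] with t e ht
  have ht' : t ^ a ≠ 0 := pow_ne_zero _ ht
  refine (mul_left_cancel₀ ht' ?_).symm
  rw [e]; ring

/-! ## substitution -/

variable {F : ℂ × ℂ → ℂ} {p q : ℂ → ℂ}

theorem analytic_subst (hF : AnalyticAt ℂ F 0) (hp : AnalyticAt ℂ p 0) (hp0 : p 0 = 0) : AnalyticAt ℂ (fun t => F (t, p t)) 0 := by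
  have h : ((0 : ℂ), p 0) = 0 := by simp [hp0]
  exact AnalyticAt.fun_comp (g := F) (f := fun t : ℂ => (t, p t)) (by rw [h]; exact hF) (analyticAt_id.prod hp)

theorem tendsto_subst (hp : AnalyticAt ℂ p 0) (hp0 : p 0 = 0) : Tendsto (fun t : ℂ => (t, p t)) (𝓝 0) (𝓝 0) := by
  have h : ContinuousAt (fun t : ℂ => (t, p t)) 0 := continuousAt_id.prodMk hp.continuousAt
  have h2 : ((0 : ℂ), p 0) = 0 := by simp [hp0]
  have h3 := h.tendsto
  simp only [h2] at h3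
  exact h3

/-- Lipschitz -/
theorem dv_subst (hF : AnalyticAt ℂ F 0) (hp : AnalyticAt ℂ p 0) (hp0 : p 0 = 0) (hq : AnalyticAt ℂ q 0) (hq0 : q 0 = 0) {n : ℕ}
    (h : Dv n fun t => p t - q t) : Dv n fun t => F (t, p t) - F (t, q t) := by
  refine dv_of_isBigO ((analytic_subst hF hp hp0).sub (analytic_subst hF hq hq0)) ?_
  obtain ⟨K, s, hs, hK⟩ := hF.hasStrictFDerivAt.exists_lipschitzOnWith
  refine IsBigO.trans (IsBigO.of_bound (K : ℝ) ?_) (h.isBigO.mono nhdsWithin_le_nhds)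
  filter_upwards [((tendsto_subst hp hp0).eventually hs).filter_mono nhdsWithin_le_nhds,
    ((tendsto_subst hq hq0).eventually hs).filter_mono nhdsWithin_le_nhds] with t a b
  have := hK.dist_le_mul _ a _ b
  rw [dist_eq_norm, dist_eq_norm, Prod.mk_sub_mk, sub_self, Prod.norm_mk, norm_zero, max_eq_right (norm_nonneg _)] at this
  exact this

/-- the derivative in the second variable -/
def dyF (F : ℂ × ℂ → ℂ) (x : ℂ × ℂ) : ℂ := fderiv ℂ F x (0, 1)

theorem analytic_dyF {x : ℂ × ℂ} (hF : AnalyticAt ℂ F x) : AnalyticAt ℂ (dyF F) x :=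
  (ContinuousLinearMap.apply ℂ ℂ ((0 : ℂ), (1 : ℂ))).analyticAt _ |>.comp hF.fderiv

theorem hasDerivAt_snd {t y : ℂ} (hF : AnalyticAt ℂ F (t, y)) : HasDerivAt (fun y => F (t, y)) (dyF F (t, y)) y := by
  have h1 : HasDerivAt (fun y : ℂ => (t, y)) ((0 : ℂ), (1 : ℂ)) y := (hasDerivAt_const y t).prodMk (hasDerivAt_id y)
  exact hF.differentiableAt.hasFDerivAt.comp_hasDerivAt y h1

/-- Taylor's formula -/
theorem dv_taylor (hF : AnalyticAt ℂ F 0) (hp : AnalyticAt ℂ p 0) (hp0 : p 0 = 0) (hq : AnalyticAt ℂ q 0) (hq0 : q 0 = 0) {n : ℕ}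
    (h : Dv n fun t => q t - p t) : Dv (n + n) fun t => F (t, q t) - F (t, p t) - dyF F (t, p t) * (q t - p t) := by
  have hdF := analytic_dyF hF
  refine dv_of_isBigO (((analytic_subst hF hq hq0).sub (analytic_subst hF hp hp0)).sub ((analytic_subst hdF hp hp0).mul (hq.sub hp))) ?_
  obtain ⟨K, s, hs, hK⟩ := hdF.hasStrictFDerivAt.exists_lipschitzOnWith
  obtain ⟨r, hr, hball⟩ := Metric.eventually_nhds_iff_ball.1 (hF.eventually_analyticAt.and hs)
  have e1 : (fun t => (q t - p t) * (q t - p t)) =O[𝓝[≠] 0] fun t : ℂ => t ^ (n + n) := by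
    simp only [pow_add]
    exact (h.isBigO.mul h.isBigO).mono nhdsWithin_le_nhds
  refine IsBigO.trans (IsBigO.of_bound (K : ℝ) ?_) e1
  have c1 : ∀ᶠ t in 𝓝 (0 : ℂ), ‖t‖ < r ∧ ‖p t‖ < r / 2 ∧ ‖q t - p t‖ < r / 2 := by
    have a1 : Tendsto (fun t : ℂ => ‖t‖) (𝓝 0) (𝓝 0) := by simpa using (continuous_norm (E := ℂ)).tendsto 0
    have a2 : Tendsto (fun t : ℂ => ‖p t‖) (𝓝 0) (𝓝 0) := by simpa [hp0] using hp.continuousAt.norm.tendsto
    have a3 : Tendsto (fun t : ℂ => ‖q t - p t‖) (𝓝 0) (𝓝 0) := by simpa [hp0, hq0] using (hq.continuousAt.sub hp.continuousAt).norm.tendsto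
    exact (a1.eventually (gt_mem_nhds hr)).and ((a2.eventually (gt_mem_nhds (half_pos hr))).and (a3.eventually (gt_mem_nhds (half_pos hr))))
  filter_upwards [c1.filter_mono nhdsWithin_le_nhds] with t ht
  obtain ⟨t1, t2, t3⟩ := ht
  have hmem : ∀ y ∈ Metric.closedBall (p t) ‖q t - p t‖, ((t, y) : ℂ × ℂ) ∈ Metric.ball (0 : ℂ × ℂ) r := by
    intro y hy
    rw [mem_closedBall_iff_norm] at hy
    rw [mem_ball_zero_iff, Prod.norm_mk]
    refine max_lt t1 ?_
    calc ‖y‖ = ‖(y - p t) + p t‖ := by ring_nf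
      _ ≤ ‖y - p t‖ + ‖p t‖ := norm_add_le _ _
      _ < r := by linarith
  have hpm : p t ∈ Metric.closedBall (p t) ‖q t - p t‖ := Metric.mem_closedBall_self (norm_nonneg _)
  have hqm : q t ∈ Metric.closedBall (p t) ‖q t - p t‖ := by rw [mem_closedBall_iff_norm]
  have key := Convex.norm_image_sub_le_of_norm_hasDerivWithin_le (f := fun y => F (t, y) - dyF F (t, p t) * y)
    (f' := fun y => dyF F (t, y) - dyF F (t, p t)) (C := K * ‖q t - p t‖) (s := Metric.closedBall (p t) ‖q t - p t‖) (x := p t) (y := q t)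
    (fun y hy => by
      have h1 := hasDerivAt_snd (hball _ (hmem y hy)).1
      have h2 : HasDerivAt (fun y : ℂ => dyF F (t, p t) * y) (dyF F (t, p t)) y := by
        simpa using (hasDerivAt_id y).const_mul (dyF F (t, p t))
      exact (h1.sub h2).hasDerivWithinAt)
    (fun y hy => by
      have h1 := hK.dist_le_mul _ (hball _ (hmem y hy)).2 _ (hball _ (hmem _ hpm)).2
      rw [dist_eq_norm, dist_eq_norm, Prod.mk_sub_mk, sub_self, Prod.norm_mk, norm_zero, max_eq_right (norm_nonneg _)] at h1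
      refine h1.trans (mul_le_mul_of_nonneg_left ?_ K.2)
      rwa [mem_closedBall_iff_norm] at hy)
    (convex_closedBall _ _) hpm hqm
  have e2 : F (t, q t) - F (t, p t) - dyF F (t, p t) * (q t - p t) = F (t, q t) - dyF F (t, p t) * q t - (F (t, p t) - dyF F (t, p t) * p t) := by ring
  rw [e2, norm_mul]
  refine key.trans (le_of_eq ?_)
  ring

/-- division of a function of two variables, pointwise criterion -/
theorem exists_div_pow {H : ℂ × ℂ → ℂ} (hH : AnalyticAt ℂ H 0) {k : ℕ} (h : ∀ᶠ u in 𝓝 (0 : ℂ), Dv k fun t => H (t, u)) :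
    ∃ G : ℂ × ℂ → ℂ, AnalyticAt ℂ G 0 ∧ ∀ᶠ x in 𝓝 (0 : ℂ × ℂ), H x = x.1 ^ k * G x := by
  by_cases h0 : ∀ᶠ x in 𝓝 (0 : ℂ × ℂ), H x = 0
  · exact ⟨fun _ => 0, analyticAt_const, by filter_upwards [h0] with x a; rw [a, mul_zero]⟩
  · obtain ⟨a, G, hG, he, hn⟩ := Pool.Agent.H22.HF.exists_div hH h0
    have hak : k ≤ a := by
      have hc : Tendsto (fun u : ℂ => ((0 : ℂ), u)) (𝓝 0) (𝓝 0) := (by fun_prop : Continuous fun u : ℂ => ((0 : ℂ), u)).tendsto' _ _ rfl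
      have h1 : ∀ᶠ u in 𝓝 (0 : ℂ), (∀ᶠ x in 𝓝 ((0 : ℂ), u), H x = x.1 ^ a * G x) ∧ AnalyticAt ℂ G (0, u) :=
        (hc.eventually he.eventually_nhds).and (hc.eventually hG.eventually_analyticAt)
      have h2 : ∃ᶠ u in 𝓝 (0 : ℂ), G (0, u) ≠ 0 := by simpa [Filter.not_eventually] using hn
      obtain ⟨u, hu, ⟨h3, h4⟩, h5⟩ := (h2.and_eventually (h1.and h)).exists
      have hl : AnalyticAt ℂ (fun t : ℂ => (t, u)) 0 := analyticAt_id.prod analyticAt_const
      have h6 : Oq a fun t => H (t, u) := by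
        refine ⟨fun t => G (t, u), AnalyticAt.fun_comp (g := G) (f := fun t : ℂ => (t, u)) h4 hl, hu, ?_⟩
        exact (hl.continuousAt.tendsto.eventually h3)
      exact h6.dv_iff h5
    obtain ⟨d, rfl⟩ := Nat.exists_eq_add_of_le hak
    exact ⟨fun x => x.1 ^ d * G x, (analyticAt_fst.pow d).mul hG, by filter_upwards [he] with x a; rw [a, pow_add]; ring⟩

/-! ## jets -/

theorem analytic_jet (c : ℕ → ℂ) (n : ℕ) (t : ℂ) : AnalyticAt ℂ (jet c n) t := by
  unfold Pool.Agent.MQ.jet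
  exact Finset.analyticAt_fun_sum _ fun i _ => analyticAt_const.mul (analyticAt_id.pow i)

theorem jet_zero {c : ℕ → ℂ} (hc : c 0 = 0) (n : ℕ) : jet c n 0 = 0 := by
  unfold Pool.Agent.MQ.jet
  rw [Finset.sum_range_succ']
  simp [hc]

theorem jet_add (c : ℕ → ℂ) (n m : ℕ) (t : ℂ) : jet c (n + m) t = jet c n t + t ^ (n + 1) * ∑ i ∈ Finset.range m, c (n + 1 + i) * t ^ i := by
  unfold Pool.Agent.MQ.jet
  rw [show n + m + 1 = (n + 1) + m by ring, Finset.sum_range_add, Finset.mul_sum]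
  congr 1
  refine Finset.sum_congr rfl fun i _ => ?_
  rw [pow_add]; ring

theorem dv_jet (c : ℕ → ℂ) (n m : ℕ) : Dv (n + 1) fun t => jet c (n + m) t - jet c n t := by
  refine ⟨fun t => ∑ i ∈ Finset.range m, c (n + 1 + i) * t ^ i, ?_, Eventually.of_forall fun t => ?_⟩
  · exact Finset.analyticAt_fun_sum _ fun i _ => analyticAt_const.mul (analyticAt_id.pow i)
  · simp only [jet_add]; ring

theorem dv_jet' (c : ℕ → ℂ) {e n m : ℕ} (hn : e ≤ n) (hm : e ≤ m) : Dv (e + 1) fun t => jet c n t - jet c m t := by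
  obtain ⟨a, rfl⟩ := Nat.exists_eq_add_of_le hn
  obtain ⟨b, rfl⟩ := Nat.exists_eq_add_of_le hm
  refine ((dv_jet c e a).sub (dv_jet c e b)).congr (Eventually.of_forall fun t => ?_)
  ring

/-- `F` vanishes along the formal curve -/
def Flat (c : ℕ → ℂ) (F : ℂ × ℂ → ℂ) : Prop := ∀ n, Dv (n + 1) fun t => F (t, jet c n t)

theorem exists_flat {c : ℕ → ℂ} (hc : c 0 = 0) (N : ℕ) : ∀ {g : ℂ × ℂ → ℂ}, AnalyticAt ℂ g 0 → Flat c g → (Oq N fun y => g (0, y)) →
    ∃ F : ℂ × ℂ → ℂ, AnalyticAt ℂ F 0 ∧ Flat c F ∧ ¬ Flat c (dyF F) := by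
  induction N with
  | zero =>
    intro g hg hf ho
    exfalso
    obtain ⟨k, _, hk0, hk⟩ := ho
    have h1 := (hf 0).zero
    simp only [jet_zero hc] at h1
    have h2 := hk.self_of_nhds
    simp only at h2
    rw [h1, pow_zero, one_mul] at h2
    exact hk0 h2.symm
  | succ N ih =>
    intro g hg hf ho
    by_cases hd : Flat c (dyF g)
    · refine ih (analytic_dyF hg) hd ?_
      obtain ⟨k, hk, hk0, he⟩ := ho
      refine ⟨fun y => (N + 1) * k y + y * deriv k y, (analyticAt_const.mul hk).add (analyticAt_id.mul hk.deriv), ?_, ?_⟩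
      · simp only [zero_mul, add_zero]
        exact mul_ne_zero (by exact_mod_cast Nat.succ_ne_zero N) hk0
      · have hc2 : Tendsto (fun u : ℂ => ((0 : ℂ), u)) (𝓝 0) (𝓝 0) := (by fun_prop : Continuous fun u : ℂ => ((0 : ℂ), u)).tendsto' _ _ rfl
        filter_upwards [he.eventually_nhds, hc2.eventually hg.eventually_analyticAt, hk.eventually_analyticAt] with y a b d
        have h1 := hasDerivAt_snd b
        have h2 : HasDerivAt (fun y : ℂ => y ^ (N + 1) * k y) (((N + 1 : ℕ) : ℂ) * y ^ N * k y + y ^ (N + 1) * deriv k y) y := by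
          have h3 : HasDerivAt (fun y : ℂ => y ^ (N + 1) * k y) _ y := (hasDerivAt_pow (N + 1) y).mul d.differentiableAt.hasDerivAt
          refine h3.congr_deriv ?_
          simp
        have h4 := (h1.congr_of_eventuallyEq (f₁ := fun y => y ^ (N + 1) * k y) (by filter_upwards [a] with z hz; rw [hz])).unique h2
        rw [h4]
        push_cast
        ring
    · exact ⟨g, hg, hf, hd⟩

/-- the main step -/
theorem main {F : ℂ × ℂ → ℂ} (hF : AnalyticAt ℂ F 0) {c : ℕ → ℂ} (hc : c 0 = 0) (hf : Flat c F) (hd : ¬ Flat c (dyF F)) :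
    ∃ s : ℂ → ℂ, AnalyticAt ℂ s 0 ∧ s 0 = 0 ∧ ∀ n, Dv (n + 1) fun t => s t - jet c n t := by
  have hdF := analytic_dyF hF
  -- the order `e` of `∂F/∂y` along the curve
  obtain ⟨e, U, hU, hU0, he, hUe⟩ : ∃ (e : ℕ) (U : ℂ → ℂ), AnalyticAt ℂ U 0 ∧ U 0 ≠ 0 ∧ True ∧
      ∀ᶠ t in 𝓝 (0 : ℂ), dyF F (t, jet c (2 * e + 1) t) = t ^ e * U t := by
    rw [Flat, not_forall] at hd
    obtain ⟨J, hJ⟩ := hd
    have ha : AnalyticAt ℂ (fun t => dyF F (t, jet c J t)) 0 := analytic_subst hdF (analytic_jet c J 0) (jet_zero hc J)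
    obtain ⟨e, ho⟩ := not_eventually_iff ha fun h => hJ ⟨fun _ => 0, analyticAt_const, by filter_upwards [h] with t a; rw [a, mul_zero]⟩
    have heJ : e ≤ J := by
      by_contra hlt
      rw [not_le] at hlt
      obtain ⟨k, h1, h2, h3⟩ := ho
      exact hJ (Dv.mono hlt ⟨k, h1, h3⟩)
    obtain ⟨U₀, h1, h2, h3⟩ := ho
    obtain ⟨κ, h4, h5⟩ := dv_subst hdF (analytic_jet c (2 * e + 1) 0) (jet_zero hc _) (analytic_jet c J 0) (jet_zero hc J)
      (dv_jet' c (e := e) (n := 2 * e + 1) (m := J) (by omega) heJ)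
    refine ⟨e, fun t => U₀ t + t * κ t, h1.add (analyticAt_id.mul h4), ?_, trivial, ?_⟩
    · simpa using h2
    · filter_upwards [h3, h5] with t a b
      have : dyF F (t, jet c (2 * e + 1) t) = (dyF F (t, jet c (2 * e + 1) t) - dyF F (t, jet c J t)) + dyF F (t, jet c J t) := by ring
      rw [this, b, a, pow_succ]
      ring
  set p : ℂ → ℂ := jet c (2 * e + 1) with hp
  have hpa : AnalyticAt ℂ p 0 := analytic_jet c _ 0
  have hp0 : p 0 = 0 := jet_zero hc _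
  -- the function `H (t, u) = F (t, p t + t ^ (e + 1) u)`
  set H : ℂ × ℂ → ℂ := fun x => F (x.1, p x.1 + x.1 ^ (e + 1) * x.2) with hH
  have hm0 : AnalyticAt ℂ (fun x : ℂ × ℂ => (x.1, p x.1 + x.1 ^ (e + 1) * x.2)) 0 := by
    have h1 : AnalyticAt ℂ (fun x : ℂ × ℂ => p x.1) 0 := AnalyticAt.fun_comp (g := p) (f := fun x : ℂ × ℂ => x.1) (x := 0) hpa analyticAt_fst
    exact analyticAt_fst.prod (h1.add ((analyticAt_fst.pow _).mul analyticAt_snd))
  have hHa : AnalyticAt ℂ H 0 := by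
    have h2 : ((0 : ℂ × ℂ).1, p (0 : ℂ × ℂ).1 + (0 : ℂ × ℂ).1 ^ (e + 1) * (0 : ℂ × ℂ).2) = 0 := by simp [hp0]
    exact AnalyticAt.fun_comp (g := F) (f := fun x : ℂ × ℂ => (x.1, p x.1 + x.1 ^ (e + 1) * x.2)) (by rw [h2]; exact hF) hm0
  have hT : ∀ u : ℂ, Dv (2 * e + 2) fun t => H (t, u) - t ^ (2 * e + 1) * (U t * u) := by
    intro u
    have hqa : AnalyticAt ℂ (fun t => p t + t ^ (e + 1) * u) 0 := hpa.add ((analyticAt_id.pow _).mul analyticAt_const)
    have hq0 : (fun t => p t + t ^ (e + 1) * u) 0 = 0 := by simp [hp0]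
    have h1 := dv_taylor (n := e + 1) hF hpa hp0 hqa hq0 ⟨fun _ => u, analyticAt_const, Eventually.of_forall fun t => by ring⟩
    have h2 := hf (2 * e + 1)
    rw [show e + 1 + (e + 1) = 2 * e + 2 by ring] at h1
    rw [show 2 * e + 1 + 1 = 2 * e + 2 by ring] at h2
    refine (h1.add h2).congr ?_
    filter_upwards [hUe] with t ht
    rw [← hp, ht]
    simp only [hH]
    ring
  obtain ⟨G, hG, hGe⟩ := exists_div_pow hHa (k := 2 * e + 1) (Eventually.of_forall fun u => by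
    have h1 : Dv (2 * e + 1) fun t => t ^ (2 * e + 1) * (U t * u) := ⟨fun t => U t * u, hU.mul analyticAt_const, Eventually.of_forall fun t => rfl⟩
    refine (((hT u).mono (by omega)).add h1).congr (Eventually.of_forall fun t => ?_)
    ring)
  -- `G (0, u) = U (0) u`
  have hG0 : ∀ᶠ u in 𝓝 (0 : ℂ), G (0, u) = U 0 * u := by
    have hc : Tendsto (fun u : ℂ => ((0 : ℂ), u)) (𝓝 0) (𝓝 0) := (by fun_prop : Continuous fun u : ℂ => ((0 : ℂ), u)).tendsto' _ _ rfl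
    filter_upwards [hc.eventually hGe.eventually_nhds, hc.eventually hG.eventually_analyticAt] with u h1 h2
    have hl : AnalyticAt ℂ (fun t : ℂ => (t, u)) 0 := analyticAt_id.prod analyticAt_const
    have h3 : AnalyticAt ℂ (fun t => G (t, u)) 0 := AnalyticAt.fun_comp (g := G) (f := fun t : ℂ => (t, u)) h2 hl
    have h4 : Dv ((2 * e + 1) + 1) fun t => t ^ (2 * e + 1) * (G (t, u) - U t * u) := by
      refine (hT u).congr ?_
      filter_upwards [hl.continuousAt.tendsto.eventually h1] with t ht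
      rw [ht]
      ring
    have h5 := (h4.cancel (h3.sub (hU.mul analyticAt_const))).zero
    exact sub_eq_zero.1 h5
  have hG00 : G 0 = 0 := by
    have h1 : G (0, 0) = U 0 * 0 := hG0.self_of_nhds
    rw [mul_zero] at h1
    exact h1
  -- the inverse of `(t, u) ↦ (t, G (t, u))`
  set Ψ : ℂ × ℂ → ℂ × ℂ := fun x => (x.1, G x) with hΨ
  have hΨa : AnalyticAt ℂ Ψ 0 := analyticAt_fst.prod hG
  have hΨd : HasFDerivAt Ψ ((ContinuousLinearMap.fst ℂ ℂ ℂ).prod (fderiv ℂ G 0)) 0 := hasFDerivAt_fst.prodMk hG.differentiableAt.hasFDerivAt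
  have hdG : fderiv ℂ G 0 (0, 1) = U 0 := by
    have h1 : HasDerivAt (fun u => G (0, u)) (dyF G (0, 0)) 0 := hasDerivAt_snd (F := G) (t := 0) (y := 0) hG
    have h2 : HasDerivAt (fun u : ℂ => U 0 * u) (U 0) 0 := by simpa using (hasDerivAt_id (0 : ℂ)).const_mul (U 0)
    exact h1.unique (h2.congr_of_eventuallyEq hG0)
  obtain ⟨Θ, hΘ, hΘ1, hΘ2, hΘ0⟩ := Pool.Agent.H62.BU.local_inverse hΨa (by
    intro v hv
    rw [hΨd.fderiv] at hv
    simp only [ContinuousLinearMap.prod_apply, ContinuousLinearMap.coe_fst', Prod.mk_eq_zero] at hv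
    obtain ⟨a1, a2⟩ := hv
    have a3 : v = v.2 • ((0, 1) : ℂ × ℂ) := by ext <;> simp [a1]
    rw [a3, map_smul, smul_eq_mul, mul_eq_zero, hdG] at a2
    rcases a2 with a2 | a2
    · rw [a3, a2, zero_smul]
    · exact absurd a2 hU0)
  have hΨ0 : Ψ 0 = 0 := by ext <;> simp [hΨ, hG00]
  rw [hΨ0] at hΘ hΘ2 hΘ0
  set T : ℂ × ℂ → ℂ := fun x => (Θ x).2 with hTd
  have hTa : AnalyticAt ℂ T 0 := AnalyticAt.fun_comp (g := Prod.snd) (f := Θ) analyticAt_snd hΘ
  have hua : AnalyticAt ℂ (fun t => T (t, 0)) 0 := analytic_subst (p := fun _ => 0) hTa analyticAt_const rfl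
  have hu0 : T (0, 0) = 0 := by
    have : Θ (0, 0) = 0 := hΘ0
    simp [hTd, this]
  refine ⟨fun t => p t + t ^ (e + 1) * T (t, 0), hpa.add ((analyticAt_id.pow _).mul hua), by simp [hp0], fun n => ?_⟩
  -- the jets in terms of `u`
  set w : ℂ → ℂ := fun t => t ^ (e + 1) * ∑ i ∈ Finset.range n, c (2 * e + 1 + 1 + i) * t ^ i with hw
  have hwa : AnalyticAt ℂ w 0 := (analyticAt_id.pow _).mul (Finset.analyticAt_fun_sum _ fun i _ => analyticAt_const.mul (analyticAt_id.pow i))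
  have hw0 : w 0 = 0 := by simp [hw]
  have hjet : ∀ t, jet c (2 * e + 1 + n) t = p t + t ^ (e + 1) * w t := by
    intro t
    rw [jet_add, hw]
    simp only
    rw [show 2 * e + 1 + 1 = (e + 1) + (e + 1) by ring, pow_add]
    ring
  have hGw : Dv (n + 1) fun t => G (t, w t) := by
    refine Dv.cancel (a := 2 * e + 1) (analytic_subst hG hwa hw0) ?_
    have h1 := hf (2 * e + 1 + n)
    rw [show 2 * e + 1 + n + 1 = 2 * e + 1 + (n + 1) by ring] at h1
    refine h1.congr ?_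
    filter_upwards [(tendsto_subst hwa hw0).eventually hGe] with t ht
    simp only [hH] at ht
    rw [hjet, ← ht]
  have hGw0 : G (0, w 0) = 0 := by rw [hw0]; exact hG00
  have h2 : Dv (n + 1) fun t => T (t, G (t, w t)) - T (t, 0) :=
    dv_subst hTa (analytic_subst hG hwa hw0) hGw0 analyticAt_const rfl (hGw.congr (Eventually.of_forall fun t => by simp))
  have h3 : ∀ᶠ t in 𝓝 (0 : ℂ), T (t, G (t, w t)) = w t := by
    filter_upwards [(tendsto_subst hwa hw0).eventually hΘ1] with t ht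
    have : Θ (t, G (t, w t)) = (t, w t) := ht
    simp [hTd, this]
  have h4 : Dv (n + 1) fun t => t ^ (e + 1) * (T (t, G (t, w t)) - T (t, 0)) := (h2.pow_mul (e + 1)).mono (by omega)
  have h5 := dv_jet' c (e := n) (n := 2 * e + 1 + n) (m := n) (by omega) le_rfl
  refine (h5.sub h4).congr ?_
  filter_upwards [h3] with t ht
  rw [ht, hjet]
  ring

end Pool.Agent.MQ2.AC

namespace Pool.Agent.MQ2

open Pool.Agent.MQ (jet)
open AC

/-- a formal solution of an analytic equation converges -/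
theorem conv_of_alg {f : ℂ × ℂ → ℂ} (hf : AnalyticAt ℂ f 0) (hne : ¬ ∀ᶠ p in 𝓝 (0 : ℂ × ℂ), f p = 0) {c : ℕ → ℂ} (hc : c 0 = 0)
    (h : ∀ n, (fun t => f (t, jet c n t)) =O[𝓝 0] fun t : ℂ => t ^ (n + 1)) :
    ∃ s : ℂ → ℂ, AnalyticAt ℂ s 0 ∧ s 0 = 0 ∧ (∀ n, (fun t => s t - jet c n t) =O[𝓝 0] fun t : ℂ => t ^ (n + 1)) ∧
      ∀ᶠ t in 𝓝 (0 : ℂ), f (t, s t) = 0 := by
  have hflat : Flat c f := fun n => dv_of_isBigO (analytic_subst hf (analytic_jet c n 0) (jet_zero hc n)) ((h n).mono nhdsWithin_le_nhds)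
  obtain ⟨m, g, hg, hge, hgn⟩ := Pool.Agent.H22.HF.exists_div hf hne
  have hgflat : Flat c g := by
    intro n
    have h1 : Dv (n + 1) fun t => g (t, jet c (n + m) t) := by
      refine Dv.cancel (a := m) (analytic_subst hg (analytic_jet c _ 0) (jet_zero hc _)) ?_
      refine ((hflat (n + m)).mono (by omega)).congr ?_
      filter_upwards [(tendsto_subst (analytic_jet c (n + m) 0) (jet_zero hc _)).eventually hge] with t ht
      exact ht.symm
    have h2 := dv_subst hg (analytic_jet c (n + m) 0) (jet_zero hc _) (analytic_jet c n 0) (jet_zero hc _) (dv_jet c n m)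
    refine (h1.sub h2).congr (Eventually.of_forall fun t => ?_)
    ring
  have hl : AnalyticAt ℂ (fun y : ℂ => ((0 : ℂ), y)) 0 := analyticAt_const.prod analyticAt_id
  have hg0 : AnalyticAt ℂ (fun y => g (0, y)) 0 := AnalyticAt.fun_comp (g := g) (f := fun y : ℂ => ((0 : ℂ), y)) hg hl
  obtain ⟨N, hN⟩ := not_eventually_iff hg0 hgn
  obtain ⟨F, hF, hFf, hFd⟩ := exists_flat hc N hg hgflat hN
  obtain ⟨s, hs, hs0, hsn⟩ := AC.main hF hc hFf hFd
  refine ⟨s, hs, hs0, fun n => (hsn n).isBigO, ?_⟩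
  by_contra hcon
  obtain ⟨e, he⟩ := not_eventually_iff (analytic_subst hf hs hs0) hcon
  have h1 := dv_subst hf hs hs0 (analytic_jet c e 0) (jet_zero hc _) (hsn e)
  have h2 : Dv (e + 1) fun t => f (t, s t) := by
    refine (h1.add (hflat e)).congr (Eventually.of_forall fun t => ?_)
    ring
  have := he.dv_iff h2
  omega

end Pool.Agent.MQ2
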