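import Pool.Agent.MQ2.BB0
import Pool.Agent.H17BP.Div

/-!
# MQ2 BB: the theorem of Briot and Bouquet

`F` analytic at `0`, `F 0 = 0`, `λ = ∂F/∂s (0)` not in `{1, 2, 3, ...}`: the equation `x s' = F (x, s)` has an analytic solution with `s 0 = 0`.
-/

set_option autoImplicit false

open Topology Filter Metric Set MeasureTheory

noncomputable section

namespace Pool.Agent.MQ2

/-- the iteration -/
def itr (μ : ℂ) (G : ℂ × ℂ → ℂ) : ℕ → ℂ → ℂ
  | 0 => fun _ => 0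
  | n + 1 => Top μ fun w => G (w, itr μ G n w)

theorem bb_neg {F : ℂ × ℂ → ℂ} (hF : AnalyticAt ℂ F 0) (h0 : F 0 = 0) (hl : (fderiv ℂ F 0 (0, 1)).re ≤ -2) :
    ∃ s : ℂ → ℂ, AnalyticAt ℂ s 0 ∧ s 0 = 0 ∧ ∀ᶠ x in 𝓝 (0 : ℂ), x * deriv s x = F (x, s x) := by
  set μ : ℂ := -fderiv ℂ F 0 (0, 1) with hμdef
  have hμ : 2 ≤ μ.re := by rw [hμdef, Complex.neg_re]; linarith
  set G : ℂ × ℂ → ℂ := fun p => F p + μ * p.2 with hG
  have hG0 : G 0 = 0 := by simp [hG, h0]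
  -- a small box
  have hS := hF.hasStrictFDerivAt.isLittleO.bound (show (0:ℝ) < 1 / 4 by norm_num)
  obtain ⟨ρ₁, hρ₁, H1⟩ := Metric.eventually_nhds_iff_ball.1 hS
  obtain ⟨ρ₂, hρ₂, H2⟩ := Metric.eventually_nhds_iff_ball.1 hF.eventually_analyticAt
  set ρ : ℝ := min ρ₁ ρ₂ / 2 with hρ
  have hρ0 : 0 < ρ := by positivity
  have hlt1 : ρ < ρ₁ := by
    have := min_le_left ρ₁ ρ₂; have h3 : 0 < min ρ₁ ρ₂ := lt_min hρ₁ hρ₂; rw [hρ]; linarith
  have hlt2 : ρ < ρ₂ := by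
    have := min_le_right ρ₁ ρ₂; have h3 : 0 < min ρ₁ ρ₂ := lt_min hρ₁ hρ₂; rw [hρ]; linarith
  have hlip : ∀ x a b : ℂ, ‖x‖ ≤ ρ → ‖a‖ ≤ ρ → ‖b‖ ≤ ρ → ‖G (x, a) - G (x, b)‖ ≤ 1 / 4 * ‖a - b‖ := by
    intro x a b hx ha hb
    have h1 : (((x, a), (x, b)) : (ℂ × ℂ) × (ℂ × ℂ)) ∈ ball (0, 0) ρ₁ := by
      rw [← Prod.zero_eq_mk, mem_ball_zero_iff]
      simp only [Prod.norm_mk, max_lt_iff]
      exact ⟨⟨hx.trans_lt hlt1, ha.trans_lt hlt1⟩, ⟨hx.trans_lt hlt1, hb.trans_lt hlt1⟩⟩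
    have h2 := H1 _ h1
    simp only at h2
    have h3 : ((x, a) - (x, b) : ℂ × ℂ) = (a - b) • ((0:ℂ), (1:ℂ)) := by
      ext <;> simp
    rw [h3, map_smul] at h2
    have h4 : G (x, a) - G (x, b) = F (x, a) - F (x, b) - (a - b) • (fderiv ℂ F 0 (0, 1)) := by
      simp only [hG, hμdef, smul_eq_mul]; ring
    rw [h4]
    refine h2.trans (le_of_eq ?_)
    rw [norm_smul]; simp [Prod.norm_mk]
  have han : ∀ x a : ℂ, ‖x‖ ≤ ρ → ‖a‖ ≤ ρ → AnalyticAt ℂ G (x, a) := by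
    intro x a hx ha
    have h1 : ((x, a) : ℂ × ℂ) ∈ ball (0 : ℂ × ℂ) ρ₂ := by
      rw [mem_ball_zero_iff]
      simp only [Prod.norm_mk, max_lt_iff]
      exact ⟨hx.trans_lt hlt2, ha.trans_lt hlt2⟩
    exact (H2 _ h1).add (analyticAt_const.mul analyticAt_snd)
  have hcont : ∀ᶠ x in 𝓝 (0:ℂ), ‖G (x, 0)‖ < ρ / 2 := by
    have h1 : ContinuousAt (fun x : ℂ => G (x, 0)) 0 := by
      have : ContinuousAt G ((fun x : ℂ => (x, (0:ℂ))) 0) := (han 0 0 (by simpa using hρ0.le) (by simpa using hρ0.le)).continuousAt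
      exact this.comp (f := fun x : ℂ => (x, (0:ℂ))) (by fun_prop)
    have h2 : ‖G ((0:ℂ), (0:ℂ))‖ < ρ / 2 := by
      have : G ((0:ℂ), (0:ℂ)) = 0 := hG0
      rw [this]; simpa using hρ0
    exact h1.norm.eventually_lt_const h2
  obtain ⟨r₁, hr₁, H3⟩ := Metric.eventually_nhds_iff_ball.1 hcont
  set r : ℝ := min r₁ ρ with hr
  have hr0 : 0 < r := lt_min hr₁ hρ0
  have hxρ : ∀ x ∈ ball (0:ℂ) r, ‖x‖ ≤ ρ := fun x hx => by
    rw [mem_ball_zero_iff] at hx; exact (hx.trans_le (min_le_right _ _)).le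
  have hG1 : ∀ x ∈ ball (0:ℂ) r, ∀ a : ℂ, ‖a‖ ≤ ρ → ‖G (x, a)‖ ≤ ρ := by
    intro x hx a ha
    have h1 := H3 x (ball_subset_ball (min_le_left _ _) hx)
    have h2 := hlip x a 0 (hxρ x hx) ha (by simpa using hρ0.le)
    rw [sub_zero] at h2
    calc ‖G (x, a)‖ = ‖(G (x, a) - G (x, 0)) + G (x, 0)‖ := by rw [sub_add_cancel]
      _ ≤ ‖G (x, a) - G (x, 0)‖ + ‖G (x, 0)‖ := norm_add_le _ _
      _ ≤ 1 / 4 * ρ + ρ / 2 := by gcongr; exact h2.trans (by gcongr)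
      _ ≤ ρ := by linarith
  -- composition
  have hcomp : ∀ u : ℂ → ℂ, DifferentiableOn ℂ u (ball 0 r) → (∀ x ∈ ball (0:ℂ) r, ‖u x‖ ≤ ρ) →
      DifferentiableOn ℂ (fun w => G (w, u w)) (ball 0 r) := by
    intro u hu hb x hx
    have h1 : DifferentiableAt ℂ G (x, u x) := (han x (u x) (hxρ x hx) (hb x hx)).differentiableAt
    have h2 : DifferentiableWithinAt ℂ (fun w => (w, u w)) (ball 0 r) x := differentiableWithinAt_id.prodMk (hu x hx)
    exact h1.comp_differentiableWithinAt x h2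
  -- the iterates
  have hit : ∀ n, DifferentiableOn ℂ (itr μ G n) (ball 0 r) ∧ ∀ x ∈ ball (0:ℂ) r, ‖itr μ G n x‖ ≤ ρ := by
    intro n
    induction n with
    | zero => exact ⟨differentiableOn_const _, fun x _ => by simpa [itr] using hρ0.le⟩
    | succ n ih =>
      have hc := hcomp _ ih.1 ih.2
      refine ⟨fun x hx => ((top_hasDeriv hμ hc hx).2.differentiableAt).differentiableWithinAt, fun x hx => ?_⟩
      exact top_bound hμ (fun w hw => hG1 w hw _ (ih.2 w hw)) hx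
  have hdiff : ∀ n, ∀ x ∈ ball (0:ℂ) r, dist (itr μ G n x) (itr μ G (n + 1) x) ≤ ρ * (1 / 4) ^ n := by
    intro n
    induction n with
    | zero =>
      intro x hx
      have := (hit 1).2 x hx
      simpa [itr, dist_eq_norm] using this
    | succ n ih =>
      intro x hx
      rw [dist_eq_norm]
      have h1 := top_sub hμ (hcomp _ (hit n).1 (hit n).2).continuousOn (hcomp _ (hit (n+1)).1 (hit (n+1)).2).continuousOn hx
      have h2 : itr μ G (n + 1) x - itr μ G (n + 1 + 1) x =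
        Top μ (fun w => G (w, itr μ G n w) - G (w, itr μ G (n+1) w)) x := h1
      rw [h2]
      refine top_bound hμ (fun w hw => ?_) hx
      refine (hlip w _ _ (hxρ w hw) ((hit n).2 w hw) ((hit (n+1)).2 w hw)).trans ?_
      have h3 := ih w hw
      rw [dist_eq_norm] at h3
      calc 1 / 4 * ‖itr μ G n w - itr μ G (n + 1) w‖ ≤ 1 / 4 * (ρ * (1 / 4) ^ n) := by gcongr
        _ = ρ * (1 / 4) ^ (n + 1) := by ring
  have hlim : ∀ x ∈ ball (0:ℂ) r, ∃ y, Tendsto (fun n => itr μ G n x) atTop (𝓝 y) := by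
    intro x hx
    exact cauchySeq_tendsto_of_complete (cauchySeq_of_le_geometric (1/4) ρ (by norm_num) (fun n => hdiff n x hx))
  choose! S hSl using hlim
  have hSd : ∀ n, ∀ x ∈ ball (0:ℂ) r, dist (itr μ G n x) (S x) ≤ ρ * (1 / 4) ^ n / (1 - 1 / 4) := fun n x hx =>
    dist_le_of_le_geometric_of_tendsto (1/4) ρ (by norm_num) (fun n => hdiff n x hx) (hSl x hx) n
  have hgeo : Tendsto (fun n : ℕ => ρ * (1 / 4 : ℝ) ^ n / (1 - 1 / 4)) atTop (𝓝 0) := by
    have := (tendsto_pow_atTop_nhds_zero_of_lt_one (r := (1/4 : ℝ)) (by norm_num) (by norm_num)).const_mul ρ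
    have h2 := this.div_const (1 - 1 / 4)
    simpa using h2
  have hSu : TendstoUniformlyOn (itr μ G) S atTop (ball 0 r) := by
    rw [Metric.tendstoUniformlyOn_iff]
    intro ε hε
    filter_upwards [hgeo.eventually_lt_const hε] with n hn x hx
    rw [dist_comm]
    exact (hSd n x hx).trans_lt hn
  have hSdiff : DifferentiableOn ℂ S (ball 0 r) :=
    hSu.tendstoLocallyUniformlyOn.differentiableOn (Eventually.of_forall fun n => (hit n).1) isOpen_ball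
  have hSb : ∀ x ∈ ball (0:ℂ) r, ‖S x‖ ≤ ρ := fun x hx =>
    le_of_tendsto (hSl x hx).norm (Eventually.of_forall fun n => (hit n).2 x hx)
  have hcS := hcomp S hSdiff hSb
  have hfix : ∀ x ∈ ball (0:ℂ) r, S x = Top μ (fun w => G (w, S w)) x := by
    intro x hx
    have h1 : Tendsto (fun n => itr μ G (n + 1) x) atTop (𝓝 (S x)) := (hSl x hx).comp (tendsto_add_atTop_nat 1)
    have h2 : Tendsto (fun n => itr μ G (n + 1) x) atTop (𝓝 (Top μ (fun w => G (w, S w)) x)) := by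
      rw [tendsto_iff_dist_tendsto_zero]
      refine squeeze_zero (fun n => dist_nonneg) (fun n => ?_) hgeo
      rw [dist_eq_norm]
      have h3 : itr μ G (n + 1) x - Top μ (fun w => G (w, S w)) x =
        Top μ (fun w => G (w, itr μ G n w) - G (w, S w)) x :=
        top_sub hμ (hcomp _ (hit n).1 (hit n).2).continuousOn hcS.continuousOn hx
      rw [h3]
      refine top_bound hμ (fun w hw => ?_) hx
      refine (hlip w _ _ (hxρ w hw) ((hit n).2 w hw) (hSb w hw)).trans ?_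
      have h4 := hSd n w hw
      rw [dist_eq_norm] at h4
      have h5 : 0 ≤ ‖itr μ G n w - S w‖ := norm_nonneg _
      linarith
    exact tendsto_nhds_unique h1 h2
  have heq : ∀ x ∈ ball (0:ℂ) r, x * deriv S x = F (x, S x) := by
    intro x hx
    have h1 : deriv S x = deriv (Top μ (fun w => G (w, S w))) x := by
      apply Filter.EventuallyEq.deriv_eq
      filter_upwards [isOpen_ball.mem_nhds hx] with w hw using hfix w hw
    rw [h1, top_eq hμ hcS hx, ← hfix x hx]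
    simp only [hG]; ring
  have h00 : (0:ℂ) ∈ ball (0:ℂ) r := mem_ball_self hr0
  refine ⟨S, hSdiff.analyticAt (isOpen_ball.mem_nhds h00), ?_, ?_⟩
  · have h1 := heq 0 h00
    rw [zero_mul] at h1
    have h2 : G (0, S 0) = μ * S 0 := by simp only [hG]; rw [← h1, zero_add]
    have h3 := hlip 0 (S 0) 0 (by simpa using hρ0.le) (hSb 0 h00) (by simpa using hρ0.le)
    have h4 : G ((0:ℂ), (0:ℂ)) = 0 := hG0
    rw [h4, sub_zero, sub_zero, h2, norm_mul] at h3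
    have h5 : 2 ≤ ‖μ‖ := hμ.trans (Complex.re_le_norm μ)
    have h6 : ‖S 0‖ = 0 := by nlinarith [norm_nonneg (S 0)]
    exact norm_eq_zero.1 h6
  · filter_upwards [isOpen_ball.mem_nhds h00] with x hx using heq x hx

/-- `x ↦ g (x, u)` for small `u` -/
lemma shift {F : ℂ × ℂ → ℂ} (hF : AnalyticAt ℂ F 0) (h0 : F 0 = 0) (h1 : fderiv ℂ F 0 (0, 1) ≠ 1) :
    ∃ (c : ℂ) (g : ℂ × ℂ → ℂ), AnalyticAt ℂ g 0 ∧ g 0 = 0 ∧ fderiv ℂ g 0 (0, 1) = fderiv ℂ F 0 (0, 1) - 1 ∧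
      ∀ᶠ p in 𝓝 (0 : ℂ × ℂ), F (p.1, p.1 * (c + p.2)) - p.1 * (c + p.2) = p.1 * g p := by
  set l : ℂ := fderiv ℂ F 0 (0, 1) with hl
  set c : ℂ := fderiv ℂ F 0 (1, 0) / (1 - l) with hc
  have h1l : 1 - l ≠ 0 := sub_ne_zero.2 (Ne.symm h1)
  set f : ℂ × ℂ → ℂ := fun p => F (p.1, p.1 * (c + p.2)) - p.1 * (c + p.2) with hf
  have hm : AnalyticAt ℂ (fun p : ℂ × ℂ => (p.1, p.1 * (c + p.2))) 0 :=
    analyticAt_fst.prod (analyticAt_fst.mul (analyticAt_const.add analyticAt_snd))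
  have hfa : AnalyticAt ℂ f 0 := by
    refine AnalyticAt.sub ?_ (analyticAt_fst.mul (analyticAt_const.add analyticAt_snd))
    refine AnalyticAt.fun_comp (g := F) (f := fun p : ℂ × ℂ => (p.1, p.1 * (c + p.2))) ?_ hm
    have e0 : (((0 : ℂ × ℂ).1, (0 : ℂ × ℂ).1 * (c + (0 : ℂ × ℂ).2)) : ℂ × ℂ) = 0 := by ext <;> simp
    simp only [e0]; exact hF
  obtain ⟨g, hg, hfg⟩ := Pool.Agent.H17BP.exists_div_x hfa (Eventually.of_forall fun y => by
    simp only [hf, zero_mul, sub_zero]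
    exact h0)
  -- the values of `g` on the axis
  have hgu : ∀ᶠ u in 𝓝 (0:ℂ), g (0, u) = (l - 1) * u := by
    have e1 : ∀ᶠ p in 𝓝 (0 : ℂ × ℂ), (∀ᶠ q in 𝓝 p, f q = q.1 • g q) ∧ AnalyticAt ℂ g p :=
      hfg.eventually_nhds.and hg.eventually_analyticAt
    have e2 : Tendsto (fun u : ℂ => ((0:ℂ), u)) (𝓝 0) (𝓝 0) := (by fun_prop : Continuous fun u : ℂ => ((0:ℂ), u)).tendsto' _ _ rfl
    filter_upwards [e2.eventually e1] with u hu
    obtain ⟨a1, a2⟩ := hu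
    have a3 : Tendsto (fun x : ℂ => (x, u)) (𝓝 0) (𝓝 (0, u)) := (by fun_prop : Continuous fun x : ℂ => (x, u)).tendsto' _ _ rfl
    have d1 : HasDerivAt (fun x : ℂ => f (x, u)) (g (0, u)) 0 := by
      have b1 : HasDerivAt (fun x : ℂ => x * g (x, u)) (1 * g (0, u) + 0 * deriv (fun x : ℂ => g (x, u)) 0) 0 := by
        have b2 : DifferentiableAt ℂ (fun x : ℂ => g (x, u)) 0 := by
          have : DifferentiableAt ℂ g ((fun x : ℂ => (x, u)) 0) := a2.differentiableAt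
          exact this.comp (0:ℂ) (by fun_prop)
        exact (hasDerivAt_id (0:ℂ)).mul b2.hasDerivAt
      rw [one_mul, zero_mul, add_zero] at b1
      refine b1.congr_of_eventuallyEq ?_
      filter_upwards [a3.eventually a1] with x hx using by simpa using hx
    have d2 : HasDerivAt (fun x : ℂ => f (x, u)) (fderiv ℂ F 0 (1, c + u) - (c + u)) 0 := by
      have b1 : HasDerivAt (fun x : ℂ => (x, x * (c + u))) ((1, 1 * (c + u)) : ℂ × ℂ) 0 :=
        (hasDerivAt_id (0:ℂ)).prodMk ((hasDerivAt_id (0:ℂ)).mul_const (c + u))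
      have b2 : HasFDerivAt F (fderiv ℂ F 0) ((fun x : ℂ => (x, x * (c + u))) 0) := by
        simp only [zero_mul]
        exact hF.differentiableAt.hasFDerivAt
      have b3 := b2.comp_hasDerivAt (0:ℂ) b1
      have b4 := b3.sub ((hasDerivAt_id (0:ℂ)).mul_const (c + u))
      exact (b4.congr_deriv (by simp)).congr_of_eventuallyEq (Eventually.of_forall fun x => rfl)
    rw [d1.unique d2]
    have b5 : ((1, c + u) : ℂ × ℂ) = ((1, 0) : ℂ × ℂ) + (c + u) • ((0, 1) : ℂ × ℂ) := by ext <;> simp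
    rw [b5, map_add, map_smul, ← hl, smul_eq_mul]
    have b6 : fderiv ℂ F 0 (1, 0) = c * (1 - l) := by rw [hc]; field_simp
    rw [b6]; ring
  have hg0 : g 0 = 0 := by
    have := hgu.self_of_nhds
    rw [mul_zero] at this
    exact this
  refine ⟨c, g, hg, hg0, ?_, ?_⟩
  · have d1 : HasDerivAt (fun u : ℂ => g (0, u)) (fderiv ℂ g 0 (0, 1)) 0 := by
      have b1 : HasDerivAt (fun u : ℂ => ((0:ℂ), u)) ((0, 1) : ℂ × ℂ) 0 := (hasDerivAt_const (0:ℂ) (0:ℂ)).prodMk (hasDerivAt_id (0:ℂ))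
      have b2 : HasFDerivAt g (fderiv ℂ g 0) ((fun u : ℂ => ((0:ℂ), u)) 0) := hg.differentiableAt.hasFDerivAt
      exact b2.comp_hasDerivAt (0:ℂ) b1
    have d2 : HasDerivAt (fun u : ℂ => g (0, u)) (l - 1) 0 := by
      have b1 : HasDerivAt (fun u : ℂ => (l - 1) * u) (l - 1) 0 := by simpa using (hasDerivAt_id (0:ℂ)).const_mul (l - 1)
      exact b1.congr_of_eventuallyEq hgu
    exact d1.unique d2
  · filter_upwards [hfg] with p hp
    simpa [hf] using hp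

/-- **Briot and Bouquet** -/
theorem briot_bouquet {F : ℂ × ℂ → ℂ} (hF : AnalyticAt ℂ F 0) (h0 : F 0 = 0) (hn : ∀ n : ℕ, 1 ≤ n → fderiv ℂ F 0 (0, 1) ≠ n) :
    ∃ s : ℂ → ℂ, AnalyticAt ℂ s 0 ∧ s 0 = 0 ∧ ∀ᶠ x in 𝓝 (0 : ℂ), x * deriv s x = F (x, s x) := by
  suffices H : ∀ (N : ℕ) (F : ℂ × ℂ → ℂ), AnalyticAt ℂ F 0 → F 0 = 0 → (∀ n : ℕ, 1 ≤ n → fderiv ℂ F 0 (0, 1) ≠ n) →
      (fderiv ℂ F 0 (0, 1)).re ≤ N - 2 →
      ∃ s : ℂ → ℂ, AnalyticAt ℂ s 0 ∧ s 0 = 0 ∧ ∀ᶠ x in 𝓝 (0 : ℂ), x * deriv s x = F (x, s x) by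
    obtain ⟨N, hN⟩ := exists_nat_ge ((fderiv ℂ F 0 (0, 1)).re + 2)
    exact H N F hF h0 hn (by linarith)
  intro N
  induction N with
  | zero =>
    intro F hF h0 _ hl
    exact bb_neg hF h0 (by simpa using hl)
  | succ N ih =>
    intro F hF h0 hn hl
    obtain ⟨c, g, hg, hg0, hgl, hfg⟩ := shift hF h0 (by simpa using hn 1 le_rfl)
    obtain ⟨u, hu, hu0, hue⟩ := ih g hg hg0 (fun n hn1 h => by
      rw [hgl] at h
      exact hn (n + 1) (by omega) (by push_cast; linear_combination h)) (by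
      rw [hgl, Complex.sub_re, Complex.one_re]; push_cast at hl; linarith)
    refine ⟨fun x => x * (c + u x), analyticAt_id.mul (analyticAt_const.add hu), by simp, ?_⟩
    have e1 : Tendsto (fun x : ℂ => (x, u x)) (𝓝 0) (𝓝 0) := by
      have : ContinuousAt (fun x : ℂ => (x, u x)) 0 := continuousAt_id.prodMk hu.continuousAt
      have h2 := this.tendsto
      rwa [hu0] at h2
    filter_upwards [hue, e1.eventually hfg, hu.eventually_analyticAt] with x hx1 hx2 hx3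
    have d1 : HasDerivAt (fun x => x * (c + u x)) (1 * (c + u x) + x * deriv u x) x :=
      (hasDerivAt_id x).mul (hx3.differentiableAt.hasDerivAt.const_add c)
    rw [d1.deriv]
    have h2 : F (x, x * (c + u x)) - x * (c + u x) = x * g (x, u x) := hx2
    linear_combination x * hx1 - h2

end Pool.Agent.MQ2
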