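import Mathlib

/-!
# MQ2 BB0: the equation `x u' + μ u = g` on a disc
-/

set_option autoImplicit false

open Topology Filter Metric Set MeasureTheory

noncomputable section

namespace Pool.Agent.MQ2

/-- the solution of `x u' + μ u = g` -/
def Top (μ : ℂ) (g : ℂ → ℂ) (x : ℂ) : ℂ := ∫ t in (0:ℝ)..1, (t : ℂ) ^ (μ - 1) * g (t * x)

variable {μ : ℂ} {g h : ℂ → ℂ} {r C : ℝ} {x : ℂ}

lemma norm_cpow_le (hμ : 2 ≤ μ.re) {t : ℝ} (ht : t ∈ Ioc (0:ℝ) 1) : ‖(t : ℂ) ^ (μ - 1)‖ ≤ 1 := by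
  rw [Complex.norm_cpow_eq_rpow_re_of_pos ht.1]
  apply Real.rpow_le_one ht.1.le ht.2
  rw [Complex.sub_re, Complex.one_re]; linarith

lemma mul_mem_ball (hx : x ∈ ball (0:ℂ) r) {t : ℝ} (ht : t ∈ Icc (0:ℝ) 1) : (t : ℂ) * x ∈ ball (0:ℂ) r := by
  rw [mem_ball_zero_iff] at hx ⊢
  rw [norm_mul, Complex.norm_real, Real.norm_eq_abs, abs_of_nonneg ht.1]
  calc t * ‖x‖ ≤ 1 * ‖x‖ := by gcongr; exact ht.2
    _ = ‖x‖ := one_mul _
    _ < r := hx

lemma top_bound (hμ : 2 ≤ μ.re) (hC : ∀ w ∈ ball (0:ℂ) r, ‖g w‖ ≤ C) (hx : x ∈ ball (0:ℂ) r) : ‖Top μ g x‖ ≤ C := by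
  have h0 : (0:ℝ) ≤ C := (norm_nonneg _).trans (hC x hx)
  have := intervalIntegral.norm_integral_le_of_norm_le_const (a := 0) (b := 1) (C := C)
    (f := fun t : ℝ => (t : ℂ) ^ (μ - 1) * g (t * x)) (fun t ht => by
      rw [uIoc_of_le zero_le_one] at ht
      rw [norm_mul]
      calc ‖(t : ℂ) ^ (μ - 1)‖ * ‖g (t * x)‖ ≤ 1 * C := by
            gcongr
            · exact norm_cpow_le hμ ht
            · exact hC _ (mul_mem_ball hx ⟨ht.1.le, ht.2⟩)
        _ = C := one_mul _)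
  simpa [Top] using this

lemma top_cont (hμ : 2 ≤ μ.re) (hg : ContinuousOn g (ball (0:ℂ) r)) (hx : x ∈ ball (0:ℂ) r) :
    ContinuousOn (fun t : ℝ => (t : ℂ) ^ (μ - 1) * g (t * x)) (Icc 0 1) := by
  have h1 : Continuous fun t : ℝ => (t : ℂ) ^ (μ - 1) := by
    apply Complex.continuous_ofReal_cpow_const
    rw [Complex.sub_re, Complex.one_re]; linarith
  refine h1.continuousOn.mul ?_
  exact hg.comp (by fun_prop) (fun t ht => mul_mem_ball hx ht)

lemma top_int (hμ : 2 ≤ μ.re) (hg : ContinuousOn g (ball (0:ℂ) r)) (hx : x ∈ ball (0:ℂ) r) :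
    IntervalIntegrable (fun t : ℝ => (t : ℂ) ^ (μ - 1) * g (t * x)) volume 0 1 := by
  apply ContinuousOn.intervalIntegrable
  rw [uIcc_of_le zero_le_one]
  exact top_cont hμ hg hx

lemma top_sub (hμ : 2 ≤ μ.re) (hg : ContinuousOn g (ball (0:ℂ) r)) (hh : ContinuousOn h (ball (0:ℂ) r)) (hx : x ∈ ball (0:ℂ) r) :
    Top μ g x - Top μ h x = Top μ (fun w => g w - h w) x := by
  unfold Top
  rw [← intervalIntegral.integral_sub (top_int hμ hg hx) (top_int hμ hh hx)]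
  congr 1; ext t; ring

lemma top_hasDeriv (hμ : 2 ≤ μ.re) (hg : DifferentiableOn ℂ g (ball (0:ℂ) r)) (hx : x ∈ ball (0:ℂ) r) :
    IntervalIntegrable (fun t : ℝ => (t : ℂ) ^ (μ - 1) * (deriv g (t * x) * t)) volume 0 1 ∧
    HasDerivAt (Top μ g) (∫ t in (0:ℝ)..1, (t : ℂ) ^ (μ - 1) * (deriv g (t * x) * t)) x := by
  have hx' := hx
  rw [mem_ball_zero_iff] at hx'
  obtain ⟨r', h1, h2⟩ := exists_between hx'
  have hsub : closedBall (0:ℂ) r' ⊆ ball (0:ℂ) r := closedBall_subset_ball h2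
  have hdg : ContinuousOn (deriv g) (ball (0:ℂ) r) := (hg.deriv isOpen_ball).continuousOn
  obtain ⟨M, hM⟩ := (isCompact_closedBall (0:ℂ) r').exists_bound_of_continuousOn (hdg.mono hsub)
  have hc1 : Continuous fun t : ℝ => (t : ℂ) ^ (μ - 1) := by
    apply Complex.continuous_ofReal_cpow_const
    rw [Complex.sub_re, Complex.one_re]; linarith
  apply intervalIntegral.hasDerivAt_integral_of_dominated_loc_of_deriv_le (s := ball (0:ℂ) r') (bound := fun _ => M)
    (F := fun (w : ℂ) (t : ℝ) => (t : ℂ) ^ (μ - 1) * g (t * w)) (F' := fun (w : ℂ) (t : ℝ) => (t : ℂ) ^ (μ - 1) * (deriv g (t * w) * t))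
  · exact isOpen_ball.mem_nhds (by rwa [mem_ball_zero_iff])
  · filter_upwards [isOpen_ball.mem_nhds (show x ∈ ball (0:ℂ) r from hx)] with w hw
    rw [uIoc_of_le zero_le_one]
    exact (top_int hμ hg.continuousOn hw).1.aestronglyMeasurable
  · exact top_int hμ hg.continuousOn hx
  · apply ContinuousOn.aestronglyMeasurable _ measurableSet_uIoc
    rw [uIoc_of_le zero_le_one]
    refine ContinuousOn.mono ?_ Ioc_subset_Icc_self
    refine hc1.continuousOn.mul (ContinuousOn.mul ?_ (by fun_prop))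
    exact hdg.comp (by fun_prop) (fun t ht => mul_mem_ball hx ht)
  · refine Eventually.of_forall fun t ht w hw => ?_
    rw [uIoc_of_le zero_le_one] at ht
    have ht' : t ∈ Icc (0:ℝ) 1 := ⟨ht.1.le, ht.2⟩
    rw [norm_mul, norm_mul]
    have e1 := norm_cpow_le hμ ht
    have e2 := hM _ (ball_subset_closedBall (mul_mem_ball hw ht'))
    have e3 : ‖(t:ℂ)‖ ≤ 1 := by rw [Complex.norm_real, Real.norm_eq_abs, abs_of_pos ht.1]; exact ht.2
    have hM0 : 0 ≤ M := (norm_nonneg _).trans e2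
    calc ‖(t : ℂ) ^ (μ - 1)‖ * (‖deriv g (t * w)‖ * ‖(t:ℂ)‖) ≤ 1 * (M * 1) := by gcongr
      _ = M := by ring
  · exact intervalIntegrable_const
  · refine Eventually.of_forall fun t ht w hw => ?_
    rw [uIoc_of_le zero_le_one] at ht
    have ht' : t ∈ Icc (0:ℝ) 1 := ⟨ht.1.le, ht.2⟩
    have hw' : (t:ℂ) * w ∈ ball (0:ℂ) r := hsub (ball_subset_closedBall (mul_mem_ball hw ht'))
    have hd : HasDerivAt g (deriv g (t * w)) (t * w) := (hg.differentiableAt (isOpen_ball.mem_nhds hw')).hasDerivAt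
    have hl : HasDerivAt (fun w : ℂ => (t:ℂ) * w) (t:ℂ) w := by
      simpa using (hasDerivAt_id w).const_mul (t:ℂ)
    exact (hd.comp w hl).const_mul _

lemma top_eq (hμ : 2 ≤ μ.re) (hg : DifferentiableOn ℂ g (ball (0:ℂ) r)) (hx : x ∈ ball (0:ℂ) r) :
    x * deriv (Top μ g) x = g x - μ * Top μ g x := by
  obtain ⟨hi, hd⟩ := top_hasDeriv hμ hg hx
  rw [hd.deriv]
  have hμ0 : μ ≠ 0 := by rintro rfl; norm_num at hμ
  have hdg : ContinuousOn (deriv g) (ball (0:ℂ) r) := (hg.deriv isOpen_ball).continuousOn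
  -- the derivative of `t ^ μ * g (t x)`
  have key : ∫ t in (0:ℝ)..1, ((t:ℂ) ^ (μ - 1) * (μ * g (t * x)) + x * ((t : ℂ) ^ (μ - 1) * (deriv g (t * x) * t))) =
      ((1:ℝ):ℂ) ^ μ * g ((1:ℝ) * x) - ((0:ℝ):ℂ) ^ μ * g ((0:ℝ) * x) := by
    apply intervalIntegral.integral_eq_sub_of_hasDerivAt_of_le (f := fun t : ℝ => (t:ℂ) ^ μ * g (t * x)) zero_le_one
    · have h1 : Continuous fun t : ℝ => (t : ℂ) ^ μ := Complex.continuous_ofReal_cpow_const (by linarith)
      exact h1.continuousOn.mul (hg.continuousOn.comp (by fun_prop) (fun t ht => mul_mem_ball hx ht))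
    · intro t ht
      have ht0 : (t:ℂ) ≠ 0 := by exact_mod_cast ht.1.ne'
      have e1 : HasDerivAt (fun t : ℝ => (t:ℂ) ^ μ) (μ * (t:ℂ) ^ (μ - 1)) t := by
        have := (hasDerivAt_id (t:ℂ)).cpow_const (c := μ) (Or.inl (by simpa using ht.1))
        simpa using this.comp_ofReal
      have hw' : (t:ℂ) * x ∈ ball (0:ℂ) r := mul_mem_ball hx ⟨ht.1.le, ht.2.le⟩
      have hd' : HasDerivAt g (deriv g (t * x)) (t * x) := (hg.differentiableAt (isOpen_ball.mem_nhds hw')).hasDerivAt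
      have hl : HasDerivAt (fun w : ℂ => w * x) x (t:ℂ) := by
        simpa using (hasDerivAt_id (t:ℂ)).mul_const x
      have e2 : HasDerivAt (fun t : ℝ => g ((t:ℂ) * x)) (deriv g (t * x) * x) t := (hd'.comp (t:ℂ) hl).comp_ofReal
      have e3 := e1.mul e2
      have : (t:ℂ) ^ μ = (t:ℂ) ^ (μ - 1) * t := by
        rw [Complex.cpow_sub _ _ ht0, Complex.cpow_one]; field_simp
      refine e3.congr_deriv ?_
      simp only [this]; ring
    · refine IntervalIntegrable.add ?_ (hi.const_mul x)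
      have := (top_int hμ hg.continuousOn hx).const_mul μ
      refine this.congr ?_
      intro t _
      simp only; ring
  have h1 : ∫ t in (0:ℝ)..1, ((t:ℂ) ^ (μ - 1) * (μ * g (t * x)) + x * ((t : ℂ) ^ (μ - 1) * (deriv g (t * x) * t))) =
      μ * Top μ g x + x * ∫ t in (0:ℝ)..1, (t : ℂ) ^ (μ - 1) * (deriv g (t * x) * t) := by
    rw [Top, ← intervalIntegral.integral_const_mul, ← intervalIntegral.integral_const_mul, ← intervalIntegral.integral_add]
    · congr 1; ext t; ring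
    · exact (top_int hμ hg.continuousOn hx).const_mul μ
    · exact hi.const_mul x
  rw [h1] at key
  have h2 : ((1:ℝ):ℂ) ^ μ * g ((1:ℝ) * x) - ((0:ℝ):ℂ) ^ μ * g ((0:ℝ) * x) = g x := by
    simp [Complex.zero_cpow hμ0]
  rw [h2] at key
  linear_combination key

end Pool.Agent.MQ2
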