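import Pool.Agent.H22.HF.Div
import Pool.Agent.H22.HF.Fac

/-!
# MQ2 Hart: the theorem of Hartogs for an isolated point
-/

set_option autoImplicit false

open Topology Filter Metric

noncomputable section

namespace Pool.Agent.MQ2

open Pool.Agent.H22.HF

/-- A function which is analytic off the origin of `ℂ × ℂ` extends. -/
theorem hartogs {f : ℂ × ℂ → ℂ} (hf : ∀ᶠ p in 𝓝 (0 : ℂ × ℂ), p ≠ 0 → AnalyticAt ℂ f p) :
    ∃ F : ℂ × ℂ → ℂ, AnalyticAt ℂ F 0 ∧ ∀ᶠ p in 𝓝 (0 : ℂ × ℂ), p ≠ 0 → F p = f p := by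
  obtain ⟨δ, hδ, hball⟩ := Metric.eventually_nhds_iff_ball.mp hf
  obtain ⟨ρ, hρ, hρδ⟩ : ∃ ρ : ℝ, 0 < ρ ∧ ρ < δ := ⟨δ / 2, by linarith, by linarith⟩
  have han : ∀ x t : ℂ, ‖x‖ < δ → ‖t‖ < δ → (x, t) ≠ (0 : ℂ × ℂ) → AnalyticAt ℂ f (x, t) := fun x t hx ht h0 => by
    refine hball _ ?_ h0
    rw [mem_ball_zero_iff, Prod.norm_def]
    exact max_lt hx ht
  let F : ℂ × ℂ → ℂ := fun p => (2 * Real.pi * Complex.I)⁻¹ * ∮ t in C(0, ρ), f (p.1, t) / (t - p.2)
  have hF : ∀ p : ℂ × ℂ, ‖p.1‖ < δ → ‖p.2‖ < ρ → AnalyticAt ℂ F p := by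
    intro p h1 h2
    refine analyticAt_const.mul (analyticAt_circleIntegral (F := fun z : (ℂ × ℂ) × ℂ => f (z.1.1, z.2) / (z.2 - z.1.2)) hρ ?_)
    intro t ht
    rw [mem_sphere_zero_iff_norm] at ht
    have ht0 : t ≠ 0 := by
      rintro rfl
      rw [norm_zero] at ht
      exact hρ.ne ht
    have ha : AnalyticAt ℂ f (p.1, t) := han _ _ h1 (by rw [ht]; exact hρδ) (fun h => ht0 (congrArg Prod.snd h))
    have hpr : AnalyticAt ℂ (fun z : (ℂ × ℂ) × ℂ => ((z.1.1, z.2) : ℂ × ℂ)) (p, t) := (analyticAt_fst.comp analyticAt_fst).prod analyticAt_snd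
    refine (AnalyticAt.comp (g := f) (f := fun z : (ℂ × ℂ) × ℂ => ((z.1.1, z.2) : ℂ × ℂ)) (x := (p, t)) ha hpr).div
      (analyticAt_snd.sub (analyticAt_snd.comp analyticAt_fst)) ?_
    show t - p.2 ≠ 0
    intro h
    rw [sub_eq_zero] at h
    rw [← h, ht] at h2
    exact lt_irrefl _ h2
  have heq : ∀ p : ℂ × ℂ, ‖p.1‖ < δ → ‖p.2‖ < ρ → p.1 ≠ 0 → F p = f p := by
    rintro ⟨x, y⟩ h1 h2 h0
    have hd : DifferentiableOn ℂ (fun t => f (x, t)) (closedBall 0 ρ) := by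
      intro t ht
      rw [mem_closedBall_zero_iff] at ht
      have ha : AnalyticAt ℂ f (x, t) := han _ _ h1 (lt_of_le_of_lt ht hρδ) (fun h => h0 (congrArg Prod.fst h))
      have h3 : AnalyticAt ℂ (fun t : ℂ => ((x, t) : ℂ × ℂ)) t := analyticAt_const.prod analyticAt_id
      exact (AnalyticAt.comp (g := f) (f := fun t : ℂ => ((x, t) : ℂ × ℂ)) ha h3).differentiableAt.differentiableWithinAt
    have hc : DiffContOnCl ℂ (fun t => f (x, t)) (ball 0 ρ) := (hd.mono (closure_ball_subset_closedBall)).diffContOnCl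
    have h4 := hc.two_pi_i_inv_smul_circleIntegral_sub_inv_smul (w := y) (by rwa [mem_ball_zero_iff])
    show (2 * Real.pi * Complex.I)⁻¹ * (∮ t in C(0, ρ), f (x, t) / (t - y)) = f (x, y)
    rw [← h4, smul_eq_mul]
    congr 1
    refine circleIntegral.integral_congr hρ.le fun t _ => ?_
    simp only [smul_eq_mul]
    rw [div_eq_inv_mul]
  refine ⟨F, hF 0 (by simpa using hδ) (by simpa using hρ), ?_⟩
  filter_upwards [ball_mem_nhds (0 : ℂ × ℂ) hρ] with p hp h0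
  rw [mem_ball_zero_iff, Prod.norm_def, max_lt_iff] at hp
  rcases ne_or_eq p.1 0 with h1 | h1
  · exact heq p (hp.1.trans hρδ) hp.2 h1
  · -- the line `x = 0`
    obtain ⟨x, y⟩ := p
    simp only at h1 hp
    subst h1
    have hline : ∀ g : ℂ × ℂ → ℂ, ContinuousAt g (0, y) → Tendsto (fun x : ℂ => g (x, y)) (𝓝[≠] 0) (𝓝 (g (0, y))) := fun g hg => by
      have h2 : Tendsto (fun x : ℂ => ((x, y) : ℂ × ℂ)) (𝓝[≠] 0) (𝓝 (0, y)) := by
        have h3 : Continuous fun x : ℂ => ((x, y) : ℂ × ℂ) := by fun_prop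
        exact (h3.tendsto 0).mono_left nhdsWithin_le_nhds
      exact hg.tendsto.comp h2
    have hcF := hline F (hF (0, y) (by simpa using hδ) hp.2).continuousAt
    have hcf := hline f (han 0 y (by simpa using hδ) (hp.2.trans hρδ) h0).continuousAt
    refine tendsto_nhds_unique hcF (hcf.congr' ?_)
    have hb : ∀ᶠ x in 𝓝[≠] (0 : ℂ), ‖x‖ < δ := by
      filter_upwards [nhdsWithin_le_nhds (ball_mem_nhds (0 : ℂ) hδ)] with x hx
      rwa [mem_ball_zero_iff] at hx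
    filter_upwards [hb, self_mem_nhdsWithin] with x hx hx0
    exact (heq (x, y) hx hp.2 hx0).symm

end Pool.Agent.MQ2
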