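import Pool.Agent.MQ2.DefsG
import Pool.Agent.MQ2.Hart
import Pool.Agent.MQ.CDat

/-!
# MQ2 CDat2: the data of the invariant curve from the equations in the boxes

As `MQ.cdata_of_good`; at the center of a singular box the equation has zeros arbitrarily close to the center (`hartogs` for `1 / g`).
-/

set_option autoImplicit false

open Topology Filter Metric MvPolynomial Asymptotics

noncomputable section

namespace Pool.Agent.MQ2

open Pool.Agent.H36.BP (EN)
open Pool.Agent.H17BP (IsChart Pr Surface)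
open Pool.Agent.H17EF (projVar coneE)
open Pool.Agent.MQ

variable {M : ℕ} {P : Ideal (MvPolynomial (Fin (M + 1)) ℂ)} {FF : Set (EN M × EN M)}

/-- an analytic function of two variables has no isolated zeros -/
private theorem frequently_zero {g : ℂ × ℂ → ℂ} (hg : AnalyticAt ℂ g 0) (h0 : g 0 = 0) : ∃ᶠ p in 𝓝 (0 : ℂ × ℂ), p ≠ 0 ∧ g p = 0 := by
  intro hcon
  have h1 : ∀ᶠ p in 𝓝 (0 : ℂ × ℂ), p ≠ 0 → AnalyticAt ℂ (fun w => (g w)⁻¹) p := by
    filter_upwards [hcon, hg.eventually_analyticAt] with p h2 h3 h4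
    exact h3.fun_inv fun h5 => h2 ⟨h4, h5⟩
  obtain ⟨F, hF, hFe⟩ := hartogs h1
  have h2 : (fun p => F p * g p) =ᶠ[𝓝[≠] (0 : ℂ × ℂ)] fun _ => 1 := by
    filter_upwards [hFe.filter_mono nhdsWithin_le_nhds, hcon.filter_mono nhdsWithin_le_nhds, self_mem_nhdsWithin] with p h3 h4 h5
    rw [h3 h5]
    exact inv_mul_cancel₀ fun h6 => h4 ⟨h5, h6⟩
  have h3 : Tendsto (fun p => F p * g p) (𝓝[≠] (0 : ℂ × ℂ)) (𝓝 (F 0 * g 0)) :=
    ((hF.continuousAt.mul hg.continuousAt).tendsto).mono_left nhdsWithin_le_nhds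
  have h4 : F 0 * g 0 = 1 := tendsto_nhds_unique (h3.congr' h2) tendsto_const_nhds
  rw [h0, mul_zero] at h4
  exact zero_ne_one h4

/-- the compatibility at the points with `v p ≠ 0` -/
private theorem comp_of_ne2 (hX : Surface (coneE P)) {R : MvPolynomial (Fin (M + 1)) ℂ} {d : ℕ} (hR : R.IsHomogeneous d) {A B : GBox P FF}
    {g g' : ℂ × ℂ → ℂ} (hg : CG2 R A g) (hg' : CG2 R B g') {p : ℂ × ℂ} (hp : p ∈ ball (0 : ℂ × ℂ) A.r) (hv : A.v p ≠ 0) {Φ : ℂ × ℂ → ℂ × ℂ}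
    {t : ℂ × ℂ → ℂ} (h : Chg A B p Φ t) : ∃ s : ℂ × ℂ → ℂ, AnalyticAt ℂ s p ∧ s p ≠ 0 ∧ ∀ᶠ w in 𝓝 p, g' (Φ w) = s w * g w := by
  have hvB := h.v_ne hv
  have hB := ball_subset_closedBall h.mem
  have hA := ball_subset_closedBall hp
  have hg'an : AnalyticAt ℂ (fun w => g' (Φ w)) p := AnalyticAt.comp (g := g') (f := Φ) (hg'.smooth _ hB).1 h.an
  refine unit (l := g) (l' := fun w => g' (Φ w)) (hg.smooth p hA).1 hg'an ((hg.smooth p hA).2 hv) ?_ ?_
  · intro h0 h1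
    have h2 := (hg'.smooth _ hB).2 hvB h0
    apply h2
    have h3 : fderiv ℂ (fun w => g' (Φ w)) p = (fderiv ℂ g' (Φ p)).comp (fderiv ℂ Φ p) :=
      ((hg'.smooth _ hB).1.differentiableAt.hasFDerivAt.comp p h.an.differentiableAt.hasFDerivAt).fderiv
    rw [h3] at h1
    have hinj : Function.Injective (fderiv ℂ Φ p : ℂ × ℂ →ₗ[ℂ] ℂ × ℂ) := by
      rw [injective_iff_map_eq_zero]
      intro u hu
      exact h.fderiv_inj hp hu
    have hsurj := LinearMap.injective_iff_surjective.1 hinj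
    ext
    · obtain ⟨u, hu⟩ := hsurj (1, 0)
      have h4 := congrArg (fun L : ℂ × ℂ →L[ℂ] ℂ => L u) h1
      simp only [ContinuousLinearMap.comp_apply, _root_.zero_apply] at h4
      have hu' : fderiv ℂ Φ p u = (1, 0) := hu
      rw [hu'] at h4
      simpa using h4
    · obtain ⟨u, hu⟩ := hsurj (0, 1)
      have h4 := congrArg (fun L : ℂ × ℂ →L[ℂ] ℂ => L u) h1
      simp only [ContinuousLinearMap.comp_apply, _root_.zero_apply] at h4
      have hu' : fderiv ℂ Φ p u = (0, 1) := hu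
      rw [hu'] at h4
      simpa using h4
  · have e1 : ∀ᶠ w in 𝓝 p, w ∈ ball (0 : ℂ × ℂ) A.r := isOpen_ball.mem_nhds hp
    have e2 : ∀ᶠ w in 𝓝 p, Φ w ∈ ball (0 : ℂ × ℂ) B.r := h.an.continuousAt.eventually (isOpen_ball.mem_nhds h.mem)
    have e3 : ∀ᶠ w in 𝓝 p, A.v w ≠ 0 := (A.v_an p hA).continuousAt.eventually_ne hv
    have e4 : ∀ᶠ w in 𝓝 p, B.v (Φ w) ≠ 0 := by
      have h5 : ContinuousAt (fun w => B.v (Φ w)) p := ContinuousAt.comp (g := B.v) (f := Φ) (B.v_an _ hB).continuousAt h.an.continuousAt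
      exact h5.eventually_ne hvB
    filter_upwards [e1, e2, e3, e4, h.eq] with w h1 h2 h3 h4 h5
    obtain ⟨c, hc, h6⟩ := h5
    rw [← hg.iff w (ball_subset_closedBall h1) h3, ← hg'.iff (Φ w) (ball_subset_closedBall h2) h4]
    constructor
    · intro h7
      have h8 := inv_smul hX A hR h1 (inv_ne_zero hc) h7
      rwa [h6, smul_smul, inv_mul_cancel₀ hc, one_smul] at h8
    · intro h7
      rw [h6]
      exact inv_smul hX B hR h2 hc h7

/-- `R = 0` on the curve, in a box -/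
private theorem van_of_good2 {R : MvPolynomial (Fin (M + 1)) ℂ} {B : GBox P FF} {g : ℂ × ℂ → ℂ} (hg : CG2 R B g) {p : ℂ × ℂ}
    (hp : p ∈ ball (0 : ℂ × ℂ) B.r) (h0 : g p = 0) : eval (B.σ p).ofLp R = 0 := by
  have key : ∀ q ∈ ball (0 : ℂ × ℂ) B.r, B.v q ≠ 0 → g q = 0 → eval (B.σ q).ofLp R = 0 := by
    intro q hq hv hq0
    obtain ⟨γ, -, h1, h2, -⟩ := (hg.iff q (ball_subset_closedBall hq) hv).2 hq0
    have h3 := h2.self_of_nhds.2.2
    rwa [h1] at h3
  by_cases hv : B.v p = 0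
  · have hp0 := B.zero p (ball_subset_closedBall hp) hv
    subst hp0
    have hcont : ContinuousAt (fun q => eval (B.σ q).ofLp R) (0 : ℂ × ℂ) := by
      have h1 : AnalyticAt ℂ (fun q => (MvPolynomial.aeval (fun i => (B.σ q).ofLp i) R : ℂ)) 0 := by
        refine AnalyticAt.aeval_mvPolynomial (fun i => ?_) R
        exact ((EuclideanSpace.proj i : EN M →L[ℂ] ℂ).analyticAt _).comp (B.σ_an 0 (ball_subset_closedBall hp))
      have h2 : AnalyticAt ℂ (fun q => eval (B.σ q).ofLp R) (0 : ℂ × ℂ) := by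
        refine h1.congr (Eventually.of_forall fun p => ?_)
        simp only [MvPolynomial.aeval_eq_eval]
      exact h2.continuousAt
    by_contra hne
    obtain ⟨q, ⟨h1, h2⟩, h3, h4⟩ := ((frequently_zero (hg.smooth 0 (ball_subset_closedBall hp)).1 h0).and_eventually
      ((hcont.eventually_ne hne).and (isOpen_ball.mem_nhds hp))).exists
    exact h3 (key q h4 (fun h => h1 (B.zero q (ball_subset_closedBall h4) h)) h2)
  · exact key p hp hv h0

/-- module CDat2 (helper84): as `MQ.cdata_of_good` (MQ/CDat) -/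
theorem cdata_of_good2 (hX : Surface (coneE P)) {R : MvPolynomial (Fin (M + 1)) ℂ} {d : ℕ} (hRh : R.IsHomogeneous d) (hRP : R ∉ P) (A : Atlas P FF)
    (Ex : GBox P FF → (ℂ × ℂ → ℂ) → Prop) (hA : ∀ i, ∃ g, CG2 R (A.B i) g ∧ (¬ (A.B i).Reg → Ex (A.B i) g)) :
    ∃ D : CData A, D.R = R ∧ ∀ i, ¬ (A.B i).Reg → Iso (A.B i).v ∧ Wt (A.B i).v (D.g i) ∧ Ex (A.B i) (D.g i) := by
  choose g hg hEx using hA
  have hreg : ∀ i, (A.B i).Reg → ∃ S : Finset ℂ, ∀ p, g i p = ∏ a ∈ S, (p.1 - a) := fun i hi => by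
    rcases (hg i).reg hi with h | h
    · exact ⟨∅, fun p => by rw [h]; simp⟩
    · exact ⟨{0}, fun p => by rw [h]; simp⟩
  refine ⟨⟨g, R, d, hRh, hRP, hreg, fun i p hp => ((hg i).smooth p hp).1, fun i => (hg i).inv, fun i p hp h0 => van_of_good2 (hg i) hp h0, ?_⟩,
    rfl, fun i hi => ⟨((hg i).sing hi).1, ((hg i).sing hi).2, hEx i hi⟩⟩
  intro i j p hp Φ t h
  by_cases hv : (A.B i).v p = 0
  · have hp0 := (A.B i).zero p (ball_subset_closedBall hp) hv
    subst hp0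
    have hreg : ¬ (A.B i).Reg := fun h => by
      rw [h 0] at hv
      simp at hv
    obtain ⟨s, hs, -, hsep⟩ := A.sep i hreg
    have hij : j = i := by
      by_contra hne
      obtain ⟨c, hc, h1⟩ := h.eq.self_of_nhds
      exact hsep j hne ((A.B i).σ 0) ⟨0, mem_ball_self hs, 1, one_ne_zero, (one_smul _ _).symm⟩ ⟨Φ 0, h.mem, c, hc, h1⟩
    subst hij
    refine ⟨fun _ => 1, analyticAt_const, one_ne_zero, ?_⟩
    filter_upwards [h.eq, isOpen_ball.mem_nhds hp, h.an.continuousAt.eventually (isOpen_ball.mem_nhds h.mem)] with w h1 h2 h3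
    obtain ⟨c, -, h4⟩ := h1
    have h5 := (A.B j).inj w (ball_subset_closedBall h2) (Φ w) (ball_subset_closedBall h3) c h4
    rw [← h5, one_mul]
  · exact comp_of_ne2 hX hRh (hg i) (hg j) hp hv h

end Pool.Agent.MQ2
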