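import Pool.Agent.GG.Ode

/-!
# MQ2 Rect: the flow box

`Φ (x, y)` = the flow of `v` at the time `y` with the initial value `x e`, `e` and `v 0` independent.
-/

set_option autoImplicit false

open Topology Filter Metric

noncomputable section

namespace Pool.Agent.MQ2

/-- a vector independent of a given one -/
theorem Rect.exists_indep {w : ℂ × ℂ} (hw : w ≠ 0) : ∃ e : ℂ × ℂ, LinearIndependent ℂ ![e, w] := by
  by_cases h2 : w.2 = 0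
  · have h1 : w.1 ≠ 0 := fun h1 => hw (Prod.ext h1 h2)
    refine ⟨(0, 1), LinearIndependent.pair_iff.2 fun s t hst => ?_⟩
    have e1 := congrArg Prod.fst hst
    have e2 := congrArg Prod.snd hst
    simp only [Prod.fst_add, Prod.smul_fst, smul_eq_mul, Prod.fst_zero, mul_zero, zero_add, Prod.snd_add, Prod.smul_snd, mul_one, Prod.snd_zero] at e1 e2
    have ht : t = 0 := (mul_eq_zero.1 e1).resolve_right h1
    rw [ht, zero_mul, add_zero] at e2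
    exact ⟨e2, ht⟩
  · refine ⟨(1, 0), LinearIndependent.pair_iff.2 fun s t hst => ?_⟩
    have e1 := congrArg Prod.fst hst
    have e2 := congrArg Prod.snd hst
    simp only [Prod.fst_add, Prod.smul_fst, smul_eq_mul, Prod.fst_zero, mul_zero, zero_add, Prod.snd_add, Prod.smul_snd, mul_one, Prod.snd_zero] at e1 e2
    have ht : t = 0 := (mul_eq_zero.1 e2).resolve_right h2
    rw [ht, zero_mul, add_zero] at e1
    exact ⟨e1, ht⟩

/-- module Rect: the flow box -/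
theorem rect {v : ℂ × ℂ → ℂ × ℂ} (hv : AnalyticAt ℂ v 0) (h0 : v 0 ≠ 0) : ∃ Φ : ℂ × ℂ → ℂ × ℂ, AnalyticAt ℂ Φ 0 ∧ Φ 0 = 0 ∧
    LinearIndependent ℂ ![fderiv ℂ Φ 0 (1, 0), fderiv ℂ Φ 0 (0, 1)] ∧
    ∀ᶠ p in 𝓝 (0 : ℂ × ℂ), (v (Φ p)).1 * (fderiv ℂ Φ p (0, 1)).2 = (v (Φ p)).2 * (fderiv ℂ Φ p (0, 1)).1 := by
  obtain ⟨e, he⟩ := Rect.exists_indep h0
  let L : (Fin 2 → ℂ) ≃L[ℂ] ℂ × ℂ := ContinuousLinearEquiv.finTwoArrow ℂ ℂ
  have hV : AnalyticAt ℂ (fun x : Fin 2 → ℂ => L.symm (v (L x))) 0 := by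
    have h1 : AnalyticAt ℂ v (L 0) := by
      rw [map_zero]
      exact hv
    have h2 : AnalyticAt ℂ (fun x : Fin 2 → ℂ => v (L x)) 0 := h1.comp ((L : (Fin 2 → ℂ) →L[ℂ] ℂ × ℂ).analyticAt 0)
    exact ((L.symm : ℂ × ℂ →L[ℂ] (Fin 2 → ℂ)).analyticAt _).comp h2
  obtain ⟨r, hr, H, hHa, hH0, hHd⟩ := Pool.Agent.GG.exists_flow hV one_pos
  -- the inner map
  set ψ : ℂ × ℂ → ℂ × (Fin 2 → ℂ) := fun p => (p.2, L.symm (p.1 • e)) with hψ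
  have hψa : ∀ p, AnalyticAt ℂ ψ p := by
    intro p
    have h1 : AnalyticAt ℂ (fun p : ℂ × ℂ => p.1 • e) p := by
      have h2 : AnalyticAt ℂ (fun p : ℂ × ℂ => p.1) p := analyticAt_fst
      exact h2.smul analyticAt_const
    exact analyticAt_snd.prod (((L.symm : ℂ × ℂ →L[ℂ] (Fin 2 → ℂ)).analyticAt _).comp h1)
  have hψ0 : ψ 0 = ((0 : ℂ), (0 : Fin 2 → ℂ)) := by
    show ((0 : ℂ), L.symm ((0 : ℂ) • e)) = _
    rw [zero_smul, map_zero]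
  have hgood : ∀ᶠ p in 𝓝 (0 : ℂ × ℂ), (ψ p).1 ∈ ball (0 : ℂ) r ∧ (ψ p).2 ∈ ball (0 : Fin 2 → ℂ) r := by
    have h1 : Tendsto ψ (𝓝 0) (𝓝 (ψ 0)) := (hψa 0).continuousAt
    rw [hψ0] at h1
    have h2 : ∀ᶠ q in 𝓝 ((0 : ℂ), (0 : Fin 2 → ℂ)), q.1 ∈ ball (0 : ℂ) r ∧ q.2 ∈ ball (0 : Fin 2 → ℂ) r := by
      have h3 : ball (0 : ℂ) r ×ˢ ball (0 : Fin 2 → ℂ) r ∈ 𝓝 ((0 : ℂ), (0 : Fin 2 → ℂ)) := prod_mem_nhds (ball_mem_nhds _ hr) (ball_mem_nhds _ hr)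
      filter_upwards [h3] with q hq
      exact hq
    exact h1.eventually h2
  set Φ : ℂ × ℂ → ℂ × ℂ := fun p => L (H (ψ p)) with hΦ
  have hΦa : ∀ᶠ p in 𝓝 (0 : ℂ × ℂ), AnalyticAt ℂ Φ p := by
    filter_upwards [hgood] with p hp
    have h1 : AnalyticAt ℂ H (ψ p) := hHa _ hp.1 _ hp.2
    exact ((L : (Fin 2 → ℂ) →L[ℂ] ℂ × ℂ).analyticAt _).comp (h1.comp (hψa p))
  have hΦ0 : Φ 0 = 0 := by
    show L (H (ψ 0)) = 0
    rw [hψ0, hH0 0 (mem_ball_self hr), map_zero]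
  -- the derivative in the direction of `y`
  have hy : ∀ᶠ p in 𝓝 (0 : ℂ × ℂ), fderiv ℂ Φ p (0, 1) = v (Φ p) := by
    filter_upwards [hgood, hΦa] with p hp hpa
    have h1 : HasDerivAt (fun t : ℂ => (p.1, t)) ((0 : ℂ), (1 : ℂ)) p.2 := (hasDerivAt_const p.2 p.1).prodMk (hasDerivAt_id p.2)
    have h2 : HasFDerivAt Φ (fderiv ℂ Φ p) ((fun t : ℂ => (p.1, t)) p.2) := hpa.differentiableAt.hasFDerivAt
    have h3 : HasDerivAt (fun t : ℂ => Φ (p.1, t)) (fderiv ℂ Φ p (0, 1)) p.2 := HasFDerivAt.comp_hasDerivAt (f := fun t : ℂ => (p.1, t)) p.2 h2 h1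
    have h4 : HasDerivAt (fun t : ℂ => H (t, L.symm (p.1 • e))) (L.symm (v (L (H (p.2, L.symm (p.1 • e)))))) p.2 := (hHd _ hp.1 _ hp.2).2
    have h5 : HasDerivAt (fun t : ℂ => L (H (t, L.symm (p.1 • e)))) (L (L.symm (v (L (H (p.2, L.symm (p.1 • e))))))) p.2 :=
      (L : (Fin 2 → ℂ) →L[ℂ] ℂ × ℂ).hasFDerivAt.comp_hasDerivAt p.2 h4
    rw [ContinuousLinearEquiv.apply_symm_apply] at h5
    exact h3.unique h5
  have hx : fderiv ℂ Φ 0 (1, 0) = e := by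
    have h1 : HasDerivAt (fun t : ℂ => (t, (0 : ℂ))) ((1 : ℂ), (0 : ℂ)) 0 := (hasDerivAt_id (0 : ℂ)).prodMk (hasDerivAt_const (0 : ℂ) (0 : ℂ))
    have h2 : HasFDerivAt Φ (fderiv ℂ Φ 0) ((fun t : ℂ => (t, (0 : ℂ))) 0) := hΦa.self_of_nhds.differentiableAt.hasFDerivAt
    have h3 : HasDerivAt (fun t : ℂ => Φ (t, 0)) (fderiv ℂ Φ 0 (1, 0)) 0 := HasFDerivAt.comp_hasDerivAt (f := fun t : ℂ => (t, (0 : ℂ))) 0 h2 h1
    have h4 : HasDerivAt (fun t : ℂ => t • e) e 0 := by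
      have := (hasDerivAt_id (0 : ℂ)).smul_const e
      rwa [one_smul] at this
    have h5 : (fun t : ℂ => Φ (t, 0)) =ᶠ[𝓝 0] fun t : ℂ => t • e := by
      have h6 : Tendsto (fun t : ℂ => (t, (0 : ℂ))) (𝓝 0) (𝓝 (0 : ℂ × ℂ)) := by
        have : Continuous (fun t : ℂ => (t, (0 : ℂ))) := by fun_prop
        exact this.tendsto' 0 0 rfl
      filter_upwards [h6.eventually hgood] with t ht
      show L (H (0, L.symm (t • e))) = t • e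
      rw [hH0 _ ht.2, ContinuousLinearEquiv.apply_symm_apply]
    exact h3.unique (h4.congr_of_eventuallyEq h5)
  refine ⟨Φ, hΦa.self_of_nhds, hΦ0, ?_, ?_⟩
  · rw [hx, hy.self_of_nhds, hΦ0]
    exact he
  · filter_upwards [hy] with p hp
    rw [hp]
    ring

end Pool.Agent.MQ2
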