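import Pool.Agent.MQ2.DefsG
import Pool.Agent.MQ2.Rect
import Pool.Agent.MQ.InvL
import Pool.Agent.MQ.InvS
import Pool.Agent.MQ.Box
import Pool.Agent.MQ.LeafReg
import Pool.Agent.H17BP.Ift
import Pool.Agent.H17BP.ChLem

/-!
# MQ2 Fol1: the boxes at the regular points of a foliation
-/

set_option autoImplicit false

open Topology Filter Metric MvPolynomial Asymptotics

noncomputable section

namespace Pool.Agent.MQ2

open Pool.Agent.H36.BP (EN)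
open Pool.Agent.H17BP (IsChart Surface Bihol)
open Pool.Agent.H17EF (projVar coneE)
open Pool.Agent.MQ

variable {M : ℕ} {P : Ideal (MvPolynomial (Fin (M + 1)) ℂ)} {FF : Set (EN M × EN M)}

private theorem analyticAt_evalE {E : Type*} [NormedAddCommGroup E] [NormedSpace ℂ E] {f : E → EN M} {x : E} (hf : AnalyticAt ℂ f x)
    (R : MvPolynomial (Fin (M + 1)) ℂ) : AnalyticAt ℂ (fun p => eval (f p).ofLp R) x := by
  have h1 : (fun p => eval (f p).ofLp R) = fun p => ∑ d ∈ R.support, R.coeff d * ∏ i, (f p).ofLp i ^ d i := by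
    funext p
    rw [eval_eq']
  rw [h1]
  refine Finset.analyticAt_fun_sum _ fun d _ => analyticAt_const.mul (Finset.analyticAt_fun_prod _ fun i _ => AnalyticAt.pow ?_ _)
  exact AnalyticAt.comp (g := fun v : EN M => (EuclideanSpace.proj i : EN M →L[ℂ] ℂ) v) (f := f) ((EuclideanSpace.proj i : EN M →L[ℂ] ℂ).analyticAt _) hf

/-- a flow box in the coordinates `Φ` -/
theorem spans_rect {σ : ℂ × ℂ → EN M} {v Φ : ℂ × ℂ → ℂ × ℂ} (hσ : AnalyticAt ℂ σ 0) (hsp : Spans FF σ v) (hv : AnalyticAt ℂ v 0) (hv0 : v 0 ≠ 0)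
    (hΦ : AnalyticAt ℂ Φ 0) (hΦ0 : Φ 0 = 0) (hdet : (fderiv ℂ Φ 0 (1, 0)).1 * (fderiv ℂ Φ 0 (0, 1)).2 -
      (fderiv ℂ Φ 0 (0, 1)).1 * (fderiv ℂ Φ 0 (1, 0)).2 ≠ 0)
    (hr : ∀ᶠ p in 𝓝 (0 : ℂ × ℂ), (v (Φ p)).1 * (fderiv ℂ Φ p (0, 1)).2 = (v (Φ p)).2 * (fderiv ℂ Φ p (0, 1)).1) :
    Spans FF (fun p => σ (Φ p)) fun _ => (0, 1) := by
  have ht : Tendsto Φ (𝓝 0) (𝓝 0) := by
    have := hΦ.continuousAt.tendsto
    rwa [hΦ0] at this
  have hd : AnalyticAt ℂ (fderiv ℂ Φ) 0 := hΦ.fderiv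
  have hap : ∀ u : ℂ × ℂ, ContinuousAt (fun p => fderiv ℂ Φ p u) 0 := fun u =>
    ((ContinuousLinearMap.apply ℂ (ℂ × ℂ) u).continuous.continuousAt).comp hd.continuousAt
  have hdet' : ∀ᶠ p in 𝓝 (0 : ℂ × ℂ), (fderiv ℂ Φ p (1, 0)).1 * (fderiv ℂ Φ p (0, 1)).2 -
      (fderiv ℂ Φ p (0, 1)).1 * (fderiv ℂ Φ p (1, 0)).2 ≠ 0 := by
    refine ContinuousAt.eventually_ne ?_ hdet
    exact ((hap _).fst.mul (hap _).snd).sub ((hap _).fst.mul (hap _).snd)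
  filter_upwards [ht.eventually hsp, hr, hdet', ht.eventually (hv.continuousAt.eventually_ne hv0), ht.eventually hσ.eventually_analyticAt,
    hΦ.eventually_analyticAt] with p h1 h2 h3 h4 h5 h6 w a c hc
  have h7 : fderiv ℂ (fun p => σ (Φ p)) p = (fderiv ℂ σ (Φ p)).comp (fderiv ℂ Φ p) :=
    (HasFDerivAt.comp (g := σ) (f := Φ) p h5.differentiableAt.hasFDerivAt h6.differentiableAt.hasFDerivAt).fderiv
  have h8 : fderiv ℂ (fun p => σ (Φ p)) p w = fderiv ℂ σ (Φ p) (fderiv ℂ Φ p w) := by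
    rw [h7]
    rfl
  rw [h8, h1 _ a c hc, Pool.Agent.E2.fderiv_pair (fderiv ℂ Φ p) w]
  obtain ⟨A, hA⟩ : ∃ A, A = fderiv ℂ Φ p (1, 0) := ⟨_, rfl⟩
  obtain ⟨B, hB⟩ : ∃ B, B = fderiv ℂ Φ p (0, 1) := ⟨_, rfl⟩
  rw [← hA, ← hB] at h3 ⊢
  rw [← hB] at h2
  simp only [Prod.fst_add, Prod.snd_add, Prod.smul_fst, Prod.smul_snd, smul_eq_mul]
  -- `v` is a multiple of `B`, not zero
  have h9 : (v (Φ p)).1 * A.2 - (v (Φ p)).2 * A.1 ≠ 0 := by
    intro h10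
    apply h4
    have e1 : (v (Φ p)).1 * (A.1 * B.2 - B.1 * A.2) = 0 := by linear_combination A.1 * h2 - B.1 * h10
    have e2 : (v (Φ p)).2 * (A.1 * B.2 - B.1 * A.2) = 0 := by linear_combination A.2 * h2 - B.2 * h10
    exact Prod.ext ((mul_eq_zero.1 e1).resolve_right h3) ((mul_eq_zero.1 e2).resolve_right h3)
  constructor
  · intro h10
    have h11 : w.1 * ((v (Φ p)).1 * A.2 - (v (Φ p)).2 * A.1) = 0 := by linear_combination h10 - w.2 * h2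
    have h12 := (mul_eq_zero.1 h11).resolve_right h9
    rw [h12, zero_mul, mul_zero]
  · intro h10
    have h11 : w.1 = 0 := by
      rw [zero_mul, one_mul] at h10
      exact h10.symm
    rw [h11]
    linear_combination w.2 * h2

/-- MODULE Fol1 -/
theorem good_reg (hX : Surface (coneE P)) {σ : ℂ × ℂ → EN M} {τ : EN M → ℂ × ℂ} {v : ℂ × ℂ → ℂ × ℂ} (hσ : IsChart (coneE P) σ τ) (hsp : Spans FF σ v)
    (hv : AnalyticAt ℂ v 0) (hv0 : v 0 ≠ 0) {R : MvPolynomial (Fin (M + 1)) ℂ} {d : ℕ} (hR : R.IsHomogeneous d)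
    (hne : ∃ᶠ p in 𝓝 (0 : ℂ × ℂ), eval (σ p).ofLp R ≠ 0) :
    ∃ σ' : ℂ × ℂ → EN M, σ' 0 = σ 0 ∧ ∀ᶠ r in 𝓝[>] (0 : ℝ), ∃ B : GBox P FF, B.σ = σ' ∧ B.r = r ∧ B.Reg ∧ ∃ g, CG2 R B g := by
  obtain ⟨Φ, hΦ, hΦ0, hli, hr⟩ := rect hv hv0
  have hdet : (fderiv ℂ Φ 0 (1, 0)).1 * (fderiv ℂ Φ 0 (0, 1)).2 - (fderiv ℂ Φ 0 (0, 1)).1 * (fderiv ℂ Φ 0 (1, 0)).2 ≠ 0 := by
    intro h0
    obtain ⟨A, hA⟩ : ∃ A, A = fderiv ℂ Φ 0 (1, 0) := ⟨_, rfl⟩
    obtain ⟨B, hB⟩ : ∃ B, B = fderiv ℂ Φ 0 (0, 1) := ⟨_, rfl⟩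
    rw [← hA, ← hB] at h0 hli
    rw [LinearIndependent.pair_iff] at hli
    have hB0 : B = 0 := by
      have e1 := hli B.2 (-A.2) (by
        refine Prod.ext ?_ ?_
        · show B.2 * A.1 + -A.2 * B.1 = 0
          linear_combination h0
        · show B.2 * A.2 + -A.2 * B.2 = 0
          ring)
      have e2 := hli B.1 (-A.1) (by
        refine Prod.ext ?_ ?_
        · show B.1 * A.1 + -A.1 * B.1 = 0
          ring
        · show B.1 * A.2 + -A.1 * B.2 = 0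
          linear_combination -h0)
      exact Prod.ext e2.1 e1.1
    have e3 := hli 0 1 (by rw [hB0]; simp)
    exact one_ne_zero e3.2
  have hbi : Bihol Φ := (Pool.Agent.H17BP.bihol_iff hΦ hΦ0).2 hdet
  obtain ⟨Ψ, hΨ, hΨ0, h1, h2⟩ := hbi.inv
  have hbi' : Bihol Ψ := ⟨hΨ, hΨ0, Φ, hΦ, hΦ0, h2, h1⟩
  have hσ' : IsChart (coneE P) (fun p => σ (Φ p)) fun y => Ψ (τ y) := hσ.comp hbi hbi' h1 h2
  have hsp' : Spans FF (fun p => σ (Φ p)) fun _ => (0, 1) := spans_rect hσ.σ_an hsp hv hv0 hΦ hΦ0 hdet hr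
  have hq : AnalyticAt ℂ (fun p => eval (σ (Φ p)).ofLp R) 0 := analyticAt_evalE hσ'.σ_an R
  have hq0 : ∃ᶠ p in 𝓝 (0 : ℂ × ℂ), eval (σ (Φ p)).ofLp R ≠ 0 := by
    intro hcon
    apply hne
    have h3 : ∀ᶠ p in 𝓝 (0 : ℂ × ℂ), eval (σ (Φ p)).ofLp R = 0 := hcon.mono fun p hp => not_not.1 hp
    filter_upwards [hbi'.tendsto.eventually h3, h2] with p h4 h5
    rw [h5] at h4
    exact not_not.2 h4
  have hinv := inv_iff hX hσ' hsp' hR
  have hbox := gbox_of_germ hX hσ' hsp' analyticAt_const (Eventually.of_forall fun p _ => by simp)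
  refine ⟨fun p => σ (Φ p), congrArg σ hΦ0, ?_⟩
  rcases leaf_regular hq hq0 with h3 | h3
  · filter_upwards [hbox, closedBall_of_eventually hinv, closedBall_of_eventually h3] with r ⟨B, hB1, hB2, hB3⟩ h4 h5
    have hreg : B.Reg := fun p => by rw [hB2]
    refine ⟨B, hB1, hB3, hreg, fun _ => 1, ?_⟩
    have h6 := reg_inv hreg (g := fun _ => 1) (S := ∅) fun p => by simp
    refine ⟨fun _ => Or.inl fun p => rfl, fun h => absurd hreg h, fun p hp => ⟨h6.1 p hp, fun _ h => absurd h one_ne_zero⟩, h6.2, fun p hp _ => ?_⟩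
    rw [hB3] at hp
    rw [hB1, h4 p hp]
    exact ⟨fun h => absurd h (h5 p hp), fun h => absurd h one_ne_zero⟩
  · filter_upwards [hbox, closedBall_of_eventually hinv, closedBall_of_eventually h3] with r ⟨B, hB1, hB2, hB3⟩ h4 h5
    have hreg : B.Reg := fun p => by rw [hB2]
    refine ⟨B, hB1, hB3, hreg, fun p => p.1, ?_⟩
    have h6 := reg_inv hreg (g := fun p => p.1) (S := {0}) fun p => by simp
    refine ⟨fun _ => Or.inr fun p => rfl, fun h => absurd hreg h, fun p hp => ⟨h6.1 p hp, fun _ _ h => ?_⟩, h6.2, fun p hp _ => ?_⟩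
    · have h7 : fderiv ℂ (fun p : ℂ × ℂ => p.1) p = ContinuousLinearMap.fst ℂ ℂ ℂ := hasFDerivAt_fst.fderiv
      rw [h7] at h
      have h8 := congrArg (fun L : ℂ × ℂ →L[ℂ] ℂ => L (1, 0)) h
      simp at h8
    · rw [hB3] at hp
      rw [hB1, h4 p hp]
      exact h5 p hp

end Pool.Agent.MQ2
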