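import Pool.Agent.MQ2.GInv
import Pool.Agent.MQ.InvL
import Pool.Agent.MQ.Box
import Pool.Agent.MQ.Unit

/-!
# MQ2 Fol2: the box of a singular point of a foliation

PROOF.  `Z` = the points with a piece of a leaf in `{R = 0}`.  Off the center it is empty or a smooth curve (`leaf_set`), so it has a reduced equation `g`
(`exists_equ`), which is invariant (`wt_of_equ`).
-/

set_option autoImplicit false

open Topology Filter Metric MvPolynomial Asymptotics

noncomputable section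

namespace Pool.Agent.MQ2

open Pool.Agent.H36.BP (EN)
open Pool.Agent.H17BP (IsChart IsForm Surface Pr)
open Pool.Agent.H17EF (projVar coneE)
open Pool.Agent.MQ

variable {M : ℕ} {P : Ideal (MvPolynomial (Fin (M + 1)) ℂ)} {FF : Set (EN M × EN M)}

/-- a nonconstant germ of a curve is not constant near any point -/
theorem frequently_ne_curve {γ : ℂ → ℂ × ℂ} (hγ : AnalyticAt ℂ γ 0) (h0 : γ 0 = 0) (hne : ∃ᶠ t in 𝓝 (0 : ℂ), γ t ≠ 0) :
    ∀ᶠ t in 𝓝[≠] (0 : ℂ), γ t ≠ 0 ∧ ∃ᶠ s in 𝓝 (0 : ℂ), γ (t + s) ≠ γ t := by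
  have h1 : ∀ᶠ t in 𝓝[≠] (0 : ℂ), γ t ≠ 0 := by
    rcases hγ.eventually_eq_zero_or_eventually_ne_zero with h | h
    · exact absurd (h.mono fun t ht => not_not.2 ht) hne
    · exact h
  obtain ⟨r, hr, h2⟩ := Metric.eventually_nhds_iff_ball.1 hγ.eventually_analyticAt
  have h3 : ∀ᶠ t in 𝓝[≠] (0 : ℂ), t ∈ ball (0 : ℂ) r := mem_nhdsWithin_of_mem_nhds (ball_mem_nhds 0 hr)
  filter_upwards [h1, h3] with t ht htr
  refine ⟨ht, fun h4 => ?_⟩
  have h5 : ∀ᶠ s in 𝓝 (0 : ℂ), γ (t + s) = γ t := h4.mono fun s hs => not_not.1 hs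
  have h6 : (fun s => γ s - γ t) =ᶠ[𝓝 t] 0 := by
    have h7 : Tendsto (fun s : ℂ => s - t) (𝓝 t) (𝓝 0) := by
      have h8 : Continuous fun s : ℂ => s - t := by fun_prop
      have h9 := h8.tendsto t
      rwa [sub_self] at h9
    filter_upwards [h7.eventually h5] with s hs
    rw [add_sub_cancel] at hs
    simp [hs]
  have h7 : AnalyticOnNhd ℂ (fun s => γ s - γ t) (ball 0 r) := fun w hw => (h2 w hw).sub analyticAt_const
  have h8 := h7.eqOn_zero_of_preconnected_of_eventuallyEq_zero (convex_ball _ _).isPreconnected htr h6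
  have h9 := h8 (mem_ball_self hr)
  simp only [h0, Pi.zero_apply, zero_sub, neg_eq_zero] at h9
  exact ht h9

/-- MODULE Fol2: a singular point -/
theorem good_sing (hX : Surface (coneE P)) {σ : ℂ × ℂ → EN M} {τ : EN M → ℂ × ℂ} {v : ℂ × ℂ → ℂ × ℂ} (hσ : IsChart (coneE P) σ τ) (hsp : Spans FF σ v)
    (hv : Iso v) {R : MvPolynomial (Fin (M + 1)) ℂ} {d : ℕ} (hR : R.IsHomogeneous d) (hne : ∃ᶠ p in 𝓝 (0 : ℂ × ℂ), eval (σ p).ofLp R ≠ 0) :
    ∃ g : ℂ × ℂ → ℂ, Wt v g ∧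
      (∀ γ : ℂ → ℂ × ℂ, AnalyticAt ℂ γ 0 → γ 0 = 0 → (∃ᶠ t in 𝓝 (0 : ℂ), γ t ≠ 0) →
        (∀ᶠ t in 𝓝 (0 : ℂ), (v (γ t)).1 * (deriv γ t).2 = (v (γ t)).2 * (deriv γ t).1 ∧ eval (σ (γ t)).ofLp R = 0) → ∀ᶠ t in 𝓝 (0 : ℂ), g (γ t) = 0) ∧
      ∀ᶠ r in 𝓝[>] (0 : ℝ), ∃ B : GBox P FF, B.σ = σ ∧ B.v = v ∧ B.r = r ∧ CG2 R B g := by
  obtain ⟨hva, hv0, hvne⟩ := hv
  set q : ℂ × ℂ → ℂ := fun p => eval (σ p).ofLp R with hqdef
  have hq : AnalyticAt ℂ q 0 := by
    have h1 : AnalyticAt ℂ (fun p => (MvPolynomial.aeval (fun i => (σ p).ofLp i) R : ℂ)) 0 := by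
      refine AnalyticAt.aeval_mvPolynomial (fun i => ?_) R
      exact ((EuclideanSpace.proj i : EN M →L[ℂ] ℂ).analyticAt _).comp hσ.σ_an
    refine h1.congr (Eventually.of_forall fun p => ?_)
    simp only [MvPolynomial.aeval_eq_eval]
    rfl
  obtain ⟨g, hwt, hgZ⟩ := exists_ginv ⟨hva, hv0, hvne⟩ hq hne
  have hg : AnalyticAt ℂ g 0 := hwt.an
  have hred : ∀ᶠ p in 𝓝 (0 : ℂ × ℂ), p ≠ 0 → g p = 0 → fderiv ℂ g p ≠ 0 := by
    filter_upwards [hgZ] with p h1 hp h0
    exact ((h1 hp).2 h0).1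
  refine ⟨g, hwt, ?_, ?_⟩
  · -- curves through the center
    intro γ hγ hγ0 hγne htan
    have hγt : Tendsto γ (𝓝 0) (𝓝 0) := by
      have := hγ.continuousAt.tendsto
      rwa [hγ0] at this
    have h1 : ∀ᶠ t in 𝓝[≠] (0 : ℂ), g (γ t) = 0 := by
      filter_upwards [frequently_ne_curve hγ hγ0 hγne, (hγ.eventually_analyticAt).filter_mono nhdsWithin_le_nhds,
        (eventually_eventually_nhds.2 htan).filter_mono nhdsWithin_le_nhds, (hγt.eventually hgZ).filter_mono nhdsWithin_le_nhds] with t h2 h3 h4 h5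
      refine (h5 h2.1).1.2 ?_
      have hadd : Tendsto (fun s : ℂ => t + s) (𝓝 0) (𝓝 t) := by
        have h8 : Continuous fun s : ℂ => t + s := by fun_prop
        have h9 := h8.tendsto 0
        rwa [add_zero] at h9
      refine ⟨fun s => γ (t + s), ?_, by simp, ?_, h2.2⟩
      · have h8 : AnalyticAt ℂ (fun s : ℂ => t + s) 0 := analyticAt_const.add analyticAt_id
        exact AnalyticAt.comp (g := γ) (f := fun s : ℂ => t + s) (by simpa using h3) h8
      · filter_upwards [hadd.eventually h4] with s h8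
        have h9 : deriv (fun s => γ (t + s)) s = deriv γ (t + s) := deriv_comp_const_add (f := γ) t s
        rw [h9]
        exact h8
    have h2 : g (γ 0) = 0 := by
      have h3 : ContinuousAt (fun t => g (γ t)) 0 := by
        refine ContinuousAt.comp (g := g) ?_ hγ.continuousAt
        rw [hγ0]
        exact hg.continuousAt
      have h4 : Tendsto (fun t => g (γ t)) (𝓝[≠] 0) (𝓝 (g (γ 0))) := h3.tendsto.mono_left nhdsWithin_le_nhds
      exact tendsto_nhds_unique (h4.congr' (h1 : (fun t => g (γ t)) =ᶠ[𝓝[≠] 0] fun _ => 0)) tendsto_const_nhds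
    rw [eventually_nhdsWithin_iff] at h1
    filter_upwards [h1] with t ht
    by_cases h3 : t = 0
    · rw [h3, h2]
    · exact ht h3
  · -- boxes
    filter_upwards [gbox_of_germ hX hσ hsp hva hvne, closedBall_of_eventually hg.eventually_analyticAt, closedBall_of_eventually hred,
      closedBall_of_eventually (inv_iff hX hσ hsp hR), closedBall_of_eventually hgZ,
      closedBall_of_eventually (eventually_eventually_nhds.2 hwt.cof.choose_spec.2), closedBall_of_eventually hwt.cof.choose_spec.1.eventually_analyticAt]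
      with r h1 h2 h3 h4 h5 h6 h7
    obtain ⟨B, rfl, rfl, rfl⟩ := h1
    refine ⟨B, rfl, rfl, rfl, ?_⟩
    have hpne : ∀ p, B.v p ≠ 0 → p ≠ 0 := fun p hp h => hp (by rw [h, hv0])
    refine ⟨fun h => ?_, fun _ => ⟨⟨hva, hv0, hvne⟩, hwt⟩, fun p hp => ⟨h2 p hp, fun hvp => h3 p hp (hpne p hvp)⟩, ?_, ?_⟩
    · have h8 := h 0
      rw [hv0] at h8
      exact absurd (congrArg Prod.snd h8) (by norm_num)
    · intro p hp hvp
      exact ⟨hwt.cof.choose, h7 p hp, h6 p hp⟩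
    · intro p hp hvp
      rw [h4 p hp]
      exact (h5 p hp (hpne p hvp)).1.symm

end Pool.Agent.MQ2
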