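import Pool.Agent.MQ2.CC2A
import Pool.Agent.MQ2.CDat2
import Pool.Agent.MQ2.Fol1
import Pool.Agent.MQ2.Fol2
import Pool.Agent.MQ.Atl
import Pool.Agent.MQ.Box
import Pool.Agent.H90.SG.Poly

/-!
# MQ2 CC2: the atlas and the invariant curve, arbitrary isolated singular points
-/

set_option autoImplicit false

open Topology Filter Metric MvPolynomial Asymptotics

noncomputable section

namespace Pool.Agent.MQ2

open Pool.Agent.H36.BP (EN)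
open Pool.Agent.H13.SM (conTan)
open Pool.Agent.H17BP (IsChart Surface Pr)
open Pool.Agent.H17EF (projVar coneE)
open Pool.Agent.H17LG.Variety (FunField)
open Pool.Agent.H62.FC (Homog)
open Pool.Agent.MQ

variable {M : ℕ} {P : Ideal (MvPolynomial (Fin (M + 1)) ℂ)} {FF : Set (EN M × EN M)}

/-- module CC2 -/
theorem exists_cdata2 [P.IsPrime] {z : Fin 2 → FunField P} (hP : Homog P) (hz : IsTranscendenceBasis ℂ z) (hX : Surface (coneE P))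
    (hsm : ∀ y : Fin (M + 1) → ℂ, y ≠ 0 → (∀ Q ∈ P, eval y Q = 0) → Module.finrank ℂ (Pool.Agent.H13.SM.conTan P y) ≤ 3) (h : IsFol P FF)
    (m : (ℂ × ℂ → ℂ × ℂ) → ℕ) (fam : ∀ v : ℂ × ℂ → ℂ × ℂ, Fin (m v) → ℕ → ℂ → ℂ × ℂ) (hfam : ∀ v, Iso v → ∀ l, Sep v (fam v l))
    (Rad : (ℂ × ℂ → ℂ × ℂ) → (ℂ × ℂ → ℂ) → ℝ → Prop) (hRad : ∀ v g, Iso v → Wt v g → ∀ᶠ r in 𝓝[>] (0 : ℝ), Rad v g r) :
    ∃ (A : Atlas P FF) (D : CData A), ∀ i, ¬ (A.B i).Reg → Iso (A.B i).v ∧ Wt (A.B i).v (D.g i) ∧ Rad (A.B i).v (D.g i) (A.B i).r ∧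
      ∀ l, FZero (fam (A.B i).v l) (D.g i) ∨ ∀ (R' : MvPolynomial (Fin (M + 1)) ℂ) (d' : ℕ), R'.IsHomogeneous d' → R' ∉ P →
        ¬ FZero (fam (A.B i).v l) fun p => eval ((A.B i).σ p).ofLp R' := by
  classical
  have thin : ∀ (R : MvPolynomial (Fin (M + 1)) ℂ) (d : ℕ), R.IsHomogeneous d → R ∉ P → ∀ (σ : ℂ × ℂ → EN M) (τ : EN M → ℂ × ℂ), IsChart (coneE P) σ τ →
      ∃ᶠ p in 𝓝 (0 : ℂ × ℂ), eval (σ p).ofLp R ≠ 0 := fun R d hRh hRP σ τ hσ => Pool.Agent.H90.SG.thin_coneE hP hz hsm hRh hRP hσ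
  -- boxes from charts
  have hbox' : ∀ (σ : ℂ × ℂ → EN M) (τ : EN M → ℂ × ℂ) (v : ℂ × ℂ → ℂ × ℂ), IsChart (coneE P) σ τ → Spans FF σ v → AnalyticAt ℂ v 0 →
      (∀ᶠ p in 𝓝 (0 : ℂ × ℂ), p ≠ 0 → v p ≠ 0) → ∃ B : GBox P FF, B.σ = σ ∧ B.v = v := fun σ τ v hσ hsp hv hv0 => by
    obtain ⟨r, B, h1, h2, -⟩ := (gbox_of_germ hX hσ hsp hv hv0).exists
    exact ⟨B, h1, h2⟩
  have hbox : ∀ x ∈ coneE P, ∃ B : GBox P FF, B.σ 0 = x := fun x hx => by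
    obtain ⟨σ, τ, v, hσ, h0, hsp, hv, hv0⟩ := h x hx
    obtain ⟨B, h1, -⟩ := hbox' σ τ v hσ hsp hv hv0
    exact ⟨B, by rw [h1, h0]⟩
  have hSm := Sg_smul' hX hbox
  obtain ⟨r, y, hy1, -, hy3⟩ := finite_of_isolated hX Sg_subset hSm (Sg_isolated' hX hbox)
  -- the charts at the singular points
  choose σ τ v hσ hσ0 hsp hv hv0 using fun j => h (y j) (hy1 j).1
  have hiso : ∀ j, Iso (v j) := fun j => by
    obtain ⟨B, h1, h2⟩ := hbox' _ _ _ (hσ j) (hsp j) (hv j) (hv0 j)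
    refine ⟨hv j, ?_, hv0 j⟩
    rw [← h2, ← B.mem_Sg_iff B.zero_mem, h1, hσ0]
    exact hy1 j
  -- the form
  obtain ⟨R, d, hRh, hRP, hR⟩ := exists_alg2 (P := P) (ι := Σ j, Fin (m (v j))) (fun i => σ i.1) fun i => fam (v i.1) i.2
  obtain ⟨A, hA⟩ := MQ.exists_atlas_of_germ hX (fun B : GBox P FF => ∃ g, CG2 R B g ∧ (¬ B.Reg → Rad B.v g B.r ∧
      ∀ l, FZero (fam B.v l) g ∨ NA P B.σ (fam B.v l))) fun x hx => by
    by_cases hxs : x ∈ Sg P FF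
    · -- a singular point
      obtain ⟨j, a, ha, hxj⟩ := hy3 x hxs
      have hσa := (hσ j).scale hX.smul ha
      have hspa : Spans FF (fun p => a • σ j p) (v j) := (hsp j).smul (hσ j).σ_an ha
      obtain ⟨g, hg1, hg2, hg3⟩ := good_sing hX hσa hspa (hiso j) hRh (thin R d hRh hRP _ _ hσa)
      refine ⟨fun p => a • σ j p, by rw [hxj, ← hσ0 j], ?_⟩
      filter_upwards [hg3, hRad (v j) g (hiso j) hg1] with r' ⟨B, e1, e2, e3, e4⟩ hr'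
      refine ⟨B, e1, e3, Or.inr (by rw [e2]; exact (hiso j).2.1), g, e4, fun _ => ?_⟩
      rw [e2, e3, e1]
      refine ⟨hr', fun l => ?_⟩
      rcases hR ⟨j, l⟩ with h1 | ⟨R', d', k1, k2, ⟨S, k3⟩, k4⟩
      · exact Or.inr (h1.smul ha)
      · left
        have hq : AnalyticAt ℂ (fun p => eval (σ j p).ofLp R') 0 := (Pool.Agent.H14.PP.analyticAt_evalEN R' (σ j 0)).fun_comp (hσ j).σ_an
        obtain ⟨γ, q1, q2, q3, q4, q5, q6⟩ := SepAux.sep_alg (hv j) (hfam (v j) (hiso j) l) hq (thin R' d' k1 k2 _ _ (hσ j)) k4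
        refine q6 g hg1.an (hg2 γ q1 q2 q3 ?_)
        filter_upwards [q4, q5] with t t1 t2
        refine ⟨t1, ?_⟩
        rw [eval_smul_hom hRh, k3, map_mul, t2, zero_mul, mul_zero]
    · -- a regular point
      obtain ⟨σ', τ', v', hσ', hσ'0, hsp', hv', hv'0⟩ := h x hx
      have h1 : v' 0 ≠ 0 := fun h2 => hxs (by
        obtain ⟨B, h3, h4⟩ := hbox' _ _ _ hσ' hsp' hv' hv'0
        have h5 := B.mem_Sg_of_zero (by rw [h4]; exact h2)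
        rwa [h3, hσ'0] at h5)
      obtain ⟨σ'', h2, h3⟩ := good_reg hX hσ' hsp' hv' h1 hRh (thin R d hRh hRP _ _ hσ')
      refine ⟨σ'', by rw [h2, hσ'0], ?_⟩
      filter_upwards [h3] with r' ⟨B, e1, e2, e3, g, e4⟩
      exact ⟨B, e1, e2, Or.inl e3, g, e4, fun h4 => absurd e3 h4⟩
  obtain ⟨D, -, hD⟩ := cdata_of_good2 hX hRh hRP A (fun B g => Rad B.v g B.r ∧ ∀ l, FZero (fam B.v l) g ∨ NA P B.σ (fam B.v l)) hA
  exact ⟨A, D, fun i hi => ⟨(hD i hi).1, (hD i hi).2.1, (hD i hi).2.2.1, (hD i hi).2.2.2⟩⟩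

end Pool.Agent.MQ2
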