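import Pool.Agent.MQ2.DefsG
import Pool.Agent.MQ2.SepC
import Pool.Agent.MQ.ExC

/-!
# MQ2 CC2A: algebraic formal separatrices
-/

set_option autoImplicit false

open Topology Filter Metric MvPolynomial Asymptotics

noncomputable section

namespace Pool.Agent.MQ2

open Pool.Agent.H36.BP (EN)
open Pool.Agent.H13.SM (conTan)
open Pool.Agent.H17BP (IsChart Surface Pr)
open Pool.Agent.H17EF (projVar coneE)
open Pool.Agent.H17LG.Variety (FunField)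
open Pool.Agent.H62.FC (Homog)
open Pool.Agent.MQ

variable {M : ℕ} {P : Ideal (MvPolynomial (Fin (M + 1)) ℂ)} {FF : Set (EN M × EN M)}

/-! ## convergent separatrices -/

namespace SepAux

/-- the order of the derivative -/
theorem deriv_isBigO' {g : ℂ → ℂ} (hg : AnalyticAt ℂ g 0) {n : ℕ} (h : g =O[𝓝 0] fun t : ℂ => t ^ (n + 1)) : deriv g =O[𝓝 0] fun t : ℂ => t ^ n := by
  have h0 : g 0 = 0 := by
    obtain ⟨B, hB⟩ := h.bound
    have h4 := hB.self_of_nhds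
    rw [zero_pow (Nat.succ_ne_zero n), norm_zero, mul_zero] at h4
    exact norm_le_zero_iff.1 h4
  rw [isBigO_pow_iff hg.deriv]
  rw [isBigO_pow_iff hg] at h
  have h1 := hg.analyticOrderAt_deriv_add_one
  simp only [h0, sub_zero] at h1
  have h2 : (fun z => g z) = g := rfl
  rw [h2] at h1
  rw [← h1] at h
  have h3 : ((n + 1 : ℕ) : ℕ∞) = (n : ℕ∞) + 1 := by push_cast; rfl
  rw [h3] at h
  exact (ENat.add_le_add_iff_right (by decide)).1 h

theorem deriv_isBigO {g : ℂ → ℂ × ℂ} (hg : AnalyticAt ℂ g 0) {n : ℕ} (h : g =O[𝓝 0] fun t : ℂ => t ^ (n + 1)) : deriv g =O[𝓝 0] fun t : ℂ => t ^ n := by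
  obtain ⟨h1, h2⟩ := isBigO_prod_left.1 h
  have h3 := deriv_isBigO' (an_fst hg) h1
  have h4 := deriv_isBigO' (an_snd hg) h2
  refine isBigO_prod_left.2 ⟨h3.congr' ?_ EventuallyEq.rfl, h4.congr' ?_ EventuallyEq.rfl⟩
  · filter_upwards [hg.eventually_analyticAt] with t ht
    exact deriv_fst' ht.differentiableAt
  · filter_upwards [hg.eventually_analyticAt] with t ht
    exact deriv_snd' ht.differentiableAt

/-- `v ∧ γ'` of two close curves -/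
theorem tan_close {v : ℂ × ℂ → ℂ × ℂ} (hv : AnalyticAt ℂ v 0) {a b : ℂ → ℂ × ℂ} (ha : AnalyticAt ℂ a 0) (hb : AnalyticAt ℂ b 0) (ha0 : a 0 = 0)
    (hb0 : b 0 = 0) {n : ℕ} (h : (fun t => a t - b t) =O[𝓝 0] fun t : ℂ => t ^ (n + 1)) :
    (fun t => ((v (a t)).1 * (deriv a t).2 - (v (a t)).2 * (deriv a t).1) - ((v (b t)).1 * (deriv b t).2 - (v (b t)).2 * (deriv b t).1)) =O[𝓝 0]
      fun t : ℂ => t ^ n := by
  have h1 : (fun t => v (a t) - v (b t)) =O[𝓝 0] fun t : ℂ => t ^ n :=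
    pow_mono (comp_sub ha.continuousAt hb.continuousAt (by rw [ha0, hb0]) (by rw [hb0]; exact hv) h) (Nat.le_succ n)
  have h2 : (fun t => deriv a t - deriv b t) =O[𝓝 0] fun t : ℂ => t ^ n := by
    refine (deriv_isBigO (ha.sub hb) h).congr' ?_ EventuallyEq.rfl
    filter_upwards [ha.eventually_analyticAt, hb.eventually_analyticAt] with t h3 h4
    exact deriv_sub h3.differentiableAt h4.differentiableAt
  obtain ⟨h11, h12⟩ := isBigO_prod_left.1 h1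
  obtain ⟨h21, h22⟩ := isBigO_prod_left.1 h2
  have ca : deriv a =O[𝓝 0] fun _ : ℂ => (1 : ℂ) := ha.deriv.continuousAt.isBigO_one ℂ
  have hvb : AnalyticAt ℂ (fun t => v (b t)) 0 := AnalyticAt.comp_of_eq (f := b) hv hb hb0
  have cb : (fun t => v (b t)) =O[𝓝 0] fun _ : ℂ => (1 : ℂ) := hvb.continuousAt.isBigO_one ℂ
  have ca1 : (fun t => (deriv a t).1) =O[𝓝 0] fun _ : ℂ => (1 : ℂ) := (isBigO_prod_left.1 ca).1
  have ca2 : (fun t => (deriv a t).2) =O[𝓝 0] fun _ : ℂ => (1 : ℂ) := (isBigO_prod_left.1 ca).2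
  obtain ⟨cb1, cb2⟩ := isBigO_prod_left.1 cb
  have k1 := h11.mul ca2
  have k2 := cb1.mul h22
  have k3 := h12.mul ca1
  have k4 := cb2.mul h21
  simp only [mul_one, one_mul] at k1 k2 k3 k4
  refine ((k1.add k2).sub (k3.add k4)).congr_left fun t => ?_
  ring

theorem ev_zero_of_isBigO {g : ℂ → ℂ} (hg : AnalyticAt ℂ g 0) (h : ∀ N : ℕ, g =O[𝓝 0] fun t : ℂ => t ^ N) : ∀ᶠ t in 𝓝 (0 : ℂ), g t = 0 := by
  rw [← analyticOrderAt_eq_top]
  rw [ENat.eq_top_iff_forall_ge]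
  exact fun N => (isBigO_pow_iff hg N).1 (h N)

/-- an algebraic separatrix converges, and the equation `g` of the invariant curve vanishes on it -/
theorem sep_alg {v : ℂ × ℂ → ℂ × ℂ} (hv : AnalyticAt ℂ v 0) {c : ℕ → ℂ → ℂ × ℂ} (hc : Sep v c) {q : ℂ × ℂ → ℂ} (hq : AnalyticAt ℂ q 0)
    (hq0 : ∃ᶠ p in 𝓝 (0 : ℂ × ℂ), q p ≠ 0) (h : FZero c q) :
    ∃ γ : ℂ → ℂ × ℂ, AnalyticAt ℂ γ 0 ∧ γ 0 = 0 ∧ (∃ᶠ t in 𝓝 (0 : ℂ), γ t ≠ 0) ∧
      (∀ᶠ t in 𝓝 (0 : ℂ), (v (γ t)).1 * (deriv γ t).2 = (v (γ t)).2 * (deriv γ t).1) ∧ (∀ᶠ t in 𝓝 (0 : ℂ), q (γ t) = 0) ∧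
      ∀ g : ℂ × ℂ → ℂ, AnalyticAt ℂ g 0 → (∀ᶠ t in 𝓝 (0 : ℂ), g (γ t) = 0) → FZero c g := by
  obtain ⟨γ, hγ, hγc⟩ := hc.alg q hq hq0 h
  have hγ0 : γ 0 = 0 := by
    obtain ⟨B, hB⟩ := (hγc 0).bound
    have h4 := hB.self_of_nhds
    simp only [hc.zero, sub_zero, zero_add, pow_one, norm_zero, mul_zero] at h4
    exact norm_le_zero_iff.1 h4
  have hvγ : AnalyticAt ℂ (fun t => v (γ t)) 0 := AnalyticAt.comp_of_eq (f := γ) hv hγ hγ0
  refine ⟨γ, hγ, hγ0, ?_, ?_, ?_, ?_⟩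
  · intro h1
    obtain ⟨N, hN⟩ := hc.nc
    apply hN
    refine (hγc N).neg_left.congr' ?_ EventuallyEq.rfl
    filter_upwards [h1] with t ht
    rw [not_not] at ht
    rw [ht, zero_sub, neg_neg]
  · have h1 : ∀ᶠ t in 𝓝 (0 : ℂ), (v (γ t)).1 * (deriv γ t).2 - (v (γ t)).2 * (deriv γ t).1 = 0 := by
      refine ev_zero_of_isBigO (((an_fst hvγ).mul (an_snd hγ.deriv)).sub ((an_snd hvγ).mul (an_fst hγ.deriv))) fun N => ?_
      have h2 := tan_close hv hγ (hc.an N) hγ0 (hc.zero N) (hγc N)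
      refine (h2.add (hc.tan N)).congr_left fun t => ?_
      ring
    exact h1.mono fun t ht => sub_eq_zero.1 ht
  · refine ev_zero_of_isBigO (AnalyticAt.comp_of_eq (f := γ) hq hγ hγ0) fun N => ?_
    have h1 : (fun t => q (γ t) - q (c N t)) =O[𝓝 0] fun t : ℂ => t ^ (N + 1) :=
      comp_sub hγ.continuousAt (hc.an N).continuousAt (by rw [hγ0, hc.zero]) (by rw [hc.zero]; exact hq) (hγc N)
    refine (pow_mono (h1.add (h N)) (Nat.le_succ N)).congr_left fun t => ?_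
    ring
  · intro g hg h1 N
    have h2 : (fun t => g (γ t) - g (c N t)) =O[𝓝 0] fun t : ℂ => t ^ (N + 1) :=
      comp_sub hγ.continuousAt (hc.an N).continuousAt (by rw [hγ0, hc.zero]) (by rw [hc.zero]; exact hg) (hγc N)
    refine h2.neg_left.congr' ?_ EventuallyEq.rfl
    filter_upwards [h1] with t ht
    rw [ht, zero_sub, neg_neg]

end SepAux

/-- the formal curve lies in no algebraic curve -/
def NA (P : Ideal (MvPolynomial (Fin (M + 1)) ℂ)) (σ : ℂ × ℂ → EN M) (c : ℕ → ℂ → ℂ × ℂ) : Prop :=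
  ∀ (R' : MvPolynomial (Fin (M + 1)) ℂ) (d' : ℕ), R'.IsHomogeneous d' → R' ∉ P → ¬ FZero c fun p => eval (σ p).ofLp R'

/-- one form for all algebraic formal curves of a finite family -/
theorem exists_alg2 [P.IsPrime] {ι : Type} [Fintype ι] (σ : ι → ℂ × ℂ → EN M) (c : ι → ℕ → ℂ → ℂ × ℂ) :
    ∃ (R : MvPolynomial (Fin (M + 1)) ℂ) (d : ℕ), R.IsHomogeneous d ∧ R ∉ P ∧ ∀ i, NA P (σ i) (c i) ∨
      ∃ (R' : MvPolynomial (Fin (M + 1)) ℂ) (d' : ℕ), R'.IsHomogeneous d' ∧ R' ∉ P ∧ R' ∣ R ∧ FZero (c i) fun p => eval (σ i p).ofLp R' := by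
  classical
  have hex : ∀ i, ∃ (R : MvPolynomial (Fin (M + 1)) ℂ) (d : ℕ), R.IsHomogeneous d ∧ R ∉ P ∧ (NA P (σ i) (c i) ∨ FZero (c i) fun p => eval (σ i p).ofLp R) := by
    intro i
    by_cases h : NA P (σ i) (c i)
    · refine ⟨1, 0, isHomogeneous_one _ _, ?_, Or.inl h⟩
      intro h1
      exact (Ideal.IsPrime.ne_top ‹_›) ((Ideal.eq_top_iff_one _).2 h1)
    · simp only [NA, not_forall, not_not] at h
      obtain ⟨R, d, hR, hP, hn⟩ := h
      exact ⟨R, d, hR, hP, Or.inr hn⟩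
  choose R d hR hP h using hex
  refine ⟨∏ i, R i, ∑ i, d i, IsHomogeneous.prod _ _ _ fun i _ => hR i, ?_, fun i => ?_⟩
  · intro hmem
    obtain ⟨i, -, hi⟩ := (Ideal.IsPrime.prod_mem_iff (p := P)).1 hmem
    exact hP i hi
  · exact (h i).imp_right fun h1 => ⟨R i, d i, hR i, hP i, Finset.dvd_prod_of_mem R (Finset.mem_univ i), h1⟩

theorem NA.smul {σ : ℂ × ℂ → EN M} {c : ℕ → ℂ → ℂ × ℂ} (h : NA P σ c) {a : ℂ} (ha : a ≠ 0) : NA P (fun p => a • σ p) c := by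
  intro R' d' hR' hP' h1
  refine h R' d' hR' hP' fun N => ?_
  have h2 := (h1 N).const_mul_left ((a ^ d')⁻¹)
  refine h2.congr_left fun t => ?_
  have e : eval (a • σ (c N t)).ofLp R' = a ^ d' * eval (σ (c N t)).ofLp R' := eval_smul_hom hR' a (σ (c N t))
  show (a ^ d')⁻¹ * eval (a • σ (c N t)).ofLp R' = eval (σ (c N t)).ofLp R'
  rw [e, ← mul_assoc, inv_mul_cancel₀ (pow_ne_zero d' ha), one_mul]

end Pool.Agent.MQ2
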