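import Pool.Agent.MQ2.Defs

/-!
# MQ2 Cong: the package depends only on the germ of `v`; bigger classes are stronger
-/

set_option autoImplicit false

open Topology Filter Metric MeasureTheory Asymptotics Laplacian

noncomputable section

namespace Pool.Agent.MQ2

open Pool.Agent.H36.BP (EN)
open Pool.Agent.H30M (tau LogSing)
open Pool.Agent.MQ

theorem Good.mono {P P' : (ℂ × ℂ → ℂ) → (ℂ × ℂ → ℂ) → Prop} (h : ∀ g J, P g J → P' g J) {v : ℂ × ℂ → ℂ × ℂ} (hv : Good P' v) : Good P v := by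
  obtain ⟨m, c, hc, hg⟩ := hv
  exact ⟨m, c, hc, fun g J hP => hg g J (h g J hP)⟩

theorem Cong.sep {v v' : ℂ × ℂ → ℂ × ℂ} (h : v =ᶠ[𝓝 0] v') {c : ℕ → ℂ → ℂ × ℂ} (hc : Sep v c) : Sep v' c where
  an := hc.an
  zero := hc.zero
  coh := hc.coh
  tan := by
    intro N
    refine (hc.tan N).congr' ?_ EventuallyEq.rfl
    have h1 : Tendsto (c N) (𝓝 0) (𝓝 0) := by
      have := (hc.an N).continuousAt.tendsto
      rwa [hc.zero N] at this
    filter_upwards [h1.eventually h] with t ht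
    rw [ht]
  nc := hc.nc
  alg := hc.alg

theorem Cong.wt {v v' : ℂ × ℂ → ℂ × ℂ} (h : v =ᶠ[𝓝 0] v') {g : ℂ × ℂ → ℂ} (hg : Wt v' g) : Wt v g where
  an := hg.an
  ne := hg.ne
  cof := by
    obtain ⟨c, hc, hc2⟩ := hg.cof
    refine ⟨c, hc, ?_⟩
    filter_upwards [hc2, h] with p hp hp2
    rw [hp2, hp]
  red := hg.red

theorem Good.congr {P : (ℂ × ℂ → ℂ) → (ℂ × ℂ → ℂ) → Prop} {v v' : ℂ × ℂ → ℂ × ℂ} (h : v =ᶠ[𝓝 0] v') (hv : Good P v) : Good P v' := by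
  obtain ⟨m, c, hc, hg⟩ := hv
  obtain ⟨ε, hε, hball⟩ := Metric.eventually_nhds_iff_ball.1 h
  refine ⟨m, c, fun i => Cong.sep h (hc i), fun g J hP hw hJ => ?_⟩
  filter_upwards [hg g J hP (Cong.wt h hw) hJ, Ioo_mem_nhdsGT hε] with r hr hrε
  intro s hs hsr B hB
  obtain ⟨A, C₀, hA, hC₀, hmain⟩ := hr s hs hsr B hB
  refine ⟨A, C₀, hA, hC₀, ?_⟩
  intro d n q ψ hd hn hq hψ hord M F Q lm Om p hD
  have hpε : ∀ z ∈ Om, p z ∈ ball (0 : ℂ × ℂ) ε := fun z hz => ball_subset_ball hrε.2.le (hD.crv.mem z hz)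
  have hvp : ∀ z ∈ Om, v (p z) = v' (p z) := fun z hz => hball _ (hpε z hz)
  have hvn : ∀ z ∈ Om, v =ᶠ[𝓝 (p z)] v' := by
    intro z hz
    filter_upwards [isOpen_ball.mem_nhds (hpε z hz)] with w hw
    exact hball w hw
  have hcrv : Crv1 v r Om p := by
    refine ⟨hD.crv.isOpen, hD.crv.an, hD.crv.mem, hD.crv.closed, ?_⟩
    intro z hz
    rw [hvp z hz]
    exact hD.crv.ode z hz
  have hD' : Dat v g r B d q ψ F Q lm Om p :=
    ⟨hcrv, hD.p_ne, hD.g_ne, hD.lm_cont, hD.lm_nonneg, hD.lm_ge, hD.F_diff, hD.F_ne, hD.lam_le, hD.Q_diff, hD.Q_ne, hD.Q_le, hD.Q_eq⟩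
  have hz : ∀ z ∈ Om, ztv v p z = ztv v' p z := by
    intro z hz
    unfold ztv
    rw [hvp z hz]
  have hDD : ∀ z ∈ Om, DDv v g p z = DDv v' g p z := by
    intro z hz'
    unfold DDv
    rw [hz z hz']
    have : dvg v (p z) = dvg v' (p z) := by
      unfold dvg
      rw [(hvn z hz').fderiv_eq]
    rw [this]
  obtain ⟨C, l, η, Φ, err, h1, h2, h3, h4, h5, h6, h7, h8, h9, h10, h11, h12⟩ := hmain d n q ψ hd hn hq hψ hord M F Q lm Om p hD'
  refine ⟨C, l, η, Φ, err, h1, h2, h3, h4, h5, h6, h7, ?_, h9, h10, ?_, h12⟩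
  · intro z hz' hs'
    rw [← hDD z hz']
    exact h8 z hz' hs'
  · intro z hz' hΦ hzt
    rw [← hz z hz'] at hzt ⊢
    exact h11 z hz' hΦ hzt

end Pool.Agent.MQ2
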