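import Pool.Agent.MQ2.DDrel0
import Pool.Agent.MQ2.Slope

/-!
# MQ2 DDrel: the field of the transform

`div v ∘ β = x^e div w + (e + 1) x^(e-1) w₁`, `β = be t`, so off the zeros of `x` the functions `DDv` of `(v, g)` and of its transform `(w, x^ι g')` differ by
`(e + 1 + ι - m) x' / x`.
-/

set_option autoImplicit false

open Topology Filter Metric

noncomputable section

namespace Pool.Agent.MQ2

open Pool.Agent.MQ

/-- off the zeros of `x` the fields of `(v, g)` and of its transform differ by `(e + 1 + ι - m) x' / x` -/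
theorem DD_child {e ι m : ℕ} {t : ℂ} {v w : ℂ × ℂ → ℂ × ℂ} {g g' : ℂ × ℂ → ℂ} (hv : AnalyticAt ℂ v 0) (hw : Child e ι t v w) (hg : Wt v g)
    (hg' : AnalyticAt ℂ g' 0) (hm : ∀ᶠ p in 𝓝 (0 : ℂ × ℂ), g (be t p) = p.1 ^ m * g' p) : ∀ᶠ ρ in 𝓝[>] (0 : ℝ), ∀ (r : ℝ) (Om : Set ℂ) (p : ℂ → ℂ × ℂ),
      Crv1 v r Om p → (∀ z ∈ Om, ∃ᶠ w in 𝓝 z, p w ≠ 0) → ρ < r → ρ * (ρ + ‖t‖) < r →
        ∀ z ∈ Omt Om p t ρ, (p z).1 ≠ 0 → v (p z) ≠ 0 → g (p z) ≠ 0 → g' (pt t p z) ≠ 0 ∧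
          DDv v g p z = DDv w (fun q => q.1 ^ ι * g' q) (pt t p) z + ((e : ℂ) + 1 + ι - m) * (deriv p z).1 / (p z).1 := by
  have hbe0 : be t 0 = 0 := by
    unfold be
    simp
  have hE : ∀ᶠ q in 𝓝 (0 : ℂ × ℂ), AnalyticAt ℂ w q ∧ AnalyticAt ℂ v (be t q) ∧ AnalyticAt ℂ g' q ∧
      (∀ᶠ p in 𝓝 q, (v (be t p)).1 = p.1 ^ e * (w p).1) ∧ (∀ᶠ p in 𝓝 q, (v (be t p)).2 = (p.2 + t) * (v (be t p)).1 + p.1 ^ (e + 1) * (w p).2) ∧
      ∀ᶠ p in 𝓝 q, g (be t p) = p.1 ^ m * g' p := by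
    have h1 : ∀ᶠ q in 𝓝 (0 : ℂ × ℂ), AnalyticAt ℂ v (be t q) := by
      have h2 : Tendsto (be t) (𝓝 0) (𝓝 0) := by
        have := (continuous_be t).tendsto 0
        rwa [hbe0] at this
      exact h2.eventually hv.eventually_analyticAt
    filter_upwards [hw.an.eventually_analyticAt, h1, hg'.eventually_analyticAt, hw.fst.eventually_nhds, hw.snd.eventually_nhds, hm.eventually_nhds]
      with q a1 a2 a3 a4 a5 a6
    exact ⟨a1, a2, a3, a4, a5, a6⟩
  obtain ⟨ε, hε, hE⟩ := Metric.eventually_nhds_iff_ball.1 hE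
  filter_upwards [crv_child hw, Ioo_mem_nhdsGT hε] with ρ h1 h2 r Om p hc hpn hρr hρt z hz hx hvz hgz
  obtain ⟨c1, -, c3⟩ := h1 r Om p hc hpn hρr hρt
  obtain ⟨hwa, hva, hga, e1, e2, e3⟩ := hE (pt t p z) (ball_subset_ball h2.2.le (c1.mem z hz))
  have hbe : be t (pt t p z) = p z := be_pt hz (hc.an z hz.1)
  have hbe' : ∀ᶠ w in 𝓝 z, be t (pt t p w) = p w := by
    filter_upwards [c1.isOpen.mem_nhds hz] with w hw
    exact be_pt hw (hc.an w hw.1)
  have hpt := c1.an z hz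
  obtain ⟨hw0, hzt⟩ := c3 z hz hx hvz
  have hptx : ∀ w, (pt t p w).1 = (p w).1 := fun w => rfl
  have hdx : (deriv (pt t p) z).1 = (deriv p z).1 := by
    rw [← deriv_fst' hpt.differentiableAt, ← deriv_fst' (hc.an z hz.1).differentiableAt]
    rfl
  have hX := c1.deriv_fst hz hw0
  rw [hdx, hzt] at hX
  -- the functions `g`
  have hgp : ∀ᶠ w in 𝓝 z, g (p w) = (p w).1 ^ m * g' (pt t p w) := by
    filter_upwards [hbe', hpt.continuousAt.eventually e3] with w h3 h4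
    rw [h3] at h4
    exact h4
  have hg'0 : g' (pt t p z) ≠ 0 := by
    intro h3
    rw [hgp.self_of_nhds, h3, mul_zero] at hgz
    exact hgz rfl
  refine ⟨hg'0, ?_⟩
  have hxd : DifferentiableAt ℂ (fun w => (p w).1) z := (an_fst (hc.an z hz.1)).differentiableAt
  have hgd : DifferentiableAt ℂ (fun w => g' (pt t p w)) z := (AnalyticAt.comp (g := g') hga hpt).differentiableAt
  have k2 := logDeriv_mono (x := fun w => (p w).1) (h := fun w => g' (pt t p w)) (f := fun w => g (p w)) hxd hgd hx hg'0 hgp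
  have k3 := logDeriv_mono (x := fun w => (p w).1) (h := fun w => g' (pt t p w)) (f := fun w => (fun q : ℂ × ℂ => q.1 ^ ι * g' q) (pt t p w)) (m := ι) hxd hgd hx hg'0
    (Eventually.of_forall fun w => rfl)
  have k1 := dvg_be hva hwa e1 e2
  rw [hbe, hptx] at k1
  rw [deriv_fst' (hc.an z hz.1).differentiableAt] at k2 k3
  unfold DDv
  rw [k2, k3, hzt, hX]
  have k4 : dvg v (p z) = ((p z).1 ^ (e + 1) * dvg w (pt t p z) + (e + 1) * (p z).1 ^ e * (w (pt t p z)).1) / (p z).1 := by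
    rw [eq_div_iff hx, mul_comm]
    exact k1
  rw [k4]
  field_simp
  ring

end Pool.Agent.MQ2
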