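import Pool.Agent.MQ2.Defs

/-!
# MQ2 DDrel0: the divergence of the transform

`div v ∘ β = x^e div w + (e + 1) x^(e-1) w₁`, `β = be t`, so off the zeros of `x` the functions `DDv` of `(v, g)` and of its transform `(w, x^ι g')` differ by
`(e + 1 + ι - m) x' / x`.
-/

set_option autoImplicit false

open Topology Filter Metric

noncomputable section

namespace Pool.Agent.MQ2

open Pool.Agent.MQ

theorem hasFDerivAt_be (t : ℂ) (q : ℂ × ℂ) : HasFDerivAt (be t) ((ContinuousLinearMap.fst ℂ ℂ ℂ).prod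
    (q.1 • ContinuousLinearMap.snd ℂ ℂ ℂ + (q.2 + t) • ContinuousLinearMap.fst ℂ ℂ ℂ)) q := by
  have h1 : HasFDerivAt (fun q : ℂ × ℂ => q.1) (ContinuousLinearMap.fst ℂ ℂ ℂ) q := hasFDerivAt_fst
  have h2 : HasFDerivAt (fun q : ℂ × ℂ => q.2 + t) (ContinuousLinearMap.snd ℂ ℂ ℂ) q := hasFDerivAt_snd.add_const t
  exact h1.prodMk (h1.mul h2)

/-- the divergence under the blow-up -/
theorem dvg_be {e : ℕ} {t : ℂ} {v w : ℂ × ℂ → ℂ × ℂ} {q : ℂ × ℂ} (hv : AnalyticAt ℂ v (be t q)) (hw : AnalyticAt ℂ w q)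
    (h1 : ∀ᶠ p in 𝓝 q, (v (be t p)).1 = p.1 ^ e * (w p).1)
    (h2 : ∀ᶠ p in 𝓝 q, (v (be t p)).2 = (p.2 + t) * (v (be t p)).1 + p.1 ^ (e + 1) * (w p).2) :
    q.1 * dvg v (be t q) = q.1 ^ (e + 1) * dvg w q + (e + 1) * q.1 ^ e * (w q).1 := by
  have hvd := hv.differentiableAt.hasFDerivAt.comp q (hasFDerivAt_be t q)
  have hwd := hw.differentiableAt.hasFDerivAt
  set L := fderiv ℂ v (be t q) with hL
  set K := fderiv ℂ w q with hK
  -- the left sides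
  have a1 : HasFDerivAt (fun p => (v (be t p)).1) ((ContinuousLinearMap.fst ℂ ℂ ℂ).comp (L.comp ((ContinuousLinearMap.fst ℂ ℂ ℂ).prod
    (q.1 • ContinuousLinearMap.snd ℂ ℂ ℂ + (q.2 + t) • ContinuousLinearMap.fst ℂ ℂ ℂ)))) q := (ContinuousLinearMap.fst ℂ ℂ ℂ).hasFDerivAt.comp q hvd
  have a2 : HasFDerivAt (fun p => (v (be t p)).2) ((ContinuousLinearMap.snd ℂ ℂ ℂ).comp (L.comp ((ContinuousLinearMap.fst ℂ ℂ ℂ).prod
    (q.1 • ContinuousLinearMap.snd ℂ ℂ ℂ + (q.2 + t) • ContinuousLinearMap.fst ℂ ℂ ℂ)))) q := (ContinuousLinearMap.snd ℂ ℂ ℂ).hasFDerivAt.comp q hvd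
  -- the right sides
  have f1 : HasFDerivAt (fun q : ℂ × ℂ => q.1) (ContinuousLinearMap.fst ℂ ℂ ℂ) q := hasFDerivAt_fst
  have f2 : HasFDerivAt (fun q : ℂ × ℂ => q.2 + t) (ContinuousLinearMap.snd ℂ ℂ ℂ) q := hasFDerivAt_snd.add_const t
  have w1 : HasFDerivAt (fun p => (w p).1) ((ContinuousLinearMap.fst ℂ ℂ ℂ).comp K) q := (ContinuousLinearMap.fst ℂ ℂ ℂ).hasFDerivAt.comp q hwd
  have w2 : HasFDerivAt (fun p => (w p).2) ((ContinuousLinearMap.snd ℂ ℂ ℂ).comp K) q := (ContinuousLinearMap.snd ℂ ℂ ℂ).hasFDerivAt.comp q hwd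
  have b1 := (f1.pow e).mul w1
  have b2 := (f2.mul a1).add ((f1.pow (e + 1)).mul w2)
  have c1 := a1.unique (b1.congr_of_eventuallyEq h1)
  have c2 := a2.unique (b2.congr_of_eventuallyEq h2)
  have hq1 := h1.self_of_nhds
  have d1 := congrArg (fun T : ℂ × ℂ →L[ℂ] ℂ => T (1, 0)) c1
  have d3 := congrArg (fun T : ℂ × ℂ →L[ℂ] ℂ => T (0, 1)) c2
  simp at d1 d3
  have l1 : L (1, q.2 + t) = L (1, 0) + (q.2 + t) • L (0, 1) := by
    rw [← map_smul, ← map_add]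
    congr 1
    simp
  have l2 : L (0, q.1) = q.1 • L (0, 1) := by
    rw [← map_smul]
    congr 1
    simp
  have he : q.1 * ((e : ℂ) * q.1 ^ (e - 1)) = e * q.1 ^ e := by
    rcases Nat.eq_zero_or_pos e with h | h
    · subst h
      simp
    · obtain ⟨m, rfl⟩ : ∃ m, e = m + 1 := ⟨e - 1, by omega⟩
      rw [Nat.add_sub_cancel, pow_succ]
      ring
  rw [l1] at d1
  rw [l2] at d3
  simp only [Prod.fst_add, Prod.smul_fst, Prod.smul_snd, smul_eq_mul] at d1 d3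
  unfold dvg
  rw [← hL, ← hK]
  rw [pow_succ] at d3 ⊢
  linear_combination q.1 * d1 + d3 + hq1 + (w q).1 * he

/-- the logarithmic derivative of a monomial times a function -/
theorem logDeriv_mono {x h f : ℂ → ℂ} {z : ℂ} {m : ℕ} (hx : DifferentiableAt ℂ x z) (hh : DifferentiableAt ℂ h z) (hx0 : x z ≠ 0) (hh0 : h z ≠ 0)
    (hf : ∀ᶠ w in 𝓝 z, f w = x w ^ m * h w) : deriv f z / f z = m * deriv x z / x z + deriv h z / h z := by
  have h1 := (hx.hasDerivAt.pow m).mul hh.hasDerivAt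
  have h2 : deriv f z = (m * x z ^ (m - 1) * deriv x z) * h z + x z ^ m * deriv h z := by
    rw [EventuallyEq.deriv_eq (show f =ᶠ[𝓝 z] x ^ m * h from hf), h1.deriv]
    rfl
  rw [h2, hf.self_of_nhds]
  rcases Nat.eq_zero_or_pos m with h3 | h3
  · subst h3
    simp
  · obtain ⟨k, rfl⟩ : ∃ k, m = k + 1 := ⟨m - 1, by omega⟩
    rw [Nat.add_sub_cancel]
    field_simp
    ring

theorem continuous_be (t : ℂ) : Continuous (be t) := by
  unfold be
  fun_prop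

end Pool.Agent.MQ2
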