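import Pool.Agent.MQ.Frame

/-!
# MQ2 Defs: a box with an arbitrary isolated singular point of the foliation

Everything is in one variable: `Om` is open in `ℂ`, `p : Om → ball 0 r` is a curve tangent to the vector field `v` (`MQ.Crv1`).

* `Child e ι t v w`: `w` is the transform of `v` at the point `t` of the exceptional line `{x = 0}`, old coordinates `(x, x (y + t))`; `x ^ e` has been divided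
  out; `ι = 1` if the exceptional line is invariant.  The point `∞` is the point `0` for `swv v`.
* `Tree v`: `v` is reduced by finitely many blow-ups.
* `Wt v g`: `g` is a (reduced) equation of a curve invariant under `v`.
* `Sep v c`: the germs `c N` are the `N`-jets of a formal curve tangent to `v`.
* `Dat`: the data of a curve in the box and of a form `Q` along it (`q`, `ψ` as in `MQ.shell`).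
* `LocX`: the conclusion of the package.
* `Good P v`: the package for `v`, for all weights `g` and Jacobian factors `J` with `P g J`.
-/

set_option autoImplicit false

open Topology Filter Metric MeasureTheory Asymptotics Laplacian

noncomputable section

namespace Pool.Agent.MQ2

open Pool.Agent.H36.BP (EN)
open Pool.Agent.H30M (tau LogSing)
open Pool.Agent.MQ

/-! ## vector fields -/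

/-- the vector field in the coordinates `(y, x)` -/
def swv (v : ℂ × ℂ → ℂ × ℂ) (p : ℂ × ℂ) : ℂ × ℂ := (v p.swap).swap

/-- the chart of the blow-up at the direction `(1 : t)` -/
def be (t : ℂ) (p : ℂ × ℂ) : ℂ × ℂ := (p.1, p.1 * (p.2 + t))

/-- `w` is the transform of `v` at the point `t` of the exceptional line -/
structure Child (e ι : ℕ) (t : ℂ) (v w : ℂ × ℂ → ℂ × ℂ) : Prop where
  an : AnalyticAt ℂ w 0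
  fst : ∀ᶠ p in 𝓝 (0 : ℂ × ℂ), (v (be t p)).1 = p.1 ^ e * (w p).1
  snd : ∀ᶠ p in 𝓝 (0 : ℂ × ℂ), (v (be t p)).2 = (p.2 + t) * (v (be t p)).1 + p.1 ^ (e + 1) * (w p).2
  iso : ∀ᶠ p in 𝓝 (0 : ℂ × ℂ), p ≠ 0 → w p ≠ 0
  inv : (ι = 1 ∧ ∀ᶠ y in 𝓝 (0 : ℂ), (w (0, y)).1 = 0) ∨ (ι = 0 ∧ ∀ᶠ y in 𝓝[≠] (0 : ℂ), (w (0, y)).1 ≠ 0)

/-- elementary and reduced: the linear part has the eigenvalues `l ≠ 0` and `k`, and `k / l` is not a positive rational number -/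
def Elem (v : ℂ × ℂ → ℂ × ℂ) : Prop :=
  v 0 = 0 ∧ ∃ l k : ℂ, l + k = (fderiv ℂ v 0 (1, 0)).1 + (fderiv ℂ v 0 (0, 1)).2 ∧
    l * k = (fderiv ℂ v 0 (1, 0)).1 * (fderiv ℂ v 0 (0, 1)).2 - (fderiv ℂ v 0 (0, 1)).1 * (fderiv ℂ v 0 (1, 0)).2 ∧
    l ≠ 0 ∧ ∀ m n : ℕ, 0 < m → 0 < n → (m : ℂ) * l ≠ n * k

/-- reduced by finitely many blow-ups -/
inductive Tree : (ℂ × ℂ → ℂ × ℂ) → Prop
  | reg (v : ℂ × ℂ → ℂ × ℂ) : v 0 ≠ 0 → Tree v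
  | elem (v : ℂ × ℂ → ℂ × ℂ) : Elem v → Tree v
  | blow (v : ℂ × ℂ → ℂ × ℂ) (e ι : ℕ) (w : ℂ → ℂ × ℂ → ℂ × ℂ) (wi : ℂ × ℂ → ℂ × ℂ) : (∀ t, Child e ι t v (w t)) → Child e ι 0 (swv v) wi →
      (∀ t, Tree (w t)) → Tree wi → Tree v

/-- an isolated singular point -/
def Iso (v : ℂ × ℂ → ℂ × ℂ) : Prop := AnalyticAt ℂ v 0 ∧ v 0 = 0 ∧ ∀ᶠ p in 𝓝 (0 : ℂ × ℂ), p ≠ 0 → v p ≠ 0

/-! ## weights and formal separatrices -/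

/-- a reduced equation of an invariant curve -/
structure Wt (v : ℂ × ℂ → ℂ × ℂ) (g : ℂ × ℂ → ℂ) : Prop where
  an : AnalyticAt ℂ g 0
  ne : ∃ᶠ p in 𝓝 (0 : ℂ × ℂ), g p ≠ 0
  cof : ∃ c : ℂ × ℂ → ℂ, AnalyticAt ℂ c 0 ∧ ∀ᶠ p in 𝓝 (0 : ℂ × ℂ), fderiv ℂ g p (v p) = c p * g p
  red : ∀ᶠ p in 𝓝 (0 : ℂ × ℂ), p ≠ 0 → g p = 0 → fderiv ℂ g p ≠ 0

/-- `g` vanishes on the formal curve -/
def FZero (c : ℕ → ℂ → ℂ × ℂ) (g : ℂ × ℂ → ℂ) : Prop := ∀ N, (fun t => g (c N t)) =O[𝓝 0] fun t : ℂ => t ^ (N + 1)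

/-- the order of `q` on the formal curve is finite and at least `n` -/
def HasOrd (c : ℕ → ℂ → ℂ × ℂ) (q : ℂ × ℂ → ℂ) (n : ℕ) : Prop :=
  ∃ n' : ℕ, n ≤ n' ∧ ∀ N, n' ≤ N → analyticOrderAt (fun t => q (c N t)) 0 = n'

/-- a formal curve (`c N` is its `N`-jet) tangent to `v`; if it lies in an analytic curve then it converges -/
structure Sep (v : ℂ × ℂ → ℂ × ℂ) (c : ℕ → ℂ → ℂ × ℂ) : Prop where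
  an : ∀ N, AnalyticAt ℂ (c N) 0
  zero : ∀ N, c N 0 = 0
  coh : ∀ N, (fun t => c (N + 1) t - c N t) =O[𝓝 0] fun t : ℂ => t ^ (N + 1)
  tan : ∀ N, (fun t => (v (c N t)).1 * (deriv (c N) t).2 - (v (c N t)).2 * (deriv (c N) t).1) =O[𝓝 0] fun t : ℂ => t ^ N
  nc : ∃ N, ¬ (c N) =O[𝓝 0] fun t : ℂ => t ^ (N + 1)
  alg : ∀ R : ℂ × ℂ → ℂ, AnalyticAt ℂ R 0 → (∃ᶠ p in 𝓝 (0 : ℂ × ℂ), R p ≠ 0) → FZero c R →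
    ∃ γ : ℂ → ℂ × ℂ, AnalyticAt ℂ γ 0 ∧ ∀ N, (fun t => γ t - c N t) =O[𝓝 0] fun t : ℂ => t ^ (N + 1)

/-! ## the package -/

/-- a curve in the box and a form `Q` along it; `lm` is an energy density -/
structure Dat (v : ℂ × ℂ → ℂ × ℂ) (g : ℂ × ℂ → ℂ) (r B : ℝ) (d : ℕ) (q : ℂ × ℂ → ℂ) (ψ : ℂ × ℂ → ℝ) {M : ℕ} (F : ℂ → EN M) (Q : ℂ → ℂ) (lm : ℂ → ℝ)
    (Om : Set ℂ) (p : ℂ → ℂ × ℂ) : Prop where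
  crv : Crv1 v r Om p
  p_ne : ∀ z ∈ Om, ∃ᶠ w in 𝓝 z, p w ≠ 0
  g_ne : ∀ z ∈ Om, ∃ᶠ w in 𝓝 z, g (p w) ≠ 0
  lm_cont : Continuous lm
  lm_nonneg : ∀ z, 0 ≤ lm z
  lm_ge : ∀ z ∈ Om, ‖deriv p z‖ ≤ B * lm z
  F_diff : Differentiable ℂ F
  F_ne : ∀ z, F z ≠ 0
  lam_le : ∀ z, lam F z ≤ lm z
  Q_diff : Differentiable ℂ Q
  Q_ne : ∃ z, Q z ≠ 0
  Q_le : ∀ z, ‖Q z‖ ≤ ‖F z‖ ^ d
  Q_eq : ∃ c : ℝ, 0 < c ∧ ∀ z ∈ Om, ‖Q z‖ * Real.exp (d * ψ (p z)) = c * ‖q (p z)‖ * ‖F z‖ ^ d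

/-- **The conclusion of the package.**  `l` is a bigger density; outside the polydisc of radius `s` the field `η` is `conj D`; `Φ` is the exact term. -/
def LocX (v : ℂ × ℂ → ℂ × ℂ) (g J : ℂ × ℂ → ℂ) (Om : Set ℂ) (p : ℂ → ℂ × ℂ) (lm : ℂ → ℝ) (s A δ : ℝ) : Prop :=
  ∃ (C : ℝ) (l : ℂ → ℝ) (η : ℂ → ℂ) (Φ err : ℂ → ℝ), 0 ≤ C ∧ Continuous l ∧ (∀ z, lm z ≤ l z) ∧
    (∀ R, 1 ≤ R → ∫ z, tau R z * l z ^ 2 ≤ A * (∫ z, tau R z * lm z ^ 2) + C) ∧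
    ContDiffOn ℝ 1 η Om ∧ ContinuousOn err Om ∧ (∀ z ∈ Om, ∃ c, LogSing Φ c z) ∧
    (∀ z ∈ Om, p z ∉ ball (0 : ℂ × ℂ) s → η z = (starRingEnd ℂ) (DDv v g p z) ∧ err z = 0 ∧ Φ z = 0) ∧
    (∀ z ∈ Om, p z ∈ ball (0 : ℂ × ℂ) s → ‖η z‖ ≤ C * l z) ∧
    (∀ z ∈ Om, ContDiffAt ℝ 2 Φ z → 0 ≤ dv η z + Δ Φ z + err z) ∧
    (∀ z ∈ Om, ContDiffAt ℝ 2 Φ z → ztv v p z ≠ 0 → g (p z) ≠ 0 → J (p z) ≠ 0 →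
      Real.log ‖ztv v p z‖ + Real.log ‖g (p z)‖ + Real.log ‖J (p z)‖ + Φ z ≤ C + Real.log (1 + l z)) ∧
    ∀ R, 1 ≤ R → ∫ z in Om, tau R z * err z ≤ δ * (∫ z, tau R z * lm z ^ 2) + C * (∫ z, ‖gr (tau R) z‖ * l z) + C

/-- **The package** for `v`, for the weights `g` and Jacobian factors `J` with `P g J`. -/
def Good (P : (ℂ × ℂ → ℂ) → (ℂ × ℂ → ℂ) → Prop) (v : ℂ × ℂ → ℂ × ℂ) : Prop :=
  ∃ (m : ℕ) (c : Fin m → ℕ → ℂ → ℂ × ℂ), (∀ i, Sep v (c i)) ∧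
    ∀ g J : ℂ × ℂ → ℂ, P g J → Wt v g → AnalyticAt ℂ J 0 → ∀ᶠ r in 𝓝[>] (0 : ℝ), ∀ s, 0 < s → s < r → ∀ B, 0 ≤ B → ∃ A C₀ : ℝ, 0 ≤ A ∧ 0 ≤ C₀ ∧
      ∀ (d n : ℕ) (q : ℂ × ℂ → ℂ) (ψ : ℂ × ℂ → ℝ), 1 ≤ d → 1 ≤ n → AnalyticAt ℂ q 0 → ContDiffAt ℝ 1 ψ 0 → (∀ i, FZero (c i) g ∨ HasOrd (c i) q n) →
        ∀ (M : ℕ) (F : ℂ → EN M) (Q : ℂ → ℂ) (lm : ℂ → ℝ) (Om : Set ℂ) (p : ℂ → ℂ × ℂ), Dat v g r B d q ψ F Q lm Om p →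
          LocX v g J Om p lm s A (C₀ * d / n)

/-- the class of the transforms of the pairs of the class `P`, at the point `t` of the exceptional line -/
def TP (ι : ℕ) (t : ℂ) (P : (ℂ × ℂ → ℂ) → (ℂ × ℂ → ℂ) → Prop) (g₁ J₁ : ℂ × ℂ → ℂ) : Prop :=
  ∃ (g J : ℂ × ℂ → ℂ) (m : ℕ) (g' : ℂ × ℂ → ℂ), P g J ∧ AnalyticAt ℂ g 0 ∧ AnalyticAt ℂ J 0 ∧ AnalyticAt ℂ g' 0 ∧
    (∀ᶠ p in 𝓝 (0 : ℂ × ℂ), g (be t p) = p.1 ^ m * g' p) ∧ (∀ᶠ p in 𝓝 (0 : ℂ × ℂ), g₁ p = p.1 ^ ι * g' p) ∧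
    ∀ᶠ p in 𝓝 (0 : ℂ × ℂ), J₁ p = p.1 * J (be t p)

/-- the class with the coordinates exchanged -/
def SP (P : (ℂ × ℂ → ℂ) → (ℂ × ℂ → ℂ) → Prop) (g J : ℂ × ℂ → ℂ) : Prop := P (fun p => g p.swap) fun p => J p.swap

/-- all pairs -/
def PT : (ℂ × ℂ → ℂ) → (ℂ × ℂ → ℂ) → Prop := fun _ _ => True

/-- `x` divides `g`, `x ^ M` divides `J` -/
def PX (M : ℕ) (g J : ℂ × ℂ → ℂ) : Prop :=
  (∃ g₀ : ℂ × ℂ → ℂ, AnalyticAt ℂ g₀ 0 ∧ ∀ᶠ p in 𝓝 (0 : ℂ × ℂ), g p = p.1 * g₀ p) ∧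
    ∃ J₀ : ℂ × ℂ → ℂ, AnalyticAt ℂ J₀ 0 ∧ ∀ᶠ p in 𝓝 (0 : ℂ × ℂ), J p = p.1 ^ M * J₀ p

/-- `x y` divides `g`, `x` divides `J` -/
def PC (g J : ℂ × ℂ → ℂ) : Prop :=
  (∃ g₀ : ℂ × ℂ → ℂ, AnalyticAt ℂ g₀ 0 ∧ ∀ᶠ p in 𝓝 (0 : ℂ × ℂ), g p = p.1 * p.2 * g₀ p) ∧
    ∃ J₀ : ℂ × ℂ → ℂ, AnalyticAt ℂ J₀ 0 ∧ ∀ᶠ p in 𝓝 (0 : ℂ × ℂ), J p = p.1 * J₀ p

end Pool.Agent.MQ2
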