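import Pool.Agent.MQ2.Defs
import Pool.Agent.MQ.CDefs2

/-!
# MQ2 DefsG: foliations with arbitrary isolated singular points on a surface

`IsFol`: near every point of the surface the foliation is given, in a chart, by a holomorphic vector field with at most an isolated zero.
-/

set_option autoImplicit false

open Topology Filter Metric MvPolynomial Asymptotics

noncomputable section

namespace Pool.Agent.MQ2

open Pool.Agent.H36.BP (EN)
open Pool.Agent.H17BP (IsChart)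
open Pool.Agent.H17EF (projVar coneE)
open Pool.Agent.MQ

variable {M : ℕ} {P : Ideal (MvPolynomial (Fin (M + 1)) ℂ)} {FF : Set (EN M × EN M)}

/-- `FF` is a foliation of the surface of `P`, with isolated singular points -/
def IsFol (P : Ideal (MvPolynomial (Fin (M + 1)) ℂ)) (FF : Set (EN M × EN M)) : Prop :=
  ∀ x ∈ coneE P, ∃ (σ : ℂ × ℂ → EN M) (τ : EN M → ℂ × ℂ) (v : ℂ × ℂ → ℂ × ℂ), IsChart (coneE P) σ τ ∧ σ 0 = x ∧ Spans FF σ v ∧
    AnalyticAt ℂ v 0 ∧ ∀ᶠ p in 𝓝 (0 : ℂ × ℂ), p ≠ 0 → v p ≠ 0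

/-- `g` is the equation in the box `B` of the invariant part of `{R = 0}` -/
structure CG2 (R : MvPolynomial (Fin (M + 1)) ℂ) (B : GBox P FF) (g : ℂ × ℂ → ℂ) : Prop where
  reg : B.Reg → (∀ p, g p = 1) ∨ ∀ p, g p = p.1
  sing : ¬ B.Reg → Iso B.v ∧ Wt B.v g
  smooth : ∀ p ∈ closedBall (0 : ℂ × ℂ) B.r, AnalyticAt ℂ g p ∧ (B.v p ≠ 0 → g p = 0 → fderiv ℂ g p ≠ 0)
  inv : InvEq B g
  iff : ∀ p ∈ closedBall (0 : ℂ × ℂ) B.r, B.v p ≠ 0 → (InvAt P FF R (B.σ p) ↔ g p = 0)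

end Pool.Agent.MQ2
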