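import Pool.Agent.H17BP.Div
import Pool.Agent.H17BP.Ift
import Pool.Agent.H62.BU.Inv

/-!
# MQ2 Dulac: the strong separatrix of a saddle-node

`v` is tangent to `{x = 0}` and `∂v₂/∂y (0) ≠ 0`: after `x ↦ x * w` the first component is `x ^ (n + 1) * A`, `A (0) ≠ 0`.
-/

set_option autoImplicit false

open Topology Filter Metric

noncomputable section

namespace Pool.Agent.MQ2

open Pool.Agent.H17BP (dx dy exists_div_x)

/-- a primitive -/
theorem exists_primitive {q : ℂ → ℂ} (hq : AnalyticAt ℂ q 0) : ∃ h : ℂ → ℂ, AnalyticAt ℂ h 0 ∧ ∀ᶠ z in 𝓝 (0 : ℂ), HasDerivAt h (q z) z := by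
  obtain ⟨r, hr, hq'⟩ := Metric.eventually_nhds_iff_ball.1 hq.eventually_analyticAt
  have hd : DifferentiableOn ℂ q (ball 0 r) := fun z hz => (hq' z hz).differentiableAt.differentiableWithinAt
  obtain ⟨h, hh⟩ := hd.isExactOn_ball
  have h1 : DifferentiableOn ℂ h (ball 0 r) := fun z hz => (hh z hz).differentiableAt.differentiableWithinAt
  exact ⟨h, h1.analyticAt (isOpen_ball.mem_nhds (mem_ball_self hr)), by
    filter_upwards [isOpen_ball.mem_nhds (mem_ball_self hr)] with z hz using hh z hz⟩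

/-- `φ h' = - ψ` -/
theorem exists_h {φ ψ : ℂ → ℂ} (hφ : AnalyticAt ℂ φ 0) (hφ0 : φ 0 = 0) (hφ1 : deriv φ 0 ≠ 0) (hψ : AnalyticAt ℂ ψ 0) (hψ0 : ψ 0 = 0) :
    ∃ h : ℂ → ℂ, AnalyticAt ℂ h 0 ∧ ∀ᶠ z in 𝓝 (0 : ℂ), φ z * deriv h z = - ψ z := by
  have key : ∀ f : ℂ → ℂ, AnalyticAt ℂ f 0 → f 0 = 0 → ∃ g : ℂ → ℂ, AnalyticAt ℂ g 0 ∧ (∀ᶠ z in 𝓝 (0:ℂ), f z = z * g z) ∧ g 0 = deriv f 0 := by
    intro f hf hf0
    have h1 : (1 : ℕ) ≤ analyticOrderAt f 0 := by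
      rw [Nat.cast_one, Order.one_le_iff_ne_zero]
      exact fun h => (hf.analyticOrderAt_eq_zero.1 h) hf0
    obtain ⟨g, hg, hfg⟩ := (natCast_le_analyticOrderAt hf).1 h1
    refine ⟨g, hg, by filter_upwards [hfg] with z hz using by simpa using hz, ?_⟩
    have h2 : HasDerivAt (fun z => z * g z) (1 * g 0 + 0 * deriv g 0) 0 := (hasDerivAt_id (0:ℂ)).mul hg.differentiableAt.hasDerivAt
    have h3 : HasDerivAt f (1 * g 0 + 0 * deriv g 0) 0 := h2.congr_of_eventuallyEq (by filter_upwards [hfg] with z hz using by simpa using hz)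
    rw [h3.deriv]; ring
  obtain ⟨φ₁, h1, h2, h3⟩ := key φ hφ hφ0
  obtain ⟨ψ₁, g1, g2, -⟩ := key ψ hψ hψ0
  have hne : φ₁ 0 ≠ 0 := by rw [h3]; exact hφ1
  obtain ⟨h, hh, hd⟩ := exists_primitive ((g1.div h1 hne).neg)
  refine ⟨h, hh, ?_⟩
  filter_upwards [hd, h2, g2, h1.continuousAt.eventually_ne hne] with z e1 e2 e3 e4
  rw [e1.deriv, e2, e3]
  simp only [Pi.neg_apply, Pi.div_apply]
  field_simp

/-- the derivative along `v` -/
def Dv (v : ℂ × ℂ → ℂ × ℂ) (X : ℂ × ℂ → ℂ) (p : ℂ × ℂ) : ℂ := fderiv ℂ X p (v p)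

theorem dulac_step {v : ℂ × ℂ → ℂ × ℂ} (hv : AnalyticAt ℂ v 0) (h0 : (v 0).2 = 0) (h1 : dy (fun p => (v p).2) 0 ≠ 0) {n : ℕ} {w A : ℂ × ℂ → ℂ}
    (hw : AnalyticAt ℂ w 0) (hw0 : w 0 ≠ 0) (hA : AnalyticAt ℂ A 0) (hA0 : A 0 = 0)
    (h : ∀ᶠ p in 𝓝 (0 : ℂ × ℂ), Dv v (fun q => q.1 * w q) p = (p.1 * w p) ^ (n + 1) * A p) :
    ∃ w' A' : ℂ × ℂ → ℂ, AnalyticAt ℂ w' 0 ∧ w' 0 ≠ 0 ∧ AnalyticAt ℂ A' 0 ∧
      ∀ᶠ p in 𝓝 (0 : ℂ × ℂ), Dv v (fun q => q.1 * w' q) p = (p.1 * w' p) ^ (n + 2) * A' p := by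
  have hl : AnalyticAt ℂ (fun y : ℂ => ((0:ℂ), y)) 0 := analyticAt_const.prod analyticAt_id
  have hv2 : AnalyticAt ℂ (fun p => (v p).2) 0 := analyticAt_snd.comp hv
  have hφ : AnalyticAt ℂ (fun y : ℂ => (v (0, y)).2) 0 := AnalyticAt.fun_comp (g := fun p => (v p).2) (f := fun y : ℂ => ((0:ℂ), y)) hv2 hl
  have hψ : AnalyticAt ℂ (fun y : ℂ => A (0, y)) 0 := AnalyticAt.fun_comp (g := A) (f := fun y : ℂ => ((0:ℂ), y)) hA hl
  have hφ1 : deriv (fun y : ℂ => (v (0, y)).2) 0 ≠ 0 := by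
    have b1 : HasDerivAt (fun u : ℂ => ((0:ℂ), u)) ((0, 1) : ℂ × ℂ) 0 := (hasDerivAt_const (0:ℂ) (0:ℂ)).prodMk (hasDerivAt_id (0:ℂ))
    have b2 : HasFDerivAt (fun p => (v p).2) (fderiv ℂ (fun p => (v p).2) 0) ((fun u : ℂ => ((0:ℂ), u)) 0) := hv2.differentiableAt.hasFDerivAt
    have b3 : HasDerivAt (fun y : ℂ => (v (0, y)).2) (fderiv ℂ (fun p => (v p).2) 0 (0, 1)) 0 := b2.comp_hasDerivAt (0:ℂ) b1
    rw [b3.deriv]
    exact h1
  obtain ⟨k, hk, hkd⟩ := exists_h hφ h0 hφ1 hψ hA0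
  -- the new coordinate
  set X : ℂ × ℂ → ℂ := fun q => q.1 * w q with hX
  have hXa : AnalyticAt ℂ X 0 := analyticAt_fst.mul hw
  have hk2 : AnalyticAt ℂ (fun q : ℂ × ℂ => k q.2) 0 := AnalyticAt.fun_comp (g := k) (f := fun q : ℂ × ℂ => q.2) hk analyticAt_snd
  set u : ℂ × ℂ → ℂ := fun q => X q ^ n * k q.2 with hu
  have hua : AnalyticAt ℂ u 0 := (hXa.pow n).mul hk2
  set w' : ℂ × ℂ → ℂ := fun q => w q * Complex.exp (u q) with hw'
  have hw'a : AnalyticAt ℂ w' 0 := hw.mul hua.cexp'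
  have hw'0 : w' 0 ≠ 0 := mul_ne_zero hw0 (Complex.exp_ne_zero _)
  -- the bracket
  set B : ℂ × ℂ → ℂ := fun q => A q * (1 + n * (X q ^ n * k q.2)) + deriv k q.2 * (v q).2 with hB
  have hkd2 : AnalyticAt ℂ (fun q : ℂ × ℂ => deriv k q.2) 0 := AnalyticAt.fun_comp (g := deriv k) (f := fun q : ℂ × ℂ => q.2) hk.deriv analyticAt_snd
  have hBa : AnalyticAt ℂ B 0 := (hA.mul (analyticAt_const.add (analyticAt_const.mul hua))).add (hkd2.mul hv2)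
  obtain ⟨B₁, hB₁, hBB⟩ := exists_div_x hBa (by
    filter_upwards [hkd] with y hy
    have e1 : (n : ℂ) * (X (0, y) ^ n * k y) = 0 := by
      rcases Nat.eq_zero_or_pos n with rfl | hn
      · simp
      · simp [hX, hn.ne']
    simp only [hB, e1, add_zero, mul_one]
    linear_combination hy)
  refine ⟨w', fun q => Complex.exp (-(n * u q)) * B₁ q / w' q, hw'a, hw'0, ?_, ?_⟩
  · exact ((analyticAt_const.mul hua).neg.cexp'.mul hB₁).div hw'a hw'0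
  · have hev : ∀ᶠ p in 𝓝 (0 : ℂ × ℂ), AnalyticAt ℂ X p ∧ AnalyticAt ℂ k p.2 ∧ w' p ≠ 0 := by
      refine hXa.eventually_analyticAt.and ((?_ : ∀ᶠ p in 𝓝 (0 : ℂ × ℂ), AnalyticAt ℂ k p.2).and (hw'a.continuousAt.eventually_ne hw'0))
      exact (continuous_snd.tendsto' (0 : ℂ × ℂ) (0:ℂ) rfl).eventually hk.eventually_analyticAt
    filter_upwards [h, hBB, hev] with p e1 e2 e3
    obtain ⟨a1, a2, a3⟩ := e3
    -- the derivative of `X exp (X ^ n k)`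
    have d1 : HasFDerivAt X (fderiv ℂ X p) p := a1.differentiableAt.hasFDerivAt
    have d2 : HasFDerivAt (fun q : ℂ × ℂ => k q.2) (deriv k p.2 • ContinuousLinearMap.snd ℂ ℂ ℂ) p := by
      have := (a2.differentiableAt.hasDerivAt).comp_hasFDerivAt p (hasFDerivAt_snd (𝕜 := ℂ) (p := p))
      exact this
    have d3 : HasFDerivAt (fun q => X q ^ n) ((n * X p ^ (n - 1)) • fderiv ℂ X p) p := by
      have := d1.pow n
      refine this.congr_fderiv ?_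
      ext <;> simp [nsmul_eq_mul]
    have d4 : HasFDerivAt u (X p ^ n • (deriv k p.2 • ContinuousLinearMap.snd ℂ ℂ ℂ) + k p.2 • ((n * X p ^ (n - 1)) • fderiv ℂ X p)) p := d3.mul d2
    have d5 : HasFDerivAt (fun q => X q * Complex.exp (u q)) (X p • (Complex.exp (u p) • (X p ^ n • (deriv k p.2 • ContinuousLinearMap.snd ℂ ℂ ℂ) + k p.2 • ((n * X p ^ (n - 1)) • fderiv ℂ X p))) + Complex.exp (u p) • fderiv ℂ X p) p := d1.mul d4.cexp
    have d6 : (fun q : ℂ × ℂ => q.1 * w' q) = fun q => X q * Complex.exp (u q) := by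
      ext q; simp only [hw', hX]; ring
    have e4 : X p * (n * X p ^ (n - 1)) = n * X p ^ n := by
      rcases Nat.eq_zero_or_pos n with rfl | hn
      · simp
      · obtain ⟨m, rfl⟩ := Nat.exists_eq_succ_of_ne_zero hn.ne'
        simp; ring
    have e5 : fderiv ℂ X p (v p) = X p ^ (n + 1) * A p := e1
    have e6 : B p = p.1 * B₁ p := by simpa using e2
    have e7 : X p * Complex.exp (u p) = p.1 * w' p := by simp only [hw', hX]; ring
    rw [Dv, d6, d5.fderiv]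
    simp only [add_apply, smul_apply, ContinuousLinearMap.coe_snd', smul_eq_mul]
    rw [e5, ← e7]
    have e8 : X p * (Complex.exp (u p) * (X p ^ n * (deriv k p.2 * (v p).2) + k p.2 * (n * X p ^ (n - 1) * (X p ^ (n + 1) * A p)))) +
        Complex.exp (u p) * (X p ^ (n + 1) * A p) = Complex.exp (u p) * X p ^ (n + 1) * B p := by
      simp only [hB]
      have : X p * (k p.2 * (n * X p ^ (n - 1) * (X p ^ (n + 1) * A p))) = k p.2 * (n * X p ^ n) * (X p ^ (n + 1) * A p) := by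
        rw [← e4]; ring
      linear_combination Complex.exp (u p) * this
    rw [e8, e6]
    have e9 : Complex.exp (-(n * u p)) = (Complex.exp (u p) ^ n)⁻¹ := by
      rw [Complex.exp_neg, Complex.exp_nat_mul]
    rw [e9]
    have e10 : p.1 = X p * Complex.exp (u p) / w' p := by rw [e7]; field_simp
    have hexp : Complex.exp (u p) ≠ 0 := Complex.exp_ne_zero _
    rw [show p.1 * B₁ p = (X p * Complex.exp (u p) / w' p) * B₁ p by rw [← e10]]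
    field_simp
    try ring

/-- the curve `v₂ = 0` -/
theorem exists_curve {f : ℂ × ℂ → ℂ} (hf : AnalyticAt ℂ f 0) (h0 : f 0 = 0) (h1 : dy f 0 ≠ 0) :
    ∃ c : ℂ → ℂ, AnalyticAt ℂ c 0 ∧ c 0 = 0 ∧ ∀ᶠ x in 𝓝 (0 : ℂ), f (x, c x) = 0 := by
  set F : ℂ × ℂ → ℂ × ℂ := fun p => (p.1, f p) with hF
  have hFa : AnalyticAt ℂ F 0 := analyticAt_fst.prod hf
  have hFd : HasFDerivAt F ((ContinuousLinearMap.fst ℂ ℂ ℂ).prod (fderiv ℂ f 0)) 0 := hasFDerivAt_fst.prodMk hf.differentiableAt.hasFDerivAt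
  obtain ⟨ψ, h2, -, h4, h5⟩ := Pool.Agent.H62.BU.local_inverse hFa (by
    intro u hu
    rw [hFd.fderiv] at hu
    simp only [ContinuousLinearMap.prod_apply, ContinuousLinearMap.coe_fst', Prod.mk_eq_zero] at hu
    obtain ⟨a1, a2⟩ := hu
    have a3 : u = u.2 • ((0, 1) : ℂ × ℂ) := by ext <;> simp [a1]
    rw [a3, map_smul, smul_eq_mul, mul_eq_zero] at a2
    rcases a2 with a2 | a2
    · rw [a3, a2, zero_smul]
    · exact absurd a2 h1)
  have hF0 : F 0 = 0 := by ext <;> simp [hF, h0]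
  rw [hF0] at h2 h4 h5
  have hl : AnalyticAt ℂ (fun x : ℂ => (x, (0:ℂ))) 0 := analyticAt_id.prod analyticAt_const
  have h6 : AnalyticAt ℂ (fun x : ℂ => ψ (x, 0)) 0 := AnalyticAt.fun_comp (g := ψ) (f := fun x : ℂ => (x, (0:ℂ))) h2 hl
  refine ⟨fun x => (ψ (x, 0)).2, analyticAt_snd.comp h6, by
    have : ψ (0, 0) = 0 := h5
    simp [this], ?_⟩
  have h7 : Tendsto (fun x : ℂ => (x, (0:ℂ))) (𝓝 0) (𝓝 0) := (by fun_prop : Continuous fun x : ℂ => (x, (0:ℂ))).tendsto' _ _ rfl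
  filter_upwards [h7.eventually h4] with x hx
  have h8 : (ψ (x, 0)).1 = x := congrArg Prod.fst hx
  have h9 : f (ψ (x, 0)) = 0 := congrArg Prod.snd hx
  have h10 : ((x, (ψ (x, 0)).2) : ℂ × ℂ) = ψ (x, 0) := by ext <;> simp [h8]
  rw [h10, h9]

/-- **Dulac**: the order of contact is finite. -/
theorem dulac {v : ℂ × ℂ → ℂ × ℂ} (hv : AnalyticAt ℂ v 0) (h0 : v 0 = 0) (h1 : dy (fun p => (v p).2) 0 ≠ 0)
    (hE : ∀ᶠ y in 𝓝 (0 : ℂ), (v (0, y)).1 = 0) (hiso : ∀ᶠ p in 𝓝[≠] (0 : ℂ × ℂ), v p ≠ 0) :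
    ∃ (n : ℕ) (w A : ℂ × ℂ → ℂ), AnalyticAt ℂ w 0 ∧ w 0 ≠ 0 ∧ AnalyticAt ℂ A 0 ∧ A 0 ≠ 0 ∧
      ∀ᶠ p in 𝓝 (0 : ℂ × ℂ), Dv v (fun q => q.1 * w q) p = (p.1 * w p) ^ (n + 1) * A p := by
  by_contra hcon
  push Not at hcon
  have hv1 : AnalyticAt ℂ (fun p => (v p).1) 0 := analyticAt_fst.comp hv
  have hv2 : AnalyticAt ℂ (fun p => (v p).2) 0 := analyticAt_snd.comp hv
  have hP : ∀ n : ℕ, ∃ w A : ℂ × ℂ → ℂ, AnalyticAt ℂ w 0 ∧ w 0 ≠ 0 ∧ AnalyticAt ℂ A 0 ∧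
      ∀ᶠ p in 𝓝 (0 : ℂ × ℂ), Dv v (fun q => q.1 * w q) p = (p.1 * w p) ^ (n + 1) * A p := by
    intro n
    induction n with
    | zero =>
      obtain ⟨A, hA, hvA⟩ := exists_div_x hv1 hE
      refine ⟨fun _ => 1, A, analyticAt_const, one_ne_zero, hA, ?_⟩
      filter_upwards [hvA] with p hp
      have : (fun q : ℂ × ℂ => q.1 * (1:ℂ)) = fun q => q.1 := by ext q; simp
      rw [Dv, this, (hasFDerivAt_fst (𝕜 := ℂ) (p := p)).fderiv]
      simpa using hp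
    | succ n ih =>
      obtain ⟨w, A, a1, a2, a3, a4⟩ := ih
      by_cases hA0 : A 0 = 0
      · exact dulac_step hv (by rw [h0]; rfl) h1 a1 a2 a3 hA0 a4
      · exact ((hcon n w A a1 a2 a3 hA0) (a4.mono fun p hp h => h hp)).elim
  obtain ⟨c, hc, hc0, hcv⟩ := exists_curve hv2 (by rw [h0]; rfl) h1
  have hγ : AnalyticAt ℂ (fun x : ℂ => (x, c x)) 0 := analyticAt_id.prod hc
  have hγ0 : ((0:ℂ), c 0) = (0 : ℂ × ℂ) := by rw [hc0]; rfl
  have hγt : Tendsto (fun x : ℂ => (x, c x)) (𝓝 0) (𝓝 0) := by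
    have := hγ.continuousAt.tendsto
    rwa [hγ0] at this
  have hf : AnalyticAt ℂ (fun x : ℂ => (v (x, c x)).1) 0 :=
    AnalyticAt.fun_comp (g := fun p => (v p).1) (f := fun x : ℂ => (x, c x)) (by rw [hγ0]; exact hv1) hγ
  -- the order is finite
  have hfin : analyticOrderAt (fun x : ℂ => (v (x, c x)).1) 0 ≠ ⊤ := by
    intro htop
    rw [analyticOrderAt_eq_top] at htop
    have e1 : ∀ᶠ x in 𝓝[≠] (0:ℂ), v (x, c x) ≠ 0 := by
      have e2 : Tendsto (fun x : ℂ => (x, c x)) (𝓝[≠] 0) (𝓝[≠] 0) := by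
        refine tendsto_nhdsWithin_of_tendsto_nhds_of_eventually_within _ (hγt.mono_left nhdsWithin_le_nhds) ?_
        filter_upwards [self_mem_nhdsWithin] with x hx hx0
        exact hx (congrArg Prod.fst hx0)
      exact e2.eventually hiso
    obtain ⟨x, hx1, hx2, hx3⟩ := (e1.and ((eventually_nhdsWithin_of_eventually_nhds htop).and (eventually_nhdsWithin_of_eventually_nhds hcv))).exists
    exact hx1 (Prod.ext hx2 hx3)
  set m := analyticOrderNatAt (fun x : ℂ => (v (x, c x)).1) 0 with hm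
  have hmo : analyticOrderAt (fun x : ℂ => (v (x, c x)).1) 0 = m := (Nat.cast_analyticOrderNatAt hfin).symm
  obtain ⟨w, A, a1, a2, a3, a4⟩ := hP m
  have hXa : AnalyticAt ℂ (fun q : ℂ × ℂ => q.1 * w q) 0 := analyticAt_fst.mul a1
  have hdx : AnalyticAt ℂ (dx (fun q : ℂ × ℂ => q.1 * w q)) 0 := Pool.Agent.H17BP.analyticAt_dx hXa
  have hdx0 : dx (fun q : ℂ × ℂ => q.1 * w q) 0 = w 0 := by
    have : HasFDerivAt (fun q : ℂ × ℂ => q.1 * w q) ((0 : ℂ × ℂ).1 • fderiv ℂ w 0 + w 0 • ContinuousLinearMap.fst ℂ ℂ ℂ) 0 :=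
      (hasFDerivAt_fst (𝕜 := ℂ) (p := (0 : ℂ × ℂ))).mul a1.differentiableAt.hasFDerivAt
    rw [dx, this.fderiv]
    simp
  have hdγ : AnalyticAt ℂ (fun x : ℂ => dx (fun q : ℂ × ℂ => q.1 * w q) (x, c x)) 0 :=
    AnalyticAt.fun_comp (g := dx (fun q : ℂ × ℂ => q.1 * w q)) (f := fun x : ℂ => (x, c x)) (by rw [hγ0]; exact hdx) hγ
  have hdγ0 : dx (fun q : ℂ × ℂ => q.1 * w q) ((0:ℂ), c 0) ≠ 0 := by rw [hγ0, hdx0]; exact a2
  have hG : AnalyticAt ℂ (fun x : ℂ => w (x, c x) ^ (m + 1) * A (x, c x) / dx (fun q : ℂ × ℂ => q.1 * w q) (x, c x)) 0 := by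
    refine AnalyticAt.div (AnalyticAt.mul (AnalyticAt.pow ?_ _) ?_) hdγ hdγ0
    · exact AnalyticAt.fun_comp (g := w) (f := fun x : ℂ => (x, c x)) (by rw [hγ0]; exact a1) hγ
    · exact AnalyticAt.fun_comp (g := A) (f := fun x : ℂ => (x, c x)) (by rw [hγ0]; exact a3) hγ
  have hle : ((m + 1 : ℕ) : ℕ∞) ≤ analyticOrderAt (fun x : ℂ => (v (x, c x)).1) 0 := by
    rw [natCast_le_analyticOrderAt hf]
    refine ⟨_, hG, ?_⟩
    filter_upwards [hγt.eventually a4, hcv, hdγ.continuousAt.eventually_ne hdγ0] with x e1 e2 e3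
    have e4 : v (x, c x) = (v (x, c x)).1 • ((1, 0) : ℂ × ℂ) := by ext <;> simp [e2]
    rw [Dv, e4, map_smul, smul_eq_mul] at e1
    have e5 : (v (x, c x)).1 * dx (fun q : ℂ × ℂ => q.1 * w q) (x, c x) = (x * w (x, c x)) ^ (m + 1) * A (x, c x) := e1
    rw [sub_zero, smul_eq_mul, ← mul_div_assoc, eq_div_iff e3, e5]
    ring
  rw [hmo] at hle
  have : m + 1 ≤ m := by exact_mod_cast hle
  omega

end Pool.Agent.MQ2
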