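import Mathlib

/-!
# MQ2 Ell: the function `ell` = `log |p|` with a cut-off
-/

set_option autoImplicit false

open Topology Filter Metric

noncomputable section

namespace Pool.Agent.MQ2

private lemma Ell_pos {p : ℂ × ℂ} (hp : p ≠ 0) : 0 < ‖p.1‖ ^ 2 + ‖p.2‖ ^ 2 := by
  by_contra h
  have h1 : 0 ≤ ‖p.1‖ ^ 2 := sq_nonneg _
  have h2 : 0 ≤ ‖p.2‖ ^ 2 := sq_nonneg _
  have h3 : ‖p.1‖ ^ 2 = 0 := by linarith
  have h4 : ‖p.2‖ ^ 2 = 0 := by linarith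
  apply hp
  refine Prod.ext ?_ ?_
  · simpa using pow_eq_zero_iff (two_ne_zero) |>.1 h3
  · simpa using pow_eq_zero_iff (two_ne_zero) |>.1 h4

private lemma Ell_log_contDiffOn : ContDiffOn ℝ 2 (fun p : ℂ × ℂ => Real.log (‖p.1‖ ^ 2 + ‖p.2‖ ^ 2) / 2) {p | p ≠ 0} := by
  have h1 : ContDiff ℝ 2 (fun p : ℂ × ℂ => ‖p.1‖ ^ 2 + ‖p.2‖ ^ 2) :=
    (contDiff_fst.norm_sq ℝ).add (contDiff_snd.norm_sq ℝ)
  exact (h1.contDiffOn.log fun p hp => (Ell_pos hp).ne').div_const 2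

/-- `H p = 1/2 log (|x|² + |y|²)` near `0`, `H p = 0` outside the ball of radius `t` -/
theorem exists_ell {s : ℝ} (hs : 0 < s) : ∃ (ρ t C : ℝ) (H : ℂ × ℂ → ℝ), 0 < ρ ∧ ρ < t ∧ t < s ∧ 0 ≤ C ∧ ContDiffOn ℝ 2 H {p | p ≠ 0} ∧
    (∀ p : ℂ × ℂ, p ∉ ball (0 : ℂ × ℂ) t → H p = 0) ∧ (∀ p : ℂ × ℂ, p ≠ 0 → p ∈ ball (0 : ℂ × ℂ) ρ → H p = Real.log (‖p.1‖ ^ 2 + ‖p.2‖ ^ 2) / 2) ∧
    (∀ p : ℂ × ℂ, H p ≤ C) ∧ ∀ p : ℂ × ℂ, p ∉ ball (0 : ℂ × ℂ) (ρ / 2) → ‖fderiv ℝ H p‖ ≤ C ∧ |H p| ≤ C := by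
  obtain ⟨b, hb1, hb2⟩ : ∃ b : ContDiffBump (0 : ℂ × ℂ), b.rIn = s / 4 ∧ b.rOut = s / 2 :=
    ⟨⟨s / 4, s / 2, by positivity, by linarith⟩, rfl, rfl⟩
  obtain ⟨H, hH⟩ : ∃ H : ℂ × ℂ → ℝ, H = fun p => b p * (Real.log (‖p.1‖ ^ 2 + ‖p.2‖ ^ 2) / 2) := ⟨_, rfl⟩
  have hopen : IsOpen {p : ℂ × ℂ | p ≠ 0} := isOpen_ne
  have hsm : ContDiffOn ℝ 2 H {p | p ≠ 0} := by
    rw [hH]
    exact (b.contDiff.contDiffOn).mul Ell_log_contDiffOn
  have hout : ∀ p : ℂ × ℂ, p ∉ ball (0 : ℂ × ℂ) (s / 2) → H p = 0 := by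
    intro p hp
    rw [mem_ball, not_lt] at hp
    rw [hH]
    simp only
    rw [b.zero_of_le_dist (by rw [hb2]; exact hp), zero_mul]
  have hin : ∀ p : ℂ × ℂ, p ∈ ball (0 : ℂ × ℂ) (s / 4) → H p = Real.log (‖p.1‖ ^ 2 + ‖p.2‖ ^ 2) / 2 := by
    intro p hp
    rw [hH]
    simp only
    rw [b.one_of_mem_closedBall (by rw [hb1]; exact ball_subset_closedBall hp), one_mul]
  -- the compact ring
  have hK : IsCompact (closedBall (0 : ℂ × ℂ) (s / 2) \ ball (0 : ℂ × ℂ) (s / 4 / 2)) :=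
    (isCompact_closedBall _ _).diff isOpen_ball
  have hKne : closedBall (0 : ℂ × ℂ) (s / 2) \ ball (0 : ℂ × ℂ) (s / 4 / 2) ⊆ {p | p ≠ 0} := by
    intro p hp h0
    apply hp.2
    rw [h0]
    exact mem_ball_self (by positivity)
  obtain ⟨C₁, hC₁⟩ := hK.exists_bound_of_continuousOn ((hsm.continuousOn_fderiv_of_isOpen hopen (by norm_num)).mono hKne)
  obtain ⟨C₂, hC₂⟩ := hK.exists_bound_of_continuousOn (hsm.continuousOn.mono hKne)
  refine ⟨s / 4, s / 2, max (max C₁ C₂) (|Real.log (s ^ 2 / 2)| / 2), H, by positivity, by linarith, by linarith, ?_, hsm, hout,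
    fun p _ hp => hin p hp, ?_, ?_⟩
  · exact le_max_of_le_right (by positivity)
  · intro p
    refine le_max_of_le_right ?_
    by_cases hp : p ∈ ball (0 : ℂ × ℂ) (s / 2)
    · by_cases hp0 : p = 0
      · rw [hH, hp0]
        simp
        positivity
      · rw [mem_ball, dist_zero_right] at hp
        have h1 : ‖p.1‖ ≤ s / 2 := (norm_fst_le p).trans hp.le
        have h2 : ‖p.2‖ ≤ s / 2 := (norm_snd_le p).trans hp.le
        have h3 : ‖p.1‖ ^ 2 + ‖p.2‖ ^ 2 ≤ s ^ 2 / 2 := by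
          have h4 := pow_le_pow_left₀ (norm_nonneg p.1) h1 2
          have h5 := pow_le_pow_left₀ (norm_nonneg p.2) h2 2
          nlinarith
        have h6 : Real.log (‖p.1‖ ^ 2 + ‖p.2‖ ^ 2) ≤ |Real.log (s ^ 2 / 2)| :=
          (Real.log_le_log (Ell_pos hp0) h3).trans (le_abs_self _)
        rw [hH]
        simp only
        have h7 : 0 ≤ b p := b.nonneg
        have h8 : b p ≤ 1 := b.le_one
        have h9 : b p * (Real.log (‖p.1‖ ^ 2 + ‖p.2‖ ^ 2) / 2) ≤ b p * (|Real.log (s ^ 2 / 2)| / 2) :=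
          mul_le_mul_of_nonneg_left (by linarith) h7
        have h10 : b p * (|Real.log (s ^ 2 / 2)| / 2) ≤ 1 * (|Real.log (s ^ 2 / 2)| / 2) :=
          mul_le_mul_of_nonneg_right h8 (by positivity)
        linarith
    · rw [hout p hp]
      positivity
  · intro p hp
    by_cases hp2 : p ∈ closedBall (0 : ℂ × ℂ) (s / 2)
    · refine ⟨(hC₁ p ⟨hp2, hp⟩).trans ((le_max_left _ _).trans (le_max_left _ _)), ?_⟩
      have := hC₂ p ⟨hp2, hp⟩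
      rw [Real.norm_eq_abs] at this
      exact this.trans ((le_max_right _ _).trans (le_max_left _ _))
    · have h0 : H =ᶠ[𝓝 p] fun _ => 0 := by
        filter_upwards [isClosed_closedBall.isOpen_compl.mem_nhds hp2] with q hq
        exact hout q fun h => hq (ball_subset_closedBall h)
      rw [h0.fderiv_eq, h0.eq_of_nhds]
      simp only [fderiv_fun_const, Pi.zero_apply, norm_zero, abs_zero, and_self]
      exact le_max_of_le_right (by positivity)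

/-- near the exceptional line `H = log |x| + 1/2 log (1 + |y/x|²)` -/
theorem log_p_eq {p : ℂ → ℂ × ℂ} {z : ℂ} {f : ℂ} (h1 : (p z).1 ≠ 0) (h2 : (p z).2 = (p z).1 * f) :
    Real.log (‖(p z).1‖ ^ 2 + ‖(p z).2‖ ^ 2) / 2 = Real.log ‖(p z).1‖ + Real.log (1 + ‖f‖ ^ 2) / 2 := by
  have h3 : ‖(p z).1‖ ^ 2 + ‖(p z).2‖ ^ 2 = ‖(p z).1‖ ^ 2 * (1 + ‖f‖ ^ 2) := by
    rw [h2, norm_mul]
    ring
  have h4 : 0 < ‖(p z).1‖ := norm_pos_iff.2 h1
  rw [h3, Real.log_mul (by positivity) (by positivity), Real.log_pow]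
  push_cast
  ring

end Pool.Agent.MQ2
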