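import Pool.Agent.H92.GGL.CasWei

/-!
# MQ2 EquP: a family of graphs over the punctured disc has an analytic equation

`equ_poly`: `Z` is near every point of the closed polydisc outside `{x = 0}` empty or a graph, and empty near the points `(0, y)`, `y ≠ 0`: then
`∏ (y - y_i (x))` extends to an analytic function at `0`.  `equ_graph`: the implicit function.
-/

set_option autoImplicit false

open Topology Filter Metric Polynomial

noncomputable section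

namespace Pool.Agent.MQ2

/-! ## the implicit function -/

theorem equ_graph {l : ℂ × ℂ → ℂ} {p : ℂ × ℂ} (hl : AnalyticAt ℂ l p) (h0 : l p = 0) (h1 : fderiv ℂ l p (0, 1) ≠ 0) {Z : Set (ℂ × ℂ)}
    (hZ : ∀ᶠ w in 𝓝 p, (w ∈ Z ↔ l w = 0)) :
    ∃ φ : ℂ → ℂ, AnalyticAt ℂ φ p.1 ∧ φ p.1 = p.2 ∧ ∀ᶠ w in 𝓝 p, (w ∈ Z ↔ w.2 = φ w.1) := by
  have hcd : ContDiffAt ℂ ⊤ l p := hl.contDiffAt
  have hinv : (fderiv ℂ l p ∘L ContinuousLinearMap.inr ℂ ℂ ℂ).IsInvertible := by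
    refine ⟨ContinuousLinearEquiv.unitsEquivAut ℂ (Units.mk0 _ h1), ?_⟩
    ext
    simp
  refine ⟨hcd.implicitFunction (by simp) hinv, ?_, hcd.implicitFunction_apply_self (by simp) hinv, ?_⟩
  · exact (hcd.contDiffAt_implicitFunction (by simp) hinv).analyticAt
  · have h2 := hcd.eventually_apply_eq_iff_implicitFunction (by simp) hinv
    filter_upwards [h2, hZ] with w hw hwZ
    rw [h0] at hw
    rw [hwZ, hw]
    exact eq_comm

/-! ## the fibres -/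

open Classical in
/-- the fibre of `Z` over `x` in the closed disc of radius `r` -/
def fibE (Z : Set (ℂ × ℂ)) (r : ℝ) (x : ℂ) : Finset ℂ :=
  if h : {y : ℂ | ‖y‖ ≤ r ∧ (x, y) ∈ Z}.Finite then h.toFinset else ∅

/-- near the points over `x` the set is empty or a graph -/
def LocE (Z : Set (ℂ × ℂ)) (r : ℝ) (x : ℂ) : Prop := ∀ y : ℂ, ‖y‖ ≤ r →
  (∀ᶠ w in 𝓝 (x, y), w ∉ Z) ∨ (‖y‖ < r ∧ ∃ φ : ℂ → ℂ, AnalyticAt ℂ φ x ∧ φ x = y ∧ ∀ᶠ w in 𝓝 (x, y), (w ∈ Z ↔ w.2 = φ w.1))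

variable {Z : Set (ℂ × ℂ)} {r : ℝ}

theorem LocE.finite {x : ℂ} (h : LocE Z r x) : {y : ℂ | ‖y‖ ≤ r ∧ (x, y) ∈ Z}.Finite := by
  have hK : IsCompact (closedBall (0 : ℂ) r) := isCompact_closedBall 0 r
  have h1 : (closedBall (0 : ℂ) r ∩ {y | (x, y) ∈ Z}).Finite := by
    refine hK.induction_on (p := fun s => (s ∩ {y | (x, y) ∈ Z}).Finite) ?_ ?_ ?_ ?_
    · simp
    · intro s t hst ht
      exact ht.subset (Set.inter_subset_inter_left _ hst)
    · intro s t hs ht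
      rw [Set.union_inter_distrib_right]
      exact hs.union ht
    · intro y hy
      have hy' : ‖y‖ ≤ r := by simpa using hy
      have hc : Tendsto (fun y' : ℂ => (x, y')) (𝓝 y) (𝓝 (x, y)) := (Continuous.prodMk_right x).tendsto y
      rcases h y hy' with h2 | ⟨-, φ, -, hφ, h2⟩
      · refine ⟨{y' | (x, y') ∉ Z}, mem_nhdsWithin_of_mem_nhds (hc.eventually h2), ?_⟩
        refine Set.finite_empty.subset ?_
        rintro y' ⟨h3, h4⟩
        exact h3 h4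
      · refine ⟨{y' | (x, y') ∈ Z ↔ y' = φ x}, mem_nhdsWithin_of_mem_nhds (hc.eventually h2), ?_⟩
        refine (Set.finite_singleton (φ x)).subset ?_
        rintro y' ⟨h3, h4⟩
        exact h3.1 h4
  refine h1.subset ?_
  rintro y ⟨h2, h3⟩
  exact ⟨by simpa using h2, h3⟩

theorem LocE.mem {x : ℂ} (h : LocE Z r x) {y : ℂ} : y ∈ fibE Z r x ↔ ‖y‖ ≤ r ∧ (x, y) ∈ Z := by
  unfold fibE
  rw [dif_pos h.finite, Set.Finite.mem_toFinset]
  rfl

/-- the local structure -/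
theorem LocE.loc {x₀ : ℂ} (h : LocE Z r x₀) (hn : ∀ᶠ x in 𝓝 x₀, LocE Z r x) :
    ∃ φ : ℂ → ℂ → ℂ, (∀ y ∈ fibE Z r x₀, AnalyticAt ℂ (φ y) x₀) ∧
      ∀ᶠ x in 𝓝 x₀, Set.InjOn (fun y => φ y x) (fibE Z r x₀ : Set ℂ) ∧ fibE Z r x = (fibE Z r x₀).image fun y => φ y x := by
  have h1 : ∀ y, ∃ φ : ℂ → ℂ, y ∈ fibE Z r x₀ → ‖y‖ < r ∧ AnalyticAt ℂ φ x₀ ∧ φ x₀ = y ∧ ∀ᶠ w in 𝓝 (x₀, y), (w ∈ Z ↔ w.2 = φ w.1) := by
    intro y
    by_cases hy : y ∈ fibE Z r x₀
    · obtain ⟨hy1, hy2⟩ := h.mem.1 hy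
      rcases h y hy1 with h2 | ⟨h2, φ, h3, h4, h5⟩
      · exact absurd hy2 h2.self_of_nhds
      · exact ⟨φ, fun _ => ⟨h2, h3, h4, h5⟩⟩
    · exact ⟨0, fun h => absurd h hy⟩
  choose φ hφ using h1
  refine ⟨φ, fun y hy => (hφ y hy).2.1, ?_⟩
  have ha : ∀ᶠ x in 𝓝 x₀, ∀ y ∈ closedBall (0 : ℂ) r, (x, y) ∈ Z → ∃ y₀ ∈ fibE Z r x₀, y = φ y₀ x := by
    refine (isCompact_closedBall (0 : ℂ) r).eventually_forall_of_forall_eventually
      (P := fun x y => (x, y) ∈ Z → ∃ y₀ ∈ fibE Z r x₀, y = φ y₀ x) ?_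
    intro y hy
    have hy' : ‖y‖ ≤ r := by simpa using hy
    by_cases hyF : y ∈ fibE Z r x₀
    · filter_upwards [(hφ y hyF).2.2.2] with w hw hwZ
      exact ⟨y, hyF, hw.1 hwZ⟩
    · rcases h y hy' with h2 | ⟨-, φ', -, h4, h5⟩
      · filter_upwards [h2] with w hw hwZ
        exact absurd hwZ hw
      · have h6 := h5.self_of_nhds.2 h4.symm
        exact absurd (h.mem.2 ⟨hy', h6⟩) hyF
  have hb : ∀ᶠ x in 𝓝 x₀, ∀ y₀ ∈ fibE Z r x₀, (x, φ y₀ x) ∈ Z ∧ ‖φ y₀ x‖ < r := by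
    refine (Filter.eventually_all_finset _).2 fun y₀ hy₀ => ?_
    obtain ⟨h2, h3, h4, h5⟩ := hφ y₀ hy₀
    have ht : Tendsto (fun x => (x, φ y₀ x)) (𝓝 x₀) (𝓝 (x₀, y₀)) := by
      have := (continuousAt_id.prodMk h3.continuousAt).tendsto
      simpa [h4] using this
    have hn' : ∀ᶠ x in 𝓝 x₀, ‖φ y₀ x‖ < r := h3.continuousAt.norm.eventually (gt_mem_nhds (by
      show ‖φ y₀ x₀‖ < r
      rw [h4]
      exact h2))
    filter_upwards [ht.eventually h5, hn'] with x hx hx'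
    exact ⟨hx.2 rfl, hx'⟩
  have hc : ∀ᶠ x in 𝓝 x₀, ∀ y ∈ fibE Z r x₀, ∀ y' ∈ fibE Z r x₀, y ≠ y' → φ y x ≠ φ y' x := by
    refine (Filter.eventually_all_finset _).2 fun y hy => (Filter.eventually_all_finset _).2 fun y' hy' => ?_
    by_cases hyy : y = y'
    · exact Eventually.of_forall fun x h => absurd hyy h
    · obtain ⟨-, h3, h4, -⟩ := hφ y hy
      obtain ⟨-, h3', h4', -⟩ := hφ y' hy'
      have h6 : ∀ᶠ x in 𝓝 x₀, φ y x - φ y' x ≠ 0 := (h3.continuousAt.sub h3'.continuousAt).eventually_ne (by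
        show φ y x₀ - φ y' x₀ ≠ 0
        rw [h4, h4']
        exact sub_ne_zero.2 hyy)
      filter_upwards [h6] with x hx _
      exact sub_ne_zero.1 hx
  filter_upwards [ha, hb, hc, hn] with x hxa hxb hxc hxn
  refine ⟨fun y hy y' hy' hyy => ?_, ?_⟩
  · by_contra hne
    exact hxc y hy y' hy' hne hyy
  · ext y
    rw [hxn.mem, Finset.mem_image]
    constructor
    · rintro ⟨h2, h3⟩
      obtain ⟨y₀, hy₀, h4⟩ := hxa y (by simpa using h2) h3
      exact ⟨y₀, hy₀, h4.symm⟩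
    · rintro ⟨y₀, hy₀, rfl⟩
      exact ⟨(hxb y₀ hy₀).2.le, (hxb y₀ hy₀).1⟩

/-! ## the polynomial of the fibre -/

variable (Z r) in
/-- the polynomial of the fibre -/
def pE (x : ℂ) : ℂ[X] := ∏ w ∈ fibE Z r x, (X - C w)

theorem pE_eval (x v : ℂ) : (pE Z r x).eval v = ∏ w ∈ fibE Z r x, (v - w) := by
  unfold pE
  rw [eval_prod]
  exact Finset.prod_congr rfl fun w _ => by rw [eval_sub, eval_X, eval_C]

theorem pE_natDegree (x : ℂ) : (pE Z r x).natDegree = (fibE Z r x).card := by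
  unfold pE
  rw [natDegree_prod_of_monic _ _ fun w _ => monic_X_sub_C w]
  simp

theorem pE_derivative {x y : ℂ} (hy : y ∈ fibE Z r x) : (pE Z r x).derivative.eval y ≠ 0 := by
  classical
  have h1 : pE Z r x = (X - C y) * ∏ w ∈ (fibE Z r x).erase y, (X - C w) := (Finset.mul_prod_erase _ _ hy).symm
  rw [h1, derivative_mul, eval_add, eval_mul, eval_mul, eval_prod]
  simp only [derivative_sub, derivative_X, derivative_C, sub_zero, eval_one, one_mul, eval_sub, eval_X, eval_C, sub_self, zero_mul, add_zero]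
  refine Finset.prod_ne_zero_iff.2 fun w hw => ?_
  exact sub_ne_zero.2 (Finset.ne_of_mem_erase hw).symm

theorem LocE.analyticAt {x₀ : ℂ} (h : LocE Z r x₀) (hn : ∀ᶠ x in 𝓝 x₀, LocE Z r x) (v : ℂ) : AnalyticAt ℂ (fun x => (pE Z r x).eval v) x₀ := by
  obtain ⟨φ, hφ, hev⟩ := h.loc hn
  have h1 : AnalyticAt ℂ (fun x => ∏ y ∈ fibE Z r x₀, (v - φ y x)) x₀ :=
    Finset.analyticAt_fun_prod _ fun y hy => analyticAt_const.sub (hφ y hy)
  refine h1.congr ?_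
  filter_upwards [hev] with x hx
  rw [pE_eval, hx.2, Finset.prod_image fun y hy y' hy' => hx.1 hy hy']

theorem LocE.card {x₀ : ℂ} (h : LocE Z r x₀) (hn : ∀ᶠ x in 𝓝 x₀, LocE Z r x) : ∀ᶠ x in 𝓝 x₀, (fibE Z r x).card = (fibE Z r x₀).card := by
  obtain ⟨φ, hφ, hev⟩ := h.loc hn
  filter_upwards [hev] with x hx
  rw [hx.2, Finset.card_image_of_injOn hx.1]

/-! ## the theorem -/

/-- **The equation of a family of graphs.** -/
theorem equ_poly {Z : Set (ℂ × ℂ)} {s r : ℝ} (hs : 0 < s) (hr : 0 < r)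
    (hloc : ∀ x y : ℂ, x ≠ 0 → ‖x‖ < s → ‖y‖ ≤ r → (∀ᶠ w in 𝓝 (x, y), w ∉ Z) ∨
      (‖y‖ < r ∧ ∃ φ : ℂ → ℂ, AnalyticAt ℂ φ x ∧ φ x = y ∧ ∀ᶠ w in 𝓝 (x, y), (w ∈ Z ↔ w.2 = φ w.1)))
    (h0 : ∀ y : ℂ, y ≠ 0 → ‖y‖ ≤ r → ∀ᶠ w in 𝓝 ((0 : ℂ), y), w ∉ Z) :
    ∃ g : ℂ × ℂ → ℂ, AnalyticAt ℂ g 0 ∧ (∃ᶠ p in 𝓝 (0 : ℂ × ℂ), g p ≠ 0) ∧
      ∀ᶠ p in 𝓝 (0 : ℂ × ℂ), p ≠ 0 → (g p = 0 ↔ p ∈ Z) ∧ (g p = 0 → fderiv ℂ g p ≠ 0) := by
  set D : Set ℂ := {z : ℂ | 0 < ‖z‖ ∧ ‖z‖ < s} with hD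
  have hDo : IsOpen D := Pool.Agent.H92.GGL.isOpen_punctured s
  have hDc : IsPreconnected D := Pool.Agent.H92.GGL.isPreconnected_punctured s
  have hL : ∀ x ∈ D, LocE Z r x := fun x hx y hy => hloc x y (norm_pos_iff.1 hx.1) hx.2 hy
  have hLn : ∀ x ∈ D, ∀ᶠ w in 𝓝 x, LocE Z r w := fun x hx => by
    filter_upwards [hDo.mem_nhds hx] with w hw
    exact hL w hw
  -- the number of the points of the fibre
  have hx₁ : ((s / 2 : ℝ) : ℂ) ∈ D := by
    have h1 : ‖((s / 2 : ℝ) : ℂ)‖ = s / 2 := by rw [Complex.norm_real, Real.norm_of_nonneg (by positivity)]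
    exact ⟨by rw [h1]; positivity, by rw [h1]; linarith⟩
  set m : ℕ := (fibE Z r ((s / 2 : ℝ) : ℂ)).card with hm
  have hcard : ∀ x ∈ D, (fibE Z r x).card = m := by
    intro x hx
    refine hDc.constant (f := fun x => (fibE Z r x).card) (fun w hw => ?_) hx hx₁
    exact (continuousAt_const.congr ((hL w hw).card (hLn w hw) |>.mono fun _ h => h.symm)).continuousWithinAt
  set v : ℕ → ℂ := fun k => (k : ℂ) with hv
  have hvi : Set.InjOn v (Finset.range (m + 1) : Set ℕ) := fun a _ b _ hab => Nat.cast_injective hab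
  -- the values
  set e : ℕ → ℂ → ℂ := fun k x => (pE Z r x).eval (v k) with he
  set Γ : ℕ → ℂ → ℂ := fun k => Function.update (e k) 0 (limUnder (𝓝[≠] 0) (e k)) with hΓ
  have hball : ∀ x ∈ ball (0 : ℂ) s \ {0}, x ∈ D := fun x hx => ⟨norm_pos_iff.2 hx.2, by simpa using hx.1⟩
  have hΓd : ∀ k, DifferentiableOn ℂ (Γ k) (ball 0 s) := by
    intro k
    refine Complex.differentiableOn_update_limUnder_of_bddAbove (ball_mem_nhds 0 hs) ?_ ?_
    · intro x hx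
      exact ((hL x (hball x hx)).analyticAt (hLn x (hball x hx)) (v k)).differentiableAt.differentiableWithinAt
    · refine ⟨(‖v k‖ + r) ^ m, ?_⟩
      rintro _ ⟨x, hx, rfl⟩
      show ‖(pE Z r x).eval (v k)‖ ≤ _
      rw [pE_eval, norm_prod, ← hcard x (hball x hx)]
      refine (Finset.prod_le_prod (fun _ _ => norm_nonneg _) fun w hw => ?_).trans (le_of_eq (Finset.prod_const _))
      exact (norm_sub_le _ _).trans (add_le_add le_rfl ((hL x (hball x hx)).mem.1 hw).1)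
  have hΓa : ∀ k, ∀ x ∈ ball (0 : ℂ) s, AnalyticAt ℂ (Γ k) x := fun k x hx => (hΓd k).analyticAt (isOpen_ball.mem_nhds hx)
  have hΓe : ∀ k, ∀ x, x ≠ 0 → Γ k x = (pE Z r x).eval (v k) := fun k x hx => Function.update_of_ne hx _ _
  set g : ℂ × ℂ → ℂ := fun p => ∑ k ∈ Finset.range (m + 1), Γ k p.1 * (Lagrange.basis (Finset.range (m + 1)) v k).eval p.2 with hg
  have hga : ∀ p : ℂ × ℂ, ‖p.1‖ < s → AnalyticAt ℂ g p := by
    intro p hp
    refine Finset.analyticAt_fun_sum _ fun k _ => ?_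
    have h1 : AnalyticAt ℂ (fun p : ℂ × ℂ => Γ k p.1) p := (hΓa k p.1 (by simpa using hp)).comp analyticAt_fst
    have h2 : AnalyticAt ℂ (fun p : ℂ × ℂ => (Lagrange.basis (Finset.range (m + 1)) v k).eval p.2) p :=
      ((Lagrange.basis (Finset.range (m + 1)) v k).differentiable.analyticAt p.2).comp analyticAt_snd
    exact h1.mul h2
  have hge : ∀ x ∈ D, ∀ y, g (x, y) = (pE Z r x).eval y := by
    intro x hx y
    have hdeg : (pE Z r x).degree < ((Finset.range (m + 1)).card : WithBot ℕ) := by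
      refine lt_of_le_of_lt degree_le_natDegree ?_
      rw [pE_natDegree, hcard x hx, Finset.card_range]
      exact_mod_cast Nat.lt_succ_self m
    have h1 := Lagrange.eq_interpolate hvi hdeg
    rw [Lagrange.interpolate_apply] at h1
    conv_rhs => rw [h1]
    rw [eval_finsetSum]
    refine Finset.sum_congr rfl fun k _ => ?_
    rw [eval_mul, eval_C, hΓe k x (norm_pos_iff.1 hx.1)]
  -- the fibre over `0`
  have hsmall : ∀ ε : ℝ, 0 < ε → ∀ᶠ x in 𝓝 (0 : ℂ), ∀ y ∈ closedBall (0 : ℂ) r ∩ {y | ε ≤ ‖y‖}, (x, y) ∉ Z := by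
    intro ε hε
    have hK : IsCompact (closedBall (0 : ℂ) r ∩ {y | ε ≤ ‖y‖}) := (isCompact_closedBall 0 r).inter_right (isClosed_le continuous_const continuous_norm)
    refine hK.eventually_forall_of_forall_eventually (P := fun x y => (x, y) ∉ Z) ?_
    rintro y ⟨hy1, hy2⟩
    have hy2' : ε ≤ ‖y‖ := hy2
    exact h0 y (norm_pos_iff.1 (by linarith)) (by simpa using hy1)
  have hg0 : ∀ y : ℂ, y ≠ 0 → g (0, y) ≠ 0 := by
    intro y hy
    have hyp : 0 < ‖y‖ := norm_pos_iff.2 hy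
    have hcont : Tendsto (fun x : ℂ => ‖g (x, y)‖) (𝓝[≠] 0) (𝓝 ‖g (0, y)‖) := by
      have h1 : ContinuousAt g ((0 : ℂ), y) := (hga (0, y) (by simpa using hs)).continuousAt
      have h2 : Tendsto (fun x : ℂ => (x, y)) (𝓝 0) (𝓝 (0, y)) := (Continuous.prodMk_left y).tendsto 0
      exact ((h1.tendsto.comp h2).norm).mono_left nhdsWithin_le_nhds
    have hlow : ∀ᶠ x in 𝓝[≠] (0 : ℂ), (‖y‖ / 2) ^ m ≤ ‖g (x, y)‖ := by
      filter_upwards [nhdsWithin_le_nhds (hsmall (‖y‖ / 2) (by positivity)), nhdsWithin_le_nhds (ball_mem_nhds (0 : ℂ) hs), self_mem_nhdsWithin]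
        with x hx1 hx2 hx3
      have hxD : x ∈ D := hball x ⟨hx2, hx3⟩
      rw [hge x hxD, pE_eval, norm_prod, ← hcard x hxD, ← Finset.prod_const]
      refine Finset.prod_le_prod (fun _ _ => by positivity) fun w hw => ?_
      obtain ⟨hw1, hw2⟩ := (hL x hxD).mem.1 hw
      have hw3 : ‖w‖ < ‖y‖ / 2 := by
        by_contra hcon
        push Not at hcon
        exact hx1 w ⟨by simpa using hw1, hcon⟩ hw2
      have := norm_sub_norm_le y w
      linarith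
    have h1 := ge_of_tendsto hcont hlow
    have h2 : 0 < (‖y‖ / 2) ^ m := by positivity
    exact norm_pos_iff.1 (by linarith)
  refine ⟨g, hga 0 (by simpa using hs), ?_, ?_⟩
  · have h1 : Tendsto (fun y : ℂ => ((0 : ℂ), y)) (𝓝[≠] 0) (𝓝 (0 : ℂ × ℂ)) := ((Continuous.prodMk_right (0 : ℂ)).tendsto 0).mono_left nhdsWithin_le_nhds
    have h2 : ∀ᶠ y in 𝓝[≠] (0 : ℂ), g (0, y) ≠ 0 := by
      filter_upwards [self_mem_nhdsWithin] with y hy
      exact hg0 y hy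
    exact h1.frequently h2.frequently
  · filter_upwards [ball_mem_nhds (0 : ℂ × ℂ) (lt_min hs hr)] with p hp hp0
    obtain ⟨x, y⟩ := p
    rw [mem_ball_zero_iff, Prod.norm_def, max_lt_iff] at hp
    have hxs : ‖x‖ < s := lt_of_lt_of_le hp.1 (min_le_left _ _)
    have hyr : ‖y‖ < r := lt_of_lt_of_le hp.2 (min_le_right _ _)
    rcases eq_or_ne x 0 with rfl | hx
    · have hy : y ≠ 0 := by
        rintro rfl
        exact hp0 rfl
      have h1 := hg0 y hy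
      have h2 : ((0 : ℂ), y) ∉ Z := (h0 y hy hyr.le).self_of_nhds
      exact ⟨⟨fun h => absurd h h1, fun h => absurd h h2⟩, fun h => absurd h h1⟩
    · have hxD : x ∈ D := ⟨norm_pos_iff.2 hx, hxs⟩
      have hiff : g (x, y) = 0 ↔ y ∈ fibE Z r x := by
        rw [hge x hxD, pE_eval, Finset.prod_eq_zero_iff]
        constructor
        · rintro ⟨w, hw, h1⟩
          rwa [sub_eq_zero.1 h1]
        · intro h1
          exact ⟨y, h1, sub_self y⟩
      refine ⟨?_, fun h1 h2 => ?_⟩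
      · rw [hiff, (hL x hxD).mem]
        exact ⟨fun h => h.2, fun h => ⟨hyr.le, h⟩⟩
      · have h3 : HasDerivAt (fun y' : ℂ => g (x, y')) ((pE Z r x).derivative.eval y) y := by
          have h4 := (pE Z r x).hasDerivAt y
          refine h4.congr_of_eventuallyEq (Eventually.of_forall fun y' => ?_)
          exact hge x hxD y'
        have h4 : HasFDerivAt g (fderiv ℂ g (x, y)) (x, y) := (hga (x, y) hxs).differentiableAt.hasFDerivAt
        have h5 : HasDerivAt (fun y' : ℂ => (x, y')) ((0 : ℂ), (1 : ℂ)) y := (hasDerivAt_const y x).prodMk (hasDerivAt_id y)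
        have h6 : HasDerivAt (fun y' : ℂ => g (x, y')) (fderiv ℂ g (x, y) (0, 1)) y := h4.comp_hasDerivAt y h5
        have h7 := h3.unique h6
        rw [h2] at h7
        exact pE_derivative (hiff.1 h1) h7

end Pool.Agent.MQ2
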