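import Pool.Agent.E1.Disc
import Pool.Agent.H17BP.Art
import Pool.Agent.H17BP.SliceF
import Pool.Agent.MQ2.EquP

/-!
# MQ2 Equ: the reduced equation of a part of the zeros of a germ

The zeros of `ρ` near `0` lie on finitely many discs (`E1.disc_cover`).  After a linear change `ρ (0, y)` is not identically zero; then a disc which covers a point
`p ≠ 0` near `0` has no vertical tangent there (`Equ_disc`), so neither has the curve `{l = 0}` (`equ_no_vert`).  The rest is `equ_poly` (`EquP`).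
-/

set_option autoImplicit false

open Topology Filter Metric

noncomputable section

namespace Pool.Agent.MQ2

private theorem Equ_graph {l : ℂ × ℂ → ℂ} {p : ℂ × ℂ} (hl : AnalyticAt ℂ l p) (h0 : l p = 0) (h1 : fderiv ℂ l p (0, 1) ≠ 0) :
    ∃ φ : ℂ → ℂ, AnalyticAt ℂ φ p.1 ∧ φ p.1 = p.2 ∧ ∀ᶠ w in 𝓝 p, (l w = 0 ↔ φ w.1 = w.2) := by
  obtain ⟨x, y⟩ := p
  have hcd : ContDiffAt ℂ ⊤ l (x, y) := hl.contDiffAt
  have hinv : (fderiv ℂ l (x, y) ∘L ContinuousLinearMap.inr ℂ ℂ ℂ).IsInvertible := by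
    refine ⟨ContinuousLinearEquiv.unitsEquivAut ℂ (Units.mk0 _ h1), ?_⟩
    ext
    simp
  refine ⟨hcd.implicitFunction (by simp) hinv, ?_, hcd.implicitFunction_apply_self (by simp) hinv, ?_⟩
  · exact (hcd.contDiffAt_implicitFunction (by simp) hinv).analyticAt
  · have h2 := hcd.eventually_apply_eq_iff_implicitFunction (by simp) hinv
    filter_upwards [h2] with w hw
    rw [h0] at hw
    exact hw

/-- the critical parameters of a disc only give finitely many points -/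
private theorem Equ_disc {ρ : ℂ × ℂ → ℂ} {c : ℂ → ℂ × ℂ} (hc : AnalyticOnNhd ℂ c (closedBall 0 1))
    (hcW : ∀ z ∈ closedBall (0 : ℂ) 1, (c z).2 ≠ 0 → ρ (0, (c z).2) ≠ 0) (hcρ : ∀ z ∈ closedBall (0 : ℂ) 1, ρ (c z) = 0) :
    ∀ᶠ p in 𝓝 (0 : ℂ × ℂ), p ≠ 0 → ∀ z ∈ closedBall (0 : ℂ) (1 / 2), c z = p → deriv (fun z => (c z).1) z ≠ 0 := by
  have hX : AnalyticOnNhd ℂ (fun z => (c z).1) (closedBall 0 1) := fun z hz => analyticAt_fst.comp (hc z hz)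
  have hX' : AnalyticOnNhd ℂ (deriv fun z => (c z).1) (closedBall 0 1) := hX.deriv
  have hsub : closedBall (0 : ℂ) (1 / 2) ⊆ closedBall 0 1 := closedBall_subset_closedBall (by norm_num)
  by_cases hA : ∀ z ∈ closedBall (0 : ℂ) 1, deriv (fun z => (c z).1) z = 0
  · have hconst : ∀ z ∈ closedBall (0 : ℂ) (1 / 2), (c z).1 = (c 0).1 := by
      intro z hz
      have h1 : DifferentiableOn ℂ (fun z => (c z).1) (ball 0 1) := fun w hw => (hX w (ball_subset_closedBall hw)).differentiableAt.differentiableWithinAt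
      exact isOpen_ball.is_const_of_deriv_eq_zero (convex_ball (0 : ℂ) 1).isPreconnected h1 (fun w hw => hA w (ball_subset_closedBall hw))
        (closedBall_subset_ball (by norm_num) hz) (mem_ball_self one_pos)
    by_cases h0 : (c 0).1 = 0
    · refine Eventually.of_forall fun p hp z hz hzp => ?_
      exfalso
      apply hp
      have h2 : (c z).1 = 0 := (hconst z hz).trans h0
      have h3 : (c z).2 = 0 := by
        by_contra h4
        apply hcW z (hsub hz) h4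
        have h5 := hcρ z (hsub hz)
        have h6 : c z = (0, (c z).2) := Prod.ext h2 rfl
        rwa [h6] at h5
      rw [← hzp]
      exact Prod.ext h2 h3
    · have h1 : ∀ᶠ p in 𝓝 (0 : ℂ × ℂ), p.1 ≠ (c 0).1 := by
        have h2 : ContinuousAt (fun p : ℂ × ℂ => p.1) 0 := continuous_fst.continuousAt
        exact h2.eventually_ne (fun h => h0 h.symm)
      filter_upwards [h1] with p hp _ z hz hzp
      exact absurd (by rw [← hzp]; exact hconst z hz) hp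
  · have hfin : {z ∈ closedBall (0 : ℂ) (1 / 2) | deriv (fun z => (c z).1) z = 0}.Finite := by
      by_contra hinf
      obtain ⟨z₀, hz₀, hacc⟩ := Set.Infinite.exists_accPt_of_subset_isCompact hinf (isCompact_closedBall (0 : ℂ) (1 / 2)) (fun z hz => hz.1)
      apply hA
      have h1 : ∃ᶠ z in 𝓝[≠] z₀, deriv (fun z => (c z).1) z = 0 := by
        rw [accPt_iff_frequently] at hacc
        rw [frequently_nhdsWithin_iff]
        exact hacc.mono fun z hz => ⟨hz.2.2, hz.1⟩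
      exact fun z hz => hX'.eqOn_zero_of_preconnected_of_frequently_eq_zero (convex_closedBall (0 : ℂ) 1).isPreconnected (hsub hz₀) h1 hz
    have hfin2 : ((c '' {z ∈ closedBall (0 : ℂ) (1 / 2) | deriv (fun z => (c z).1) z = 0}) \ {0}).Finite := (hfin.image c).subset Set.sdiff_subset
    have h1 : ∀ᶠ p in 𝓝 (0 : ℂ × ℂ), p ∉ (c '' {z ∈ closedBall (0 : ℂ) (1 / 2) | deriv (fun z => (c z).1) z = 0}) \ {0} :=
      hfin2.isClosed.isOpen_compl.mem_nhds (fun h => h.2 rfl)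
    filter_upwards [h1] with p hp hp0 z hz hzp h2
    exact hp ⟨⟨z, ⟨hz, h2⟩, hzp⟩, hp0⟩

/-- **No vertical tangents.** -/
theorem equ_no_vert {ρ : ℂ × ℂ → ℂ} (hρ : AnalyticAt ℂ ρ 0) (h : ∀ᶠ y in 𝓝[≠] (0 : ℂ), ρ (0, y) ≠ 0) :
    ∀ᶠ p in 𝓝 (0 : ℂ × ℂ), p ≠ 0 → ∀ l : ℂ × ℂ → ℂ, AnalyticAt ℂ l p → l p = 0 → fderiv ℂ l p ≠ 0 → (∀ᶠ w in 𝓝 p, l w = 0 → ρ w = 0) →
      fderiv ℂ l p (0, 1) ≠ 0 := by
  have hne : ¬ ∀ᶠ x in 𝓝 (0 : ℂ × ℂ), ρ x = 0 := by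
    intro h0
    have h1 : Tendsto (fun y : ℂ => ((0 : ℂ), y)) (𝓝[≠] 0) (𝓝 0) := by
      have h2 : ContinuousAt (fun y : ℂ => ((0 : ℂ), y)) 0 := by fun_prop
      exact h2.tendsto.mono_left nhdsWithin_le_nhds
    obtain ⟨y, hy1, hy2⟩ := (h.and (h1.eventually h0)).exists
    exact hy1 hy2
  obtain ⟨n, hn⟩ := Pool.Agent.H17BP.exists_resN hρ hne
  have hW : {p : ℂ × ℂ | p.2 ≠ 0 → ρ (0, p.2) ≠ 0} ∈ 𝓝 (0 : ℂ × ℂ) := by
    have h1 : ∀ᶠ y in 𝓝 (0 : ℂ), y ≠ 0 → ρ (0, y) ≠ 0 := eventually_nhdsWithin_iff.mp h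
    exact (continuous_snd.tendsto (0 : ℂ × ℂ)).eventually h1
  obtain ⟨r, c, hc, hcW, hcov⟩ := Pool.Agent.E1.disc_cover n hn hW
  have hall : ∀ᶠ p in 𝓝 (0 : ℂ × ℂ), ∀ i : Fin r, p ≠ 0 → ∀ z ∈ closedBall (0 : ℂ) (1 / 2), c i z = p → deriv (fun z => (c i z).1) z ≠ 0 :=
    eventually_all.2 fun i => Equ_disc (hc i) (fun z hz => (hcW i z hz).1) (fun z hz => (hcW i z hz).2)
  filter_upwards [hall, hcov.eventually_nhds] with p hp hcovp hp0 l hl hl0 hdl hlρ hv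
  have hsub : closedBall (0 : ℂ) (1 / 2) ⊆ closedBall 0 1 := closedBall_subset_closedBall (by norm_num)
  have ha : fderiv ℂ l p (1, 0) ≠ 0 := by
    intro ha
    apply hdl
    refine ContinuousLinearMap.ext fun w => ?_
    have h1 : w = w.1 • ((1 : ℂ), (0 : ℂ)) + w.2 • ((0 : ℂ), (1 : ℂ)) := by
      ext <;> simp
    rw [h1, map_add, map_smul, map_smul, ha, hv, smul_zero, smul_zero, add_zero]
    rfl
  -- the swapped equation
  have hsw : HasFDerivAt (fun w : ℂ × ℂ => l (w.2, w.1)) ((fderiv ℂ l p).comp ((ContinuousLinearMap.snd ℂ ℂ ℂ).prod (ContinuousLinearMap.fst ℂ ℂ ℂ)))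
      (p.2, p.1) := by
    have h1 : HasFDerivAt (fun w : ℂ × ℂ => (w.2, w.1)) ((ContinuousLinearMap.snd ℂ ℂ ℂ).prod (ContinuousLinearMap.fst ℂ ℂ ℂ)) (p.2, p.1) :=
      ((ContinuousLinearMap.snd ℂ ℂ ℂ).prod (ContinuousLinearMap.fst ℂ ℂ ℂ)).hasFDerivAt
    have h2 : HasFDerivAt l (fderiv ℂ l p) ((fun w : ℂ × ℂ => (w.2, w.1)) (p.2, p.1)) := hl.differentiableAt.hasFDerivAt
    exact HasFDerivAt.comp (g := l) (f := fun w : ℂ × ℂ => (w.2, w.1)) (p.2, p.1) h2 h1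
  have hsa : AnalyticAt ℂ (fun w : ℂ × ℂ => l (w.2, w.1)) (p.2, p.1) := by
    refine AnalyticAt.fun_comp (g := l) (f := fun w : ℂ × ℂ => (w.2, w.1)) hl ?_
    exact analyticAt_snd.prod analyticAt_fst
  obtain ⟨φ, hφ, hφ0, hφl⟩ := Equ_graph hsa hl0 (by
    rw [hsw.fderiv]
    simpa using ha)
  have hφ0' : φ p.2 = p.1 := hφ0
  have hφc : Tendsto (fun y => (φ y, y)) (𝓝 p.2) (𝓝 p) := by
    have h1 : ContinuousAt (fun y => (φ y, y)) p.2 := hφ.continuousAt.prodMk continuousAt_id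
    have h2 := h1.tendsto
    rwa [hφ0'] at h2
  have hφc' : Tendsto (fun y => (y, φ y)) (𝓝 p.2) (𝓝 (p.2, p.1)) := by
    have h1 : ContinuousAt (fun y => (y, φ y)) p.2 := continuousAt_id.prodMk hφ.continuousAt
    have h2 := h1.tendsto
    simp only [hφ0'] at h2
    exact h2
  have hlφ : ∀ᶠ y in 𝓝 p.2, l (φ y, y) = 0 := by
    filter_upwards [hφc'.eventually hφl] with y hy
    exact hy.2 rfl
  have hex : ∀ᶠ y in 𝓝 p.2, ∃ i, ∃ z ∈ closedBall (0 : ℂ) (1 / 2), c i z = (φ y, y) := by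
    filter_upwards [hlφ, hφc.eventually hlρ, hφc.eventually hcovp] with y h1 h2 h3
    exact h3 (h2 h1)
  obtain ⟨i, hi⟩ : ∃ i, ∃ᶠ y in 𝓝[≠] p.2, l (φ y, y) = 0 ∧ ∃ z ∈ closedBall (0 : ℂ) (1 / 2), c i z = (φ y, y) := by
    by_contra hcon
    have h1 : ∀ᶠ y in 𝓝[≠] p.2, ∀ i, ¬ (l (φ y, y) = 0 ∧ ∃ z ∈ closedBall (0 : ℂ) (1 / 2), c i z = (φ y, y)) :=
      eventually_all.2 fun i => not_frequently.1 (not_exists.1 hcon i)
    obtain ⟨y, hy1, hy2, hy3⟩ := (h1.and ((hlφ.filter_mono nhdsWithin_le_nhds).and (hex.filter_mono nhdsWithin_le_nhds))).exists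
    obtain ⟨i, hi⟩ := hy3
    exact hy1 i ⟨hy2, hi⟩
  obtain ⟨y, hy, hyi⟩ := exists_seq_forall_of_frequently hi
  choose hyl z hz hzy using hyi
  obtain ⟨z₀, hz₀, κ, hκ, hlim⟩ := (isCompact_closedBall (0 : ℂ) (1 / 2)).tendsto_subseq hz
  have hcz : c i z₀ = p := by
    have h1 : Tendsto (fun n => c i (z (κ n))) atTop (𝓝 (c i z₀)) := (hc i z₀ (hsub hz₀)).continuousAt.tendsto.comp hlim
    have h2 : Tendsto (fun n => c i (z (κ n))) atTop (𝓝 p) := by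
      have h3 : Tendsto (fun n => (φ (y (κ n)), y (κ n))) atTop (𝓝 p) :=
        hφc.comp ((hy.mono_right nhdsWithin_le_nhds).comp hκ.tendsto_atTop)
      refine h3.congr fun n => ?_
      exact (hzy (κ n)).symm
    exact tendsto_nhds_unique h1 h2
  have hyne : ∀ᶠ n in atTop, y n ≠ p.2 := hy.eventually self_mem_nhdsWithin
  have hfreq : ∃ᶠ t in 𝓝[≠] z₀, l (c i t) = 0 := by
    have h1 : Tendsto (fun n => z (κ n)) atTop (𝓝[≠] z₀) := by
      refine tendsto_nhdsWithin_iff.2 ⟨hlim, ?_⟩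
      filter_upwards [hκ.tendsto_atTop.eventually hyne] with n hn hzn
      apply hn
      have h2 := hzy (κ n)
      rw [show z (κ n) = z₀ from hzn, hcz] at h2
      rw [h2]
    refine h1.frequently (Eventually.frequently (Eventually.of_forall fun n => ?_))
    rw [hzy (κ n)]
    exact hyl (κ n)
  have hlc : AnalyticAt ℂ (fun t => l (c i t)) z₀ := by
    refine AnalyticAt.fun_comp (g := l) (f := c i) ?_ (hc i z₀ (hsub hz₀))
    rw [hcz]
    exact hl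
  have hev : ∀ᶠ t in 𝓝 z₀, l (c i t) = 0 := hlc.frequently_zero_iff_eventually_zero.1 hfreq
  have hder : HasDerivAt (fun t => l (c i t)) (fderiv ℂ l p (deriv (c i) z₀)) z₀ := by
    have h1 : HasFDerivAt l (fderiv ℂ l p) (c i z₀) := by
      rw [hcz]
      exact hl.differentiableAt.hasFDerivAt
    exact h1.comp_hasDerivAt z₀ (hc i z₀ (hsub hz₀)).differentiableAt.hasDerivAt
  have hd0 : fderiv ℂ l p (deriv (c i) z₀) = 0 := by
    have h1 : deriv (fun t => l (c i t)) z₀ = 0 := by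
      have h2 : (fun t => l (c i t)) =ᶠ[𝓝 z₀] fun _ => 0 := hev
      rw [h2.deriv_eq, deriv_const]
    rw [← hder.deriv, h1]
  have hX : deriv (fun t => (c i t).1) z₀ = (deriv (c i) z₀).1 :=
    ((ContinuousLinearMap.fst ℂ ℂ ℂ).hasFDerivAt.comp_hasDerivAt z₀ (hc i z₀ (hsub hz₀)).differentiableAt.hasDerivAt).deriv
  apply hp i hp0 z₀ hz₀ hcz
  rw [hX]
  have h1 : deriv (c i) z₀ = (deriv (c i) z₀).1 • ((1 : ℂ), (0 : ℂ)) + (deriv (c i) z₀).2 • ((0 : ℂ), (1 : ℂ)) := by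
    ext <;> simp
  rw [h1, map_add, map_smul, map_smul, hv, smul_zero, add_zero, smul_eq_mul] at hd0
  exact (mul_eq_zero.1 hd0).resolve_right ha

/-- the coordinates are such that `ρ (0, y)` is not identically zero -/
theorem equ_main {ρ : ℂ × ℂ → ℂ} (hρ : AnalyticAt ℂ ρ 0) (h : ∀ᶠ y in 𝓝[≠] (0 : ℂ), ρ (0, y) ≠ 0) {Z : Set (ℂ × ℂ)}
    (hZ : ∀ᶠ p in 𝓝 (0 : ℂ × ℂ), p ≠ 0 → (∀ᶠ w in 𝓝 p, w ∉ Z) ∨ ∃ l : ℂ × ℂ → ℂ, AnalyticAt ℂ l p ∧ l p = 0 ∧ fderiv ℂ l p ≠ 0 ∧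
      ∀ᶠ w in 𝓝 p, (w ∈ Z ↔ l w = 0) ∧ (l w = 0 → ρ w = 0)) :
    ∃ g : ℂ × ℂ → ℂ, AnalyticAt ℂ g 0 ∧ (∃ᶠ p in 𝓝 (0 : ℂ × ℂ), g p ≠ 0) ∧
      ∀ᶠ p in 𝓝 (0 : ℂ × ℂ), p ≠ 0 → (g p = 0 ↔ p ∈ Z) ∧ (g p = 0 → fderiv ℂ g p ≠ 0) := by
  obtain ⟨δ₁, hδ₁, hball⟩ := Metric.eventually_nhds_iff_ball.1 (hZ.and ((equ_no_vert hρ h).and hρ.eventually_analyticAt))
  obtain ⟨δ₂, hδ₂, hball2⟩ := Metric.eventually_nhds_iff_ball.1 (eventually_nhdsWithin_iff.mp h)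
  set r : ℝ := min δ₁ δ₂ / 2 with hr
  have hr0 : 0 < r := by
    have := lt_min hδ₁ hδ₂
    rw [hr]
    linarith
  have hr1 : r < δ₁ := by
    have := min_le_left δ₁ δ₂
    have := lt_min hδ₁ hδ₂
    rw [hr]
    linarith
  have hr2 : r < δ₂ := by
    have := min_le_right δ₁ δ₂
    have := lt_min hδ₁ hδ₂
    rw [hr]
    linarith
  have hρ0 : ∀ y : ℂ, y ≠ 0 → ‖y‖ ≤ r → ρ (0, y) ≠ 0 := fun y hy hyr => hball2 y (by
    rw [mem_ball, dist_zero_right]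
    exact lt_of_le_of_lt hyr hr2) hy
  have hsph : ∀ᶠ x in 𝓝 (0 : ℂ), ∀ y ∈ sphere (0 : ℂ) r, ρ (x, y) ≠ 0 := by
    refine (isCompact_sphere (0 : ℂ) r).eventually_forall_of_forall_eventually fun y hy => ?_
    have hyr : ‖y‖ = r := mem_sphere_zero_iff_norm.1 hy
    have hy0 : y ≠ 0 := fun h0 => by
      rw [h0, norm_zero] at hyr
      linarith
    have h1 : ContinuousAt ρ (0, y) := (hball (0, y) (by
      rw [mem_ball, dist_zero_right, Prod.norm_def, norm_zero, hyr]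
      exact max_lt hδ₁ hr1)).2.2.continuousAt
    exact h1.eventually_ne (hρ0 y hy0 hyr.le)
  obtain ⟨s₀, hs₀, hs₁⟩ := Metric.eventually_nhds_iff_ball.1 hsph
  set s : ℝ := min s₀ δ₁ with hs
  have hin : ∀ x y : ℂ, ‖x‖ < s → ‖y‖ ≤ r → ((x, y) : ℂ × ℂ) ∈ ball (0 : ℂ × ℂ) δ₁ := by
    intro x y hx hy
    rw [mem_ball, dist_zero_right, Prod.norm_def]
    exact max_lt (lt_of_lt_of_le hx (min_le_right _ _)) (lt_of_le_of_lt hy hr1)
  refine equ_poly (Z := Z) (lt_min hs₀ hδ₁) hr0 (fun x y hx hxs hyr => ?_) (fun y hy hyr => ?_)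
  · have hp := hball (x, y) (hin x y hxs hyr)
    have hp0 : ((x, y) : ℂ × ℂ) ≠ 0 := fun h0 => hx (congrArg Prod.fst h0)
    rcases hp.1 hp0 with h1 | ⟨l, hl, hl0, hdl, hlZ⟩
    · exact Or.inl h1
    · right
      have hρp : ρ (x, y) = 0 := hlZ.self_of_nhds.2 hl0
      have hyr' : ‖y‖ < r := by
        refine lt_of_le_of_ne hyr fun h0 => ?_
        exact hs₁ x (by
          rw [mem_ball, dist_zero_right]
          exact lt_of_lt_of_le hxs (min_le_left _ _)) y (mem_sphere_zero_iff_norm.2 h0) hρp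
      have hvt := hp.2.1 hp0 l hl hl0 hdl (hlZ.mono fun w hw => hw.2)
      obtain ⟨φ, hφ, hφ0, hφl⟩ := Equ_graph hl hl0 hvt
      refine ⟨hyr', φ, hφ, hφ0, ?_⟩
      filter_upwards [hlZ, hφl] with w h2 h3
      rw [h2.1, h3]
      exact eq_comm
  · have hp := hball (0, y) (hin 0 y (by rw [norm_zero]; exact lt_min hs₀ hδ₁) hyr)
    have hp0 : (((0 : ℂ), y) : ℂ × ℂ) ≠ 0 := fun h0 => hy (congrArg Prod.snd h0)
    rcases hp.1 hp0 with h1 | ⟨l, hl, hl0, hdl, hlZ⟩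
    · exact h1
    · exact absurd (hlZ.self_of_nhds.2 hl0) (hρ0 y hy hyr)

/-- module Equ: the reduced equation of a part of the zeros of `ρ` -/
theorem exists_equ {ρ : ℂ × ℂ → ℂ} (hρ : AnalyticAt ℂ ρ 0) (hρ0 : ∃ᶠ p in 𝓝 (0 : ℂ × ℂ), ρ p ≠ 0) {Z : Set (ℂ × ℂ)}
    (hZ : ∀ᶠ p in 𝓝 (0 : ℂ × ℂ), p ≠ 0 → (∀ᶠ w in 𝓝 p, w ∉ Z) ∨ ∃ l : ℂ × ℂ → ℂ, AnalyticAt ℂ l p ∧ l p = 0 ∧ fderiv ℂ l p ≠ 0 ∧
      ∀ᶠ w in 𝓝 p, (w ∈ Z ↔ l w = 0) ∧ (l w = 0 → ρ w = 0)) :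
    ∃ g : ℂ × ℂ → ℂ, AnalyticAt ℂ g 0 ∧ (∃ᶠ p in 𝓝 (0 : ℂ × ℂ), g p ≠ 0) ∧
      ∀ᶠ p in 𝓝 (0 : ℂ × ℂ), p ≠ 0 → (g p = 0 ↔ p ∈ Z) ∧ (g p = 0 → fderiv ℂ g p ≠ 0) := by
  have hline : ∀ v : ℂ × ℂ, AnalyticAt ℂ (fun z : ℂ => ρ (z • v)) 0 := by
    intro v
    refine AnalyticAt.fun_comp (g := ρ) (f := fun z : ℂ => z • v) ?_ (by fun_prop)
    rw [zero_smul]
    exact hρ
  obtain ⟨v, hv, hvρ⟩ : ∃ v : ℂ × ℂ, v ≠ 0 ∧ ∀ᶠ z in 𝓝[≠] (0 : ℂ), ρ (z • v) ≠ 0 := by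
    obtain ⟨m, v, hm⟩ := Pool.Agent.H17BP.exists_slice_of_ne hρ (fun h0 => hρ0 (h0.mono fun p hp => not_not.2 hp))
    have h1 : ∀ᶠ z in 𝓝[≠] (0 : ℂ), ρ (z • v) ≠ 0 := by
      rcases (hline v).eventually_eq_zero_or_eventually_ne_zero with h1 | h1
      · exfalso
        have h2 : analyticOrderAt (fun z : ℂ => ρ (z * v.1, z * v.2)) 0 = ⊤ := analyticOrderAt_eq_top.2 h1
        rw [h2] at hm
        exact absurd hm (by simp)
      · exact h1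
    by_cases hv : v = 0
    · have h2 : ρ 0 ≠ 0 := by
        obtain ⟨z, hz⟩ := h1.exists
        rwa [hv, smul_zero] at hz
      refine ⟨(0, 1), by simp, ?_⟩
      have h3 : ContinuousAt (fun z : ℂ => ρ (z • ((0 : ℂ), (1 : ℂ)))) 0 := (hline _).continuousAt
      exact (h3.eventually_ne (by rwa [zero_smul])).filter_mono nhdsWithin_le_nhds
    · exact ⟨v, hv, h1⟩
  obtain ⟨A, hA⟩ := SeparatingDual.exists_continuousLinearEquiv_apply_eq (R := ℂ) (x := ((0 : ℂ), (1 : ℂ))) (y := v) (by simp) hv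
  have hA0 : Tendsto A (𝓝 0) (𝓝 0) := by
    have h1 := A.continuous.tendsto 0
    rwa [map_zero] at h1
  have hS0 : Tendsto A.symm (𝓝 0) (𝓝 0) := by
    have h1 := A.symm.continuous.tendsto 0
    rwa [map_zero] at h1
  have hAan : ∀ p, AnalyticAt ℂ A p := fun p => A.toContinuousLinearMap.analyticAt p
  have hSan : ∀ p, AnalyticAt ℂ A.symm p := fun p => A.symm.toContinuousLinearMap.analyticAt p
  obtain ⟨g, hg, hgf, hgZ⟩ := equ_main (ρ := fun w => ρ (A w)) (Z := {w | A w ∈ Z}) (by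
      refine AnalyticAt.fun_comp (g := ρ) (f := A) ?_ (hAan 0)
      rw [map_zero]
      exact hρ) (by
      filter_upwards [hvρ] with y hy
      have h1 : ((0 : ℂ), y) = y • ((0 : ℂ), (1 : ℂ)) := by simp
      rw [h1, map_smul, hA]
      exact hy) (by
      filter_upwards [hA0.eventually hZ] with p hp hp0
      have hAp0 : A p ≠ 0 := fun h0 => hp0 (A.map_eq_zero_iff.1 h0)
      have hAc : Tendsto A (𝓝 p) (𝓝 (A p)) := A.continuous.tendsto p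
      rcases hp hAp0 with h1 | ⟨l, hl, hl0, hdl, hlZ⟩
      · exact Or.inl (hAc.eventually h1)
      · refine Or.inr ⟨fun w => l (A w), AnalyticAt.fun_comp (g := l) (f := A) hl (hAan p), hl0, fun h0 => hdl ?_, hAc.eventually hlZ⟩
        have h2 : HasFDerivAt (fun w => l (A w)) ((fderiv ℂ l (A p)).comp (A : (ℂ × ℂ) →L[ℂ] (ℂ × ℂ))) p :=
          hl.differentiableAt.hasFDerivAt.comp p A.hasFDerivAt
        rw [h2.fderiv] at h0
        refine ContinuousLinearMap.ext fun w => ?_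
        have h3 := congrArg (fun L : (ℂ × ℂ) →L[ℂ] ℂ => L (A.symm w)) h0
        simpa using h3)
  refine ⟨fun w => g (A.symm w), ?_, ?_, ?_⟩
  · refine AnalyticAt.fun_comp (g := g) (f := A.symm) ?_ (hSan 0)
    rw [map_zero]
    exact hg
  · have h1 : ∃ᶠ p in 𝓝 (0 : ℂ × ℂ), g (A.symm (A p)) ≠ 0 := hgf.mono fun p hp => by rwa [A.symm_apply_apply]
    exact hA0.frequently h1
  · filter_upwards [hS0.eventually (hgZ.and hg.eventually_analyticAt)] with p hp hp0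
    have hSp0 : A.symm p ≠ 0 := fun h0 => hp0 (A.symm.map_eq_zero_iff.1 h0)
    obtain ⟨h1, h2⟩ := hp.1 hSp0
    have h3 : A.symm p ∈ {w | A w ∈ Z} ↔ p ∈ Z := by
      rw [Set.mem_ofPred_eq, A.apply_symm_apply]
    refine ⟨h1.trans h3, fun h4 h5 => h2 h4 ?_⟩
    have h6 : HasFDerivAt (fun w => g (A.symm w)) ((fderiv ℂ g (A.symm p)).comp (A.symm : (ℂ × ℂ) →L[ℂ] (ℂ × ℂ))) p :=
      hp.2.differentiableAt.hasFDerivAt.comp p A.symm.hasFDerivAt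
    rw [h6.fderiv] at h5
    refine ContinuousLinearMap.ext fun w => ?_
    have h7 := congrArg (fun L : (ℂ × ℂ) →L[ℂ] ℂ => L (A w)) h5
    simpa using h7

end Pool.Agent.MQ2
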