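import Pool.Agent.MQ3.Hank
import Pool.Agent.H22.HF.Div
import Pool.Agent.H22.HF.Fac

/-!
# MQ2 EquA: the zeros of an analytic family of functions of one variable

`equ_fam`: the number of zeros in a disc and their power sums.  `equ_root`: Hurwitz, and analyticity of a zero which is locally the only one (multiplicities are
allowed).  `equ_card`: the number of distinct zeros of `φ (x, ·)` is constant for small `x ≠ 0`.
-/

set_option autoImplicit false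

open Topology Filter Metric

noncomputable section

namespace Pool.Agent.MQ2

open Pool.Agent.H22.HF

/-- the zeros of `φ (x, ·)` in the disc, for `x` near `x₀` -/
theorem equ_fam {φ : ℂ × ℂ → ℂ} {x₀ y₀ : ℂ} {ε : ℝ} (hε : 0 < ε) (ha : ∀ t ∈ closedBall y₀ ε, AnalyticAt ℂ φ (x₀, t))
    (hn : ∀ t ∈ sphere y₀ ε, φ (x₀, t) ≠ 0) :
    ∃ (ν : ℕ) (s : ℕ → ℂ → ℂ), (∀ k, AnalyticAt ℂ (s k) x₀) ∧ ∀ᶠ x in 𝓝 x₀, ∃ r : Fin ν → ℂ, (∀ i, ‖r i - y₀‖ < ε) ∧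
      (∀ t, ‖t - y₀‖ ≤ ε → (φ (x, t) = 0 ↔ ∃ i, t = r i)) ∧ ∀ k, s k x = ∑ i, r i ^ k := by
  have h2pi : (2 * Real.pi * Complex.I : ℂ) ≠ 0 := Complex.two_pi_I_ne_zero
  set ψ : ℂ × ℂ → ℂ := fun p => φ (p.1, y₀ + p.2) with hψ
  have hsh : ∀ (x t : ℂ), AnalyticAt ℂ φ (x, y₀ + t) → AnalyticAt ℂ ψ (x, t) := by
    intro x t h
    have h1 : AnalyticAt ℂ (fun p : ℂ × ℂ => ((p.1, y₀ + p.2) : ℂ × ℂ)) (x, t) := analyticAt_fst.prod (analyticAt_const.add analyticAt_snd)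
    exact AnalyticAt.comp (g := φ) (f := fun p : ℂ × ℂ => ((p.1, y₀ + p.2) : ℂ × ℂ)) (x := (x, t)) h h1
  have hmem : ∀ t ∈ closedBall (0 : ℂ) ε, y₀ + t ∈ closedBall y₀ ε := by
    intro t ht
    rw [mem_closedBall, dist_eq_norm, add_sub_cancel_left]
    rwa [mem_closedBall_zero_iff] at ht
  have hmem' : ∀ t ∈ sphere (0 : ℂ) ε, y₀ + t ∈ sphere y₀ ε := by
    intro t ht
    rw [mem_sphere, dist_eq_norm, add_sub_cancel_left]
    rwa [mem_sphere_zero_iff_norm] at ht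
  have ha' : ∀ t ∈ closedBall (0 : ℂ) ε, AnalyticAt ℂ ψ (x₀, t) := fun t ht => hsh _ _ (ha _ (hmem t ht))
  have hn' : ∀ t ∈ sphere (0 : ℂ) ε, ψ (x₀, t) ≠ 0 := fun t ht => hn _ (hmem' t ht)
  have hev1 : ∀ᶠ x in 𝓝 x₀, ∀ t ∈ closedBall (0 : ℂ) ε, AnalyticAt ℂ ψ (x, t) :=
    (isCompact_closedBall (0 : ℂ) ε).eventually_forall_of_forall_eventually fun t ht => (ha' t ht).eventually_analyticAt
  have hev2 : ∀ᶠ x in 𝓝 x₀, ∀ t ∈ sphere (0 : ℂ) ε, ψ (x, t) ≠ 0 :=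
    (isCompact_sphere (0 : ℂ) ε).eventually_forall_of_forall_eventually fun t ht =>
      (ha' t (sphere_subset_closedBall ht)).continuousAt.eventually_ne (hn' t ht)
  set s : ℕ → ℂ → ℂ := fun k x => (2 * Real.pi * Complex.I)⁻¹ * ∮ t in C(0, ε), (y₀ + t) ^ k * fderiv ℂ ψ (x, t) (0, 1) / ψ (x, t) with hs
  have hsa : ∀ k, AnalyticAt ℂ (s k) x₀ := by
    intro k
    refine analyticAt_const.mul (analyticAt_circleIntegral (F := fun z : ℂ × ℂ => (y₀ + z.2) ^ k * fderiv ℂ ψ z (0, 1) / ψ z) hε ?_)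
    intro t ht
    have h1 := ha' t (sphere_subset_closedBall ht)
    refine (((analyticAt_const.add analyticAt_snd).pow k).mul ?_).div h1 (hn' t ht)
    exact (ContinuousLinearMap.analyticAt (ContinuousLinearMap.apply ℂ ℂ ((0, 1) : ℂ × ℂ)) _).comp h1.fderiv
  -- the zeros for one `x`
  have key : ∀ x, (∀ t ∈ closedBall (0 : ℂ) ε, AnalyticAt ℂ ψ (x, t)) → (∀ t ∈ sphere (0 : ℂ) ε, ψ (x, t) ≠ 0) →
      ∃ (ν : ℕ) (r : Fin ν → ℂ), (∀ i, ‖r i - y₀‖ < ε) ∧ (∀ t, ‖t - y₀‖ ≤ ε → (φ (x, t) = 0 ↔ ∃ i, t = r i)) ∧ ∀ k, s k x = ∑ i, r i ^ k := by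
    intro x h1 h2
    have hin : ∀ t : ℂ, AnalyticAt ℂ (fun t : ℂ => ((x, t) : ℂ × ℂ)) t := fun t => analyticAt_const.prod analyticAt_id
    have h3 : ∀ t ∈ closedBall (0 : ℂ) ε, AnalyticAt ℂ (fun t => ψ (x, t)) t := fun t ht =>
      AnalyticAt.comp (g := ψ) (f := fun t : ℂ => ((x, t) : ℂ × ℂ)) (h1 t ht) (hin t)
    obtain ⟨ν, r, w, hr, hw, hfac⟩ := exists_fac hε h3 h2
    refine ⟨ν, fun i => y₀ + r i, fun i => by simpa using hr i, ?_, fun k => ?_⟩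
    · intro t ht
      have ht' : t - y₀ ∈ closedBall (0 : ℂ) ε := by rwa [mem_closedBall_zero_iff]
      have h4 := (hfac _ ht').self_of_nhds
      simp only [hψ, add_sub_cancel] at h4
      rw [h4, mul_eq_zero, or_iff_left (hw _ ht').2, Finset.prod_eq_zero_iff]
      constructor
      · rintro ⟨i, -, hi⟩
        refine ⟨i, ?_⟩
        show t = y₀ + r i
        rw [← sub_eq_zero.1 hi]
        ring
      · rintro ⟨i, hi⟩
        refine ⟨i, Finset.mem_univ i, ?_⟩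
        have hi' : t = y₀ + r i := hi
        rw [hi']
        ring
    · have h4 := power_sum (H := fun t => (y₀ + t) ^ k) hε hr hw hfac fun t _ => (analyticAt_const.add analyticAt_id).pow k
      have h5 : (∮ t in C(0, ε), (y₀ + t) ^ k * fderiv ℂ ψ (x, t) (0, 1) / ψ (x, t)) =
          ∮ t in C(0, ε), (y₀ + t) ^ k * deriv (fun t => ψ (x, t)) t / ψ (x, t) := by
        refine circleIntegral.integral_congr hε.le fun t ht => ?_
        have h6 : HasDerivAt (fun t : ℂ => ((x, t) : ℂ × ℂ)) (0, 1) t := (hasDerivAt_const t x).prodMk (hasDerivAt_id t)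
        have h7 := (h1 t (sphere_subset_closedBall ht)).differentiableAt.hasFDerivAt.comp_hasDerivAt t h6
        have h8 : deriv (fun t => ψ (x, t)) t = fderiv ℂ ψ (x, t) (0, 1) := h7.deriv
        rw [h8]
      show (2 * Real.pi * Complex.I)⁻¹ * _ = _
      rw [h5, h4, ← mul_assoc, inv_mul_cancel₀ h2pi, one_mul]
  obtain ⟨ν, r₀, -, -, hr₀⟩ := key x₀ ha' hn'
  refine ⟨ν, s, hsa, ?_⟩
  have hc : ∀ᶠ x in 𝓝 x₀, ‖s 0 x - s 0 x₀‖ < 1 := by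
    have h1 := (hsa 0).continuousAt.tendsto
    rw [Metric.tendsto_nhds] at h1
    simpa [dist_eq_norm] using h1 1 one_pos
  filter_upwards [hev1, hev2, hc] with x h1 h2 h3
  obtain ⟨μ, r, k1, k2, k3⟩ := key x h1 h2
  have h4 : μ = ν := by
    have h5 := k3 0
    have h6 := hr₀ 0
    simp only [pow_zero, Finset.sum_const, Finset.card_univ, Fintype.card_fin, nsmul_eq_mul, mul_one] at h5 h6
    rw [h5, h6] at h3
    have h7 : ‖(((μ : ℤ) - (ν : ℤ) : ℤ) : ℂ)‖ < 1 := by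
      push_cast
      exact h3
    rw [Complex.norm_intCast] at h7
    have h8 : |(μ : ℤ) - (ν : ℤ)| < 1 := by exact_mod_cast h7
    have h9 := Int.abs_lt_one_iff.1 h8
    omega
  subst h4
  exact ⟨r, k1, k2, k3⟩

/-- a zero of `φ (x₀, ·)`: Hurwitz, and the analytic dependence on `x` if it is the only zero near `y₀` -/
theorem equ_root {φ : ℂ × ℂ → ℂ} {x₀ y₀ : ℂ} (ha : AnalyticAt ℂ φ (x₀, y₀)) (h0 : φ (x₀, y₀) = 0) (hn : ∀ᶠ t in 𝓝[≠] y₀, φ (x₀, t) ≠ 0) {ε₀ : ℝ}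
    (hε₀ : 0 < ε₀) : ∃ ε, 0 < ε ∧ ε ≤ ε₀ ∧ (∀ᶠ x in 𝓝 x₀, ∃ t, ‖t - y₀‖ < ε ∧ φ (x, t) = 0) ∧
      ((∀ᶠ x in 𝓝 x₀, ∀ t t', ‖t - y₀‖ < ε → ‖t' - y₀‖ < ε → φ (x, t) = 0 → φ (x, t') = 0 → t = t') →
        ∃ η : ℂ → ℂ, AnalyticAt ℂ η x₀ ∧ η x₀ = y₀ ∧ ∀ᶠ x in 𝓝 x₀, ∀ t, ‖t - y₀‖ < ε → (φ (x, t) = 0 ↔ t = η x)) := by
  -- the radius
  have h1 : ∀ᶠ t in 𝓝 y₀, AnalyticAt ℂ φ (x₀, t) := by
    have h2 : Tendsto (fun t : ℂ => ((x₀, t) : ℂ × ℂ)) (𝓝 y₀) (𝓝 (x₀, y₀)) := (Continuous.prodMk_right x₀).tendsto y₀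
    exact h2.eventually ha.eventually_analyticAt
  rw [eventually_nhdsWithin_iff] at hn
  obtain ⟨ρ, hρ, hb⟩ := Metric.eventually_nhds_iff_ball.1 (h1.and hn)
  set ε := min (ρ / 2) ε₀ with hε
  have hεp : 0 < ε := lt_min (by linarith) hε₀
  have hερ : ε < ρ := lt_of_le_of_lt (min_le_left _ _) (by linarith)
  have hcb : ∀ t ∈ closedBall y₀ ε, t ∈ ball y₀ ρ := fun t ht => lt_of_le_of_lt ht hερ
  obtain ⟨ν, s, hsa, hs⟩ := equ_fam hεp (fun t ht => (hb t (hcb t ht)).1) (fun t ht => (hb t (hcb t (sphere_subset_closedBall ht))).2 (by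
    rintro rfl
    rw [mem_sphere, dist_self] at ht
    exact hεp.ne ht))
  -- there is a zero
  have hν : ν ≠ 0 := by
    rintro rfl
    obtain ⟨r, -, k2, -⟩ := hs.self_of_nhds
    obtain ⟨i, -⟩ := (k2 y₀ (by simpa using hεp.le)).1 h0
    exact i.elim0
  have : NeZero ν := ⟨hν⟩
  refine ⟨ε, hεp, min_le_right _ _, ?_, fun hu => ?_⟩
  · filter_upwards [hs] with x hx
    obtain ⟨r, k1, k2, -⟩ := hx
    exact ⟨r 0, k1 0, (k2 _ (k1 0).le).2 ⟨0, rfl⟩⟩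
  · have hνc : (ν : ℂ) ≠ 0 := Nat.cast_ne_zero.2 hν
    have key : ∀ᶠ x in 𝓝 x₀, ∀ t, ‖t - y₀‖ < ε → (φ (x, t) = 0 ↔ t = s 1 x / ν) := by
      filter_upwards [hs, hu] with x hx hux t ht
      obtain ⟨r, k1, k2, k3⟩ := hx
      have h2 : ∀ i, r i = r 0 := fun i => hux _ _ (k1 i) (k1 0) ((k2 _ (k1 i).le).2 ⟨i, rfl⟩) ((k2 _ (k1 0).le).2 ⟨0, rfl⟩)
      have h3 : s 1 x / ν = r 0 := by
        rw [k3 1, div_eq_iff hνc]
        simp only [pow_one, h2, Finset.sum_const, Finset.card_univ, Fintype.card_fin, nsmul_eq_mul]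
        ring
      rw [h3, k2 _ ht.le]
      constructor
      · rintro ⟨i, hi⟩
        rw [hi, h2 i]
      · intro h
        exact ⟨0, h⟩
    refine ⟨fun x => s 1 x / ν, (hsa 1).div_const, ?_, key⟩
    exact ((key.self_of_nhds y₀ (by simpa using hεp)).1 h0).symm

/-- the number of distinct zeros in a disc is constant for small `x ≠ 0` -/
theorem equ_card {φ : ℂ × ℂ → ℂ} {R : ℝ} (hR : 0 < R) (ha : ∀ t ∈ closedBall (0 : ℂ) R, AnalyticAt ℂ φ (0, t)) (hn : ∀ t ∈ sphere (0 : ℂ) R, φ (0, t) ≠ 0) :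
    (∀ᶠ x in 𝓝 (0 : ℂ), {t : ℂ | ‖t‖ < R ∧ φ (x, t) = 0}.Finite) ∧
    ∃ N : ℕ, ∀ᶠ x in 𝓝[≠] (0 : ℂ), {t : ℂ | ‖t‖ < R ∧ φ (x, t) = 0}.ncard = N := by
  classical
  obtain ⟨ν, s, hsa, hs⟩ := equ_fam hR ha hn
  have hs' : ∀ᶠ x in 𝓝 (0 : ℂ), ∃ r : Fin ν → ℂ, {t : ℂ | ‖t‖ < R ∧ φ (x, t) = 0} = ((Finset.univ.image r : Finset ℂ) : Set ℂ) ∧ ∀ k, s k x = ∑ i, r i ^ k := by
    filter_upwards [hs] with x hx
    obtain ⟨r, k1, k2, k3⟩ := hx
    simp only [sub_zero] at k1 k2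
    refine ⟨r, ?_, k3⟩
    ext t
    simp only [Set.mem_ofPred_eq, Finset.coe_image, Finset.coe_univ, Set.image_univ, Set.mem_range]
    constructor
    · rintro ⟨h1, h2⟩
      obtain ⟨i, hi⟩ := (k2 t h1.le).1 h2
      exact ⟨i, hi.symm⟩
    · rintro ⟨i, rfl⟩
      exact ⟨k1 i, (k2 _ (k1 i).le).2 ⟨i, rfl⟩⟩
  refine ⟨hs'.mono fun x ⟨r, hr, _⟩ => by rw [hr]; exact Finset.finite_toSet _, ?_⟩
  have hle : ∀ᶠ x in 𝓝[≠] (0 : ℂ), {t : ℂ | ‖t‖ < R ∧ φ (x, t) = 0}.ncard ≤ ν := by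
    filter_upwards [nhdsWithin_le_nhds hs'] with x hx
    obtain ⟨r, hr, -⟩ := hx
    rw [hr, Set.ncard_coe_finset]
    exact Finset.card_image_le.trans (by simp)
  -- induction
  have key : ∀ m : ℕ, (∀ᶠ x in 𝓝[≠] (0 : ℂ), {t : ℂ | ‖t‖ < R ∧ φ (x, t) = 0}.ncard ≤ m) →
      ∃ N : ℕ, ∀ᶠ x in 𝓝[≠] (0 : ℂ), {t : ℂ | ‖t‖ < R ∧ φ (x, t) = 0}.ncard = N := by
    intro m
    induction m with
    | zero =>
      intro h
      exact ⟨0, h.mono fun x hx => Nat.le_zero.1 hx⟩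
    | succ m ih =>
      intro h
      by_cases hf : ∃ᶠ x in 𝓝[≠] (0 : ℂ), {t : ℂ | ‖t‖ < R ∧ φ (x, t) = 0}.ncard = m + 1
      · refine ⟨m + 1, ?_⟩
        set D : ℂ → ℂ := fun x => (Matrix.of fun i j : Fin (m + 1) => s ((i : ℕ) + j) x).det with hD
        have hDa : AnalyticAt ℂ D 0 := Pool.Agent.MQ.AJ.det_analytic (A := fun x => Matrix.of fun i j : Fin (m + 1) => s ((i : ℕ) + j) x) fun i j => by
          simp only [Matrix.of_apply]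
          exact hsa _
        have hiff : ∀ᶠ x in 𝓝[≠] (0 : ℂ), D x ≠ 0 ↔ {t : ℂ | ‖t‖ < R ∧ φ (x, t) = 0}.ncard = m + 1 := by
          filter_upwards [h, nhdsWithin_le_nhds hs'] with x hx1 hx2
          obtain ⟨r, hr, hk⟩ := hx2
          rw [hr, Set.ncard_coe_finset] at hx1 ⊢
          rw [← Pool.Agent.MQ3.hankel_iff hx1]
          simp only [hD, hk]
        rcases hDa.eventually_eq_zero_or_eventually_ne_zero with h0 | h0
        · exfalso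
          obtain ⟨x, hx1, hx2, hx3⟩ := (hf.and_eventually (hiff.and (h0.filter_mono nhdsWithin_le_nhds))).exists
          exact hx2.2 hx1 hx3
        · filter_upwards [hiff, h0] with x hx1 hx2
          exact hx1.1 hx2
      · refine ih ?_
        rw [not_frequently] at hf
        filter_upwards [h, hf] with x hx1 hx2
        omega
  exact key ν hle

end Pool.Agent.MQ2
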