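import Pool.Agent.MQ2.EquA

/-!
# MQ2 EquB: the product over the fibres

`equ_unique`: if the number of distinct zeros is locally constant, then they are analytic functions of `x`.  `equ_prod`: finite fibres which are locally the values of
finitely many analytic functions.  `equ_ext`: Riemann's theorem in the variable `x`.
-/

set_option autoImplicit false

open Topology Filter Metric

noncomputable section

namespace Pool.Agent.MQ2

open Pool.Agent.H22.HF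

/-- the zeros are analytic functions of `x` if their number is constant -/
theorem equ_unique {φ : ℂ × ℂ → ℂ} {x₀ : ℂ} {R : ℝ} {N : ℕ} (ha : ∀ t, ‖t‖ < R → AnalyticAt ℂ φ (x₀, t))
    (hN : ∀ᶠ x in 𝓝 x₀, {t : ℂ | ‖t‖ < R ∧ φ (x, t) = 0}.Finite ∧ {t : ℂ | ‖t‖ < R ∧ φ (x, t) = 0}.ncard = N) {y : ℂ} (hy : ‖y‖ < R)
    (hy0 : φ (x₀, y) = 0) : ∃ (ε : ℝ) (η : ℂ → ℂ), 0 < ε ∧ AnalyticAt ℂ η x₀ ∧ η x₀ = y ∧ ∀ᶠ x in 𝓝 x₀, ∀ t, ‖t - y‖ < ε → (φ (x, t) = 0 ↔ t = η x) := by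
  classical
  obtain ⟨hfin, hcard⟩ := hN.self_of_nhds
  set F := hfin.toFinset with hF
  have hFm : ∀ t, t ∈ F ↔ ‖t‖ < R ∧ φ (x₀, t) = 0 := fun t => by rw [hF, Set.Finite.mem_toFinset, Set.mem_ofPred_eq]
  have hFc : F.card = N := by rw [hF, ← Set.ncard_eq_toFinset_card _ hfin, hcard]
  -- the separation
  obtain ⟨d, hd, hd1, hd2⟩ : ∃ d : ℝ, 0 < d ∧ (∀ y ∈ F, ∀ y' ∈ F, y ≠ y' → 2 * d ≤ ‖y - y'‖) ∧ ∀ y ∈ F, ‖y‖ + d ≤ R := by
    have h1 : ∀ᶠ d in 𝓝[>] (0 : ℝ), ∀ y ∈ F, ∀ y' ∈ F, y ≠ y' → 2 * d ≤ ‖y - y'‖ := by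
      refine (Finset.eventually_all F).2 fun y _ => (Finset.eventually_all F).2 fun y' _ => ?_
      by_cases hyy : y = y'
      · exact Eventually.of_forall fun d h => absurd hyy h
      · have h2 : 0 < ‖y - y'‖ / 2 := by
          have := norm_pos_iff.2 (sub_ne_zero.2 hyy)
          linarith
        filter_upwards [nhdsWithin_le_nhds (Iio_mem_nhds h2)] with d hd _
        have : d < ‖y - y'‖ / 2 := hd
        linarith
    have h3 : ∀ᶠ d in 𝓝[>] (0 : ℝ), ∀ y ∈ F, ‖y‖ + d ≤ R := by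
      refine (Finset.eventually_all F).2 fun y hy => ?_
      have h2 : 0 < R - ‖y‖ := by
        have := ((hFm y).1 hy).1
        linarith
      filter_upwards [nhdsWithin_le_nhds (Iio_mem_nhds h2)] with d hd
      have : d < R - ‖y‖ := hd
      linarith
    obtain ⟨d, h4, h5, h6⟩ := (self_mem_nhdsWithin (s := Set.Ioi (0 : ℝ)) (a := 0) |> fun h => (h1.and (h3.and h))).exists
    exact ⟨d, h6, h4, h5⟩
  -- isolated zeros
  have hiso : ∀ y ∈ F, ∀ᶠ t in 𝓝[≠] y, φ (x₀, t) ≠ 0 := by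
    intro y hy
    rw [eventually_nhdsWithin_iff]
    filter_upwards [ball_mem_nhds y hd] with t ht hty h0
    rw [mem_ball, dist_eq_norm] at ht
    have h1 : ‖t‖ < R := by
      have h2 := hd2 y hy
      calc ‖t‖ = ‖y + (t - y)‖ := by rw [add_sub_cancel]
        _ ≤ ‖y‖ + ‖t - y‖ := norm_add_le _ _
        _ < R := by linarith
    have h2 := hd1 t ((hFm t).2 ⟨h1, h0⟩) y hy hty
    linarith [norm_nonneg (t - y)]
  have hroot : ∀ y ∈ F, ∃ ε, 0 < ε ∧ ε ≤ d ∧ (∀ᶠ x in 𝓝 x₀, ∃ t, ‖t - y‖ < ε ∧ φ (x, t) = 0) ∧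
      ((∀ᶠ x in 𝓝 x₀, ∀ t t', ‖t - y‖ < ε → ‖t' - y‖ < ε → φ (x, t) = 0 → φ (x, t') = 0 → t = t') →
        ∃ η : ℂ → ℂ, AnalyticAt ℂ η x₀ ∧ η x₀ = y ∧ ∀ᶠ x in 𝓝 x₀, ∀ t, ‖t - y‖ < ε → (φ (x, t) = 0 ↔ t = η x)) := fun y hy =>
    equ_root (ha y ((hFm y).1 hy).1) ((hFm y).1 hy).2 (hiso y hy) hd
  have hyF : y ∈ F := (hFm y).2 ⟨hy, hy0⟩
  -- pigeonhole
  have hall : ∀ᶠ x in 𝓝 x₀, ∀ y ∈ F, ∃ t, ‖t - y‖ < d ∧ φ (x, t) = 0 := by
    refine (Finset.eventually_all F).2 fun y hy => ?_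
    obtain ⟨ε, -, h2, h3, -⟩ := hroot y hy
    filter_upwards [h3] with x hx
    obtain ⟨t, ht, ht'⟩ := hx
    exact ⟨t, ht.trans_le h2, ht'⟩
  have huniq : ∀ᶠ x in 𝓝 x₀, ∀ t t', ‖t - y‖ < d → ‖t' - y‖ < d → φ (x, t) = 0 → φ (x, t') = 0 → t = t' := by
    filter_upwards [hall, hN] with x hx hxN
    obtain ⟨hxf, hxc⟩ := hxN
    choose! z hz1 hz2 using hx
    have hzR : ∀ y ∈ F, ∀ t, ‖t - y‖ < d → ‖t‖ < R := by
      intro y hy t ht
      have h2 := hd2 y hy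
      calc ‖t‖ = ‖y + (t - y)‖ := by rw [add_sub_cancel]
        _ ≤ ‖y‖ + ‖t - y‖ := norm_add_le _ _
        _ < R := by linarith
    have hclose : ∀ y ∈ F, ∀ y' ∈ F, ∀ t, ‖t - y‖ < d → ‖t - y'‖ < d → y = y' := by
      intro y hy y' hy' t h1 h2
      by_contra hne
      have h3 := hd1 y hy y' hy' hne
      have h4 : ‖y - y'‖ ≤ ‖t - y'‖ + ‖t - y‖ := by
        calc ‖y - y'‖ = ‖(t - y') - (t - y)‖ := by
              congr 1
              ring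
          _ ≤ _ := norm_sub_le _ _
      linarith
    have hinj : Set.InjOn z F := by
      intro y hy y' hy' hyy
      refine hclose y hy y' hy' (z y) (hz1 y hy) ?_
      rw [hyy]
      exact hz1 y' hy'
    have himg : ((F.image z : Finset ℂ) : Set ℂ) = {t : ℂ | ‖t‖ < R ∧ φ (x, t) = 0} := by
      refine Set.eq_of_subset_of_ncard_le ?_ ?_ hxf
      · intro t ht
        rw [Finset.coe_image] at ht
        obtain ⟨y, hy, rfl⟩ := ht
        exact ⟨hzR y hy _ (hz1 y hy), hz2 y hy⟩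
      · rw [hxc, Set.ncard_coe_finset, Finset.card_image_of_injOn hinj, hFc]
    have hone : ∀ t, ‖t - y‖ < d → φ (x, t) = 0 → t = z y := by
      intro t ht h0
      have h1 : t ∈ {t : ℂ | ‖t‖ < R ∧ φ (x, t) = 0} := ⟨hzR y hyF t ht, h0⟩
      rw [← himg, Finset.coe_image] at h1
      obtain ⟨y', hy', rfl⟩ := h1
      rw [hclose y hyF y' hy' (z y') ht (hz1 y' hy')]
    intro t t' h1 h2 h3 h4
    rw [hone t h1 h3, hone t' h2 h4]
  obtain ⟨ε, h1, h2, -, h4⟩ := hroot y hyF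
  obtain ⟨η, e1, e2, e3⟩ := h4 (huniq.mono fun x hx t t' k1 k2 k3 k4 => hx t t' (k1.trans_le h2) (k2.trans_le h2) k3 k4)
  exact ⟨ε, η, h1, e1, e2, e3⟩

/-- the fibres are locally the values of finitely many analytic functions -/
theorem equ_prod {Y : ℂ → Set ℂ} {x₀ : ℂ} {R : ℝ} (hfin : (Y x₀).Finite) (hR : ∀ᶠ x in 𝓝 x₀, ∀ t ∈ Y x, ‖t‖ ≤ R)
    (h1 : ∀ y ∈ Y x₀, ∃ (ε : ℝ) (η : ℂ → ℂ), 0 < ε ∧ AnalyticAt ℂ η x₀ ∧ η x₀ = y ∧ ∀ᶠ x in 𝓝 x₀, ∀ t, ‖t - y‖ < ε → (t ∈ Y x ↔ t = η x))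
    (h2 : ∀ t₀, t₀ ∉ Y x₀ → ∀ᶠ w in 𝓝 ((x₀, t₀) : ℂ × ℂ), w.2 ∉ Y w.1) :
    ∃ (T : Finset ℂ) (η : ℂ → ℂ → ℂ), (∀ y ∈ T, AnalyticAt ℂ (η y) x₀) ∧
      ∀ᶠ x in 𝓝 x₀, Set.InjOn (fun y => η y x) T ∧ Y x = (fun y => η y x) '' T := by
  classical
  choose! ε η he1 he2 he3 he4 using h1
  set T := hfin.toFinset with hT
  have hTm : ∀ y, y ∈ T ↔ y ∈ Y x₀ := fun y => by rw [hT, Set.Finite.mem_toFinset]
  refine ⟨T, η, fun y hy => he2 y ((hTm y).1 hy), ?_⟩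
  -- the rest of the disc
  set K := closedBall (0 : ℂ) R \ ⋃ y ∈ T, ball y (ε y) with hK
  have hKc : IsCompact K := (isCompact_closedBall (0 : ℂ) R).diff (isOpen_biUnion fun y _ => isOpen_ball)
  have hKev : ∀ᶠ x in 𝓝 x₀, ∀ t ∈ K, t ∉ Y x := by
    refine hKc.eventually_forall_of_forall_eventually fun t ht => h2 t fun hty => ht.2 ?_
    exact Set.mem_biUnion ((hTm t).2 hty) (mem_ball_self (he1 t hty))
  have hev : ∀ᶠ x in 𝓝 x₀, ∀ y ∈ T, ∀ t, ‖t - y‖ < ε y → (t ∈ Y x ↔ t = η y x) :=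
    (Finset.eventually_all T).2 fun y hy => he4 y ((hTm y).1 hy)
  have hnear : ∀ᶠ x in 𝓝 x₀, ∀ y ∈ T, ‖η y x - y‖ < ε y := by
    refine (Finset.eventually_all T).2 fun y hy => ?_
    have hyY := (hTm y).1 hy
    have h3 : Tendsto (η y) (𝓝 x₀) (𝓝 y) := by
      have := (he2 y hyY).continuousAt.tendsto
      rwa [he3 y hyY] at this
    have h4 := h3.eventually (ball_mem_nhds y (he1 y hyY))
    simpa [dist_eq_norm] using h4
  have hinj : ∀ᶠ x in 𝓝 x₀, ∀ y ∈ T, ∀ y' ∈ T, y ≠ y' → η y x ≠ η y' x := by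
    refine (Finset.eventually_all T).2 fun y hy => (Finset.eventually_all T).2 fun y' hy' => ?_
    by_cases hyy : y = y'
    · exact Eventually.of_forall fun x h => absurd hyy h
    · have h3 := ((he2 y ((hTm y).1 hy)).sub (he2 y' ((hTm y').1 hy'))).continuousAt.eventually_ne (y := 0) (by
        simp only [Pi.sub_apply]
        rw [he3 y ((hTm y).1 hy), he3 y' ((hTm y').1 hy')]
        exact sub_ne_zero.2 hyy)
      filter_upwards [h3] with x hx _ h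
      exact hx (by simp [h])
  filter_upwards [hKev, hev, hnear, hinj, hR] with x k1 k2 k3 k4 k5
  refine ⟨fun y hy y' hy' h => ?_, ?_⟩
  · by_contra hne
    exact k4 y hy y' hy' hne h
  · ext t
    constructor
    · intro ht
      have h3 : t ∉ K := fun h => k1 t h ht
      have h4 : t ∈ ⋃ y ∈ T, ball y (ε y) := by
        by_contra h5
        exact h3 ⟨by rw [mem_closedBall_zero_iff]; exact k5 t ht, h5⟩
      obtain ⟨y, hy, hty⟩ := Set.mem_iUnion₂.1 h4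
      rw [mem_ball, dist_eq_norm] at hty
      exact ⟨y, hy, ((k2 y hy t hty).1 ht).symm⟩
    · rintro ⟨y, hy, rfl⟩
      exact (k2 y hy _ (k3 y hy)).2 rfl

/-- the product over the fibre -/
def fprod (Y : ℂ → Set ℂ) (p : ℂ × ℂ) : ℂ := ∏ᶠ y ∈ Y p.1, (p.2 - y)

theorem fprod_eq {Y : ℂ → Set ℂ} {x : ℂ} {T : Finset ℂ} {η : ℂ → ℂ → ℂ} (h1 : Set.InjOn (fun y => η y x) T) (h2 : Y x = (fun y => η y x) '' T) (t : ℂ) :
    fprod Y (x, t) = ∏ y ∈ T, (t - η y x) := by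
  unfold fprod
  simp only
  rw [h2, finprod_mem_image h1, finprod_mem_coe_finset]

theorem fprod_analytic {Y : ℂ → Set ℂ} {x₀ : ℂ} {T : Finset ℂ} {η : ℂ → ℂ → ℂ} (hη : ∀ y ∈ T, AnalyticAt ℂ (η y) x₀)
    (h : ∀ᶠ x in 𝓝 x₀, Set.InjOn (fun y => η y x) T ∧ Y x = (fun y => η y x) '' T) (t₀ : ℂ) : AnalyticAt ℂ (fprod Y) (x₀, t₀) := by
  have h1 : fprod Y =ᶠ[𝓝 (x₀, t₀)] fun p => ∏ y ∈ T, (p.2 - η y p.1) := by
    have h2 : ∀ᶠ p : ℂ × ℂ in 𝓝 (x₀, t₀), Set.InjOn (fun y => η y p.1) T ∧ Y p.1 = (fun y => η y p.1) '' T :=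
      (continuous_fst.tendsto (x₀, t₀)).eventually h
    filter_upwards [h2] with p hp
    exact fprod_eq hp.1 hp.2 p.2
  refine AnalyticAt.congr ?_ h1.symm
  refine Finset.analyticAt_fun_prod _ fun y hy => ?_
  refine analyticAt_snd.sub ?_
  exact AnalyticAt.comp (g := η y) (f := fun p : ℂ × ℂ => p.1) (x := (x₀, t₀)) (hη y hy) analyticAt_fst

theorem fprod_fin {Y : ℂ → Set ℂ} {x : ℂ} (hf : (Y x).Finite) (t : ℂ) : fprod Y (x, t) = ∏ y ∈ hf.toFinset, (t - y) := by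
  unfold fprod
  exact finprod_mem_eq_finite_toFinset_prod _ hf

theorem fprod_zero {Y : ℂ → Set ℂ} {x : ℂ} (hf : (Y x).Finite) (t : ℂ) : fprod Y (x, t) = 0 ↔ t ∈ Y x := by
  rw [fprod_fin hf, Finset.prod_eq_zero_iff]
  constructor
  · rintro ⟨y, hy, h⟩
    rw [sub_eq_zero.1 h]
    exact (Set.Finite.mem_toFinset hf).1 hy
  · intro h
    exact ⟨t, (Set.Finite.mem_toFinset hf).2 h, sub_self t⟩

/-- the zeros are simple -/
theorem fprod_simple {Y : ℂ → Set ℂ} {x t : ℂ} (hf : (Y x).Finite) (ht : t ∈ Y x) (ha : AnalyticAt ℂ (fprod Y) (x, t)) : fderiv ℂ (fprod Y) (x, t) (0, 1) ≠ 0 := by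
  classical
  have htF : t ∈ hf.toFinset := (Set.Finite.mem_toFinset hf).2 ht
  have h1 : (fun s => fprod Y (x, s)) = fun s => (s - t) * ∏ y ∈ hf.toFinset.erase t, (s - y) := by
    funext s
    rw [fprod_fin hf, Finset.mul_prod_erase hf.toFinset (fun y => s - y) htF]
  have h2 : HasDerivAt (fun s : ℂ => ((x, s) : ℂ × ℂ)) (0, 1) t := (hasDerivAt_const t x).prodMk (hasDerivAt_id t)
  have h3 := ha.differentiableAt.hasFDerivAt.comp_hasDerivAt t h2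
  have h4 : HasDerivAt (fun s => fprod Y (x, s)) (fderiv ℂ (fprod Y) (x, t) (0, 1)) t := h3
  have h5 : DifferentiableAt ℂ (fun s : ℂ => ∏ y ∈ hf.toFinset.erase t, (s - y)) t := by fun_prop
  have h6 := ((hasDerivAt_id t).sub_const t).mul h5.hasDerivAt
  rw [h1] at h4
  have h7 := h4.unique h6
  rw [h7]
  simp only [id, sub_self, zero_mul, add_zero, one_mul]
  rw [Finset.prod_ne_zero_iff]
  intro y hy
  rw [sub_ne_zero]
  exact (Finset.ne_of_mem_erase hy).symm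

/-- Riemann's theorem in the variable `x` -/
theorem equ_ext {f : ℂ × ℂ → ℂ} {δ : ℝ} (hδ : 0 < δ) (hf : ∀ x t, x ≠ 0 → ‖x‖ < δ → AnalyticAt ℂ f (x, t))
    (hb : ∀ t, ∃ C, ∀ x, x ≠ 0 → ‖x‖ < δ → ‖f (x, t)‖ ≤ C) :
    ∃ G : ℂ × ℂ → ℂ, (∀ x t, ‖x‖ < δ / 2 → AnalyticAt ℂ G (x, t)) ∧ ∀ x t, x ≠ 0 → ‖x‖ < δ / 2 → G (x, t) = f (x, t) := by
  have hδ2 : 0 < δ / 2 := by linarith
  have hsph : ∀ ξ ∈ sphere (0 : ℂ) (δ / 2), ξ ≠ 0 ∧ ‖ξ‖ < δ := by
    intro ξ hξ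
    rw [mem_sphere_zero_iff_norm] at hξ
    refine ⟨fun h => ?_, by rw [hξ]; linarith⟩
    rw [h, norm_zero] at hξ
    linarith
  refine ⟨fun p => (2 * Real.pi * Complex.I)⁻¹ * ∮ ξ in C(0, δ / 2), f (ξ, p.2) / (ξ - p.1), fun x t hx => ?_, fun x t hx0 hx => ?_⟩
  · refine analyticAt_const.mul (analyticAt_circleIntegral (F := fun z : (ℂ × ℂ) × ℂ => f (z.2, z.1.2) / (z.2 - z.1.1)) hδ2 fun ξ hξ => ?_)
    obtain ⟨h1, h2⟩ := hsph ξ hξ
    have hpr : AnalyticAt ℂ (fun z : (ℂ × ℂ) × ℂ => ((z.2, z.1.2) : ℂ × ℂ)) ((x, t), ξ) := analyticAt_snd.prod (analyticAt_snd.comp analyticAt_fst)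
    refine (AnalyticAt.comp (g := f) (f := fun z : (ℂ × ℂ) × ℂ => ((z.2, z.1.2) : ℂ × ℂ)) (x := ((x, t), ξ)) (hf ξ t h1 h2) hpr).div
      (analyticAt_snd.sub (analyticAt_fst.comp analyticAt_fst)) ?_
    show ξ - x ≠ 0
    intro h
    rw [sub_eq_zero] at h
    rw [mem_sphere_zero_iff_norm] at hξ
    rw [← h, hξ] at hx
    exact lt_irrefl _ hx
  · obtain ⟨C, hC⟩ := hb t
    set h := Function.update (fun ξ => f (ξ, t)) 0 (limUnder (𝓝[≠] (0 : ℂ)) fun ξ => f (ξ, t)) with hh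
    have hd : DifferentiableOn ℂ h (ball 0 δ) := by
      refine Complex.differentiableOn_update_limUnder_of_bddAbove (ball_mem_nhds _ hδ) (fun ξ hξ => ?_) ⟨C, ?_⟩
      · have h1 : AnalyticAt ℂ f (ξ, t) := hf ξ t hξ.2 (by simpa using hξ.1)
        have h3 : AnalyticAt ℂ (fun ξ : ℂ => ((ξ, t) : ℂ × ℂ)) ξ := analyticAt_id.prod analyticAt_const
        exact (AnalyticAt.comp (g := f) (f := fun ξ : ℂ => ((ξ, t) : ℂ × ℂ)) h1 h3).differentiableAt.differentiableWithinAt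
      · rintro _ ⟨ξ, hξ, rfl⟩
        exact hC ξ hξ.2 (by simpa using hξ.1)
    have hc : DiffContOnCl ℂ h (ball 0 (δ / 2)) := by
      apply DifferentiableOn.diffContOnCl
      refine hd.mono ?_
      rw [closure_ball _ hδ2.ne']
      exact closedBall_subset_ball (by linarith)
    have h4 := hc.two_pi_i_inv_smul_circleIntegral_sub_inv_smul (w := x) (by rwa [mem_ball_zero_iff])
    have h5 : h x = f (x, t) := by rw [hh, Function.update_of_ne hx0]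
    show (2 * Real.pi * Complex.I)⁻¹ * (∮ ξ in C(0, δ / 2), f (ξ, t) / (ξ - x)) = f (x, t)
    rw [← h5, ← h4, smul_eq_mul]
    congr 1
    refine circleIntegral.integral_congr hδ2.le fun ξ hξ => ?_
    simp only [smul_eq_mul]
    rw [hh, Function.update_of_ne (hsph ξ hξ).1, div_eq_inv_mul]

end Pool.Agent.MQ2
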