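import Pool.Agent.MQ2.Defs

/-!
# MQ2 SingF: finitely many singular directions
-/

set_option autoImplicit false

open Topology Filter Metric MeasureTheory Asymptotics Laplacian

noncomputable section

namespace Pool.Agent.MQ2

open Pool.Agent.H36.BP (EN)
open Pool.Agent.H30M (tau LogSing)
open Pool.Agent.MQ

/-- the limit of an eventual identity along `x → 0`, `x ≠ 0` -/
theorem eq_of_punctured {f g : ℂ → ℂ} {a b : ℂ} (hf : Tendsto f (𝓝[≠] (0 : ℂ)) (𝓝 a)) (hg : Tendsto g (𝓝[≠] (0 : ℂ)) (𝓝 b))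
    (h : ∀ᶠ x in 𝓝[≠] (0 : ℂ), f x = g x) : a = b := by
  have h1 : Tendsto g (𝓝[≠] (0 : ℂ)) (𝓝 a) := hf.congr' h
  exact tendsto_nhds_unique h1 hg

theorem child_shift {e ι : ℕ} {v : ℂ × ℂ → ℂ × ℂ} {w : ℂ → ℂ × ℂ → ℂ × ℂ} (hw : ∀ t, Child e ι t v (w t)) (t : ℂ) :
    ∀ᶠ u in 𝓝 (0 : ℂ), w (t + u) 0 = w t (0, u) := by
  have hc : Tendsto (fun u : ℂ => ((0 : ℂ), u)) (𝓝 0) (𝓝 (0 : ℂ × ℂ)) := by
    have : Continuous fun u : ℂ => ((0 : ℂ), u) := by fun_prop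
    exact this.tendsto' 0 0 rfl
  have e1 : ∀ᶠ u in 𝓝 (0 : ℂ), AnalyticAt ℂ (w t) (0, u) := hc.eventually (hw t).an.eventually_analyticAt
  have e2 : ∀ᶠ u in 𝓝 (0 : ℂ), ∀ᶠ p in 𝓝 ((0 : ℂ), u), (v (be t p)).1 = p.1 ^ e * (w t p).1 :=
    hc.eventually (eventually_eventually_nhds.2 (hw t).fst)
  have e3 : ∀ᶠ u in 𝓝 (0 : ℂ), ∀ᶠ p in 𝓝 ((0 : ℂ), u), (v (be t p)).2 = (p.2 + t) * (v (be t p)).1 + p.1 ^ (e + 1) * (w t p).2 :=
    hc.eventually (eventually_eventually_nhds.2 (hw t).snd)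
  filter_upwards [e1, e2, e3] with u h1 h2 h3
  have ca : Tendsto (fun x : ℂ => (x, (0 : ℂ))) (𝓝[≠] (0 : ℂ)) (𝓝 (0 : ℂ × ℂ)) := by
    have : Continuous fun x : ℂ => (x, (0 : ℂ)) := by fun_prop
    exact (this.tendsto' 0 0 rfl).mono_left nhdsWithin_le_nhds
  have cb : Tendsto (fun x : ℂ => (x, u)) (𝓝[≠] (0 : ℂ)) (𝓝 ((0 : ℂ), u)) := by
    have : Continuous fun x : ℂ => (x, u) := by fun_prop
    exact (this.tendsto 0).mono_left nhdsWithin_le_nhds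
  have hx : ∀ᶠ x in 𝓝[≠] (0 : ℂ), x ≠ 0 := eventually_mem_nhdsWithin
  have hbe : ∀ x : ℂ, be (t + u) (x, 0) = be t (x, u) := by
    intro x
    simp [be, add_comm]
  have l1 : Tendsto (fun x : ℂ => w (t + u) (x, 0)) (𝓝[≠] (0 : ℂ)) (𝓝 (w (t + u) 0)) := (hw (t + u)).an.continuousAt.tendsto.comp ca
  have l2 : Tendsto (fun x : ℂ => w t (x, u)) (𝓝[≠] (0 : ℂ)) (𝓝 (w t (0, u))) := h1.continuousAt.tendsto.comp cb
  have f1 : ∀ᶠ x in 𝓝[≠] (0 : ℂ), (v (be (t + u) (x, 0))).1 = x ^ e * (w (t + u) (x, 0)).1 := ca.eventually (hw (t + u)).fst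
  have f2 : ∀ᶠ x in 𝓝[≠] (0 : ℂ), (v (be (t + u) (x, 0))).2 = (0 + (t + u)) * (v (be (t + u) (x, 0))).1 + x ^ (e + 1) * (w (t + u) (x, 0)).2 :=
    ca.eventually (hw (t + u)).snd
  have g1 : ∀ᶠ x in 𝓝[≠] (0 : ℂ), (v (be t (x, u))).1 = x ^ e * (w t (x, u)).1 := cb.eventually h2
  have g2 : ∀ᶠ x in 𝓝[≠] (0 : ℂ), (v (be t (x, u))).2 = (u + t) * (v (be t (x, u))).1 + x ^ (e + 1) * (w t (x, u)).2 := cb.eventually h3
  refine Prod.ext ?_ ?_
  · refine eq_of_punctured ((continuous_fst.tendsto _).comp l1) ((continuous_fst.tendsto _).comp l2) ?_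
    filter_upwards [hx, f1, g1] with x x0 k1 k2
    rw [hbe, k2] at k1
    exact (mul_left_cancel₀ (pow_ne_zero _ x0) k1).symm
  · refine eq_of_punctured ((continuous_snd.tendsto _).comp l1) ((continuous_snd.tendsto _).comp l2) ?_
    filter_upwards [hx, f2, g2] with x x0 k1 k2
    rw [hbe, k2] at k1
    have k3 : x ^ (e + 1) * (w t (x, u)).2 = x ^ (e + 1) * (w (t + u) (x, 0)).2 := by linear_combination k1
    exact (mul_left_cancel₀ (pow_ne_zero _ x0) k3).symm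

/-- `w (1 / u) 0` is `wi (0, u)` up to a linear map -/
theorem child_inf {e ι : ℕ} {v : ℂ × ℂ → ℂ × ℂ} {w : ℂ → ℂ × ℂ → ℂ × ℂ} {wi : ℂ × ℂ → ℂ × ℂ} (hw : ∀ t, Child e ι t v (w t))
    (hwi : Child e ι 0 (swv v) wi) : ∀ᶠ u in 𝓝[≠] (0 : ℂ), w u⁻¹ 0 ≠ 0 := by
  have hc : Tendsto (fun u : ℂ => ((0 : ℂ), u)) (𝓝[≠] (0 : ℂ)) (𝓝 (0 : ℂ × ℂ)) := by
    have : Continuous fun u : ℂ => ((0 : ℂ), u) := by fun_prop
    exact (this.tendsto' 0 0 rfl).mono_left nhdsWithin_le_nhds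
  have e1 : ∀ᶠ u in 𝓝[≠] (0 : ℂ), AnalyticAt ℂ wi (0, u) := hc.eventually hwi.an.eventually_analyticAt
  have e2 : ∀ᶠ u in 𝓝[≠] (0 : ℂ), ∀ᶠ p in 𝓝 ((0 : ℂ), u), (swv v (be 0 p)).1 = p.1 ^ e * (wi p).1 :=
    hc.eventually (eventually_eventually_nhds.2 hwi.fst)
  have e3 : ∀ᶠ u in 𝓝[≠] (0 : ℂ), ∀ᶠ p in 𝓝 ((0 : ℂ), u), (swv v (be 0 p)).2 = (p.2 + 0) * (swv v (be 0 p)).1 + p.1 ^ (e + 1) * (wi p).2 :=
    hc.eventually (eventually_eventually_nhds.2 hwi.snd)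
  have e4 : ∀ᶠ u in 𝓝[≠] (0 : ℂ), ((0 : ℂ), u) ≠ 0 → wi (0, u) ≠ 0 := hc.eventually hwi.iso
  have e5 : ∀ᶠ u in 𝓝[≠] (0 : ℂ), u ≠ 0 := eventually_mem_nhdsWithin
  filter_upwards [e1, e2, e3, e4, e5] with u h1 h2 h3 h4 u0 hcon
  have ca : Tendsto (fun x : ℂ => (x * u, (0 : ℂ))) (𝓝[≠] (0 : ℂ)) (𝓝 (0 : ℂ × ℂ)) := by
    have : Continuous fun x : ℂ => (x * u, (0 : ℂ)) := by fun_prop
    exact (this.tendsto' 0 0 (by simp)).mono_left nhdsWithin_le_nhds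
  have cb : Tendsto (fun x : ℂ => (x, u)) (𝓝[≠] (0 : ℂ)) (𝓝 ((0 : ℂ), u)) := by
    have : Continuous fun x : ℂ => (x, u) := by fun_prop
    exact (this.tendsto 0).mono_left nhdsWithin_le_nhds
  have hx : ∀ᶠ x in 𝓝[≠] (0 : ℂ), x ≠ 0 := eventually_mem_nhdsWithin
  have hbe : ∀ x : ℂ, be u⁻¹ (x * u, 0) = (x * u, x) := by
    intro x
    simp only [be, zero_add, Prod.mk.injEq, true_and]
    field_simp
  have hbe' : ∀ x : ℂ, swv v (be 0 (x, u)) = ((v (x * u, x)).2, (v (x * u, x)).1) := by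
    intro x
    simp [be, swv, Prod.swap]
  have l1 : Tendsto (fun x : ℂ => w u⁻¹ (x * u, 0)) (𝓝[≠] (0 : ℂ)) (𝓝 (w u⁻¹ 0)) := (hw u⁻¹).an.continuousAt.tendsto.comp ca
  have l2 : Tendsto (fun x : ℂ => wi (x, u)) (𝓝[≠] (0 : ℂ)) (𝓝 (wi (0, u))) := h1.continuousAt.tendsto.comp cb
  have lx : Tendsto (fun x : ℂ => x) (𝓝[≠] (0 : ℂ)) (𝓝 0) := nhdsWithin_le_nhds
  have f1 := ca.eventually (hw u⁻¹).fst
  have f2 := ca.eventually (hw u⁻¹).snd
  have g1 := cb.eventually h2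
  have g2 := cb.eventually h3
  simp only [hbe] at f1 f2
  simp only [hbe'] at g1 g2
  have k1 : u ^ e * (w u⁻¹ 0).1 = u * (wi (0, u)).1 + 0 * (wi (0, u)).2 := by
    refine eq_of_punctured (((continuous_fst.tendsto _).comp l1).const_mul (u ^ e))
      ((((continuous_fst.tendsto _).comp l2).const_mul u).add (lx.mul ((continuous_snd.tendsto _).comp l2))) ?_
    filter_upwards [hx, f1, g1, g2] with x x0 a1 b1 b2
    simp only [Function.comp_apply]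
    have : x ^ e * (u ^ e * (w u⁻¹ (x * u, 0)).1) = x ^ e * (u * (wi (x, u)).1 + x * (wi (x, u)).2) := by
      rw [b2, b1, mul_pow] at a1
      linear_combination -a1
    exact mul_left_cancel₀ (pow_ne_zero _ x0) this
  have k2 : u ^ (e + 1) * (w u⁻¹ 0).2 = -(u⁻¹ * (wi (0, u)).2) := by
    refine eq_of_punctured (((continuous_snd.tendsto _).comp l1).const_mul (u ^ (e + 1)))
      (((continuous_snd.tendsto _).comp l2).const_mul u⁻¹).neg ?_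
    filter_upwards [hx, f2, g1, g2] with x x0 a1 b1 b2
    simp only [Function.comp_apply]
    have hu : u⁻¹ * u = 1 := inv_mul_cancel₀ u0
    have : x ^ (e + 1) * (u ^ (e + 1) * (w u⁻¹ (x * u, 0)).2) = x ^ (e + 1) * -(u⁻¹ * (wi (x, u)).2) := by
      rw [b2, mul_pow] at a1
      linear_combination -a1 + (-(v (x * u, x)).2) * hu
    exact mul_left_cancel₀ (pow_ne_zero _ x0) this
  rw [hcon] at k1 k2
  simp only [Prod.fst_zero, Prod.snd_zero, mul_zero, zero_mul, add_zero] at k1 k2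
  have m1 : (wi (0, u)).1 = 0 := by
    rcases mul_eq_zero.1 k1.symm with h | h
    · exact absurd h u0
    · exact h
  have m2 : (wi (0, u)).2 = 0 := by
    have : u⁻¹ * (wi (0, u)).2 = 0 := by
      have := k2.symm
      simpa using this
    rcases mul_eq_zero.1 this with h | h
    · exact absurd h (inv_ne_zero u0)
    · exact h
  exact h4 (fun h => u0 (congrArg Prod.snd h)) (Prod.ext m1 m2)

theorem sing_finite {e ι : ℕ} {v : ℂ × ℂ → ℂ × ℂ} {w : ℂ → ℂ × ℂ → ℂ × ℂ} {wi : ℂ × ℂ → ℂ × ℂ} (hw : ∀ t, Child e ι t v (w t))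
    (hwi : Child e ι 0 (swv v) wi) : {t : ℂ | w t 0 = 0}.Finite := by
  obtain ⟨ε, hε, hb⟩ := Metric.mem_nhdsWithin_iff.1 (child_inf hw hwi)
  have hsub : {t : ℂ | w t 0 = 0} ⊆ closedBall 0 (2 / ε) := by
    intro t ht
    by_contra hcon
    simp only [mem_closedBall, dist_zero_right, not_le] at hcon
    have h1 : 0 < ‖t‖ := lt_trans (by positivity) hcon
    have t0 : t ≠ 0 := norm_pos_iff.1 h1
    have h2 : t⁻¹ ∈ ball (0 : ℂ) ε ∩ {0}ᶜ := by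
      refine ⟨?_, inv_ne_zero t0⟩
      simp only [mem_ball, dist_zero_right, norm_inv]
      rw [inv_lt_comm₀ h1 hε]
      refine lt_of_le_of_lt ?_ hcon
      rw [inv_eq_one_div]
      gcongr
      norm_num
    have h3 : w t⁻¹⁻¹ 0 ≠ 0 := hb h2
    rw [inv_inv] at h3
    exact h3 ht
  by_contra hinf
  obtain ⟨t, -, ht⟩ := Set.Infinite.exists_accPt_of_subset_isCompact hinf (isCompact_closedBall (0 : ℂ) (2 / ε)) hsub
  have h1 : ∀ᶠ u in 𝓝[≠] (0 : ℂ), w (t + u) 0 ≠ 0 := by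
    have hc : Tendsto (fun u : ℂ => ((0 : ℂ), u)) (𝓝[≠] (0 : ℂ)) (𝓝 (0 : ℂ × ℂ)) := by
      have : Continuous fun u : ℂ => ((0 : ℂ), u) := by fun_prop
      exact (this.tendsto' 0 0 rfl).mono_left nhdsWithin_le_nhds
    have e5 : ∀ᶠ u in 𝓝[≠] (0 : ℂ), u ≠ 0 := eventually_mem_nhdsWithin
    filter_upwards [(child_shift hw t).filter_mono nhdsWithin_le_nhds, hc.eventually (hw t).iso, e5] with u a b u0
    rw [a]
    exact b fun h => u0 (congrArg Prod.snd h)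
  have h2 : ∀ᶠ s in 𝓝[≠] t, w s 0 ≠ 0 := by
    have hm : Tendsto (fun s : ℂ => s - t) (𝓝[≠] t) (𝓝[≠] (0 : ℂ)) := by
      refine tendsto_nhdsWithin_iff.2 ⟨?_, ?_⟩
      · have : Continuous fun s : ℂ => s - t := by fun_prop
        simpa using (this.tendsto t).mono_left nhdsWithin_le_nhds
      · filter_upwards [self_mem_nhdsWithin] with s hs
        exact sub_ne_zero.2 hs
    filter_upwards [hm.eventually h1] with s hs
    simpa using hs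
  exact (accPt_iff_frequently_nhdsNE.1 ht) (h2.mono fun s hs => by simpa using hs)

end Pool.Agent.MQ2
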