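import Pool.Agent.MQ2.Defs

/-!
# MQ2 Swap: the coordinates exchanged
-/

set_option autoImplicit false

open Topology Filter Metric MeasureTheory Asymptotics Laplacian

noncomputable section

namespace Pool.Agent.MQ2

open Pool.Agent.H36.BP (EN)
open Pool.Agent.H30M (tau LogSing)
open Pool.Agent.MQ

/-- the exchange of the coordinates -/
def swL : (ℂ × ℂ) ≃L[ℂ] (ℂ × ℂ) := ContinuousLinearEquiv.prodComm ℂ ℂ ℂ

theorem swL_apply (p : ℂ × ℂ) : swL p = p.swap := rfl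

theorem an_swap (p : ℂ × ℂ) : AnalyticAt ℂ (fun q : ℂ × ℂ => q.swap) p := (swL : (ℂ × ℂ) →L[ℂ] (ℂ × ℂ)).analyticAt p

theorem tendsto_swap0 : Tendsto (fun q : ℂ × ℂ => q.swap) (𝓝 0) (𝓝 0) := by
  have h := (continuous_swap (X := ℂ) (Y := ℂ)).tendsto (0 : ℂ × ℂ)
  exact h

theorem norm_swap' (p : ℂ × ℂ) : ‖p.swap‖ = ‖p‖ := by
  rw [Prod.norm_def, Prod.norm_def, Prod.fst_swap, Prod.snd_swap, max_comm]

theorem hasDerivAt_swap {p : ℂ → ℂ × ℂ} {z : ℂ} {p' : ℂ × ℂ} (h : HasDerivAt p p' z) : HasDerivAt (fun w => (p w).swap) p'.swap z :=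
  (swL : (ℂ × ℂ) →L[ℂ] (ℂ × ℂ)).hasFDerivAt.comp_hasDerivAt z h

theorem deriv_swap {p : ℂ → ℂ × ℂ} {z : ℂ} (h : DifferentiableAt ℂ p z) : deriv (fun w => (p w).swap) z = (deriv p z).swap :=
  (hasDerivAt_swap h.hasDerivAt).deriv

theorem crv_swap {v : ℂ × ℂ → ℂ × ℂ} {r : ℝ} {Om : Set ℂ} {p : ℂ → ℂ × ℂ} (h : Crv1 v r Om p) : Crv1 (swv v) r Om fun z => (p z).swap where
  isOpen := h.isOpen
  an := fun z hz => (an_swap (p z)).comp (h.an z hz)
  mem := fun z hz => by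
    have h1 := h.mem z hz
    rw [mem_ball_zero_iff] at h1 ⊢
    rwa [norm_swap']
  closed := fun s hs => by
    have h1 := h.closed s hs
    convert h1 using 4 with z
    rw [mem_closedBall_zero_iff, mem_closedBall_zero_iff, norm_swap']
  ode := fun z hz => by
    have h1 := h.ode z hz
    rw [deriv_swap (h.an z hz).differentiableAt]
    simp only [swv, Prod.swap_swap, Prod.fst_swap, Prod.snd_swap]
    linear_combination -h1

theorem ztv_swap {v : ℂ × ℂ → ℂ × ℂ} {r : ℝ} {Om : Set ℂ} {p : ℂ → ℂ × ℂ} (h : Crv1 v r Om p) {z : ℂ} (hz : z ∈ Om) (hv : v (p z) ≠ 0) :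
    ztv (swv v) (fun z => (p z).swap) z = ztv v p z := by
  have hd := deriv_swap (h.an z hz).differentiableAt
  by_cases h2 : (v (p z)).1 = 0
  · have h3 : (v (p z)).2 ≠ 0 := fun h3 => hv (Prod.ext h2 h3)
    have h4 : (swv v (p z).swap).1 ≠ 0 := by
      simpa [swv] using h3
    rw [(crv_swap h).ztv_fst hz h4, hd, MQ.ztv_snd h3]
    simp [swv]
  · have h4 : (swv v (p z).swap).2 ≠ 0 := by
      simpa [swv] using h2
    rw [MQ.ztv_snd (v := swv v) (g := fun z => (p z).swap) h4, hd, h.ztv_fst hz h2]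
    simp [swv]

theorem fderiv_swap (g : ℂ × ℂ → ℂ) (p w : ℂ × ℂ) : fderiv ℂ (fun q : ℂ × ℂ => g q.swap) p w = fderiv ℂ g p.swap w.swap := by
  have h : fderiv ℂ (g ∘ swL) p = (fderiv ℂ g (swL p)).comp (swL : (ℂ × ℂ) →L[ℂ] (ℂ × ℂ)) := swL.comp_right_fderiv
  have h' : fderiv ℂ (fun q : ℂ × ℂ => g q.swap) p = (fderiv ℂ g (swL p)).comp (swL : (ℂ × ℂ) →L[ℂ] (ℂ × ℂ)) := h
  rw [h']
  rfl

theorem fderiv_swv {v : ℂ × ℂ → ℂ × ℂ} (p w : ℂ × ℂ) : fderiv ℂ (swv v) p w = (fderiv ℂ v p.swap w.swap).swap := by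
  have h : fderiv ℂ ((swL ∘ v) ∘ swL) p = (fderiv ℂ (swL ∘ v) (swL p)).comp (swL : (ℂ × ℂ) →L[ℂ] (ℂ × ℂ)) := swL.comp_right_fderiv
  have h' : fderiv ℂ (swv v) p = (fderiv ℂ (swL ∘ v) (swL p)).comp (swL : (ℂ × ℂ) →L[ℂ] (ℂ × ℂ)) := h
  rw [h', swL.comp_fderiv]
  rfl

theorem dvg_swap {v : ℂ × ℂ → ℂ × ℂ} (p : ℂ × ℂ) : dvg (swv v) p.swap = dvg v p := by
  unfold dvg
  rw [fderiv_swv, fderiv_swv]
  simp only [Prod.swap_swap, Prod.fst_swap, Prod.snd_swap, Prod.swap_prod_mk]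
  ring

theorem DDv_swap {v : ℂ × ℂ → ℂ × ℂ} {g : ℂ × ℂ → ℂ} {r : ℝ} {Om : Set ℂ} {p : ℂ → ℂ × ℂ} (h : Crv1 v r Om p) {z : ℂ} (hz : z ∈ Om) (hv : v (p z) ≠ 0)
    (ha : AnalyticAt ℂ v (p z)) : DDv (swv v) (fun q => g q.swap) (fun z => (p z).swap) z = DDv v g p z := by
  unfold DDv
  rw [ztv_swap h hz hv, dvg_swap]
  simp only [Prod.swap_swap]

theorem Wt.swap {v : ℂ × ℂ → ℂ × ℂ} {g : ℂ × ℂ → ℂ} (h : Wt v g) : Wt (swv v) fun q => g q.swap where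
  an := AnalyticAt.comp (f := fun q : ℂ × ℂ => q.swap) (g := g) (x := 0) h.an (an_swap 0)
  ne := tendsto_swap0.frequently (p := fun q => g q.swap ≠ 0) (by simpa only [Prod.swap_swap] using h.ne)
  cof := by
    obtain ⟨c, hc, h1⟩ := h.cof
    refine ⟨fun q => c q.swap, AnalyticAt.comp (f := fun q : ℂ × ℂ => q.swap) (g := c) (x := 0) hc (an_swap 0), ?_⟩
    filter_upwards [tendsto_swap0.eventually h1] with p hp
    rw [fderiv_swap]
    simpa only [swv, Prod.swap_swap] using hp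
  red := by
    filter_upwards [tendsto_swap0.eventually h.red] with p hp h0 hg hd
    have h1 : p.swap ≠ 0 := by
      intro h2
      apply h0
      rw [← Prod.swap_swap p, h2]
      rfl
    apply hp h1 hg
    ext w
    · have := congrArg (fun L : (ℂ × ℂ) →L[ℂ] ℂ => L ((1 : ℂ), (0 : ℂ)).swap) hd
      have h3 := fderiv_swap g p ((1 : ℂ), (0 : ℂ)).swap
      rw [Prod.swap_swap] at h3
      simpa using h3.symm.trans this
    · have := congrArg (fun L : (ℂ × ℂ) →L[ℂ] ℂ => L ((0 : ℂ), (1 : ℂ)).swap) hd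
      have h3 := fderiv_swap g p ((0 : ℂ), (1 : ℂ)).swap
      rw [Prod.swap_swap] at h3
      simpa using h3.symm.trans this

theorem Iso.swap {v : ℂ × ℂ → ℂ × ℂ} (h : Iso v) : Iso (swv v) := by
  obtain ⟨h1, h2, h3⟩ := h
  refine ⟨?_, ?_, ?_⟩
  · have h4 : AnalyticAt ℂ (fun q : ℂ × ℂ => v q.swap) 0 := AnalyticAt.comp (f := fun q : ℂ × ℂ => q.swap) (g := v) (x := 0) h1 (an_swap 0)
    exact AnalyticAt.comp (f := fun q : ℂ × ℂ => v q.swap) (g := fun q : ℂ × ℂ => q.swap) (x := 0) (an_swap _) h4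
  · show (v (0 : ℂ × ℂ).swap).swap = 0
    rw [show (0 : ℂ × ℂ).swap = 0 from rfl, h2]
    rfl
  · filter_upwards [tendsto_swap0.eventually h3] with p hp h0 hv
    have h5 : p.swap ≠ 0 := by
      intro h2
      apply h0
      rw [← Prod.swap_swap p, h2]
      rfl
    apply hp h5
    rw [← Prod.swap_swap (v p.swap)]
    have h6 : (v p.swap).swap = 0 := hv
    rw [h6]
    rfl

end Pool.Agent.MQ2
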