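import Pool.Agent.MQ2.TAsm
import Pool.Agent.MQ2.Step
import Pool.Agent.MQ2.Cong
import Pool.Agent.MQ2.TAxes

/-!
# MQ2 TB2: a saddle-node whose strong separatrix is exceptional: `k + 1` blow-ups in the direction of the weak separatrix
-/

set_option autoImplicit false

open Topology Filter Metric MeasureTheory Asymptotics Laplacian

noncomputable section

namespace Pool.Agent.MQ2

open Pool.Agent.H17BP (Bihol Coord dx dy coord_iff exists_div_x exists_div_y)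
open Pool.Agent.MQ

theorem be_zero (t : ℂ) : be t 0 = 0 := by simp [be]

theorem be_fst_zero (t y : ℂ) : be t (0, y) = 0 := by simp [be]

theorem analyticAt_be (t : ℂ) (p : ℂ × ℂ) : AnalyticAt ℂ (be t) p :=
  analyticAt_fst.prod (analyticAt_fst.mul (analyticAt_snd.add analyticAt_const))

theorem tendsto_be (t : ℂ) : Tendsto (be t) (𝓝 0) (𝓝 0) := by
  have := (analyticAt_be t 0).continuousAt.tendsto
  rwa [be_zero] at this

theorem analyticAt_comp_be {f : ℂ × ℂ → ℂ} (hf : AnalyticAt ℂ f 0) (t : ℂ) : AnalyticAt ℂ (fun q => f (be t q)) 0 :=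
  AnalyticAt.fun_comp (g := f) (f := be t) (by rw [be_zero]; exact hf) (analyticAt_be t 0)

theorem dy_eq_deriv {f : ℂ × ℂ → ℂ} (hf : AnalyticAt ℂ f 0) : dy f 0 = deriv (fun y => f (0, y)) 0 := by
  have h1 : HasDerivAt (fun y : ℂ => ((0 : ℂ), y)) ((0 : ℂ), (1 : ℂ)) 0 := (hasDerivAt_const _ _).prodMk (hasDerivAt_id _)
  have h2 : HasDerivAt (fun y => f (0, y)) (fderiv ℂ f 0 (0, 1)) 0 := hf.differentiableAt.hasFDerivAt.comp_hasDerivAt (0 : ℂ) h1
  rw [h2.deriv]; rfl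

/-- the division by `x` of the pull-back -/
theorem exists_beta {b : ℂ × ℂ → ℂ} (hb : AnalyticAt ℂ b 0) (hb0 : b 0 = 0) (t : ℂ) : ∃ β : ℂ × ℂ → ℂ, AnalyticAt ℂ β 0 ∧
    (∀ᶠ q in 𝓝 (0 : ℂ × ℂ), b (be t q) = q.1 * β q) ∧ ∀ᶠ y in 𝓝 (0 : ℂ), β (0, y) = fderiv ℂ b 0 (1, 0) + (y + t) * fderiv ℂ b 0 (0, 1) := by
  obtain ⟨β, hβ, h1⟩ := exists_div_x (analyticAt_comp_be hb t) (Eventually.of_forall fun y => by rw [be_fst_zero, hb0])
  refine ⟨β, hβ, by simpa using h1, ?_⟩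
  have ht : Tendsto (fun y : ℂ => ((0 : ℂ), y)) (𝓝 0) (𝓝 0) := (by fun_prop : Continuous fun y : ℂ => ((0 : ℂ), y)).tendsto' _ _ rfl
  filter_upwards [ht.eventually h1.eventually_nhds, ht.eventually hβ.eventually_analyticAt] with y e1 e2
  have h2 : HasDerivAt (fun x : ℂ => (x, y)) ((1 : ℂ), (0 : ℂ)) 0 := (hasDerivAt_id _).prodMk (hasDerivAt_const _ _)
  have h3 : HasDerivAt (fun x : ℂ => be t (x, y)) ((1 : ℂ), y + t) 0 := by
    have h4 : HasDerivAt (fun x : ℂ => x * (y + t)) (1 * (y + t)) 0 := (hasDerivAt_id _).mul_const _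
    rw [one_mul] at h4
    exact (hasDerivAt_id _).prodMk h4
  have h4 : HasDerivAt (fun x : ℂ => b (be t (x, y))) (fderiv ℂ b 0 ((1 : ℂ), y + t)) 0 :=
    (show HasFDerivAt b (fderiv ℂ b 0) (be t (0, y)) from by rw [be_fst_zero]; exact hb.differentiableAt.hasFDerivAt).comp_hasDerivAt (0 : ℂ) h3
  have h5 : HasDerivAt (fun x : ℂ => x * β (x, y)) (1 * β (0, y) + 0 * (fderiv ℂ β (0, y) (1, 0))) 0 :=
    (hasDerivAt_id (0 : ℂ)).mul (e2.differentiableAt.hasFDerivAt.comp_hasDerivAt (0 : ℂ) h2)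
  have h6 : (fun x : ℂ => b (be t (x, y))) =ᶠ[𝓝 0] fun x => x * β (x, y) := by
    have h7 : Tendsto (fun x : ℂ => (x, y)) (𝓝 0) (𝓝 (0, y)) := (by fun_prop : Continuous fun x : ℂ => (x, y)).tendsto' _ _ rfl
    filter_upwards [h7.eventually e1] with x hx
    rw [hx]; rfl
  have h8 := (h5.congr_of_eventuallyEq h6).unique h4
  have h9 : (((1 : ℂ), y + t) : ℂ × ℂ) = (1, 0) + (y + t) • ((0 : ℂ), (1 : ℂ)) := by ext <;> simp
  rw [h9, map_add, map_smul, smul_eq_mul] at h8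
  rw [← h8]; ring

/-- the same at infinity -/
theorem exists_beta_swap {b : ℂ × ℂ → ℂ} (hb : AnalyticAt ℂ b 0) (hb0 : b 0 = 0) : ∃ β : ℂ × ℂ → ℂ, AnalyticAt ℂ β 0 ∧
    (∀ᶠ q in 𝓝 (0 : ℂ × ℂ), b (be 0 q).swap = q.1 * β q) ∧ β 0 = fderiv ℂ b 0 (0, 1) := by
  have hsw : AnalyticAt ℂ (fun p : ℂ × ℂ => p.swap) 0 := analyticAt_snd.prod analyticAt_fst
  have hb' : AnalyticAt ℂ (fun p : ℂ × ℂ => b p.swap) 0 := AnalyticAt.fun_comp (g := b) (f := fun p : ℂ × ℂ => p.swap) hb hsw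
  obtain ⟨β, h1, h2, h3⟩ := exists_beta hb' (by simpa using hb0) 0
  refine ⟨β, h1, h2, ?_⟩
  have h4 := h3.self_of_nhds
  have h5 : HasFDerivAt (fun p : ℂ × ℂ => p.swap) (ContinuousLinearEquiv.prodComm ℂ ℂ ℂ : ℂ × ℂ →L[ℂ] ℂ × ℂ) 0 :=
    (ContinuousLinearEquiv.prodComm ℂ ℂ ℂ).hasFDerivAt
  have h6 : HasFDerivAt (fun p : ℂ × ℂ => b p.swap) ((fderiv ℂ b 0).comp (ContinuousLinearEquiv.prodComm ℂ ℂ ℂ : ℂ × ℂ →L[ℂ] ℂ × ℂ)) 0 :=
    (show HasFDerivAt b (fderiv ℂ b 0) ((0 : ℂ × ℂ).swap) from hb.differentiableAt.hasFDerivAt).comp 0 h5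
  rw [h6.fderiv] at h4
  have h7 : β 0 = β (0, 0) := rfl
  rw [h7, h4]
  simp

/-- the induction on the multiplicity of the exceptional line -/
theorem good_Bj {k : ℕ} (hk : 1 ≤ k) : ∀ (m j : ℕ), j + m = k + 1 → 1 ≤ j → ∀ {a b : ℂ × ℂ → ℂ}, AnalyticAt ℂ a 0 → AnalyticAt ℂ b 0 → a 0 ≠ 0 → b 0 = 0 →
    fderiv ℂ b 0 (0, 1) ≠ 0 → Good (PX j) fun p => (p.1 ^ (k + 1) * a p, b p) := by
  intro m
  induction m with
  | zero =>
    intro j hj _ a b ha hb ha0 hb0 hb1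
    rw [add_zero] at hj
    subst hj
    exact good_B' hk ha hb ha0 hb0 hb1
  | succ m ih =>
    intro j hj hj1 a b ha hb ha0 hb0 hb1
    have hiso := iso_sn (k := k) ha hb ha0 hb0 hb1
    choose β hβ hβe hβ0 using exists_beta hb hb0
    obtain ⟨βi, hβi, hβie, hβi0⟩ := exists_beta_swap hb hb0
    have hk0 : (0 : ℂ) ^ k = 0 := zero_pow (by omega)
    -- the transforms
    let bt : ℂ → ℂ × ℂ → ℂ := fun t q => β t q - (q.2 + t) * (q.1 ^ k * a (be t q))
    have hbt : ∀ t, AnalyticAt ℂ (bt t) 0 := fun t =>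
      (hβ t).sub ((analyticAt_snd.add analyticAt_const).mul ((analyticAt_fst.pow k).mul (analyticAt_comp_be ha t)))
    have hbt0 : ∀ t y, bt t (0, y) = β t (0, y) := fun t y => by simp [bt, hk0]
    have hbty : ∀ t, dy (bt t) 0 = fderiv ℂ b 0 (0, 1) := by
      intro t
      rw [dy_eq_deriv (hbt t)]
      have h1 : (fun y => bt t (0, y)) =ᶠ[𝓝 0] fun y => fderiv ℂ b 0 (1, 0) + (y + t) * fderiv ℂ b 0 (0, 1) := by
        filter_upwards [hβ0 t] with y hy
        rw [hbt0, hy]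
      have h2 : HasDerivAt (fun y : ℂ => fderiv ℂ b 0 (1, 0) + (y + t) * fderiv ℂ b 0 (0, 1)) (1 * fderiv ℂ b 0 (0, 1)) 0 :=
        (((hasDerivAt_id (0 : ℂ)).add_const t).mul_const _).const_add _
      rw [h1.deriv_eq, h2.deriv, one_mul]
    let w : ℂ → ℂ × ℂ → ℂ × ℂ := fun t q => (q.1 ^ (k + 1) * a (be t q), bt t q)
    have hw : ∀ t, Child 0 1 t (fun p => (p.1 ^ (k + 1) * a p, b p)) (w t) := by
      intro t
      refine ⟨((analyticAt_fst.pow _).mul (analyticAt_comp_be ha t)).prod (hbt t), Eventually.of_forall fun q => ?_, ?_, ?_,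
        Or.inl ⟨rfl, Eventually.of_forall fun y => by simp [w]⟩⟩
      · simp [w, be]
      · filter_upwards [hβe t] with q hq
        simp only [w, bt]
        rw [hq]
        have : (be t q).1 = q.1 := rfl
        rw [this]
        ring
      · have hne : ∀ᶠ y in 𝓝 (0 : ℂ), y ≠ 0 → β t (0, y) ≠ 0 := by
          by_cases h0 : fderiv ℂ b 0 (1, 0) + t * fderiv ℂ b 0 (0, 1) = 0
          · filter_upwards [hβ0 t] with y hy hy0
            rw [hy]
            have : fderiv ℂ b 0 (1, 0) + (y + t) * fderiv ℂ b 0 (0, 1) = y * fderiv ℂ b 0 (0, 1) := by linear_combination h0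
            rw [this]
            exact mul_ne_zero hy0 hb1
          · have hc : ContinuousAt (fun y : ℂ => fderiv ℂ b 0 (1, 0) + (y + t) * fderiv ℂ b 0 (0, 1)) 0 := by fun_prop
            filter_upwards [hβ0 t, hc.eventually_ne (by simpa using h0)] with y hy hy1 _
            rw [hy]; exact hy1
        have hsnd : Tendsto (fun q : ℂ × ℂ => q.2) (𝓝 0) (𝓝 0) := continuous_snd.tendsto' _ _ rfl
        filter_upwards [hsnd.eventually hne, (tendsto_be t).eventually (ha.continuousAt.eventually_ne ha0)] with q e1 e2 hq h0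
        simp only [w] at h0
        rw [Prod.mk_eq_zero, mul_eq_zero, or_iff_left e2, pow_eq_zero_iff (Nat.succ_ne_zero k)] at h0
        have e3 : q = (0, q.2) := Prod.ext h0.1 rfl
        have e4 : q.2 ≠ 0 := fun h => hq (by rw [e3, h]; rfl)
        refine e1 e4 ?_
        rw [← hbt0, ← e3]
        exact h0.2
    obtain ⟨Bi, hBi⟩ : ∃ Bi : ℂ × ℂ → ℂ, ∀ q, Bi q = q.1 ^ k * q.2 ^ k * a (be 0 q).swap - βi q := ⟨_, fun q => rfl⟩
    let wi : ℂ × ℂ → ℂ × ℂ := fun q => (q.1 * βi q, q.2 * Bi q)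
    have hsw : AnalyticAt ℂ (fun p : ℂ × ℂ => p.swap) 0 := analyticAt_snd.prod analyticAt_fst
    have has : AnalyticAt ℂ (fun q : ℂ × ℂ => a (be 0 q).swap) 0 :=
      analyticAt_comp_be (f := fun p => a p.swap) (AnalyticAt.fun_comp (g := a) (f := fun p : ℂ × ℂ => p.swap) ha hsw) 0
    have hB : AnalyticAt ℂ Bi 0 := by
      have h1 : Bi = fun q : ℂ × ℂ => q.1 ^ k * q.2 ^ k * a (be 0 q).swap - βi q := funext hBi
      rw [h1]
      exact (((analyticAt_fst.pow k).mul (analyticAt_snd.pow k)).mul has).sub hβi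
    have hB0 : Bi 0 = - fderiv ℂ b 0 (0, 1) := by
      rw [hBi]
      simp [hk0, hβi0]
    have hA0 : βi 0 ≠ 0 := by rw [hβi0]; exact hb1
    have hisoi := iso_of_node hβi hB hA0 (by rw [hB0]; exact neg_ne_zero.2 hb1)
    have hwi : Child 0 1 0 (swv fun p => (p.1 ^ (k + 1) * a p, b p)) wi := by
      refine ⟨hisoi.1, ?_, ?_, hisoi.2.2, Or.inl ⟨rfl, Eventually.of_forall fun y => by simp [wi]⟩⟩
      · filter_upwards [hβie] with q hq
        simp only [swv, wi, Prod.fst_swap]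
        rw [hq]; ring
      · filter_upwards [hβie] with q hq
        simp only [swv, wi, Prod.fst_swap, Prod.snd_swap]
        rw [hq]
        have : (be 0 q).2 = q.1 * q.2 := by simp [be]
        rw [this, hBi]
        ring
    refine good_step hiso hw hwi (fun t ht => ?_) fun _ => ?_
    · -- the weak direction
      have e1 : bt t 0 = 0 := congrArg Prod.snd ht
      have e2 := ih (j + 1) (by omega) (by omega) (analyticAt_comp_be ha t) (hbt t) (by rw [be_zero]; exact ha0) e1 (by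
        have := hbty t
        rw [Pool.Agent.H17BP.dy] at this
        rw [this]; exact hb1)
      refine Good.mono ?_ e2
      rintro g₁ J₁ ⟨g, J, m', g', ⟨-, J₀, hJ₀, hJe⟩, -, -, hg', -, hg₁, hJ₁⟩
      refine ⟨⟨g', hg', by simpa using hg₁⟩, fun q => J₀ (be t q), analyticAt_comp_be hJ₀ t, ?_⟩
      filter_upwards [hJ₁, (tendsto_be t).eventually hJe] with q a1 a2
      rw [a1, a2]
      have : (be t q).1 = q.1 := rfl
      rw [this]; ring
    · -- the corner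
      have e1 := good_C hβi hB hA0 (by rw [hB0]; exact neg_ne_zero.2 hb1) (by
        intro k' l hk' hl h
        rw [hβi0, hB0] at h
        have h2 : ((k' : ℂ) + l) * fderiv ℂ b 0 (0, 1) = 0 := by linear_combination h
        rcases mul_eq_zero.1 h2 with h3 | h3
        · have h4 : ((k' + l : ℕ) : ℂ) = 0 := by push_cast; exact h3
          rw [Nat.cast_eq_zero] at h4
          omega
        · exact hb1 h3)
      refine Good.mono ?_ e1
      rintro g₁ J₁ ⟨g, J, m', g', ⟨⟨g₀, hg₀, hge⟩, -⟩, -, hJ, hg', hgm, hg₁, hJ₁⟩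
      -- `y` divides `g'`
      have hdiv : ∀ᶠ x in 𝓝 (0 : ℂ), g' (x, 0) = 0 := by
        have ht : Tendsto (fun x : ℂ => (x, (0 : ℂ))) (𝓝 0) (𝓝 0) := (by fun_prop : Continuous fun x : ℂ => (x, (0 : ℂ))).tendsto' _ _ rfl
        have hsm : Tendsto (fun q : ℂ × ℂ => (be 0 q).swap) (𝓝 0) (𝓝 0) := by
          have h1 : Tendsto (fun q : ℂ × ℂ => (be 0 q).swap) (𝓝 0) (𝓝 ((0 : ℂ × ℂ).swap)) := (continuous_swap.tendsto (0 : ℂ × ℂ)).comp (tendsto_be 0)
          exact h1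
        have h1 : ∀ᶠ x in 𝓝[≠] (0 : ℂ), g' (x, 0) = 0 := by
          filter_upwards [(ht.eventually hgm).filter_mono nhdsWithin_le_nhds, (ht.eventually (hsm.eventually hge)).filter_mono nhdsWithin_le_nhds,
            self_mem_nhdsWithin] with x a1 a2 hx
          have a3 : be 0 (x, 0) = (x, 0) := by simp [be]
          rw [a3] at a1 a2
          have a4 : ((x, (0 : ℂ)) : ℂ × ℂ).swap.swap = (x, 0) := rfl
          rw [a4] at a2
          rw [a2] at a1
          have a5 : ((x, (0 : ℂ)) : ℂ × ℂ).swap.1 = 0 := rfl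
          rw [a5, zero_mul] at a1
          exact (mul_eq_zero.1 a1.symm).resolve_left (pow_ne_zero m' hx)
        have h2 : AnalyticAt ℂ (fun x : ℂ => g' (x, 0)) 0 :=
          AnalyticAt.fun_comp (g := g') (f := fun x : ℂ => (x, (0 : ℂ))) (by exact hg') (analyticAt_id.prod analyticAt_const)
        rcases h2.eventually_eq_zero_or_eventually_ne_zero with h3 | h3
        · exact h3
        · obtain ⟨x, h4, h5⟩ := (h1.and h3).exists
          exact absurd h4 h5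
      obtain ⟨g'', hg'', hge''⟩ := exists_div_y hg' hdiv
      refine ⟨⟨g'', hg'', ?_⟩, fun q => J (be 0 q), analyticAt_comp_be hJ 0, hJ₁⟩
      filter_upwards [hg₁, hge''] with q a1 a2
      rw [a1, a2, smul_eq_mul]; ring

/-- **A saddle-node with the strong separatrix exceptional.** -/
theorem good_B {a b : ℂ × ℂ → ℂ} (ha : AnalyticAt ℂ a 0) (hb : AnalyticAt ℂ b 0) (ha0 : a 0 = 0) (hb0 : b 0 = 0) (hb1 : fderiv ℂ b 0 (0, 1) ≠ 0)
    (hiso : ∀ᶠ p in 𝓝 (0 : ℂ × ℂ), p ≠ 0 → (p.1 * a p, b p) ≠ (0 : ℂ × ℂ)) : Good (PX 1) fun p => (p.1 * a p, b p) := by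
  obtain ⟨v, hvd⟩ : ∃ v : ℂ × ℂ → ℂ × ℂ, v = fun p => (p.1 * a p, b p) := ⟨_, rfl⟩
  have hva : AnalyticAt ℂ v 0 := by rw [hvd]; exact (analyticAt_fst.mul ha).prod hb
  have hv0 : v 0 = 0 := by rw [hvd]; simp [hb0]
  have hv1 : ∀ p, (v p).1 = p.1 * a p := fun p => by rw [hvd]
  have hv2 : ∀ p, (v p).2 = b p := fun p => by rw [hvd]
  have hI : Iso v := ⟨hva, hv0, by rw [hvd]; exact hiso⟩
  have hdy : dy (fun p => (v p).2) 0 ≠ 0 := by
    have : (fun p => (v p).2) = b := funext hv2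
    rw [this]; exact hb1
  obtain ⟨n, w, A, hw, hw0, hA, hA0, hD⟩ := dulac hva hv0 hdy (Eventually.of_forall fun y => by rw [hv1]; simp) (eventually_nhdsWithin_iff.2 hI.2.2)
  -- `n ≥ 1`
  have hn : 1 ≤ n := by
    by_contra hn0
    have hn1 : n = 0 := by omega
    subst hn1
    have e1 : ∀ᶠ q in 𝓝 (0 : ℂ × ℂ), Dv v (fun q => q.1 * w q) q = q.1 * (a q * w q + Dv v w q) := by
      filter_upwards [hw.eventually_analyticAt] with q e3
      rw [Dv_mul differentiableAt_fst e3.differentiableAt, Dv_fst, hv1]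
      ring
    have e2 : ∀ᶠ q in 𝓝 (0 : ℂ × ℂ), Dv v (fun q => q.1 * w q) q = q.1 * (w q * A q) := by
      filter_upwards [hD] with q hq
      rw [hq]; ring
    have e3 := (dx_of_div ((ha.mul hw).add (analyticAt_Dv hva hw)) e1).1
    have e4 := (dx_of_div (hw.mul hA) e2).1
    rw [e3] at e4
    simp only [Pi.add_apply, Pi.mul_apply, ha0, zero_mul, zero_add] at e4
    have e5 : Dv v w 0 = 0 := by rw [Dv, hv0, map_zero]
    rw [e5] at e4
    exact mul_ne_zero hw0 hA0 e4.symm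
  -- the coordinates
  have hco : Coord (fun p : ℂ × ℂ => p.1 * w p) (fun p => p.2) := by
    have := coord_mul_left (w := w) Pool.Agent.H17BP.coord_fst_snd hw hw0
    exact this
  obtain ⟨Â, hÂ, hÂ0, hÂe⟩ := exists_in_coord hco hA
  obtain ⟨Bh, hBh, hBh0, hBhe⟩ := exists_in_coord hco hb
  obtain ⟨wi, hwi, hwi0, hwie⟩ := exists_in_coord hco (hw.inv hw0)
  have hBh1 : fderiv ℂ Bh 0 (0, 1) ≠ 0 := by
    have h1 : HasFDerivAt (fun p : ℂ × ℂ => p.1 * w p) ((0 : ℂ × ℂ).1 • fderiv ℂ w 0 + w 0 • ContinuousLinearMap.fst ℂ ℂ ℂ) 0 :=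
      (hasFDerivAt_fst (𝕜 := ℂ) (p := (0 : ℂ × ℂ))).mul hw.differentiableAt.hasFDerivAt
    have h2 : HasFDerivAt (fun p : ℂ × ℂ => (p.1 * w p, p.2)) (((0 : ℂ × ℂ).1 • fderiv ℂ w 0 + w 0 • ContinuousLinearMap.fst ℂ ℂ ℂ).prod (ContinuousLinearMap.snd ℂ ℂ ℂ)) 0 :=
      h1.prodMk hasFDerivAt_snd
    have h3 := HasFDerivAt.comp (g := Bh) (f := fun p : ℂ × ℂ => (p.1 * w p, p.2)) (0 : ℂ × ℂ)
      (show HasFDerivAt Bh (fderiv ℂ Bh 0) ((fun p : ℂ × ℂ => (p.1 * w p, p.2)) 0) from by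
        have : (fun p : ℂ × ℂ => (p.1 * w p, p.2)) 0 = 0 := by simp
        rw [this]; exact hBh.differentiableAt.hasFDerivAt) h2
    have h4 : fderiv ℂ b 0 = _ := (h3.congr_of_eventuallyEq (by filter_upwards [hBhe] with p hp using hp.symm)).fderiv
    rw [h4] at hb1
    simpa using hb1
  have hVan : AnalyticAt ℂ (fun q : ℂ × ℂ => (q.1 ^ (n + 1) * Â q, Bh q)) 0 := ((analyticAt_fst.pow _).mul hÂ).prod hBh
  have hV1 : ∀ᶠ p in 𝓝 (0 : ℂ × ℂ), (fun q : ℂ × ℂ => (q.1 ^ (n + 1) * Â q, Bh q)) (p.1 * w p, p.2) = (Dv v (fun p => p.1 * w p) p, Dv v (fun q => q.2) p) := by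
    filter_upwards [hD, hÂe, hBhe] with p e1 e2 e3
    rw [Dv_snd, e1, e2, e3, hv2]
  have key := good_coord hI hco hVan hV1 (good_Bj hn n 1 (by omega) le_rfl hÂ hBh (by rw [hÂ0]; exact hA0) (by rw [hBh0]; exact hb0) hBh1)
  rw [hvd] at key
  refine good_of_wt key ?_
  rintro g J ⟨⟨g₀, hg₀, hg⟩, J₀, hJ₀, hJe⟩ hwt hJ
  obtain ⟨G₀, hG₀, -, hG⟩ := exists_in_coord hco hg₀
  obtain ⟨K₀, hK₀, -, hKe⟩ := exists_in_coord hco hJ₀
  refine ⟨fun q => q.1 * (wi q * G₀ q), fun q => q.1 ^ 1 * (wi q * K₀ q), fun _ => 1, fun _ => 1,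
    ⟨⟨fun q => wi q * G₀ q, hwi.mul hG₀, Eventually.of_forall fun q => rfl⟩, fun q => wi q * K₀ q, hwi.mul hK₀, Eventually.of_forall fun q => rfl⟩,
    analyticAt_fst.mul (hwi.mul hG₀), (analyticAt_fst.pow _).mul (hwi.mul hK₀), analyticAt_const, one_ne_zero, analyticAt_const, ?_, ?_⟩
  · filter_upwards [hg, hG, hwie, hw.continuousAt.eventually_ne hw0] with p e1 e2 e3 e4
    rw [e1, e2, e3]
    simp only [Pi.inv_apply]
    field_simp
  · filter_upwards [hJe, hKe, hwie, hw.continuousAt.eventually_ne hw0] with p e1 e2 e3 e4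
    rw [e1, e2, e3]
    simp only [Pi.inv_apply]
    field_simp

end Pool.Agent.MQ2
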