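import Pool.Agent.MQ2.Step
import Pool.Agent.MQ2.Cong
import Pool.Agent.MQ2.TB2
import Pool.Agent.H17BP.Div

/-!
# MQ2 TE: an elementary reduced singular point, from its two transforms

Blow up once.  `v (be t p) = x (A₁, B₁)`, `w t = (x A₁, B₁ - (y + t) A₁)`; `w t 0 = 0` iff `(1, t)` is an eigenvector; with its eigenvalue `λ` and the other
one `λ'`: `A₁ 0 = λ`, `∂_y (B₁ - (y + t) A₁) = λ' - λ` at `0`.  So `w t` is of the type `good_A` (`λ ≠ 0`) or `good_B` (`λ = 0`).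
-/

set_option autoImplicit false

open Topology Filter Metric MeasureTheory Asymptotics Laplacian

noncomputable section

namespace Pool.Agent.MQ2

open Pool.Agent.H36.BP (EN)
open Pool.Agent.H30M (tau LogSing)
open Pool.Agent.MQ

namespace TE

theorem an_be (t : ℂ) (p : ℂ × ℂ) : AnalyticAt ℂ (be t) p :=
  analyticAt_fst.prod (analyticAt_fst.mul (analyticAt_snd.add analyticAt_const))

theorem be_line (t y : ℂ) : be t (0, y) = 0 := by
  unfold be
  simp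

theorem be_ne {t : ℂ} {p : ℂ × ℂ} (h : p.1 ≠ 0) : be t p ≠ 0 := fun h1 => h (congrArg Prod.fst h1)

theorem tend_be (t : ℂ) : Tendsto (be t) (𝓝 0) (𝓝 0) := by
  have h := (an_be t 0).continuousAt
  unfold ContinuousAt at h
  have h0 : be t 0 = 0 := be_line t 0
  rwa [h0] at h

/-- the strict transform of a function -/
theorem div {A : ℂ × ℂ → ℂ} (hA : AnalyticAt ℂ A 0) (hA0 : A 0 = 0) (t : ℂ) :
    ∃ A₁ : ℂ × ℂ → ℂ, AnalyticAt ℂ A₁ 0 ∧ (∀ᶠ x in 𝓝 (0 : ℂ × ℂ), A (be t x) = x.1 * A₁ x) ∧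
      ∀ᶠ w in 𝓝 (0 : ℂ), A₁ (0, w) = fderiv ℂ A 0 (1, 0) + (w + t) * fderiv ℂ A 0 (0, 1) := by
  have hcomp : AnalyticAt ℂ (fun x => A (be t x)) 0 := by
    have h1 : AnalyticAt ℂ A (be t 0) := by
      have h0 : be t 0 = 0 := be_line t 0
      rw [h0]
      exact hA
    exact h1.comp (an_be t 0)
  obtain ⟨A₁, h1, h2⟩ := Pool.Agent.H17BP.exists_div_x hcomp (Eventually.of_forall fun y => by
    change A (be t (0, y)) = 0
    rw [be_line, hA0])
  refine ⟨A₁, h1, h2, ?_⟩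
  have hc : Tendsto (fun w : ℂ => ((0 : ℂ), w)) (𝓝 0) (𝓝 (0 : ℂ × ℂ)) := by
    have : Continuous (fun w : ℂ => ((0 : ℂ), w)) := by fun_prop
    exact this.tendsto' 0 0 rfl
  have h3 := hc.eventually h2.eventually_nhds
  have h4 := hc.eventually h1.eventually_analyticAt
  filter_upwards [h3, h4] with w hw3 hw4
  -- two derivatives in `s`
  have hc' : Tendsto (fun s : ℂ => (s, w)) (𝓝 0) (𝓝 ((0 : ℂ), w)) := by
    have : Continuous (fun s : ℂ => (s, w)) := by fun_prop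
    exact this.tendsto' 0 _ rfl
  have h5 := hc'.eventually hw3
  have hd1 : HasDerivAt (fun s : ℂ => A₁ (s, w)) (fderiv ℂ A₁ (0, w) (1, 0)) 0 := by
    have h6 : HasDerivAt (fun s : ℂ => (s, w)) ((1 : ℂ), (0 : ℂ)) 0 :=
      (hasDerivAt_id (0 : ℂ)).prodMk (hasDerivAt_const (0 : ℂ) w)
    have h7 : HasFDerivAt A₁ (fderiv ℂ A₁ (0, w)) ((fun s : ℂ => (s, w)) 0) := hw4.differentiableAt.hasFDerivAt
    exact HasFDerivAt.comp_hasDerivAt (f := fun s : ℂ => (s, w)) (0 : ℂ) h7 h6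
  have hd2 : HasDerivAt (fun s : ℂ => s * A₁ (s, w)) (A₁ (0, w)) 0 := by
    have h8 : HasDerivAt (fun s : ℂ => s * A₁ (s, w)) (1 * A₁ (0, w) + 0 * fderiv ℂ A₁ (0, w) (1, 0)) 0 :=
      (hasDerivAt_id (0 : ℂ)).mul hd1
    rwa [one_mul, zero_mul, add_zero] at h8
  have hd3 : HasDerivAt (fun s : ℂ => A (be t (s, w))) (A₁ (0, w)) 0 := by
    refine hd2.congr_of_eventuallyEq ?_
    filter_upwards [h5] with s hs
    exact hs
  have hd4 : HasDerivAt (fun s : ℂ => A (be t (s, w))) (fderiv ℂ A 0 (1, w + t)) 0 := by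
    have h6 : HasDerivAt (fun s : ℂ => be t (s, w)) ((1 : ℂ), w + t) 0 := by
      have h7 : HasDerivAt (fun s : ℂ => s * (w + t)) (1 * (w + t)) 0 := (hasDerivAt_id (0 : ℂ)).mul_const (w + t)
      have h8 : HasDerivAt (fun s : ℂ => (s, s * (w + t))) ((1 : ℂ), 1 * (w + t)) 0 :=
        (hasDerivAt_id (0 : ℂ)).prodMk h7
      rw [one_mul] at h8
      exact h8
    have h7 : HasFDerivAt A (fderiv ℂ A 0) ((fun s : ℂ => be t (s, w)) 0) := by
      change HasFDerivAt A (fderiv ℂ A 0) (be t ((0 : ℂ), w))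
      rw [be_line]
      exact hA.differentiableAt.hasFDerivAt
    exact HasFDerivAt.comp_hasDerivAt (f := fun s : ℂ => be t (s, w)) (0 : ℂ) h7 h6
  rw [hd3.unique hd4]
  have h9 : ((1 : ℂ), w + t) = (1, 0) + (w + t) • ((0 : ℂ), (1 : ℂ)) := by
    ext <;> simp
  rw [h9, map_add, map_smul]
  rfl

/-- the classes of the transforms -/
theorem tp_px {P : (ℂ × ℂ → ℂ) → (ℂ × ℂ → ℂ) → Prop} {t : ℂ} (g J : ℂ × ℂ → ℂ) (h : TP 1 t P g J) : PX 1 g J := by
  obtain ⟨g₀, J₀, m, g', -, -, h2, h3, -, h5, h6⟩ := h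
  refine ⟨⟨g', h3, ?_⟩, ⟨fun p => J₀ (be t p), ?_, ?_⟩⟩
  · filter_upwards [h5] with p hp
    rw [hp, pow_one]
  · have h7 : AnalyticAt ℂ J₀ (be t 0) := by
      have h0 : be t 0 = 0 := be_line t 0
      rw [h0]
      exact h2
    exact h7.comp (an_be t 0)
  · filter_upwards [h6] with p hp
    rw [hp, pow_one]

theorem fderiv_fst {v : ℂ × ℂ → ℂ × ℂ} (hv : AnalyticAt ℂ v 0) (u : ℂ × ℂ) : fderiv ℂ (fun p => (v p).1) 0 u = (fderiv ℂ v 0 u).1 := by
  have h := (ContinuousLinearMap.fst ℂ ℂ ℂ).hasFDerivAt.comp (0 : ℂ × ℂ) hv.differentiableAt.hasFDerivAt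
  have h2 : fderiv ℂ (fun p => (v p).1) 0 = (ContinuousLinearMap.fst ℂ ℂ ℂ).comp (fderiv ℂ v 0) := h.fderiv
  rw [h2]
  rfl

theorem fderiv_snd {v : ℂ × ℂ → ℂ × ℂ} (hv : AnalyticAt ℂ v 0) (u : ℂ × ℂ) : fderiv ℂ (fun p => (v p).2) 0 u = (fderiv ℂ v 0 u).2 := by
  have h := (ContinuousLinearMap.snd ℂ ℂ ℂ).hasFDerivAt.comp (0 : ℂ × ℂ) hv.differentiableAt.hasFDerivAt
  have h2 : fderiv ℂ (fun p => (v p).2) 0 = (ContinuousLinearMap.snd ℂ ℂ ℂ).comp (fderiv ℂ v 0) := h.fderiv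
  rw [h2]
  rfl

/-- a quadratic polynomial which vanishes near `0` -/
theorem poly_zero {c₀ c₁ c₂ t : ℂ} (h : ∀ᶠ y in 𝓝 (0 : ℂ), c₀ + c₁ * (y + t) + c₂ * (y + t) ^ 2 = 0) : c₀ = 0 ∧ c₁ = 0 ∧ c₂ = 0 := by
  have h1 : AnalyticOnNhd ℂ (fun y : ℂ => c₀ + c₁ * (y + t) + c₂ * (y + t) ^ 2) Set.univ := by
    intro y _
    have h2 : AnalyticAt ℂ (fun y : ℂ => y + t) y := analyticAt_id.add analyticAt_const
    exact (analyticAt_const.add (analyticAt_const.mul h2)).add (analyticAt_const.mul (h2.pow 2))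
  have h3 := h1.eqOn_zero_of_preconnected_of_eventuallyEq_zero isPreconnected_univ (Set.mem_univ 0) h
  have e0 : c₀ + c₁ * (-t + t) + c₂ * (-t + t) ^ 2 = 0 := h3 (Set.mem_univ (-t))
  have e1 : c₀ + c₁ * (1 - t + t) + c₂ * (1 - t + t) ^ 2 = 0 := h3 (Set.mem_univ (1 - t))
  have e2 : c₀ + c₁ * (-1 - t + t) + c₂ * (-1 - t + t) ^ 2 = 0 := h3 (Set.mem_univ (-1 - t))
  have f0 : c₀ = 0 := by linear_combination e0
  have f1 : 2 * c₁ = 0 := by linear_combination e1 - e2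
  have f2 : 2 * c₂ = 0 := by linear_combination e1 + e2 - 2 * f0
  refine ⟨f0, ?_, ?_⟩
  · exact (mul_eq_zero.1 f1).resolve_left two_ne_zero
  · exact (mul_eq_zero.1 f2).resolve_left two_ne_zero

/-- the transforms of an elementary reduced singular point -/
theorem child {v : ℂ × ℂ → ℂ × ℂ} (hv : Iso v) (he : Elem v) (t : ℂ) : ∃ w : ℂ × ℂ → ℂ × ℂ, Child 0 1 t v w ∧
    (w 0 = 0 → ∀ P : (ℂ × ℂ → ℂ) → (ℂ × ℂ → ℂ) → Prop, Good (TP 1 t P) w) := by
  obtain ⟨hva, hv0, hvi⟩ := hv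
  obtain ⟨-, l, k, htr, hdt, hl0, hlk⟩ := he
  have hne : l ≠ k := by
    intro h
    apply hlk 1 1 one_pos one_pos
    rw [h]
  have ha : AnalyticAt ℂ (fun p => (v p).1) 0 := analyticAt_fst.comp hva
  have hb : AnalyticAt ℂ (fun p => (v p).2) 0 := analyticAt_snd.comp hva
  obtain ⟨A, hA, hA1, hA2⟩ := div ha (by rw [hv0]; rfl) t
  obtain ⟨B, hB, hB1, hB2⟩ := div hb (by rw [hv0]; rfl) t
  rw [fderiv_fst hva, fderiv_fst hva] at hA2
  rw [fderiv_snd hva, fderiv_snd hva] at hB2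
  set a₁ := (fderiv ℂ v 0 (1, 0)).1 with ha₁
  set a₂ := (fderiv ℂ v 0 (0, 1)).1 with ha₂
  set b₁ := (fderiv ℂ v 0 (1, 0)).2 with hb₁
  set b₂ := (fderiv ℂ v 0 (0, 1)).2 with hb₂
  set b : ℂ × ℂ → ℂ := fun p => B p - (p.2 + t) * A p with hbdef
  have hban : AnalyticAt ℂ b 0 := hB.sub ((analyticAt_snd.add analyticAt_const).mul hA)
  have hbl : ∀ᶠ y in 𝓝 (0 : ℂ), b (0, y) = b₁ + (b₂ - a₁) * (y + t) + (-a₂) * (y + t) ^ 2 := by
    filter_upwards [hA2, hB2] with y h1 h2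
    show B (0, y) - (y + t) * A (0, y) = _
    rw [h1, h2]
    ring
  -- the polynomial is not zero
  have hbne : ∀ᶠ y in 𝓝[≠] (0 : ℂ), b (0, y) ≠ 0 := by
    have h1 : AnalyticAt ℂ (fun y : ℂ => b (0, y)) 0 := by
      have h2 : AnalyticAt ℂ (fun y : ℂ => ((0 : ℂ), y)) 0 := analyticAt_const.prod analyticAt_id
      have h3 : AnalyticAt ℂ b ((fun y : ℂ => ((0 : ℂ), y)) 0) := hban
      exact h3.comp h2
    rcases h1.eventually_eq_zero_or_eventually_ne_zero with h | h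
    · exfalso
      obtain ⟨e0, e1, e2⟩ := poly_zero (t := t) (by
        filter_upwards [h, hbl] with y hy hy'
        rw [← hy', hy])
      apply hne
      have e3 : (l - k) ^ 2 = 0 := by
        have e4 : b₂ = a₁ := sub_eq_zero.1 e1
        have e5 : a₂ = 0 := neg_eq_zero.1 e2
        rw [e4] at htr hdt
        rw [e5] at hdt
        linear_combination (l + k + 2 * a₁) * htr - 4 * hdt
      exact sub_eq_zero.1 (pow_eq_zero_iff two_ne_zero |>.1 e3)
    · exact h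
  have hiso : ∀ᶠ p in 𝓝 (0 : ℂ × ℂ), p ≠ 0 → (p.1 * A p, b p) ≠ (0 : ℂ × ℂ) := by
    have h1 : ∀ᶠ p in 𝓝 (0 : ℂ × ℂ), p.2 ≠ 0 → b (0, p.2) ≠ 0 := by
      have h2 : Tendsto (fun p : ℂ × ℂ => p.2) (𝓝 0) (𝓝 0) := continuous_snd.tendsto' 0 0 rfl
      exact h2.eventually (eventually_nhdsWithin_iff.1 hbne)
    have h3 := (tend_be t).eventually hvi
    filter_upwards [h1, h3, hA1, hB1] with p hp1 hp3 hpA hpB hp0 hw
    have w1 : p.1 * A p = 0 := congrArg Prod.fst hw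
    have w2 : b p = 0 := congrArg Prod.snd hw
    by_cases hx : p.1 = 0
    · have hy : p.2 ≠ 0 := fun hy => hp0 (Prod.ext hx hy)
      apply hp1 hy
      have hp' : p = (0, p.2) := Prod.ext hx rfl
      rw [← hp']
      exact w2
    · have hA0 : A p = 0 := (mul_eq_zero.1 w1).resolve_left hx
      have hB0 : B p = 0 := by
        have : B p - (p.2 + t) * A p = 0 := w2
        rw [hA0, mul_zero, sub_zero] at this
        exact this
      apply hp3 (be_ne hx)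
      apply Prod.ext
      · rw [hpA, hA0, mul_zero]
        rfl
      · rw [hpB, hB0, mul_zero]
        rfl
  refine ⟨fun p => (p.1 * A p, b p), ⟨?_, ?_, ?_, ?_, Or.inl ⟨rfl, ?_⟩⟩, ?_⟩
  · exact (analyticAt_fst.mul hA).prod hban
  · filter_upwards [hA1] with p hp
    rw [hp, pow_zero, one_mul]
  · filter_upwards [hA1, hB1] with p hp hp'
    rw [hp, hp']
    show p.1 * B p = (p.2 + t) * (p.1 * A p) + p.1 ^ (0 + 1) * (B p - (p.2 + t) * A p)
    ring
  · exact hiso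
  · exact Eventually.of_forall fun y => by
      show (0 : ℂ) * A (0, y) = 0
      rw [zero_mul]
  · intro hw0 P
    refine Good.mono (P' := PX 1) tp_px ?_
    have hb0 : b 0 = 0 := congrArg Prod.snd hw0
    have hA0 : A 0 = a₁ + t * a₂ := by
      have h1 := hA2.self_of_nhds
      rw [zero_add] at h1
      exact h1
    have hb0' : b₁ + (b₂ - a₁) * t + (-a₂) * t ^ 2 = 0 := by
      have h1 := hbl.self_of_nhds
      rw [zero_add] at h1
      rw [← h1]
      exact hb0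
    have hbd : fderiv ℂ b 0 (0, 1) = b₂ - a₁ - 2 * t * a₂ := by
      have h1 : HasDerivAt (fun y : ℂ => b (0, y)) (fderiv ℂ b 0 (0, 1)) 0 := by
        have h2 : HasDerivAt (fun y : ℂ => ((0 : ℂ), y)) ((0 : ℂ), (1 : ℂ)) 0 :=
          (hasDerivAt_const (0 : ℂ) (0 : ℂ)).prodMk (hasDerivAt_id (0 : ℂ))
        have h3 : HasFDerivAt b (fderiv ℂ b 0) ((fun y : ℂ => ((0 : ℂ), y)) 0) := hban.differentiableAt.hasFDerivAt
        exact HasFDerivAt.comp_hasDerivAt (f := fun y : ℂ => ((0 : ℂ), y)) (0 : ℂ) h3 h2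
      have h4 : HasDerivAt (fun y : ℂ => b₁ + (b₂ - a₁) * (y + t) + (-a₂) * (y + t) ^ 2)
          ((b₂ - a₁) * 1 + (-a₂) * (2 * (0 + t) ^ 1 * 1)) 0 := by
        have h5 : HasDerivAt (fun y : ℂ => y + t) 1 0 := (hasDerivAt_id (0 : ℂ)).add_const t
        exact ((h5.const_mul (b₂ - a₁)).const_add b₁).add ((h5.pow 2).const_mul (-a₂))
      have h6 := h4.congr_of_eventuallyEq hbl
      rw [h1.unique h6]
      ring
    -- the eigenvalues
    set μ := fderiv ℂ b 0 (0, 1) with hμ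
    have e1 : A 0 + (A 0 + μ) = l + k := by
      rw [hA0, hbd, htr]
      ring
    have e2 : A 0 * (A 0 + μ) = l * k := by
      rw [hA0, hbd, hdt]
      linear_combination a₂ * hb0'
    have e3 : (A 0 - l) * (A 0 - k) = 0 := by
      linear_combination A 0 * e1 - e2
    rcases mul_eq_zero.1 e3 with e4 | e4
    · have e5 : A 0 = l := sub_eq_zero.1 e4
      have e6 : μ = k - l := by linear_combination e1 - 2 * e5
      refine good_A hA hban (by rw [e5]; exact hl0) hb0 (by rw [← hμ, e6]; exact sub_ne_zero.2 hne.symm) ?_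
      intro m n hm hn h
      rw [← hμ, e5, e6] at h
      apply hlk (m + n) n (by omega) hn
      push_cast
      linear_combination h
    · have e5 : A 0 = k := sub_eq_zero.1 e4
      have e6 : μ = l - k := by linear_combination e1 - 2 * e5
      have e7 : μ ≠ 0 := by rw [e6]; exact sub_ne_zero.2 hne
      by_cases hk : k = 0
      · exact good_B hA hban (by rw [e5]; exact hk) hb0 e7 hiso
      · refine good_A hA hban (by rw [e5]; exact hk) hb0 e7 ?_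
        intro m n hm hn h
        rw [← hμ, e5, e6] at h
        apply hlk n (m + n) hn (by omega)
        push_cast
        linear_combination -h

theorem iso_swap {v : ℂ × ℂ → ℂ × ℂ} (h : Iso v) : Iso (swv v) := by
  obtain ⟨h1, h2, h3⟩ := h
  have hs : AnalyticAt ℂ (Prod.swap : ℂ × ℂ → ℂ × ℂ) 0 := analyticAt_snd.prod analyticAt_fst
  refine ⟨?_, ?_, ?_⟩
  · have h4 : AnalyticAt ℂ (fun p : ℂ × ℂ => v p.swap) 0 := AnalyticAt.fun_comp (g := v) (f := Prod.swap) h1 hs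
    exact (analyticAt_snd.comp h4).prod (analyticAt_fst.comp h4)
  · show (v (0 : ℂ × ℂ).swap).swap = 0
    rw [show (0 : ℂ × ℂ).swap = 0 from rfl, h2]
    rfl
  · have h4 : Tendsto (Prod.swap : ℂ × ℂ → ℂ × ℂ) (𝓝 0) (𝓝 0) := continuous_swap.tendsto' 0 0 rfl
    filter_upwards [h4.eventually h3] with p hp hp0 h5
    apply hp (fun h6 => hp0 ?_)
    · exact Prod.swap_injective h5
    · exact Prod.swap_injective h6

theorem elem_swap {v : ℂ × ℂ → ℂ × ℂ} (hv : AnalyticAt ℂ v 0) (h : Elem v) : Elem (swv v) := by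
  obtain ⟨h0, l, k, h1, h2, h3, h4⟩ := h
  have hd : ∀ u, fderiv ℂ (swv v) 0 u = (fderiv ℂ v 0 u.swap).swap := by
    intro u
    let L : ℂ × ℂ →L[ℂ] ℂ × ℂ := (ContinuousLinearMap.snd ℂ ℂ ℂ).prod (ContinuousLinearMap.fst ℂ ℂ ℂ)
    have e1 : HasFDerivAt v (fderiv ℂ v 0) (L 0) := hv.differentiableAt.hasFDerivAt
    have e4 : HasFDerivAt (v ∘ L) ((fderiv ℂ v 0).comp L) 0 := e1.comp (0 : ℂ × ℂ) L.hasFDerivAt
    have e2 := (L.hasFDerivAt (x := (v ∘ L) 0)).comp (0 : ℂ × ℂ) e4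
    have e3 : fderiv ℂ (swv v) 0 = L.comp ((fderiv ℂ v 0).comp L) := e2.fderiv
    rw [e3]
    rfl
  have d1 : fderiv ℂ (swv v) 0 (1, 0) = (fderiv ℂ v 0 (0, 1)).swap := hd (1, 0)
  have d2 : fderiv ℂ (swv v) 0 (0, 1) = (fderiv ℂ v 0 (1, 0)).swap := hd (0, 1)
  refine ⟨?_, l, k, ?_, ?_, h3, h4⟩
  · show (v (0 : ℂ × ℂ).swap).swap = 0
    rw [show (0 : ℂ × ℂ).swap = 0 from rfl, h0]
    rfl
  · rw [d1, d2, h1]
    show _ = (fderiv ℂ v 0 (0, 1)).2 + (fderiv ℂ v 0 (1, 0)).1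
    ring
  · rw [d1, d2, h2]
    show _ = (fderiv ℂ v 0 (0, 1)).2 * (fderiv ℂ v 0 (1, 0)).1 - (fderiv ℂ v 0 (1, 0)).2 * (fderiv ℂ v 0 (0, 1)).1
    ring

end TE

/-- module TE: one blow-up; the singular directions are the two eigenvalue directions, of the types `good_A` or `good_B` -/
theorem good_elem {v : ℂ × ℂ → ℂ × ℂ} (hv : Iso v) (he : Elem v) : Good PT v := by
  choose w hw hg using TE.child hv he
  obtain ⟨wi, hwi, hgi⟩ := TE.child (TE.iso_swap hv) (TE.elem_swap hv.1 he) 0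
  exact good_step hv hw hwi (fun t h => hg t h PT) fun h => hgi h (SP PT)

end Pool.Agent.MQ2
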