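import Pool.Agent.MQ2.Defs
import Pool.Agent.SB.An.TreeR
import Pool.Agent.SB.Fin

/-!
# MQ2 Uni: the tree of an isolated singular point

The tree comes from the formal theorem (`SB.Red`).  With `l` the order of `v` and `P` the tangent form of degree `l + 1`: `e = l - 1`, `ι = 1` if `P ≠ 0`,
`e = l`, `ι = 0` otherwise; this does not depend on the direction.
-/

set_option autoImplicit false

open Topology Filter Metric MvPowerSeries

noncomputable section

namespace Pool.Agent.MQ2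

open SB (R2 cf Ord Jet)

/-! ### the tangent form -/

/-- the leading form at `(1, s)` -/
def lead (A : R2) (l : ℕ) : Polynomial ℂ := ∑ k ∈ Finset.range (l + 1), Polynomial.monomial k (cf A (l - k) k)

/-- the tangent form at `(1, s)` -/
def tang (A B : R2) (l : ℕ) : Polynomial ℂ := lead B l - Polynomial.X * lead A l

theorem coeff_lead (A : R2) (l k : ℕ) : (lead A l).coeff k = if k ≤ l then cf A (l - k) k else 0 := by
  rw [lead, Polynomial.finsetSum_coeff]
  simp only [Polynomial.coeff_monomial]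
  rw [Finset.sum_ite_eq']
  simp only [Finset.mem_range, Nat.lt_succ_iff]

theorem coeff_X_mul_lead (A : R2) (l k : ℕ) :
    (Polynomial.X * lead A l).coeff k = if 1 ≤ k ∧ k ≤ l + 1 then cf A (l + 1 - k) (k - 1) else 0 := by
  cases k with
  | zero => simp
  | succ k =>
    rw [Polynomial.coeff_X_mul, coeff_lead]
    by_cases h : k ≤ l
    · rw [if_pos h, if_pos ⟨by omega, by omega⟩, Nat.add_sub_add_right, Nat.add_sub_cancel]
    · rw [if_neg h, if_neg (by omega)]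

theorem cf_lead {A u : R2} {t : ℂ} {l : ℕ} (hu : X 0 ^ l * u = SB.bl t A) (j : ℕ) : cf u 0 j = (Polynomial.taylor t (lead A l)).coeff j := by
  rw [SB.cf_of_bl hu, Polynomial.taylor_coeff, lead, map_sum, Polynomial.eval_finsetSum, zero_add]
  refine Finset.sum_congr rfl fun k _ => ?_
  rw [Polynomial.hasseDeriv_monomial, Polynomial.eval_monomial]
  ring

theorem cf_tang {A B u w : R2} {t : ℂ} {l : ℕ} (hu : X 0 ^ l * u = SB.bl t A) (hw : X 0 ^ l * w = SB.bl t B) (j : ℕ) :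
    cf (w - (X 1 + C t) * u) 0 j = (Polynomial.taylor t (tang A B l)).coeff j := by
  have h1 : cf ((X 1 + C t) * u) 0 j = (Polynomial.taylor t (Polynomial.X * lead A l)).coeff j := by
    rw [Polynomial.taylor_mul, Polynomial.taylor_X, add_mul, add_mul, SB.cf_add, SB.cf_X1_mul, SB.cf_C_mul, Polynomial.coeff_add,
      Polynomial.coeff_C_mul, ← cf_lead hu]
    congr 1
    cases j with
    | zero => simp
    | succ j => rw [if_pos (by omega), Polynomial.coeff_X_mul, ← cf_lead hu, Nat.add_sub_cancel]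
  rw [SB.cf_sub, h1, cf_lead hw, tang, map_sub, Polynomial.coeff_sub]

theorem dvd_iff_tang {A B u w : R2} {t : ℂ} {l : ℕ} (hu : X 0 ^ l * u = SB.bl t A) (hw : X 0 ^ l * w = SB.bl t B) :
    X 0 ∣ w - (X 1 + C t) * u ↔ tang A B l = 0 := by
  rw [SB.X0_dvd_iff]
  constructor
  · intro h
    have h1 : Polynomial.taylor t (tang A B l) = 0 := Polynomial.ext fun j => by rw [← cf_tang hu hw, h, Polynomial.coeff_zero]
    exact Polynomial.taylor_injective t (by rw [h1, map_zero])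
  · intro h j
    rw [cf_tang hu hw, h, map_zero, Polynomial.coeff_zero]

theorem coeff_tang (A B : R2) (l k : ℕ) : (tang A B l).coeff k =
    (if k ≤ l then cf B (l - k) k else 0) - if 1 ≤ k ∧ k ≤ l + 1 then cf A (l + 1 - k) (k - 1) else 0 := by
  rw [tang, Polynomial.coeff_sub, coeff_lead, coeff_X_mul_lead]

theorem tang_sw (A B : R2) (l : ℕ) : tang (SB.sw B) (SB.sw A) l = 0 ↔ tang A B l = 0 := by
  have h1 : ∀ A B : R2, tang A B l = 0 → tang (SB.sw B) (SB.sw A) l = 0 := by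
    intro A B h
    refine Polynomial.ext fun k => ?_
    rw [Polynomial.coeff_zero, coeff_tang, SB.cf_sw, SB.cf_sw]
    by_cases hk : k ≤ l + 1
    · have h2 : (tang A B l).coeff (l + 1 - k) = 0 := by rw [h, Polynomial.coeff_zero]
      rw [coeff_tang] at h2
      by_cases hk0 : k = 0
      · subst hk0
        rw [if_pos (by omega), if_neg (by omega)]
        rw [if_neg (by omega), if_pos (by omega), zero_sub, neg_eq_zero] at h2
        have e1 : l + 1 - (l + 1 - 0) = 0 := by omega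
        have e2 : l + 1 - 0 - 1 = l - 0 := by omega
        rw [e1, e2] at h2
        rw [h2, sub_zero]
      · by_cases hk1 : k = l + 1
        · subst hk1
          rw [if_neg (by omega), if_pos (by omega)]
          rw [if_pos (by omega), if_neg (by omega), sub_zero] at h2
          have e1 : l - (l + 1 - (l + 1)) = l + 1 - 1 := by omega
          rw [e1] at h2
          rw [h2, sub_zero]
        · rw [if_pos (by omega), if_pos (by omega)]
          rw [if_pos (by omega), if_pos (by omega)] at h2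
          have e1 : l - (l + 1 - k) = k - 1 := by omega
          have e2 : l + 1 - (l + 1 - k) = k := by omega
          have e3 : l + 1 - k - 1 = l - k := by omega
          rw [e1, e2, e3] at h2
          rw [← neg_sub, h2, neg_zero]
    · rw [if_neg (by omega), if_neg (by omega), sub_zero]
  refine ⟨fun h => ?_, h1 A B⟩
  have h2 := h1 _ _ h
  rwa [SB.sw_sw, SB.sw_sw] at h2

/-! ### from a formal child to an analytic child -/

theorem be_tendsto (t : ℂ) : Tendsto (be t) (𝓝 0) (𝓝 0) := SB.bt_tendsto t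

theorem line_tendsto : Tendsto (fun y : ℂ => ((0, y) : ℂ × ℂ)) (𝓝 0) (𝓝 0) := by
  have h2 : Continuous fun x : ℂ => ((0, x) : ℂ × ℂ) := by fun_prop
  exact h2.tendsto 0

theorem line_analytic {f : ℂ × ℂ → ℂ} (hf : AnalyticAt ℂ f 0) : AnalyticAt ℂ (fun y : ℂ => f (0, y)) 0 :=
  AnalyticAt.comp (g := f) (f := fun y : ℂ => ((0, y) : ℂ × ℂ)) (x := 0) hf (analyticAt_const.prod analyticAt_id)

/-- a germ whose Taylor series is not divisible by `x` has isolated zeros on `{x = 0}` -/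
theorem line_ne {f : ℂ × ℂ → ℂ} (hf : AnalyticAt ℂ f 0) {A : R2} (hA : Jet f A) (h : ¬ X 0 ∣ A) : ∀ᶠ y in 𝓝[≠] (0 : ℂ), f (0, y) ≠ 0 := by
  refine (line_analytic hf).eventually_eq_zero_or_eventually_ne_zero.resolve_left fun h0 => h ?_
  -- `f = x g`
  rw [SB.X0_dvd_iff]
  intro j
  by_cases hz : ∀ᶠ p in 𝓝 (0 : ℂ × ℂ), f p = 0
  · have h1 : Jet f 0 := SB.jet_zero.congr (by filter_upwards [hz] with p hp; rw [hp])
    rw [hA.unique h1, cf, map_zero]
  obtain ⟨a, g', hg', hgk, hgn⟩ := H22.HF.exists_div hf hz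
  cases a with
  | zero =>
    exfalso
    refine hgn ?_
    filter_upwards [line_tendsto.eventually hgk, h0] with y h1 h2
    have h3 : f (0, y) = g' (0, y) := by rw [h1, pow_zero, one_mul]
    rw [← h3, h2]
  | succ a =>
    obtain ⟨v, hv⟩ := SB.exists_jet hg'
    have h1 : Jet f (X 0 ^ (a + 1) * v) := ((SB.jet_fst_pow (a + 1)).mul hv).congr (by filter_upwards [hgk] with p hp; rw [hp])
    rw [hA.unique h1, SB.cf_X0_pow_mul, if_neg (by omega)]

theorem child_of_formal {v : ℂ × ℂ → ℂ × ℂ} (hv : AnalyticAt ℂ v 0) (hiso : ∀ᶠ p in 𝓝 (0 : ℂ × ℂ), p ≠ 0 → v p ≠ 0) {A B : R2}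
    (hA : Jet (fun p => (v p).1) A) (hB : Jet (fun p => (v p).2) B) {t : ℂ} {e ι : ℕ} {A₁ B₁ : R2} (h1 : X 0 ^ e * A₁ = SB.bl t A)
    (h2 : X 0 ^ (e + 1) * B₁ = SB.bl t B - (X 1 + C t) * SB.bl t A) (h3 : ¬ (X 0 ∣ A₁ ∧ X 0 ∣ B₁))
    (hι : (ι = 1 ∧ X 0 ∣ A₁) ∨ (ι = 0 ∧ ¬ X 0 ∣ A₁)) :
    ∃ w : ℂ × ℂ → ℂ × ℂ, Child e ι t v w ∧ Jet (fun p => (w p).1) A₁ ∧ Jet (fun p => (w p).2) B₁ := by
  have hbe : ∀ p, be t p = SB.bt t p := fun p => rfl
  have ha : AnalyticAt ℂ (fun p => (v p).1) 0 := analyticAt_fst.comp hv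
  have hb : AnalyticAt ℂ (fun p => (v p).2) 0 := analyticAt_snd.comp hv
  have ha' : AnalyticAt ℂ (fun p => (v (be t p)).1) 0 :=
    AnalyticAt.comp (g := fun p => (v p).1) (f := SB.bt t) (by rw [SB.bt_zero]; exact ha) (SB.bt_analytic t 0)
  have hb' : AnalyticAt ℂ (fun p => (v (be t p)).2) 0 :=
    AnalyticAt.comp (g := fun p => (v p).2) (f := SB.bt t) (by rw [SB.bt_zero]; exact hb) (SB.bt_analytic t 0)
  have hJa : Jet (fun p => (v (be t p)).1) (X 0 ^ e * A₁) := by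
    rw [h1]
    exact hA.bl t
  have hJb : Jet (fun p => (v (be t p)).2 - (p.2 + t) * (v (be t p)).1) (X 0 ^ (e + 1) * B₁) := by
    rw [h2]
    exact (hB.bl t).sub ((SB.jet_snd.add (SB.jet_const t)).mul (hA.bl t))
  obtain ⟨a₁, h4, h5, h6⟩ := hJa.exists_div ha'
  obtain ⟨b₁, h7, h8, h9⟩ := hJb.exists_div (hb'.sub ((analyticAt_snd.add analyticAt_const).mul ha'))
  have hsnd : ∀ᶠ p in 𝓝 (0 : ℂ × ℂ), (v (be t p)).2 = (p.2 + t) * (v (be t p)).1 + p.1 ^ (e + 1) * b₁ p := by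
    filter_upwards [h8] with p hp
    have hp' : (v (be t p)).2 - (p.2 + t) * (v (be t p)).1 = p.1 ^ (e + 1) * b₁ p := hp
    rw [← hp']
    ring
  refine ⟨fun p => (a₁ p, b₁ p), ⟨h4.prod h7, h5, hsnd, ?_, ?_⟩, h6, h9⟩
  · -- isolated zeros
    have hline : ∀ᶠ y in 𝓝[≠] (0 : ℂ), ((a₁ (0, y), b₁ (0, y)) : ℂ × ℂ) ≠ 0 := by
      by_cases hd : X 0 ∣ A₁
      · have hd' : ¬ X 0 ∣ B₁ := fun h => h3 ⟨hd, h⟩
        filter_upwards [line_ne h7 h9 hd'] with y hy h
        exact hy (congrArg Prod.snd h)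
      · filter_upwards [line_ne h4 h6 hd] with y hy h
        exact hy (congrArg Prod.fst h)
    rw [eventually_nhdsWithin_iff] at hline
    have hline' : ∀ᶠ p in 𝓝 (0 : ℂ × ℂ), p.2 ≠ 0 → ((a₁ (0, p.2), b₁ (0, p.2)) : ℂ × ℂ) ≠ 0 := by
      have h10 : Tendsto (fun p : ℂ × ℂ => p.2) (𝓝 0) (𝓝 0) := by
        simpa using (continuous_snd (X := ℂ) (Y := ℂ)).tendsto (0 : ℂ × ℂ)
      filter_upwards [h10.eventually hline] with p hp hp2
      exact hp hp2
    filter_upwards [hline', h5, hsnd, (be_tendsto t).eventually hiso] with p h10 h11 h12 h13 hp hw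
    by_cases hp1 : p.1 = 0
    · have hp2 : p.2 ≠ 0 := fun h => hp (Prod.ext hp1 h)
      refine h10 hp2 ?_
      have h14 : ((0, p.2) : ℂ × ℂ) = p := Prod.ext hp1.symm rfl
      rw [h14]
      exact hw
    · have h15 : be t p ≠ 0 := fun h => hp1 (congrArg Prod.fst h)
      refine h13 h15 ?_
      have h16 : a₁ p = 0 := congrArg Prod.fst hw
      have h17 : b₁ p = 0 := congrArg Prod.snd hw
      have h18 : (v (be t p)).1 = 0 := by rw [h11, h16, mul_zero]
      refine Prod.ext h18 ?_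
      rw [h12, h18, h17, mul_zero, mul_zero, add_zero]
      rfl
  · rcases hι with ⟨hι, hd⟩ | ⟨hι, hd⟩
    · exact Or.inl ⟨hι, h6.restrict h4 ((SB.X0_dvd_iff _).1 hd)⟩
    · exact Or.inr ⟨hι, line_ne h4 h6 hd⟩

/-- `e` and `ι` are the same for all directions -/
theorem exists_children {A B : R2} {l : ℕ} (hl : 1 ≤ l) (ha : Ord l A) (hb : Ord l B) (hn : ¬ (Ord (l + 1) A ∧ Ord (l + 1) B)) {t : ℂ} :
    ∃ A₁ B₁ : R2, (X 0 ^ (if tang A B l = 0 then l else l - 1) * A₁ = SB.bl t A) ∧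
      (X 0 ^ ((if tang A B l = 0 then l else l - 1) + 1) * B₁ = SB.bl t B - (X 1 + C t) * SB.bl t A) ∧ ¬ (X 0 ∣ A₁ ∧ X 0 ∣ B₁) ∧
      (((if tang A B l = 0 then 0 else 1) = 1 ∧ X 0 ∣ A₁) ∨ ((if tang A B l = 0 then 0 else 1) = 0 ∧ ¬ X 0 ∣ A₁)) := by
  obtain ⟨u, hu⟩ := SB.exists_bl t ha
  obtain ⟨w, hw⟩ := SB.exists_bl t hb
  by_cases hP : tang A B l = 0
  · obtain ⟨c, hc⟩ := (dvd_iff_tang hu hw).2 hP
    have hXu : ¬ X 0 ∣ u := by
      intro h
      refine hn ⟨SB.ord_succ_of_dvd ha hu h, SB.ord_succ_of_dvd hb hw ?_⟩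
      have h1 : w = X 0 * c + (X 1 + C t) * u := by rw [← hc]; ring
      rw [h1]
      exact dvd_add (dvd_mul_right _ _) (h.mul_left _)
    simp only [if_pos hP]
    refine ⟨u, c, hu, ?_, fun h => hXu h.1, Or.inr ⟨trivial, hXu⟩⟩
    rw [← hu, ← hw, pow_succ, mul_assoc, ← hc]
    ring
  · have hXc : ¬ X 0 ∣ w - (X 1 + C t) * u := fun h => hP ((dvd_iff_tang hu hw).1 h)
    simp only [if_neg hP]
    have hl' : l - 1 + 1 = l := by omega
    refine ⟨X 0 * u, w - (X 1 + C t) * u, ?_, ?_, fun h => hXc h.2, Or.inl ⟨trivial, dvd_mul_right _ _⟩⟩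
    · rw [← mul_assoc, ← pow_succ, hl', hu]
    · rw [hl', ← hu, ← hw]
      ring

theorem min_ord {A B : R2} (h : A ≠ 0 ∨ B ≠ 0) : ∃ l, Ord l A ∧ Ord l B ∧ ¬ (Ord (l + 1) A ∧ Ord (l + 1) B) := by
  classical
  have hex : ∃ n, ¬ (Ord n A ∧ Ord n B) := by
    rcases h with h | h
    · obtain ⟨l, -, h2⟩ := SB.exists_ord h
      exact ⟨l + 1, fun h => h2 h.1⟩
    · obtain ⟨l, -, h2⟩ := SB.exists_ord h
      exact ⟨l + 1, fun h => h2 h.2⟩
  have h1 := Nat.find_spec hex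
  have h2 : Nat.find hex ≠ 0 := by
    intro h0
    rw [h0] at h1
    exact h1 ⟨fun i j hij => absurd hij (by omega), fun i j hij => absurd hij (by omega)⟩
  obtain ⟨l, hl⟩ := Nat.exists_eq_succ_of_ne_zero h2
  have h3 : Ord l A ∧ Ord l B := by
    by_contra h3
    have := Nat.find_min' hex h3
    omega
  refine ⟨l, h3.1, h3.2, ?_⟩
  rw [hl] at h1
  exact h1

theorem elem_of_jets {v : ℂ × ℂ → ℂ × ℂ} (hv : AnalyticAt ℂ v 0) {A B : R2} (hA : Jet (fun p => (v p).1) A) (hB : Jet (fun p => (v p).2) B)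
    (h : SB.Elem A B) : Elem v := by
  obtain ⟨h1, h2, l, k, h3, h4, h5, h6⟩ := h
  have hd : DifferentiableAt ℂ v 0 := hv.differentiableAt
  have hf1 : ∀ x, (fderiv ℂ v 0 x).1 = fderiv ℂ (fun p => (v p).1) 0 x := fun x => by
    rw [fderiv.fst hd]
    rfl
  have hf2 : ∀ x, (fderiv ℂ v 0 x).2 = fderiv ℂ (fun p => (v p).2) 0 x := fun x => by
    rw [fderiv.snd hd]
    rfl
  refine ⟨Prod.ext ?_ ?_, l, k, ?_, ?_, h5, h6⟩
  · have := hA.apply_zero
    rw [h1] at this
    exact this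
  · have := hB.apply_zero
    rw [h2] at this
    exact this
  · rw [hf1, hf2, hA.fderiv_fst, hB.fderiv_snd]
    exact h3
  · rw [hf1, hf1, hf2, hf2, hA.fderiv_fst, hA.fderiv_snd, hB.fderiv_fst, hB.fderiv_snd]
    exact h4

/-- the tree of the vector field from the tree of its Taylor series -/
theorem tree_of_red {A B : R2} (h : SB.Red A B) : (A ≠ 0 ∨ B ≠ 0) → ∀ v : ℂ × ℂ → ℂ × ℂ, AnalyticAt ℂ v 0 →
    (∀ᶠ p in 𝓝 (0 : ℂ × ℂ), p ≠ 0 → v p ≠ 0) → Jet (fun p => (v p).1) A → Jet (fun p => (v p).2) B → Tree v := by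
  induction h with
  | reg A B h =>
    intro _ v _ _ hA hB
    refine Tree.reg v fun h0 => ?_
    have h1 : (v 0).1 = cf A 0 0 := hA.apply_zero
    have h2 : (v 0).2 = cf B 0 0 := hB.apply_zero
    rw [h0] at h1 h2
    rcases h with h | h
    · exact h h1.symm
    · exact h h2.symm
  | elem A B h =>
    intro _ v hv _ hA hB
    exact Tree.elem v (elem_of_jets hv hA hB h)
  | blow A B _ _ ih1 ih2 =>
    intro hne v hv hiso hA hB
    by_cases h0 : v 0 = 0
    swap
    · exact Tree.reg v h0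
    have hA0 : cf A 0 0 = 0 := by
      have h1 : (v 0).1 = cf A 0 0 := hA.apply_zero
      rw [h0] at h1
      exact h1.symm
    have hB0 : cf B 0 0 = 0 := by
      have h1 : (v 0).2 = cf B 0 0 := hB.apply_zero
      rw [h0] at h1
      exact h1.symm
    obtain ⟨l, ha, hb, hn⟩ := min_ord hne
    have hl : 1 ≤ l := by
      by_contra hlt
      have hl0 : l = 0 := by omega
      subst hl0
      refine hn ⟨fun i j hij => ?_, fun i j hij => ?_⟩
      · have hi : i = 0 := by omega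
        have hj : j = 0 := by omega
        rw [hi, hj, hA0]
      · have hi : i = 0 := by omega
        have hj : j = 0 := by omega
        rw [hi, hj, hB0]
    have hch : ∀ t : ℂ, ∃ w : ℂ × ℂ → ℂ × ℂ,
        Child (if tang A B l = 0 then l else l - 1) (if tang A B l = 0 then 0 else 1) t v w ∧ Tree w := by
      intro t
      obtain ⟨A₁, B₁, h1, h2, h3, h4⟩ := exists_children (t := t) hl ha hb hn
      obtain ⟨w, h5, h6, h7⟩ := child_of_formal hv hiso hA hB h1 h2 h3 h4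
      have hc : SB.Child t A B A₁ B₁ := ⟨_, h1, h2, h3⟩
      exact ⟨w, h5, ih1 t A₁ B₁ hc (SB.child_ne hc) w h5.an h5.iso h6 h7⟩
    choose w hw hwt using hch
    -- the point at infinity
    have hsw : ∀ q, AnalyticAt ℂ (fun p : ℂ × ℂ => p.swap) q := fun q => analyticAt_snd.prod analyticAt_fst
    have hvs : AnalyticAt ℂ (swv v) 0 := by
      have h1 : AnalyticAt ℂ (fun p : ℂ × ℂ => v p.swap) 0 := AnalyticAt.comp (g := v) (f := fun p : ℂ × ℂ => p.swap) hv (hsw 0)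
      exact AnalyticAt.comp (g := fun p : ℂ × ℂ => p.swap) (f := fun p : ℂ × ℂ => v p.swap) (hsw _) h1
    have hts : Tendsto (fun p : ℂ × ℂ => p.swap) (𝓝 0) (𝓝 0) := by
      have := (continuous_swap (X := ℂ) (Y := ℂ)).tendsto 0
      simpa using this
    have hisos : ∀ᶠ p in 𝓝 (0 : ℂ × ℂ), p ≠ 0 → swv v p ≠ 0 := by
      filter_upwards [hts.eventually hiso] with p hp hp0 h1
      refine hp (fun h2 => hp0 ?_) ?_
      · rw [← p.swap_swap, h2]
        rfl
      · have h3 : (v p.swap).swap = 0 := h1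
        rw [← (v p.swap).swap_swap, h3]
        rfl
    have hAs : Jet (fun p => (swv v p).1) (SB.sw B) := hB.sw
    have hBs : Jet (fun p => (swv v p).2) (SB.sw A) := hA.sw
    obtain ⟨A₂, B₂, h1, h2, h3, h4⟩ := exists_children (t := 0) (A := SB.sw B) (B := SB.sw A) hl (SB.ord_sw.2 hb) (SB.ord_sw.2 ha)
      fun h => hn ⟨SB.ord_sw.1 h.2, SB.ord_sw.1 h.1⟩
    simp only [tang_sw] at h1 h2 h4
    obtain ⟨wi, h5, h6, h7⟩ := child_of_formal hvs hisos hAs hBs h1 h2 h3 h4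
    have hc : SB.Child 0 (SB.sw B) (SB.sw A) A₂ B₂ := ⟨_, h1, h2, h3⟩
    exact Tree.blow v _ _ w wi hw h5 hwt (ih2 A₂ B₂ hc (SB.child_ne hc) wi h5.an h5.iso h6 h7)

theorem tree_of_iso' (hred : ∀ A B : R2, SB.Fin2 A B → SB.Red A B) {v : ℂ × ℂ → ℂ × ℂ} (hv : Iso v) : Tree v := by
  obtain ⟨h1, -, h3⟩ := hv
  have ha : AnalyticAt ℂ (fun p => (v p).1) 0 := analyticAt_fst.comp h1
  have hb : AnalyticAt ℂ (fun p => (v p).2) 0 := analyticAt_snd.comp h1
  obtain ⟨A, hA⟩ := SB.exists_jet ha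
  obtain ⟨B, hB⟩ := SB.exists_jet hb
  have hiso : ∀ᶠ p in 𝓝 (0 : ℂ × ℂ), p ≠ 0 → (v p).1 ≠ 0 ∨ (v p).2 ≠ 0 := by
    filter_upwards [h3] with p hp hp0
    by_contra hcon
    push Not at hcon
    exact hp hp0 (Prod.ext hcon.1 hcon.2)
  obtain ⟨h4, h5⟩ := SB.fin2_of_isolated ha hb hiso hA hB
  exact tree_of_red (hred A B h4) h5 v h1 h3 hA hB

/-- `e` and `ι` do not depend on the direction: with `l` the order of `v` and `P` the tangent form: `e = l - 1`, `ι = 1` if `P ≠ 0`, `e = l`, `ι = 0` otherwise -/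
theorem tree_of_iso {v : ℂ × ℂ → ℂ × ℂ} (hv : Iso v) : Tree v := tree_of_iso' SB.red_of_fin2 hv

end Pool.Agent.MQ2
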