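import Pool.Agent.MQ2.Cong
import Pool.Agent.MQ2.Uni
import Pool.Agent.MQ2.Step
import Pool.Agent.MQ2.TE

/-!
# MQ2 GoodT: the package at every isolated singular point
-/

set_option autoImplicit false

open Topology Filter Metric MeasureTheory Asymptotics Laplacian

noncomputable section

namespace Pool.Agent.MQ2

theorem good_of_tree {v : ℂ × ℂ → ℂ × ℂ} (ht : Tree v) (hv : Iso v) : Good PT v := by
  induction ht with
  | reg v h => exact absurd hv.2.1 h
  | elem v h => exact good_elem hv h
  | blow v e ι w wi hw hwi _ _ ih ihi =>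
    refine good_step hv hw hwi (fun t h0 => ?_) fun h0 => ?_
    · exact (ih t ⟨(hw t).an, h0, (hw t).iso⟩).mono fun _ _ _ => trivial
    · exact (ihi ⟨hwi.an, h0, hwi.iso⟩).mono fun _ _ _ => trivial

theorem good_of_iso {v : ℂ × ℂ → ℂ × ℂ} (hv : Iso v) : Good PT v := good_of_tree (tree_of_iso hv) hv

end Pool.Agent.MQ2
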