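import Pool.Agent.MQ2.FinG0
import Pool.Agent.MQ2.GoodT

/-!
# MQ2 FinG: the entire curves of order two tangent to a foliation of a surface of general type lie in one algebraic curve

The singular points of the foliation are arbitrary isolated singular points.
-/

set_option autoImplicit false

open Topology Filter Metric MvPolynomial

noncomputable section

namespace Pool.Agent.MQ2

open Pool.Agent.MQ
open Pool.Agent.H36.BP (EN)
open Pool.Agent.H17 (PN VanishesAt HolomorphicInto)
open Pool.Agent.H17EF (projVar coneE)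
open Pool.Agent.H13.OT (OrderTwo)
open Pool.Agent.H62.FC (Homog)
open Pool.Agent.H17LG.Variety (FunField)
open Pool.Agent.AD.NC (IsSmooth IsOfLogGeneralType)

variable {M : ℕ} {P : Ideal (MvPolynomial (Fin (M + 1)) ℂ)} {FF : Set (EN M × EN M)}

/-- module FinG (helper99): as `MQ.exists_R` (MQ/Fin), with `good_of_iso`, `exists_cdata2`, `hasOrd_of`, `Sieg`, `pack_of_locX`, `false_of_pack` -/
theorem exists_R_fol [P.IsPrime] (hP : Homog P) (hdim : ∃ z : Fin 2 → FunField P, IsTranscendenceBasis ℂ z) (hsmooth : IsSmooth P 2)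
    (hgt : IsOfLogGeneralType P (Fin.elim0 : Fin 0 → MvPolynomial (Fin (M + 1)) ℂ) 2) (h : IsFol P FF) :
    ∃ (R : MvPolynomial (Fin (M + 1)) ℂ) (d : ℕ), R.IsHomogeneous d ∧ R ∉ P ∧ ∀ g : ℂ → PN M, HolomorphicInto g Set.univ → OrderTwo g →
      (∀ z, g z ∈ projVar P) → (∃ z w, g z ≠ g w) → IsLeafwise P FF g → ∀ z, VanishesAt R (g z) :=
  exists_R_fol_of (fun _ hv => good_of_iso hv) hP hdim hsmooth hgt h

end Pool.Agent.MQ2
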