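import Pool.Agent.MQ2.Pack2
import Pool.Agent.MQ2.CC2
import Pool.Agent.MQ2.SepC
import Pool.Agent.MQ.Gauge
import Pool.Agent.MQ.FrameB
import Pool.Agent.MQ.EE2
import Pool.Agent.MQ.VFin
import Pool.Agent.MQ.Fub
import Pool.Agent.MQ.Ord
import Pool.Agent.MQ.OrdV
import Pool.Agent.MQ.Sieg
import Pool.Agent.E2.Kod
import Pool.Agent.AD.T.NCProof
import Pool.Agent.H22.WL.Proj
import Pool.Agent.H36.BP.CirA

/-!
# MQ2 FinG0: the entire curves of order two tangent to a foliation of a surface of general type lie in one algebraic curve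

The singular points of the foliation are arbitrary isolated singular points.  The package `good` is an argument here; `FinG` is the final form.
-/

set_option autoImplicit false

open Topology Filter Metric MvPolynomial Asymptotics MeasureTheory Laplacian

noncomputable section

namespace Pool.Agent.MQ2

open Pool.Agent.MQ
open Pool.Agent.H36.BP (EN fs OrdTwo circle_approx)
open Pool.Agent.H17BP (IsChart IsForm Surface)
open Pool.Agent.H17 (PN VanishesAt HolomorphicInto)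
open Pool.Agent.H17EF (projVar coneE)
open Pool.Agent.H13.OT (OrderTwo)
open Pool.Agent.H13.SM (conTan)
open Pool.Agent.H62.FC (Homog)
open Pool.Agent.H17LG.Variety (FunField)
open Pool.Agent.AD.NC (IsSmooth IsOfLogGeneralType)
open Pool.Agent.H30M (tau avg rhoR LogSing tau_nonneg)
open Pool.Agent.H14.V (IsLift)
open Pool.Agent.H22.WL (vanishesAt_lift)

variable {M : ℕ} {P : Ideal (MvPolynomial (Fin (M + 1)) ℂ)} {FF : Set (EN M × EN M)}

/-! ## the lift (copies of the lemmas of MQ/Fin) -/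

/-- from the averages to the characteristic function -/
private theorem fin_ordTwo {N : ℕ} {H : ℂ → EN N} (hH : Differentiable ℂ H) (h0 : ∀ z, H z ≠ 0) {A : ℝ}
    (hA : ∀ r : ℝ, 0 < r → Real.circleAverage (fun z => Real.log ‖H z‖) 0 r ≤ A * (1 + r ^ 2)) : OrdTwo H := by
  have hn : ∀ z, 0 < ‖H z‖ := fun z => norm_pos_iff.2 (h0 z)
  have hlc : Continuous fun z => Real.log ‖H z‖ := hH.continuous.norm.log fun z => (hn z).ne'
  refine ⟨A + 2 + |Real.log ‖H 0‖|, fun r hr => ?_⟩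
  obtain ⟨u, hu, huR⟩ := circle_approx hr (fun z => Real.log ‖H z‖) hlc.continuousOn one_pos
  have hexp : ∀ z, ‖Complex.exp (-u z - 1) • H z‖ = Real.exp (-(u z).re - 1 + Real.log ‖H z‖) := by
    intro z
    rw [norm_smul, Complex.norm_exp, Real.exp_add, Real.exp_log (hn z)]
    simp
  have hup : ∀ z ∈ ball (0 : ℂ) r, ‖Complex.exp (-u z - 1) • H z‖ ≤ 1 := by
    intro z hz
    have hd : DiffContOnCl ℂ (fun z => Complex.exp (-u z - 1) • H z) (ball (0 : ℂ) r) :=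
      ((hu.neg.sub_const _).cexp.smul hH).diffContOnCl
    refine Complex.norm_le_of_forall_mem_frontier_norm_le isBounded_ball hd (fun y hy => ?_)
      (subset_closure hz)
    rw [frontier_ball _ hr.ne'] at hy
    rw [hexp y, Real.exp_le_one_iff]
    have h1 := (abs_le.1 (huR y hy)).1
    linarith
  have hmean : (u 0).re ≤ A * (1 + r ^ 2) + 1 := by
    have h1 : Real.circleAverage (fun z => (u z).re) 0 r = (u 0).re := by
      have h2 : CircleIntegrable u 0 r := hu.continuous.continuousOn.circleIntegrable'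
      have h3 := Complex.reCLM.circleAverage_comp_comm h2
      have h4 : Real.circleAverage u 0 r = u 0 := hu.diffContOnCl.circleAverage
      rw [h4] at h3
      exact h3
    have h5 : Real.circleAverage (fun z => (u z).re) 0 r ≤ Real.circleAverage (fun z => Real.log ‖H z‖ + 1) 0 r := by
      refine Real.circleAverage_mono (Complex.continuous_re.comp hu.continuous).continuousOn.circleIntegrable'
        (hlc.add continuous_const).continuousOn.circleIntegrable' fun z hz => ?_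
      rw [abs_of_pos hr] at hz
      have h6 := (abs_le.1 (huR z hz)).2
      show (u z).re ≤ Real.log ‖H z‖ + 1
      linarith
    have h7 : Real.circleAverage (fun z => Real.log ‖H z‖ + 1) 0 r = Real.circleAverage (fun z => Real.log ‖H z‖) 0 r + 1 := by
      have h8 := Real.circleAverage_add (c := 0) (R := r) hlc.continuousOn.circleIntegrable'
        (continuous_const (y := (1 : ℝ))).continuousOn.circleIntegrable'
      have h9 : Real.circleAverage (fun _ : ℂ => (1 : ℝ)) 0 r = 1 := Real.circleAverage_const _ _ _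
      rw [h9] at h8
      exact h8
    linarith [hA r hr]
  refine ⟨fun z => Complex.exp (-u z - 1) • H z, ?_, hup, ?_, fun z _ => Or.inr ?_⟩
  · exact ((hu.neg.sub_const _).cexp.smul hH).differentiableOn
  · show _ ≤ ‖Complex.exp (-u 0 - 1) • H 0‖
    rw [hexp 0, Real.exp_le_exp]
    have h1 := neg_abs_le (Real.log ‖H 0‖)
    have h2 : 0 ≤ |Real.log ‖H 0‖| := abs_nonneg _
    have h3 : 0 ≤ r ^ 2 := sq_nonneg r
    nlinarith [mul_nonneg h2 h3]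
  · refine ⟨(Complex.exp (-u z - 1))⁻¹, inv_ne_zero (Complex.exp_ne_zero _), ?_⟩
    rw [smul_smul, inv_mul_cancel₀ (Complex.exp_ne_zero _), one_smul]

/-- the growth of an arbitrary lift of a curve of order two -/
private theorem growth_of_orderTwo {g : ℂ → PN M} (hg : OrderTwo g) {G : ℂ → EN M} (hG : IsLift G g) :
    ∃ A : ℝ, ∀ r : ℝ, 0 < r → Real.circleAverage (fun z => Real.log ‖G z‖) 0 r ≤ A * (1 + r ^ 2) := by
  obtain ⟨F₀, A, hF, hFg, hA⟩ := hg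
  have hF0 : ∀ z, F₀ z ≠ 0 := fun z => (hFg z).1
  obtain ⟨h1, h2, A', hA'⟩ := circleAverage_toLp_le hF hF0 hA
  have h3 : OrdTwo fun z => (WithLp.toLp 2 (F₀ z) : EN M) := fin_ordTwo h1 h2 hA'
  refine circleAverage_le_of_ordTwo hG.1 (fun z => hG.ne_zero z) (h3.congr fun z => ?_)
  obtain ⟨h4, h5⟩ := hFg z
  obtain ⟨h6, h7⟩ := hG.2 z
  obtain ⟨c, hc, h8⟩ := Pool.Agent.H13.OT.pr_of_mk_eq h6 h4 (h7.symm.trans h5)
  refine ⟨c, hc, ?_⟩
  apply WithLp.ofLp_injective 2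
  rw [h8]
  rfl

/-- the lift of a curve tangent to the foliation -/
private theorem crv_of_lift {g : ℂ → PN M} (hg : OrderTwo g) (hne : ∃ z w, g z ≠ g w) {G : ℂ → EN M} (hG : IsLift G g)
    (hGF : ∀ z, G z ∈ coneE P ∧ (G z, deriv G z) ∈ FF) : Crv P FF G := by
  refine ⟨hG.1, fun z => (hGF z).1, fun z => (hGF z).2, growth_of_orderTwo hg hG, ?_⟩
  obtain ⟨z, w, hzw⟩ := hne
  refine ⟨z, w, fun c hc => hzw ?_⟩
  obtain ⟨h1, h2⟩ := hG.2 z
  obtain ⟨h3, h4⟩ := hG.2 w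
  rw [h2, h4, Projectivization.mk_eq_mk_iff']
  exact ⟨c, by rw [hc]; rfl⟩

/-! ## the package in a box -/

private theorem locX_mono {v : ℂ × ℂ → ℂ × ℂ} {g J : ℂ × ℂ → ℂ} {Om : Set ℂ} {p : ℂ → ℂ × ℂ} {lm : ℂ → ℝ} {s A δ δ' : ℝ}
    (h : LocX v g J Om p lm s A δ) (hδ : δ ≤ δ') : LocX v g J Om p lm s A δ' := by
  obtain ⟨C, l, η, Φ, err, h0, h1, h2, h3, h4, h5, h6, h7, h8, h9, h10, h11⟩ := h
  refine ⟨C, l, η, Φ, err, h0, h1, h2, h3, h4, h5, h6, h7, h8, h9, h10, fun R hR => (h11 R hR).trans ?_⟩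
  have h12 : 0 ≤ ∫ z, tau R z * lm z ^ 2 := integral_nonneg fun z => mul_nonneg (tau_nonneg hR z) (sq_nonneg _)
  have := mul_le_mul_of_nonneg_right hδ h12
  linarith

/-- a form of degree `d` is at most `C |x| ^ d` -/
private theorem form_le {d : ℕ} {Q : MvPolynomial (Fin (M + 1)) ℂ} (hQ : Q.IsHomogeneous d) :
    ∃ C : ℝ, 1 ≤ C ∧ ∀ x : EN M, ‖eval x.ofLp Q‖ ≤ C * ‖x‖ ^ d := by
  refine ⟨1 + ∑ m ∈ Q.support, ‖coeff m Q‖, by
    have : 0 ≤ ∑ m ∈ Q.support, ‖coeff m Q‖ := Finset.sum_nonneg fun _ _ => norm_nonneg _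
    linarith, fun x => ?_⟩
  have h1 : ‖eval x.ofLp Q‖ ≤ (∑ m ∈ Q.support, ‖coeff m Q‖) * ‖x‖ ^ d := by
    rw [MvPolynomial.eval_eq', Finset.sum_mul]
    refine (norm_sum_le _ _).trans (Finset.sum_le_sum fun m hm => ?_)
    rw [norm_mul, norm_prod]
    refine mul_le_mul_of_nonneg_left ?_ (norm_nonneg _)
    have hdeg : ∑ i, m i = d := by
      have := hQ (MvPolynomial.mem_support_iff.1 hm)
      rw [Finsupp.weight_apply] at this
      simpa [Finsupp.sum_fintype] using this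
    rw [← hdeg, ← Finset.prod_pow_eq_pow_sum]
    refine Finset.prod_le_prod (fun _ _ => norm_nonneg _) fun i _ => ?_
    rw [norm_pow]
    exact pow_le_pow_left₀ (norm_nonneg _) (PiLp.norm_apply_le x i) _
  have h2 : 0 ≤ ‖x‖ ^ d := by positivity
  linarith

/-- the data of a curve and a form in a singular box -/
private theorem dat_of {A : Atlas P FF} {D : CData A} {m j : ℕ} (hm1 : 1 ≤ m) {W : EN M → EN M → EN M → ℂ} (hW : IsForm (coneE P) m j W) {F : ℂ → EN M}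
    (hF : Crv P FF F) (hR : ∃ z, eval (F z).ofLp D.R ≠ 0) (hWF : ∃ z w, Pool.Agent.H17BP.Tan (coneE P) (F z) w ∧ W (F z) (deriv F z) w ≠ 0) {i : A.ι}
    (hv0 : (A.B i).v 0 = 0) {Bc : ℝ} (hB : ∀ z ∈ (A.B i).Om F, ‖deriv ((A.B i).cc F) z‖ ≤ Bc * lam F z) {Q : MvPolynomial (Fin (M + 1)) ℂ} {d : ℕ}
    (hQ : Q.IsHomogeneous d) (hQF : ∃ z, eval (F z).ofLp Q ≠ 0) : ∃ c₁ : ℝ, Dat (A.B i).v (D.g i) (A.B i).r Bc d (fun p => eval ((A.B i).σ p).ofLp Q)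
      (fun p => Real.log ‖(A.B i).σ p‖) F (fun z => (c₁ : ℂ) * eval (F z).ofLp Q) (lam F) ((A.B i).Om F) ((A.B i).cc F) := by
  obtain ⟨C, hC1, hC⟩ := form_le hQ
  have hC0 : 0 < C := by linarith
  have hF0 : ∀ z, F z ≠ 0 := fun z => fr_cone_ne (hF.mem z)
  have hnear := fun z (hz : z ∈ (A.B i).Om F) => ne_near hm1 hW hF hR hWF (D := D) hz
  refine ⟨C⁻¹, hF.one (A.B i), fun z hz => ?_, fun z hz => ?_, continuous_lam hF.diff hF0, lam_nonneg F, hB, hF.diff, hF0, fun z => le_rfl, ?_, ?_, ?_, ?_⟩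
  · refine ((hnear z hz).frequently).filter_mono nhdsWithin_le_nhds |>.mono fun w hw h0 => hw.2.1 ?_
    rw [h0, hv0]
  · exact ((hnear z hz).frequently).filter_mono nhdsWithin_le_nhds |>.mono fun w hw => hw.2.2.2.2.2
  · have h1 : Differentiable ℂ fun z => eval (F z).ofLp Q := fun z =>
      ((Pool.Agent.H14.PP.analyticAt_evalEN Q (F z)).comp (hF.diff.analyticAt z)).differentiableAt
    exact h1.const_mul _
  · obtain ⟨z, hz⟩ := hQF
    exact ⟨z, mul_ne_zero (by exact_mod_cast (inv_pos.2 hC0).ne') hz⟩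
  · intro z
    rw [norm_mul, Complex.norm_real, Real.norm_of_nonneg (inv_pos.2 hC0).le, inv_mul_le_iff₀ hC0]
    exact hC (F z)
  · refine ⟨C⁻¹, inv_pos.2 hC0, fun z hz => ?_⟩
    have h1 := form_cc (A.B i) hF hQ hz
    rw [norm_mul, Complex.norm_real, Real.norm_of_nonneg (inv_pos.2 hC0).le, mul_assoc, h1, mul_assoc]

/-- The package at the singular points, for all small radii. -/
def RadG (m : (ℂ × ℂ → ℂ × ℂ) → ℕ) (fam : ∀ v : ℂ × ℂ → ℂ × ℂ, Fin (m v) → ℕ → ℂ → ℂ × ℂ) (v : ℂ × ℂ → ℂ × ℂ) (g : ℂ × ℂ → ℂ) (r : ℝ) : Prop :=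
  ∀ s, 0 < s → s < r → ∀ B, 0 ≤ B → ∃ A C₀ : ℝ, 0 ≤ A ∧ 0 ≤ C₀ ∧
    ∀ (d n : ℕ) (q : ℂ × ℂ → ℂ) (ψ : ℂ × ℂ → ℝ), 1 ≤ d → 1 ≤ n → AnalyticAt ℂ q 0 → ContDiffAt ℝ 1 ψ 0 → (∀ i, FZero (fam v i) g ∨ HasOrd (fam v i) q n) →
      ∀ (M : ℕ) (F : ℂ → EN M) (Q : ℂ → ℂ) (lm : ℂ → ℝ) (Om : Set ℂ) (p : ℂ → ℂ × ℂ), Dat v g r B d q ψ F Q lm Om p →
        LocX v g (fun _ => 1) Om p lm s A (C₀ * d / n)

private theorem exists_fam (hgood : ∀ v : ℂ × ℂ → ℂ × ℂ, Iso v → Good PT v) : ∃ (m : (ℂ × ℂ → ℂ × ℂ) → ℕ) (fam : ∀ v : ℂ × ℂ → ℂ × ℂ, Fin (m v) → ℕ → ℂ → ℂ × ℂ),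
    (∀ v, Iso v → ∀ l, Sep v (fam v l)) ∧ ∀ v g, Iso v → Wt v g → ∀ᶠ r in 𝓝[>] (0 : ℝ), RadG m fam v g r := by
  classical
  have h : ∀ v : ℂ × ℂ → ℂ × ℂ, ∃ (m : ℕ) (c : Fin m → ℕ → ℂ → ℂ × ℂ), Iso v → (∀ l, Sep v (c l)) ∧
      ∀ g J : ℂ × ℂ → ℂ, PT g J → Wt v g → AnalyticAt ℂ J 0 → ∀ᶠ r in 𝓝[>] (0 : ℝ), ∀ s, 0 < s → s < r → ∀ B, 0 ≤ B → ∃ A C₀ : ℝ, 0 ≤ A ∧ 0 ≤ C₀ ∧
        ∀ (d n : ℕ) (q : ℂ × ℂ → ℂ) (ψ : ℂ × ℂ → ℝ), 1 ≤ d → 1 ≤ n → AnalyticAt ℂ q 0 → ContDiffAt ℝ 1 ψ 0 → (∀ i, FZero (c i) g ∨ HasOrd (c i) q n) →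
          ∀ (M : ℕ) (F : ℂ → EN M) (Q : ℂ → ℂ) (lm : ℂ → ℝ) (Om : Set ℂ) (p : ℂ → ℂ × ℂ), Dat v g r B d q ψ F Q lm Om p →
            LocX v g J Om p lm s A (C₀ * d / n) := by
    intro v
    by_cases hv : Iso v
    · obtain ⟨m, c, h1, h2⟩ := hgood v hv
      exact ⟨m, c, fun _ => ⟨h1, h2⟩⟩
    · exact ⟨0, fun l => l.elim0, fun hv' => absurd hv' hv⟩
  choose m fam hfam using h
  refine ⟨m, fam, fun v hv => (hfam v hv).1, fun v g hv hg => ?_⟩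
  exact (hfam v hv).2 g (fun _ => 1) trivial hg analyticAt_const

/-- **The entire curves of order two which are tangent to a foliation (with isolated singular points) of a surface of general type lie in one algebraic
curve.** -/
theorem exists_R_fol_of (hgood : ∀ v : ℂ × ℂ → ℂ × ℂ, Iso v → Good PT v) [P.IsPrime] (hP : Homog P) (hdim : ∃ z : Fin 2 → FunField P, IsTranscendenceBasis ℂ z) (hsmooth : IsSmooth P 2)
    (hgt : IsOfLogGeneralType P (Fin.elim0 : Fin 0 → MvPolynomial (Fin (M + 1)) ℂ) 2) (h : IsFol P FF) :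
    ∃ (R : MvPolynomial (Fin (M + 1)) ℂ) (d : ℕ), R.IsHomogeneous d ∧ R ∉ P ∧ ∀ g : ℂ → PN M, HolomorphicInto g Set.univ → OrderTwo g →
      (∀ z, g z ∈ projVar P) → (∃ z w, g z ≠ g w) → IsLeafwise P FF g → ∀ z, VanishesAt R (g z) := by
  classical
  obtain ⟨z, hz⟩ := id hdim
  have hsm : ∀ y : Fin (M + 1) → ℂ, y ≠ 0 → (∀ Q ∈ P, eval y Q = 0) → Module.finrank ℂ (conTan P y) ≤ 3 :=
    fun y h0 h1 => hsmooth y h0 h1
  have hgt' : Pool.Agent.H62.FC.LogGeneralType P ∅ 2 := by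
    have h1 : (Pool.Agent.H62.FC.OnBoundary P ∅ (w := 2)) = fun _ => False := by
      funext E
      apply propext
      constructor
      · rintro ⟨j, -, -, i, hi, -⟩
        exact absurd hi (Finset.notMem_empty i)
      · exact False.elim
    have h2 := (Pool.Agent.AD.NC.isOfLogGeneralType_zero P _ 2).1 hgt
    unfold Pool.Agent.H62.FC.LogGeneralType
    rw [h1]
    exact h2
  have hX : Surface (coneE P) := Pool.Agent.H90.SG.surface_coneE hP hz hsm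
  have hPp : P.IsPrime := inferInstance
  obtain ⟨mf, fam, hfam, hRad⟩ := exists_fam hgood
  obtain ⟨A, D, hsing⟩ := exists_cdata2 hP hz hX hsm h mf fam hfam (RadG mf fam) hRad
  obtain ⟨mm, hm⟩ := exists_gauge hX A D
  have hiso : ∀ i, ¬ (A.B i).Reg → Iso (A.B i).v := fun i hi => (hsing i hi).1
  -- the radius `s`
  have hsep : ∀ i : {i : A.ι // ¬ (A.B i).Reg}, ∃ s, 0 < s ∧ s ≤ (A.B i).r / 8 ∧ ∀ j, j ≠ (i : A.ι) → ∀ x ∈ (A.B i).U s, x ∉ (A.B j).U (A.B j).r :=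
    fun i => A.sep i i.2
  choose s₀ hs₀ hs₀' hsep₀ using hsep
  obtain ⟨s, hs, hss⟩ := Pi.exists_forall_pos_add_lt (x := fun _ => (0 : ℝ)) (y := s₀) hs₀
  have hs' : ∀ i, ¬ (A.B i).Reg → s ≤ (A.B i).r / 8 := fun i hi => by
    have h1 := hss ⟨i, hi⟩
    have h2 := hs₀' ⟨i, hi⟩
    simp only [zero_add] at h1
    exact h1.le.trans h2
  have hsep' : ∀ i, ¬ (A.B i).Reg → ∀ j, j ≠ i → ∀ x ∈ (A.B i).U s, x ∉ (A.B j).U (A.B j).r := by
    intro i hi j hj x hx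
    refine hsep₀ ⟨i, hi⟩ j hj x ?_
    obtain ⟨p, hp, c', hc', hx'⟩ := hx
    have h1 := hss ⟨i, hi⟩
    simp only [zero_add] at h1
    exact ⟨p, ball_subset_ball h1.le hp, c', hc', hx'⟩
  -- the constants of the boxes
  choose Bc hBc0 hBc using fun i : A.ι => lam_cc (A.B i)
  have hloc : ∀ i : {i : A.ι // ¬ (A.B i).Reg}, ∃ A' C₀ : ℝ, 0 ≤ A' ∧ 0 ≤ C₀ ∧
      ∀ (d n : ℕ) (q : ℂ × ℂ → ℂ) (ψ : ℂ × ℂ → ℝ), 1 ≤ d → 1 ≤ n → AnalyticAt ℂ q 0 → ContDiffAt ℝ 1 ψ 0 →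
        (∀ l, FZero (fam (A.B i).v l) (D.g i) ∨ HasOrd (fam (A.B i).v l) q n) →
        ∀ (M : ℕ) (F : ℂ → EN M) (Q : ℂ → ℂ) (lm : ℂ → ℝ) (Om : Set ℂ) (p : ℂ → ℂ × ℂ), Dat (A.B i).v (D.g i) (A.B i).r (Bc i) d q ψ F Q lm Om p →
          LocX (A.B i).v (D.g i) (fun _ => 1) Om p lm s A' (C₀ * d / n) := fun i =>
    (hsing i i.2).2.2.1 s hs (by
      have h1 := hs' i i.2
      have h2 := (A.B i).pos
      linarith) (Bc i) (hBc0 i).le
  choose A' C₀ hA' hC₀ hloc' using hloc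
  obtain ⟨C₁, hC₁, hC₁'⟩ : ∃ C₁ : ℝ, 0 ≤ C₁ ∧ ∀ i, C₀ i ≤ C₁ :=
    ⟨∑ i, C₀ i, Finset.sum_nonneg fun i _ => hC₀ i, fun i => Finset.single_le_sum (fun i _ => hC₀ i) (Finset.mem_univ i)⟩
  obtain ⟨e⟩ : Nonempty (Fin (Fintype.card (Σ i : {i : A.ι // ¬ (A.B i).Reg}, Fin (mf (A.B i).v))) ≃ (Σ i : {i : A.ι // ¬ (A.B i).Reg}, Fin (mf (A.B i).v))) :=
    ⟨(Fintype.equivFin _).symm⟩
  obtain ⟨m, W, dW, QW, hm1, hQW, hQWP, hW, hWz⟩ := Pool.Agent.E2.exists_form_gt hP hz hsm hgt'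
  -- the number `k`
  obtain ⟨k, hk⟩ := exists_nat_gt ((m : ℝ) * (Fintype.card A.ι * (C₁ + 1)))
  have hk0 : 0 < k := by
    have h1 : (0 : ℝ) < k := lt_of_le_of_lt (by positivity) hk
    exact_mod_cast h1
  have hkr : (0 : ℝ) < k := by exact_mod_cast hk0
  have h00 : ∀ i, (0 : ℂ × ℂ) ∈ closedBall (0 : ℂ × ℂ) (A.B i).r := fun i => mem_closedBall_self (A.B i).pos.le
  obtain ⟨d, Q, hd, hQ, hQP, hQc⟩ := sieg hz (Pool.Agent.H62.FC.exists_X_notMem (r := 2) (by norm_num) ⟨z, hz⟩)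
    (fun n t z => (A.B (e t).1).σ (fam (A.B (e t).1).v (e t).2 n z)) (fun n t => by
      have h1 := hfam _ (hiso _ (e t).1.2) (e t).2
      have h2 : AnalyticAt ℂ (A.B (e t).1).σ (fam (A.B (e t).1).v (e t).2 n 0) := by
        rw [h1.zero n]
        exact (A.B (e t).1).σ_an 0 (h00 _)
      exact h2.comp (h1.an n)) k
  have hQc' : ∀ (i : {i : A.ι // ¬ (A.B i).Reg}) (l : Fin (mf (A.B i).v)),
      (fun t => eval ((A.B i).σ (fam (A.B i).v l (k * d) t)).ofLp Q) =O[𝓝 0] fun t : ℂ => t ^ (k * d) := by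
    have h1 : ∀ x : (Σ i : {i : A.ι // ¬ (A.B i).Reg}, Fin (mf (A.B i).v)),
        (fun t => eval ((A.B x.1).σ (fam (A.B x.1).v x.2 (k * d) t)).ofLp Q) =O[𝓝 0] fun t : ℂ => t ^ (k * d) := by
      intro x
      obtain ⟨t, rfl⟩ := e.surjective x
      exact hQc t
    exact fun i l => h1 ⟨i, l⟩
  refine ⟨D.R * QW * Q, D.d + dW + d, (D.hom.mul hQW).mul hQ, fun h1 => ?_, fun g _ hg2 _ hgn hgF => ?_⟩
  · rcases hPp.mem_or_mem h1 with h2 | h2
    · rcases hPp.mem_or_mem h2 with h3 | h3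
      · exact D.notMem h3
      · exact hQWP h3
    · exact hQP h2
  by_contra hcon
  push Not at hcon
  obtain ⟨z₀, hz₀⟩ := hcon
  obtain ⟨F, hFg, hFF⟩ := hgF
  rw [vanishesAt_lift hFg ((D.hom.mul hQW).mul hQ) z₀, map_mul, map_mul] at hz₀
  have hRz : eval (F z₀).ofLp D.R ≠ 0 := fun h1 => hz₀ (by rw [h1]; ring)
  have hWz₀ : eval (F z₀).ofLp QW ≠ 0 := fun h1 => hz₀ (by rw [h1]; ring)
  have hQz : eval (F z₀).ofLp Q ≠ 0 := fun h1 => hz₀ (by rw [h1]; ring)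
  have hF : Crv P FF F := crv_of_lift hg2 hgn hFg hFF
  have hWF : ∃ z w, Pool.Agent.H17BP.Tan (coneE P) (F z) w ∧ W (F z) (deriv F z) w ≠ 0 := by
    by_contra hno
    push Not at hno
    refine hWz₀ (hWz F hF.diff hF.mem hF.nc (fun z w hw => ?_) z₀)
    obtain ⟨γ, ⟨h1, h2⟩, h3, h4⟩ := hw
    exact hno z w ⟨γ, h1, h2, h3, h4⟩
  have hn1 : 1 ≤ k * d := Nat.mul_pos hk0 hd
  have hdr : (0 : ℝ) < d := by exact_mod_cast hd
  have hL : ∀ i, ¬ (A.B i).Reg → ∃ A' : ℝ, LocX (A.B i).v (D.g i) (fun _ => 1) ((A.B i).Om F) ((A.B i).cc F) (lam F) s A' ((C₁ + 1) / k) := by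
    intro i hi
    obtain ⟨c₁, hdat⟩ := dat_of hm1 hW hF ⟨z₀, hRz⟩ hWF (D := D) (i := i) (hiso i hi).2.1
      (fun z hz' => (hBc i F hF.diff hF.mem z hz').1) hQ ⟨z₀, hQz⟩
    have hq : AnalyticAt ℂ (fun p => eval ((A.B i).σ p).ofLp Q) 0 := an_form (A.B i) Q (h00 i)
    have hψ : ContDiffAt ℝ 1 (fun p => Real.log ‖(A.B i).σ p‖) 0 := contDiffAt_psi (A.B i) (h00 i) (n := 1)
    have hord : ∀ l, FZero (fam (A.B i).v l) (D.g i) ∨ HasOrd (fam (A.B i).v l) (fun p => eval ((A.B i).σ p).ofLp Q) (k * d) := by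
      intro l
      rcases (hsing i hi).2.2.2 l with h1 | h1
      · exact Or.inl h1
      · exact Or.inr (hasOrd_of (hfam _ (hiso i hi) l) hq (h1 Q d hQ hQP) (hQc' ⟨i, hi⟩ l))
    have h1 := hloc' ⟨i, hi⟩ d (k * d) _ _ hd hn1 hq hψ hord M F _ (lam F) _ _ hdat
    refine ⟨_, locX_mono h1 ?_⟩
    push_cast
    rw [mul_div_mul_right _ _ hdr.ne']
    exact div_le_div_of_nonneg_right ((hC₁' _).trans (by linarith)) hkr.le
  obtain ⟨l, hl, hl0, hle, hB, hpack⟩ := pack_of_locX hm hm1 hW hF ⟨z₀, hRz⟩ hWF hs hs' hsep' (δ := (C₁ + 1) / k) (by positivity) hL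
  have hmr : (0 : ℝ) < m := by exact_mod_cast hm1
  refine false_of_pack hF hl hl0 hle hB hpack ?_
  push_cast
  have h2 : 2 * ((Fintype.card A.ι : ℝ) * ((C₁ + 1) / k)) = 2 * ((Fintype.card A.ι * (C₁ + 1)) / k) := by ring
  have h3 : (Fintype.card A.ι * (C₁ + 1)) / (k : ℝ) < 1 / m := by
    rw [div_lt_div_iff₀ hkr hmr]
    linarith
  have h4 : 2 * (1 : ℝ) / m = 2 * (1 / m) := by ring
  rw [h4, h2]
  linarith

end Pool.Agent.MQ2
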