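import Pool.Agent.MQ.FDefs

/-!
# MQ2 Formal: the formal weak separatrix of a saddle-node
-/

set_option autoImplicit false

open Topology Filter Asymptotics

noncomputable section

namespace Pool.Agent.MQ2

open Pool.Agent.MQ (jet)

namespace Formal

theorem jet_succ (c : ℕ → ℂ) (J : ℕ) (t : ℂ) : jet c (J + 1) t = jet c J t + c (J + 1) * t ^ (J + 1) := by
  unfold jet
  rw [Finset.sum_range_succ]

theorem jet_congr {c c' : ℕ → ℂ} {J : ℕ} (h : ∀ i ≤ J, c' i = c i) : jet c' J = jet c J := by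
  funext t
  unfold jet
  exact Finset.sum_congr rfl fun i hi => by rw [h i (Nat.lt_succ_iff.1 (Finset.mem_range.1 hi))]

theorem jet_zero {c : ℕ → ℂ} (hc : c 0 = 0) (J : ℕ) : jet c J 0 = 0 := by
  unfold jet
  refine Finset.sum_eq_zero fun i _ => ?_
  rcases Nat.eq_zero_or_pos i with h | h
  · rw [h, hc, zero_mul]
  · rw [zero_pow h.ne', mul_zero]

theorem analyticAt_jet (c : ℕ → ℂ) (J : ℕ) (t : ℂ) : AnalyticAt ℂ (jet c J) t := by
  have h : AnalyticAt ℂ (fun s : ℂ => ∑ i ∈ Finset.range (J + 1), c i * s ^ i) t :=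
    Finset.analyticAt_fun_sum _ fun i _ => analyticAt_const.mul (analyticAt_id.pow i)
  exact h

/-- an analytic function of order at least `n` -/
theorem exists_div {n : ℕ} : ∀ {f : ℂ → ℂ}, AnalyticAt ℂ f 0 → (f =O[𝓝 0] fun t : ℂ => t ^ n) →
    ∃ g : ℂ → ℂ, AnalyticAt ℂ g 0 ∧ ∀ᶠ t in 𝓝 (0 : ℂ), f t = t ^ n * g t := by
  induction n with
  | zero => exact fun {f} hf _ => ⟨f, hf, Eventually.of_forall fun t => by simp⟩
  | succ n ih =>
    intro f hf h
    have h1 : f =O[𝓝 0] fun t : ℂ => t ^ n := by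
      refine h.trans ?_
      have h2 : (fun t : ℂ => t ^ (n + 1)) = fun t => t ^ n * t := by funext t; ring
      rw [h2]
      have h3 : (fun t : ℂ => t) =O[𝓝 0] fun _ : ℂ => (1 : ℂ) := continuousAt_id.isBigO_one ℂ
      simpa using (isBigO_refl (fun t : ℂ => t ^ n) (𝓝 0)).mul h3
    obtain ⟨g, hg, he⟩ := ih hf h1
    -- `g 0 = 0`
    have hg0 : g 0 = 0 := by
      obtain ⟨C, hC⟩ := h.bound
      have h2 : ∀ᶠ t in 𝓝[≠] (0 : ℂ), ‖g t‖ ≤ C * ‖t‖ := by
        filter_upwards [hC.filter_mono nhdsWithin_le_nhds, he.filter_mono nhdsWithin_le_nhds, self_mem_nhdsWithin] with t ht1 ht2 ht3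
        have h0 : 0 < ‖t‖ ^ n := pow_pos (norm_pos_iff.2 ht3) n
        rw [ht2, norm_mul, norm_pow, norm_pow, pow_succ] at ht1
        have : ‖t‖ ^ n * ‖g t‖ ≤ ‖t‖ ^ n * (C * ‖t‖) := by linarith
        exact le_of_mul_le_mul_left this h0
      have h3 : Tendsto (fun t : ℂ => ‖g t‖) (𝓝[≠] 0) (𝓝 ‖g 0‖) := hg.continuousAt.norm.tendsto.mono_left nhdsWithin_le_nhds
      have h4 : Tendsto (fun t : ℂ => C * ‖t‖) (𝓝[≠] 0) (𝓝 0) := by
        have : Continuous fun t : ℂ => C * ‖t‖ := by fun_prop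
        have h5 := this.tendsto 0
        simp only [norm_zero, mul_zero] at h5
        exact h5.mono_left nhdsWithin_le_nhds
      have := le_of_tendsto_of_tendsto h3 h4 h2
      exact norm_le_zero_iff.1 this
    have hord : ((1 : ℕ) : ℕ∞) ≤ analyticOrderAt g 0 := by
      have : analyticOrderAt g 0 ≠ 0 := hg.analyticOrderAt_ne_zero.2 hg0
      exact_mod_cast Order.one_le_iff_ne_zero.2 this
    obtain ⟨g₁, hg₁, he₁⟩ := (natCast_le_analyticOrderAt hg).1 hord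
    refine ⟨g₁, hg₁, ?_⟩
    filter_upwards [he, he₁] with t ht ht₁
    rw [ht, ht₁]
    simp only [sub_zero, smul_eq_mul, pow_one]
    ring

/-- the leading coefficient -/
theorem exists_coeff {f : ℂ → ℂ} {n : ℕ} (hf : AnalyticAt ℂ f 0) (h : f =O[𝓝 0] fun t : ℂ => t ^ n) :
    ∃ r : ℂ, (fun t => f t - r * t ^ n) =o[𝓝 0] fun t : ℂ => t ^ n := by
  obtain ⟨g, hg, he⟩ := exists_div hf h
  refine ⟨g 0, ?_⟩
  have h1 : (fun t => g t - g 0) =o[𝓝 0] fun _ : ℂ => (1 : ℂ) := by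
    rw [isLittleO_one_iff]
    have := hg.continuousAt.tendsto.sub_const (g 0)
    rwa [sub_self] at this
  have h2 : (fun t => t ^ n * (g t - g 0)) =o[𝓝 0] fun t : ℂ => t ^ n := by
    simpa using (isBigO_refl (fun t : ℂ => t ^ n) (𝓝 0)).mul_isLittleO h1
  refine h2.congr' ?_ EventuallyEq.rfl
  filter_upwards [he] with t ht
  rw [ht]
  ring

theorem isBigO_succ {f : ℂ → ℂ} {n : ℕ} (hf : AnalyticAt ℂ f 0) (h : f =o[𝓝 0] fun t : ℂ => t ^ n) : f =O[𝓝 0] fun t : ℂ => t ^ (n + 1) := by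
  obtain ⟨g, hg, he⟩ := exists_div hf h.isBigO
  have hg0 : g 0 = 0 := by
    by_contra h0
    have h1 : Tendsto (fun t => f t / t ^ n) (𝓝[≠] 0) (𝓝 0) := (h.mono nhdsWithin_le_nhds).tendsto_div_nhds_zero
    have h2 : Tendsto (fun t => f t / t ^ n) (𝓝[≠] 0) (𝓝 (g 0)) := by
      refine (hg.continuousAt.tendsto.mono_left nhdsWithin_le_nhds).congr' ?_
      filter_upwards [he.filter_mono nhdsWithin_le_nhds, self_mem_nhdsWithin] with t ht ht0
      rw [ht, mul_div_cancel_left₀ _ (pow_ne_zero n ht0)]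
    exact h0 (tendsto_nhds_unique h2 h1)
  have h3 : g =O[𝓝 0] fun t : ℂ => t := by
    have := hg.differentiableAt.isBigO_sub
    simpa [hg0] using this
  have h4 : (fun t => t ^ n * g t) =O[𝓝 0] fun t : ℂ => t ^ (n + 1) := by
    have h5 : (fun t : ℂ => t ^ (n + 1)) = fun t => t ^ n * t := by funext t; ring
    rw [h5]
    exact (isBigO_refl (fun t : ℂ => t ^ n) (𝓝 0)).mul h3
  exact h4.congr' (by filter_upwards [he] with t ht; rw [ht]) EventuallyEq.rfl

/-- the defect of the jet -/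
def Df (a b : ℂ × ℂ → ℂ) (k : ℕ) (c : ℕ → ℂ) (J : ℕ) (t : ℂ) : ℂ :=
  b (t, jet c J t) - deriv (jet c J) t * (t ^ (k + 1) * a (t, jet c J t))

theorem analyticAt_pair {c : ℕ → ℂ} (hc : c 0 = 0) (J : ℕ) {f : ℂ × ℂ → ℂ} (hf : AnalyticAt ℂ f 0) :
    AnalyticAt ℂ (fun t : ℂ => f (t, jet c J t)) 0 := by
  have h1 : AnalyticAt ℂ (fun t : ℂ => (t, jet c J t)) 0 := analyticAt_id.prod (analyticAt_jet c J 0)
  have h2 : (fun t : ℂ => (t, jet c J t)) 0 = 0 := by simp [jet_zero hc]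
  exact AnalyticAt.comp_of_eq hf h1 h2

theorem analyticAt_Df {a b : ℂ × ℂ → ℂ} (ha : AnalyticAt ℂ a 0) (hb : AnalyticAt ℂ b 0) (k : ℕ) {c : ℕ → ℂ} (hc : c 0 = 0) (J : ℕ) :
    AnalyticAt ℂ (Df a b k c J) 0 :=
  (analyticAt_pair hc J hb).sub ((analyticAt_jet c J 0).deriv.mul ((analyticAt_id.pow (k + 1)).mul (analyticAt_pair hc J ha)))

theorem step {a b : ℂ × ℂ → ℂ} (ha : AnalyticAt ℂ a 0) (hb : AnalyticAt ℂ b 0) (hb1 : fderiv ℂ b 0 (0, 1) ≠ 0) {k : ℕ} (hk : 1 ≤ k)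
    {c : ℕ → ℂ} (hc : c 0 = 0) {J : ℕ} (h : Df a b k c J =O[𝓝 0] fun t : ℂ => t ^ (J + 1)) :
    ∃ x : ℂ, ∀ c' : ℕ → ℂ, (∀ i ≤ J, c' i = c i) → c' (J + 1) = x → Df a b k c' (J + 1) =O[𝓝 0] fun t : ℂ => t ^ (J + 1 + 1) := by
  obtain ⟨r, hr⟩ := exists_coeff (analyticAt_Df ha hb k hc J) h
  set β := fderiv ℂ b 0 (0, 1) with hβ
  refine ⟨-r / β, fun c' hc' hx => ?_⟩
  set x := -r / β with hxd
  have hc0' : c' 0 = 0 := by rw [hc' 0 (Nat.zero_le _), hc]
  have hj : ∀ t, jet c' (J + 1) t = jet c J t + x * t ^ (J + 1) := fun t => by rw [jet_succ, jet_congr hc', hx]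
  have hdj : ∀ t, deriv (jet c' (J + 1)) t = deriv (jet c J) t + x * ((J + 1) * t ^ J) := by
    intro t
    have e : jet c' (J + 1) = fun t => jet c J t + x * t ^ (J + 1) := funext hj
    have h1 : HasDerivAt (fun t : ℂ => x * t ^ (J + 1)) (x * ((J + 1) * t ^ J)) t := by
      have := (hasDerivAt_pow (J + 1) t).const_mul x
      simpa using this
    rw [e]
    exact ((analyticAt_jet c J t).differentiableAt.hasDerivAt.add h1).deriv
  -- the two curves
  set p : ℂ → ℂ × ℂ := fun t => (t, jet c' (J + 1) t) with hp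
  set q : ℂ → ℂ × ℂ := fun t => (t, jet c J t) with hq
  have hpt : Tendsto p (𝓝 0) (𝓝 0) := by
    have h1 : ContinuousAt p 0 := continuousAt_id.prodMk (analyticAt_jet c' (J + 1) 0).continuousAt
    have h2 : p 0 = 0 := by simp [hp, jet_zero hc0']
    rw [← h2]
    conv_rhs => rw [h2]
    have := h1.tendsto
    rwa [h2] at this
  have hqt : Tendsto q (𝓝 0) (𝓝 0) := by
    have h1 : ContinuousAt q 0 := continuousAt_id.prodMk (analyticAt_jet c J 0).continuousAt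
    have h2 : q 0 = 0 := by simp [hq, jet_zero hc]
    have := h1.tendsto
    rwa [h2] at this
  have hpq : ∀ t, p t - q t = (0, x * t ^ (J + 1)) := by
    intro t
    simp only [hp, hq, hj, Prod.mk_sub_mk, sub_self, add_sub_cancel_left]
  have hpqO : (fun t => p t - q t) =O[𝓝 0] fun t : ℂ => t ^ (J + 1) := by
    refine IsBigO.of_bound ‖x‖ (Eventually.of_forall fun t => ?_)
    rw [hpq]
    have h0 : 0 ≤ ‖x‖ * ‖t‖ ^ (J + 1) := by positivity
    simpa [Prod.norm_def] using h0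
  have hpair : Tendsto (fun t => (p t, q t)) (𝓝 0) (𝓝 ((0 : ℂ × ℂ), (0 : ℂ × ℂ))) := by
    rw [nhds_prod_eq]
    exact hpt.prodMk hqt
  -- `b`
  have hB : (fun t => b (p t) - b (q t) - β * (x * t ^ (J + 1))) =o[𝓝 0] fun t : ℂ => t ^ (J + 1) := by
    have h1 := hb.hasStrictFDerivAt.isLittleO.comp_tendsto hpair
    have h2 : (fun t => b (p t) - b (q t) - fderiv ℂ b 0 (p t - q t)) =o[𝓝 0] fun t => p t - q t := h1
    refine (h2.trans_isBigO hpqO).congr' (Eventually.of_forall fun t => ?_) EventuallyEq.rfl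
    have h3 : fderiv ℂ b 0 (p t - q t) = β * (x * t ^ (J + 1)) := by
      rw [hpq]
      have : ((0 : ℂ), x * t ^ (J + 1)) = (x * t ^ (J + 1)) • ((0 : ℂ), (1 : ℂ)) := by simp
      rw [this, map_smul, smul_eq_mul, mul_comm]
    simp only [h3]
  -- `a`
  have hA : (fun t => a (p t) - a (q t)) =O[𝓝 0] fun t : ℂ => t ^ (J + 1) := by
    have h1 := hb.hasStrictFDerivAt
    have h2 := ha.hasStrictFDerivAt.isBigO_sub.comp_tendsto hpair
    exact IsBigO.trans h2 hpqO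
  have hap : (fun t => a (p t)) =O[𝓝 0] fun _ : ℂ => (1 : ℂ) :=
    ((ha.continuousAt.tendsto.comp hpt).isBigO_one ℂ)
  have htk : (fun t : ℂ => t ^ (k + 1)) =o[𝓝 0] fun _ : ℂ => (1 : ℂ) := by
    rw [isLittleO_one_iff]
    have : Continuous fun t : ℂ => t ^ (k + 1) := by fun_prop
    have h5 := this.tendsto 0
    simpa using h5
  have hdjO : (fun t => deriv (jet c J) t) =O[𝓝 0] fun _ : ℂ => (1 : ℂ) :=
    ((analyticAt_jet c J 0).deriv.continuousAt.tendsto.isBigO_one ℂ)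
  have hT1 : (fun t => deriv (jet c J) t * (t ^ (k + 1) * (a (p t) - a (q t)))) =o[𝓝 0] fun t : ℂ => t ^ (J + 1) := by
    have := hdjO.mul_isLittleO (htk.mul_isBigO hA)
    simpa using this
  have hT2 : (fun t => x * ((J + 1) * t ^ J) * (t ^ (k + 1) * a (p t))) =o[𝓝 0] fun t : ℂ => t ^ (J + 1) := by
    have hk' : (fun t : ℂ => t ^ k) =o[𝓝 0] fun _ : ℂ => (1 : ℂ) := by
      rw [isLittleO_one_iff]
      have : Continuous fun t : ℂ => t ^ k := by fun_prop
      have h5 := this.tendsto 0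
      simpa [zero_pow (by omega : k ≠ 0)] using h5
    have h1 : (fun t : ℂ => t ^ (J + 1) * (t ^ k * a (p t))) =o[𝓝 0] fun t : ℂ => t ^ (J + 1) := by
      simpa using (isBigO_refl (fun t : ℂ => t ^ (J + 1)) (𝓝 0)).mul_isLittleO (hk'.mul_isBigO hap)
    refine (h1.const_mul_left (x * (J + 1))).congr' (Eventually.of_forall fun t => ?_) EventuallyEq.rfl
    ring
  -- assembly
  have hβ0 : β * x = -r := by rw [hxd]; field_simp
  refine isBigO_succ (analyticAt_Df ha hb k hc0' (J + 1)) ?_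
  have := ((hr.add hB).sub hT1).sub hT2
  refine this.congr' (Eventually.of_forall fun t => ?_) EventuallyEq.rfl
  simp only [Df]
  rw [hdj]
  change b (q t) - deriv (jet c J) t * (t ^ (k + 1) * a (q t)) - r * t ^ (J + 1) + (b (p t) - b (q t) - β * (x * t ^ (J + 1))) -
    deriv (jet c J) t * (t ^ (k + 1) * (a (p t) - a (q t))) - x * ((J + 1) * t ^ J) * (t ^ (k + 1) * a (p t)) =
    b (p t) - (deriv (jet c J) t + x * ((J + 1) * t ^ J)) * (t ^ (k + 1) * a (p t))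
  have h6 : β * (x * t ^ (J + 1)) = -r * t ^ (J + 1) := by rw [← mul_assoc, hβ0]
  rw [h6]
  ring

end Formal

open Formal

/-- **Module Formal.**  The formal curve `y = ∑ c i x ^ i` which is invariant by `x ^ (k + 1) a ∂/∂x + b ∂/∂y`, `b (0) = 0`, `b_y (0) ≠ 0`. -/
theorem exists_formal {a b : ℂ × ℂ → ℂ} (ha : AnalyticAt ℂ a 0) (hb : AnalyticAt ℂ b 0) (hb0 : b 0 = 0) (hb1 : fderiv ℂ b 0 (0, 1) ≠ 0)
    {k : ℕ} (hk : 1 ≤ k) : ∃ c : ℕ → ℂ, c 0 = 0 ∧
      ∀ J, (fun t => b (t, jet c J t) - deriv (jet c J) t * (t ^ (k + 1) * a (t, jet c J t))) =O[𝓝 0] fun t : ℂ => t ^ (J + 1) := by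
  classical
  -- the recursion
  have hstep : ∀ (J : ℕ) (c : {c : ℕ → ℂ // c 0 = 0 ∧ Df a b k c J =O[𝓝 0] fun t : ℂ => t ^ (J + 1)}),
      ∃ c' : {c : ℕ → ℂ // c 0 = 0 ∧ Df a b k c (J + 1) =O[𝓝 0] fun t : ℂ => t ^ (J + 1 + 1)}, ∀ i ≤ J, c'.1 i = c.1 i := by
    rintro J ⟨c, hc, h⟩
    obtain ⟨x, hx⟩ := step ha hb hb1 hk hc h
    have h1 : ∀ i ≤ J, Function.update c (J + 1) x i = c i := fun i hi => Function.update_of_ne (by omega) _ _
    refine ⟨⟨Function.update c (J + 1) x, ?_, hx _ h1 (Function.update_self _ _ _)⟩, h1⟩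
    rw [h1 0 (Nat.zero_le _), hc]
  choose nxt hnxt using hstep
  have h0 : Df a b k (fun _ => 0) 0 =O[𝓝 0] fun t : ℂ => t ^ (0 + 1) := by
    have hj : jet (fun _ => 0) 0 = fun _ => 0 := by funext t; simp [jet]
    have e : Df a b k (fun _ => 0) 0 = fun t => b (t, 0) := by
      funext t
      simp [Df, hj]
    have h1 : DifferentiableAt ℂ (fun t : ℂ => b (t, 0)) 0 := by
      have h2 : DifferentiableAt ℂ (fun t : ℂ => (t, (0 : ℂ))) 0 := by fun_prop
      exact DifferentiableAt.comp (0 : ℂ) (g := b) (f := fun t : ℂ => (t, (0 : ℂ))) hb.differentiableAt h2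
    have h3 := h1.isBigO_sub
    have h4 : b ((0 : ℂ), (0 : ℂ)) = 0 := hb0
    rw [e]
    simpa [h4] using h3
  let S : ∀ J : ℕ, {c : ℕ → ℂ // c 0 = 0 ∧ Df a b k c J =O[𝓝 0] fun t : ℂ => t ^ (J + 1)} := fun J =>
    Nat.rec ⟨fun _ => 0, rfl, h0⟩ (fun J c => nxt J c) J
  have hS : ∀ J, ∀ i ≤ J, (S (J + 1)).1 i = (S J).1 i := fun J => hnxt J (S J)
  have hS' : ∀ J i, i ≤ J → (S J).1 i = (S i).1 i := by
    intro J
    induction J with
    | zero => intro i hi; rw [Nat.le_zero.1 hi]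
    | succ J ih =>
      intro i hi
      rcases Nat.lt_or_ge i (J + 1) with h | h
      · rw [hS J i (by omega), ih i (by omega)]
      · rw [le_antisymm hi h]
  refine ⟨fun i => (S i).1 i, (S 0).2.1, fun J => ?_⟩
  have hj : jet (fun i => (S i).1 i) J = jet (S J).1 J := jet_congr fun i hi => (hS' J i hi).symm
  rw [hj]
  exact (S J).2.2

end Pool.Agent.MQ2
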