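import Pool.Agent.MQ2.LeafS0
import Pool.Agent.MQ2.Rect

/-!
# MQ2 LeafS: the leaves of a vector field in the zero set of a function, near a regular point

`rect` and `LeafS.leaf_set_of`.
-/

set_option autoImplicit false

open Topology Filter Metric

noncomputable section

namespace Pool.Agent.MQ2

open Pool.Agent.MQ

theorem leaf_set {v : ℂ × ℂ → ℂ × ℂ} {q : ℂ × ℂ → ℂ} {p₀ : ℂ × ℂ} (hv : AnalyticAt ℂ v p₀) (hv0 : v p₀ ≠ 0) (hq : AnalyticAt ℂ q p₀)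
    (hq0 : ∃ᶠ p in 𝓝 p₀, q p ≠ 0) : (∀ᶠ p in 𝓝 p₀, ¬ LeafIn v q p) ∨ ∃ l : ℂ × ℂ → ℂ, AnalyticAt ℂ l p₀ ∧ l p₀ = 0 ∧ fderiv ℂ l p₀ ≠ 0 ∧
      ∀ᶠ p in 𝓝 p₀, (LeafIn v q p ↔ l p = 0) ∧ (l p = 0 → q p = 0 ∧ fderiv ℂ l p (v p) = 0) := by
  have hv' : AnalyticAt ℂ (fun p => v (p₀ + p)) 0 := by
    refine AnalyticAt.fun_comp (g := v) (f := fun p => p₀ + p) ?_ (by fun_prop)
    simpa using hv
  obtain ⟨Φ, hΦ, h0, hli, hrel⟩ := rect hv' (by simpa using hv0)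
  have hd : ∀ p, fderiv ℂ (fun p => p₀ + Φ p) p = fderiv ℂ Φ p := fun p => fderiv_const_add p₀
  refine LeafS.leaf_set_of hv hv0 hq hq0 (Ψ := fun p => p₀ + Φ p) (analyticAt_const.add hΦ) (by rw [h0, add_zero]) ?_ ?_
  · simp only [hd]
    exact hli
  · filter_upwards [hrel] with p hp
    simp only [hd]
    exact hp

end Pool.Agent.MQ2
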