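import Pool.Agent.MQ2.DefsG
import Pool.Agent.MQ2.Hart
import Pool.Agent.H17BP.Ift
import Pool.Agent.H17BP.Div

/-!
# MQ2 WtE: the cofactor of a reduced equation of an invariant curve

`v (g) / g` is analytic off `0`: at a smooth zero of `g` divide by the coordinate `g` (`exists_div_x`); the local quotients are unique, as `g` is not
locally zero.  Then `hartogs`.
-/

set_option autoImplicit false

open Topology Filter Metric MvPolynomial Asymptotics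

noncomputable section

namespace Pool.Agent.MQ2

open Pool.Agent.H17BP (Coord coord_iff exists_div_x dx dy)

private theorem WtE_lin {L : ℂ × ℂ →L[ℂ] ℂ} (h1 : L (1, 0) = 0) (h2 : L (0, 1) = 0) : L = 0 := by
  refine ContinuousLinearMap.ext fun x => ?_
  have e : x = x.1 • ((1, 0) : ℂ × ℂ) + x.2 • ((0, 1) : ℂ × ℂ) := by ext <;> simp
  rw [e, map_add, map_smul, map_smul, h1, h2]
  simp

private theorem WtE_coord {l l' T : ℂ × ℂ → ℂ} (hl' : AnalyticAt ℂ l' 0) (hT : Coord l T) (hz : ∀ᶠ x in 𝓝 0, (l x = 0 → l' x = 0)) :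
    ∃ u : ℂ × ℂ → ℂ, AnalyticAt ℂ u 0 ∧ ∀ᶠ x in 𝓝 0, l' x = u x * l x := by
  obtain ⟨θ', g1, g2, g3, g4⟩ := hT.inv
  have han : AnalyticAt ℂ (fun x => (l x, T x)) 0 := hT.an
  have hzero : (fun x => (l x, T x)) (0 : ℂ × ℂ) = 0 := hT.zero
  have hh : AnalyticAt ℂ (fun z => l' (θ' z)) 0 := by
    have : AnalyticAt ℂ l' (θ' 0) := by rw [g2]; exact hl'
    exact this.comp g1
  have hc' : Tendsto θ' (𝓝 0) (𝓝 0) := by
    have := g1.continuousAt.tendsto; rwa [g2] at this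
  have hcθ : Tendsto (fun x => (l x, T x)) (𝓝 (0 : ℂ × ℂ)) (𝓝 0) := by
    have h : Tendsto (fun x => (l x, T x)) (𝓝 (0 : ℂ × ℂ)) (𝓝 ((fun x => (l x, T x)) (0 : ℂ × ℂ))) := han.continuousAt
    rwa [hzero] at h
  have hv : ∀ᶠ y in 𝓝 (0 : ℂ), (fun z => l' (θ' z)) (0, y) = 0 := by
    have e1 : ∀ᶠ z in 𝓝 (0 : ℂ × ℂ), (l (θ' z), T (θ' z)) = z ∧ (l (θ' z) = 0 → l' (θ' z) = 0) := by
      filter_upwards [g4, hc'.eventually hz] with z a b using ⟨a, b⟩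
    have e2 : Tendsto (fun y : ℂ => ((0, y) : ℂ × ℂ)) (𝓝 0) (𝓝 0) :=
      (Continuous.prodMk_right (0 : ℂ)).tendsto' _ _ rfl
    filter_upwards [e2.eventually e1] with y hy
    apply hy.2
    have := congrArg Prod.fst hy.1
    exact this
  obtain ⟨k, hk, hk2⟩ := exists_div_x hh hv
  have hk' : AnalyticAt ℂ (fun x => k (l x, T x)) 0 := by
    have h3 : AnalyticAt ℂ k ((fun x => (l x, T x)) (0 : ℂ × ℂ)) := by rw [hzero]; exact hk
    exact AnalyticAt.comp (g := k) (f := fun x => (l x, T x)) h3 han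
  refine ⟨fun x => k (l x, T x), hk', ?_⟩
  filter_upwards [g3, hcθ.eventually hk2] with x a b
  rw [a] at b
  rw [b, smul_eq_mul, mul_comm]

private theorem WtE_div0 {l l' : ℂ × ℂ → ℂ} (hl : AnalyticAt ℂ l 0) (hl' : AnalyticAt ℂ l' 0) (h0 : l 0 = 0)
    (h : fderiv ℂ l 0 ≠ 0) (hz : ∀ᶠ x in 𝓝 0, (l x = 0 → l' x = 0)) :
    ∃ u : ℂ × ℂ → ℂ, AnalyticAt ℂ u 0 ∧ ∀ᶠ x in 𝓝 0, l' x = u x * l x := by
  by_cases hx : dx l 0 = 0
  · have hy : dy l 0 ≠ 0 := by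
      intro hy
      exact h (WtE_lin hx hy)
    have hT : AnalyticAt ℂ (fun x : ℂ × ℂ => x.1) 0 := analyticAt_fst
    have hd : HasFDerivAt (fun x : ℂ × ℂ => x.1) (ContinuousLinearMap.fst ℂ ℂ ℂ) 0 := hasFDerivAt_fst
    have e1 : dx (fun x : ℂ × ℂ => x.1) 0 = 1 := by
      show fderiv ℂ (fun x : ℂ × ℂ => x.1) 0 (1, 0) = 1
      rw [hd.fderiv]; rfl
    have e2 : dy (fun x : ℂ × ℂ => x.1) 0 = 0 := by
      show fderiv ℂ (fun x : ℂ × ℂ => x.1) 0 (0, 1) = 0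
      rw [hd.fderiv]; rfl
    have hc : Coord l (fun x => x.1) := by
      rw [coord_iff hl hT h0 rfl, e1, e2, hx]
      simpa using hy
    exact WtE_coord hl' hc hz
  · have hT : AnalyticAt ℂ (fun x : ℂ × ℂ => x.2) 0 := analyticAt_snd
    have hd : HasFDerivAt (fun x : ℂ × ℂ => x.2) (ContinuousLinearMap.snd ℂ ℂ ℂ) 0 := hasFDerivAt_snd
    have e1 : dx (fun x : ℂ × ℂ => x.2) 0 = 0 := by
      show fderiv ℂ (fun x : ℂ × ℂ => x.2) 0 (1, 0) = 0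
      rw [hd.fderiv]; rfl
    have e2 : dy (fun x : ℂ × ℂ => x.2) 0 = 1 := by
      show fderiv ℂ (fun x : ℂ × ℂ => x.2) 0 (0, 1) = 1
      rw [hd.fderiv]; rfl
    have hc : Coord l (fun x => x.2) := by
      rw [coord_iff hl hT h0 rfl, e1, e2]
      simpa using hx
    exact WtE_coord hl' hc hz

/-- division by a smooth equation -/
theorem div_smooth {l l' : ℂ × ℂ → ℂ} {p : ℂ × ℂ} (hl : AnalyticAt ℂ l p) (hl' : AnalyticAt ℂ l' p) (h : l p = 0 → fderiv ℂ l p ≠ 0)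
    (hz : ∀ᶠ x in 𝓝 p, (l x = 0 → l' x = 0)) : ∃ u : ℂ × ℂ → ℂ, AnalyticAt ℂ u p ∧ ∀ᶠ x in 𝓝 p, l' x = u x * l x := by
  by_cases h0 : l p = 0
  · have ht : AnalyticAt ℂ (fun x : ℂ × ℂ => x + p) 0 := analyticAt_id.add analyticAt_const
    have ht0 : (fun x : ℂ × ℂ => x + p) 0 = p := zero_add p
    have htc : Tendsto (fun x : ℂ × ℂ => x + p) (𝓝 0) (𝓝 p) := by
      have h : Tendsto (fun x : ℂ × ℂ => x + p) (𝓝 0) (𝓝 ((fun x : ℂ × ℂ => x + p) 0)) := ht.continuousAt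
      rwa [ht0] at h
    have a1 : AnalyticAt ℂ (fun x => l (x + p)) 0 := by
      have : AnalyticAt ℂ l ((fun x : ℂ × ℂ => x + p) 0) := by rw [ht0]; exact hl
      exact AnalyticAt.comp (g := l) (f := fun x : ℂ × ℂ => x + p) this ht
    have a2 : AnalyticAt ℂ (fun x => l' (x + p)) 0 := by
      have : AnalyticAt ℂ l' ((fun x : ℂ × ℂ => x + p) 0) := by rw [ht0]; exact hl'
      exact AnalyticAt.comp (g := l') (f := fun x : ℂ × ℂ => x + p) this ht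
    have a3 : fderiv ℂ (fun x => l (x + p)) 0 ≠ 0 := by
      rw [fderiv_comp_add_right, zero_add]
      exact h h0
    obtain ⟨u, hu, hue⟩ := WtE_div0 a1 a2 (by simpa using h0) a3 (htc.eventually hz)
    have hs : AnalyticAt ℂ (fun x : ℂ × ℂ => x - p) p := analyticAt_id.sub analyticAt_const
    have hs0 : (fun x : ℂ × ℂ => x - p) p = 0 := sub_self p
    have hsc : Tendsto (fun x : ℂ × ℂ => x - p) (𝓝 p) (𝓝 0) := by
      have h : Tendsto (fun x : ℂ × ℂ => x - p) (𝓝 p) (𝓝 ((fun x : ℂ × ℂ => x - p) p)) := hs.continuousAt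
      rwa [hs0] at h
    refine ⟨fun x => u (x - p), ?_, ?_⟩
    · have : AnalyticAt ℂ u ((fun x : ℂ × ℂ => x - p) p) := by rw [hs0]; exact hu
      exact AnalyticAt.comp (g := u) (f := fun x : ℂ × ℂ => x - p) this hs
    · filter_upwards [hsc.eventually hue] with x hx
      rwa [sub_add_cancel] at hx
  · refine ⟨fun x => l' x / l x, hl'.div hl h0, ?_⟩
    filter_upwards [hl.continuousAt.eventually_ne h0] with x hx
    rw [div_mul_cancel₀ _ hx]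

/-- the cofactor -/
theorem wt_of_equ {v : ℂ × ℂ → ℂ × ℂ} (hv : Iso v) {g : ℂ × ℂ → ℂ} (hg : AnalyticAt ℂ g 0) (hne : ∃ᶠ p in 𝓝 (0 : ℂ × ℂ), g p ≠ 0)
    (hred : ∀ᶠ p in 𝓝 (0 : ℂ × ℂ), p ≠ 0 → g p = 0 → fderiv ℂ g p ≠ 0)
    (hinv : ∀ᶠ p in 𝓝 (0 : ℂ × ℂ), p ≠ 0 → g p = 0 → fderiv ℂ g p (v p) = 0) : Wt v g := by
  classical
  refine ⟨hg, hne, ?_, hred⟩
  obtain ⟨H, hH⟩ : ∃ H : ℂ × ℂ → ℂ, H = fun p => fderiv ℂ g p (v p) := ⟨_, rfl⟩
  have hHa : AnalyticAt ℂ H 0 := by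
    rw [hH]
    exact AnalyticAt.comp (g := fun q : (ℂ × ℂ →L[ℂ] ℂ) × (ℂ × ℂ) => q.1 q.2) (f := fun p => (fderiv ℂ g p, v p))
      ((ContinuousLinearMap.id ℂ (ℂ × ℂ →L[ℂ] ℂ)).analyticAt_bilinear (fderiv ℂ g 0, v 0)) (hg.fderiv.prod hv.1)
  -- the local quotients
  have hloc : ∀ᶠ p in 𝓝 (0 : ℂ × ℂ), p ≠ 0 → (∃ᶠ x in 𝓝 p, g x ≠ 0) ∧ ∃ u : ℂ × ℂ → ℂ, AnalyticAt ℂ u p ∧ ∀ᶠ x in 𝓝 p, H x = u x * g x := by
    filter_upwards [hg.eventually_analyticAt, hHa.eventually_analyticAt, hred, hinv.eventually_nhds] with p h1 h2 h3 h4 hp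
    refine ⟨?_, div_smooth h1 h2 (h3 hp) ?_⟩
    · intro h5
      have h6 : ∀ᶠ x in 𝓝 p, g x = 0 := by
        filter_upwards [h5] with x hx
        exact not_not.1 hx
      have h7 : fderiv ℂ g p = 0 := by
        have : g =ᶠ[𝓝 p] fun _ => 0 := h6
        rw [this.fderiv_eq]
        simp
      exact h3 hp h6.self_of_nhds h7
    · filter_upwards [h4, isOpen_ne.mem_nhds hp] with x h5 h6 h7
      rw [hH]
      exact h5 h6 h7
  obtain ⟨f, hf⟩ : ∃ f : ℂ × ℂ → ℂ, f = fun p => if h : ∃ u : ℂ × ℂ → ℂ, AnalyticAt ℂ u p ∧ ∀ᶠ x in 𝓝 p, H x = u x * g x then h.choose p else 0 :=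
    ⟨_, rfl⟩
  have huniq : ∀ (p : ℂ × ℂ), (∃ᶠ x in 𝓝 p, g x ≠ 0) → ∀ u : ℂ × ℂ → ℂ, AnalyticAt ℂ u p → (∀ᶠ x in 𝓝 p, H x = u x * g x) → f p = u p := by
    intro p hp u hu hue
    have hex : ∃ u : ℂ × ℂ → ℂ, AnalyticAt ℂ u p ∧ ∀ᶠ x in 𝓝 p, H x = u x * g x := ⟨u, hu, hue⟩
    have h1 : f p = hex.choose p := by
      rw [hf]
      simp only
      rw [dif_pos hex]
    rw [h1]
    by_contra hcon
    have h2 : ∀ᶠ x in 𝓝 p, hex.choose x - u x ≠ 0 :=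
      (hex.choose_spec.1.continuousAt.sub hu.continuousAt).eventually_ne (sub_ne_zero.2 hcon)
    apply hp
    filter_upwards [h2, hex.choose_spec.2, hue] with x h3 h4 h5
    rw [not_not]
    have h6 : (hex.choose x - u x) * g x = 0 := by
      rw [sub_mul, ← h4, ← h5, sub_self]
    exact (mul_eq_zero.1 h6).resolve_left h3
  have hfan : ∀ᶠ p in 𝓝 (0 : ℂ × ℂ), p ≠ 0 → AnalyticAt ℂ f p ∧ H p = f p * g p := by
    filter_upwards [hloc.eventually_nhds] with p h1 hp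
    obtain ⟨h2, u, hu, hue⟩ := h1.self_of_nhds hp
    have h3 : u =ᶠ[𝓝 p] f := by
      filter_upwards [h1, isOpen_ne.mem_nhds hp, hu.eventually_analyticAt, hue.eventually_nhds] with w h4 h5 h6 h7
      exact (huniq w (h4 h5).1 u h6 h7).symm
    refine ⟨hu.congr h3, ?_⟩
    rw [hue.self_of_nhds, huniq p h2 u hu hue]
  obtain ⟨c, hc, hcf⟩ := hartogs (f := f) (by filter_upwards [hfan] with p h1 hp using (h1 hp).1)
  refine ⟨c, hc, ?_⟩
  have h1 : ∀ᶠ p in 𝓝 (0 : ℂ × ℂ), p ≠ 0 → H p = c p * g p := by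
    filter_upwards [hfan, hcf] with p h2 h3 hp
    rw [h3 hp]
    exact (h2 hp).2
  have h2 : H 0 = c 0 * g 0 := by
    have e1 : Tendsto H (𝓝[≠] (0 : ℂ × ℂ)) (𝓝 (H 0)) := hHa.continuousAt.tendsto.mono_left nhdsWithin_le_nhds
    have e2 : Tendsto (fun p => c p * g p) (𝓝[≠] (0 : ℂ × ℂ)) (𝓝 (c 0 * g 0)) :=
      (hc.continuousAt.mul hg.continuousAt).tendsto.mono_left nhdsWithin_le_nhds
    refine tendsto_nhds_unique (e1.congr' ?_) e2
    exact eventually_nhdsWithin_iff.2 h1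
  filter_upwards [h1] with p h3
  have h4 : H p = c p * g p := by
    by_cases hp : p = 0
    · rw [hp]
      exact h2
    · exact h3 hp
  rw [hH] at h4
  exact h4

end Pool.Agent.MQ2
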