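import Pool.Agent.MQ2.Equ
import Pool.Agent.MQ2.WtE
import Pool.Agent.MQ2.LeafS
import Pool.Agent.MQ.Unit

/-!
# MQ2 GInv: the reduced equation of the leaves in the zero set of a function, near a singular point

PROOF.  `Z` = the points with a piece of a leaf in `{f = 0}`.  Off the center it is empty or a smooth curve (`leaf_set`), so it has a reduced equation `g`
(`exists_equ`), which is invariant (`wt_of_equ`).
-/

set_option autoImplicit false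

open Topology Filter Metric MvPolynomial Asymptotics

noncomputable section

namespace Pool.Agent.MQ2

open Pool.Agent.MQ

/-- a germ which is not zero is not zero near any point -/
theorem frequently_ne_near {q : ℂ × ℂ → ℂ} (hq : AnalyticAt ℂ q 0) (hq0 : ∃ᶠ p in 𝓝 (0 : ℂ × ℂ), q p ≠ 0) :
    ∀ᶠ p in 𝓝 (0 : ℂ × ℂ), ∃ᶠ w in 𝓝 p, q w ≠ 0 := by
  obtain ⟨r, hr, h1⟩ := Metric.eventually_nhds_iff_ball.1 hq.eventually_analyticAt
  filter_upwards [ball_mem_nhds (0 : ℂ × ℂ) hr] with p hp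
  intro h2
  have h3 : q =ᶠ[𝓝 p] 0 := by
    filter_upwards [h2] with w hw
    simpa using hw
  have h4 : AnalyticOnNhd ℂ q (ball 0 r) := fun w hw => h1 w hw
  have h5 := h4.eqOn_zero_of_preconnected_of_eventuallyEq_zero (convex_ball _ _).isPreconnected hp h3
  exact hq0 (by
    filter_upwards [ball_mem_nhds (0 : ℂ × ℂ) hr] with w hw h6
    exact h6 (h5 hw))

/-- the leaves in the zero set of `f` have a reduced invariant equation -/
theorem exists_ginv {v : ℂ × ℂ → ℂ × ℂ} (hv : Iso v) {f : ℂ × ℂ → ℂ} (hf : AnalyticAt ℂ f 0) (hf0 : ∃ᶠ p in 𝓝 (0 : ℂ × ℂ), f p ≠ 0) :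
    ∃ g : ℂ × ℂ → ℂ, Wt v g ∧ ∀ᶠ p in 𝓝 (0 : ℂ × ℂ), p ≠ 0 → (g p = 0 ↔ LeafIn v f p) ∧
      (g p = 0 → fderiv ℂ g p ≠ 0 ∧ f p = 0 ∧ fderiv ℂ g p (v p) = 0) := by
  obtain ⟨hva, hv0, hvne⟩ := hv
  set Z : Set (ℂ × ℂ) := {p | LeafIn v f p} with hZ
  -- the invariant points off the center
  have hls : ∀ᶠ p in 𝓝 (0 : ℂ × ℂ), p ≠ 0 → (∀ᶠ w in 𝓝 p, w ∉ Z) ∨ ∃ l : ℂ × ℂ → ℂ, AnalyticAt ℂ l p ∧ l p = 0 ∧ fderiv ℂ l p ≠ 0 ∧
      ∀ᶠ w in 𝓝 p, (w ∈ Z ↔ l w = 0) ∧ (l w = 0 → f w = 0 ∧ fderiv ℂ l w (v w) = 0) := by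
    filter_upwards [hva.eventually_analyticAt, hvne, hf.eventually_analyticAt, frequently_ne_near hf hf0] with p h1 h2 h3 h4 hp
    exact leaf_set h1 (h2 hp) h3 h4
  obtain ⟨g, hg, hgne, hgZ⟩ := exists_equ (Z := Z) hf hf0 (by
    filter_upwards [hls] with p h1 hp
    rcases h1 hp with h2 | ⟨l, h2, h3, h4, h5⟩
    · exact Or.inl h2
    · exact Or.inr ⟨l, h2, h3, h4, h5.mono fun w hw => ⟨hw.1, fun h => (hw.2 h).1⟩⟩)
  have hred : ∀ᶠ p in 𝓝 (0 : ℂ × ℂ), p ≠ 0 → g p = 0 → fderiv ℂ g p ≠ 0 := by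
    filter_upwards [hgZ] with p h1 hp
    exact (h1 hp).2
  have hinv : ∀ᶠ p in 𝓝 (0 : ℂ × ℂ), p ≠ 0 → g p = 0 → f p = 0 ∧ fderiv ℂ g p (v p) = 0 := by
    filter_upwards [hls, hgZ, eventually_eventually_nhds.2 hgZ, hg.eventually_analyticAt] with p h1 h2 h3 h4 hp h0
    have hpZ : p ∈ Z := (h2 hp).1.1 h0
    rcases h1 hp with h5 | ⟨l, h5, h6, h7, h8⟩
    · exact absurd hpZ h5.self_of_nhds
    · have hne' : ∀ᶠ w in 𝓝 p, w ≠ 0 := isOpen_ne.mem_nhds hp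
      obtain ⟨u, hu, hu0, huu⟩ := unit (l := l) (l' := g) h5 h4 (fun _ => h7) (fun _ => (h2 hp).2 h0) (by
        filter_upwards [h8, h3, hne'] with w h9 h10 h11
        rw [← h9.1, (h10 h11).1])
      have h9 : HasFDerivAt (fun x => u x * l x) (u p • fderiv ℂ l p + l p • fderiv ℂ u p) p :=
        hu.differentiableAt.hasFDerivAt.mul h5.differentiableAt.hasFDerivAt
      have h10 : fderiv ℂ g p = u p • fderiv ℂ l p + l p • fderiv ℂ u p := by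
        have h11 : g =ᶠ[𝓝 p] fun x => u x * l x := huu
        rw [h11.fderiv_eq, h9.fderiv]
      have h11 := (h8.self_of_nhds.2 h6).2
      refine ⟨(h8.self_of_nhds.2 h6).1, ?_⟩
      rw [h10]
      simp [h6, h11]
  refine ⟨g, wt_of_equ ⟨hva, hv0, hvne⟩ hg hgne hred ?_, ?_⟩
  · filter_upwards [hinv] with p h1 hp h0
    exact (h1 hp h0).2
  · filter_upwards [hgZ, hinv] with p h1 h2 hp
    exact ⟨(h1 hp).1, fun h0 => ⟨(h1 hp).2 h0, h2 hp h0⟩⟩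

end Pool.Agent.MQ2
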