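import Pool.Agent.MQ2.Defs

/-!
# MQ2 Glue: gluing of finitely many charts (one variable, no geometry)

`Cht`: a chart of the open set `O` with the closed core `K`.  `Df` is the field, `ell` the logarithm; in the chart `Df = D + N X'/X`, `ell = log |X| + u`.
The result is the field `η - N gr u`, the function `N ell + Φ`.
-/

set_option autoImplicit false

open Topology Filter Metric MeasureTheory Asymptotics Laplacian

noncomputable section

namespace Pool.Agent.MQ2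

open Pool.Agent.H30M (tau LogSing)
open Pool.Agent.MQ

/-- a chart -/
structure Cht (Df : ℂ → ℂ) (ell L : ℂ → ℝ) (V : Set ℂ) (N : ℝ) (l : ℂ → ℝ) (C : ℝ) (O K : Set ℂ) (η D X : ℂ → ℂ) (Φ err u : ℂ → ℝ) : Prop where
  op : IsOpen O
  cl : IsClosed K
  η_cd : ∀ z ∈ O, ContDiffAt ℝ 1 η z
  err_c : ∀ z ∈ O, ContinuousAt err z
  Φ_ls : ∀ z ∈ O, ∃ c, LogSing Φ c z
  out : ∀ z ∈ O, z ∉ K → η z = (starRingEnd ℂ) (D z) ∧ err z = 0 ∧ Φ z = 0
  bd : ∀ z ∈ O, ‖η z‖ ≤ C * l z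
  ineq : ∀ z ∈ O, ContDiffAt ℝ 2 Φ z → 0 ≤ dv η z + Δ Φ z + err z
  X_an : ∀ z ∈ O, AnalyticAt ℂ X z
  X_ne : ∀ z ∈ O, ∃ᶠ w in 𝓝 z, X w ≠ 0
  X_V : ∀ z ∈ O, z ∈ V → X z ≠ 0
  D_eq : ∀ z ∈ O, X z ≠ 0 → Df z = D z + N * (deriv X z / X z)
  ell_eq : ∀ z ∈ O, X z ≠ 0 → ell z = Real.log ‖X z‖ + u z
  u_cd : ∀ z ∈ O, ContDiffAt ℝ 2 u z
  u_gr : ∀ z ∈ O, ‖gr u z‖ ≤ C * l z
  u_bd : ∀ z ∈ O, N * u z ≤ C
  up : ∀ z ∈ O, z ∈ V → ContDiffAt ℝ 2 Φ z → L z + N * Real.log ‖X z‖ + Φ z ≤ C + Real.log (1 + l z)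

variable {Df : ℂ → ℂ} {ell L : ℂ → ℝ} {V : Set ℂ} {N : ℝ} {l : ℂ → ℝ} {C : ℝ} {O K : Set ℂ} {η D X : ℂ → ℂ} {Φ err u : ℂ → ℝ}

theorem Cht.X_ne' (h : Cht Df ell L V N l C O K η D X Φ err u) {z : ℂ} (hz : z ∈ O) : ∀ᶠ w in 𝓝[≠] z, X w ≠ 0 := by
  rcases (h.X_an z hz).eventually_eq_zero_or_eventually_ne_zero with h1 | h1
  · exact absurd h1 fun h2 => h.X_ne z hz (h2.mono fun w hw hw' => hw' hw)
  · exact h1

/-- `log |X|` is smooth where `X ≠ 0` -/
theorem Cht.log_cd (h : Cht Df ell L V N l C O K η D X Φ err u) {z : ℂ} (hz : z ∈ O) (hX : X z ≠ 0) : ContDiffAt ℝ 2 (fun w => Real.log ‖X w‖) z :=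
  Pool.Agent.H30M.contDiffAt_log_norm (h.X_an z hz) hX

theorem Cht.ell_ev (h : Cht Df ell L V N l C O K η D X Φ err u) {z : ℂ} (hz : z ∈ O) (hX : X z ≠ 0) :
    ell =ᶠ[𝓝 z] fun w => Real.log ‖X w‖ + u w := by
  filter_upwards [h.op.mem_nhds hz, (h.X_an z hz).continuousAt.eventually_ne hX] with w hw hXw
  exact h.ell_eq w hw hXw

theorem Cht.gr_ell (h : Cht Df ell L V N l C O K η D X Φ err u) {z : ℂ} (hz : z ∈ O) (hX : X z ≠ 0) :
    gr ell z = (starRingEnd ℂ) (deriv X z / X z) + gr u z := by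
  rw [gr_congr (h.ell_ev hz hX), gr_add ((h.log_cd hz hX).differentiableAt (by norm_num)) ((h.u_cd z hz).differentiableAt (by norm_num)),
    gr_log_norm (h.X_an z hz).differentiableAt hX]

/-- outside the core the field of the chart is the global one -/
theorem Cht.fld (h : Cht Df ell L V N l C O K η D X Φ err u) {z : ℂ} (hz : z ∈ O) (hK : z ∉ K) (hX : X z ≠ 0) :
    η z - N * gr u z = (starRingEnd ℂ) (Df z) - N * gr ell z := by
  rw [(h.out z hz hK).1, h.gr_ell hz hX, h.D_eq z hz hX, map_add, map_mul, Complex.conj_ofReal]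
  ring

theorem Cht.fld_cd (h : Cht Df ell L V N l C O K η D X Φ err u) {z : ℂ} (hz : z ∈ O) : ContDiffAt ℝ 1 (fun w => η w - N * gr u w) z :=
  (h.η_cd z hz).sub (contDiffAt_const.mul (contDiffAt_gr (h.u_cd z hz) (by norm_num)))

theorem Cht.ell_ls (h : Cht Df ell L V N l C O K η D X Φ err u) {z : ℂ} (hz : z ∈ O) : ∃ c, LogSing ell c z := by
  have h1 : analyticOrderAt X z ≠ ⊤ := fun h2 => h.X_ne z hz ((analyticOrderAt_eq_top.1 h2).mono fun w hw hw' => hw' hw)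
  have h2 := (LogSing.log_norm (h.X_an z hz) h1).add (LogSing.of_contDiffAt (h.u_cd z hz))
  refine ⟨_, h2.congr ?_⟩
  filter_upwards [h.X_ne' hz, nhdsWithin_le_nhds (h.op.mem_nhds hz)] with w hXw hw
  exact h.ell_eq w hw hXw

/-- the cores are disjoint from the other charts: the fields agree -/
theorem Cht.agree {O' K' : Set ℂ} {η' D' X' : ℂ → ℂ} {Φ' err' u' : ℂ → ℝ} (h : Cht Df ell L V N l C O K η D X Φ err u)
    (h' : Cht Df ell L V N l C O' K' η' D' X' Φ' err' u') {z : ℂ} (hz : z ∈ O) (hz' : z ∈ O') (hK : z ∉ K) (hK' : z ∉ K') :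
    η z - N * gr u z = η' z - N * gr u' z := by
  have h1 : (fun w => η w - N * gr u w) =ᶠ[𝓝[≠] z] fun w => η' w - N * gr u' w := by
    filter_upwards [h.X_ne' hz, h'.X_ne' hz', nhdsWithin_le_nhds (h.op.mem_nhds hz), nhdsWithin_le_nhds (h'.op.mem_nhds hz'),
      nhdsWithin_le_nhds (h.cl.isOpen_compl.mem_nhds hK), nhdsWithin_le_nhds (h'.cl.isOpen_compl.mem_nhds hK')] with w a1 a2 a3 a4 a5 a6
    rw [h.fld a3 a5 a1, h'.fld a4 a6 a2]
  have h2 : Tendsto (fun w => η w - N * gr u w) (𝓝[≠] z) (𝓝 (η z - N * gr u z)) :=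
    (h.fld_cd hz).continuousAt.tendsto.mono_left nhdsWithin_le_nhds
  have h3 : Tendsto (fun w => η' w - N * gr u' w) (𝓝[≠] z) (𝓝 (η' z - N * gr u' z)) :=
    (h'.fld_cd hz').continuousAt.tendsto.mono_left nhdsWithin_le_nhds
  exact tendsto_nhds_unique (h2.congr' h1) h3

/-- the inequality passes to the limit -/
theorem ineq_of_punctured {η : ℂ → ℂ} {Φ err : ℂ → ℝ} {z : ℂ} (h1 : ContDiffAt ℝ 1 η z) (h2 : ContDiffAt ℝ 2 Φ z) (h3 : ContinuousAt err z)
    (h : ∀ᶠ w in 𝓝[≠] z, 0 ≤ dv η w + Δ Φ w + err w) : 0 ≤ dv η z + Δ Φ z + err z := by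
  have h4 : ContinuousAt (fun w => lp Φ w) z := continuousAt_lp h2
  have h5 : (fun w => Δ Φ w) =ᶠ[𝓝 z] fun w => lp Φ w := by
    filter_upwards [h2.eventually (by simp)] with w hw
    exact (lp_eq_lap hw).symm
  have h6 : ContinuousAt (fun w => dv η w + Δ Φ w + err w) z := ((continuousAt_dv h1).add (h4.congr h5.symm)).add h3
  have h7 : Tendsto (fun w => dv η w + Δ Φ w + err w) (𝓝[≠] z) (𝓝 (dv η z + Δ Φ z + err z)) := h6.tendsto.mono_left nhdsWithin_le_nhds
  exact ge_of_tendsto h7 h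

/-! ## the gluing -/

section glue

variable {ι : Type} [Fintype ι] {Om : Set ℂ} {O K : ι → Set ℂ} {η D X : ι → ℂ → ℂ} {Φ err u : ι → ℂ → ℝ}

open Classical in
/-- the glued field -/
def gfld (N : ℝ) (O : ι → Set ℂ) (η : ι → ℂ → ℂ) (u : ι → ℂ → ℝ) (z : ℂ) : ℂ :=
  if h : ∃ i, z ∈ O i then η h.choose z - N * gr (u h.choose) z else 0

/-- the sum of the functions, extended by zero -/
def gsum (O : ι → Set ℂ) (f : ι → ℂ → ℝ) (z : ℂ) : ℝ := ∑ i, (O i).indicator (f i) z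

theorem gfld_eq (h : ∀ i, Cht Df ell L V N l C (O i) (K i) (η i) (D i) (X i) (Φ i) (err i) (u i)) (hdis : ∀ i j, i ≠ j → ∀ z ∈ K i, z ∉ O j) {i : ι}
    {z : ℂ} (hz : z ∈ O i) : gfld N O η u z = η i z - N * gr (u i) z := by
  classical
  have hex : ∃ i, z ∈ O i := ⟨i, hz⟩
  unfold gfld
  rw [dif_pos hex]
  set j := hex.choose with hj
  have hzj : z ∈ O j := hex.choose_spec
  by_cases hij : i = j
  · rw [← hij]
  · exact (h j).agree (h i) hzj hz (fun h1 => hdis j i (Ne.symm hij) z h1 hz) fun h1 => hdis i j hij z h1 hzj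

/-- on `O i` only the function of the chart `i` is left, if the functions vanish outside the cores -/
theorem gsum_eq {f : ι → ℂ → ℝ} (hf : ∀ i, ∀ z ∈ O i, z ∉ K i → f i z = 0) (hdis : ∀ i j, i ≠ j → ∀ z ∈ K i, z ∉ O j) {i : ι} {z : ℂ} (hz : z ∈ O i) :
    gsum O f z = f i z := by
  classical
  unfold gsum
  rw [Finset.sum_eq_single i]
  · rw [Set.indicator_of_mem hz]
  · intro j _ hji
    by_cases hzj : z ∈ O j
    · rw [Set.indicator_of_mem hzj]
      exact hf j z hzj fun h1 => hdis j i hji z h1 hz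
    · rw [Set.indicator_of_notMem hzj]
  · intro h1
    exact absurd (Finset.mem_univ i) h1

theorem cont_indicator {O K : Set ℂ} {f : ℂ → ℝ} (hO : IsOpen O) (hK : IsClosed K) (hKO : K ⊆ O) (hc : ∀ z ∈ O, ContinuousAt f z)
    (h0 : ∀ z ∈ O, z ∉ K → f z = 0) : Continuous (O.indicator f) := by
  rw [continuous_iff_continuousAt]
  intro z
  by_cases hz : z ∈ O
  · refine (hc z hz).congr ?_
    filter_upwards [hO.mem_nhds hz] with w hw
    rw [Set.indicator_of_mem hw]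
  · have h1 : z ∉ K := fun h => hz (hKO h)
    refine (continuousAt_const (y := (0 : ℝ))).congr ?_
    filter_upwards [hK.isOpen_compl.mem_nhds h1] with w hw
    by_cases hwO : w ∈ O
    · rw [Set.indicator_of_mem hwO, h0 w hwO hw]
    · rw [Set.indicator_of_notMem hwO]

/-- **The gluing.** -/
theorem glue (h : ∀ i, Cht Df ell L V N l C (O i) (K i) (η i) (D i) (X i) (Φ i) (err i) (u i))
    (hKO : ∀ i, K i ⊆ O i) (hsub : ∀ i, O i ⊆ Om) (hcov : ∀ z ∈ Om, ∃ i, z ∈ O i) (hdis : ∀ i j, i ≠ j → ∀ z ∈ K i, z ∉ O j) :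
    ∃ (η' : ℂ → ℂ) (Φ' err' : ℂ → ℝ), (∀ z ∈ Om, ContDiffAt ℝ 1 η' z) ∧ (∀ z ∈ Om, ContinuousAt err' z) ∧ (∀ z ∈ Om, ∃ c, LogSing Φ' c z) ∧
      (∀ i, ∀ z ∈ O i, z ∉ K i → X i z ≠ 0 → η' z = (starRingEnd ℂ) (Df z) - N * gr ell z ∧ err' z = 0 ∧ Φ' z = N * ell z) ∧
      (∀ z ∈ Om, ‖η' z‖ ≤ (C + |N| * C) * l z) ∧ (∀ z ∈ Om, ContDiffAt ℝ 2 Φ' z → 0 ≤ dv η' z + Δ Φ' z + err' z) ∧
      (∀ z ∈ Om, z ∈ V → ContDiffAt ℝ 2 Φ' z → L z + Φ' z ≤ 2 * C + Real.log (1 + l z)) ∧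
      ∀ R, 1 ≤ R → ∫ z in Om, tau R z * err' z = ∑ i, ∫ z in O i, tau R z * err i z := by
  classical
  have he0 : ∀ i, ∀ z ∈ O i, z ∉ K i → err i z = 0 := fun i z hz hK => ((h i).out z hz hK).2.1
  have hΦ0 : ∀ i, ∀ z ∈ O i, z ∉ K i → Φ i z = 0 := fun i z hz hK => ((h i).out z hz hK).2.2
  have ev : ∀ i, ∀ z ∈ O i, ∀ᶠ w in 𝓝 z, w ∈ O i := fun i z hz => (h i).op.mem_nhds hz
  have eη : ∀ i, ∀ z ∈ O i, gfld N O η u =ᶠ[𝓝 z] fun w => η i w - N * gr (u i) w := fun i z hz =>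
    (ev i z hz).mono fun w hw => gfld_eq h hdis hw
  have eE : ∀ i, ∀ z ∈ O i, gsum O err =ᶠ[𝓝 z] err i := fun i z hz => (ev i z hz).mono fun w hw => gsum_eq he0 hdis hw
  have eΦ : ∀ i, ∀ z ∈ O i, (fun w => N * ell w + gsum O Φ w) =ᶠ[𝓝 z] fun w => N * ell w + Φ i w := fun i z hz =>
    (ev i z hz).mono fun w hw => by
      show N * ell w + gsum O Φ w = N * ell w + Φ i w
      rw [gsum_eq hΦ0 hdis hw]
  have cη : ∀ z ∈ Om, ContDiffAt ℝ 1 (gfld N O η u) z := fun z hz => by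
    obtain ⟨i, hi⟩ := hcov z hz
    exact ((h i).fld_cd hi).congr_of_eventuallyEq (eη i z hi)
  have cE : ∀ z ∈ Om, ContinuousAt (gsum O err) z := fun z hz => by
    obtain ⟨i, hi⟩ := hcov z hz
    exact ((h i).err_c z hi).congr (eE i z hi).symm
  refine ⟨gfld N O η u, fun w => N * ell w + gsum O Φ w, gsum O err, cη, cE, ?_, ?_, ?_, ?_, ?_, ?_⟩
  · intro z hz
    obtain ⟨i, hi⟩ := hcov z hz
    obtain ⟨c, hc⟩ := (h i).ell_ls hi
    obtain ⟨c', hc'⟩ := (h i).Φ_ls z hi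
    exact ⟨_, ((hc.const_mul N).add hc').congr ((eΦ i z hi).filter_mono nhdsWithin_le_nhds)⟩
  · intro i z hz hK hX
    refine ⟨?_, ?_, ?_⟩
    · rw [gfld_eq h hdis hz, (h i).fld hz hK hX]
    · rw [gsum_eq he0 hdis hz, he0 i z hz hK]
    · show N * ell z + gsum O Φ z = N * ell z
      rw [gsum_eq hΦ0 hdis hz, hΦ0 i z hz hK, add_zero]
  · intro z hz
    obtain ⟨i, hi⟩ := hcov z hz
    rw [gfld_eq h hdis hi]
    have h1 : ‖(N : ℂ) * gr (u i) z‖ ≤ |N| * (C * l z) := by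
      rw [norm_mul, Complex.norm_real, Real.norm_eq_abs]
      exact mul_le_mul_of_nonneg_left ((h i).u_gr z hi) (abs_nonneg _)
    calc ‖η i z - N * gr (u i) z‖ ≤ ‖η i z‖ + ‖(N : ℂ) * gr (u i) z‖ := norm_sub_le _ _
      _ ≤ C * l z + |N| * (C * l z) := add_le_add ((h i).bd z hi) h1
      _ = (C + |N| * C) * l z := by ring
  · intro z hz hΦz
    obtain ⟨i, hi⟩ := hcov z hz
    refine ineq_of_punctured (cη z hz) hΦz (cE z hz) ?_
    obtain ⟨c', hc'⟩ := (h i).Φ_ls z hi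
    filter_upwards [(h i).X_ne' hi, nhdsWithin_le_nhds (ev i z hi), hc'.eventually] with w hX hw hΦw
    have h1 : dv (gfld N O η u) w = dv (η i) w - N * lp (u i) w := by
      rw [dv_congr (eη i w hw), dv_sub (((h i).η_cd w hw).differentiableAt (by norm_num))
        ((((contDiffAt_gr (m := 1) ((h i).u_cd w hw) (by norm_num)).differentiableAt (by norm_num)).const_mul _)),
        dv_const_mul _ ((contDiffAt_gr (m := 1) ((h i).u_cd w hw) (by norm_num)).differentiableAt (by norm_num))]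
      rfl
    have h2 : Δ (fun w => N * ell w + gsum O Φ w) w = N * lp (u i) w + Δ (Φ i) w := by
      have e1 : (fun w => N * ell w + gsum O Φ w) =ᶠ[𝓝 w] fun x => (N * Real.log ‖X i x‖ + N * u i x) + Φ i x := by
        filter_upwards [eΦ i w hw, (h i).ell_ev hw hX] with x hx hx'
        rw [hx, hx']
        ring
      have c1 := (h i).log_cd hw hX
      have c2 := (h i).u_cd w hw
      have c3 : ContDiffAt ℝ 2 (fun x => N * Real.log ‖X i x‖ + N * u i x) w := (contDiffAt_const.mul c1).add (contDiffAt_const.mul c2)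
      rw [← lp_eq_lap ((c3.add hΦw).congr_of_eventuallyEq e1), lp_congr e1, ← lp_eq_lap hΦw]
      unfold Pool.Agent.MQ.lp
      have e2 : gr (fun x => (N * Real.log ‖X i x‖ + N * u i x) + Φ i x) =ᶠ[𝓝 w] fun x =>
          (N : ℂ) * (starRingEnd ℂ) (deriv (X i) x / X i x) + N * gr (u i) x + gr (Φ i) x := by
        filter_upwards [ev i w hw, ((h i).X_an w hw).continuousAt.eventually_ne hX, hΦw.eventually (by simp)] with x hx hXx hΦx
        have d1 := ((h i).log_cd hx hXx).differentiableAt (by norm_num : (2 : WithTop ℕ∞) ≠ 0)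
        have d2 := ((h i).u_cd x hx).differentiableAt (by norm_num : (2 : WithTop ℕ∞) ≠ 0)
        have d12 : DifferentiableAt ℝ (fun y => N * Real.log ‖X i y‖ + N * u i y) x := (d1.const_mul N).add (d2.const_mul N)
        rw [gr_add d12 (hΦx.differentiableAt (by norm_num)), gr_add (d1.const_mul N) (d2.const_mul N),
          gr_const_mul _ d1, gr_const_mul _ d2, gr_log_norm ((h i).X_an x hx).differentiableAt hXx]
      have a1 : AnalyticAt ℂ (fun x => deriv (X i) x / X i x) w := ((h i).X_an w hw).deriv.div ((h i).X_an w hw) hX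
      have d3 : DifferentiableAt ℝ (fun x => (starRingEnd ℂ) (deriv (X i) x / X i x)) w :=
        (contDiffAt_conj_holo (n := 1) a1).differentiableAt (by norm_num)
      have d4 : DifferentiableAt ℝ (gr (u i)) w := (contDiffAt_gr (m := 1) ((h i).u_cd w hw) (by norm_num)).differentiableAt (by norm_num)
      have d5 : DifferentiableAt ℝ (gr (Φ i)) w := (contDiffAt_gr (m := 1) hΦw (by norm_num)).differentiableAt (by norm_num)
      have d34 : DifferentiableAt ℝ (fun x => (N : ℂ) * (starRingEnd ℂ) (deriv (X i) x / X i x) + N * gr (u i) x) w :=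
        (d3.const_mul _).add (d4.const_mul _)
      rw [dv_congr e2, dv_add d34 d5, dv_add (d3.const_mul _) (d4.const_mul _), dv_const_mul _ d3, dv_const_mul _ d4,
        dv_conj a1.differentiableAt]
      ring
    have h3 := (h i).ineq w hw hΦw
    rw [h1, h2, (eE i w hw).eq_of_nhds]
    linarith
  · intro z hz hzV hΦz
    obtain ⟨i, hi⟩ := hcov z hz
    have hX := (h i).X_V z hi hzV
    have e1 : Φ i =ᶠ[𝓝 z] fun w => (N * ell w + gsum O Φ w) - N * (Real.log ‖X i w‖ + u i w) := by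
      filter_upwards [eΦ i z hi, (h i).ell_ev hi hX] with w hw hw'
      rw [hw, hw']
      ring
    have c1 : ContDiffAt ℝ 2 (Φ i) z :=
      (hΦz.sub (contDiffAt_const.mul (((h i).log_cd hi hX).add ((h i).u_cd z hi)))).congr_of_eventuallyEq e1
    have h1 := (h i).up z hi hzV c1
    have h2 := (h i).u_bd z hi
    show L z + (N * ell z + gsum O Φ z) ≤ _
    rw [gsum_eq hΦ0 hdis hi, (h i).ell_eq z hi hX]
    linarith
  · intro R hR
    have hcont : ∀ i, Continuous ((O i).indicator (err i)) := fun i => cont_indicator (h i).op (h i).cl (hKO i) (h i).err_c (he0 i)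
    have hint : ∀ i, Integrable fun z => tau R z * (O i).indicator (err i) z := fun i =>
      ((Pool.Agent.H30M.contDiff_tau R).continuous.mul (hcont i)).integrable_of_hasCompactSupport (Pool.Agent.H30M.hcs_tau hR).mul_right
    have h1 : ∫ z in Om, tau R z * gsum O err z = ∫ z, tau R z * gsum O err z := by
      refine setIntegral_eq_integral_of_forall_compl_eq_zero fun z hz => ?_
      unfold gsum
      rw [Finset.sum_eq_zero, mul_zero]
      intro i _
      exact Set.indicator_of_notMem (fun h2 => hz (hsub i h2)) _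
    rw [h1]
    have h2 : ∀ z, tau R z * gsum O err z = ∑ i, tau R z * (O i).indicator (err i) z := fun z => by
      unfold gsum
      rw [Finset.mul_sum]
    simp only [h2]
    rw [integral_finsetSum _ fun i _ => hint i]
    refine Finset.sum_congr rfl fun i _ => ?_
    rw [← integral_indicator (h i).op.measurableSet]
    refine integral_congr_ae (Eventually.of_forall fun z => ?_)
    by_cases hz : z ∈ O i
    · simp [Set.indicator_of_mem hz]
    · simp [Set.indicator_of_notMem hz]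

end glue

end Pool.Agent.MQ2
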