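import Pool.Agent.MQ2.LeafS0

/-!
# MQ2 LeafN: all points of a leaf are points of leaves; equations of leaves are invariant
-/

set_option autoImplicit false

open Topology Filter Metric

noncomputable section

namespace Pool.Agent.MQ2

open Pool.Agent.MQ

/-- the points of a leaf -/
theorem leafIn_shift {v : ℂ × ℂ → ℂ × ℂ} {q : ℂ × ℂ → ℂ} {γ : ℂ → ℂ × ℂ} (hγ : AnalyticAt ℂ γ 0)
    (he : ∀ᶠ t in 𝓝 (0 : ℂ), (v (γ t)).1 * (deriv γ t).2 = (v (γ t)).2 * (deriv γ t).1 ∧ q (γ t) = 0) (hf : ∃ᶠ t in 𝓝 (0 : ℂ), γ t ≠ γ 0) :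
    ∀ᶠ t in 𝓝 (0 : ℂ), LeafIn v q (γ t) := by
  obtain ⟨ρ, hρ, hall⟩ := Metric.eventually_nhds_iff_ball.1 (he.and hγ.eventually_analyticAt)
  refine Metric.eventually_nhds_iff_ball.2 ⟨ρ, hρ, fun s hs => ?_⟩
  have hst : Tendsto (fun t : ℂ => s + t) (𝓝 0) (𝓝 s) := (by fun_prop : Continuous fun t : ℂ => s + t).tendsto' _ _ (add_zero s)
  refine ⟨fun t => γ (s + t), ?_, by simp, ?_, ?_⟩
  · refine AnalyticAt.fun_comp (g := γ) (f := fun t => s + t) ?_ (by fun_prop)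
    rw [add_zero]
    exact (hall s hs).2
  · filter_upwards [hst.eventually (isOpen_ball.mem_nhds hs)] with t ht
    rw [deriv_comp_const_add]
    exact (hall _ ht).1
  · intro hcon
    have h1 : ∀ᶠ t in 𝓝 s, γ t = γ s := by
      have h2 : Tendsto (fun t : ℂ => t - s) (𝓝 s) (𝓝 0) := (by fun_prop : Continuous fun t : ℂ => t - s).tendsto' _ _ (sub_self s)
      filter_upwards [h2.eventually hcon] with t ht
      simpa using ht
    have han : AnalyticOnNhd ℂ γ (ball 0 ρ) := fun t ht => (hall t ht).2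
    have h3 := han.eqOn_of_preconnected_of_eventuallyEq (analyticOnNhd_const (v := γ s)) (convex_ball (0 : ℂ) ρ).isPreconnected hs h1
    apply hf
    filter_upwards [isOpen_ball.mem_nhds (mem_ball_self hρ)] with t ht
    rw [not_not, h3 ht, h3 (mem_ball_self hρ)]

/-- an equation of the leaves is invariant -/
theorem leafIn_inv {v : ℂ × ℂ → ℂ × ℂ} {q g : ℂ × ℂ → ℂ} {p : ℂ × ℂ} (hv : AnalyticAt ℂ v p) (hv0 : v p ≠ 0) (hg : AnalyticAt ℂ g p)
    (hz : ∀ᶠ w in 𝓝 p, LeafIn v q w → g w = 0) (h : LeafIn v q p) : fderiv ℂ g p (v p) = 0 := by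
  obtain ⟨γ, hγ, rfl, he, hf⟩ := h
  have hγt : Tendsto γ (𝓝 0) (𝓝 (γ 0)) := hγ.continuousAt
  have h1 : ∀ᶠ t in 𝓝 (0 : ℂ), g (γ t) = 0 := by
    filter_upwards [leafIn_shift hγ he hf, hγt.eventually hz] with t h2 h3 using h3 h2
  -- the derivative of `γ` is not identically zero
  have hd : ∃ᶠ t in 𝓝 (0 : ℂ), deriv γ t ≠ 0 := by
    intro hcon
    obtain ⟨ρ, hρ, hall⟩ := Metric.eventually_nhds_iff_ball.1 (hcon.and hγ.eventually_analyticAt)
    apply hf
    filter_upwards [isOpen_ball.mem_nhds (mem_ball_self hρ)] with t ht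
    rw [not_not]
    exact isOpen_ball.is_const_of_deriv_eq_zero (convex_ball (0 : ℂ) ρ).isPreconnected (fun s hs => (hall s hs).2.differentiableAt.differentiableWithinAt)
      (fun s hs => not_not.1 (hall s hs).1) ht (mem_ball_self hρ)
  have h2 : ∃ᶠ t in 𝓝 (0 : ℂ), fderiv ℂ g (γ t) (v (γ t)) = 0 := by
    refine (hd.and_eventually ((h1.eventually_nhds.and (hγt.eventually hg.eventually_analyticAt)).and
      ((hγt.eventually (hv.continuousAt.eventually_ne hv0)).and (he.and hγ.eventually_analyticAt)))).mono ?_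
    rintro t ⟨ht1, ⟨ht2, ht3⟩, ht4, ht5, ht6⟩
    have e1 : HasDerivAt (fun t => g (γ t)) (fderiv ℂ g (γ t) (deriv γ t)) t :=
      ht3.differentiableAt.hasFDerivAt.comp_hasDerivAt t ht6.differentiableAt.hasDerivAt
    have e2 : HasDerivAt (fun t => g (γ t)) 0 t := (hasDerivAt_const t (0 : ℂ)).congr_of_eventuallyEq ht2
    have e3 := e1.unique e2
    obtain ⟨c, hc⟩ := LeafS.par ht4 ht4 (mul_comm _ _) ht5.1
    have hc0 : c ≠ 0 := by
      rintro rfl
      apply ht1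
      rw [hc, zero_smul]
    rw [hc, map_smul, smul_eq_mul, mul_eq_zero] at e3
    exact e3.resolve_left hc0
  have h3 : ContinuousAt (fun t => fderiv ℂ g (γ t) (v (γ t))) 0 := by
    have c1 : ContinuousAt (fun t => fderiv ℂ g (γ t)) 0 := ContinuousAt.comp (f := γ) (g := fderiv ℂ g) hg.fderiv.continuousAt hγ.continuousAt
    have c2 : ContinuousAt (fun t => v (γ t)) 0 := ContinuousAt.comp (f := γ) (g := v) hv.continuousAt hγ.continuousAt
    exact c1.clm_apply c2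
  by_contra hne
  exact h2 (h3.eventually_ne hne)

/-- a nonzero germ is a nonzero germ at all points near `0` -/
theorem frequently_near {f : ℂ × ℂ → ℂ} (hf : AnalyticAt ℂ f 0) (hf0 : ∃ᶠ p in 𝓝 (0 : ℂ × ℂ), f p ≠ 0) :
    ∀ᶠ p in 𝓝 (0 : ℂ × ℂ), ∃ᶠ w in 𝓝 p, f w ≠ 0 := by
  obtain ⟨ρ, hρ, hall⟩ := Metric.eventually_nhds_iff_ball.1 hf.eventually_analyticAt
  refine Metric.eventually_nhds_iff_ball.2 ⟨ρ, hρ, fun p hp hcon => hf0 ?_⟩
  have han : AnalyticOnNhd ℂ f (ball 0 ρ) := hall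
  have h1 : f =ᶠ[𝓝 p] 0 := by
    filter_upwards [hcon] with w hw using not_not.1 hw
  have h3 := han.eqOn_zero_of_preconnected_of_eventuallyEq_zero (convex_ball (0 : ℂ × ℂ) ρ).isPreconnected hp h1
  filter_upwards [isOpen_ball.mem_nhds (mem_ball_self hρ)] with w hw
  rw [not_not]
  exact h3 hw

end Pool.Agent.MQ2
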