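import Pool.Agent.MQ.LeafReg
import Pool.Agent.H62.BU.Inv

/-!
# MQ2 LeafS0: the leaves of a vector field in the zero set of a function, near a regular point

A flow box (hypothesis) and `leaf_regular`; the property to be a point of a leaf in the zero set is transported by the coordinates.
-/

set_option autoImplicit false

open Topology Filter Metric

noncomputable section

namespace Pool.Agent.MQ2

open Pool.Agent.MQ

namespace LeafS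

theorem par {v w a : ℂ × ℂ} (hv : v ≠ 0) (hw : w ≠ 0) (h1 : v.1 * w.2 = v.2 * w.1) (h2 : v.1 * a.2 = v.2 * a.1) : ∃ c : ℂ, a = c • w := by
  have hdet : a.2 * w.1 = a.1 * w.2 := by
    have e1 : v.1 * (a.2 * w.1 - a.1 * w.2) = 0 := by linear_combination w.1 * h2 - a.1 * h1
    have e2 : v.2 * (a.2 * w.1 - a.1 * w.2) = 0 := by linear_combination w.2 * h2 - a.2 * h1
    rcases mul_eq_zero.1 e1 with h | h
    · rcases mul_eq_zero.1 e2 with h' | h'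
      · exact absurd (Prod.ext h h') hv
      · exact sub_eq_zero.1 h'
    · exact sub_eq_zero.1 h
  by_cases h0 : w.1 = 0
  · have h3 : w.2 ≠ 0 := fun h => hw (Prod.ext h0 h)
    refine ⟨a.2 / w.2, Prod.ext ?_ ?_⟩
    · show a.1 = a.2 / w.2 * w.1
      rw [h0, mul_zero] at hdet
      rw [h0, mul_zero]
      rcases mul_eq_zero.1 hdet.symm with h | h
      · exact h
      · exact absurd h h3
    · show a.2 = a.2 / w.2 * w.2
      field_simp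
  · refine ⟨a.1 / w.1, Prod.ext ?_ ?_⟩
    · show a.1 = a.1 / w.1 * w.1
      field_simp
    · show a.2 = a.1 / w.1 * w.2
      field_simp
      exact hdet

/-- the coordinates `Ψ` with the inverse `Ξ` are good at `u` -/
structure Good (v Ψ Ξ : ℂ × ℂ → ℂ × ℂ) (u : ℂ × ℂ) : Prop where
  inv : Ξ (Ψ u) = u
  an : AnalyticAt ℂ Ψ u
  an' : AnalyticAt ℂ Ξ (Ψ u)
  der : ∀ a, fderiv ℂ Ξ (Ψ u) (fderiv ℂ Ψ u a) = a
  rel : (v (Ψ u)).1 * (fderiv ℂ Ψ u (0, 1)).2 = (v (Ψ u)).2 * (fderiv ℂ Ψ u (0, 1)).1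
  ne : v (Ψ u) ≠ 0

theorem Good.ne' {v Ψ Ξ : ℂ × ℂ → ℂ × ℂ} {u : ℂ × ℂ} (h : Good v Ψ Ξ u) : fderiv ℂ Ψ u (0, 1) ≠ 0 := by
  intro h0
  have h1 := h.der (0, 1)
  rw [h0, map_zero] at h1
  have := congrArg Prod.snd h1
  simp at this

theorem leaf_to {v Ψ Ξ : ℂ × ℂ → ℂ × ℂ} {q : ℂ × ℂ → ℂ} {p : ℂ × ℂ} (hG : ∀ᶠ u in 𝓝 p, Good v Ψ Ξ u) (h : LeafIn (fun _ => (0, 1)) (fun u => q (Ψ u)) p) :
    LeafIn v q (Ψ p) := by
  obtain ⟨γ, hγ, h0, he, hf⟩ := h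
  have hGt : ∀ᶠ t in 𝓝 (0 : ℂ), Good v Ψ Ξ (γ t) := by
    have h1 := hγ.continuousAt.tendsto
    rw [h0] at h1
    exact h1.eventually hG
  have hp := hG.self_of_nhds
  refine ⟨fun t => Ψ (γ t), ?_, congrArg Ψ h0, ?_, ?_⟩
  · refine AnalyticAt.fun_comp (g := Ψ) (f := γ) ?_ hγ
    rw [h0]
    exact hp.an
  · filter_upwards [he, hGt, hγ.eventually_analyticAt] with t ht hg hγt
    refine ⟨?_, ht.2⟩
    have h1 : HasDerivAt (fun t => Ψ (γ t)) (fderiv ℂ Ψ (γ t) (deriv γ t)) t :=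
      hg.an.differentiableAt.hasFDerivAt.comp_hasDerivAt t hγt.differentiableAt.hasDerivAt
    have h2 : (deriv γ t).1 = 0 := by
      have := ht.1
      simpa using this.symm
    have h3 : deriv γ t = (deriv γ t).2 • ((0, 1) : ℂ × ℂ) := by ext <;> simp [h2]
    rw [h1.deriv, h3, map_smul]
    show (v (Ψ (γ t))).1 * ((deriv γ t).2 * (fderiv ℂ Ψ (γ t) (0, 1)).2) = (v (Ψ (γ t))).2 * ((deriv γ t).2 * (fderiv ℂ Ψ (γ t) (0, 1)).1)
    linear_combination (deriv γ t).2 * hg.rel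
  · refine (hf.and_eventually hGt).mono fun t ht h1 => ht.1 ?_
    have h2 : Ψ (γ t) = Ψ p := h1
    rw [← ht.2.inv, h2, hp.inv]

theorem leaf_from {v Ψ Ξ : ℂ × ℂ → ℂ × ℂ} {q : ℂ × ℂ → ℂ} {p : ℂ × ℂ} (hG : ∀ᶠ u in 𝓝 p, Good v Ψ Ξ u) (hr : ∀ᶠ y in 𝓝 (Ψ p), Ψ (Ξ y) = y)
    (h : LeafIn v q (Ψ p)) : LeafIn (fun _ => (0, 1)) (fun u => q (Ψ u)) p := by
  obtain ⟨γ, hγ, h0, he, hf⟩ := h
  have hp := hG.self_of_nhds
  have hδ : AnalyticAt ℂ (fun t => Ξ (γ t)) 0 := by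
    refine AnalyticAt.fun_comp (g := Ξ) (f := γ) ?_ hγ
    rw [h0]
    exact hp.an'
  have hδ0 : Ξ (γ 0) = p := by rw [h0, hp.inv]
  have hGt : ∀ᶠ t in 𝓝 (0 : ℂ), Good v Ψ Ξ (Ξ (γ t)) := by
    have h1 := hδ.continuousAt.tendsto
    rw [hδ0] at h1
    exact h1.eventually hG
  have hrt : ∀ᶠ t in 𝓝 (0 : ℂ), Ψ (Ξ (γ t)) = γ t := by
    have h1 := hγ.continuousAt.tendsto
    rw [h0] at h1
    exact h1.eventually hr
  refine ⟨fun t => Ξ (γ t), hδ, hδ0, ?_, ?_⟩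
  · filter_upwards [he, hGt, hδ.eventually_analyticAt, hrt.eventually_nhds] with t ht hg hδt hrn
    have hr0 := hrn.self_of_nhds
    refine ⟨?_, by show q (Ψ (Ξ (γ t))) = 0; rw [hr0]; exact ht.2⟩
    have h1 : HasDerivAt (fun t => Ψ (Ξ (γ t))) (fderiv ℂ Ψ (Ξ (γ t)) (deriv (fun t => Ξ (γ t)) t)) t :=
      hg.an.differentiableAt.hasFDerivAt.comp_hasDerivAt t hδt.differentiableAt.hasDerivAt
    have h2 : deriv γ t = fderiv ℂ Ψ (Ξ (γ t)) (deriv (fun t => Ξ (γ t)) t) := by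
      rw [← h1.deriv]
      exact (Filter.EventuallyEq.deriv_eq hrn).symm
    have h3 := hg.rel
    have h4 := hg.ne
    rw [hr0] at h3 h4
    obtain ⟨c, hc⟩ := par h4 hg.ne' h3 ht.1
    have h5 := hg.der (deriv (fun t => Ξ (γ t)) t)
    rw [← h2, hc, map_smul, hg.der] at h5
    rw [← h5]
    simp
  · refine (hf.and_eventually hrt).mono fun t ht h1 => ht.1 ?_
    have h2 : Ξ (γ t) = p := h1
    rw [← ht.2, h2]

/-- the core, with the flow box as a hypothesis -/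
theorem leaf_set_of {v : ℂ × ℂ → ℂ × ℂ} {q : ℂ × ℂ → ℂ} {p₀ : ℂ × ℂ} (hv : AnalyticAt ℂ v p₀) (hv0 : v p₀ ≠ 0) (hq : AnalyticAt ℂ q p₀)
    (hq0 : ∃ᶠ p in 𝓝 p₀, q p ≠ 0) {Ψ : ℂ × ℂ → ℂ × ℂ} (hΨ : AnalyticAt ℂ Ψ 0) (hΨ0 : Ψ 0 = p₀)
    (hli : LinearIndependent ℂ ![fderiv ℂ Ψ 0 (1, 0), fderiv ℂ Ψ 0 (0, 1)])
    (hrel : ∀ᶠ p in 𝓝 (0 : ℂ × ℂ), (v (Ψ p)).1 * (fderiv ℂ Ψ p (0, 1)).2 = (v (Ψ p)).2 * (fderiv ℂ Ψ p (0, 1)).1) :
    (∀ᶠ p in 𝓝 p₀, ¬ LeafIn v q p) ∨ ∃ l : ℂ × ℂ → ℂ, AnalyticAt ℂ l p₀ ∧ l p₀ = 0 ∧ fderiv ℂ l p₀ ≠ 0 ∧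
      ∀ᶠ p in 𝓝 p₀, (LeafIn v q p ↔ l p = 0) ∧ (l p = 0 → q p = 0 ∧ fderiv ℂ l p (v p) = 0) := by
  subst hΨ0
  obtain ⟨Ξ, hΞ, h1, h2, h3⟩ := Pool.Agent.H62.BU.local_inverse hΨ (by
    intro u hu
    have h4 : u = u.1 • ((1, 0) : ℂ × ℂ) + u.2 • ((0, 1) : ℂ × ℂ) := by ext <;> simp
    rw [h4, map_add, map_smul, map_smul] at hu
    have h5 := LinearIndependent.pair_iff.1 hli _ _ hu
    exact Prod.ext h5.1 h5.2)
  have hΨt : Tendsto Ψ (𝓝 0) (𝓝 (Ψ 0)) := hΨ.continuousAt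
  have hΞt : Tendsto Ξ (𝓝 (Ψ 0)) (𝓝 0) := by
    have := hΞ.continuousAt.tendsto
    rwa [h3] at this
  have hG : ∀ᶠ u in 𝓝 (0 : ℂ × ℂ), Good v Ψ Ξ u := by
    filter_upwards [h1.eventually_nhds, hΨ.eventually_analyticAt, hΨt.eventually hΞ.eventually_analyticAt, hrel, hΨt.eventually (hv.continuousAt.eventually_ne hv0)]
      with u hu1 hu2 hu3 hu4 hu5
    refine ⟨hu1.self_of_nhds, hu2, hu3, fun a => ?_, hu4, hu5⟩
    have e1 : HasFDerivAt (fun x => Ξ (Ψ x)) ((fderiv ℂ Ξ (Ψ u)).comp (fderiv ℂ Ψ u)) u :=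
      hu3.differentiableAt.hasFDerivAt.comp u hu2.differentiableAt.hasFDerivAt
    have e2 : HasFDerivAt (fun x => Ξ (Ψ x)) (ContinuousLinearMap.id ℂ (ℂ × ℂ)) u := (hasFDerivAt_id u).congr_of_eventuallyEq hu1
    exact congrArg (fun L : ℂ × ℂ →L[ℂ] ℂ × ℂ => L a) (e1.unique e2)
  have hqa : AnalyticAt ℂ (fun u => q (Ψ u)) 0 := AnalyticAt.fun_comp (g := q) (f := Ψ) hq hΨ
  have hqne : ∃ᶠ u in 𝓝 (0 : ℂ × ℂ), q (Ψ u) ≠ 0 := by
    intro hcon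
    apply hq0
    filter_upwards [hΞt.eventually hcon, h2] with y hy1 hy2
    rw [hy2] at hy1
    exact hy1
  -- the points near `Ψ 0`
  have hpt : ∀ᶠ y in 𝓝 (Ψ 0), Ψ (Ξ y) = y ∧ (∀ᶠ u in 𝓝 (Ξ y), Good v Ψ Ξ u) ∧ (LeafIn v q y ↔ LeafIn (fun _ => (0, 1)) (fun u => q (Ψ u)) (Ξ y)) := by
    filter_upwards [h2.eventually_nhds, hΞt.eventually hG.eventually_nhds] with y hy1 hy2
    have hy0 := hy1.self_of_nhds
    refine ⟨hy0, hy2, fun h => ?_, fun h => ?_⟩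
    · refine leaf_from (Ξ := Ξ) hy2 ?_ ?_
      · rw [hy0]
        exact hy1
      · rw [hy0]
        exact h
    · have := leaf_to hy2 h
      rwa [hy0] at this
  rcases leaf_regular hqa hqne with hc | hc
  · left
    filter_upwards [hpt, hΞt.eventually hc] with y hy hcy h
    exact hcy (hy.2.2.1 h)
  · right
    have hfst : ∀ y, AnalyticAt ℂ Ξ y → HasFDerivAt (fun y => (Ξ y).1) ((ContinuousLinearMap.fst ℂ ℂ ℂ).comp (fderiv ℂ Ξ y)) y := fun y hy =>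
      (ContinuousLinearMap.fst ℂ ℂ ℂ).hasFDerivAt.comp y hy.differentiableAt.hasFDerivAt
    refine ⟨fun y => (Ξ y).1, analyticAt_fst.fun_comp hΞ, congrArg Prod.fst h3, ?_, ?_⟩
    · rw [(hfst _ hΞ).fderiv]
      intro h0
      have e1 := congrArg (fun L : ℂ × ℂ →L[ℂ] ℂ => L (fderiv ℂ Ψ 0 (1, 0))) h0
      simp only [ContinuousLinearMap.comp_apply, hG.self_of_nhds.der] at e1
      simp at e1
    · filter_upwards [hpt, hΞt.eventually hc, hΞ.eventually_analyticAt] with y hy hcy hya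
      have hiff : LeafIn v q y ↔ (Ξ y).1 = 0 := hy.2.2.trans hcy
      refine ⟨hiff, fun h => ⟨?_, ?_⟩⟩
      · obtain ⟨γ, -, g0, g1, -⟩ := hiff.2 h
        have := g1.self_of_nhds.2
        rwa [g0] at this
      · have hg := hy.2.1.self_of_nhds
        have e3 := hg.rel
        have e4 := hg.ne
        have e5 := hg.der
        rw [hy.1] at e3 e4 e5
        obtain ⟨c, hc⟩ := par e4 hg.ne' e3 (mul_comm (v y).1 (v y).2)
        rw [(hfst _ hya).fderiv, ContinuousLinearMap.comp_apply, hc, map_smul, e5]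
        simp

end LeafS

end Pool.Agent.MQ2
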