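import Pool.Agent.MQ.Asm
import Pool.Agent.MQ2.DefsG

/-!
# MQ2 Pack2A: the gluing of `l`, `η`, `Φ`, `err`
-/

set_option autoImplicit false

open Topology Filter Metric MvPolynomial Asymptotics MeasureTheory Laplacian

noncomputable section

namespace Pool.Agent.MQ2

open Pool.Agent.H36.BP (EN fs)
open Pool.Agent.H17BP (IsChart IsForm)
open Pool.Agent.H17EF (projVar coneE)
open Pool.Agent.H30M (tau avg rhoR LogSing)
open Pool.Agent.MQ

variable {M : ℕ} {P : Ideal (MvPolynomial (Fin (M + 1)) ℂ)} {FF : Set (EN M × EN M)}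

namespace Pack2A

/-- the local data in the box `B` -/
structure LD (B : GBox P FF) (g : ℂ × ℂ → ℂ) (F : ℂ → EN M) (s δ : ℝ) (C A' : ℝ) (l : ℂ → ℝ) (η : ℂ → ℂ) (Φ err : ℂ → ℝ) : Prop where
  nonneg : 0 ≤ C
  A_nonneg : 0 ≤ A'
  l_cont : Continuous l
  l_ge : ∀ z, lam F z ≤ l z
  energy : ∀ R, 1 ≤ R → ∫ z, tau R z * l z ^ 2 ≤ A' * En F R + C
  diff : ContDiffOn ℝ 1 η (B.Om F)
  cont : ContinuousOn err (B.Om F)
  ls : ∀ z ∈ B.Om F, ∃ c, LogSing Φ c z
  out : ∀ z ∈ B.Om F, B.cc F z ∉ ball (0 : ℂ × ℂ) s → (¬ B.Reg → η z = (starRingEnd ℂ) (B.DD g F z)) ∧ err z = 0 ∧ Φ z = 0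
  reg : B.Reg → ∀ z, η z = 0 ∧ err z = 0 ∧ Φ z = 0
  le : ∀ z ∈ B.Om F, ‖η z‖ ≤ C * l z
  dv_nonneg : ∀ z ∈ B.Om F, ContDiffAt ℝ 2 Φ z → 0 ≤ dv η z + Δ Φ z + err z
  up : ∀ z ∈ B.Om F, ContDiffAt ℝ 2 Φ z → B.zt F z ≠ 0 → g (B.cc F z) ≠ 0 → Real.log ‖B.zt F z‖ + Real.log ‖g (B.cc F z)‖ + Φ z ≤ C + Real.log (1 + l z)
  int : ∀ R, 1 ≤ R → ∫ z in B.Om F, tau R z * err z ≤ δ * En F R + C * (∫ z, ‖gr (tau R) z‖ * l z) + C

theorem lap_zero (z : ℂ) : Δ (fun _ : ℂ => (0 : ℝ)) z = 0 := by simp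

theorem int_gr_mul {R : ℝ} (hR : 1 ≤ R) {l : ℂ → ℝ} (hl : Continuous l) : Integrable fun z => ‖gr (tau R) z‖ * l z := by
  have h1 : Continuous fun z => ‖gr (tau R) z‖ := (continuous_gr ((Pool.Agent.H30M.contDiff_tau R).of_le (by norm_num))).norm
  have h2 : HasCompactSupport fun z => ‖gr (tau R) z‖ := (hasCompactSupport_gr (Pool.Agent.H30M.hcs_tau hR)).norm
  exact int_mul h1 h2 fun z _ => hl.continuousAt

theorem exists_ld {A : Atlas P FF} {D : CData A} {F : ℂ → EN M} (hF : Crv P FF F) (hR : ∃ z, eval (F z).ofLp D.R ≠ 0) {s : ℝ} (hs : 0 < s)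
    {δ : ℝ} (hδ : 0 ≤ δ)
    (hL : ∀ i, ¬ (A.B i).Reg → ∃ A' : ℝ, LocX (A.B i).v (D.g i) (fun _ => 1) ((A.B i).Om F) ((A.B i).cc F) (lam F) s A' δ) (i : A.ι) :
    ∃ C A' l η Φ err, LD (A.B i) (D.g i) F s δ C A' l η Φ err := by
  have hlamc : Continuous (lam F) := continuous_lam hF.diff (Asm.F_ne hF A)
  have hl0 : ∀ z, 0 ≤ lam F z := lam_nonneg F
  obtain ⟨C', hC', hl⟩ := lam_cc (A.B i)
  by_cases hr : (A.B i).Reg
  · obtain ⟨Cg, hCg⟩ : ∃ Cg, ∀ p ∈ closedBall (0 : ℂ × ℂ) (A.B i).r, ‖D.g i p‖ ≤ Cg :=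
      (isCompact_closedBall _ _).exists_bound_of_continuousOn fun p hp => (D.an i p hp).continuousAt.continuousWithinAt
    set Cg' := max Cg 1 with hCg'
    have hCg1 : 1 ≤ Cg' := le_max_right _ _
    refine ⟨Real.log (1 + C' * Cg'), 1, lam F, fun _ => 0, fun _ => 0, fun _ => 0, Real.log_nonneg (by nlinarith), zero_le_one, hlamc, fun z => le_rfl,
      fun R hR1 => ?_, contDiffOn_const, continuousOn_const, fun z _ => ⟨0, LogSing.of_contDiffAt contDiffAt_const⟩,
      fun z hz h => ⟨fun h' => absurd hr h', rfl, rfl⟩, fun _ z => ⟨rfl, rfl, rfl⟩, fun z hz => ?_, fun z hz _ => ?_, fun z hz _ h1 h2 => ?_, fun R hR1 => ?_⟩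
    · have : 0 ≤ Real.log (1 + C' * Cg') := Real.log_nonneg (by nlinarith)
      change _ ≤ 1 * (∫ z, tau R z * lam F z ^ 2) + _
      linarith
    · rw [norm_zero]
      exact mul_nonneg (Real.log_nonneg (by nlinarith)) (hl0 z)
    · rw [lap_zero]
      simp
    · have h3 : ‖(A.B i).zt F z‖ ≤ C' * lam F z := by
        refine le_trans ?_ (hl F hF.diff hF.mem z hz).1
        have h4 : (A.B i).zt F z = (deriv ((A.B i).cc F) z).2 := by
          unfold GBox.zt
          rw [hr]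
          simp
        rw [h4]
        exact norm_snd_le _
      have h4 : ‖D.g i ((A.B i).cc F z)‖ ≤ Cg' :=
        (hCg _ (ball_subset_closedBall (cc_lift (A.B i) hF.diff hF.mem hz).2.1)).trans (le_max_left _ _)
      have h5 : ‖(A.B i).zt F z‖ * ‖D.g i ((A.B i).cc F z)‖ ≤ (1 + C' * Cg') * (1 + lam F z) := by
        have a0 : 0 ≤ C' * lam F z := mul_nonneg hC'.le (hl0 z)
        have a1 : ‖(A.B i).zt F z‖ * ‖D.g i ((A.B i).cc F z)‖ ≤ (C' * lam F z) * Cg' := mul_le_mul h3 h4 (norm_nonneg _) a0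
        have a2 : 0 ≤ C' * Cg' := by positivity
        have := hl0 z
        nlinarith
      have h6 := norm_pos_iff.2 h1
      have h7 := norm_pos_iff.2 h2
      have a2 : 0 ≤ C' * Cg' := by positivity
      have a3 := hl0 z
      have h8 := Real.log_le_log (mul_pos h6 h7) h5
      rw [Real.log_mul h6.ne' h7.ne', Real.log_mul (by positivity) (by positivity)] at h8
      linarith
    · simp only [mul_zero, integral_zero]
      have h3 : 0 ≤ ∫ z, ‖gr (tau R) z‖ * lam F z := integral_nonneg fun z => mul_nonneg (norm_nonneg _) (hl0 z)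
      have h4 : 0 ≤ Real.log (1 + C' * Cg') := Real.log_nonneg (by nlinarith)
      have h5 := mul_nonneg hδ (Asm.En_nonneg F hR1)
      have h6 := mul_nonneg h4 h3
      linarith
  · obtain ⟨A', C, l, η, Φ, err, hC, h1, h2, h3, h4, h5, h6, h7, h8, h9, h10, h11⟩ := hL i hr
    obtain ⟨C'', hC'', hD⟩ := norm_DD_le (A.B i) (D.an i) (D.inv i) hs
    have hl0' : ∀ z, 0 ≤ l z := fun z => (hl0 z).trans (h2 z)
    refine ⟨max C C'', max A' 0, l, η, Φ, err, le_max_of_le_left hC, le_max_right _ _, h1, h2, fun R hR1 => ?_, h4, h5, h6,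
      fun z hz h => ⟨fun _ => (h7 z hz h).1, (h7 z hz h).2.1, (h7 z hz h).2.2⟩,
      fun h => absurd h hr, fun z hz => ?_, h9, fun z hz hcd a1 a2 => ?_, fun R hR1 => ?_⟩
    · refine (h3 R hR1).trans ?_
      have a1 : A' * En F R ≤ max A' 0 * En F R := mul_le_mul_of_nonneg_right (le_max_left _ _) (Asm.En_nonneg F hR1)
      exact add_le_add a1 (le_max_left _ _)
    · by_cases hin : (A.B i).cc F z ∈ ball (0 : ℂ × ℂ) s
      · exact (h8 z hz hin).trans (mul_le_mul_of_nonneg_right (le_max_left _ _) (hl0' z))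
      · rw [(h7 z hz hin).1, RCLike.norm_conj]
        have hv := Asm.v_ne_of_cc (A.B i) hF hz hs hin
        refine (hD F hF z hz hin (g_ne hF hR hz hv)).trans ?_
        calc C'' * lam F z ≤ C'' * l z := mul_le_mul_of_nonneg_left (h2 z) hC''.le
          _ ≤ max C C'' * l z := mul_le_mul_of_nonneg_right (le_max_right _ _) (hl0' z)
    · have := h10 z hz hcd a1 a2 one_ne_zero
      rw [norm_one, Real.log_one, add_zero] at this
      exact this.trans (add_le_add (le_max_left _ _) le_rfl)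
    · refine (h11 R hR1).trans ?_
      have hLn : 0 ≤ ∫ z, ‖gr (tau R) z‖ * l z := integral_nonneg fun z => mul_nonneg (norm_nonneg _) (hl0' z)
      have : C ≤ max C C'' := le_max_left _ _
      have a1 := mul_le_mul_of_nonneg_right this hLn
      change δ * En F R + _ + _ ≤ _
      linarith

theorem sq_sum_le {ι : Type} [Fintype ι] (a : ι → ℝ) (b : ℝ) : (b + ∑ i, a i) ^ 2 ≤ (Fintype.card ι + 1) * (b ^ 2 + ∑ i, a i ^ 2) := by
  have h1 : (∑ o : Option ι, (Option.elim o b a)) ^ 2 ≤ (Fintype.card (Option ι) : ℝ) * ∑ o : Option ι, (Option.elim o b a) ^ 2 := by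
    have := sq_sum_le_card_mul_sum_sq (s := (Finset.univ : Finset (Option ι))) (f := fun o => Option.elim o b a)
    simpa using this
  rw [Fintype.sum_option, Fintype.sum_option, Fintype.card_option] at h1
  simpa using h1

end Pack2A

open Pack2A Asm

/-- **Module Pack2A.** -/
theorem exists_etaX {A : Atlas P FF} {D : CData A} {mm : A.ι → ℂ × ℂ → ℝ} (hm : Gauge A D mm) {F : ℂ → EN M} (hF : Crv P FF F)
    (hR : ∃ z, eval (F z).ofLp D.R ≠ 0) {s : ℝ} (hs : 0 < s) (hs' : ∀ i, ¬ (A.B i).Reg → s ≤ (A.B i).r / 8)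
    (hsep : ∀ i, ¬ (A.B i).Reg → ∀ j, j ≠ i → ∀ x ∈ (A.B i).U s, x ∉ (A.B j).U (A.B j).r) {δ : ℝ} (hδ : 0 ≤ δ)
    (hL : ∀ i, ¬ (A.B i).Reg → ∃ A' : ℝ, LocX (A.B i).v (D.g i) (fun _ => 1) ((A.B i).Om F) ((A.B i).cc F) (lam F) s A' δ) :
    ∃ (C : ℝ) (l : ℂ → ℝ) (η : ℂ → ℂ) (Ph err : ℂ → ℝ), 0 ≤ C ∧ Continuous l ∧ (∀ z, 0 ≤ l z) ∧ (∀ z, lam F z ≤ l z) ∧
      (∃ B : ℝ, ∀ R, 1 ≤ R → ∫ z, tau R z * l z ^ 2 ≤ B * (En F R + 1)) ∧
      ContDiff ℝ 1 η ∧ (∀ z, ‖η z‖ ≤ C * l z) ∧ Continuous err ∧ (∀ z, ∃ c, LogSing Ph c z) ∧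
      (∀ R, 1 ≤ R → ∫ z, tau R z * err z ≤ Fintype.card A.ι * δ * En F R + C * (∫ z, ‖gr (tau R) z‖ * l z) + C) ∧
      (∀ i, ∀ z ∈ (A.B i).Om F, ContDiffAt ℝ 2 Ph z → dv (gr fun w => mm i ((A.B i).cc F w)) z ≤ dv η z + Δ Ph z + err z) ∧
      ∀ i, ∀ z ∈ (A.B i).Om F, ContDiffAt ℝ 2 Ph z → (A.B i).zt F z ≠ 0 → D.g i ((A.B i).cc F z) ≠ 0 →
        Real.log ‖(A.B i).zt F z‖ + Real.log ‖D.g i ((A.B i).cc F z)‖ + Ph z ≤ C + Real.log (1 + l z) := by
  choose C₁ A₁ ls ηs Φs errs hL using exists_ld hF hR hs hδ hL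
  choose C₂ hC₂ hB₂ using norm_gr_mm_le hm
  choose idx hidx hidx4 using exists_box hF A
  have hlamc : Continuous (lam F) := continuous_lam hF.diff (F_ne hF A)
  have hl0 : ∀ z, 0 ≤ lam F z := lam_nonneg F
  have hls0 : ∀ i z, 0 ≤ ls i z := fun i z => (hl0 z).trans ((hL i).l_ge z)
  -- off the core of a singular box
  have hout : ∀ i j, i ≠ j → ¬ (A.B j).Reg → ∀ z ∈ (A.B i).Om F, z ∈ (A.B j).Om F → (A.B j).cc F z ∉ ball (0 : ℂ × ℂ) s := by
    intro i j hij hj z hzi hzj hin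
    exact hsep j hj i hij (F z) (mem_U_of_cc _ hzj hin) hzi
  -- the local formula
  have key : ∀ i, ∀ z ∈ (A.B i).Om F, gr (fun w => mm (idx z) ((A.B (idx z)).cc F w)) z + ηs (idx z) z =
      gr (fun w => mm i ((A.B i).cc F w)) z + ηs i z := by
    intro i z hz
    by_cases hi : i = idx z
    · subst hi; rfl
    by_cases hri : (A.B i).Reg
    · by_cases hrj : (A.B (idx z)).Reg
      · rw [((hL i).reg hri z).1, ((hL (idx z)).reg hrj z).1, beta_reg hm hF hR hri hrj hz (hidx z)]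
      · have hout' := hout i (idx z) hi hrj z hz (hidx z)
        have hv := v_ne_of_cc _ hF (hidx z) hs hout'
        rw [((hL i).reg hri z).1, ((hL (idx z)).out z (hidx z) hout').1 hrj, beta_sing hm hF hR hri (hidx z) hz hv, add_zero]
    · by_cases hrj : (A.B (idx z)).Reg
      · have hout' := hout (idx z) i (Ne.symm hi) hri z (hidx z) hz
        have hv := v_ne_of_cc _ hF hz hs hout'
        rw [((hL (idx z)).reg hrj z).1, ((hL i).out z hz hout').1 hri, beta_sing hm hF hR hrj hz (hidx z) hv, add_zero]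
      · exact absurd (hidx z) (A.disj i (idx z) hi hri hrj (F z) hz)
  set η : ℂ → ℂ := fun z => gr (fun w => mm (idx z) ((A.B (idx z)).cc F w)) z + ηs (idx z) z with hη
  set err : ℂ → ℝ := fun z => ∑ i, ((A.B i).Om F).indicator (errs i) z with herr
  set Ph : ℂ → ℝ := fun z => ∑ i, ((A.B i).Om F).indicator (Φs i) z with hPh
  set l : ℂ → ℝ := fun z => lam F z + ∑ i, ls i z with hl
  have hO : ∀ i, IsOpen ((A.B i).Om F) := fun i => isOpen_Om (A.B i) hF.diff hF.mem
  have hloc : ∀ i, ∀ z ∈ (A.B i).Om F, η =ᶠ[𝓝 z] fun z => gr (fun w => mm i ((A.B i).cc F w)) z + ηs i z := by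
    intro i z hz
    filter_upwards [(hO i).mem_nhds hz] with w hw
    exact key i w hw
  -- only one term is not zero
  have hone : ∀ (f : A.ι → ℂ → ℝ), (∀ j, (A.B j).Reg → ∀ z, f j z = 0) → (∀ j, ∀ z ∈ (A.B j).Om F, (A.B j).cc F z ∉ ball (0 : ℂ × ℂ) s → f j z = 0) →
      ∀ i, ∀ z ∈ (A.B i).Om F, ∑ j, ((A.B j).Om F).indicator (f j) z = f i z := by
    intro f h1 h2 i z hz
    rw [Finset.sum_eq_single i]
    · rw [Set.indicator_of_mem hz]
    · intro j _ hji
      by_cases hzj : z ∈ (A.B j).Om F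
      · rw [Set.indicator_of_mem hzj]
        by_cases hrj : (A.B j).Reg
        · exact h1 j hrj z
        · exact h2 j z hzj (hout i j (Ne.symm hji) hrj z hz hzj)
      · rw [Set.indicator_of_notMem hzj]
    · intro h
      exact absurd (Finset.mem_univ i) h
  have herr1 : ∀ i, ∀ z ∈ (A.B i).Om F, err z = errs i z := hone errs (fun j hj z => ((hL j).reg hj z).2.1) fun j z hz h => ((hL j).out z hz h).2.1
  have hPh1 : ∀ i, ∀ z ∈ (A.B i).Om F, Ph z = Φs i z := hone Φs (fun j hj z => ((hL j).reg hj z).2.2) fun j z hz h => ((hL j).out z hz h).2.2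
  have herrE : ∀ i, ∀ z ∈ (A.B i).Om F, err =ᶠ[𝓝 z] errs i := fun i z hz => ((hO i).mem_nhds hz |> fun h => (Filter.eventually_of_mem h fun w hw => herr1 i w hw))
  have hPhE : ∀ i, ∀ z ∈ (A.B i).Om F, Ph =ᶠ[𝓝 z] Φs i := fun i z hz => ((hO i).mem_nhds hz |> fun h => (Filter.eventually_of_mem h fun w hw => hPh1 i w hw))
  have hindc : ∀ i, Continuous (((A.B i).Om F).indicator (errs i)) := by
    intro i
    rw [continuous_iff_continuousAt]
    intro z
    by_cases hz : z ∈ (A.B i).Om F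
    · have h1 : ((A.B i).Om F).indicator (errs i) =ᶠ[𝓝 z] errs i := by
        filter_upwards [(hO i).mem_nhds hz] with w hw
        exact Set.indicator_of_mem hw _
      exact ((hL i).cont.continuousAt ((hO i).mem_nhds hz)).congr h1.symm
    · by_cases hri : (A.B i).Reg
      · have h1 : ((A.B i).Om F).indicator (errs i) = fun _ => 0 := by
          funext w
          by_cases hw : w ∈ (A.B i).Om F
          · rw [Set.indicator_of_mem hw, ((hL i).reg hri w).2.1]
          · rw [Set.indicator_of_notMem hw]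
        rw [h1]
        exact continuousAt_const
      · have hcl := isClosed_cc (A.B i) hF.diff hF.mem (s := s) (lt_of_le_of_lt (hs' i hri) (by linarith [(A.B i).pos]))
        have h1 : ((A.B i).Om F).indicator (errs i) =ᶠ[𝓝 z] fun _ => 0 := by
          filter_upwards [hcl.isOpen_compl.mem_nhds (fun h => hz h.1)] with w hw
          by_cases hw' : w ∈ (A.B i).Om F
          · rw [Set.indicator_of_mem hw']
            refine ((hL i).out w hw' fun h => hw ⟨hw', ball_subset_closedBall h⟩).2.1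
          · rw [Set.indicator_of_notMem hw']
        exact continuousAt_const.congr h1.symm
  have hlc : Continuous l := hlamc.add (continuous_finsetSum _ fun i _ => (hL i).l_cont)
  have hlge : ∀ z, lam F z ≤ l z := fun z => le_add_of_nonneg_right (Finset.sum_nonneg fun i _ => hls0 i z)
  have hlge' : ∀ i z, ls i z ≤ l z := fun i z =>
    (Finset.single_le_sum (f := fun i => ls i z) (fun i _ => hls0 i z) (Finset.mem_univ i)).trans (le_add_of_nonneg_left (hl0 z))
  have hlnn : ∀ z, 0 ≤ l z := fun z => (hl0 z).trans (hlge z)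
  have hC₁le : ∀ i, C₁ i ≤ ∑ i, C₁ i := fun i => Finset.single_le_sum (f := C₁) (fun i _ => (hL i).nonneg) (Finset.mem_univ _)
  have hC₂le : ∀ i, C₂ i ≤ ∑ i, C₂ i := fun i => Finset.single_le_sum (f := C₂) (fun i _ => hC₂ i) (Finset.mem_univ _)
  have hS1 : 0 ≤ ∑ i, C₁ i := Finset.sum_nonneg fun i _ => (hL i).nonneg
  have hS2 : 0 ≤ ∑ i, C₂ i := Finset.sum_nonneg fun i _ => hC₂ i
  refine ⟨(∑ i, C₁ i) + ∑ i, C₂ i, l, η, Ph, err, add_nonneg hS1 hS2, hlc, hlnn, hlge, ?_, ?_, ?_, ?_, ?_, ?_, ?_, ?_⟩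
  · -- the energy
    refine ⟨(Fintype.card A.ι + 1) * (1 + ∑ i, (A₁ i + C₁ i)), fun R hR1 => ?_⟩
    have hE := En_nonneg F hR1
    have hi : ∀ {f : ℂ → ℝ}, Continuous f → Integrable fun z => tau R z * f z := fun {f} hf =>
      int_mul (Pool.Agent.H30M.contDiff_tau R).continuous (Pool.Agent.H30M.hcs_tau hR1) fun z _ => hf.continuousAt
    have h1 : ∀ z, tau R z * l z ^ 2 ≤ (Fintype.card A.ι + 1) * (tau R z * lam F z ^ 2 + ∑ i, tau R z * ls i z ^ 2) := by
      intro z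
      have h2 := mul_le_mul_of_nonneg_left (sq_sum_le (fun i => ls i z) (lam F z)) (Pool.Agent.H30M.tau_nonneg hR1 z)
      calc tau R z * l z ^ 2 ≤ tau R z * ((Fintype.card A.ι + 1) * (lam F z ^ 2 + ∑ i, ls i z ^ 2)) := h2
        _ = _ := by rw [← Finset.mul_sum]; ring
    have h5 : ∀ i, Integrable fun z => tau R z * ls i z ^ 2 := fun i => hi ((hL i).l_cont.pow 2)
    have h3 : Integrable fun z => ∑ i, tau R z * ls i z ^ 2 := integrable_finsetSum _ fun i _ => h5 i
    have h4 : Integrable fun z => tau R z * lam F z ^ 2 := hi (hlamc.pow 2)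
    calc ∫ z, tau R z * l z ^ 2 ≤ ∫ z, (Fintype.card A.ι + 1) * (tau R z * lam F z ^ 2 + ∑ i, tau R z * ls i z ^ 2) :=
          integral_mono (hi (hlc.pow 2)) ((h4.add h3).const_mul _) h1
      _ = (Fintype.card A.ι + 1) * (En F R + ∑ i, ∫ z, tau R z * ls i z ^ 2) := by
          rw [integral_const_mul, integral_add h4 h3, integral_finsetSum _ fun i _ => h5 i]
          rfl
      _ ≤ (Fintype.card A.ι + 1) * (En F R + ∑ i, (A₁ i + C₁ i) * (En F R + 1)) := by
          refine mul_le_mul_of_nonneg_left (add_le_add le_rfl (Finset.sum_le_sum fun i _ => ((hL i).energy R hR1).trans ?_)) (by positivity)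
          have a1 := (hL i).A_nonneg
          have a2 := (hL i).nonneg
          nlinarith [mul_nonneg a2 hE]
      _ ≤ _ := by
          rw [← Finset.sum_mul]
          have a3 : 0 ≤ ∑ i, (A₁ i + C₁ i) := Finset.sum_nonneg fun i _ => add_nonneg (hL i).A_nonneg (hL i).nonneg
          have a4 : En F R + (∑ i, (A₁ i + C₁ i)) * (En F R + 1) ≤ (1 + ∑ i, (A₁ i + C₁ i)) * (En F R + 1) := by nlinarith
          rw [mul_assoc]
          exact mul_le_mul_of_nonneg_left a4 (by positivity)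
  · rw [contDiff_iff_contDiffAt]
    intro z
    refine ContDiffAt.congr_of_eventuallyEq ?_ (hloc (idx z) z (hidx z))
    refine (contDiffAt_gr (contDiffAt_mm_cc hm hF (hidx z)) (by norm_num)).add ?_
    exact (hL (idx z)).diff.contDiffAt ((hO (idx z)).mem_nhds (hidx z))
  · intro z
    calc ‖η z‖ ≤ ‖gr (fun w => mm (idx z) ((A.B (idx z)).cc F w)) z‖ + ‖ηs (idx z) z‖ := norm_add_le _ _
      _ ≤ C₂ (idx z) * lam F z + C₁ (idx z) * ls (idx z) z := add_le_add (hB₂ _ F hF z (hidx z) (hidx4 z)) ((hL _).le z (hidx z))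
      _ ≤ (∑ i, C₂ i) * l z + (∑ i, C₁ i) * l z :=
          add_le_add (mul_le_mul (hC₂le _) (hlge z) (hl0 z) hS2) (mul_le_mul (hC₁le _) (hlge' _ z) (hls0 _ z) hS1)
      _ = _ := by ring
  · exact continuous_finsetSum _ fun i _ => hindc i
  · intro z
    obtain ⟨c, hc⟩ := (hL (idx z)).ls z (hidx z)
    exact ⟨c, hc.congr ((hPhE _ z (hidx z)).filter_mono nhdsWithin_le_nhds)⟩
  · intro R hR1
    have hint : ∀ i, Integrable fun z => tau R z * ((A.B i).Om F).indicator (errs i) z := fun i =>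
      int_mul (Pool.Agent.H30M.contDiff_tau R).continuous (Pool.Agent.H30M.hcs_tau hR1) fun z _ => (hindc i).continuousAt
    have e1 : ∫ z, tau R z * err z = ∑ i, ∫ z, tau R z * ((A.B i).Om F).indicator (errs i) z := by
      rw [← integral_finsetSum _ fun i _ => hint i]
      congr 1
      funext z
      rw [herr]
      simp only [Finset.mul_sum]
    have e2 : ∀ i, ∫ z, tau R z * ((A.B i).Om F).indicator (errs i) z = ∫ z in (A.B i).Om F, tau R z * errs i z := by
      intro i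
      rw [← integral_indicator (hO i).measurableSet]
      congr 1
      funext z
      by_cases hz : z ∈ (A.B i).Om F
      · rw [Set.indicator_of_mem hz, Set.indicator_of_mem hz]
      · rw [Set.indicator_of_notMem hz, Set.indicator_of_notMem hz, mul_zero]
    rw [e1]
    set Λ : ℝ := ∫ z, ‖gr (tau R) z‖ * l z with hΛ
    have hLn : 0 ≤ Λ := integral_nonneg fun z => mul_nonneg (norm_nonneg _) (hlnn z)
    have hLle : ∀ i, ∫ z, ‖gr (tau R) z‖ * ls i z ≤ Λ := fun i =>
      integral_mono (int_gr_mul hR1 (hL i).l_cont) (int_gr_mul hR1 hlc) fun z => mul_le_mul_of_nonneg_left (hlge' i z) (norm_nonneg _)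
    calc _ ≤ ∑ i, (δ * En F R + C₁ i * Λ + C₁ i) := Finset.sum_le_sum fun i _ => by
            rw [e2 i]
            refine ((hL i).int R hR1).trans ?_
            have := mul_le_mul_of_nonneg_left (hLle i) (hL i).nonneg
            linarith
      _ = Fintype.card A.ι * δ * En F R + (∑ i, C₁ i) * Λ + ∑ i, C₁ i := by
          rw [Finset.sum_add_distrib, Finset.sum_add_distrib, Finset.sum_const, Finset.card_univ, ← Finset.sum_mul, nsmul_eq_mul, mul_assoc]
      _ ≤ _ := by nlinarith [mul_nonneg hS2 hLn]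
  · intro i z hz hcd
    have h0 := hPhE i z hz
    have h1 : dv η z = dv (gr fun w => mm i ((A.B i).cc F w)) z + dv (ηs i) z := by
      rw [dv_congr (hloc i z hz)]
      refine dv_add ?_ ?_
      · exact (contDiffAt_gr (m := 1) (contDiffAt_mm_cc hm hF hz) (by norm_num)).differentiableAt (by norm_num)
      · exact ((hL i).diff.contDiffAt ((hO i).mem_nhds hz)).differentiableAt (by norm_num)
    have h3 := (hL i).dv_nonneg z hz (hcd.congr_of_eventuallyEq h0.symm)
    rw [h1, herr1 i z hz, Pool.Agent.H30M.lap_congr h0]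
    linarith
  · intro i z hz hcd a1 a2
    have h0 := hPhE i z hz
    have h3 := (hL i).up z hz (hcd.congr_of_eventuallyEq h0.symm) a1 a2
    rw [hPh1 i z hz]
    refine h3.trans ?_
    have h4 : Real.log (1 + ls i z) ≤ Real.log (1 + l z) := Real.log_le_log (by linarith [hls0 i z]) (by linarith [hlge' i z])
    linarith [hC₁le i]

end Pool.Agent.MQ2
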