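import Pool.Agent.MQ.Asm
import Pool.Agent.MQ2.DefsG

/-!
# MQ2 Pack2C: the Laplacian inequality of `E + Φ`
-/

set_option autoImplicit false

open Topology Filter Metric MvPolynomial Asymptotics MeasureTheory Laplacian

noncomputable section

namespace Pool.Agent.MQ2

open Pool.Agent.H36.BP (EN fs)
open Pool.Agent.H17BP (IsChart IsForm)
open Pool.Agent.H17EF (projVar coneE)
open Pool.Agent.H30M (tau avg rhoR LogSing)
open Pool.Agent.MQ

variable {M : ℕ} {P : Ideal (MvPolynomial (Fin (M + 1)) ℂ)} {FF : Set (EN M × EN M)}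

/-- at a generic point `w` near `z` everything is `C²`; then continuity -/
theorem E_lapX {A : Atlas P FF} {D : CData A} {mm : A.ι → ℂ × ℂ → ℝ} (hm : Gauge A D mm) {m j : ℕ} (hm1 : 1 ≤ m) {W : EN M → EN M → EN M → ℂ}
    (hW : IsForm (coneE P) m j W) {F : ℂ → EN M} (hF : Crv P FF F) (hR : ∃ z, eval (F z).ofLp D.R ≠ 0)
    (hWF : ∃ z w, Pool.Agent.H17BP.Tan (coneE P) (F z) w ∧ W (F z) (deriv F z) w ≠ 0)
    (Q : MvPolynomial (Fin (M + 1)) ℂ) (d n : ℕ) {η : ℂ → ℂ} {Ph err : ℂ → ℝ} (hη : ContDiff ℝ 1 η) (he : Continuous err)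
    (hPh : ∀ z, ∃ c, LogSing Ph c z)
    (h : ∀ i, ∀ z ∈ (A.B i).Om F, ContDiffAt ℝ 2 Ph z → dv (gr fun w => mm i ((A.B i).cc F w)) z ≤ dv η z + Δ Ph z + err z) {z : ℂ}
    (hz : ContDiffAt ℝ 2 (fun w => Eg A D mm m j W Q d 0 n hF w + Ph w) z) :
    (2 * j / m) * lam F z ^ 2 ≤ Δ (fun w => Eg A D mm m j W Q d 0 n hF w + Ph w) z + dv η z + err z := by
  set i := idx A hF z with hi
  have hzi : z ∈ (A.B i).Om F := idx_Om A hF z
  have hgen := ne_near hm1 hW hF hR hWF hzi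
  have hEg : ∀ᶠ w in 𝓝[≠] z, Eg A D mm m j W Q d 0 n hF w =
      EE A D mm m j W F i w + ((0 : ℕ) : ℝ) / n * (Real.log ‖eval (F w).ofLp (1 : MvPolynomial (Fin (M + 1)) ℂ)‖ - d * Real.log ‖F w‖) := by
    filter_upwards [hgen] with w hw
    unfold Eg EB
    rw [EE_eq hm hm1 hW hF hw.1 (idx_Om A hF w) hw.2.1 hw.2.2.1 hw.2.2.2.2.1 hw.2.2.2.2.2]
    simp
  have hEg' : ∀ᶠ w in 𝓝[≠] z, Eg A D mm m j W Q d 0 n hF =ᶠ[𝓝 w] fun w =>
      EE A D mm m j W F i w + ((0 : ℕ) : ℝ) / n * (Real.log ‖eval (F w).ofLp (1 : MvPolynomial (Fin (M + 1)) ℂ)‖ - d * Real.log ‖F w‖) := by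
    filter_upwards [eventually_eventually_nhdsWithin.2 hEg, self_mem_nhdsWithin] with w hw hwz
    rwa [isOpen_compl_singleton.nhdsWithin_eq hwz] at hw
  obtain ⟨c, hc⟩ := hPh z
  have hineq : ∀ᶠ w in 𝓝[≠] z, (2 * j / m) * lam F w ^ 2 ≤ lp (fun w => Eg A D mm m j W Q d 0 n hF w + Ph w) w + dv η w + err w := by
    filter_upwards [hgen, hEg', (hz.eventually (by simp)).filter_mono nhdsWithin_le_nhds, hc.eventually] with w hw hEw hCw hPw
    obtain ⟨hC, hlap⟩ := Asm.lap_EB hm hW hF (Q := 1) d 0 n hw.1 hw.2.1 hw.2.2.2.1 hw.2.2.2.2.1 hw.2.2.2.2.2 (by simp)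
    have h1 := h i w hw.1 hPw
    have h3 : ContDiffAt ℝ 2 (Eg A D mm m j W Q d 0 n hF) w := hC.congr_of_eventuallyEq hEw
    rw [lp_eq_lap hCw, Pool.Agent.H30M.lap_add h3 hPw, Pool.Agent.H30M.lap_congr hEw, hlap]
    simp only [Nat.cast_zero, zero_mul, zero_div, mul_zero, sub_zero]
    linarith
  have hlam : Continuous (lam F) := continuous_lam hF.diff (Asm.F_ne hF A)
  have c1 : Tendsto (fun w => (2 * j / m) * lam F w ^ 2) (𝓝[≠] z) (𝓝 ((2 * j / m : ℝ) * lam F z ^ 2)) :=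
    ((continuous_const.mul (hlam.pow 2)).tendsto z).mono_left nhdsWithin_le_nhds
  have c2 : Tendsto (fun w => lp (fun w => Eg A D mm m j W Q d 0 n hF w + Ph w) w + dv η w + err w) (𝓝[≠] z)
      (𝓝 (lp (fun w => Eg A D mm m j W Q d 0 n hF w + Ph w) z + dv η z + err z)) :=
    (((continuousAt_lp hz).add (continuousAt_dv hη.contDiffAt)).add he.continuousAt).tendsto.mono_left nhdsWithin_le_nhds
  have := le_of_tendsto_of_tendsto c1 c2 hineq
  rwa [lp_eq_lap hz] at this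

end Pool.Agent.MQ2
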