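import Pool.Agent.MQ.Asm
import Pool.Agent.MQ2.DefsG

/-!
# MQ2 Pack2D: the upper bound of `E` and its mean
-/

set_option autoImplicit false

open Topology Filter Metric MvPolynomial Asymptotics MeasureTheory Laplacian

noncomputable section

namespace Pool.Agent.MQ2

open Pool.Agent.H36.BP (EN fs)
open Pool.Agent.H17BP (IsChart IsForm)
open Pool.Agent.H17EF (projVar coneE)
open Pool.Agent.H30M (tau avg rhoR LogSing continuous_rhoR hcs_rhoR rhoR_nonneg int_rhoR)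
open Pool.Agent.MQ

variable {M : ℕ} {P : Ideal (MvPolynomial (Fin (M + 1)) ℂ)} {FF : Set (EN M × EN M)}

/-- the bound of the coefficients of `EE` (without `g`) on the polydisc of radius `r / 4` -/
theorem p2_coeff {A : Atlas P FF} {D : CData A} {mm : A.ι → ℂ × ℂ → ℝ} (hm : Gauge A D mm) {m j : ℕ} {W : EN M → EN M → EN M → ℂ}
    (hW : IsForm (coneE P) m j W) (i : A.ι) : ∃ C : ℝ, 0 ≤ C ∧ ∀ p ∈ closedBall (0 : ℂ × ℂ) ((A.B i).r / 4),
      1 / m * Real.log ‖GBox.W (A.B i) W p‖ + j / m * Real.log ‖(A.B i).σ p‖ - mm i p ≤ C := by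
  have hpos := (A.B i).pos
  have hK : IsCompact (closedBall (0 : ℂ × ℂ) ((A.B i).r / 4)) := isCompact_closedBall _ _
  have hsub : closedBall (0 : ℂ × ℂ) ((A.B i).r / 4) ⊆ ball 0 (A.B i).r := closedBall_subset_ball (by linarith)
  obtain ⟨C₁, h1⟩ := hK.exists_bound_of_continuousOn ((asd_W_cont (A.B i) hW).mono hsub)
  obtain ⟨C₃, h3⟩ := hK.exists_bound_of_continuousOn ((A.B i).σ_an.continuousOn.mono (hsub.trans ball_subset_closedBall))
  obtain ⟨C₄, h4⟩ := hK.exists_bound_of_continuousOn ((hm.smooth i).continuousOn.mono hsub)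
  have h0 : (0 : ℂ × ℂ) ∈ closedBall (0 : ℂ × ℂ) ((A.B i).r / 4) := mem_closedBall_self (by linarith)
  have hC₁ : 0 ≤ C₁ := (norm_nonneg _).trans (h1 0 h0)
  have hC₃ : 0 ≤ C₃ := (norm_nonneg _).trans (h3 0 h0)
  have hC₄ : 0 ≤ C₄ := (norm_nonneg _).trans (h4 0 h0)
  have l1 : 0 ≤ Real.log (1 + C₁) := Real.log_nonneg (by linarith)
  have l3 : 0 ≤ Real.log (1 + C₃) := Real.log_nonneg (by linarith)
  refine ⟨1 / m * Real.log (1 + C₁) + j / m * Real.log (1 + C₃) + C₄, by positivity, fun p hp => ?_⟩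
  have e1 := mul_le_mul_of_nonneg_left (asd_log_le (norm_nonneg _) (h1 p hp)) (show (0 : ℝ) ≤ 1 / m by positivity)
  have e3 := mul_le_mul_of_nonneg_left (asd_log_le (norm_nonneg _) (h3 p hp)) (show (0 : ℝ) ≤ j / m by positivity)
  have e4 := h4 p hp
  rw [Real.norm_eq_abs, abs_le] at e4
  linarith [e4.1]

/-- the upper bound -/
theorem E_upX {A : Atlas P FF} {D : CData A} {mm : A.ι → ℂ × ℂ → ℝ} (hm : Gauge A D mm) {m j : ℕ} {W : EN M → EN M → EN M → ℂ}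
    (hW : IsForm (coneE P) m j W) {F : ℂ → EN M} (hF : Crv P FF F)
    (Q : MvPolynomial (Fin (M + 1)) ℂ) (d n : ℕ) {C : ℝ} {l Ph : ℂ → ℝ}
    (h : ∀ i, ∀ z ∈ (A.B i).Om F, ContDiffAt ℝ 2 Ph z → (A.B i).zt F z ≠ 0 → D.g i ((A.B i).cc F z) ≠ 0 →
        Real.log ‖(A.B i).zt F z‖ + Real.log ‖D.g i ((A.B i).cc F z)‖ + Ph z ≤ C + Real.log (1 + l z)) :
    ∃ C' : ℝ, 0 ≤ C' ∧ ∀ z, ContDiffAt ℝ 2 Ph z → (A.B (idx A hF z)).zt F z ≠ 0 → D.g (idx A hF z) ((A.B (idx A hF z)).cc F z) ≠ 0 →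
      Eg A D mm m j W Q d 0 n hF z + Ph z ≤ C' + Real.log (1 + l z) := by
  choose C₁ hC₁ h1 using fun i => p2_coeff hm hW i
  refine ⟨|C| + ∑ i, C₁ i, add_nonneg (abs_nonneg _) (Finset.sum_nonneg fun i _ => hC₁ i), fun z h2 h3 h4 => ?_⟩
  set i := idx A hF z with hi
  have hz : z ∈ (A.B i).Om F := idx_Om A hF z
  have hp : (A.B i).cc F z ∈ closedBall (0 : ℂ × ℂ) ((A.B i).r / 4) := by
    obtain ⟨p, hp, c, hc, hx⟩ := idx_mem A hF z
    have hpos := (A.B i).pos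
    have : (A.B i).cc F z = p := by
      unfold GBox.cc
      rw [hx]
      exact crd_smul _ (ball_subset_ball (by linarith) hp) hc
    rw [this]
    exact ball_subset_closedBall hp
  have e1 := h i z hz h2 h3 h4
  have e2 := h1 i _ hp
  have e3 : C₁ i ≤ ∑ i, C₁ i := Finset.single_le_sum (f := C₁) (fun i _ => hC₁ i) (Finset.mem_univ i)
  have e4 : Eg A D mm m j W Q d 0 n hF z = Real.log ‖(A.B i).zt F z‖ + Real.log ‖D.g i ((A.B i).cc F z)‖ +
      (1 / m * Real.log ‖GBox.W (A.B i) W ((A.B i).cc F z)‖ + j / m * Real.log ‖(A.B i).σ ((A.B i).cc F z)‖ - mm i ((A.B i).cc F z)) := by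
    unfold Eg EB EE
    rw [← hi, Nat.cast_zero, zero_div, zero_mul]
    ring
  rw [e4]
  linarith [le_abs_self C]

end Pool.Agent.MQ2
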