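import Pool.Agent.MQ2.Pack2B
import Pool.Agent.MQ2.Pack2C
import Pool.Agent.MQ2.Pack2D
import Pool.Agent.MQ2.Pack2A

/-!
# MQ2 Pack2: the pack of a curve from the packages of the boxes (arbitrary isolated singular points)
-/

set_option autoImplicit false

open Topology Filter Metric MvPolynomial Asymptotics MeasureTheory Laplacian

noncomputable section

namespace Pool.Agent.MQ2

open Pool.Agent.H36.BP (EN fs)
open Pool.Agent.H17BP (IsChart IsForm)
open Pool.Agent.H17EF (projVar coneE)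
open Pool.Agent.H30M (tau avg rhoR LogSing continuous_rhoR hcs_rhoR rhoR_nonneg int_rhoR)
open Pool.Agent.MQ

variable {M : ℕ} {P : Ideal (MvPolynomial (Fin (M + 1)) ℂ)} {FF : Set (EN M × EN M)}

theorem p2_ae_of_near {p : ℂ → Prop} (h : ∀ z, ∀ᶠ w in 𝓝[≠] z, p w) : ∀ᵐ z : ℂ, p z := by
  have h1 : {z | p z} ∈ codiscreteWithin (Set.univ : Set ℂ) := by
    rw [mem_codiscreteWithin]
    intro z _
    rw [disjoint_principal_right]
    filter_upwards [h z] with w hw
    simp only [Set.mem_compl_iff, Set.mem_sdiff, Set.mem_univ, true_and, not_not, Set.mem_ofPred_eq]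
    exact hw
  have h2 := ae_restrict_le_codiscreteWithin (μ := (volume : Measure ℂ)) MeasurableSet.univ h1
  rw [Measure.restrict_univ] at h2
  exact h2

/-- near `z` the chosen boxes contain `z` -/
theorem p2_idx_near (A : Atlas P FF) {F : ℂ → EN M} (hF : Crv P FF F) (z : ℂ) : ∀ᶠ w in 𝓝 z, z ∈ (A.B (idx A hF w)).Om F := by
  have h1 : ∀ i : A.ι, ∀ᶠ w in 𝓝 z, idx A hF w = i → z ∈ (A.B i).Om F := by
    intro i
    by_cases hz : z ∈ (A.B i).Om F
    · exact Eventually.of_forall fun w _ => hz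
    · have hpos := (A.B i).pos
      have hcl := isClosed_cc (A.B i) hF.diff hF.mem (s := (A.B i).r / 4) (by linarith)
      filter_upwards [hcl.isOpen_compl.mem_nhds fun h => hz h.1] with w hw hi
      exfalso
      refine hw ?_
      obtain ⟨p, hp, c, hc, hx⟩ := idx_mem A hF w
      rw [hi] at hp hx
      refine ⟨⟨p, ball_subset_ball (by linarith) hp, c, hc, hx⟩, ?_⟩
      have : (A.B i).cc F w = p := by
        unfold GBox.cc
        rw [hx]
        exact crd_smul _ (ball_subset_ball (by linarith) hp) hc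
      rw [this]
      exact ball_subset_closedBall hp
  have h2 : ∀ᶠ w in 𝓝 z, ∀ i : A.ι, idx A hF w = i → z ∈ (A.B i).Om F := eventually_all.2 h1
  filter_upwards [h2] with w hw
  exact hw _ rfl

theorem pack_of_locX {A : Atlas P FF} {D : CData A} {mm : A.ι → ℂ × ℂ → ℝ} (hm : Gauge A D mm) {m j : ℕ} (hm1 : 1 ≤ m) {W : EN M → EN M → EN M → ℂ}
    (hW : IsForm (coneE P) m j W) {F : ℂ → EN M} (hF : Crv P FF F) (hR : ∃ z, eval (F z).ofLp D.R ≠ 0)
    (hWF : ∃ z w, Pool.Agent.H17BP.Tan (coneE P) (F z) w ∧ W (F z) (deriv F z) w ≠ 0) {s : ℝ} (hs : 0 < s) (hs' : ∀ i, ¬ (A.B i).Reg → s ≤ (A.B i).r / 8)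
    (hsep : ∀ i, ¬ (A.B i).Reg → ∀ j, j ≠ i → ∀ x ∈ (A.B i).U s, x ∉ (A.B j).U (A.B j).r) {δ : ℝ} (hδ : 0 ≤ δ)
    (hL : ∀ i, ¬ (A.B i).Reg → ∃ A' : ℝ, LocX (A.B i).v (D.g i) (fun _ => 1) ((A.B i).Om F) ((A.B i).cc F) (lam F) s A' δ) :
    ∃ l : ℂ → ℝ, Continuous l ∧ (∀ z, 0 ≤ l z) ∧ (∀ z, lam F z ≤ l z) ∧ (∃ B : ℝ, ∀ R, 1 ≤ R → ∫ z, tau R z * l z ^ 2 ≤ B * (En F R + 1)) ∧
      Pack F l (2 * j / m) (Fintype.card A.ι * δ) := by
  obtain ⟨C, l, η, Ph, err, hC, hl, hl0, hlam, ⟨B, hB⟩, hη, hηb, herr, hPh, h5, h6, h7⟩ := exists_etaX hm hF hR hs hs' hsep hδ hL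
  obtain ⟨C', hC', hup⟩ := E_upX hm hW hF (0 : MvPolynomial (Fin (M + 1)) ℂ) 0 1 h7
  obtain ⟨A₀, hA₀⟩ := crv_En hF
  -- generic points
  have hgen : ∀ z, ∀ᶠ w in 𝓝[≠] z, Eg A D mm m j W 0 0 0 1 hF w + Ph w ≤ C' + Real.log (1 + l w) := by
    intro z
    have g1 : ∀ᶠ w in 𝓝[≠] z, ∀ i : A.ι, z ∈ (A.B i).Om F → (A.B i).zt F w ≠ 0 ∧ D.g i ((A.B i).cc F w) ≠ 0 := by
      rw [eventually_all]
      intro i
      by_cases hz : z ∈ (A.B i).Om F
      · filter_upwards [ne_near hm1 hW hF hR hWF hz] with w hw _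
        exact ⟨hw.2.2.2.1, hw.2.2.2.2.2⟩
      · exact Eventually.of_forall fun w h => absurd h hz
    obtain ⟨c, hc⟩ := hPh z
    filter_upwards [g1, (p2_idx_near A hF z).filter_mono nhdsWithin_le_nhds, hc.eventually] with w h1 h2 h3
    exact hup w h3 (h1 _ h2).1 (h1 _ h2).2
  have hA2 : ∀ R, 1 ≤ R → ∫ z, tau R z * l z ^ 2 ≤ (|B| * (|A₀| + 1)) * R ^ 2 := by
    intro R hR1
    have h8 : 0 ≤ En F R := integral_nonneg fun z => mul_nonneg (Pool.Agent.H30M.tau_nonneg hR1 z) (sq_nonneg _)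
    have h9 : En F R ≤ |A₀| * R ^ 2 := (hA₀ R hR1).trans (mul_le_mul_of_nonneg_right (le_abs_self _) (sq_nonneg _))
    have h10 : (1 : ℝ) ≤ R ^ 2 := by nlinarith
    calc _ ≤ B * (En F R + 1) := hB R hR1
      _ ≤ |B| * (En F R + 1) := mul_le_mul_of_nonneg_right (le_abs_self _) (by linarith)
      _ ≤ |B| * ((|A₀| + 1) * R ^ 2) := mul_le_mul_of_nonneg_left (by linarith) (abs_nonneg _)
      _ = _ := by ring
  obtain ⟨C₃, hC₃⟩ := mlog_gen hl hl0 hA2
  refine ⟨l, hl, hl0, hlam, ⟨B, hB⟩, C + |C' * (2 * Real.pi) + C₃|, fun z => Eg A D mm m j W 0 0 0 1 hF z + Ph z, η, err, add_nonneg hC (abs_nonneg _), fun z => ?_, hη,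
    fun z => ?_, herr, fun z hz => E_lapX hm hm1 hW hF hR hWF 0 0 1 hη herr hPh h6 hz, fun R hR1 => ?_, fun R hR1 => ?_⟩
  · obtain ⟨c₁, h1⟩ := Eg_logSing_any hm hm1 hW hF hR hWF (0 : MvPolynomial (Fin (M + 1)) ℂ) 0 1 z
    obtain ⟨c₂, h2⟩ := hPh z
    refine ⟨c₁ + c₂, logSing_nonneg (h1.add h2) (C := C' + Real.log (1 + (l z + 1))) ?_, h1.add h2⟩
    have h3 : ∀ᶠ w in 𝓝[≠] z, l w < l z + 1 := (hl.continuousAt.eventually_lt_const (by linarith)).filter_mono nhdsWithin_le_nhds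
    filter_upwards [hgen z, h3] with w h4 h5'
    exact h4.trans (add_le_add le_rfl (Real.log_le_log (by linarith [hl0 w]) (by linarith)))
  · exact (hηb z).trans (mul_le_mul_of_nonneg_right (by linarith [abs_nonneg (C' * (2 * Real.pi) + C₃)]) (hl0 z))
  · have h8 := h5 R hR1
    have h9 : 0 ≤ ∫ z, ‖gr (tau R) z‖ * l z := integral_nonneg fun z => mul_nonneg (norm_nonneg _) (hl0 z)
    have h10 := abs_nonneg (C' * (2 * Real.pi) + C₃)
    nlinarith
  · have h8 : 0 ≤ En F R := integral_nonneg fun z => mul_nonneg (Pool.Agent.H30M.tau_nonneg hR1 z) (sq_nonneg _)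
    have h9 : 0 ≤ Real.log (1 + En F R) := Real.log_nonneg (by linarith)
    have hc : Continuous fun z => Real.log (1 + l z) := (continuous_const.add hl).log fun z => (by linarith [hl0 z] : (0 : ℝ) < 1 + l z).ne'
    have i1 : Integrable fun z => rhoR R z * C' := (((continuous_rhoR R).mul continuous_const).integrable_of_hasCompactSupport ((hcs_rhoR hR1).mul_right))
    have i2 : Integrable fun z => rhoR R z * Real.log (1 + l z) := ((continuous_rhoR R).mul hc).integrable_of_hasCompactSupport ((hcs_rhoR hR1).mul_right)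
    have i3 : Integrable fun z => rhoR R z * C' + rhoR R z * Real.log (1 + l z) := i1.add i2
    have hle : ∀ᵐ z : ℂ, rhoR R z * (Eg A D mm m j W 0 0 0 1 hF z + Ph z) ≤ rhoR R z * C' + rhoR R z * Real.log (1 + l z) := by
      filter_upwards [p2_ae_of_near hgen] with z hz
      rw [← mul_add]
      exact mul_le_mul_of_nonneg_left hz (rhoR_nonneg R z)
    have hmain : avg R (fun z => Eg A D mm m j W 0 0 0 1 hF z + Ph z) ≤ C' * (2 * Real.pi) + C₃ ∨
        avg R (fun z => Eg A D mm m j W 0 0 0 1 hF z + Ph z) = 0 := by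
      by_cases hi : Integrable fun z => rhoR R z * (Eg A D mm m j W 0 0 0 1 hF z + Ph z)
      · left
        have h11 := integral_mono_ae hi i3 hle
        rw [integral_add i1 i2, integral_mul_const, int_rhoR hR1] at h11
        have h12 := hC₃ R hR1
        unfold avg at h12 ⊢
        linarith
      · right
        unfold avg
        exact integral_undef hi
    have h13 : 0 ≤ Fintype.card A.ι * δ * En F R := by positivity
    have h14 : 0 ≤ (C + |C' * (2 * Real.pi) + C₃|) * Real.log (1 + En F R) := by positivity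
    rcases hmain with h | h
    · linarith [le_abs_self (C' * (2 * Real.pi) + C₃)]
    · rw [h]
      linarith [abs_nonneg (C' * (2 * Real.pi) + C₃)]

end Pool.Agent.MQ2
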