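import Pool.Agent.MQ.Asm
import Pool.Agent.MQ2.DefsG

/-!
# MQ2 Pack2B: `E` has logarithmic singularities
-/

set_option autoImplicit false

open Topology Filter Metric MvPolynomial Asymptotics MeasureTheory Laplacian

noncomputable section

namespace Pool.Agent.MQ2

open Pool.Agent.H36.BP (EN fs)
open Pool.Agent.H17BP (IsChart IsForm)
open Pool.Agent.H17EF (projVar coneE)
open Pool.Agent.H30M (tau avg rhoR LogSing)
open Pool.Agent.MQ

variable {M : ℕ} {P : Ideal (MvPolynomial (Fin (M + 1)) ℂ)} {FF : Set (EN M × EN M)}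

theorem logSing_nonneg {E : ℂ → ℝ} {c : ℝ} {z : ℂ} (h : LogSing E c z) {C : ℝ} (hb : ∀ᶠ w in 𝓝[≠] z, E w ≤ C) : 0 ≤ c := by
  by_contra hc
  push Not at hc
  obtain ⟨u, hu, he⟩ := h
  have h1 : Tendsto (fun w : ℂ => ‖w - z‖) (𝓝[≠] z) (𝓝[>] 0) := by
    refine tendsto_nhdsWithin_iff.2 ⟨?_, ?_⟩
    · have h2 : Continuous fun w : ℂ => ‖w - z‖ := by fun_prop
      have h3 := (h2.tendsto z).mono_left (nhdsWithin_le_nhds (s := {z}ᶜ))
      simpa using h3
    · filter_upwards [self_mem_nhdsWithin] with w hw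
      exact norm_pos_iff.2 (sub_ne_zero.2 hw)
  have h4 : Tendsto (fun w : ℂ => c * Real.log ‖w - z‖) (𝓝[≠] z) atTop :=
    (Real.tendsto_log_nhdsGT_zero.comp h1).const_mul_atBot_of_neg hc
  have h5 : ∀ᶠ w in 𝓝[≠] z, u z - 1 < u w := (hu.continuousAt.eventually_const_lt (by linarith)).filter_mono nhdsWithin_le_nhds
  obtain ⟨w, h6, h7, h8, h9⟩ := (hb.and (he.and (h5.and (h4.eventually_gt_atTop (C - u z + 1))))).exists
  rw [h7] at h6
  linarith

theorem Eg_logSing_any {A : Atlas P FF} {D : CData A} {mm : A.ι → ℂ × ℂ → ℝ} (hm : Gauge A D mm) {m j : ℕ} (hm1 : 1 ≤ m) {W : EN M → EN M → EN M → ℂ}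
    (hW : IsForm (coneE P) m j W) {F : ℂ → EN M} (hF : Crv P FF F) (hR : ∃ z, eval (F z).ofLp D.R ≠ 0)
    (hWF : ∃ z w, Pool.Agent.H17BP.Tan (coneE P) (F z) w ∧ W (F z) (deriv F z) w ≠ 0)
    (Q : MvPolynomial (Fin (M + 1)) ℂ) (d n : ℕ) (z : ℂ) :
    ∃ c, LogSing (Eg A D mm m j W Q d 0 n hF) c z := by
  set i := idx A hF z with hi
  have hz : z ∈ (A.B i).Om F := idx_Om A hF z
  obtain ⟨han, hmem, -⟩ := cc_lift (A.B i) hF.diff hF.mem hz
  have hne := ne_near hm1 hW hF hR hWF hz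
  have l1 : LogSing (fun z => Real.log ‖(A.B i).zt F z‖) ((meromorphicOrderAt ((A.B i).zt F) z).untop₀ : ℤ) z := by
    refine LogSing.log_norm_mero (asd_zt_mero _ hF hz) fun ht => ?_
    rw [meromorphicOrderAt_eq_top_iff] at ht
    obtain ⟨w, hw1, hw2⟩ := (ht.and hne).exists
    exact hw2.2.2.2.1 hw1
  have l2 : LogSing (fun z => Real.log ‖GBox.W (A.B i) W ((A.B i).cc F z)‖) _ z :=
    LogSing.log_norm (Asm.analyticAt_W_cc (A.B i) hW hF hz) (order_ne_top_of_ne (hne.mono fun w hw => hw.2.2.2.2.1))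
  have l3 : LogSing (fun z => Real.log ‖D.g i ((A.B i).cc F z)‖) _ z :=
    LogSing.log_norm ((D.an i _ (ball_subset_closedBall hmem)).comp han) (order_ne_top_of_ne (hne.mono fun w hw => hw.2.2.2.2.2))
  have l4 : LogSing (fun z => Real.log ‖(A.B i).σ ((A.B i).cc F z)‖) 0 z := LogSing.of_contDiffAt ((A.B i).contDiffAt_log_sigma han hmem)
  have l5 : LogSing (fun z => mm i ((A.B i).cc F z)) 0 z := LogSing.of_contDiffAt ((A.B i).contDiffAt_mm han hmem (hm.smooth i))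
  refine ⟨_, (l1.add ((((l2.const_mul (1 / m)).add l3).add (l4.const_mul (j / m))).sub l5)).congr ?_⟩
  filter_upwards [Eg_eq hm hm1 hW hF hR hWF Q d 0 n hz] with w hw
  rw [hw]
  unfold EB EE
  rw [Nat.cast_zero, zero_div, zero_mul, add_zero]

end Pool.Agent.MQ2
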