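import Pool.Agent.MQ2.Defs

/-!
# MQ2 RegE: the field at regular points

`g` is a reduced equation of a curve which is invariant under `v`: `dg (v) = c g`.  Along a curve `p' = ζ' v (p)` this is `(g ∘ p)' = ζ' c g (p)`; so `g (p z) ≠ 0`
where `v (p z) ≠ 0`, if `g ∘ p` is not `0`, and `DD = (div v - c) ζ'`.
-/

set_option autoImplicit false

open Topology Filter Metric MeasureTheory Asymptotics Laplacian

noncomputable section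

namespace Pool.Agent.MQ2

open Pool.Agent.H36.BP (EN)
open Pool.Agent.H30M (tau LogSing)
open Pool.Agent.MQ

namespace RegE

/-- `y' = h y` and `y z = 0` give `y = 0` near `z` -/
theorem eventually_zero_of_ode {y h : ℂ → ℂ} {z : ℂ} (hy : AnalyticAt ℂ y z) (hh : AnalyticAt ℂ h z)
    (hd : ∀ᶠ w in 𝓝 z, deriv y w = h w * y w) (h0 : y z = 0) : ∀ᶠ w in 𝓝 z, y w = 0 := by
  have h1 := hy.analyticOrderAt_deriv_add_one
  have h2 : (fun w => y w - y z) = y := by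
    funext w
    rw [h0, sub_zero]
  rw [h2, analyticOrderAt_congr (f := deriv y) (g := fun w => h w * y w) hd] at h1
  have h3 : analyticOrderAt (fun w => h w * y w) z = analyticOrderAt h z + analyticOrderAt y z := analyticOrderAt_mul hh hy
  rw [h3] at h1
  rw [← analyticOrderAt_eq_top]
  by_contra h4
  obtain ⟨n, hn⟩ := ENat.ne_top_iff_exists.1 h4
  rw [← hn] at h1
  have h5 : ((n : ℕ∞)) + 1 ≤ n := by
    calc ((n : ℕ∞)) + 1 ≤ analyticOrderAt h z + n + 1 := by gcongr; exact le_add_self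
      _ = n := h1
  have h6 : ((n + 1 : ℕ) : ℕ∞) ≤ (n : ℕ) := by exact_mod_cast h5
  have h7 : n + 1 ≤ n := by exact_mod_cast h6
  omega

/-- what holds on a small closed polydisc -/
structure Reg (v : ℂ × ℂ → ℂ × ℂ) (g c : ℂ × ℂ → ℂ) (r : ℝ) : Prop where
  van : ∀ q ∈ closedBall (0 : ℂ × ℂ) r, AnalyticAt ℂ v q
  gan : ∀ q ∈ closedBall (0 : ℂ × ℂ) r, AnalyticAt ℂ g q
  can : ∀ q ∈ closedBall (0 : ℂ × ℂ) r, AnalyticAt ℂ c q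
  iso : ∀ q ∈ closedBall (0 : ℂ × ℂ) r, q ≠ 0 → v q ≠ 0
  cof : ∀ q ∈ closedBall (0 : ℂ × ℂ) r, fderiv ℂ g q (v q) = c q * g q

theorem exists_reg {v : ℂ × ℂ → ℂ × ℂ} {g : ℂ × ℂ → ℂ} (hv : AnalyticAt ℂ v 0) (hiso : ∀ᶠ p in 𝓝 (0 : ℂ × ℂ), p ≠ 0 → v p ≠ 0) (hg : Wt v g) :
    ∃ c : ℂ × ℂ → ℂ, ∀ᶠ r in 𝓝[>] (0 : ℝ), Reg v g c r := by
  obtain ⟨c, hc, hcof⟩ := hg.cof
  refine ⟨c, ?_⟩
  have h1 : ∀ᶠ q in 𝓝 (0 : ℂ × ℂ), AnalyticAt ℂ v q ∧ AnalyticAt ℂ g q ∧ AnalyticAt ℂ c q ∧ (q ≠ 0 → v q ≠ 0) ∧ fderiv ℂ g q (v q) = c q * g q := by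
    filter_upwards [hv.eventually_analyticAt, hg.an.eventually_analyticAt, hc.eventually_analyticAt, hiso, hcof] with q a1 a2 a3 a4 a5
    exact ⟨a1, a2, a3, a4, a5⟩
  obtain ⟨ε, hε, hε'⟩ := Metric.eventually_nhds_iff_ball.1 h1
  filter_upwards [Ioo_mem_nhdsGT hε] with r hr
  have h2 : ∀ q ∈ closedBall (0 : ℂ × ℂ) r, q ∈ ball (0 : ℂ × ℂ) ε := fun q hq => closedBall_subset_ball hr.2 hq
  exact ⟨fun q hq => (hε' q (h2 q hq)).1, fun q hq => (hε' q (h2 q hq)).2.1, fun q hq => (hε' q (h2 q hq)).2.2.1,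
    fun q hq => (hε' q (h2 q hq)).2.2.2.1, fun q hq => (hε' q (h2 q hq)).2.2.2.2⟩

variable {v : ℂ × ℂ → ℂ × ℂ} {g c : ℂ × ℂ → ℂ} {r : ℝ} {Om : Set ℂ} {p : ℂ → ℂ × ℂ}

/-- `p' = ζ' v (p)` -/
theorem deriv_eq (hp : Crv1 v r Om p) {z : ℂ} (hz : z ∈ Om) (hv : v (p z) ≠ 0) : deriv p z = ztv v p z • v (p z) :=
  Prod.ext (by rw [Prod.smul_fst, smul_eq_mul]; exact hp.deriv_fst hz hv) (by rw [Prod.smul_snd, smul_eq_mul]; exact hp.deriv_snd hz hv)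

theorem ev_v_ne (h : Reg v g c r) (hp : Crv1 v r Om p) {z : ℂ} (hz : z ∈ Om) (hv : v (p z) ≠ 0) : ∀ᶠ w in 𝓝 z, w ∈ Om ∧ v (p w) ≠ 0 := by
  have h1 : ContinuousAt (fun w => v (p w)) z :=
    ContinuousAt.comp (f := p) (g := v) (h.van _ (ball_subset_closedBall (hp.mem z hz))).continuousAt (hp.an z hz).continuousAt
  exact (hp.isOpen.eventually_mem hz).and (h1.eventually_ne hv)

theorem deriv_g (h : Reg v g c r) (hp : Crv1 v r Om p) {z : ℂ} (hz : z ∈ Om) (hv : v (p z) ≠ 0) :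
    deriv (fun w => g (p w)) z = ztv v p z * c (p z) * g (p z) := by
  have hb := ball_subset_closedBall (hp.mem z hz)
  have h1 : HasDerivAt (fun w => g (p w)) (fderiv ℂ g (p z) (deriv p z)) z :=
    (h.gan _ hb).differentiableAt.hasFDerivAt.comp_hasDerivAt z (hp.an z hz).differentiableAt.hasDerivAt
  rw [h1.deriv, deriv_eq hp hz hv, map_smul, h.cof _ hb, smul_eq_mul, mul_assoc]

theorem g_ne (h : Reg v g c r) (hp : Crv1 v r Om p) (hf : ∀ z ∈ Om, ∃ᶠ w in 𝓝 z, g (p w) ≠ 0) {z : ℂ} (hz : z ∈ Om) (hv : v (p z) ≠ 0) :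
    g (p z) ≠ 0 := by
  intro h0
  have hb := ball_subset_closedBall (hp.mem z hz)
  have hga : AnalyticAt ℂ (fun w => g (p w)) z := (h.gan _ hb).comp (hp.an z hz)
  have hca : AnalyticAt ℂ (fun w => c (p w)) z := (h.can _ hb).comp (hp.an z hz)
  have hzt := hp.an_ztv hz (h.van _ hb) hv
  have h1 : ∀ᶠ w in 𝓝 z, g (p w) = 0 := by
    refine eventually_zero_of_ode hga (hzt.mul hca) ?_ h0
    filter_upwards [ev_v_ne h hp hz hv] with w hw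
    exact deriv_g h hp hw.1 hw.2
  obtain ⟨w, hw1, hw2⟩ := ((hf z hz).and_eventually h1).exists
  exact hw1 hw2

theorem DD_eq (h : Reg v g c r) (hp : Crv1 v r Om p) (hf : ∀ z ∈ Om, ∃ᶠ w in 𝓝 z, g (p w) ≠ 0) {z : ℂ} (hz : z ∈ Om) (hv : v (p z) ≠ 0) :
    DDv v g p z = (dvg v (p z) - c (p z)) * ztv v p z := by
  rw [DDv, deriv_g h hp hz hv, mul_div_assoc, div_self (g_ne h hp hf hz hv)]
  ring

theorem dvg_an (h : Reg v g c r) {q : ℂ × ℂ} (hq : q ∈ closedBall (0 : ℂ × ℂ) r) : AnalyticAt ℂ (fun q => dvg v q - c q) q := by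
  have h1 : AnalyticAt ℂ (fderiv ℂ v) q := (h.van q hq).fderiv
  have h2 : AnalyticAt ℂ (fun q => (fderiv ℂ v q (1, 0)).1) q := analyticAt_fst.comp (((ContinuousLinearMap.apply ℂ (ℂ × ℂ) ((1, 0) : ℂ × ℂ)).analyticAt _).comp h1)
  have h3 : AnalyticAt ℂ (fun q => (fderiv ℂ v q (0, 1)).2) q := analyticAt_snd.comp (((ContinuousLinearMap.apply ℂ (ℂ × ℂ) ((0, 1) : ℂ × ℂ)).analyticAt _).comp h1)
  exact (h2.add h3).sub (h.can q hq)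

end RegE

open RegE in
/-- the field in the form `(div v - c) ζ'`, analytic where `v ≠ 0` -/
theorem DD_cof {v : ℂ × ℂ → ℂ × ℂ} {g : ℂ × ℂ → ℂ} (hv : AnalyticAt ℂ v 0) (hiso : ∀ᶠ p in 𝓝 (0 : ℂ × ℂ), p ≠ 0 → v p ≠ 0) (hg : Wt v g) :
    ∀ᶠ r in 𝓝[>] (0 : ℝ), ∃ h : ℂ × ℂ → ℂ, AnalyticOnNhd ℂ h (closedBall 0 r) ∧ ∀ (Om : Set ℂ) (p : ℂ → ℂ × ℂ), Crv1 v r Om p →
      (∀ z ∈ Om, ∃ᶠ w in 𝓝 z, g (p w) ≠ 0) → ∀ z ∈ Om, v (p z) ≠ 0 → g (p z) ≠ 0 ∧ AnalyticAt ℂ (ztv v p) z ∧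
        ∀ᶠ w in 𝓝 z, DDv v g p w = h (p w) * ztv v p w := by
  obtain ⟨c, hc⟩ := exists_reg hv hiso hg
  filter_upwards [hc] with r h
  refine ⟨fun q => dvg v q - c q, fun q hq => dvg_an h hq, fun Om p hp hf z hz hvz => ⟨g_ne h hp hf hz hvz,
    hp.an_ztv hz (h.van _ (ball_subset_closedBall (hp.mem z hz))) hvz, ?_⟩⟩
  filter_upwards [ev_v_ne h hp hz hvz] with w hw
  exact DD_eq h hp hf hw.1 hw.2

open RegE in
/-- off the center everything is bounded -/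
theorem DD_bound {v : ℂ × ℂ → ℂ × ℂ} {g : ℂ × ℂ → ℂ} (hv : AnalyticAt ℂ v 0) (hiso : ∀ᶠ p in 𝓝 (0 : ℂ × ℂ), p ≠ 0 → v p ≠ 0) (hg : Wt v g) :
    ∀ᶠ r in 𝓝[>] (0 : ℝ), ∀ s, 0 < s ∨ v 0 ≠ 0 → ∃ C : ℝ, 0 < C ∧ ∀ (Om : Set ℂ) (p : ℂ → ℂ × ℂ), Crv1 v r Om p →
      (∀ z ∈ Om, ∃ᶠ w in 𝓝 z, g (p w) ≠ 0) → ∀ z ∈ Om, p z ∉ ball (0 : ℂ × ℂ) s → ‖ztv v p z‖ ≤ C * ‖deriv p z‖ ∧ ‖DDv v g p z‖ ≤ C * ‖deriv p z‖ := by
  obtain ⟨c, hc⟩ := exists_reg hv hiso hg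
  filter_upwards [hc] with r h s hs
  have hcp : IsCompact (closedBall (0 : ℂ × ℂ) r ∩ (ball (0 : ℂ × ℂ) s)ᶜ) := (isCompact_closedBall _ _).inter_right isOpen_ball.isClosed_compl
  have hv0 : ∀ q ∈ closedBall (0 : ℂ × ℂ) r ∩ (ball (0 : ℂ × ℂ) s)ᶜ, v q ≠ 0 := by
    intro q hq
    by_cases hq0 : q = 0
    · rcases hs with hs | hs
      · rw [hq0] at hq
        exact absurd (mem_ball_self hs) hq.2
      · rw [hq0]
        exact hs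
    · exact h.iso q hq.1 hq0
  obtain ⟨C₁, hC₁⟩ : ∃ C₁ : ℝ, ∀ q ∈ closedBall (0 : ℂ × ℂ) r ∩ (ball (0 : ℂ × ℂ) s)ᶜ, ‖dvg v q - c q‖ ≤ C₁ :=
    hcp.exists_bound_of_continuousOn fun q hq => (dvg_an h hq.1).continuousAt.continuousWithinAt
  obtain ⟨m, hm0, hm⟩ : ∃ m : ℝ, 0 < m ∧ ∀ q ∈ closedBall (0 : ℂ × ℂ) r ∩ (ball (0 : ℂ × ℂ) s)ᶜ, m ≤ ‖v q‖ := by
    rcases (closedBall (0 : ℂ × ℂ) r ∩ (ball (0 : ℂ × ℂ) s)ᶜ).eq_empty_or_nonempty with he | hne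
    · refine ⟨1, one_pos, fun q hq => ?_⟩
      rw [he] at hq
      exact hq.elim
    · obtain ⟨q, hq, hmin⟩ := hcp.exists_isMinOn hne (f := fun q => ‖v q‖) (fun q hq => (h.van q hq.1).continuousAt.norm.continuousWithinAt)
      exact ⟨‖v q‖, norm_pos_iff.2 (hv0 q hq), fun q hq => hmin hq⟩
  refine ⟨(|C₁| + 1) / m, by positivity, fun Om p hp hf z hz hpz => ?_⟩
  have hS : p z ∈ closedBall (0 : ℂ × ℂ) r ∩ (ball (0 : ℂ × ℂ) s)ᶜ := ⟨ball_subset_closedBall (hp.mem z hz), hpz⟩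
  have h1 : ‖ztv v p z‖ ≤ ‖deriv p z‖ / m := by
    rw [le_div_iff₀ hm0, deriv_eq hp hz (hv0 _ hS), norm_smul]
    exact mul_le_mul_of_nonneg_left (hm _ hS) (norm_nonneg _)
  have h2 : ‖dvg v (p z) - c (p z)‖ ≤ |C₁| + 1 := (hC₁ _ hS).trans ((le_abs_self _).trans (by linarith))
  constructor
  · calc ‖ztv v p z‖ ≤ ‖deriv p z‖ / m := h1
      _ = 1 / m * ‖deriv p z‖ := by ring
      _ ≤ (|C₁| + 1) / m * ‖deriv p z‖ := by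
        gcongr
        linarith [abs_nonneg C₁]
  · rw [DD_eq h hp hf hz (hv0 _ hS), norm_mul]
    calc ‖dvg v (p z) - c (p z)‖ * ‖ztv v p z‖ ≤ (|C₁| + 1) * (‖deriv p z‖ / m) := mul_le_mul h2 h1 (norm_nonneg _) (by positivity)
      _ = (|C₁| + 1) / m * ‖deriv p z‖ := by ring

end Pool.Agent.MQ2
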