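import Pool.Agent.MQ2.Defs
import Pool.Agent.MQ2.AlgConv

/-!
# MQ2 SepF: the formal weak separatrix of a saddle-node, and the axis
-/

set_option autoImplicit false

open Topology Filter Metric Asymptotics

noncomputable section

namespace Pool.Agent.MQ2

open Pool.Agent.MQ (jet)

namespace SepF

theorem nc_aux {f : ℂ → ℂ} : ¬ (fun t : ℂ => (t, f t)) =O[𝓝 0] fun t : ℂ => t ^ (1 + 1) := by
  intro h
  obtain ⟨C, hC⟩ := h.bound
  have h1 : ∀ᶠ t in 𝓝[≠] (0 : ℂ), (1 : ℝ) ≤ C * ‖t‖ := by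
    filter_upwards [hC.filter_mono nhdsWithin_le_nhds, self_mem_nhdsWithin] with t h2 h3
    have h4 : 0 < ‖t‖ := norm_pos_iff.2 h3
    have h5 : ‖t‖ ≤ C * ‖t ^ (1 + 1)‖ := (norm_fst_le (t, f t)).trans h2
    have h6 : ‖t‖ * 1 ≤ ‖t‖ * (C * ‖t‖) := by
      rw [norm_pow] at h5
      linarith [h5, show C * ‖t‖ ^ (1 + 1) = ‖t‖ * (C * ‖t‖) by ring]
    exact le_of_mul_le_mul_left h6 h4
  have h2 : Tendsto (fun t : ℂ => C * ‖t‖) (𝓝[≠] 0) (𝓝 0) := by
    have h3 : Continuous fun t : ℂ => C * ‖t‖ := by fun_prop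
    have h5 := h3.tendsto 0
    simp only [norm_zero, mul_zero] at h5
    exact h5.mono_left nhdsWithin_le_nhds
  have h4 : (1 : ℝ) ≤ 0 := ge_of_tendsto h2 h1
  linarith

theorem isBigO_zero_fst {f : ℂ → ℂ} {n : ℕ} (h : f =O[𝓝 0] fun t : ℂ => t ^ n) : (fun t => ((0 : ℂ), f t)) =O[𝓝 0] fun t : ℂ => t ^ n := by
  obtain ⟨C, hC⟩ := h.bound
  refine IsBigO.of_bound C (hC.mono fun t ht => ?_)
  have h1 : ‖((0 : ℂ), f t)‖ = ‖f t‖ := by
    rw [Prod.norm_def, norm_zero]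
    exact max_eq_right (norm_nonneg _)
  rw [h1]
  exact ht

end SepF

open SepF AC

set_option linter.unusedVariables false in
theorem sep_formal {k : ℕ} (hk : 1 ≤ k) {a b : ℂ × ℂ → ℂ} (ha : AnalyticAt ℂ a 0) (hb : AnalyticAt ℂ b 0) (hb0 : b 0 = 0)
    (hb1 : fderiv ℂ b 0 (0, 1) ≠ 0) {c : ℕ → ℂ} (hc : c 0 = 0)
    (hJ : ∀ J, (fun t => b (t, jet c J t) - deriv (jet c J) t * (t ^ (k + 1) * a (t, jet c J t))) =O[𝓝 0] fun t : ℂ => t ^ (J + 1)) :
    Sep (fun p => (p.1 ^ (k + 1) * a p, b p)) fun N t => (t, jet c N t) := by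
  have hd : ∀ N t, deriv (fun t : ℂ => (t, jet c N t)) t = (1, deriv (jet c N) t) := fun N t =>
    ((hasDerivAt_id t).prodMk (analytic_jet c N t).differentiableAt.hasDerivAt).deriv
  refine ⟨fun N => analyticAt_id.prod (analytic_jet c N 0), fun N => ?_, fun N => ?_, fun N => ?_, ⟨1, nc_aux⟩, fun R hR hne hz => ?_⟩
  · show ((0 : ℂ), jet c N 0) = 0
    rw [jet_zero hc]
    rfl
  · have h1 : (fun t : ℂ => (t, jet c (N + 1) t) - (t, jet c N t)) = fun t => ((0 : ℂ), c (N + 1) * t ^ (N + 1)) := by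
      funext t
      rw [Prod.mk_sub_mk, sub_self]
      have h2 : jet c (N + 1) t - jet c N t = c (N + 1) * t ^ (N + 1) := by
        unfold jet
        rw [Finset.sum_range_succ _ (N + 1)]
        ring
      rw [h2]
    show (fun t : ℂ => (t, jet c (N + 1) t) - (t, jet c N t)) =O[𝓝 0] fun t : ℂ => t ^ (N + 1)
    rw [h1]
    exact isBigO_zero_fst ((isBigO_refl _ _).const_mul_left _)
  · have h1 : (fun t : ℂ => t ^ (N + 1)) =O[𝓝 0] fun t : ℂ => t ^ N := by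
      have h2 : (fun t : ℂ => t) =O[𝓝 0] fun _ : ℂ => (1 : ℂ) := continuousAt_id.isBigO_one ℂ
      have h3 : (fun t : ℂ => t ^ (N + 1)) = fun t => t ^ N * t := by funext t; ring
      rw [h3]
      simpa using (isBigO_refl (fun t : ℂ => t ^ N) (𝓝 0)).mul h2
    refine ((hJ N).neg_left.trans h1).congr_left fun t => ?_
    show -(b (t, jet c N t) - deriv (jet c N) t * (t ^ (k + 1) * a (t, jet c N t))) =
      (t ^ (k + 1) * a (t, jet c N t)) * (deriv (fun t : ℂ => (t, jet c N t)) t).2 - b (t, jet c N t) * (deriv (fun t : ℂ => (t, jet c N t)) t).1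
    rw [hd]
    ring
  · obtain ⟨s, hs, -, h1, -⟩ := conv_of_alg hR (fun h => hne (h.mono fun p hp => not_not.2 hp)) hc hz
    refine ⟨fun t => (t, s t), analyticAt_id.prod hs, fun N => ?_⟩
    have h2 : (fun t : ℂ => (t, s t) - (t, jet c N t)) = fun t => ((0 : ℂ), s t - jet c N t) := by
      funext t
      rw [Prod.mk_sub_mk, sub_self]
    show (fun t : ℂ => (t, s t) - (t, jet c N t)) =O[𝓝 0] fun t : ℂ => t ^ (N + 1)
    rw [h2]
    exact isBigO_zero_fst (h1 N)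

theorem sep_axis {a b : ℂ × ℂ → ℂ} : Sep (fun p => (p.1 * a p, p.2 * b p)) fun _ t => (t, 0) := by
  have hd : ∀ t, deriv (fun t : ℂ => (t, (0 : ℂ))) t = (1, 0) := fun t => ((hasDerivAt_id t).prodMk (hasDerivAt_const t (0 : ℂ))).deriv
  refine ⟨fun N => analyticAt_id.prod analyticAt_const, fun N => rfl, fun N => ?_, fun N => ?_, ⟨1, nc_aux (f := fun _ => 0)⟩, fun R hR hne hz => ?_⟩
  · have h1 : (fun t : ℂ => (t, (0 : ℂ)) - (t, 0)) = fun _ => 0 := by
      funext t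
      rw [sub_self]
    show (fun t : ℂ => (t, (0 : ℂ)) - (t, 0)) =O[𝓝 0] fun t : ℂ => t ^ (N + 1)
    rw [h1]
    exact isBigO_zero _ _
  · refine (isBigO_zero _ _).congr_left fun t => ?_
    show (0 : ℂ) = (t * a (t, 0)) * (deriv (fun t : ℂ => (t, (0 : ℂ))) t).2 - (0 * b (t, 0)) * (deriv (fun t : ℂ => (t, (0 : ℂ))) t).1
    rw [hd]
    ring
  · refine ⟨fun t => (t, 0), analyticAt_id.prod analyticAt_const, fun N => ?_⟩
    have h1 : (fun t : ℂ => (t, (0 : ℂ)) - (t, 0)) = fun _ => 0 := by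
      funext t
      rw [sub_self]
    show (fun t : ℂ => (t, (0 : ℂ)) - (t, 0)) =O[𝓝 0] fun t : ℂ => t ^ (N + 1)
    rw [h1]
    exact isBigO_zero _ _

end Pool.Agent.MQ2
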