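import Pool.Agent.MQ2.SlopeD

/-!
# MQ2 SlopeC: the slope of a curve
-/

set_option autoImplicit false

open Topology Filter Metric MeasureTheory Asymptotics

noncomputable section

namespace Pool.Agent.MQ2

open Pool.Agent.MQ

/-- an analytic function which is frequently nonzero near `z` is eventually nonzero in the punctured neighbourhood -/
theorem ne_of_frequently {f : ℂ → ℂ} {z : ℂ} (hf : AnalyticAt ℂ f z) (h : ∃ᶠ w in 𝓝 z, f w ≠ 0) : ∀ᶠ w in 𝓝[≠] z, f w ≠ 0 := by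
  rcases hf.eventually_eq_zero_or_eventually_ne_zero with h1 | h1
  · exact absurd (h1.mono fun w hw h2 => h2 hw) h
  · exact h1

/-- two analytic functions which agree in a punctured neighbourhood -/
theorem eq_of_mul {g f₁ f₂ : ℂ → ℂ} {z : ℂ} (hg : AnalyticAt ℂ g z) (h : ∃ᶠ w in 𝓝 z, g w ≠ 0) (h₁ : AnalyticAt ℂ f₁ z) (h₂ : AnalyticAt ℂ f₂ z)
    (he : ∀ᶠ w in 𝓝 z, g w * f₁ w = g w * f₂ w) : ∀ᶠ w in 𝓝 z, f₁ w = f₂ w := by
  have h1 : ∀ᶠ w in 𝓝[≠] z, f₁ w = f₂ w := by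
    filter_upwards [ne_of_frequently hg h, he.filter_mono nhdsWithin_le_nhds] with w h2 h3
    exact mul_left_cancel₀ h2 h3
  exact (h₁.frequently_eq_iff_eventually_eq h₂).1 h1.frequently

/-- near a point with a slope `f` the slope is `f` -/
theorem slope_eq {p : ℂ → ℂ × ℂ} {z : ℂ} (hp : AnalyticAt ℂ p z) (h1 : ∃ᶠ w in 𝓝 z, (p w).1 ≠ 0) {f : ℂ → ℂ} (hf : AnalyticAt ℂ f z)
    (h2 : ∀ᶠ w in 𝓝 z, (p w).2 = (p w).1 * f w) : ∀ᶠ w in 𝓝 z, HasSlope p w ∧ slope p w = f w := by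
  have h3 : ∀ᶠ w in 𝓝 z, ∃ᶠ u in 𝓝 w, (p u).1 ≠ 0 := by
    have h4 := ne_of_frequently (an_fst hp) h1
    rw [eventually_nhdsWithin_iff] at h4
    filter_upwards [h4.eventually_nhds] with w h5
    intro h6
    have h7 : ∀ᶠ u in 𝓝[≠] w, u ∉ ({z} : Set ℂ)ᶜ := by
      filter_upwards [(h5.and h6).filter_mono nhdsWithin_le_nhds] with u h8 h9
      exact h8.2 (h8.1 h9)
    have h8 : ∀ᶠ u in 𝓝[≠] w, u = z := h7.mono fun u hu => by simpa using hu
    by_cases hwz : w = z
    · subst hwz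
      have h9 : ∀ᶠ u in 𝓝[≠] w, False := by
        filter_upwards [h8, self_mem_nhdsWithin] with u h10 h11
        exact h11 h10
      exact h9.exists.choose_spec
    · have h9 : ∀ᶠ u in 𝓝[≠] w, u ≠ z := (eventually_ne_nhds hwz).filter_mono nhdsWithin_le_nhds
      have h10 : ∀ᶠ u in 𝓝[≠] w, False := (h8.and h9).mono fun u hu => hu.2 hu.1
      exact h10.exists.choose_spec
  filter_upwards [h3, hf.eventually_analyticAt, h2.eventually_nhds, hp.eventually_analyticAt] with w h4 h5 h6 h7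
  have h8 : HasSlope p w := ⟨h4, f, h5, h6⟩
  refine ⟨h8, ?_⟩
  classical
  have h9 : slope p w = h8.2.choose w := by
    unfold slope
    rw [dif_pos h8]
  rw [h9]
  obtain ⟨h10, h11⟩ := h8.2.choose_spec
  refine (eq_of_mul (an_fst h7) h4 h10 h5 ?_).self_of_nhds
  filter_upwards [h6, h11] with u h12 h13
  rw [← h12, ← h13]

theorem HasSlope.exists {p : ℂ → ℂ × ℂ} {z : ℂ} (hp : AnalyticAt ℂ p z) (h : HasSlope p z) :
    ∃ f : ℂ → ℂ, AnalyticAt ℂ f z ∧ (∀ᶠ w in 𝓝 z, (p w).2 = (p w).1 * f w) ∧ ∀ᶠ w in 𝓝 z, HasSlope p w ∧ slope p w = f w := by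
  obtain ⟨h1, f, h2, h3⟩ := h
  exact ⟨f, h2, h3, slope_eq hp h1 h2 h3⟩

/-- the slope is analytic -/
theorem HasSlope.an {p : ℂ → ℂ × ℂ} {z : ℂ} (hp : AnalyticAt ℂ p z) (h : HasSlope p z) : AnalyticAt ℂ (slope p) z := by
  obtain ⟨f, h1, -, h3⟩ := h.exists hp
  exact h1.congr (h3.mono fun w hw => hw.2.symm)

theorem HasSlope.ev {p : ℂ → ℂ × ℂ} {z : ℂ} (hp : AnalyticAt ℂ p z) (h : HasSlope p z) : ∀ᶠ w in 𝓝 z, HasSlope p w := by
  obtain ⟨f, -, -, h3⟩ := h.exists hp
  exact h3.mono fun w hw => hw.1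

theorem HasSlope.eq {p : ℂ → ℂ × ℂ} {z : ℂ} (hp : AnalyticAt ℂ p z) (h : HasSlope p z) : ∀ᶠ w in 𝓝 z, (p w).2 = (p w).1 * slope p w := by
  obtain ⟨f, -, h2, h3⟩ := h.exists hp
  filter_upwards [h2, h3] with w h4 h5
  rw [h4, h5.2]

theorem be_pt {Om : Set ℂ} {p : ℂ → ℂ × ℂ} {t : ℂ} {ρ : ℝ} {z : ℂ} (hz : z ∈ Omt Om p t ρ) (hp : AnalyticAt ℂ p z) : be t (pt t p z) = p z := by
  have h1 := (hz.2.1.eq hp).self_of_nhds
  unfold be pt
  refine Prod.ext rfl ?_
  show (p z).1 * (slope p z - t + t) = (p z).2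
  rw [sub_add_cancel, h1]

/-- every point is in the chart `x` with a slope `≤ K` or in the chart `y` with a slope `≤ 1 / K` -/
theorem slope_cover {p : ℂ → ℂ × ℂ} {z : ℂ} (hp : AnalyticAt ℂ p z) (h : ∃ᶠ w in 𝓝 z, p w ≠ 0) {K : ℝ} (hK : 0 < K) :
    (HasSlope p z ∧ ‖slope p z‖ ≤ K) ∨ (HasSlope (fun w => (p w).swap) z ∧ ‖slope (fun w => (p w).swap) z‖ ≤ 1 / K) := by
  have hs : AnalyticAt ℂ (fun w => (p w).swap) z := (an_snd hp).prod (an_fst hp)
  -- if `x ^ n a = x`, `x ^ m b = y` with units `a`, `b` then one divides the other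
  have key : HasSlope p z ∨ HasSlope (fun w => (p w).swap) z := by
    by_cases h1 : ∃ᶠ w in 𝓝 z, (p w).1 ≠ 0
    · by_cases h2 : ∃ᶠ w in 𝓝 z, (p w).2 ≠ 0
      · obtain ⟨n, a, ha, ha0, hna⟩ := (an_fst hp).exists_eventuallyEq_pow_smul_nonzero_iff.2 (fun h3 => h1 (h3.mono fun w hw h4 => h4 hw))
        obtain ⟨m, b, hb, hb0, hmb⟩ := (an_snd hp).exists_eventuallyEq_pow_smul_nonzero_iff.2 (fun h3 => h2 (h3.mono fun w hw h4 => h4 hw))
        rcases le_total n m with hnm | hnm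
        · left
          refine ⟨h1, fun w => (w - z) ^ (m - n) * (b w / a w), ((analyticAt_id.sub analyticAt_const).pow _).mul (hb.div ha ha0), ?_⟩
          filter_upwards [hna, hmb, ha.continuousAt.eventually_ne ha0] with w h3 h4 h5
          rw [h3, h4, smul_eq_mul, smul_eq_mul]
          have h6 : (w - z) ^ m = (w - z) ^ n * (w - z) ^ (m - n) := by rw [← pow_add, Nat.add_sub_cancel' hnm]
          rw [h6]
          field_simp
        · right
          refine ⟨h2, fun w => (w - z) ^ (n - m) * (a w / b w), ((analyticAt_id.sub analyticAt_const).pow _).mul (ha.div hb hb0), ?_⟩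
          filter_upwards [hna, hmb, hb.continuousAt.eventually_ne hb0] with w h3 h4 h5
          show (p w).1 = (p w).2 * _
          rw [h3, h4, smul_eq_mul, smul_eq_mul]
          have h6 : (w - z) ^ n = (w - z) ^ m * (w - z) ^ (n - m) := by rw [← pow_add, Nat.add_sub_cancel' hnm]
          rw [h6]
          field_simp
      · left
        refine ⟨h1, fun _ => 0, analyticAt_const, ?_⟩
        rw [Filter.not_frequently] at h2
        filter_upwards [h2] with w hw
        push Not at hw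
        rw [hw, mul_zero]
    · right
      rw [Filter.not_frequently] at h1
      refine ⟨?_, fun _ => 0, analyticAt_const, ?_⟩
      · refine (h.and_eventually h1).mono fun w hw => ?_
        intro h2
        exact hw.1 (Prod.ext (not_not.1 hw.2) h2)
      · filter_upwards [h1] with w hw
        push Not at hw
        show (p w).1 = _
        rw [hw, mul_zero]
  -- if both are defined then the product of the slopes is `1`
  have key2 : ∀ {q : ℂ → ℂ × ℂ}, AnalyticAt ℂ q z → HasSlope q z → ∀ {c : ℝ}, 0 < c → ¬ ‖slope q z‖ ≤ c →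
      HasSlope (fun w => (q w).swap) z ∧ ‖slope (fun w => (q w).swap) z‖ ≤ 1 / c := by
    intro q hq hsl c hc hne
    obtain ⟨f, h1, h2, h3⟩ := hsl.exists hq
    have h4 : slope q z = f z := h3.self_of_nhds.2
    rw [h4] at hne
    push Not at hne
    have h5 : f z ≠ 0 := fun h6 => by
      rw [h6, norm_zero] at hne
      exact absurd hne (not_lt.2 hc.le)
    have hqs : AnalyticAt ℂ (fun w => (q w).swap) z := (an_snd hq).prod (an_fst hq)
    have h6 : ∃ᶠ w in 𝓝 z, ((fun w => (q w).swap) w).1 ≠ 0 := by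
      refine ((hsl.1.and_eventually h2).and_eventually (h1.continuousAt.eventually_ne h5)).mono fun w hw => ?_
      show (q w).2 ≠ 0
      rw [hw.1.2]
      exact mul_ne_zero hw.1.1 hw.2
    have h7 : ∀ᶠ w in 𝓝 z, ((fun w => (q w).swap) w).2 = ((fun w => (q w).swap) w).1 * (f w)⁻¹ := by
      filter_upwards [h2, h1.continuousAt.eventually_ne h5] with w h8 h9
      show (q w).1 = (q w).2 * (f w)⁻¹
      rw [h8, mul_assoc, mul_inv_cancel₀ h9, mul_one]
    have h8 := (slope_eq hqs h6 (h1.inv h5) h7).self_of_nhds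
    refine ⟨h8.1, ?_⟩
    rw [h8.2, Pi.inv_apply, norm_inv, one_div]
    exact inv_anti₀ hc hne.le
  rcases key with h1 | h1
  · by_cases h2 : ‖slope p z‖ ≤ K
    · exact Or.inl ⟨h1, h2⟩
    · exact Or.inr (key2 hp h1 hK h2)
  · by_cases h2 : ‖slope (fun w => (p w).swap) z‖ ≤ 1 / K
    · exact Or.inr ⟨h1, h2⟩
    · have h3 := key2 hs h1 (one_div_pos.2 hK) h2
      rw [one_div_one_div] at h3
      exact Or.inl h3

end Pool.Agent.MQ2
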