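import Pool.Agent.MQ2.Defs

/-!
# MQ2 SlopeD: the slope of a curve, the part of the curve in a chart of the blow-up
-/

set_option autoImplicit false

open Topology Filter Metric MeasureTheory Asymptotics Laplacian

noncomputable section

namespace Pool.Agent.MQ2

open Pool.Agent.H36.BP (EN)
open Pool.Agent.H30M (tau LogSing)
open Pool.Agent.MQ

/-- the quotient `y / x` is holomorphic at `z` -/
def HasSlope (p : ℂ → ℂ × ℂ) (z : ℂ) : Prop :=
  (∃ᶠ w in 𝓝 z, (p w).1 ≠ 0) ∧ ∃ f : ℂ → ℂ, AnalyticAt ℂ f z ∧ ∀ᶠ w in 𝓝 z, (p w).2 = (p w).1 * f w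

open Classical in
/-- the quotient `y / x` -/
def slope (p : ℂ → ℂ × ℂ) (z : ℂ) : ℂ := if h : HasSlope p z then h.2.choose z else 0

/-- the part of `Om` in the chart at the direction `t` -/
def Omt (Om : Set ℂ) (p : ℂ → ℂ × ℂ) (t : ℂ) (ρ : ℝ) : Set ℂ := {z | z ∈ Om ∧ HasSlope p z ∧ ‖(p z).1‖ < ρ ∧ ‖slope p z - t‖ < ρ}

/-- the curve in the chart -/
def pt (t : ℂ) (p : ℂ → ℂ × ℂ) (z : ℂ) : ℂ × ℂ := ((p z).1, slope p z - t)

end Pool.Agent.MQ2
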