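import Pool.Agent.MQ2.Glue
import Pool.Agent.MQ2.SlopeD

/-!
# MQ2 Step0: the definitions for the blow-up step

`DirP v g J N r Con re B A C₀ O K`: the package of one chart (`O Om p`, with the core `K Om p`) for all curves `p`; `Con n q` is the contact condition for
the form; `ell` is equal to `log |p|` on the ball of radius `re`; `EnB` is the property of the density `l₁` of the blow-up.
-/

set_option autoImplicit false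

open Topology Filter Metric MeasureTheory Asymptotics Laplacian

noncomputable section

namespace Pool.Agent.MQ2

open Pool.Agent.H36.BP (EN)
open Pool.Agent.H30M (tau LogSing)
open Pool.Agent.MQ

/-- the points where the inequality for the logarithms is required -/
def VV (v : ℂ × ℂ → ℂ × ℂ) (g J : ℂ × ℂ → ℂ) (Om : Set ℂ) (p : ℂ → ℂ × ℂ) : Set ℂ := {z | z ∈ Om ∧ ztv v p z ≠ 0 ∧ g (p z) ≠ 0 ∧ J (p z) ≠ 0}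

/-- the sum of the logarithms -/
def LL (v : ℂ × ℂ → ℂ × ℂ) (g J : ℂ × ℂ → ℂ) (p : ℂ → ℂ × ℂ) (z : ℂ) : ℝ :=
  Real.log ‖ztv v p z‖ + Real.log ‖g (p z)‖ + Real.log ‖J (p z)‖

/-- the weight of the transform -/
def gt (ι : ℕ) (g' : ℂ × ℂ → ℂ) (q : ℂ × ℂ) : ℂ := q.1 ^ ι * g' q

/-- the Jacobian factor of the transform -/
def Jt (t : ℂ) (J : ℂ × ℂ → ℂ) (q : ℂ × ℂ) : ℂ := q.1 * J (be t q)

/-- `1/2 log (1 + |slope|²)` -/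
def us (p : ℂ → ℂ × ℂ) (z : ℂ) : ℝ := Real.log (1 + ‖slope p z‖ ^ 2) / 2

/-- the estimate of the slopes by the density `l₁` -/
def EnB (Om : Set ℂ) (p : ℂ → ℂ × ℂ) (s : ℝ) (l₁ : ℂ → ℝ) : Prop :=
  ∀ z ∈ Om, p z ∈ closedBall (0 : ℂ × ℂ) s →
    (∀ h : ℂ → ℂ, AnalyticAt ℂ h z → (∀ᶠ w in 𝓝 z, (p w).2 = (p w).1 * h w) → ‖deriv h z‖ ≤ (1 + ‖h z‖ ^ 2) * l₁ z) ∧
    ∀ h : ℂ → ℂ, AnalyticAt ℂ h z → (∀ᶠ w in 𝓝 z, (p w).1 = (p w).2 * h w) → ‖deriv h z‖ ≤ (1 + ‖h z‖ ^ 2) * l₁ z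

/-- `ell = log |p|` near the center -/
def EllP (Om : Set ℂ) (p : ℂ → ℂ × ℂ) (re : ℝ) (ell : ℂ → ℝ) : Prop :=
  ∀ z ∈ Om, p z ≠ 0 → p z ∈ ball (0 : ℂ × ℂ) re → ell z = Real.log (‖(p z).1‖ ^ 2 + ‖(p z).2‖ ^ 2) / 2

/-- **The package of a chart.** -/
def DirP (v : ℂ × ℂ → ℂ × ℂ) (g J : ℂ × ℂ → ℂ) (N r : ℝ) (Con : ℕ → (ℂ × ℂ → ℂ) → Prop) (re B A C₀ : ℝ) (O K : Set ℂ → (ℂ → ℂ × ℂ) → Set ℂ) : Prop :=
  ∀ (d n : ℕ) (q : ℂ × ℂ → ℂ) (ψ : ℂ × ℂ → ℝ), 1 ≤ d → 1 ≤ n → AnalyticAt ℂ q 0 → ContDiffAt ℝ 1 ψ 0 → Con n q →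
    ∀ (M : ℕ) (F : ℂ → EN M) (Q : ℂ → ℂ) (lm : ℂ → ℝ) (Om : Set ℂ) (p : ℂ → ℂ × ℂ), Dat v g r B d q ψ F Q lm Om p →
      ∀ ell : ℂ → ℝ, EllP Om p re ell → ∀ l₁ : ℂ → ℝ, Continuous l₁ → (∀ z, lm z ≤ l₁ z) → EnB Om p re l₁ →
        ∃ (C : ℝ) (l : ℂ → ℝ) (η D X : ℂ → ℂ) (Φ err u : ℂ → ℝ), 0 ≤ C ∧ Continuous l ∧ (∀ z, l₁ z ≤ l z) ∧
          (∀ R, 1 ≤ R → ∫ z, tau R z * l z ^ 2 ≤ A * (∫ z, tau R z * l₁ z ^ 2) + C) ∧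
          Cht (DDv v g p) ell (LL v g J p) (VV v g J Om p) N l C (O Om p) (K Om p) η D X Φ err u ∧
          ∀ R, 1 ≤ R → ∫ z in O Om p, tau R z * err z ≤ C₀ * d / n * (∫ z, tau R z * l₁ z ^ 2) + C * (∫ z, ‖gr (tau R) z‖ * l z) + C

/-- the core of the chart at `t` -/
def Kt (t : ℂ) (ρ σ : ℝ) (Om : Set ℂ) (p : ℂ → ℂ × ℂ) : Set ℂ := {z | z ∈ Omt Om p t ρ ∧ pt t p z ∈ closedBall (0 : ℂ × ℂ) σ}

end Pool.Agent.MQ2
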