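import Pool.Agent.MQ2.Step0
import Pool.Agent.MQ2.RegE

/-!
# MQ2 StepA: the base chart of the blow-up step: outside a small polydisc
-/

set_option autoImplicit false

open Topology Filter Metric MeasureTheory Asymptotics Laplacian

noncomputable section

namespace Pool.Agent.MQ2

open Pool.Agent.H36.BP (EN)
open Pool.Agent.H30M (tau LogSing)
open Pool.Agent.MQ

/-- the chain rule for the real gradient along a holomorphic curve -/
theorem gr_comp_curve {H : ℂ × ℂ → ℝ} {p : ℂ → ℂ × ℂ} {z : ℂ} (hH : DifferentiableAt ℝ H (p z)) (hp : AnalyticAt ℂ p z) :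
    ‖gr (fun w => H (p w)) z‖ ≤ ‖fderiv ℝ H (p z)‖ * ‖deriv p z‖ := by
  rw [norm_gr]
  have h1 : HasFDerivAt p ((ContinuousLinearMap.toSpanSingleton ℂ (deriv p z)).restrictScalars ℝ) z :=
    hp.differentiableAt.hasDerivAt.hasFDerivAt.restrictScalars ℝ
  have h2 : HasFDerivAt (fun w => H (p w)) ((fderiv ℝ H (p z)).comp ((ContinuousLinearMap.toSpanSingleton ℂ (deriv p z)).restrictScalars ℝ)) z :=
    hH.hasFDerivAt.comp z h1
  rw [h2.fderiv]
  refine (ContinuousLinearMap.opNorm_comp_le _ _).trans (mul_le_mul_of_nonneg_left ?_ (norm_nonneg _))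
  refine ContinuousLinearMap.opNorm_le_bound _ (norm_nonneg _) fun c => ?_
  simp [norm_smul, mul_comm]

/-- The base chart: outside a small polydisc. -/
theorem cht_base {v : ℂ × ℂ → ℂ × ℂ} {g J : ℂ × ℂ → ℂ} (hv : Iso v) (hg : Wt v g) (hJ : AnalyticAt ℂ J 0) :
    ∀ᶠ r in 𝓝[>] (0 : ℝ), ∀ (ρb : ℝ), 0 < ρb → ∀ H : ℂ × ℂ → ℝ, ContDiffOn ℝ 2 H {p | p ≠ 0} → ∀ (N B : ℝ), 0 ≤ B → ∃ C : ℝ, 0 ≤ C ∧
      ∀ (Om : Set ℂ) (p : ℂ → ℂ × ℂ) (l₁ : ℂ → ℝ), Crv1 v r Om p → (∀ z ∈ Om, ∃ᶠ w in 𝓝 z, g (p w) ≠ 0) → (∀ z, 0 ≤ l₁ z) →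
        (∀ z ∈ Om, ‖deriv p z‖ ≤ B * l₁ z) →
        Cht (DDv v g p) (fun z => H (p z)) (LL v g J p) (VV v g J Om p) N l₁ C {z | z ∈ Om ∧ p z ∉ closedBall (0 : ℂ × ℂ) ρb} ∅
          (fun z => (starRingEnd ℂ) (DDv v g p z)) (DDv v g p) (fun _ => 1) (fun _ => 0) (fun _ => 0) fun z => H (p z) := by
  obtain ⟨c, hc⟩ := RegE.exists_reg hv.1 hv.2.2 hg
  have hJe : ∀ᶠ r in 𝓝[>] (0 : ℝ), ∀ q ∈ closedBall (0 : ℂ × ℂ) r, AnalyticAt ℂ J q := by
    obtain ⟨e, he, h1⟩ := Metric.eventually_nhds_iff_ball.1 hJ.eventually_analyticAt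
    filter_upwards [mem_nhdsWithin_of_mem_nhds (gt_mem_nhds he)] with r hr q hq
    exact h1 q (closedBall_subset_ball hr hq)
  filter_upwards [hc, DD_cof hv.1 hv.2.2 hg, DD_bound hv.1 hv.2.2 hg, hJe] with r a1 a2 a3 a4
  intro ρb hρb H hH N B hB
  obtain ⟨h, hh, a2⟩ := a2
  obtain ⟨C₁, hC₁, a3⟩ := a3 ρb (Or.inl hρb)
  -- compact sets
  have hop : IsOpen {q : ℂ × ℂ | q ≠ 0} := isOpen_ne
  have hKs : closedBall (0 : ℂ × ℂ) r \ ball 0 ρb ⊆ {q : ℂ × ℂ | q ≠ 0} := fun q hq h0 => hq.2 (by rw [h0]; exact mem_ball_self hρb)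
  have hK : IsCompact (closedBall (0 : ℂ × ℂ) r \ ball 0 ρb) := (isCompact_closedBall _ _).diff isOpen_ball
  have hHc : ContinuousOn H (closedBall (0 : ℂ × ℂ) r \ ball 0 ρb) := hH.continuousOn.mono hKs
  have hHd : ContinuousOn (fderiv ℝ H) (closedBall (0 : ℂ × ℂ) r \ ball 0 ρb) := (hH.continuousOn_fderiv_of_isOpen hop (by norm_num)).mono hKs
  obtain ⟨C₂, hC₂⟩ := hK.exists_bound_of_continuousOn hHc
  obtain ⟨C₃, hC₃⟩ := hK.exists_bound_of_continuousOn hHd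
  obtain ⟨C₄, hC₄⟩ := (isCompact_closedBall (0 : ℂ × ℂ) r).exists_bound_of_continuousOn (f := g) fun q hq => (a1.gan q hq).continuousAt.continuousWithinAt
  obtain ⟨C₅, hC₅⟩ := (isCompact_closedBall (0 : ℂ × ℂ) r).exists_bound_of_continuousOn (f := J) fun q hq => (a4 q hq).continuousAt.continuousWithinAt
  set M : ℝ := C₁ * B * |C₄| * |C₅| + 1 with hM
  have hM1 : 1 ≤ M := by
    have : 0 ≤ C₁ * B * |C₄| * |C₅| := by positivity
    linarith
  have hlM : 0 ≤ Real.log M := Real.log_nonneg hM1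
  refine ⟨C₁ * B + |N| * |C₂| + |C₃| * B + Real.log M, by positivity, fun Om p l₁ hC hgne hl0 hp => ?_⟩
  set C : ℝ := C₁ * B + |N| * |C₂| + |C₃| * B + Real.log M with hCdef
  have hC0 : 0 ≤ C := by positivity
  have hC1 : C₁ * B ≤ C := by
    have h1 : 0 ≤ |N| * |C₂| := by positivity
    have h2 : 0 ≤ |C₃| * B := by positivity
    linarith
  have hC2 : |N| * |C₂| ≤ C := by
    have h1 : 0 ≤ C₁ * B := by positivity
    have h2 : 0 ≤ |C₃| * B := by positivity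
    linarith
  have hC3 : |C₃| * B ≤ C := by
    have h1 : 0 ≤ |N| * |C₂| := by positivity
    have h2 : 0 ≤ C₁ * B := by positivity
    linarith
  have hC4 : Real.log M ≤ C := by
    have h1 : 0 ≤ |N| * |C₂| := by positivity
    have h2 : 0 ≤ C₁ * B := by positivity
    have h3 : 0 ≤ |C₃| * B := by positivity
    linarith
  have hmem : ∀ z ∈ Om, p z ∈ closedBall (0 : ℂ × ℂ) r := fun z hz => ball_subset_closedBall (hC.mem z hz)
  have hnb : ∀ z, p z ∉ closedBall (0 : ℂ × ℂ) ρb → p z ∉ ball (0 : ℂ × ℂ) ρb := fun z hz h1 => hz (ball_subset_closedBall h1)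
  have hp0 : ∀ z, p z ∉ closedBall (0 : ℂ × ℂ) ρb → p z ≠ 0 := fun z hz h1 => hz (by rw [h1]; exact mem_closedBall_self hρb.le)
  have hvz : ∀ z ∈ Om, p z ∉ closedBall (0 : ℂ × ℂ) ρb → v (p z) ≠ 0 := fun z hz hz' => a1.iso _ (hmem z hz) (hp0 z hz')
  have hK' : ∀ z ∈ Om, p z ∉ closedBall (0 : ℂ × ℂ) ρb → p z ∈ closedBall (0 : ℂ × ℂ) r \ ball 0 ρb := fun z hz hz' => ⟨hmem z hz, hnb z hz'⟩
  have hDan : ∀ z ∈ Om, p z ∉ closedBall (0 : ℂ × ℂ) ρb → AnalyticAt ℂ (DDv v g p) z := fun z hz hz' => by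
    obtain ⟨-, b2, b3⟩ := a2 Om p hC hgne z hz (hvz z hz hz')
    have b4 : AnalyticAt ℂ (fun w => h (p w) * ztv v p w) z := ((hh _ (hmem z hz)).comp (hC.an z hz)).mul b2
    exact b4.congr (b3.mono fun w hw => hw.symm)
  have hHat : ∀ z ∈ Om, p z ∉ closedBall (0 : ℂ × ℂ) ρb → ContDiffAt ℝ 2 H (p z) := fun z hz hz' =>
    hH.contDiffAt (hop.mem_nhds (hp0 z hz'))
  refine
    { op := ?_
      cl := isClosed_empty
      η_cd := fun z hz => contDiffAt_conj_holo (hDan z hz.1 hz.2)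
      err_c := fun z hz => continuousAt_const
      Φ_ls := fun z hz => ⟨_, LogSing.of_contDiffAt contDiffAt_const⟩
      out := fun z hz _ => ⟨rfl, rfl, rfl⟩
      bd := fun z hz => ?_
      ineq := fun z hz _ => ?_
      X_an := fun z hz => analyticAt_const
      X_ne := fun z hz => Eventually.frequently (Eventually.of_forall fun _ => one_ne_zero)
      X_V := fun z hz _ => one_ne_zero
      D_eq := fun z hz _ => ?_
      ell_eq := fun z hz _ => ?_
      u_cd := fun z hz => ?_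
      u_gr := fun z hz => ?_
      u_bd := fun z hz => ?_
      up := fun z hz hV _ => ?_ }
  · rw [isOpen_iff_mem_nhds]
    intro z hz
    filter_upwards [hC.isOpen.mem_nhds hz.1, (hC.an z hz.1).continuousAt.eventually (isClosed_closedBall.isOpen_compl.mem_nhds hz.2)] with w h1 h2
    exact ⟨h1, h2⟩
  · rw [RCLike.norm_conj]
    have h1 := (a3 Om p hC hgne z hz.1 (hnb z hz.2)).2
    have h2 : C₁ * ‖deriv p z‖ ≤ C₁ * (B * l₁ z) := mul_le_mul_of_nonneg_left (hp z hz.1) hC₁.le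
    have h3 := mul_le_mul_of_nonneg_right hC1 (hl0 z)
    linarith
  · rw [dv_conj (hDan z hz.1 hz.2).differentiableAt]
    have h1 : Δ (fun _ : ℂ => (0 : ℝ)) z = 0 := by
      rw [← lp_eq_lap contDiffAt_const]
      have h2 : gr (fun _ : ℂ => (0 : ℝ)) = fun _ => 0 := by
        funext w
        exact gr_const 0 w
      unfold Pool.Agent.MQ.lp
      rw [h2]
      simp [dv]
    rw [h1]
    norm_num
  · simp
  · simp
  · exact (hHat z hz.1 hz.2).comp z ((hC.an z hz.1).contDiffAt.restrict_scalars ℝ)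
  · refine (gr_comp_curve ((hHat z hz.1 hz.2).differentiableAt (by norm_num)) (hC.an z hz.1)).trans ?_
    have h1 := hC₃ _ (hK' z hz.1 hz.2)
    have h2 : ‖fderiv ℝ H (p z)‖ ≤ |C₃| := h1.trans (le_abs_self _)
    calc ‖fderiv ℝ H (p z)‖ * ‖deriv p z‖ ≤ |C₃| * (B * l₁ z) := mul_le_mul h2 (hp z hz.1) (norm_nonneg _) (abs_nonneg _)
      _ = |C₃| * B * l₁ z := by ring
      _ ≤ C * l₁ z := mul_le_mul_of_nonneg_right hC3 (hl0 z)
  · have h1 := hC₂ _ (hK' z hz.1 hz.2)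
    rw [Real.norm_eq_abs] at h1
    calc N * H (p z) ≤ |N * H (p z)| := le_abs_self _
      _ = |N| * |H (p z)| := abs_mul _ _
      _ ≤ |N| * |C₂| := mul_le_mul_of_nonneg_left (h1.trans (le_abs_self _)) (abs_nonneg _)
      _ ≤ C := hC2
  · obtain ⟨-, b1, b2, b3⟩ := hV
    have h1 := (a3 Om p hC hgne z hz.1 (hnb z hz.2)).1
    have h2 : ‖ztv v p z‖ ≤ C₁ * B * l₁ z := by
      have h2 : C₁ * ‖deriv p z‖ ≤ C₁ * (B * l₁ z) := mul_le_mul_of_nonneg_left (hp z hz.1) hC₁.le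
      linarith
    have h3 : ‖g (p z)‖ ≤ |C₄| := (hC₄ _ (hmem z hz.1)).trans (le_abs_self _)
    have h4 : ‖J (p z)‖ ≤ |C₅| := (hC₅ _ (hmem z hz.1)).trans (le_abs_self _)
    have n1 : 0 < ‖ztv v p z‖ := norm_pos_iff.2 b1
    have n2 : 0 < ‖g (p z)‖ := norm_pos_iff.2 b2
    have n3 : 0 < ‖J (p z)‖ := norm_pos_iff.2 b3
    have hl := hl0 z
    have h5 : ‖ztv v p z‖ * ‖g (p z)‖ * ‖J (p z)‖ ≤ M * (1 + l₁ z) := by
      have hCB : 0 ≤ C₁ * B * l₁ z := by positivity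
      calc ‖ztv v p z‖ * ‖g (p z)‖ * ‖J (p z)‖ ≤ C₁ * B * l₁ z * |C₄| * |C₅| := by
            refine mul_le_mul (mul_le_mul h2 h3 (norm_nonneg _) hCB) h4 (norm_nonneg _) (by positivity)
        _ = (C₁ * B * |C₄| * |C₅|) * l₁ z := by ring
        _ ≤ M * (1 + l₁ z) := by
            have h6 : (C₁ * B * |C₄| * |C₅|) ≤ M := by linarith
            exact mul_le_mul h6 (by linarith) hl (by linarith)
    have h6 : Real.log (‖ztv v p z‖ * ‖g (p z)‖ * ‖J (p z)‖) ≤ Real.log M + Real.log (1 + l₁ z) := by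
      rw [← Real.log_mul (by linarith) (by linarith)]
      exact Real.log_le_log (by positivity) h5
    rw [Real.log_mul (by positivity) (by positivity), Real.log_mul (by positivity) (by positivity)] at h6
    unfold LL
    rw [norm_one, Real.log_one]
    linarith

end Pool.Agent.MQ2
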