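import Pool.Agent.MQ2.Slope
import Pool.Agent.MQ2.DDrel
import Pool.Agent.MQ2.Ell
import Pool.Agent.MQ2.Energy

/-!
# MQ2 StepB: the chart of the blow-up at the direction `t`: the relations between the fields and the exact terms
-/

set_option autoImplicit false

open Topology Filter Metric MeasureTheory Asymptotics Laplacian

noncomputable section

namespace Pool.Agent.MQ2

open Pool.Agent.H36.BP (EN)
open Pool.Agent.H30M (tau LogSing)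
open Pool.Agent.MQ

/-- `1/2 log (1 + |y + t|²)` -/
def uu (t : ℂ) (q : ℂ × ℂ) : ℝ := Real.log (1 + ‖q.2 + t‖ ^ 2) / 2

theorem uu_eq (t : ℂ) (q : ℂ × ℂ) : uu t q = Real.log ‖embL (1, q.2 + t)‖ := by
  have h : ‖embL (1, q.2 + t)‖ ^ 2 = 1 + ‖q.2 + t‖ ^ 2 := by
    rw [norm_embL_sq]
    simp
  unfold uu
  rw [← h, Real.log_pow]
  push_cast
  ring

theorem uu_nonneg (t : ℂ) (q : ℂ × ℂ) : 0 ≤ uu t q := by
  unfold uu
  have : 0 ≤ Real.log (1 + ‖q.2 + t‖ ^ 2) := Real.log_nonneg (by nlinarith [sq_nonneg ‖q.2 + t‖])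
  linarith

theorem uu_le {t : ℂ} {q : ℂ × ℂ} {K : ℝ} (h : ‖q.2 + t‖ ≤ K) : uu t q ≤ Real.log (1 + K) := by
  unfold uu
  have hK := (norm_nonneg _).trans h
  have h1 : 1 + ‖q.2 + t‖ ^ 2 ≤ (1 + K) ^ 2 := by nlinarith [norm_nonneg (q.2 + t)]
  have h2 := Real.log_le_log (by positivity) h1
  rw [Real.log_pow] at h2
  push_cast at h2
  linarith

section

variable {Om : Set ℂ} {p : ℂ → ℂ × ℂ} {t : ℂ} {ρ : ℝ} {z : ℂ}

theorem exists_slope (hp : AnalyticAt ℂ p z) (h : HasSlope p z) : ∃ f : ℂ → ℂ, AnalyticAt ℂ f z ∧ (∀ᶠ w in 𝓝 z, (p w).2 = (p w).1 * f w) ∧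
    ∀ᶠ w in 𝓝 z, HasSlope p w ∧ slope p w = f w := by
  obtain ⟨h1, f, hf, h2⟩ := h
  exact ⟨f, hf, h2, slope_eq hp h1 hf h2⟩

theorem an_pt (hp : AnalyticAt ℂ p z) (h : HasSlope p z) : AnalyticAt ℂ (pt t p) z := by
  obtain ⟨f, hf, -, h3⟩ := exists_slope hp h
  have e : pt t p =ᶠ[𝓝 z] fun w => ((p w).1, f w - t) := by
    filter_upwards [h3] with w hw
    simp only [pt, hw.2]
  exact ((an_fst hp).prod (hf.sub analyticAt_const)).congr e.symm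

theorem an_uu (hp : AnalyticAt ℂ p z) (h : HasSlope p z) : AnalyticAt ℂ (fun w => embL (1, (pt t p w).2 + t)) z :=
  an_embL (analyticAt_const.prod ((an_snd (an_pt hp h)).add analyticAt_const))

theorem embL_one_ne (c : ℂ) : embL (1, c) ≠ 0 := embL_ne fun h => one_ne_zero (congrArg Prod.fst h)

theorem contDiffAt_uu {n : WithTop ℕ∞} (hp : AnalyticAt ℂ p z) (h : HasSlope p z) : ContDiffAt ℝ n (fun w => uu t (pt t p w)) z := by
  have e : (fun w => uu t (pt t p w)) = fun w => Real.log ‖embL (1, (pt t p w).2 + t)‖ := funext fun w => uu_eq t _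
  rw [e]
  exact MQ.contDiffAt_log_norm (an_uu hp h) (embL_one_ne _)

/-- (R3) -/
theorem norm_gr_uu_le (hp : AnalyticAt ℂ p z) (h : HasSlope p z) : ‖gr (fun w => uu t (pt t p w)) z‖ ≤ ‖deriv (pt t p) z‖ := by
  have e : (fun w => uu t (pt t p w)) = fun w => Real.log ‖embL (1, (pt t p w).2 + t)‖ := funext fun w => uu_eq t _
  have hpt := an_pt (t := t) hp h
  have h1 : HasDerivAt (fun w => ((1 : ℂ), (pt t p w).2 + t)) (0, (deriv (pt t p) z).2) z := by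
    have h2 : HasDerivAt (fun w => (pt t p w).2) (deriv (pt t p) z).2 z := by
      have := (an_snd hpt).differentiableAt.hasDerivAt
      rwa [deriv_snd' hpt.differentiableAt] at this
    exact (hasDerivAt_const z (1 : ℂ)).prodMk (h2.add_const t)
  have h2 : HasDerivAt (fun w => embL (1, (pt t p w).2 + t)) (embL (0, (deriv (pt t p) z).2)) z := embL.hasFDerivAt.comp_hasDerivAt z h1
  rw [e, gr_log_normV h2 (embL_one_ne _), norm_mul, RCLike.norm_conj, Complex.norm_real, Real.norm_of_nonneg (by positivity)]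
  have h3 := norm_inner_le_norm (𝕜 := ℂ) (embL (1, (pt t p z).2 + t)) (embL (0, (deriv (pt t p) z).2))
  have h4 : 1 ≤ ‖embL (1, (pt t p z).2 + t)‖ := by
    refine le_trans ?_ (le_norm_embL _)
    rw [Prod.norm_def]
    exact (le_of_eq norm_one.symm).trans (le_max_left _ _)
  have h5 : ‖embL (0, (deriv (pt t p) z).2)‖ = ‖(deriv (pt t p) z).2‖ := by
    have h6 : ‖embL (0, (deriv (pt t p) z).2)‖ ^ 2 = ‖(deriv (pt t p) z).2‖ ^ 2 := by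
      rw [norm_embL_sq]
      simp
    exact (sq_eq_sq₀ (norm_nonneg _) (norm_nonneg _)).1 h6
  have h7 : ‖(deriv (pt t p) z).2‖ ≤ ‖deriv (pt t p) z‖ := norm_snd_le _
  rw [inv_mul_le_iff₀ (by positivity)]
  refine h3.trans ?_
  rw [h5]
  have h8 : ‖embL (1, (pt t p z).2 + t)‖ ≤ ‖embL (1, (pt t p z).2 + t)‖ ^ 2 := by nlinarith
  exact mul_le_mul h8 h7 (norm_nonneg _) (sq_nonneg _)

theorem norm_slope_le (hz : z ∈ Omt Om p t ρ) : ‖slope p z‖ ≤ ρ + ‖t‖ := by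
  have h1 := norm_add_le (slope p z - t) t
  rw [sub_add_cancel] at h1
  have := hz.2.2.2
  linarith

/-- (R4) -/
theorem norm_deriv_pt_le {l₁ : ℂ → ℝ} (hp : AnalyticAt ℂ p z) (hz : z ∈ Omt Om p t ρ)
    (hl : ∀ h : ℂ → ℂ, AnalyticAt ℂ h z → (∀ᶠ w in 𝓝 z, (p w).2 = (p w).1 * h w) → ‖deriv h z‖ ≤ (1 + ‖h z‖ ^ 2) * l₁ z) (hl0 : 0 ≤ l₁ z) :
    ‖deriv (pt t p) z‖ ≤ ‖deriv p z‖ + (1 + (ρ + ‖t‖) ^ 2) * l₁ z := by
  obtain ⟨f, hf, h2, h3⟩ := exists_slope hp hz.2.1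
  have e : pt t p =ᶠ[𝓝 z] fun w => ((p w).1, f w - t) := by
    filter_upwards [h3] with w hw
    simp only [pt, hw.2]
  have h4 : deriv (pt t p) z = ((deriv p z).1, deriv f z) := by
    rw [e.deriv_eq]
    have h5 : HasDerivAt (fun w => (p w).1) (deriv p z).1 z := by
      have := (an_fst hp).differentiableAt.hasDerivAt
      rwa [deriv_fst' hp.differentiableAt] at this
    exact (h5.prodMk (hf.differentiableAt.hasDerivAt.sub_const t)).deriv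
  have h5 := hl f hf h2
  have h6 : ‖f z‖ ≤ ρ + ‖t‖ := by
    rw [← h3.self_of_nhds.2]
    exact norm_slope_le hz
  have h7 : ‖f z‖ ^ 2 ≤ (ρ + ‖t‖) ^ 2 := pow_le_pow_left₀ (norm_nonneg _) h6 2
  have h8 : (1 + ‖f z‖ ^ 2) * l₁ z ≤ (1 + (ρ + ‖t‖) ^ 2) * l₁ z := mul_le_mul_of_nonneg_right (by linarith) hl0
  have h9 : 0 ≤ (1 + (ρ + ‖t‖) ^ 2) * l₁ z := by positivity
  rw [h4, Prod.norm_def]
  refine max_le ?_ ?_
  · have := norm_fst_le (deriv p z)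
    dsimp only
    linarith
  · have := norm_nonneg (deriv p z)
    dsimp only
    linarith

/-- the point is in the ball where `H` is the logarithm -/
theorem mem_ball_of_Omt {ρe : ℝ} (hp : AnalyticAt ℂ p z) (hz : z ∈ Omt Om p t ρ) (h1 : ρ ≤ ρe) (h2 : ρ * (ρ + ‖t‖) ≤ ρe) : p z ∈ ball (0 : ℂ × ℂ) ρe := by
  have h3 := be_pt hz hp
  have hx := hz.2.2.1
  have hρ : 0 < ρ := lt_of_le_of_lt (norm_nonneg _) hx
  have h4 : (p z).2 = (p z).1 * slope p z := by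
    have := congrArg Prod.snd h3
    simp only [be, pt, sub_add_cancel] at this
    exact this.symm
  rw [mem_ball_zero_iff, Prod.norm_def]
  refine max_lt (hx.trans_le h1) ?_
  rw [h4, norm_mul]
  have h5 := norm_slope_le hz
  have h6 : 0 < ρ + ‖t‖ := by positivity
  calc ‖(p z).1‖ * ‖slope p z‖ ≤ ‖(p z).1‖ * (ρ + ‖t‖) := mul_le_mul_of_nonneg_left h5 (norm_nonneg _)
    _ < ρ * (ρ + ‖t‖) := mul_lt_mul_of_pos_right hx h6
    _ ≤ ρe := h2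

/-- `Omt` is a neighbourhood of its points -/
theorem Omt_ev (hOm : IsOpen Om) (hp : AnalyticAt ℂ p z) (hz : z ∈ Omt Om p t ρ) : ∀ᶠ w in 𝓝 z, w ∈ Omt Om p t ρ := by
  obtain ⟨f, hf, -, h3⟩ := exists_slope hp hz.2.1
  have h4 : ContinuousAt (fun w => ‖(p w).1‖) z := (an_fst hp).continuousAt.norm
  have h5 : ContinuousAt (fun w => ‖f w - t‖) z := (hf.continuousAt.sub continuousAt_const).norm
  have h6 : ‖f z - t‖ < ρ := by
    rw [← h3.self_of_nhds.2]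
    exact hz.2.2.2
  filter_upwards [hOm.mem_nhds hz.1, h3, h4.eventually (gt_mem_nhds hz.2.2.1), h5.eventually (gt_mem_nhds h6)] with w w1 w2 w3 w4
  refine ⟨w1, w2.1, w3, ?_⟩
  rw [w2.2]
  exact w4

/-- (R0) -/
theorem H_eq_ev {ρe : ℝ} {H : ℂ × ℂ → ℝ} (hH : ∀ q : ℂ × ℂ, q ≠ 0 → q ∈ ball (0 : ℂ × ℂ) ρe → H q = Real.log (‖q.1‖ ^ 2 + ‖q.2‖ ^ 2) / 2)
    (hp : AnalyticAt ℂ p z) (hOm : IsOpen Om) (hz : z ∈ Omt Om p t ρ) (h1 : ρ ≤ ρe) (h2 : ρ * (ρ + ‖t‖) ≤ ρe) (hx : (p z).1 ≠ 0) :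
    ∀ᶠ w in 𝓝 z, H (p w) = Real.log ‖(p w).1‖ + uu t (pt t p w) := by
  filter_upwards [Omt_ev hOm hp hz, hp.eventually_analyticAt, (an_fst hp).continuousAt.eventually_ne hx] with w w1 w2 w3
  have h3 := be_pt w1 w2
  have h4 : (p w).2 = (p w).1 * slope p w := by
    have := congrArg Prod.snd h3
    simp only [be, pt, sub_add_cancel] at this
    exact this.symm
  rw [hH (p w) (fun h => w3 (by rw [h]; rfl)) (mem_ball_of_Omt w2 w1 h1 h2), log_p_eq w3 h4]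
  simp only [uu, pt, sub_add_cancel]

/-- (R0) -/
theorem gr_H_eq {ρe : ℝ} {H : ℂ × ℂ → ℝ} (hH : ∀ q : ℂ × ℂ, q ≠ 0 → q ∈ ball (0 : ℂ × ℂ) ρe → H q = Real.log (‖q.1‖ ^ 2 + ‖q.2‖ ^ 2) / 2)
    (hp : AnalyticAt ℂ p z) (hOm : IsOpen Om) (hz : z ∈ Omt Om p t ρ) (h1 : ρ ≤ ρe) (h2 : ρ * (ρ + ‖t‖) ≤ ρe) (hx : (p z).1 ≠ 0) :
    gr (fun w => H (p w)) z = (starRingEnd ℂ) ((deriv p z).1 / (p z).1) + gr (fun w => uu t (pt t p w)) z := by
  rw [gr_congr (H_eq_ev hH hp hOm hz h1 h2 hx), gr_add ((Pool.Agent.H30M.contDiffAt_log_norm (an_fst hp) hx).differentiableAt (by norm_num))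
    ((contDiffAt_uu (n := 1) hp hz.2.1).differentiableAt (by norm_num)), gr_log_norm (an_fst hp).differentiableAt hx, deriv_fst' hp.differentiableAt]

end

/-- **The relations in the chart** (R1), (R2) -/
theorem chart_rel {e ι m : ℕ} {t : ℂ} {v w : ℂ × ℂ → ℂ × ℂ} {g g' J : ℂ × ℂ → ℂ} (hv : AnalyticAt ℂ v 0) (hw : Child e ι t v w) (hg : Wt v g)
    (hg' : AnalyticAt ℂ g' 0) (hm : ∀ᶠ p in 𝓝 (0 : ℂ × ℂ), g (be t p) = p.1 ^ m * g' p) {ρe : ℝ} {H : ℂ × ℂ → ℝ}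
    (hH : ∀ q : ℂ × ℂ, q ≠ 0 → q ∈ ball (0 : ℂ × ℂ) ρe → H q = Real.log (‖q.1‖ ^ 2 + ‖q.2‖ ^ 2) / 2) :
    ∀ᶠ ρ in 𝓝[>] (0 : ℝ), ∀ (r : ℝ) (Om : Set ℂ) (p : ℂ → ℂ × ℂ), Crv1 v r Om p → (∀ z ∈ Om, ∃ᶠ w in 𝓝 z, p w ≠ 0) → ρ < r → ρ * (ρ + ‖t‖) < r →
      ρ ≤ ρe → ρ * (ρ + ‖t‖) ≤ ρe → ∀ z ∈ Omt Om p t ρ, (p z).1 ≠ 0 → v (p z) ≠ 0 → g (p z) ≠ 0 →
        (starRingEnd ℂ) (DDv v g p z) - (((e : ℝ) + 1 + ι - m : ℝ) : ℂ) * gr (fun w => H (p w)) z =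
            (starRingEnd ℂ) (DDv w (fun q => q.1 ^ ι * g' q) (pt t p) z) - (((e : ℝ) + 1 + ι - m : ℝ) : ℂ) * gr (fun w => uu t (pt t p w)) z ∧
          (ztv v p z ≠ 0 → J (p z) ≠ 0 → Real.log ‖ztv v p z‖ + Real.log ‖g (p z)‖ + Real.log ‖J (p z)‖ + ((e : ℝ) + 1 + ι - m) * H (p z) =
            Real.log ‖ztv w (pt t p) z‖ + Real.log ‖(pt t p z).1 ^ ι * g' (pt t p z)‖ + Real.log ‖(pt t p z).1 * J (be t (pt t p z))‖ +
              ((e : ℝ) + 1 + ι - m) * uu t (pt t p z)) := by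
  obtain ⟨ρ₀, hρ₀, hm'⟩ := Metric.eventually_nhds_iff_ball.1 hm
  filter_upwards [crv_child hw, DD_child hv hw hg hg' hm, mem_nhdsWithin_of_mem_nhds (gt_mem_nhds hρ₀)] with ρ a1 a2 a3
  intro r Om p hC hne hρr hρr' hρe hρe' z hz hx hvz hgz
  have hp := hC.an z hz.1
  obtain ⟨b1, b2, b3⟩ := a1 r Om p hC hne hρr hρr'
  obtain ⟨c1, c2⟩ := a2 r Om p hC hne hρr hρr' z hz hx hvz hgz
  obtain ⟨d1, d2⟩ := b3 z hz hx hvz
  refine ⟨?_, fun hzt hJ => ?_⟩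
  · rw [gr_H_eq hH hp hC.isOpen hz hρe hρe' hx, c2, map_add, mul_add]
    have e1 : (starRingEnd ℂ) (((e : ℂ) + 1 + ι - m) * (deriv p z).1 / (p z).1) =
        (((e : ℝ) + 1 + ι - m : ℝ) : ℂ) * (starRingEnd ℂ) ((deriv p z).1 / (p z).1) := by
      rw [mul_div_assoc, map_mul]
      congr 1
      simp
    rw [e1]
    ring
  · have hbe := be_pt hz hp
    have hmem : pt t p z ∈ ball (0 : ℂ × ℂ) ρ₀ := by
      rw [mem_ball_zero_iff, Prod.norm_def]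
      exact (max_lt hz.2.2.1 hz.2.2.2).trans a3
    have hgm := hm' _ hmem
    rw [hbe] at hgm
    have hx0 : ‖(p z).1‖ ≠ 0 := norm_ne_zero_iff.2 hx
    have hg0 : ‖g' (pt t p z)‖ ≠ 0 := norm_ne_zero_iff.2 c1
    have hxp : (pt t p z).1 = (p z).1 := rfl
    rw [(H_eq_ev hH hp hC.isOpen hz hρe hρe' hx).self_of_nhds, d2, hgm, hbe, hxp, norm_mul, norm_mul, norm_mul, norm_mul, norm_pow, norm_pow, norm_pow,
      Real.log_mul (pow_ne_zero _ hx0) hg0, Real.log_mul (pow_ne_zero _ hx0) (norm_ne_zero_iff.2 hzt), Real.log_mul (pow_ne_zero _ hx0) hg0,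
      Real.log_mul hx0 (norm_ne_zero_iff.2 hJ), Real.log_pow, Real.log_pow, Real.log_pow]
    ring

end Pool.Agent.MQ2
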