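import Pool.Agent.MQ2.Step0
import Pool.Agent.MQ2.StepB

/-!
# MQ2 StepR: the relations in the chart at the direction `t`
-/

set_option autoImplicit false

open Topology Filter Metric MeasureTheory Asymptotics Laplacian

noncomputable section

namespace Pool.Agent.MQ2

open Pool.Agent.H36.BP (EN)
open Pool.Agent.H30M (tau LogSing)
open Pool.Agent.MQ

theorem ztv_zero {v : ℂ × ℂ → ℂ × ℂ} {p : ℂ → ℂ × ℂ} {z : ℂ} (h : v (p z) = 0) : ztv v p z = 0 := by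
  unfold ztv
  simp [h]

/-- The relations in the chart at `t`. -/
theorem rel_child {e ι m : ℕ} {t : ℂ} {v w : ℂ × ℂ → ℂ × ℂ} {g g' J : ℂ × ℂ → ℂ} (hv : Iso v) (hw : Child e ι t v w) (hg : Wt v g)
    (hJ : AnalyticAt ℂ J 0) (hg' : AnalyticAt ℂ g' 0) (hm : ∀ᶠ p in 𝓝 (0 : ℂ × ℂ), g (be t p) = p.1 ^ m * g' p) :
    ∀ᶠ ρ in 𝓝[>] (0 : ℝ), ∀ (r : ℝ) (Om : Set ℂ) (p : ℂ → ℂ × ℂ), Crv1 v r Om p → (∀ z ∈ Om, ∃ᶠ w in 𝓝 z, p w ≠ 0) →
      (∀ z ∈ Om, ∃ᶠ w in 𝓝 z, g (p w) ≠ 0) → (∀ z ∈ Om, v (p z) ≠ 0 → g (p z) ≠ 0) → ρ < r → ρ * (ρ + ‖t‖) < r →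
      Crv1 w ρ (Omt Om p t ρ) (pt t p) ∧ ∀ z ∈ Omt Om p t ρ, p z = be t (pt t p z) ∧ (∀ᶠ w' in 𝓝[≠] z, (p w').1 ≠ 0) ∧ AnalyticAt ℂ (slope p) z ∧
        (∀ᶠ w' in 𝓝 z, (p w').2 = (p w').1 * slope p w') ∧
        (∃ᶠ w' in 𝓝 z, pt t p w' ≠ 0) ∧ (∃ᶠ w' in 𝓝 z, gt ι g' (pt t p w') ≠ 0) ∧
        ((p z).1 ≠ 0 → DDv v g p z = DDv w (gt ι g') (pt t p) z + ((e : ℂ) + 1 + ι - m) * (deriv (fun z => (p z).1) z / (p z).1)) ∧
        (z ∈ VV v g J Om p → (p z).1 ≠ 0 ∧ ztv w (pt t p) z ≠ 0 ∧ gt ι g' (pt t p z) ≠ 0 ∧ Jt t J (pt t p z) ≠ 0 ∧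
          LL v g J p z + ((e : ℝ) + 1 + ι - m) * Real.log ‖(p z).1‖ = LL w (gt ι g') (Jt t J) (pt t p) z) := by
  obtain ⟨ρ₀, hρ₀, hm'⟩ := Metric.eventually_nhds_iff_ball.1 hm
  obtain ⟨ρ₁, hρ₁, hiso⟩ := Metric.eventually_nhds_iff_ball.1 (hv.2.2.and hg.an.eventually_analyticAt)
  have hc : Tendsto (fun ρ : ℝ => ρ * (ρ + ‖t‖)) (𝓝[>] 0) (𝓝 0) := by
    have : ContinuousAt (fun ρ : ℝ => ρ * (ρ + ‖t‖)) 0 := by fun_prop
    have h := this.tendsto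
    simp only [zero_mul] at h
    exact h.mono_left nhdsWithin_le_nhds
  filter_upwards [crv_child hw, DD_child hv.1 hw hg hg' hm, mem_nhdsWithin_of_mem_nhds (gt_mem_nhds hρ₀), mem_nhdsWithin_of_mem_nhds (gt_mem_nhds hρ₁),
    hc.eventually (gt_mem_nhds hρ₁)] with ρ a1 a2 a3 a4 a5
  intro r Om p hC hne hgne hgv hρr hρr'
  obtain ⟨b1, b2, b3⟩ := a1 r Om p hC hne hρr hρr'
  refine ⟨b1, fun z hz => ?_⟩
  have hp := hC.an z hz.1
  have hbe := be_pt hz hp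
  have hx0 : ∀ᶠ w' in 𝓝[≠] z, (p w').1 ≠ 0 := by
    rcases (an_fst hp).eventually_eq_zero_or_eventually_ne_zero with h | h
    · exact absurd (h.mono fun _ h' => not_not.2 h') hz.2.1.1
    · exact h
  obtain ⟨f, hf, h2, h3⟩ := exists_slope hp hz.2.1
  have hsl : AnalyticAt ℂ (slope p) z := hf.congr (by filter_upwards [h3] with w' hw' using hw'.2.symm)
  have hball : ∀ w' ∈ Omt Om p t ρ, pt t p w' ∈ ball (0 : ℂ × ℂ) ρ₀ := fun w' hw' => by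
    rw [mem_ball_zero_iff, Prod.norm_def]
    exact (max_lt hw'.2.2.1 hw'.2.2.2).trans a3
  have hgm : ∀ w' ∈ Omt Om p t ρ, g (p w') = (p w').1 ^ m * g' (pt t p w') := fun w' hw' => by
    have h := hm' _ (hball w' hw')
    rwa [be_pt hw' (hC.an w' hw'.1)] at h
  have hp1 : p z ∈ ball (0 : ℂ × ℂ) ρ₁ := mem_ball_of_Omt hp hz a4.le a5.le
  have hgp : AnalyticAt ℂ (fun w' => g (p w')) z := (hiso _ hp1).2.comp hp
  have hg0 : ∀ᶠ w' in 𝓝[≠] z, g (p w') ≠ 0 := by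
    rcases hgp.eventually_eq_zero_or_eventually_ne_zero with h | h
    · exact absurd (h.mono fun _ h' => not_not.2 h') (hgne z hz.1)
    · exact h
  have hgt0 : ∃ᶠ w' in 𝓝 z, gt ι g' (pt t p w') ≠ 0 := by
    have h4 : ∀ᶠ w' in 𝓝[≠] z, gt ι g' (pt t p w') ≠ 0 := by
      filter_upwards [hx0, hg0, (Omt_ev hC.isOpen hp hz).filter_mono nhdsWithin_le_nhds] with w' c1 c2 c3
      rw [hgm w' c3] at c2
      exact mul_ne_zero (pow_ne_zero _ c1) (right_ne_zero_of_mul c2)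
    exact h4.frequently.filter_mono nhdsWithin_le_nhds
  refine ⟨hbe.symm, hx0, hsl, ?_, b2 z hz, hgt0, fun hx => ?_, fun hV => ?_⟩
  · filter_upwards [h2, h3] with w' c1 c2
    rw [c2.2, c1]
  · have hpz : p z ≠ 0 := fun h => hx (by rw [h]; rfl)
    have hvz := (hiso _ hp1).1 hpz
    have h4 := (a2 r Om p hC hne hρr hρr' z hz hx hvz (hgv z hz.1 hvz)).2
    rw [deriv_fst' hp.differentiableAt, h4, mul_div_assoc]
    rfl
  · obtain ⟨-, d1, d2, d3⟩ := hV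
    have hvz : v (p z) ≠ 0 := fun h => d1 (ztv_zero h)
    have hx : (p z).1 ≠ 0 := fun h => by
      apply hvz
      have h4 : p z = 0 := by
        rw [← hbe]
        have h5 : (pt t p z).1 = 0 := h
        simp only [be, h5, zero_mul]
        rfl
      rw [h4]
      exact hv.2.1
    obtain ⟨e1, e2⟩ := b3 z hz hx hvz
    have e3 : g' (pt t p z) ≠ 0 := by
      have h4 := hgm z hz ▸ d2
      exact right_ne_zero_of_mul h4
    have e4 : ztv w (pt t p) z ≠ 0 := by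
      rw [e2]
      exact mul_ne_zero (pow_ne_zero _ hx) d1
    have e5 : gt ι g' (pt t p z) ≠ 0 := mul_ne_zero (pow_ne_zero _ hx) e3
    have hJz : J (be t (pt t p z)) = J (p z) := by rw [hbe]
    have e6 : Jt t J (pt t p z) ≠ 0 := by
      refine mul_ne_zero hx ?_
      rw [hJz]
      exact d3
    refine ⟨hx, e4, e5, e6, ?_⟩
    have hxn : ‖(p z).1‖ ≠ 0 := norm_ne_zero_iff.2 hx
    have hg0 : ‖g' (pt t p z)‖ ≠ 0 := norm_ne_zero_iff.2 e3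
    have hxp : (pt t p z).1 = (p z).1 := rfl
    unfold LL gt Jt
    rw [hJz, e2, hgm z hz, hxp, norm_mul, norm_mul, norm_mul, norm_mul, norm_pow, norm_pow, norm_pow,
      Real.log_mul (pow_ne_zero _ hxn) hg0, Real.log_mul (pow_ne_zero _ hxn) (norm_ne_zero_iff.2 d1), Real.log_mul (pow_ne_zero _ hxn) hg0,
      Real.log_mul hxn (norm_ne_zero_iff.2 d3), Real.log_pow, Real.log_pow, Real.log_pow]
    ring

end Pool.Agent.MQ2
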