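import Pool.Agent.MQ2.Step0
import Pool.Agent.MQ2.StepR

/-!
# MQ2 StepD: the data of the curve in the chart of the blow-up
-/

set_option autoImplicit false

open Topology Filter Metric MeasureTheory Asymptotics Laplacian

noncomputable section

namespace Pool.Agent.MQ2

open Pool.Agent.H36.BP (EN)
open Pool.Agent.H30M (tau LogSing)
open Pool.Agent.MQ

/-- the data of the curve in the chart. -/
theorem dat_child {e ι m : ℕ} {t : ℂ} {v w : ℂ × ℂ → ℂ × ℂ} {g g' J : ℂ × ℂ → ℂ} (hv : Iso v) (hw : Child e ι t v w) (hg : Wt v g)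
    (hJ : AnalyticAt ℂ J 0) (hg' : AnalyticAt ℂ g' 0) (hm : ∀ᶠ p in 𝓝 (0 : ℂ × ℂ), g (be t p) = p.1 ^ m * g' p) :
    ∀ᶠ ρ in 𝓝[>] (0 : ℝ), ∀ (r B re : ℝ), ρ < r → ρ * (ρ + ‖t‖) < r → ρ < re → ρ * (ρ + ‖t‖) < re → 0 ≤ B →
      ∀ (d : ℕ) (q : ℂ × ℂ → ℂ) (ψ : ℂ × ℂ → ℝ) (M : ℕ) (F : ℂ → EN M) (Q : ℂ → ℂ) (lm l₁ : ℂ → ℝ) (Om : Set ℂ) (p : ℂ → ℂ × ℂ),
        Dat v g r B d q ψ F Q lm Om p → (∀ z ∈ Om, v (p z) ≠ 0 → g (p z) ≠ 0) → Continuous l₁ → (∀ z, lm z ≤ l₁ z) → EnB Om p re l₁ →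
        Dat w (gt ι g') ρ (B + (1 + (‖t‖ + ρ) ^ 2)) d (fun x => q (be t x)) (fun x => ψ (be t x)) F Q l₁ (Omt Om p t ρ) (pt t p) := by
  filter_upwards [rel_child hv hw hg hJ hg' hm, self_mem_nhdsWithin] with ρ hρ hρ0
  have hρ0' : 0 < ρ := hρ0
  intro r B re h1 h2 h3 h4 hB d q ψ M F Q lm l₁ Om p hD hgz hl₁ hll hE
  obtain ⟨hcrv, hrel⟩ := hρ r Om p hD.crv hD.p_ne hD.g_ne hgz h1 h2
  refine ⟨hcrv, fun z hz => (hrel z hz).2.2.2.2.1, fun z hz => (hrel z hz).2.2.2.2.2.1, hl₁, fun z => (hD.lm_nonneg z).trans (hll z), ?_,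
    hD.F_diff, hD.F_ne, fun z => (hD.lam_le z).trans (hll z), hD.Q_diff, hD.Q_ne, hD.Q_le, ?_⟩
  · intro z hz
    obtain ⟨hbe, -, hsl, hsl2, -⟩ := hrel z hz
    obtain ⟨hzO, hS, hx, hs⟩ := hz
    have hl₁0 : 0 ≤ l₁ z := (hD.lm_nonneg z).trans (hll z)
    have hpa : AnalyticAt ℂ p z := hD.crv.an z hzO
    have hpz : p z ∈ closedBall (0 : ℂ × ℂ) re := by
      rw [mem_closedBall_zero_iff, hbe, be, Prod.norm_def]
      have hs' : ‖(pt t p z).2‖ < ρ := hs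
      have hx' : ‖(pt t p z).1‖ < ρ := hx
      refine max_le (hx'.le.trans h3.le) ?_
      show ‖(pt t p z).1 * ((pt t p z).2 + t)‖ ≤ re
      rw [norm_mul]
      calc ‖(pt t p z).1‖ * ‖(pt t p z).2 + t‖ ≤ ρ * (ρ + ‖t‖) := by
            gcongr
            exact (norm_add_le _ _).trans (by gcongr)
        _ ≤ re := h4.le
    have h5 : ‖deriv (slope p) z‖ ≤ (1 + ‖slope p z‖ ^ 2) * l₁ z := (hE z hzO hpz).1 (slope p) hsl hsl2
    have h6 : ‖slope p z‖ ≤ ‖t‖ + ρ := by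
      have h7 : slope p z = (slope p z - t) + t := by ring
      rw [h7]
      refine (norm_add_le _ _).trans ?_
      linarith
    have h8 : ‖deriv (slope p) z‖ ≤ (1 + (‖t‖ + ρ) ^ 2) * l₁ z := h5.trans (by gcongr)
    have h9 : HasDerivAt (pt t p) ((deriv p z).1, deriv (slope p) z) z := by
      have h10 : HasDerivAt (fun w => (p w).1) (deriv p z).1 z := by
        have := hpa.differentiableAt.hasDerivAt
        exact (hasFDerivAt_fst (𝕜 := ℂ) (p := p z)).comp_hasDerivAt z this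
      exact h10.prodMk (hsl.differentiableAt.hasDerivAt.sub_const t)
    rw [h9.deriv, Prod.norm_def]
    have h11 : ‖(deriv p z).1‖ ≤ B * lm z := (norm_fst_le _).trans (hD.lm_ge z hzO)
    refine max_le ?_ ?_
    · calc ‖(deriv p z).1‖ ≤ B * lm z := h11
        _ ≤ B * l₁ z := by gcongr; exact hll z
        _ ≤ (B + (1 + (‖t‖ + ρ) ^ 2)) * l₁ z := by nlinarith [sq_nonneg (‖t‖ + ρ)]
    · calc ‖deriv (slope p) z‖ ≤ (1 + (‖t‖ + ρ) ^ 2) * l₁ z := h8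
        _ ≤ (B + (1 + (‖t‖ + ρ) ^ 2)) * l₁ z := by nlinarith
  · obtain ⟨c, hc, hQ⟩ := hD.Q_eq
    refine ⟨c, hc, fun z hz => ?_⟩
    have hbe := (hrel z hz).1
    have h5 := hQ z hz.1
    show ‖Q z‖ * Real.exp (d * ψ (be t (pt t p z))) = c * ‖q (be t (pt t p z))‖ * ‖F z‖ ^ d
    rw [← hbe]
    exact h5

end Pool.Agent.MQ2
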