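import Pool.Agent.MQ2.Step0
import Pool.Agent.MQ2.Swap

/-!
# MQ2 StepW: the package of a chart in exchanged coordinates
-/

set_option autoImplicit false

open Topology Filter Metric MeasureTheory Asymptotics Laplacian

noncomputable section

namespace Pool.Agent.MQ2

open Pool.Agent.H36.BP (EN)
open Pool.Agent.H30M (tau LogSing)
open Pool.Agent.MQ

section

variable {Df Df' : ℂ → ℂ} {ell L L' : ℂ → ℝ} {V V' : Set ℂ} {N : ℝ} {l l' : ℂ → ℝ} {C C' : ℝ} {O K : Set ℂ} {η D X : ℂ → ℂ} {Φ err u : ℂ → ℝ}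

theorem Cht.congr (h : Cht Df ell L V N l C O K η D X Φ err u) (h1 : ∀ z ∈ O, Df' z = Df z) (h2 : ∀ z ∈ O, z ∈ V' → z ∈ V ∧ L' z = L z) :
    Cht Df' ell L' V' N l C O K η D X Φ err u where
  op := h.op
  cl := h.cl
  η_cd := h.η_cd
  err_c := h.err_c
  Φ_ls := h.Φ_ls
  out := h.out
  bd := h.bd
  ineq := h.ineq
  X_an := h.X_an
  X_ne := h.X_ne
  X_V := fun z hz hV => h.X_V z hz (h2 z hz hV).1
  D_eq := fun z hz hX => by rw [h1 z hz, h.D_eq z hz hX]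
  ell_eq := h.ell_eq
  u_cd := h.u_cd
  u_gr := h.u_gr
  u_bd := h.u_bd
  up := fun z hz hV hΦ => by
    rw [(h2 z hz hV).2]
    exact h.up z hz (h2 z hz hV).1 hΦ

theorem Cht.mono (h : Cht Df ell L V N l C O K η D X Φ err u) (hl : ∀ z, l z ≤ l' z) (hl0 : ∀ z, 0 ≤ l z) (hC : C ≤ C') (hC0 : 0 ≤ C) :
    Cht Df ell L V N l' C' O K η D X Φ err u where
  op := h.op
  cl := h.cl
  η_cd := h.η_cd
  err_c := h.err_c
  Φ_ls := h.Φ_ls
  out := h.out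
  bd := fun z hz => (h.bd z hz).trans (mul_le_mul hC (hl z) (hl0 z) (hC0.trans hC))
  ineq := h.ineq
  X_an := h.X_an
  X_ne := h.X_ne
  X_V := h.X_V
  D_eq := h.D_eq
  ell_eq := h.ell_eq
  u_cd := h.u_cd
  u_gr := fun z hz => (h.u_gr z hz).trans (mul_le_mul hC (hl z) (hl0 z) (hC0.trans hC))
  u_bd := fun z hz => (h.u_bd z hz).trans hC
  up := fun z hz hV hΦ => by
    have h1 := h.up z hz hV hΦ
    have h2 : Real.log (1 + l z) ≤ Real.log (1 + l' z) := Real.log_le_log (by linarith [hl0 z]) (by linarith [hl z])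
    linarith

end

private theorem ztv_zero {v : ℂ × ℂ → ℂ × ℂ} {p : ℂ → ℂ × ℂ} {z : ℂ} (h : v (p z) = 0) : ztv v p z = 0 := by
  classical
  unfold ztv
  rw [h]
  simp

theorem ztv_swap' {v : ℂ × ℂ → ℂ × ℂ} {r : ℝ} {Om : Set ℂ} {p : ℂ → ℂ × ℂ} (h : Crv1 v r Om p) {z : ℂ} (hz : z ∈ Om) :
    ztv (swv v) (fun z => (p z).swap) z = ztv v p z := by
  by_cases hv : v (p z) = 0
  · rw [ztv_zero hv, ztv_zero]
    show (v ((p z).swap).swap).swap = 0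
    rw [Prod.swap_swap, hv]
    rfl
  · exact ztv_swap h hz hv

theorem DDv_swap' {v : ℂ × ℂ → ℂ × ℂ} {g : ℂ × ℂ → ℂ} {r : ℝ} {Om : Set ℂ} {p : ℂ → ℂ × ℂ} (h : Crv1 v r Om p) {z : ℂ} (hz : z ∈ Om) :
    DDv (swv v) (fun q => g q.swap) (fun z => (p z).swap) z = DDv v g p z := by
  unfold DDv
  rw [ztv_swap' h hz, dvg_swap]
  simp only [Prod.swap_swap]

theorem Dat.swap {v : ℂ × ℂ → ℂ × ℂ} {g : ℂ × ℂ → ℂ} {r B : ℝ} {d : ℕ} {q : ℂ × ℂ → ℂ} {ψ : ℂ × ℂ → ℝ} {M : ℕ} {F : ℂ → EN M} {Q : ℂ → ℂ} {lm : ℂ → ℝ}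
    {Om : Set ℂ} {p : ℂ → ℂ × ℂ} (h : Dat v g r B d q ψ F Q lm Om p) :
    Dat (swv v) (fun p => g p.swap) r B d (fun p => q p.swap) (fun p => ψ p.swap) F Q lm Om fun z => (p z).swap where
  crv := crv_swap h.crv
  p_ne := fun z hz => (h.p_ne z hz).mono fun w hw h1 => hw (by
    rw [← Prod.swap_swap (p w), h1]
    rfl)
  g_ne := fun z hz => by simpa only [Prod.swap_swap] using h.g_ne z hz
  lm_cont := h.lm_cont
  lm_nonneg := h.lm_nonneg
  lm_ge := fun z hz => by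
    rw [deriv_swap (h.crv.an z hz).differentiableAt, norm_swap']
    exact h.lm_ge z hz
  F_diff := h.F_diff
  F_ne := h.F_ne
  lam_le := h.lam_le
  Q_diff := h.Q_diff
  Q_ne := h.Q_ne
  Q_le := h.Q_le
  Q_eq := by simpa only [Prod.swap_swap] using h.Q_eq

theorem dirP_swap {v : ℂ × ℂ → ℂ × ℂ} {g J : ℂ × ℂ → ℂ} {N r : ℝ} {Con : ℕ → (ℂ × ℂ → ℂ) → Prop} {re B A C₀ : ℝ}
    {O K : Set ℂ → (ℂ → ℂ × ℂ) → Set ℂ} (hO : ∀ Om p, O Om p ⊆ Om)
    (h : DirP (swv v) (fun p => g p.swap) (fun p => J p.swap) N r Con re B A C₀ O K) :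
    DirP v g J N r (fun n q => Con n fun p => q p.swap) re B A C₀ (fun Om p => O Om fun z => (p z).swap) fun Om p => K Om fun z => (p z).swap := by
  intro d n q ψ hd hn hq hψ hCon M F Q lm Om p hDat ell hell l₁ hl₁ hle hEn
  have hq' : AnalyticAt ℂ (fun p : ℂ × ℂ => q p.swap) 0 := AnalyticAt.comp (f := fun q : ℂ × ℂ => q.swap) (g := q) (x := 0) hq (an_swap 0)
  have hψ' : ContDiffAt ℝ 1 (fun p : ℂ × ℂ => ψ p.swap) 0 :=
    ContDiffAt.comp (g := ψ) (f := fun q : ℂ × ℂ => q.swap) 0 hψ (((an_swap 0).contDiffAt (n := 1)).restrict_scalars ℝ)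
  have hell' : EllP Om (fun z => (p z).swap) re ell := by
    intro z hz h0 hb
    have h1 : p z ≠ 0 := fun h2 => h0 (by
      show (p z).swap = 0
      rw [h2]
      rfl)
    have h2 : p z ∈ ball (0 : ℂ × ℂ) re := by
      rw [mem_ball_zero_iff] at hb ⊢
      rwa [norm_swap'] at hb
    rw [hell z hz h1 h2, Prod.fst_swap, Prod.snd_swap, add_comm]
  have hEn' : EnB Om (fun z => (p z).swap) re l₁ := by
    intro z hz hb
    rw [mem_closedBall_zero_iff, norm_swap', ← mem_closedBall_zero_iff] at hb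
    exact ⟨(hEn z hz hb).2, (hEn z hz hb).1⟩
  obtain ⟨C, l, η, D, X, Φ, err, u, h1, h2, h3, h4, h5, h6⟩ := h d n _ _ hd hn hq' hψ' hCon M F Q lm Om _ hDat.swap ell hell' l₁ hl₁ hle hEn'
  refine ⟨C, l, η, D, X, Φ, err, u, h1, h2, h3, h4, h5.congr (fun z hz => (DDv_swap' hDat.crv (hO _ _ hz)).symm) ?_, h6⟩
  intro z hz hV
  obtain ⟨a1, a2, a3, a4⟩ := hV
  have e1 := ztv_swap' hDat.crv a1
  refine ⟨⟨a1, by rw [e1]; exact a2, by simpa only [Prod.swap_swap] using a3, by simpa only [Prod.swap_swap] using a4⟩, ?_⟩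
  unfold LL
  rw [e1]
  simp only [Prod.swap_swap]

end Pool.Agent.MQ2
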