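import Pool.Agent.MQ2.StepS
import Pool.Agent.MQ2.StepW
import Pool.Agent.MQ2.StepA

/-!
# MQ2 StepF: from the charts to `LocX`
-/

set_option autoImplicit false

open Topology Filter Metric MeasureTheory Asymptotics Laplacian

noncomputable section

namespace Pool.Agent.MQ2

open Pool.Agent.H36.BP (EN)
open Pool.Agent.H30M (tau LogSing)
open Pool.Agent.MQ

/-- the conclusion of the package of a chart, for a curve -/
def DirC (v : ℂ × ℂ → ℂ × ℂ) (g J : ℂ × ℂ → ℂ) (N : ℝ) (H : ℂ × ℂ → ℝ) (Om : Set ℂ) (p : ℂ → ℂ × ℂ) (A δ : ℝ) (O K : Set ℂ) (l₁ : ℂ → ℝ) : Prop :=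
  ∃ (C : ℝ) (l : ℂ → ℝ) (η D X : ℂ → ℂ) (Φ err u : ℂ → ℝ), 0 ≤ C ∧ Continuous l ∧ (∀ z, l₁ z ≤ l z) ∧
    (∀ R, 1 ≤ R → ∫ z, tau R z * l z ^ 2 ≤ A * (∫ z, tau R z * l₁ z ^ 2) + C) ∧
    Cht (DDv v g p) (fun z => H (p z)) (LL v g J p) (VV v g J Om p) N l C O K η D X Φ err u ∧
    ∀ R, 1 ≤ R → ∫ z in O, tau R z * err z ≤ δ * (∫ z, tau R z * l₁ z ^ 2) + C * (∫ z, ‖gr (tau R) z‖ * l z) + C

theorem integrable_tau_mul {R : ℝ} (hR : 1 ≤ R) {f : ℂ → ℝ} (hf : Continuous f) : Integrable fun z => tau R z * f z :=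
  ((Pool.Agent.H30M.contDiff_tau R).continuous.mul hf).integrable_of_hasCompactSupport (Pool.Agent.H30M.hcs_tau hR).mul_right

theorem integrable_gr_mul {R : ℝ} (hR : 1 ≤ R) {f : ℂ → ℝ} (hf : Continuous f) : Integrable fun z => ‖gr (tau R) z‖ * f z := by
  have h1 : Continuous (gr (tau R)) := continuous_gr ((Pool.Agent.H30M.contDiff_tau R).of_le (by norm_num))
  exact (h1.norm.mul hf).integrable_of_hasCompactSupport ((hasCompactSupport_gr (Pool.Agent.H30M.hcs_tau hR)).norm.mul_right)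

theorem locX_of_charts {ι : Type} [Fintype ι] {v : ℂ × ℂ → ℂ × ℂ} {g J : ℂ × ℂ → ℂ} {N s te ρb A₁ K₁ Cb : ℝ} {H : ℂ × ℂ → ℝ}
    (hte : te < s) (hH0 : ∀ p : ℂ × ℂ, p ∉ ball (0 : ℂ × ℂ) te → H p = 0) (hρb : ρb < s) {A δ : ι → ℝ} (hA : ∀ i, 0 ≤ A i) (hδ : ∀ i, 0 ≤ δ i)
    {Om : Set ℂ} {p : ℂ → ℂ × ℂ} (hp : ∀ z ∈ Om, AnalyticAt ℂ p z) {O K : ι → Set ℂ} {lm l₁ : ℂ → ℝ} (hlm : ∀ z, 0 ≤ lm z) (hle : ∀ z, lm z ≤ l₁ z)
    (hl₁ : Continuous l₁)
    (hE : ∀ R, 1 ≤ R → ∫ z, tau R z * l₁ z ^ 2 ≤ A₁ * (∫ z, tau R z * lm z ^ 2) + K₁) (hCb : 0 ≤ Cb)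
    (hbase : Cht (DDv v g p) (fun z => H (p z)) (LL v g J p) (VV v g J Om p) N l₁ Cb {z | z ∈ Om ∧ p z ∉ closedBall (0 : ℂ × ℂ) ρb} ∅
          (fun z => (starRingEnd ℂ) (DDv v g p z)) (DDv v g p) (fun _ => 1) (fun _ => 0) (fun _ => 0) fun z => H (p z))
    (hKO : ∀ i, K i ⊆ O i) (hsub : ∀ i, O i ⊆ Om) (hcov : ∀ z ∈ Om, p z ∈ closedBall (0 : ℂ × ℂ) ρb → ∃ i, z ∈ O i)
    (hdisb : ∀ i, ∀ z ∈ K i, p z ∈ closedBall (0 : ℂ × ℂ) ρb) (hdis : ∀ i j, i ≠ j → ∀ z ∈ K i, z ∉ O j)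
    (hdir : ∀ i, DirC v g J N H Om p (A i) (δ i) (O i) (K i) l₁) :
    LocX v g J Om p lm s ((Fintype.card ι + 1) * (1 + ∑ i, A i) * A₁) ((∑ i, δ i) * A₁) := by
  classical
  choose C l η D X Φ err u h1 h2 h3 h4 h5 h6 using hdir
  have hl₁0 : ∀ z, 0 ≤ l₁ z := fun z => (hlm z).trans (hle z)
  have hl0 : ∀ i z, 0 ≤ l i z := fun i z => (hl₁0 z).trans (h3 i z)
  set lt : ℂ → ℝ := fun z => l₁ z + ∑ i, l i z with hlt
  set Ct : ℝ := Cb + ∑ i, C i with hCt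
  have hsum0 : 0 ≤ ∑ i, C i := Finset.sum_nonneg fun i _ => h1 i
  have hCt0 : 0 ≤ Ct := add_nonneg hCb hsum0
  have hlc : ∀ i z, l i z ≤ lt z := fun i z => by
    have a1 : l i z ≤ ∑ i, l i z := Finset.single_le_sum (fun j _ => hl0 j z) (Finset.mem_univ i)
    have := hl₁0 z
    rw [hlt]
    dsimp only
    linarith
  have hlb : ∀ z, l₁ z ≤ lt z := fun z => by
    have a1 : 0 ≤ ∑ i, l i z := Finset.sum_nonneg fun j _ => hl0 j z
    rw [hlt]
    dsimp only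
    linarith
  have hlt0 : ∀ z, 0 ≤ lt z := fun z => (hl₁0 z).trans (hlb z)
  have hCi : ∀ i, C i ≤ Ct := fun i => by
    have a1 : C i ≤ ∑ i, C i := Finset.single_le_sum (fun j _ => h1 j) (Finset.mem_univ i)
    linarith
  have hltc : Continuous lt := hl₁.add (continuous_finsetSum _ fun i _ => h2 i)
  -- the charts
  let OO : Option ι → Set ℂ := fun i => i.elim {z | z ∈ Om ∧ p z ∉ closedBall (0 : ℂ × ℂ) ρb} O
  let KK : Option ι → Set ℂ := fun i => i.elim ∅ K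
  let ηη : Option ι → ℂ → ℂ := fun i => i.elim (fun z => (starRingEnd ℂ) (DDv v g p z)) η
  let DD' : Option ι → ℂ → ℂ := fun i => i.elim (DDv v g p) D
  let XX : Option ι → ℂ → ℂ := fun i => i.elim (fun _ => 1) X
  let ΦΦ : Option ι → ℂ → ℝ := fun i => i.elim (fun _ => 0) Φ
  let ee : Option ι → ℂ → ℝ := fun i => i.elim (fun _ => 0) err
  let uu : Option ι → ℂ → ℝ := fun i => i.elim (fun z => H (p z)) u
  have hch : ∀ i, Cht (DDv v g p) (fun z => H (p z)) (LL v g J p) (VV v g J Om p) N lt Ct (OO i) (KK i) (ηη i) (DD' i) (XX i) (ΦΦ i) (ee i) (uu i) := by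
    rintro (_ | i)
    · exact hbase.mono hlb hl₁0 (by rw [hCt]; linarith) hCb
    · exact (h5 i).mono (hlc i) (hl0 i) (hCi i) (h1 i)
  have hKO' : ∀ i, KK i ⊆ OO i := by
    rintro (_ | i)
    · exact Set.empty_subset _
    · exact hKO i
  have hsub' : ∀ i, OO i ⊆ Om := by
    rintro (_ | i)
    · exact fun z hz => hz.1
    · exact hsub i
  have hcov' : ∀ z ∈ Om, ∃ i, z ∈ OO i := by
    intro z hz
    by_cases hb : p z ∈ closedBall (0 : ℂ × ℂ) ρb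
    · obtain ⟨i, hi⟩ := hcov z hz hb
      exact ⟨some i, hi⟩
    · exact ⟨none, hz, hb⟩
  have hdis' : ∀ i j, i ≠ j → ∀ z ∈ KK i, z ∉ OO j := by
    rintro (_ | i) (_ | j) hij z hz
    · exact absurd rfl hij
    · exact hz.elim
    · exact fun h => h.2 (hdisb i z hz)
    · exact hdis i j (fun h => hij (by rw [h])) z hz
  obtain ⟨η', Φ', err', g1, g2, g3, g4, g5, g6, g7, g8⟩ := glue hch hKO' hsub' hcov' hdis'
  -- the constants
  set cE : ℝ := (Fintype.card ι + 1) * ((1 + ∑ i, A i) * |K₁| + ∑ i, C i) with hcE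
  set cI : ℝ := (∑ i, δ i) * |K₁| + ∑ i, C i with hcI
  have hsA : 0 ≤ ∑ i, A i := Finset.sum_nonneg fun i _ => hA i
  have hsδ : 0 ≤ ∑ i, δ i := Finset.sum_nonneg fun i _ => hδ i
  have hcE0 : 0 ≤ cE := by positivity
  have hcI0 : 0 ≤ cI := by positivity
  have hN0 : 0 ≤ |N| * Ct := mul_nonneg (abs_nonneg _) hCt0
  set Cf : ℝ := (Ct + |N| * Ct) + 2 * Ct + cE + cI with hCf
  have f1 : Ct + |N| * Ct ≤ Cf := by rw [hCf]; linarith
  have f2 : 2 * Ct ≤ Cf := by rw [hCf]; linarith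
  have f3 : cE ≤ Cf := by rw [hCf]; linarith
  have f4 : cI ≤ Cf := by rw [hCf]; linarith
  have f5 : ∑ i, C i ≤ Cf := by rw [hCf]; linarith
  have hCf0 : 0 ≤ Cf := hcE0.trans f3
  refine ⟨Cf, lt, η', Φ', err', hCf0, hltc, fun z => (hle z).trans (hlb z), ?_, fun z hz => (g1 z hz).contDiffWithinAt,
    fun z hz => (g2 z hz).continuousWithinAt, g3, ?_, ?_, g6, ?_, ?_⟩
  · intro R hR
    have a1 : ∀ z, lt z ^ 2 ≤ (Fintype.card ι + 1) * (l₁ z ^ 2 + ∑ i, l i z ^ 2) := by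
      intro z
      have b1 := sq_sum_le_card_mul_sum_sq (s := (Finset.univ : Finset (Option ι))) (f := fun i => i.elim (l₁ z) fun i => l i z)
      rw [Fintype.sum_option, Fintype.sum_option, Finset.card_univ, Fintype.card_option] at b1
      simp only [Option.elim] at b1
      push_cast at b1
      exact b1
    have a2 : ∫ z, tau R z * lt z ^ 2 ≤ ∫ z, tau R z * ((Fintype.card ι + 1) * (l₁ z ^ 2 + ∑ i, l i z ^ 2)) := by
      refine integral_mono (integrable_tau_mul hR (hltc.pow 2)) (integrable_tau_mul hR ?_) fun z => ?_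
      · exact continuous_const.mul ((hl₁.pow 2).add (continuous_finsetSum _ fun i _ => (h2 i).pow 2))
      · exact mul_le_mul_of_nonneg_left (a1 z) (Pool.Agent.H30M.tau_nonneg hR z)
    have a3 : ∫ z, tau R z * ((Fintype.card ι + 1) * (l₁ z ^ 2 + ∑ i, l i z ^ 2)) =
        (Fintype.card ι + 1) * ((∫ z, tau R z * l₁ z ^ 2) + ∑ i, ∫ z, tau R z * l i z ^ 2) := by
      have b1 : ∀ z, tau R z * (((Fintype.card ι : ℝ) + 1) * (l₁ z ^ 2 + ∑ i, l i z ^ 2)) =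
          ((Fintype.card ι : ℝ) + 1) * (tau R z * l₁ z ^ 2 + ∑ i, tau R z * l i z ^ 2) := fun z => by
        rw [← Finset.mul_sum]
        ring
      simp only [b1]
      have i1 : Integrable fun z => tau R z * l₁ z ^ 2 := integrable_tau_mul hR (hl₁.pow 2)
      have i2 : ∀ i ∈ (Finset.univ : Finset ι), Integrable fun z => tau R z * l i z ^ 2 := fun i _ => integrable_tau_mul hR ((h2 i).pow 2)
      rw [integral_const_mul, integral_add i1 (integrable_finsetSum _ i2), integral_finsetSum _ i2]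
    have a4 : ∑ i, ∫ z, tau R z * l i z ^ 2 ≤ ∑ i, (A i * (∫ z, tau R z * l₁ z ^ 2) + C i) := Finset.sum_le_sum fun i _ => h4 i R hR
    rw [Finset.sum_add_distrib, ← Finset.sum_mul] at a4
    have a5 := hE R hR
    have a6 : (0 : ℝ) ≤ Fintype.card ι + 1 := by positivity
    have a7 : K₁ ≤ |K₁| := le_abs_self _
    have a8 : (1 + ∑ i, A i) * (∫ z, tau R z * l₁ z ^ 2) ≤ (1 + ∑ i, A i) * (A₁ * (∫ z, tau R z * lm z ^ 2) + |K₁|) :=
      mul_le_mul_of_nonneg_left (by linarith) (by linarith)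
    calc ∫ z, tau R z * lt z ^ 2 ≤ _ := a2
      _ = _ := a3
      _ ≤ (Fintype.card ι + 1) * ((1 + ∑ i, A i) * (∫ z, tau R z * l₁ z ^ 2) + ∑ i, C i) := mul_le_mul_of_nonneg_left (by linarith) a6
      _ ≤ (Fintype.card ι + 1) * ((1 + ∑ i, A i) * (A₁ * (∫ z, tau R z * lm z ^ 2) + |K₁|) + ∑ i, C i) :=
        mul_le_mul_of_nonneg_left (by linarith) a6
      _ = (Fintype.card ι + 1) * (1 + ∑ i, A i) * A₁ * (∫ z, tau R z * lm z ^ 2) + cE := by rw [hcE]; ring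
      _ ≤ _ := by linarith
  · intro z hz hb
    have hb' : p z ∉ closedBall (0 : ℂ × ℂ) ρb := fun h => hb (closedBall_subset_ball hρb h)
    obtain ⟨b1, b2, b3⟩ := g4 none z ⟨hz, hb'⟩ (Set.notMem_empty z) one_ne_zero
    have e1 : (fun w => H (p w)) =ᶠ[𝓝 z] fun _ => 0 := by
      have c1 : p z ∉ closedBall (0 : ℂ × ℂ) te := fun h => hb (closedBall_subset_ball hte h)
      filter_upwards [(hp z hz).continuousAt.eventually (isClosed_closedBall.isOpen_compl.mem_nhds c1)] with w hw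
      exact hH0 _ fun h => hw (ball_subset_closedBall h)
    have e2 : gr (fun w => H (p w)) z = 0 := by
      rw [gr_congr e1]
      exact gr_const 0 z
    rw [e2, mul_zero, sub_zero] at b1
    have e3 : H (p z) = 0 := e1.self_of_nhds
    rw [e3, mul_zero] at b3
    exact ⟨b1, b2, b3⟩
  · intro z hz _
    exact (g5 z hz).trans (mul_le_mul_of_nonneg_right f1 (hlt0 z))
  · intro z hz hΦz c1 c2 c3
    have b1 := g7 z hz ⟨hz, c1, c2, c3⟩ hΦz
    unfold LL at b1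
    linarith
  · intro R hR
    rw [g8 R hR, Fintype.sum_option]
    have b0 : ∫ z in OO none, tau R z * ee none z = 0 := by
      show ∫ z in OO none, tau R z * (0 : ℝ) = 0
      simp
    rw [b0, zero_add]
    have b1 : ∀ i, ∫ z, ‖gr (tau R) z‖ * l i z ≤ ∫ z, ‖gr (tau R) z‖ * lt z := fun i =>
      integral_mono (integrable_gr_mul hR (h2 i)) (integrable_gr_mul hR hltc) fun z => mul_le_mul_of_nonneg_left (hlc i z) (norm_nonneg _)
    have b2 : ∑ i, ∫ z in OO (some i), tau R z * ee (some i) z ≤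
        ∑ i, (δ i * (∫ z, tau R z * l₁ z ^ 2) + C i * (∫ z, ‖gr (tau R) z‖ * lt z) + C i) := by
      refine Finset.sum_le_sum fun i _ => ?_
      have c1 : C i * (∫ z, ‖gr (tau R) z‖ * l i z) ≤ C i * (∫ z, ‖gr (tau R) z‖ * lt z) := mul_le_mul_of_nonneg_left (b1 i) (h1 i)
      have c2 := h6 i R hR
      exact c2.trans (by linarith)
    refine b2.trans ?_
    rw [Finset.sum_add_distrib, Finset.sum_add_distrib, ← Finset.sum_mul, ← Finset.sum_mul]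
    have b3 : 0 ≤ ∫ z, ‖gr (tau R) z‖ * lt z := integral_nonneg fun z => mul_nonneg (norm_nonneg _) (hlt0 z)
    have b4 : (∑ i, C i) * (∫ z, ‖gr (tau R) z‖ * lt z) ≤ Cf * (∫ z, ‖gr (tau R) z‖ * lt z) := mul_le_mul_of_nonneg_right f5 b3
    have b5 : (∑ i, δ i) * (∫ z, tau R z * l₁ z ^ 2) ≤ (∑ i, δ i) * (A₁ * (∫ z, tau R z * lm z ^ 2) + |K₁|) :=
      mul_le_mul_of_nonneg_left ((hE R hR).trans (by linarith [le_abs_self K₁])) hsδ
    have b6 : (∑ i, δ i) * (A₁ * (∫ z, tau R z * lm z ^ 2) + |K₁|) + ∑ i, C i = (∑ i, δ i) * A₁ * (∫ z, tau R z * lm z ^ 2) + cI := by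
      rw [hcI]
      ring
    linarith

end Pool.Agent.MQ2
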