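import Pool.Agent.MQ2.Step0
import Pool.Agent.MQ2.StepB

/-!
# MQ2 StepU: the function `1/2 log (1 + |slope|²)` in a chart of the blow-up
-/

set_option autoImplicit false

open Topology Filter Metric MeasureTheory Asymptotics Laplacian

noncomputable section

namespace Pool.Agent.MQ2

open Pool.Agent.H36.BP (EN)
open Pool.Agent.H30M (tau LogSing)
open Pool.Agent.MQ

theorem us_eq (t : ℂ) (p : ℂ → ℂ × ℂ) : us p = fun z => uu t (pt t p z) := by
  funext z
  simp only [us, uu, pt, sub_add_cancel]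

/-- The function `u`. -/
theorem us_child {t : ℂ} {v : ℂ × ℂ → ℂ × ℂ} {r ρ B : ℝ} {Om : Set ℂ} {p : ℂ → ℂ × ℂ} {l₁ : ℂ → ℝ} (h : Crv1 v r Om p)
    (hp : ∀ z ∈ Omt Om p t ρ, ‖deriv (pt t p) z‖ ≤ B * l₁ z) : ∀ z ∈ Omt Om p t ρ, ContDiffAt ℝ 2 (us p) z ∧ ‖gr (us p) z‖ ≤ B * l₁ z ∧
      0 ≤ us p z ∧ us p z ≤ Real.log (1 + (‖t‖ + ρ) ^ 2) ∧ ((p z).1 ≠ 0 → Real.log (‖(p z).1‖ ^ 2 + ‖(p z).2‖ ^ 2) / 2 = Real.log ‖(p z).1‖ + us p z) := by
  intro z hz
  have hpz := h.an z hz.1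
  have e := us_eq t p
  refine ⟨?_, ?_, ?_, ?_, fun hx => ?_⟩
  · rw [e]
    exact contDiffAt_uu hpz hz.2.1
  · rw [e]
    exact (norm_gr_uu_le hpz hz.2.1).trans (hp z hz)
  · rw [e]
    exact uu_nonneg _ _
  · have h1 := norm_slope_le hz
    have h2 : 0 ≤ Real.log (1 + ‖slope p z‖ ^ 2) := Real.log_nonneg (by nlinarith [sq_nonneg ‖slope p z‖])
    have h3 : Real.log (1 + ‖slope p z‖ ^ 2) ≤ Real.log (1 + (‖t‖ + ρ) ^ 2) := by
      refine Real.log_le_log (by positivity) ?_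
      have h4 := pow_le_pow_left₀ (norm_nonneg _) h1 2
      rw [add_comm ρ] at h4
      linarith
    unfold us
    linarith
  · have hbe := be_pt hz hpz
    have h4 : (p z).2 = (p z).1 * slope p z := by
      have := congrArg Prod.snd hbe
      simp only [be, pt, sub_add_cancel] at this
      exact this.symm
    exact log_p_eq hx h4

end Pool.Agent.MQ2
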