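import Pool.Agent.MQ2.StepD
import Pool.Agent.MQ2.StepU
import Pool.Agent.MQ2.RegE

/-!
# MQ2 StepS: the package of a direction
-/

set_option autoImplicit false

open Topology Filter Metric MeasureTheory Asymptotics Laplacian

noncomputable section

namespace Pool.Agent.MQ2

open Pool.Agent.H36.BP (EN)
open Pool.Agent.H30M (tau LogSing)
open Pool.Agent.MQ

variable {e ι m : ℕ} {t : ℂ} {v w : ℂ × ℂ → ℂ × ℂ} {g g' J : ℂ × ℂ → ℂ}

theorem be_zero' (t : ℂ) : be t 0 = 0 := by simp [be]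

theorem an_be (t : ℂ) (p : ℂ × ℂ) : AnalyticAt ℂ (be t) p :=
  analyticAt_fst.prod (analyticAt_fst.mul (analyticAt_snd.add analyticAt_const))

theorem an_comp_be {q : ℂ × ℂ → ℂ} (hq : AnalyticAt ℂ q 0) (t : ℂ) : AnalyticAt ℂ (fun x => q (be t x)) 0 := by
  have h : AnalyticAt ℂ q (be t 0) := by rwa [be_zero']
  exact AnalyticAt.comp (g := q) (f := be t) h (an_be t 0)

theorem cd_comp_be {ψ : ℂ × ℂ → ℝ} (hψ : ContDiffAt ℝ 1 ψ 0) (t : ℂ) : ContDiffAt ℝ 1 (fun x => ψ (be t x)) 0 := by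
  have h : ContDiffAt ℝ 1 ψ (be t 0) := by rwa [be_zero']
  exact ContDiffAt.comp (g := ψ) (f := be t) 0 h (((an_be t 0).contDiffAt (n := 1)).restrict_scalars ℝ)

/-- small radii -/
theorem ev_small (t : ℂ) {r : ℝ} (hr : 0 < r) : ∀ᶠ ρ in 𝓝[>] (0 : ℝ), ρ < r ∧ ρ * (ρ + ‖t‖) < r := by
  have h1 : Tendsto (fun ρ : ℝ => ρ) (𝓝[>] 0) (𝓝 0) := tendsto_id.mono_left nhdsWithin_le_nhds
  have h2 : Tendsto (fun ρ : ℝ => ρ * (ρ + ‖t‖)) (𝓝[>] 0) (𝓝 0) := by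
    have h3 : Tendsto (fun ρ : ℝ => ρ * (ρ + ‖t‖)) (𝓝 0) (𝓝 (0 * (0 + ‖t‖))) := by
      have : Continuous fun ρ : ℝ => ρ * (ρ + ‖t‖) := by fun_prop
      exact this.tendsto 0
    rw [zero_mul] at h3
    exact h3.mono_left nhdsWithin_le_nhds
  exact (h1.eventually (gt_mem_nhds hr)).and (h2.eventually (gt_mem_nhds hr))

theorem frequently_of_punctured {P : ℂ → Prop} {z : ℂ} (h : ∀ᶠ w in 𝓝[≠] z, P w) : ∃ᶠ w in 𝓝 z, P w :=
  h.frequently.filter_mono nhdsWithin_le_nhds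

theorem mem_ball_re {Om : Set ℂ} {p : ℂ → ℂ × ℂ} {ρ re : ℝ} {z : ℂ} (hbe : p z = be t (pt t p z)) (hz : z ∈ Omt Om p t ρ) (h1 : ρ < re)
    (h2 : ρ * (ρ + ‖t‖) < re) : p z ∈ ball (0 : ℂ × ℂ) re := by
  have hx : ‖(p z).1‖ < ρ := hz.2.2.1
  have hs : ‖slope p z - t‖ < ρ := hz.2.2.2
  have h3 : ‖slope p z‖ ≤ ρ + ‖t‖ := by
    have h4 := norm_add_le (slope p z - t) t
    rw [sub_add_cancel] at h4
    linarith
  have h4 : (p z).2 = (p z).1 * slope p z := by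
    have := congrArg Prod.snd hbe
    simpa only [be, pt, sub_add_cancel] using this
  have hρ : 0 < ρ := lt_of_le_of_lt (norm_nonneg _) hx
  rw [mem_ball_zero_iff, Prod.norm_def]
  refine max_lt (hx.trans h1) ?_
  rw [h4, norm_mul]
  calc ‖(p z).1‖ * ‖slope p z‖ ≤ ρ * (ρ + ‖t‖) := mul_le_mul hx.le h3 (norm_nonneg _) hρ.le
    _ < re := h2

theorem dirP_sing {P : (ℂ × ℂ → ℂ) → (ℂ × ℂ → ℂ) → Prop} (hv : Iso v)
    (hw : Child e ι t v w) (hg : Wt v g) (hJ : AnalyticAt ℂ J 0) (hg' : AnalyticAt ℂ g' 0)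
    (hm : ∀ᶠ p in 𝓝 (0 : ℂ × ℂ), g (be t p) = p.1 ^ m * g' p) (hP : P g J) {r re : ℝ} (hr : 0 < r) (hre : 0 < re)
    (hgr : ∀ (Om : Set ℂ) (p : ℂ → ℂ × ℂ), Crv1 v r Om p → (∀ z ∈ Om, ∃ᶠ w in 𝓝 z, g (p w) ≠ 0) → ∀ z ∈ Om, v (p z) ≠ 0 → g (p z) ≠ 0)
    (hwt : Wt w (gt ι g')) {k : ℕ} {c : Fin k → ℕ → ℂ → ℂ × ℂ} (hG : ∀ g J : ℂ × ℂ → ℂ, TP ι t P g J → Wt w g → AnalyticAt ℂ J 0 →
      ∀ᶠ r in 𝓝[>] (0 : ℝ), ∀ s, 0 < s → s < r → ∀ B, 0 ≤ B → ∃ A C₀ : ℝ, 0 ≤ A ∧ 0 ≤ C₀ ∧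
      ∀ (d n : ℕ) (q : ℂ × ℂ → ℂ) (ψ : ℂ × ℂ → ℝ), 1 ≤ d → 1 ≤ n → AnalyticAt ℂ q 0 → ContDiffAt ℝ 1 ψ 0 → (∀ i, FZero (c i) g ∨ HasOrd (c i) q n) →
        ∀ (M : ℕ) (F : ℂ → EN M) (Q : ℂ → ℂ) (lm : ℂ → ℝ) (Om : Set ℂ) (p : ℂ → ℂ × ℂ), Dat w g r B d q ψ F Q lm Om p →
          LocX w g J Om p lm s A (C₀ * d / n)) :
    ∀ᶠ ρ in 𝓝[>] (0 : ℝ), ∀ σ, 0 < σ → σ < ρ → ∀ B, 0 ≤ B → ∃ A C₀ : ℝ, 0 ≤ A ∧ 0 ≤ C₀ ∧
      DirP v g J ((e : ℝ) + 1 + ι - m) r (fun n q => ∀ i, FZero (c i) (gt ι g') ∨ HasOrd (c i) (fun x => q (be t x)) n) re B A C₀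
        (fun Om p => Omt Om p t ρ) (Kt t ρ σ) := by
  have hTP : TP ι t P (gt ι g') (Jt t J) :=
    ⟨g, J, m, g', hP, hg.an, hJ, hg', hm, Eventually.of_forall fun _ => rfl, Eventually.of_forall fun _ => rfl⟩
  have hJt : AnalyticAt ℂ (Jt t J) 0 := analyticAt_fst.mul (an_comp_be hJ t)
  filter_upwards [rel_child hv hw hg hJ hg' hm, dat_child hv hw hg hJ hg' hm, hG _ _ hTP hwt hJt, ev_small t hr, ev_small t hre,
    DD_bound hw.an hw.iso hwt, self_mem_nhdsWithin] with ρ h1 h2 h3 h4 h5 h6 h7 σ hσ hσρ B hB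
  have hρ : 0 < ρ := h7
  set B' : ℝ := B + (1 + (‖t‖ + ρ) ^ 2) with hB'
  have hB'0 : 0 ≤ B' := by positivity
  obtain ⟨A, C₀, hA, hC₀, h8⟩ := h3 σ hσ hσρ B' hB'0
  refine ⟨A, C₀, hA, hC₀, ?_⟩
  intro d n q ψ hd hn hq hψ hCon M F Q lm Om p hDat ell hell l₁ hl₁ hle hEn
  have hgne := hgr Om p hDat.crv hDat.g_ne
  obtain ⟨hcw, hrel⟩ := h1 r Om p hDat.crv hDat.p_ne hDat.g_ne hgne h4.1 h4.2
  have hdat := h2 r B re h4.1 h4.2 h5.1 h5.2 hB d q ψ M F Q lm l₁ Om p hDat hgne hl₁ hle hEn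
  obtain ⟨C, l, η, Φ, err, hC, hlc, hll, hlE, hη, herr, hΦ, hout, hin, hineq, hup, hint⟩ :=
    h8 d n _ _ hd hn (an_comp_be hq t) (cd_comp_be hψ t) hCon M F Q l₁ _ _ hdat
  obtain ⟨C2, hC2, h9⟩ := h6 σ (Or.inl hσ)
  have h9' := h9 _ _ hcw hdat.g_ne
  have hl₁0 : ∀ z, 0 ≤ l₁ z := fun z => (hDat.lm_nonneg z).trans (hle z)
  have hl0 : ∀ z, 0 ≤ l z := fun z => (hl₁0 z).trans (hll z)
  have hus := us_child (t := t) (ρ := ρ) hDat.crv hdat.lm_ge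
  have hO : IsOpen (Omt Om p t ρ) := hcw.isOpen
  set N : ℝ := (e : ℝ) + 1 + ι - m with hN
  have hlog : 0 ≤ Real.log (1 + (‖t‖ + ρ) ^ 2) := Real.log_nonneg (by nlinarith [sq_nonneg (‖t‖ + ρ)])
  set Cf : ℝ := C + C2 * B' + B' + |N| * Real.log (1 + (‖t‖ + ρ) ^ 2) with hCf
  have hN0 : 0 ≤ |N| * Real.log (1 + (‖t‖ + ρ) ^ 2) := mul_nonneg (abs_nonneg _) hlog
  have hCB : 0 ≤ C2 * B' := mul_nonneg hC2.le hB'0
  have hCf1 : C ≤ Cf := by rw [hCf]; linarith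
  have hCf2 : C2 * B' ≤ Cf := by rw [hCf]; linarith
  have hCf3 : B' ≤ Cf := by rw [hCf]; linarith
  have hCf4 : |N| * Real.log (1 + (‖t‖ + ρ) ^ 2) ≤ Cf := by rw [hCf]; linarith
  have hCf0 : 0 ≤ Cf := hC.trans hCf1
  refine ⟨Cf, l, η, DDv w (gt ι g') (pt t p), fun z => (p z).1, Φ, err, us p, hCf0, hlc, hll, fun R hR => (hlE R hR).trans (by linarith), ?_, ?_⟩
  · refine {
      op := hO
      cl := hcw.closed σ hσρ
      η_cd := fun z hz => hη.contDiffAt (hO.mem_nhds hz)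
      err_c := fun z hz => (herr z hz).continuousAt (hO.mem_nhds hz)
      Φ_ls := hΦ
      out := fun z hz hK => hout z hz fun hb => hK ⟨hz, ball_subset_closedBall hb⟩
      bd := ?_
      ineq := hineq
      X_an := fun z hz => an_fst (hDat.crv.an z hz.1)
      X_ne := fun z hz => ?_
      X_V := fun z hz hV => ((hrel z hz).2.2.2.2.2.2.2 hV).1
      D_eq := ?_
      ell_eq := ?_
      u_cd := fun z hz => (hus z hz).1
      u_gr := fun z hz => ?_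
      u_bd := fun z hz => ?_
      up := ?_ }
    · intro z hz
      by_cases hb : pt t p z ∈ ball (0 : ℂ × ℂ) σ
      · exact (hin z hz hb).trans (mul_le_mul_of_nonneg_right hCf1 (hl0 z))
      · rw [(hout z hz hb).1, RCLike.norm_conj]
        refine ((h9' z hz hb).2).trans ?_
        have a1 : C2 * ‖deriv (pt t p) z‖ ≤ C2 * (B' * l₁ z) := mul_le_mul_of_nonneg_left (hdat.lm_ge z hz) hC2.le
        have a2 : C2 * (B' * l₁ z) ≤ C2 * B' * l z := by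
          rw [← mul_assoc]
          exact mul_le_mul_of_nonneg_left (hll z) hCB
        exact a1.trans (a2.trans (mul_le_mul_of_nonneg_right hCf2 (hl0 z)))
    · exact (frequently_of_punctured (hrel z hz).2.1)
    · intro z hz hX
      rw [(hrel z hz).2.2.2.2.2.2.1 hX, hN]
      push_cast
      ring
    · intro z hz hX
      have h10 := (hus z hz).2.2.2.2 hX
      rw [← h10]
      refine hell z hz.1 (fun h => hX (by rw [h]; rfl)) ?_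
      exact mem_ball_re (hrel z hz).1 hz h5.1 h5.2
    · have a1 := (hus z hz).2.1
      have a2 : B' * l₁ z ≤ Cf * l z := mul_le_mul hCf3 (hll z) (hl₁0 z) hCf0
      exact a1.trans a2
    · have a1 := (hus z hz).2.2.1
      have a2 := (hus z hz).2.2.2.1
      calc N * us p z ≤ |N| * us p z := mul_le_mul_of_nonneg_right (le_abs_self N) a1
        _ ≤ |N| * Real.log (1 + (‖t‖ + ρ) ^ 2) := mul_le_mul_of_nonneg_left a2 (abs_nonneg _)
        _ ≤ Cf := hCf4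
    · intro z hz hV hΦz
      obtain ⟨b1, b2, b3, b4, b5⟩ := (hrel z hz).2.2.2.2.2.2.2 hV
      have b6 := hup z hz hΦz b2 b3 b4
      rw [b5]
      unfold LL
      linarith
  · intro R hR
    refine (hint R hR).trans ?_
    have a1 : 0 ≤ ∫ z, ‖gr (tau R) z‖ * l z := integral_nonneg fun z => mul_nonneg (norm_nonneg _) (hl0 z)
    have a2 : C * (∫ z, ‖gr (tau R) z‖ * l z) ≤ Cf * ∫ z, ‖gr (tau R) z‖ * l z := mul_le_mul_of_nonneg_right hCf1 a1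
    linarith

/-- a bound for a function near the center -/
theorem ev_bdd {g : ℂ × ℂ → ℂ} (hg : AnalyticAt ℂ g 0) : ∀ᶠ ρ in 𝓝[>] (0 : ℝ), ∀ q ∈ ball (0 : ℂ × ℂ) ρ, ‖g q‖ ≤ ‖g 0‖ + 1 := by
  have h1 : ∀ᶠ q in 𝓝 (0 : ℂ × ℂ), ‖g q‖ < ‖g 0‖ + 1 := hg.continuousAt.norm.eventually (gt_mem_nhds (by linarith))
  obtain ⟨ε, hε, h2⟩ := Metric.eventually_nhds_iff_ball.1 h1
  filter_upwards [mem_nhdsWithin_of_mem_nhds (Iio_mem_nhds hε)] with ρ hρ q hq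
  exact (h2 q (ball_subset_ball (Set.mem_Iio.1 hρ).le hq)).le

theorem log_norm_le {a : ℂ} {b : ℝ} (h : ‖a‖ ≤ b) : Real.log ‖a‖ ≤ b := (Real.log_le_self (norm_nonneg _)).trans h

/-- the upper bound of `log |ζ'|` -/
theorem log_le_of_bound {a : ℂ} {K l : ℝ} (ha : a ≠ 0) (hl : 0 ≤ l) (hK : 0 ≤ K) (h : ‖a‖ ≤ K * l) : Real.log ‖a‖ ≤ Real.log (1 + K) + Real.log (1 + l) := by
  rw [← Real.log_mul (by positivity) (by positivity)]
  refine Real.log_le_log (norm_pos_iff.2 ha) (h.trans ?_)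
  nlinarith

theorem dirP_reg (hv : Iso v)
    (hw : Child e ι t v w) (hg : Wt v g) (hJ : AnalyticAt ℂ J 0) (hg' : AnalyticAt ℂ g' 0)
    (hm : ∀ᶠ p in 𝓝 (0 : ℂ × ℂ), g (be t p) = p.1 ^ m * g' p) {r re : ℝ} (hr : 0 < r) (hre : 0 < re)
    (hgr : ∀ (Om : Set ℂ) (p : ℂ → ℂ × ℂ), Crv1 v r Om p → (∀ z ∈ Om, ∃ᶠ w in 𝓝 z, g (p w) ≠ 0) → ∀ z ∈ Om, v (p z) ≠ 0 → g (p z) ≠ 0)
    (hwt : Wt w (gt ι g')) (hw0 : w 0 ≠ 0) :
    ∀ᶠ ρ in 𝓝[>] (0 : ℝ), ∀ B, 0 ≤ B → ∃ A : ℝ, 0 ≤ A ∧ ∀ Con,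
      DirP v g J ((e : ℝ) + 1 + ι - m) r Con re B A 0 (fun Om p => Omt Om p t ρ) fun _ _ => ∅ := by
  have hJt : AnalyticAt ℂ (Jt t J) 0 := analyticAt_fst.mul (an_comp_be hJ t)
  have hwne : ∀ᶠ ρ in 𝓝[>] (0 : ℝ), ∀ q ∈ ball (0 : ℂ × ℂ) ρ, w q ≠ 0 := by
    obtain ⟨ε, hε, h2⟩ := Metric.eventually_nhds_iff_ball.1 (hw.an.continuousAt.eventually_ne hw0)
    filter_upwards [mem_nhdsWithin_of_mem_nhds (Iio_mem_nhds hε)] with ρ hρ q hq
    exact h2 q (ball_subset_ball (Set.mem_Iio.1 hρ).le hq)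
  have hcof := DD_cof hw.an hw.iso hwt
  filter_upwards [rel_child hv hw hg hJ hg' hm, dat_child hv hw hg hJ hg' hm, hcof, ev_small t hr, ev_small t hre,
    DD_bound hw.an hw.iso hwt, self_mem_nhdsWithin, hwne, ev_bdd hwt.an, ev_bdd hJt] with ρ h1 h2 h3 h4 h5 h6 h7 hwn hbg hbJ B hB
  have hρ : 0 < ρ := h7
  set B' : ℝ := B + (1 + (‖t‖ + ρ) ^ 2) with hB'
  have hB'0 : 0 ≤ B' := by positivity
  refine ⟨1, zero_le_one, ?_⟩
  intro Con d n q ψ hd hn hq hψ hCon M F Q lm Om p hDat ell hell l₁ hl₁ hle hEn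
  have hgne := hgr Om p hDat.crv hDat.g_ne
  obtain ⟨hcw, hrel⟩ := h1 r Om p hDat.crv hDat.p_ne hDat.g_ne hgne h4.1 h4.2
  have hdat := h2 r B re h4.1 h4.2 h5.1 h5.2 hB d q ψ M F Q lm l₁ Om p hDat hgne hl₁ hle hEn
  obtain ⟨C2, hC2, h9⟩ := h6 0 (Or.inr hw0)
  have h9' := fun z hz => h9 _ _ hcw hdat.g_ne z hz (by rw [ball_zero]; exact Set.notMem_empty _)
  obtain ⟨hh, hhan, h10⟩ := h3
  have h10' := fun z hz => h10 _ _ hcw hdat.g_ne z hz (hwn _ (hcw.mem z hz))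
  have hl₁0 : ∀ z, 0 ≤ l₁ z := fun z => (hDat.lm_nonneg z).trans (hle z)
  have hus := us_child (t := t) (ρ := ρ) hDat.crv hdat.lm_ge
  have hO : IsOpen (Omt Om p t ρ) := hcw.isOpen
  have hDan : ∀ z ∈ Omt Om p t ρ, AnalyticAt ℂ (DDv w (gt ι g') (pt t p)) z := fun z hz => by
    obtain ⟨-, a1, a2⟩ := h10' z hz
    have a3 : AnalyticAt ℂ (fun x => hh (pt t p x) * ztv w (pt t p) x) z :=
      (AnalyticAt.comp (g := hh) (f := pt t p) (hhan _ (ball_subset_closedBall (hcw.mem z hz))) (hcw.an z hz)).mul a1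
    exact a3.congr (a2.mono fun x hx => hx.symm)
  set N : ℝ := (e : ℝ) + 1 + ι - m with hN
  have hlog : 0 ≤ Real.log (1 + (‖t‖ + ρ) ^ 2) := Real.log_nonneg (by nlinarith [sq_nonneg (‖t‖ + ρ)])
  have hCB : 0 ≤ C2 * B' := mul_nonneg hC2.le hB'0
  have hlogK : 0 ≤ Real.log (1 + C2 * B') := Real.log_nonneg (by linarith)
  have hN0 : 0 ≤ |N| * Real.log (1 + (‖t‖ + ρ) ^ 2) := mul_nonneg (abs_nonneg _) hlog
  have hg0 : 0 ≤ ‖gt ι g' 0‖ + 1 := by positivity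
  have hJ0 : 0 ≤ ‖Jt t J 0‖ + 1 := by positivity
  set Cf : ℝ := C2 * B' + B' + |N| * Real.log (1 + (‖t‖ + ρ) ^ 2) + (Real.log (1 + C2 * B') + (‖gt ι g' 0‖ + 1) + (‖Jt t J 0‖ + 1)) with hCf
  have hCf2 : C2 * B' ≤ Cf := by rw [hCf]; linarith
  have hCf3 : B' ≤ Cf := by rw [hCf]; linarith
  have hCf4 : |N| * Real.log (1 + (‖t‖ + ρ) ^ 2) ≤ Cf := by rw [hCf]; linarith
  have hCf5 : Real.log (1 + C2 * B') + (‖gt ι g' 0‖ + 1) + (‖Jt t J 0‖ + 1) ≤ Cf := by rw [hCf]; linarith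
  have hCf0 : 0 ≤ Cf := hCB.trans hCf2
  refine ⟨Cf, l₁, fun z => (starRingEnd ℂ) (DDv w (gt ι g') (pt t p) z), DDv w (gt ι g') (pt t p), fun z => (p z).1, fun _ => 0, fun _ => 0, us p, hCf0,
    hl₁, fun z => le_rfl, fun R hR => by linarith, ?_, ?_⟩
  · refine {
      op := hO
      cl := isClosed_empty
      η_cd := fun z hz => contDiffAt_conj_holo (hDan z hz)
      err_c := fun z hz => continuousAt_const
      Φ_ls := fun z hz => ⟨0, LogSing.of_contDiffAt contDiffAt_const⟩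
      out := fun z hz hK => ⟨rfl, rfl, rfl⟩
      bd := ?_
      ineq := ?_
      X_an := fun z hz => an_fst (hDat.crv.an z hz.1)
      X_ne := fun z hz => frequently_of_punctured (hrel z hz).2.1
      X_V := fun z hz hV => ((hrel z hz).2.2.2.2.2.2.2 hV).1
      D_eq := ?_
      ell_eq := ?_
      u_cd := fun z hz => (hus z hz).1
      u_gr := fun z hz => ?_
      u_bd := fun z hz => ?_
      up := ?_ }
    · intro z hz
      rw [RCLike.norm_conj]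
      refine ((h9' z hz).2).trans ?_
      have a1 : C2 * ‖deriv (pt t p) z‖ ≤ C2 * (B' * l₁ z) := mul_le_mul_of_nonneg_left (hdat.lm_ge z hz) hC2.le
      rw [← mul_assoc] at a1
      exact a1.trans (mul_le_mul_of_nonneg_right hCf2 (hl₁0 z))
    · intro z hz _
      rw [dv_conj (hDan z hz).differentiableAt]
      have a1 : Δ (fun _ : ℂ => (0 : ℝ)) z = 0 := by
        rw [← lp_eq_lap contDiffAt_const]
        have : gr (fun _ : ℂ => (0 : ℝ)) = fun _ => 0 := funext fun z => gr_const 0 z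
        show dv (gr fun _ : ℂ => (0 : ℝ)) z = 0
        rw [this, dv_const]
      rw [a1]
      norm_num
    · intro z hz hX
      rw [(hrel z hz).2.2.2.2.2.2.1 hX, hN]
      push_cast
      ring
    · intro z hz hX
      have h10 := (hus z hz).2.2.2.2 hX
      rw [← h10]
      exact hell z hz.1 (fun h => hX (by rw [h]; rfl)) (mem_ball_re (hrel z hz).1 hz h5.1 h5.2)
    · have a1 := (hus z hz).2.1
      exact a1.trans (mul_le_mul_of_nonneg_right hCf3 (hl₁0 z))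
    · have a1 := (hus z hz).2.2.1
      have a2 := (hus z hz).2.2.2.1
      calc N * us p z ≤ |N| * us p z := mul_le_mul_of_nonneg_right (le_abs_self N) a1
        _ ≤ |N| * Real.log (1 + (‖t‖ + ρ) ^ 2) := mul_le_mul_of_nonneg_left a2 (abs_nonneg _)
        _ ≤ Cf := hCf4
    · intro z hz hV _
      obtain ⟨b1, b2, b3, b4, b5⟩ := (hrel z hz).2.2.2.2.2.2.2 hV
      rw [b5]
      unfold LL
      have c1 : ‖ztv w (pt t p) z‖ ≤ C2 * B' * l₁ z := by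
        refine ((h9' z hz).1).trans ?_
        rw [mul_assoc]
        exact mul_le_mul_of_nonneg_left (hdat.lm_ge z hz) hC2.le
      have c2 := log_le_of_bound b2 (hl₁0 z) hCB c1
      have c3 := log_norm_le (hbg _ (hcw.mem z hz))
      have c4 := log_norm_le (hbJ _ (hcw.mem z hz))
      linarith
  · intro R hR
    have a1 : 0 ≤ ∫ z, ‖gr (tau R) z‖ * l₁ z := integral_nonneg fun z => mul_nonneg (norm_nonneg _) (hl₁0 z)
    have a2 := mul_nonneg hCf0 a1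
    simp only [mul_zero, integral_zero, zero_mul, zero_div, zero_add]
    linarith

end Pool.Agent.MQ2
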