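import Pool.Agent.MQ2.Step0

/-!
# MQ2 StepStub: the parts of the blow-up step (statements; never import this file in a hand-in)
-/

set_option autoImplicit false

open Topology Filter Metric MeasureTheory Asymptotics Laplacian

noncomputable section

namespace Pool.Agent.MQ2.StepStub

open Pool.Agent.H36.BP (EN)
open Pool.Agent.H30M (tau LogSing)
open Pool.Agent.MQ Pool.Agent.MQ2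

/-- StepR (helper93): the relations in the chart at `t`.  (`v (p z) ≠ 0` and `g (p z) ≠ 0` if `(p z).1 ≠ 0`: `Iso` and the hypothesis `hgr`, which is
`DD_cof` for `v`.) -/
theorem rel_child {e ι m : ℕ} {t : ℂ} {v w : ℂ × ℂ → ℂ × ℂ} {g g' J : ℂ × ℂ → ℂ} (hv : Iso v) (hw : Child e ι t v w) (hg : Wt v g)
    (hJ : AnalyticAt ℂ J 0) (hg' : AnalyticAt ℂ g' 0) (hm : ∀ᶠ p in 𝓝 (0 : ℂ × ℂ), g (be t p) = p.1 ^ m * g' p) :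
    ∀ᶠ ρ in 𝓝[>] (0 : ℝ), ∀ (r : ℝ) (Om : Set ℂ) (p : ℂ → ℂ × ℂ), Crv1 v r Om p → (∀ z ∈ Om, ∃ᶠ w in 𝓝 z, p w ≠ 0) →
      (∀ z ∈ Om, ∃ᶠ w in 𝓝 z, g (p w) ≠ 0) → (∀ z ∈ Om, v (p z) ≠ 0 → g (p z) ≠ 0) → ρ < r → ρ * (ρ + ‖t‖) < r →
      Crv1 w ρ (Omt Om p t ρ) (pt t p) ∧ ∀ z ∈ Omt Om p t ρ, p z = be t (pt t p z) ∧ (∀ᶠ w' in 𝓝[≠] z, (p w').1 ≠ 0) ∧ AnalyticAt ℂ (slope p) z ∧
        (∀ᶠ w' in 𝓝 z, (p w').2 = (p w').1 * slope p w') ∧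
        (∃ᶠ w' in 𝓝 z, pt t p w' ≠ 0) ∧ (∃ᶠ w' in 𝓝 z, gt ι g' (pt t p w') ≠ 0) ∧
        ((p z).1 ≠ 0 → DDv v g p z = DDv w (gt ι g') (pt t p) z + ((e : ℂ) + 1 + ι - m) * (deriv (fun z => (p z).1) z / (p z).1)) ∧
        (z ∈ VV v g J Om p → (p z).1 ≠ 0 ∧ ztv w (pt t p) z ≠ 0 ∧ gt ι g' (pt t p z) ≠ 0 ∧ Jt t J (pt t p z) ≠ 0 ∧
          LL v g J p z + ((e : ℝ) + 1 + ι - m) * Real.log ‖(p z).1‖ = LL w (gt ι g') (Jt t J) (pt t p) z) := sorry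

/-- StepD (helper40): the data of the curve in the chart. -/
theorem dat_child {e ι m : ℕ} {t : ℂ} {v w : ℂ × ℂ → ℂ × ℂ} {g g' J : ℂ × ℂ → ℂ} (hv : Iso v) (hw : Child e ι t v w) (hg : Wt v g)
    (hJ : AnalyticAt ℂ J 0) (hg' : AnalyticAt ℂ g' 0) (hm : ∀ᶠ p in 𝓝 (0 : ℂ × ℂ), g (be t p) = p.1 ^ m * g' p) :
    ∀ᶠ ρ in 𝓝[>] (0 : ℝ), ∀ (r B re : ℝ), ρ < r → ρ * (ρ + ‖t‖) < r → ρ < re → ρ * (ρ + ‖t‖) < re → 0 ≤ B →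
      ∀ (d : ℕ) (q : ℂ × ℂ → ℂ) (ψ : ℂ × ℂ → ℝ) (M : ℕ) (F : ℂ → EN M) (Q : ℂ → ℂ) (lm l₁ : ℂ → ℝ) (Om : Set ℂ) (p : ℂ → ℂ × ℂ),
        Dat v g r B d q ψ F Q lm Om p → (∀ z ∈ Om, v (p z) ≠ 0 → g (p z) ≠ 0) → Continuous l₁ → (∀ z, lm z ≤ l₁ z) → EnB Om p re l₁ →
        Dat w (gt ι g') ρ (B + (1 + (‖t‖ + ρ) ^ 2)) d (fun x => q (be t x)) (fun x => ψ (be t x)) F Q l₁ (Omt Om p t ρ) (pt t p) := sorry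

/-- StepU (helper93): the function `u`. -/
theorem us_child {t : ℂ} {v : ℂ × ℂ → ℂ × ℂ} {r ρ B : ℝ} {Om : Set ℂ} {p : ℂ → ℂ × ℂ} {l₁ : ℂ → ℝ} (h : Crv1 v r Om p)
    (hp : ∀ z ∈ Omt Om p t ρ, ‖deriv (pt t p) z‖ ≤ B * l₁ z) : ∀ z ∈ Omt Om p t ρ, ContDiffAt ℝ 2 (us p) z ∧ ‖gr (us p) z‖ ≤ B * l₁ z ∧
      0 ≤ us p z ∧ us p z ≤ Real.log (1 + (‖t‖ + ρ) ^ 2) ∧ ((p z).1 ≠ 0 → Real.log (‖(p z).1‖ ^ 2 + ‖(p z).2‖ ^ 2) / 2 = Real.log ‖(p z).1‖ + us p z) := sorry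

/-- StepS (helper82): a singular direction; `c` are the families of `Good (TP ι t P) w`. -/
theorem dirP_sing {P : (ℂ × ℂ → ℂ) → (ℂ × ℂ → ℂ) → Prop} {e ι m : ℕ} {t : ℂ} {v w : ℂ × ℂ → ℂ × ℂ} {g g' J : ℂ × ℂ → ℂ} (hv : Iso v)
    (hw : Child e ι t v w) (hg : Wt v g) (hJ : AnalyticAt ℂ J 0) (hg' : AnalyticAt ℂ g' 0)
    (hm : ∀ᶠ p in 𝓝 (0 : ℂ × ℂ), g (be t p) = p.1 ^ m * g' p) (hP : P g J) {r re : ℝ} (hr : 0 < r) (hre : 0 < re)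
    (hgr : ∀ (Om : Set ℂ) (p : ℂ → ℂ × ℂ), Crv1 v r Om p → (∀ z ∈ Om, ∃ᶠ w in 𝓝 z, g (p w) ≠ 0) → ∀ z ∈ Om, v (p z) ≠ 0 → g (p z) ≠ 0)
    (hwt : Wt w (gt ι g')) {k : ℕ} {c : Fin k → ℕ → ℂ → ℂ × ℂ} (hG : ∀ g J : ℂ × ℂ → ℂ, TP ι t P g J → Wt w g → AnalyticAt ℂ J 0 →
      ∀ᶠ r in 𝓝[>] (0 : ℝ), ∀ s, 0 < s → s < r → ∀ B, 0 ≤ B → ∃ A C₀ : ℝ, 0 ≤ A ∧ 0 ≤ C₀ ∧
      ∀ (d n : ℕ) (q : ℂ × ℂ → ℂ) (ψ : ℂ × ℂ → ℝ), 1 ≤ d → 1 ≤ n → AnalyticAt ℂ q 0 → ContDiffAt ℝ 1 ψ 0 → (∀ i, FZero (c i) g ∨ HasOrd (c i) q n) →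
        ∀ (M : ℕ) (F : ℂ → EN M) (Q : ℂ → ℂ) (lm : ℂ → ℝ) (Om : Set ℂ) (p : ℂ → ℂ × ℂ), Dat w g r B d q ψ F Q lm Om p →
          LocX w g J Om p lm s A (C₀ * d / n)) :
    ∀ᶠ ρ in 𝓝[>] (0 : ℝ), ∀ σ, 0 < σ → σ < ρ → ∀ B, 0 ≤ B → ∃ A C₀ : ℝ, 0 ≤ A ∧ 0 ≤ C₀ ∧
      DirP v g J ((e : ℝ) + 1 + ι - m) r (fun n q => ∀ i, FZero (c i) (gt ι g') ∨ HasOrd (c i) (fun x => q (be t x)) n) re B A C₀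
        (fun Om p => Omt Om p t ρ) (Kt t ρ σ) := sorry

/-- StepN (helper82): a regular direction. -/
theorem dirP_reg {e ι m : ℕ} {t : ℂ} {v w : ℂ × ℂ → ℂ × ℂ} {g g' J : ℂ × ℂ → ℂ} (hv : Iso v)
    (hw : Child e ι t v w) (hg : Wt v g) (hJ : AnalyticAt ℂ J 0) (hg' : AnalyticAt ℂ g' 0)
    (hm : ∀ᶠ p in 𝓝 (0 : ℂ × ℂ), g (be t p) = p.1 ^ m * g' p) {r re : ℝ} (hr : 0 < r) (hre : 0 < re)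
    (hgr : ∀ (Om : Set ℂ) (p : ℂ → ℂ × ℂ), Crv1 v r Om p → (∀ z ∈ Om, ∃ᶠ w in 𝓝 z, g (p w) ≠ 0) → ∀ z ∈ Om, v (p z) ≠ 0 → g (p z) ≠ 0)
    (hwt : Wt w (gt ι g')) (hw0 : w 0 ≠ 0) :
    ∀ᶠ ρ in 𝓝[>] (0 : ℝ), ∀ B, 0 ≤ B → ∃ A : ℝ, 0 ≤ A ∧ ∀ Con,
      DirP v g J ((e : ℝ) + 1 + ι - m) r Con re B A 0 (fun Om p => Omt Om p t ρ) fun _ _ => ∅ := sorry

/-- StepW (helper82): the coordinates exchanged. -/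
theorem dirP_swap {v : ℂ × ℂ → ℂ × ℂ} {g J : ℂ × ℂ → ℂ} {N r : ℝ} {Con : ℕ → (ℂ × ℂ → ℂ) → Prop} {re B A C₀ : ℝ}
    {O K : Set ℂ → (ℂ → ℂ × ℂ) → Set ℂ} (hO : ∀ Om p, O Om p ⊆ Om)
    (h : DirP (swv v) (fun p => g p.swap) (fun p => J p.swap) N r Con re B A C₀ O K) :
    DirP v g J N r (fun n q => Con n fun p => q p.swap) re B A C₀ (fun Om p => O Om fun z => (p z).swap) fun Om p => K Om fun z => (p z).swap := sorry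

/-- StepA (helper93): the base chart: outside a small polydisc. -/
theorem cht_base {v : ℂ × ℂ → ℂ × ℂ} {g J : ℂ × ℂ → ℂ} (hv : Iso v) (hg : Wt v g) (hJ : AnalyticAt ℂ J 0) :
    ∀ᶠ r in 𝓝[>] (0 : ℝ), ∀ (ρb : ℝ), 0 < ρb → ∀ H : ℂ × ℂ → ℝ, ContDiffOn ℝ 2 H {p | p ≠ 0} → ∀ (N B : ℝ), 0 ≤ B → ∃ C : ℝ, 0 ≤ C ∧
      ∀ (Om : Set ℂ) (p : ℂ → ℂ × ℂ) (l₁ : ℂ → ℝ), Crv1 v r Om p → (∀ z ∈ Om, ∃ᶠ w in 𝓝 z, g (p w) ≠ 0) → (∀ z, 0 ≤ l₁ z) →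
        (∀ z ∈ Om, ‖deriv p z‖ ≤ B * l₁ z) →
        Cht (DDv v g p) (fun z => H (p z)) (LL v g J p) (VV v g J Om p) N l₁ C {z | z ∈ Om ∧ p z ∉ closedBall (0 : ℂ × ℂ) ρb} ∅
          (fun z => (starRingEnd ℂ) (DDv v g p z)) (DDv v g p) (fun _ => 1) (fun _ => 0) (fun _ => 0) fun z => H (p z) := sorry

end Pool.Agent.MQ2.StepStub
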