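import Pool.Agent.MQ2.SlopeD

/-!
# MQ2 Stub: the blow-up step, the tree, the terminal packages (statements; never import this file in a hand-in)

Every theorem is one module `Pool/Agent/MQ2/<Module>.lean`, with the same statement.
-/

set_option autoImplicit false

open Topology Filter Metric MeasureTheory Asymptotics Laplacian

noncomputable section

namespace Pool.Agent.MQ2

open Pool.Agent.H36.BP (EN)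
open Pool.Agent.H30M (tau LogSing)
open Pool.Agent.MQ

/-! ## module Uni (helper40): the tree, from `SB.tree_of_isolated'` and `MW.ord_blow` -/

/-- `e` and `ι` do not depend on the direction: with `l` the order of `v` and `P` the tangent form: `e = l - 1`, `ι = 1` if `P ≠ 0`, `e = l`, `ι = 0` otherwise -/
theorem tree_of_iso {v : ℂ × ℂ → ℂ × ℂ} (hv : Iso v) : Tree v := by sorry

/-! ## module Swap (helper66): the coordinates exchanged -/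

theorem crv_swap {v : ℂ × ℂ → ℂ × ℂ} {r : ℝ} {Om : Set ℂ} {p : ℂ → ℂ × ℂ} (h : Crv1 v r Om p) : Crv1 (swv v) r Om fun z => (p z).swap := by sorry

theorem deriv_swap {p : ℂ → ℂ × ℂ} {z : ℂ} (h : DifferentiableAt ℂ p z) : deriv (fun w => (p w).swap) z = (deriv p z).swap := by sorry

theorem ztv_swap {v : ℂ × ℂ → ℂ × ℂ} {r : ℝ} {Om : Set ℂ} {p : ℂ → ℂ × ℂ} (h : Crv1 v r Om p) {z : ℂ} (hz : z ∈ Om) (hv : v (p z) ≠ 0) :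
    ztv (swv v) (fun z => (p z).swap) z = ztv v p z := by sorry

theorem DDv_swap {v : ℂ × ℂ → ℂ × ℂ} {g : ℂ × ℂ → ℂ} {r : ℝ} {Om : Set ℂ} {p : ℂ → ℂ × ℂ} (h : Crv1 v r Om p) {z : ℂ} (hz : z ∈ Om) (hv : v (p z) ≠ 0)
    (ha : AnalyticAt ℂ v (p z)) : DDv (swv v) (fun q => g q.swap) (fun z => (p z).swap) z = DDv v g p z := by sorry

theorem Wt.swap {v : ℂ × ℂ → ℂ × ℂ} {g : ℂ × ℂ → ℂ} (h : Wt v g) : Wt (swv v) fun q => g q.swap := by sorry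

theorem Iso.swap {v : ℂ × ℂ → ℂ × ℂ} (h : Iso v) : Iso (swv v) := by sorry

/-! ## module SingF (helper79): finitely many singular directions -/

theorem child_shift {e ι : ℕ} {v : ℂ × ℂ → ℂ × ℂ} {w : ℂ → ℂ × ℂ → ℂ × ℂ} (hw : ∀ t, Child e ι t v (w t)) (t : ℂ) :
    ∀ᶠ u in 𝓝 (0 : ℂ), w (t + u) 0 = w t (0, u) := by sorry

/-- `w (1 / u) 0` is `wi (0, u)` up to a linear map -/
theorem child_inf {e ι : ℕ} {v : ℂ × ℂ → ℂ × ℂ} {w : ℂ → ℂ × ℂ → ℂ × ℂ} {wi : ℂ × ℂ → ℂ × ℂ} (hw : ∀ t, Child e ι t v (w t))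
    (hwi : Child e ι 0 (swv v) wi) : ∀ᶠ u in 𝓝[≠] (0 : ℂ), w u⁻¹ 0 ≠ 0 := by sorry

theorem sing_finite {e ι : ℕ} {v : ℂ × ℂ → ℂ × ℂ} {w : ℂ → ℂ × ℂ → ℂ × ℂ} {wi : ℂ × ℂ → ℂ × ℂ} (hw : ∀ t, Child e ι t v (w t))
    (hwi : Child e ι 0 (swv v) wi) : {t : ℂ | w t 0 = 0}.Finite := by sorry

/-! ## module WtC (helper31): the weight of the transform; `m` is the order of `g` -/

theorem wt_child {v : ℂ × ℂ → ℂ × ℂ} {g : ℂ × ℂ → ℂ} (hv : AnalyticAt ℂ v 0) (hg : Wt v g) : ∃ m : ℕ,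
    (∀ (e ι : ℕ) (t : ℂ) (w : ℂ × ℂ → ℂ × ℂ), Child e ι t v w → ∃ g' : ℂ × ℂ → ℂ, AnalyticAt ℂ g' 0 ∧
      (∀ᶠ p in 𝓝 (0 : ℂ × ℂ), g (be t p) = p.1 ^ m * g' p) ∧ Wt w fun p => p.1 ^ ι * g' p) ∧
    ∀ (e ι : ℕ) (w : ℂ × ℂ → ℂ × ℂ), Child e ι 0 (swv v) w → ∃ g' : ℂ × ℂ → ℂ, AnalyticAt ℂ g' 0 ∧
      (∀ᶠ p in 𝓝 (0 : ℂ × ℂ), g (be 0 p).swap = p.1 ^ m * g' p) ∧ Wt w fun p => p.1 ^ ι * g' p := by sorry

/-! ## module Slope (helper98): the lift of the curve to the blow-up -/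

theorem be_pt {Om : Set ℂ} {p : ℂ → ℂ × ℂ} {t : ℂ} {ρ : ℝ} {z : ℂ} (hz : z ∈ Omt Om p t ρ) (hp : AnalyticAt ℂ p z) : be t (pt t p z) = p z := by sorry

/-- near a point with a slope `f` the slope is `f` -/
theorem slope_eq {p : ℂ → ℂ × ℂ} {z : ℂ} (hp : AnalyticAt ℂ p z) (h1 : ∃ᶠ w in 𝓝 z, (p w).1 ≠ 0) {f : ℂ → ℂ} (hf : AnalyticAt ℂ f z)
    (h2 : ∀ᶠ w in 𝓝 z, (p w).2 = (p w).1 * f w) : ∀ᶠ w in 𝓝 z, HasSlope p w ∧ slope p w = f w := by sorry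

/-- every point is in the chart `x` with a slope `≤ K` or in the chart `y` with a slope `≤ 1 / K` -/
theorem slope_cover {p : ℂ → ℂ × ℂ} {z : ℂ} (hp : AnalyticAt ℂ p z) (h : ∃ᶠ w in 𝓝 z, p w ≠ 0) {K : ℝ} (hK : 0 < K) :
    (HasSlope p z ∧ ‖slope p z‖ ≤ K) ∨ (HasSlope (fun w => (p w).swap) z ∧ ‖slope (fun w => (p w).swap) z‖ ≤ 1 / K) := by sorry

/-- the curve in the chart is a curve tangent to the transform -/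
theorem crv_child {e ι : ℕ} {t : ℂ} {v w : ℂ × ℂ → ℂ × ℂ} (hw : Child e ι t v w) : ∀ᶠ ρ in 𝓝[>] (0 : ℝ), ∀ (r : ℝ) (Om : Set ℂ) (p : ℂ → ℂ × ℂ),
    Crv1 v r Om p → (∀ z ∈ Om, ∃ᶠ w in 𝓝 z, p w ≠ 0) → ρ < r → ρ * (ρ + ‖t‖) < r → Crv1 w ρ (Omt Om p t ρ) (pt t p) ∧
      (∀ z ∈ Omt Om p t ρ, ∃ᶠ w in 𝓝 z, pt t p w ≠ 0) ∧
      ∀ z ∈ Omt Om p t ρ, (p z).1 ≠ 0 → v (p z) ≠ 0 → w (pt t p z) ≠ 0 ∧ ztv w (pt t p) z = (p z).1 ^ e * ztv v p z := by sorry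

/-! ## module DDrel (helper76) -/

/-- off the zeros of `x` the fields of `(v, g)` and of its transform differ by `(e + 1 + ι - m) x' / x` -/
theorem DD_child {e ι m : ℕ} {t : ℂ} {v w : ℂ × ℂ → ℂ × ℂ} {g g' : ℂ × ℂ → ℂ} (hv : AnalyticAt ℂ v 0) (hw : Child e ι t v w) (hg : Wt v g)
    (hg' : AnalyticAt ℂ g' 0) (hm : ∀ᶠ p in 𝓝 (0 : ℂ × ℂ), g (be t p) = p.1 ^ m * g' p) : ∀ᶠ ρ in 𝓝[>] (0 : ℝ), ∀ (r : ℝ) (Om : Set ℂ) (p : ℂ → ℂ × ℂ),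
      Crv1 v r Om p → (∀ z ∈ Om, ∃ᶠ w in 𝓝 z, p w ≠ 0) → ρ < r → ρ * (ρ + ‖t‖) < r →
        ∀ z ∈ Omt Om p t ρ, (p z).1 ≠ 0 → v (p z) ≠ 0 → g (p z) ≠ 0 → g' (pt t p z) ≠ 0 ∧
          DDv v g p z = DDv w (fun q => q.1 ^ ι * g' q) (pt t p) z + ((e : ℂ) + 1 + ι - m) * (deriv p z).1 / (p z).1 := by sorry

/-! ## module RegE (helper57): the field at regular points -/

/-- the field in the form `(div v - c) ζ'`, analytic where `v ≠ 0` -/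
theorem DD_cof {v : ℂ × ℂ → ℂ × ℂ} {g : ℂ × ℂ → ℂ} (hv : AnalyticAt ℂ v 0) (hiso : ∀ᶠ p in 𝓝 (0 : ℂ × ℂ), p ≠ 0 → v p ≠ 0) (hg : Wt v g) :
    ∀ᶠ r in 𝓝[>] (0 : ℝ), ∃ h : ℂ × ℂ → ℂ, AnalyticOnNhd ℂ h (closedBall 0 r) ∧ ∀ (Om : Set ℂ) (p : ℂ → ℂ × ℂ), Crv1 v r Om p →
      (∀ z ∈ Om, ∃ᶠ w in 𝓝 z, g (p w) ≠ 0) → ∀ z ∈ Om, v (p z) ≠ 0 → g (p z) ≠ 0 ∧ AnalyticAt ℂ (ztv v p) z ∧
        ∀ᶠ w in 𝓝 z, DDv v g p w = h (p w) * ztv v p w := by sorry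

/-- off the center everything is bounded -/
theorem DD_bound {v : ℂ × ℂ → ℂ × ℂ} {g : ℂ × ℂ → ℂ} (hv : AnalyticAt ℂ v 0) (hiso : ∀ᶠ p in 𝓝 (0 : ℂ × ℂ), p ≠ 0 → v p ≠ 0) (hg : Wt v g) :
    ∀ᶠ r in 𝓝[>] (0 : ℝ), ∀ s, 0 < s ∨ v 0 ≠ 0 → ∃ C : ℝ, 0 < C ∧ ∀ (Om : Set ℂ) (p : ℂ → ℂ × ℂ), Crv1 v r Om p →
      (∀ z ∈ Om, ∃ᶠ w in 𝓝 z, g (p w) ≠ 0) → ∀ z ∈ Om, p z ∉ ball (0 : ℂ × ℂ) s → ‖ztv v p z‖ ≤ C * ‖deriv p z‖ ∧ ‖DDv v g p z‖ ≤ C * ‖deriv p z‖ := by sorry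

/-! ## module Energy (helper93): the density of the blow-up -/

theorem energy {r s B : ℝ} (hs : 0 < s) (hsr : s < r) (hB : 0 ≤ B) : ∃ A : ℝ, 0 ≤ A ∧ ∀ (Om : Set ℂ) (p : ℂ → ℂ × ℂ) (lm : ℂ → ℝ), IsOpen Om →
    (∀ z ∈ Om, AnalyticAt ℂ p z) → (∀ z ∈ Om, p z ∈ ball (0 : ℂ × ℂ) r) → (∀ t < r, IsClosed {z | z ∈ Om ∧ p z ∈ closedBall (0 : ℂ × ℂ) t}) →
    (∀ z ∈ Om, ∃ᶠ w in 𝓝 z, p w ≠ 0) → Continuous lm → (∀ z, 0 ≤ lm z) → (∀ z ∈ Om, ‖deriv p z‖ ≤ B * lm z) →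
    ∃ (l₁ : ℂ → ℝ) (K : ℝ), Continuous l₁ ∧ (∀ z, lm z ≤ l₁ z) ∧ (∀ R, 1 ≤ R → ∫ z, tau R z * l₁ z ^ 2 ≤ A * (∫ z, tau R z * lm z ^ 2) + K) ∧
      ∀ z ∈ Om, p z ∈ closedBall (0 : ℂ × ℂ) s →
        (∀ h : ℂ → ℂ, AnalyticAt ℂ h z → (∀ᶠ w in 𝓝 z, (p w).2 = (p w).1 * h w) → ‖deriv h z‖ ≤ (1 + ‖h z‖ ^ 2) * l₁ z) ∧
        ∀ h : ℂ → ℂ, AnalyticAt ℂ h z → (∀ᶠ w in 𝓝 z, (p w).1 = (p w).2 * h w) → ‖deriv h z‖ ≤ (1 + ‖h z‖ ^ 2) * l₁ z := by sorry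

/-! ## module Ell (helper89): the function `ell` = `log |p|` with a cut-off -/

/-- `H p = 1/2 log (|x|² + |y|²)` near `0`, `H p = 0` outside the ball of radius `t` -/
theorem exists_ell {s : ℝ} (hs : 0 < s) : ∃ (ρ t C : ℝ) (H : ℂ × ℂ → ℝ), 0 < ρ ∧ ρ < t ∧ t < s ∧ 0 ≤ C ∧ ContDiffOn ℝ 2 H {p | p ≠ 0} ∧
    (∀ p : ℂ × ℂ, p ∉ ball (0 : ℂ × ℂ) t → H p = 0) ∧ (∀ p : ℂ × ℂ, p ≠ 0 → p ∈ ball (0 : ℂ × ℂ) ρ → H p = Real.log (‖p.1‖ ^ 2 + ‖p.2‖ ^ 2) / 2) ∧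
    (∀ p : ℂ × ℂ, H p ≤ C) ∧ ∀ p : ℂ × ℂ, p ∉ ball (0 : ℂ × ℂ) (ρ / 2) → ‖fderiv ℝ H p‖ ≤ C ∧ |H p| ≤ C := by sorry

/-- near the exceptional line `H = log |x| + 1/2 log (1 + |y/x|²)` -/
theorem log_p_eq {p : ℂ → ℂ × ℂ} {z : ℂ} {f : ℂ} (h1 : (p z).1 ≠ 0) (h2 : (p z).2 = (p z).1 * f) :
    Real.log (‖(p z).1‖ ^ 2 + ‖(p z).2‖ ^ 2) / 2 = Real.log ‖(p z).1‖ + Real.log (1 + ‖f‖ ^ 2) / 2 := by sorry

/-! ## module SepC (helper86): separatrices under the blow-up -/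

theorem sep_child {e ι : ℕ} {t : ℂ} {v w : ℂ × ℂ → ℂ × ℂ} (hv : AnalyticAt ℂ v 0) (hw : Child e ι t v w) {c : ℕ → ℂ → ℂ × ℂ} (hc : Sep w c)
    (hx : ¬ FZero c fun p => p.1) : Sep v fun N z => be t (c N z) := by sorry

theorem sep_swap {v : ℂ × ℂ → ℂ × ℂ} {c : ℕ → ℂ → ℂ × ℂ} (hc : Sep (swv v) c) : Sep v fun N z => (c N z).swap := by sorry

/-- a separatrix in the exceptional line: the line is invariant, and the weight vanishes on it -/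
theorem sep_exc {e ι : ℕ} {t : ℂ} {v w : ℂ × ℂ → ℂ × ℂ} (hw : Child e ι t v w) {c : ℕ → ℂ → ℂ × ℂ} (hc : Sep w c) (hx : FZero c fun p => p.1)
    {g' : ℂ × ℂ → ℂ} (hg' : AnalyticAt ℂ g' 0) : FZero c fun p => p.1 ^ ι * g' p := by sorry

theorem fzero_child {ι m : ℕ} {t : ℂ} {w : ℂ × ℂ → ℂ × ℂ} {c : ℕ → ℂ → ℂ × ℂ} (hc : Sep w c) (hx : ¬ FZero c fun p => p.1) {g g' : ℂ × ℂ → ℂ}
    (hg' : AnalyticAt ℂ g' 0) (hm : ∀ᶠ p in 𝓝 (0 : ℂ × ℂ), g (be t p) = p.1 ^ m * g' p) (h : FZero (fun N z => be t (c N z)) g) :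
    FZero c fun p => p.1 ^ ι * g' p := by sorry

/-- for the final step: the order is finite if `q` does not vanish on the formal curve -/
theorem hasOrd_of {v : ℂ × ℂ → ℂ × ℂ} {c : ℕ → ℂ → ℂ × ℂ} (hc : Sep v c) {q : ℂ × ℂ → ℂ} (hq : AnalyticAt ℂ q 0) (h : ¬ FZero c q) {n : ℕ}
    (hn : (fun t => q (c n t)) =O[𝓝 0] fun t : ℂ => t ^ n) : HasOrd c q n := by sorry

/-! ## module Cong (helper42) -/

theorem Good.mono {P P' : (ℂ × ℂ → ℂ) → (ℂ × ℂ → ℂ) → Prop} (h : ∀ g J, P g J → P' g J) {v : ℂ × ℂ → ℂ × ℂ} (hv : Good P' v) : Good P v := by sorry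

theorem Good.congr {P : (ℂ × ℂ → ℂ) → (ℂ × ℂ → ℂ) → Prop} {v v' : ℂ × ℂ → ℂ × ℂ} (h : v =ᶠ[𝓝 0] v') (hv : Good P v) : Good P v' := by sorry

/-! ## module Step (helper87, helper82) -/

/-- **The blow-up step.** -/
theorem good_step {P : (ℂ × ℂ → ℂ) → (ℂ × ℂ → ℂ) → Prop} {v : ℂ × ℂ → ℂ × ℂ} (hv : Iso v) {e ι : ℕ} {w : ℂ → ℂ × ℂ → ℂ × ℂ} {wi : ℂ × ℂ → ℂ × ℂ}
    (hw : ∀ t, Child e ι t v (w t)) (hwi : Child e ι 0 (swv v) wi) (hg : ∀ t, w t 0 = 0 → Good (TP ι t P) (w t))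
    (hgi : wi 0 = 0 → Good (TP ι 0 (SP P)) wi) : Good P v := by sorry

/-! ## terminal modules (chief helper46) -/

/-- module TAxes (helper64): a corner -/
theorem good_C {a b : ℂ × ℂ → ℂ} (ha : AnalyticAt ℂ a 0) (hb : AnalyticAt ℂ b 0) (ha0 : a 0 ≠ 0) (hb0 : b 0 ≠ 0)
    (hq : ∀ k l : ℕ, 1 ≤ k → 1 ≤ l → k * a 0 ≠ l * b 0) : Good PC fun p => (p.1 * a p, p.2 * b p) := by sorry

/-- module TA (helper46 names the owner): `{x = 0}` is exceptional, the other eigenvalue direction by `briot_bouquet` -/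
theorem good_A {a b : ℂ × ℂ → ℂ} (ha : AnalyticAt ℂ a 0) (hb : AnalyticAt ℂ b 0) (ha0 : a 0 ≠ 0) (hb0 : b 0 = 0) (hb1 : fderiv ℂ b 0 (0, 1) ≠ 0)
    (hq : ∀ k l : ℕ, 1 ≤ k → 1 ≤ l → k * a 0 ≠ l * fderiv ℂ b 0 (0, 1)) : Good (PX 1) fun p => (p.1 * a p, b p) := by sorry

/-- module TB: a saddle-node with the strong separatrix `{x = 0}`, which is exceptional with a high multiplicity -/
theorem good_B' {k : ℕ} (hk : 1 ≤ k) {a b : ℂ × ℂ → ℂ} (ha : AnalyticAt ℂ a 0) (hb : AnalyticAt ℂ b 0) (ha0 : a 0 ≠ 0) (hb0 : b 0 = 0)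
    (hb1 : fderiv ℂ b 0 (0, 1) ≠ 0) : Good (PX (k + 1)) fun p => (p.1 ^ (k + 1) * a p, b p) := by sorry

/-- module TB2: `k + 1` blow-ups in the direction of the weak separatrix; the corners are of the type `good_C` -/
theorem good_B {a b : ℂ × ℂ → ℂ} (ha : AnalyticAt ℂ a 0) (hb : AnalyticAt ℂ b 0) (ha0 : a 0 = 0) (hb0 : b 0 = 0) (hb1 : fderiv ℂ b 0 (0, 1) ≠ 0)
    (hiso : ∀ᶠ p in 𝓝 (0 : ℂ × ℂ), p ≠ 0 → (p.1 * a p, b p) ≠ (0 : ℂ × ℂ)) : Good (PX 1) fun p => (p.1 * a p, b p) := by sorry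

/-- module TE: one blow-up; the singular directions are the two eigenvalue directions, of the types `good_A` or `good_B` -/
theorem good_elem {v : ℂ × ℂ → ℂ × ℂ} (hv : Iso v) (he : Elem v) : Good PT v := by sorry

/-! ## module GoodT (helper87) -/

theorem good_of_tree {v : ℂ × ℂ → ℂ × ℂ} (ht : Tree v) (hv : Iso v) : Good PT v := by sorry

theorem good_of_iso {v : ℂ × ℂ → ℂ × ℂ} (hv : Iso v) : Good PT v := by sorry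

end Pool.Agent.MQ2
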