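import Pool.Agent.MQ2.DefsG
import Pool.Agent.MQ2.Stub
import Pool.Agent.MQ.GStub
import Pool.Agent.AD.T.NCDefs

/-!
# MQ2 StubG: the surface in the second stage (statements; never import this file in a hand-in)

Every theorem (or group) is one module `Pool/Agent/MQ2/<Module>.lean`, with the same statement.
-/

set_option autoImplicit false

open Topology Filter Metric MvPolynomial Asymptotics MeasureTheory Laplacian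

noncomputable section

namespace Pool.Agent.MQ2

open Pool.Agent.H36.BP (EN)
open Pool.Agent.H17 (PN VanishesAt HolomorphicInto)
open Pool.Agent.H17BP (IsChart IsForm Surface Pr)
open Pool.Agent.H17EF (projVar coneE)
open Pool.Agent.H17LG.Variety (FunField)
open Pool.Agent.H13.OT (OrderTwo)
open Pool.Agent.H62.FC (Homog)
open Pool.Agent.AD.NC (IsSmooth IsOfLogGeneralType)
open Pool.Agent.H30M (tau avg rhoR LogSing)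
open Pool.Agent.MQ Pool.Agent.MQ.Stub

variable {M : ℕ} {P : Ideal (MvPolynomial (Fin (M + 1)) ℂ)} {FF : Set (EN M × EN M)}

/-! ## two variables -/

/-- module Rect (helper35): the flow box; `Φ (x, y) = (x, x-coordinate transported ..)`: after a linear change `v = (a, b)`, `b 0 ≠ 0`; `x (y, c)` = the
solution of `dx / dy = a / b` with the value `c` at `y = 0`, analytic in `(y, c)`: `x = c + y u`, `y u_y + u = f (c + y u, y)`: `briot_bouquet` with the parameter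
`c`, or the fixed point of `BB0` with a parameter, or `DD` of `H17BP` -/
theorem rect {v : ℂ × ℂ → ℂ × ℂ} (hv : AnalyticAt ℂ v 0) (h0 : v 0 ≠ 0) : ∃ Φ : ℂ × ℂ → ℂ × ℂ, AnalyticAt ℂ Φ 0 ∧ Φ 0 = 0 ∧
    LinearIndependent ℂ ![fderiv ℂ Φ 0 (1, 0), fderiv ℂ Φ 0 (0, 1)] ∧
    ∀ᶠ p in 𝓝 (0 : ℂ × ℂ), (v (Φ p)).1 * (fderiv ℂ Φ p (0, 1)).2 = (v (Φ p)).2 * (fderiv ℂ Φ p (0, 1)).1 := by sorry

/-- module Hart (helper75): Cauchy's integral over `|y| = r / 2`, see `SB/An/Bez.AA_analytic` -/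
theorem hartogs {f : ℂ × ℂ → ℂ} (hf : ∀ᶠ p in 𝓝 (0 : ℂ × ℂ), p ≠ 0 → AnalyticAt ℂ f p) :
    ∃ F : ℂ × ℂ → ℂ, AnalyticAt ℂ F 0 ∧ ∀ᶠ p in 𝓝 (0 : ℂ × ℂ), p ≠ 0 → F p = f p := by sorry

/-- module Equ (helper22): the reduced equation of a part of the zeros of `ρ`; for `x ≠ 0` small `g (x, y) = ∏ (y - y_i (x))` over the roots in `Z` -/
theorem exists_equ {ρ : ℂ × ℂ → ℂ} (hρ : AnalyticAt ℂ ρ 0) (hρ0 : ∃ᶠ p in 𝓝 (0 : ℂ × ℂ), ρ p ≠ 0) {Z : Set (ℂ × ℂ)}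
    (hZ : ∀ᶠ p in 𝓝 (0 : ℂ × ℂ), p ≠ 0 → (∀ᶠ w in 𝓝 p, w ∉ Z) ∨ ∃ l : ℂ × ℂ → ℂ, AnalyticAt ℂ l p ∧ l p = 0 ∧ fderiv ℂ l p ≠ 0 ∧
      ∀ᶠ w in 𝓝 p, (w ∈ Z ↔ l w = 0) ∧ (l w = 0 → ρ w = 0)) :
    ∃ g : ℂ × ℂ → ℂ, AnalyticAt ℂ g 0 ∧ (∃ᶠ p in 𝓝 (0 : ℂ × ℂ), g p ≠ 0) ∧
      ∀ᶠ p in 𝓝 (0 : ℂ × ℂ), p ≠ 0 → (g p = 0 ↔ p ∈ Z) ∧ (g p = 0 → fderiv ℂ g p ≠ 0) := by sorry

/-- module WtE (helper29): the cofactor: `v (g) / g` is analytic off `0` (at a smooth zero of `g` divide by the coordinate `g`), then `hartogs` -/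
theorem wt_of_equ {v : ℂ × ℂ → ℂ × ℂ} (hv : Iso v) {g : ℂ × ℂ → ℂ} (hg : AnalyticAt ℂ g 0) (hne : ∃ᶠ p in 𝓝 (0 : ℂ × ℂ), g p ≠ 0)
    (hred : ∀ᶠ p in 𝓝 (0 : ℂ × ℂ), p ≠ 0 → g p = 0 → fderiv ℂ g p ≠ 0)
    (hinv : ∀ᶠ p in 𝓝 (0 : ℂ × ℂ), p ≠ 0 → g p = 0 → fderiv ℂ g p (v p) = 0) : Wt v g := by sorry

/-- module LeafS (helper44): the set of invariant points near a regular point, in arbitrary coordinates: `rect` and `CStub.leaf_regular` (MQ/LeafReg) -/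
theorem leaf_set {v : ℂ × ℂ → ℂ × ℂ} {q : ℂ × ℂ → ℂ} {p₀ : ℂ × ℂ} (hv : AnalyticAt ℂ v p₀) (hv0 : v p₀ ≠ 0) (hq : AnalyticAt ℂ q p₀)
    (hq0 : ∃ᶠ p in 𝓝 p₀, q p ≠ 0) : (∀ᶠ p in 𝓝 p₀, ¬ LeafIn v q p) ∨ ∃ l : ℂ × ℂ → ℂ, AnalyticAt ℂ l p₀ ∧ l p₀ = 0 ∧ fderiv ℂ l p₀ ≠ 0 ∧
      ∀ᶠ p in 𝓝 p₀, (LeafIn v q p ↔ l p = 0) ∧ (l p = 0 → q p = 0 ∧ fderiv ℂ l p (v p) = 0) := by sorry

/-! ## boxes -/

/-- module Fol1 (helper11): a regular point; `rect`, `leaf_regular`, `inv_iff` (MQ/InvL), `gbox_of_germ` (MQ/Box), `reg_inv` (MQ/InvS) -/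
theorem good_reg (hX : Surface (coneE P)) {σ : ℂ × ℂ → EN M} {τ : EN M → ℂ × ℂ} {v : ℂ × ℂ → ℂ × ℂ} (hσ : IsChart (coneE P) σ τ) (hsp : Spans FF σ v)
    (hv : AnalyticAt ℂ v 0) (hv0 : v 0 ≠ 0) {R : MvPolynomial (Fin (M + 1)) ℂ} {d : ℕ} (hR : R.IsHomogeneous d)
    (hne : ∃ᶠ p in 𝓝 (0 : ℂ × ℂ), eval (σ p).ofLp R ≠ 0) :
    ∃ σ' : ℂ × ℂ → EN M, σ' 0 = σ 0 ∧ ∀ᶠ r in 𝓝[>] (0 : ℝ), ∃ B : GBox P FF, B.σ = σ' ∧ B.r = r ∧ B.Reg ∧ ∃ g, CG2 R B g := by sorry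

/-- module Fol2 (helper97): a singular point; `leaf_set`, `exists_equ`, `wt_of_equ`, `inv_iff` -/
theorem good_sing (hX : Surface (coneE P)) {σ : ℂ × ℂ → EN M} {τ : EN M → ℂ × ℂ} {v : ℂ × ℂ → ℂ × ℂ} (hσ : IsChart (coneE P) σ τ) (hsp : Spans FF σ v)
    (hv : Iso v) {R : MvPolynomial (Fin (M + 1)) ℂ} {d : ℕ} (hR : R.IsHomogeneous d) (hne : ∃ᶠ p in 𝓝 (0 : ℂ × ℂ), eval (σ p).ofLp R ≠ 0) :
    ∃ g : ℂ × ℂ → ℂ, Wt v g ∧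
      (∀ γ : ℂ → ℂ × ℂ, AnalyticAt ℂ γ 0 → γ 0 = 0 → (∃ᶠ t in 𝓝 (0 : ℂ), γ t ≠ 0) →
        (∀ᶠ t in 𝓝 (0 : ℂ), (v (γ t)).1 * (deriv γ t).2 = (v (γ t)).2 * (deriv γ t).1 ∧ eval (σ (γ t)).ofLp R = 0) → ∀ᶠ t in 𝓝 (0 : ℂ), g (γ t) = 0) ∧
      ∀ᶠ r in 𝓝[>] (0 : ℝ), ∃ B : GBox P FF, B.σ = σ ∧ B.v = v ∧ B.r = r ∧ CG2 R B g := by sorry

/-- module CDat2 (helper84): as `MQ.cdata_of_good` (MQ/CDat) -/
theorem cdata_of_good2 (hX : Surface (coneE P)) {R : MvPolynomial (Fin (M + 1)) ℂ} {d : ℕ} (hRh : R.IsHomogeneous d) (hRP : R ∉ P) (A : Atlas P FF)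
    (Ex : GBox P FF → (ℂ × ℂ → ℂ) → Prop) (hA : ∀ i, ∃ g, CG2 R (A.B i) g ∧ (¬ (A.B i).Reg → Ex (A.B i) g)) :
    ∃ D : CData A, D.R = R ∧ ∀ i, ¬ (A.B i).Reg → Iso (A.B i).v ∧ Wt (A.B i).v (D.g i) ∧ Ex (A.B i) (D.g i) := by sorry

/-- module CC2 (helper52): finitely many singular points (compactness, first an atlas without `g`), `R` = product of the forms of the algebraic families,
`Sep.alg`, `good_reg`, `good_sing`, `exists_atlas_of_germ`, `cdata_of_good2` -/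
theorem exists_cdata2 [P.IsPrime] {z : Fin 2 → FunField P} (hP : Homog P) (hz : IsTranscendenceBasis ℂ z) (hX : Surface (coneE P))
    (hsm : ∀ y : Fin (M + 1) → ℂ, y ≠ 0 → (∀ Q ∈ P, eval y Q = 0) → Module.finrank ℂ (Pool.Agent.H13.SM.conTan P y) ≤ 3) (h : IsFol P FF)
    (m : (ℂ × ℂ → ℂ × ℂ) → ℕ) (fam : ∀ v : ℂ × ℂ → ℂ × ℂ, Fin (m v) → ℕ → ℂ → ℂ × ℂ) (hfam : ∀ v, Iso v → ∀ l, Sep v (fam v l))
    (Rad : (ℂ × ℂ → ℂ × ℂ) → (ℂ × ℂ → ℂ) → ℝ → Prop) (hRad : ∀ v g, Iso v → Wt v g → ∀ᶠ r in 𝓝[>] (0 : ℝ), Rad v g r) :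
    ∃ (A : Atlas P FF) (D : CData A), ∀ i, ¬ (A.B i).Reg → Iso (A.B i).v ∧ Wt (A.B i).v (D.g i) ∧ Rad (A.B i).v (D.g i) (A.B i).r ∧
      ∀ l, FZero (fam (A.B i).v l) (D.g i) ∨ ∀ (R' : MvPolynomial (Fin (M + 1)) ℂ) (d' : ℕ), R'.IsHomogeneous d' → R' ∉ P →
        ¬ FZero (fam (A.B i).v l) fun p => eval ((A.B i).σ p).ofLp R' := by sorry

/-! ## the pack and the theorem -/

/-- module Pack2 (helper37, helper58, helper2): as `MQ.pack_of_local`; `E = EE + ∑ Φ_i`, the density is the sum of the densities of the boxes, the mean of `E` by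
the pointwise bound in `LocX` and `mlog_gen` -/
theorem pack_of_locX {A : Atlas P FF} {D : CData A} {mm : A.ι → ℂ × ℂ → ℝ} (hm : Gauge A D mm) {m j : ℕ} (hm1 : 1 ≤ m) {W : EN M → EN M → EN M → ℂ}
    (hW : IsForm (coneE P) m j W) {F : ℂ → EN M} (hF : Crv P FF F) (hR : ∃ z, eval (F z).ofLp D.R ≠ 0)
    (hWF : ∃ z w, Pool.Agent.H17BP.Tan (coneE P) (F z) w ∧ W (F z) (deriv F z) w ≠ 0) {s : ℝ} (hs : 0 < s) (hs' : ∀ i, ¬ (A.B i).Reg → s ≤ (A.B i).r / 8)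
    (hsep : ∀ i, ¬ (A.B i).Reg → ∀ j, j ≠ i → ∀ x ∈ (A.B i).U s, x ∉ (A.B j).U (A.B j).r) {δ : ℝ} (hδ : 0 ≤ δ)
    (hL : ∀ i, ¬ (A.B i).Reg → ∃ A' : ℝ, LocX (A.B i).v (D.g i) (fun _ => 1) ((A.B i).Om F) ((A.B i).cc F) (lam F) s A' δ) :
    ∃ l : ℂ → ℝ, Continuous l ∧ (∀ z, 0 ≤ l z) ∧ (∀ z, lam F z ≤ l z) ∧ (∃ B : ℝ, ∀ R, 1 ≤ R → ∫ z, tau R z * l z ^ 2 ≤ B * (En F R + 1)) ∧
      Pack F l (2 * j / m) (Fintype.card A.ι * δ) := by sorry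

/-- module FinG (helper99): as `MQ.exists_R` (MQ/Fin), with `good_of_iso`, `exists_cdata2`, `hasOrd_of`, `Sieg`, `pack_of_locX`, `false_of_pack` -/
theorem exists_R_fol [P.IsPrime] (hP : Homog P) (hdim : ∃ z : Fin 2 → FunField P, IsTranscendenceBasis ℂ z) (hsmooth : IsSmooth P 2)
    (hgt : IsOfLogGeneralType P (Fin.elim0 : Fin 0 → MvPolynomial (Fin (M + 1)) ℂ) 2) (h : IsFol P FF) :
    ∃ (R : MvPolynomial (Fin (M + 1)) ℂ) (d : ℕ), R.IsHomogeneous d ∧ R ∉ P ∧ ∀ g : ℂ → PN M, HolomorphicInto g Set.univ → OrderTwo g →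
      (∀ z, g z ∈ projVar P) → (∃ z w, g z ≠ g w) → IsLeafwise P FF g → ∀ z, VanishesAt R (g z) := by sorry

end Pool.Agent.MQ2
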