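import Pool.Agent.MQ2.BB
import Pool.Agent.MQ2.Dulac
import Pool.Agent.H17BP.Germ

/-!
# MQ2 Term: normal forms of reduced singular points on an invariant curve

The curve `E = {x = 0}` is invariant.  `λ₁ = ∂v₁/∂x (0)`, `λ₂ = ∂v₂/∂y (0)`.
-/

set_option autoImplicit false

open Topology Filter Metric

noncomputable section

namespace Pool.Agent.MQ2

open Pool.Agent.H17BP (dx dy exists_div_x exists_div_y Bihol Coord coord_iff)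

/-! ### the derivative along `v` -/

theorem Dv_fst (v : ℂ × ℂ → ℂ × ℂ) (p : ℂ × ℂ) : Dv v (fun q => q.1) p = (v p).1 := by
  rw [Dv, (hasFDerivAt_fst (𝕜 := ℂ) (p := p)).fderiv]
  rfl

theorem Dv_snd (v : ℂ × ℂ → ℂ × ℂ) (p : ℂ × ℂ) : Dv v (fun q => q.2) p = (v p).2 := by
  rw [Dv, (hasFDerivAt_snd (𝕜 := ℂ) (p := p)).fderiv]
  rfl

theorem Dv_eq (v : ℂ × ℂ → ℂ × ℂ) (X : ℂ × ℂ → ℂ) (p : ℂ × ℂ) : Dv v X p = (v p).1 * dx X p + (v p).2 * dy X p := by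
  have h1 : v p = (v p).1 • ((1, 0) : ℂ × ℂ) + (v p).2 • ((0, 1) : ℂ × ℂ) := by ext <;> simp
  rw [Dv]
  conv_lhs => rw [h1]
  rw [map_add, map_smul, map_smul]
  rfl

theorem Dv_mul {v : ℂ × ℂ → ℂ × ℂ} {X Y : ℂ × ℂ → ℂ} {p : ℂ × ℂ} (hX : DifferentiableAt ℂ X p) (hY : DifferentiableAt ℂ Y p) :
    Dv v (fun q => X q * Y q) p = X p * Dv v Y p + Y p * Dv v X p := by
  have h : HasFDerivAt (fun q => X q * Y q) (X p • fderiv ℂ Y p + Y p • fderiv ℂ X p) p := hX.hasFDerivAt.mul hY.hasFDerivAt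
  rw [Dv, h.fderiv]
  rfl

theorem analyticAt_Dv {v : ℂ × ℂ → ℂ × ℂ} {X : ℂ × ℂ → ℂ} {p : ℂ × ℂ} (hv : AnalyticAt ℂ v p) (hX : AnalyticAt ℂ X p) : AnalyticAt ℂ (Dv v X) p := by
  have h1 : AnalyticAt ℂ (fun q => (v q).1) p := analyticAt_fst.comp hv
  have h2 : AnalyticAt ℂ (fun q => (v q).2) p := analyticAt_snd.comp hv
  have h : Dv v X = fun q => (v q).1 * dx X q + (v q).2 * dy X q := funext fun q => Dv_eq v X q
  rw [h]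
  exact (h1.mul (Pool.Agent.H17BP.analyticAt_dx hX)).add (h2.mul (Pool.Agent.H17BP.analyticAt_dy hX))

theorem Dv_congr {v : ℂ × ℂ → ℂ × ℂ} {X Y : ℂ × ℂ → ℂ} {p : ℂ × ℂ} (h : X =ᶠ[𝓝 p] Y) : Dv v X p = Dv v Y p := by
  rw [Dv, Dv, h.fderiv_eq]

/-- the field in other coordinates -/
theorem exists_push {v : ℂ × ℂ → ℂ × ℂ} (hv : AnalyticAt ℂ v 0) {S T : ℂ × ℂ → ℂ} (h : Coord S T) :
    ∃ V : ℂ × ℂ → ℂ × ℂ, AnalyticAt ℂ V 0 ∧ (∀ᶠ p in 𝓝 (0 : ℂ × ℂ), V (S p, T p) = (Dv v S p, Dv v T p)) ∧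
      ∀ X : ℂ × ℂ → ℂ, AnalyticAt ℂ X 0 → ∀ᶠ p in 𝓝 (0 : ℂ × ℂ), Dv v (fun q => X (S q, T q)) p = Dv V X (S p, T p) := by
  obtain ⟨hS, hT, hS0, hT0⟩ := h.parts
  obtain ⟨ψ, hψ, hl, hr⟩ := h.exists_inv
  have hW : AnalyticAt ℂ (fun p => (Dv v S p, Dv v T p)) 0 := (analyticAt_Dv hv hS).prod (analyticAt_Dv hv hT)
  have hV : AnalyticAt ℂ (fun q => (Dv v S (ψ q), Dv v T (ψ q))) 0 :=
    AnalyticAt.fun_comp (g := fun p => (Dv v S p, Dv v T p)) (f := ψ) (by rw [hψ.zero]; exact hW) hψ.an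
  have h1 : ∀ᶠ p in 𝓝 (0 : ℂ × ℂ), (fun q => (Dv v S (ψ q), Dv v T (ψ q))) (S p, T p) = (Dv v S p, Dv v T p) := by
    filter_upwards [hl] with p hp
    simp only [hp]
  refine ⟨_, hV, h1, fun X hX => ?_⟩
  have ht : Tendsto (fun p => (S p, T p)) (𝓝 0) (𝓝 0) := h.tendsto
  filter_upwards [h1, ht.eventually hX.eventually_analyticAt, hS.eventually_analyticAt, hT.eventually_analyticAt] with p e1 e2 e3 e4
  have e5 : HasFDerivAt (fun q => (S q, T q)) ((fderiv ℂ S p).prod (fderiv ℂ T p)) p := e3.differentiableAt.hasFDerivAt.prodMk e4.differentiableAt.hasFDerivAt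
  have e6 : HasFDerivAt (fun q => X (S q, T q)) ((fderiv ℂ X (S p, T p)).comp ((fderiv ℂ S p).prod (fderiv ℂ T p))) p :=
    e2.differentiableAt.hasFDerivAt.comp p e5
  rw [Dv, e6.fderiv, Dv, e1]
  rfl

theorem Coord.isolated {S T : ℂ × ℂ → ℂ} (h : Coord S T) {v V : ℂ × ℂ → ℂ × ℂ} (hV : ∀ᶠ p in 𝓝 (0 : ℂ × ℂ), V (S p, T p) = (Dv v S p, Dv v T p))
    (hiso : ∀ᶠ p in 𝓝[≠] (0 : ℂ × ℂ), v p ≠ 0) : ∀ᶠ p in 𝓝[≠] (0 : ℂ × ℂ), V p ≠ 0 := by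
  obtain ⟨hS, hT, hS0, hT0⟩ := h.parts
  obtain ⟨ψ, hψ, hl, hr⟩ := h.exists_inv
  have hdet : ∀ᶠ p in 𝓝 (0 : ℂ × ℂ), dx S p * dy T p - dy S p * dx T p ≠ 0 := by
    refine ContinuousAt.eventually_ne ?_ ((coord_iff hS hT hS0 hT0).1 h)
    exact ((Pool.Agent.H17BP.analyticAt_dx hS).continuousAt.mul (Pool.Agent.H17BP.analyticAt_dy hT).continuousAt).sub
      ((Pool.Agent.H17BP.analyticAt_dy hS).continuousAt.mul (Pool.Agent.H17BP.analyticAt_dx hT).continuousAt)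
  have h1 : ∀ᶠ p in 𝓝 (0 : ℂ × ℂ), p ≠ 0 → V (S p, T p) ≠ 0 := by
    filter_upwards [hdet, hV, eventually_nhdsWithin_iff.1 hiso] with p e1 e2 e3 hp h4
    refine e3 hp ?_
    rw [e2, Prod.mk_eq_zero, Dv_eq, Dv_eq] at h4
    have e4 : (v p).1 * (dx S p * dy T p - dy S p * dx T p) = 0 := by linear_combination dy T p * h4.1 - dy S p * h4.2
    have e5 : (v p).2 * (dx S p * dy T p - dy S p * dx T p) = 0 := by linear_combination dx S p * h4.2 - dx T p * h4.1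
    exact Prod.ext ((mul_eq_zero.1 e4).resolve_right e1) ((mul_eq_zero.1 e5).resolve_right e1)
  rw [eventually_nhdsWithin_iff]
  filter_upwards [hψ.tendsto.eventually h1, hr] with q e1 e2 hq
  have e3 : ψ q ≠ 0 := by
    intro e4
    apply hq
    rw [← e2, e4]
    show (S 0, T 0) = (0 : ℂ × ℂ)
    rw [hS0, hT0]; rfl
  have e4 := e1 e3
  rwa [e2] at e4

/-! ### the second axis at a point with `λ₁ ≠ 0` -/

theorem dx_of_div {f a : ℂ × ℂ → ℂ} (ha : AnalyticAt ℂ a 0) (h : ∀ᶠ p in 𝓝 (0 : ℂ × ℂ), f p = p.1 * a p) : dx f 0 = a 0 ∧ dy f 0 = 0 := by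
  have h1 : HasFDerivAt (fun q : ℂ × ℂ => q.1 * a q) ((0 : ℂ × ℂ).1 • fderiv ℂ a 0 + a 0 • ContinuousLinearMap.fst ℂ ℂ ℂ) 0 :=
    (hasFDerivAt_fst (𝕜 := ℂ) (p := (0 : ℂ × ℂ))).mul ha.differentiableAt.hasFDerivAt
  have h2 := h1.congr_of_eventuallyEq h
  rw [dx, dy, h2.fderiv]
  simp

theorem dy_of_div {f a : ℂ × ℂ → ℂ} (ha : AnalyticAt ℂ a 0) (h : ∀ᶠ p in 𝓝 (0 : ℂ × ℂ), f p = p.2 * a p) : dy f 0 = a 0 ∧ dx f 0 = 0 := by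
  have h1 : HasFDerivAt (fun q : ℂ × ℂ => q.2 * a q) ((0 : ℂ × ℂ).2 • fderiv ℂ a 0 + a 0 • ContinuousLinearMap.snd ℂ ℂ ℂ) 0 :=
    (hasFDerivAt_snd (𝕜 := ℂ) (p := (0 : ℂ × ℂ))).mul ha.differentiableAt.hasFDerivAt
  have h2 := h1.congr_of_eventuallyEq h
  rw [dx, dy, h2.fderiv]
  simp

theorem coord_fst_sub {s : ℂ → ℂ} (hs : AnalyticAt ℂ s 0) (hs0 : s 0 = 0) : Coord (fun q => q.1) (fun q => q.2 - s q.1) := by
  have h1 : AnalyticAt ℂ (fun q : ℂ × ℂ => s q.1) 0 := AnalyticAt.fun_comp (g := s) (f := fun q : ℂ × ℂ => q.1) hs analyticAt_fst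
  have h2 : HasFDerivAt (fun q : ℂ × ℂ => s q.1) ((ContinuousLinearMap.toSpanSingleton ℂ (deriv s 0)).comp (ContinuousLinearMap.fst ℂ ℂ ℂ)) 0 :=
    (show HasFDerivAt s (ContinuousLinearMap.toSpanSingleton ℂ (deriv s 0)) ((0 : ℂ × ℂ).1) from hs.differentiableAt.hasDerivAt.hasFDerivAt).comp 0 hasFDerivAt_fst
  rw [coord_iff analyticAt_fst (show AnalyticAt ℂ (fun q : ℂ × ℂ => q.2 - s q.1) 0 from analyticAt_snd.sub h1) rfl (by simp [hs0])]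
  have h3 : HasFDerivAt (fun q : ℂ × ℂ => q.2 - s q.1) _ 0 := (hasFDerivAt_snd (𝕜 := ℂ) (p := (0 : ℂ × ℂ))).sub h2
  rw [dx, dx, dy, dy, h3.fderiv, (hasFDerivAt_fst (𝕜 := ℂ) (p := (0 : ℂ × ℂ))).fderiv]
  simp

/-- an invariant curve `y = s (x)` -/
theorem axis_of_curve {v : ℂ × ℂ → ℂ × ℂ} (hv : AnalyticAt ℂ v 0) {a : ℂ × ℂ → ℂ} (ha : AnalyticAt ℂ a 0)
    (hva : ∀ᶠ p in 𝓝 (0 : ℂ × ℂ), (v p).1 = p.1 * a p) {s : ℂ → ℂ} (hs : AnalyticAt ℂ s 0) (hs0 : s 0 = 0)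
    (h : ∀ᶠ x in 𝓝 (0 : ℂ), (v (x, s x)).2 = deriv s x * (v (x, s x)).1) :
    ∃ b : ℂ × ℂ → ℂ, AnalyticAt ℂ b 0 ∧ b 0 = dy (fun p => (v p).2) 0 ∧ ∀ᶠ p in 𝓝 (0 : ℂ × ℂ), Dv v (fun q => q.2 - s q.1) p = (p.2 - s p.1) * b p := by
  have hv1 : AnalyticAt ℂ (fun p => (v p).1) 0 := analyticAt_fst.comp hv
  have hv2 : AnalyticAt ℂ (fun p => (v p).2) 0 := analyticAt_snd.comp hv
  have hs1 : AnalyticAt ℂ (fun q : ℂ × ℂ => s q.1) 0 := AnalyticAt.fun_comp (g := s) (f := fun q : ℂ × ℂ => q.1) hs analyticAt_fst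
  have hd1 : AnalyticAt ℂ (fun q : ℂ × ℂ => deriv s q.1) 0 := AnalyticAt.fun_comp (g := deriv s) (f := fun q : ℂ × ℂ => q.1) hs.deriv analyticAt_fst
  have hfst : Tendsto (fun p : ℂ × ℂ => p.1) (𝓝 0) (𝓝 0) := continuous_fst.tendsto' _ _ rfl
  -- the field on `y - s`
  have hD : ∀ᶠ p in 𝓝 (0 : ℂ × ℂ), Dv v (fun q => q.2 - s q.1) p = (v p).2 - deriv s p.1 * (v p).1 := by
    filter_upwards [hfst.eventually hs.eventually_analyticAt] with p hp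
    have h2 : HasFDerivAt (fun q : ℂ × ℂ => s q.1) ((ContinuousLinearMap.toSpanSingleton ℂ (deriv s p.1)).comp (ContinuousLinearMap.fst ℂ ℂ ℂ)) p :=
      hp.differentiableAt.hasDerivAt.hasFDerivAt.comp p hasFDerivAt_fst
    have h3 : HasFDerivAt (fun q : ℂ × ℂ => q.2 - s q.1) _ p := (hasFDerivAt_snd (𝕜 := ℂ) (p := p)).sub h2
    rw [Dv, h3.fderiv]
    simp [mul_comm]
  set W : ℂ × ℂ → ℂ := fun p => (v p).2 - deriv s p.1 * (v p).1 with hW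
  have hWa : AnalyticAt ℂ W 0 := hv2.sub (hd1.mul hv1)
  set τ : ℂ × ℂ → ℂ × ℂ := fun p => (p.1, p.2 + s p.1) with hτ
  have hτa : AnalyticAt ℂ τ 0 := analyticAt_fst.prod (analyticAt_snd.add hs1)
  have hτ0 : τ 0 = 0 := by simp [hτ, hs0]
  have hWτ : AnalyticAt ℂ (fun p => W (τ p)) 0 := AnalyticAt.fun_comp (g := W) (f := τ) (by rw [hτ0]; exact hWa) hτa
  obtain ⟨b, hb, hWb⟩ := exists_div_y hWτ (by
    filter_upwards [h] with x hx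
    simp only [hτ, hW, zero_add]
    rw [hx, sub_self])
  set ρ : ℂ × ℂ → ℂ × ℂ := fun p => (p.1, p.2 - s p.1) with hρ
  have hρa : AnalyticAt ℂ ρ 0 := analyticAt_fst.prod (analyticAt_snd.sub hs1)
  have hρ0 : ρ 0 = 0 := by simp [hρ, hs0]
  have hρt : Tendsto ρ (𝓝 0) (𝓝 0) := by
    have := hρa.continuousAt.tendsto
    rwa [hρ0] at this
  have hba : AnalyticAt ℂ (fun p => b (ρ p)) 0 := AnalyticAt.fun_comp (g := b) (f := ρ) (by rw [hρ0]; exact hb) hρa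
  refine ⟨fun p => b (ρ p), hba, ?_, ?_⟩
  · simp only [hρ0]
    have h1 := (dy_of_div hb (by filter_upwards [hWb] with p hp using by simpa using hp)).1
    rw [← h1]
    -- the derivative of `W ∘ τ` at `0` in the direction `(0, 1)`
    have h2 : HasFDerivAt (fun q : ℂ × ℂ => s q.1) ((ContinuousLinearMap.toSpanSingleton ℂ (deriv s 0)).comp (ContinuousLinearMap.fst ℂ ℂ ℂ)) 0 :=
      (show HasFDerivAt s (ContinuousLinearMap.toSpanSingleton ℂ (deriv s 0)) ((0 : ℂ × ℂ).1) from hs.differentiableAt.hasDerivAt.hasFDerivAt).comp 0 hasFDerivAt_fst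
    have h3 : HasFDerivAt τ _ 0 := hasFDerivAt_fst.prodMk ((hasFDerivAt_snd (𝕜 := ℂ) (p := (0 : ℂ × ℂ))).add h2)
    have h4 : HasFDerivAt (fun p => W (τ p)) _ 0 := (show HasFDerivAt W (fderiv ℂ W 0) (τ 0) from by rw [hτ0]; exact hWa.differentiableAt.hasFDerivAt).comp 0 h3
    have h5 : HasFDerivAt W (fderiv ℂ (fun p => (v p).2) 0 - (deriv s ((0 : ℂ × ℂ).1) • fderiv ℂ (fun p => (v p).1) 0 + (v 0).1 • fderiv ℂ (fun q : ℂ × ℂ => deriv s q.1) 0)) 0 :=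
      hv2.differentiableAt.hasFDerivAt.sub (hd1.differentiableAt.hasFDerivAt.mul hv1.differentiableAt.hasFDerivAt)
    have h6 : (v 0).1 = 0 := by rw [hva.self_of_nhds]; simp
    have h7 := (dx_of_div ha hva).2
    rw [dy, h4.fderiv, h5.fderiv, dy, h6]
    rw [dy] at h7
    simp [h7]
  · filter_upwards [hD, hρt.eventually hWb] with p e1 e2
    rw [e1]
    have e3 : τ (ρ p) = p := by ext <;> simp [hτ, hρ]
    rw [e3] at e2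
    simpa using e2

/-- the second invariant curve at a point with `λ₁ ≠ 0` -/
theorem exists_axis {v : ℂ × ℂ → ℂ × ℂ} (hv : AnalyticAt ℂ v 0) (h0 : v 0 = 0) (hE : ∀ᶠ y in 𝓝 (0 : ℂ), (v (0, y)).1 = 0)
    (h1 : dx (fun p => (v p).1) 0 ≠ 0) (h2 : ∀ n : ℕ, 1 ≤ n → dy (fun p => (v p).2) 0 ≠ n * dx (fun p => (v p).1) 0) :
    ∃ (s : ℂ → ℂ) (a b : ℂ × ℂ → ℂ), AnalyticAt ℂ s 0 ∧ s 0 = 0 ∧ AnalyticAt ℂ a 0 ∧ a 0 = dx (fun p => (v p).1) 0 ∧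
      AnalyticAt ℂ b 0 ∧ b 0 = dy (fun p => (v p).2) 0 ∧ (∀ᶠ p in 𝓝 (0 : ℂ × ℂ), (v p).1 = p.1 * a p) ∧
      ∀ᶠ p in 𝓝 (0 : ℂ × ℂ), Dv v (fun q => q.2 - s q.1) p = (p.2 - s p.1) * b p := by
  have hv1 : AnalyticAt ℂ (fun p => (v p).1) 0 := analyticAt_fst.comp hv
  have hv2 : AnalyticAt ℂ (fun p => (v p).2) 0 := analyticAt_snd.comp hv
  obtain ⟨a, ha, hva'⟩ := exists_div_x hv1 hE
  have hva : ∀ᶠ p in 𝓝 (0 : ℂ × ℂ), (v p).1 = p.1 * a p := by filter_upwards [hva'] with p hp using by simpa using hp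
  have ha0 : dx (fun p => (v p).1) 0 = a 0 := (dx_of_div ha hva).1
  have hane : a 0 ≠ 0 := by rw [← ha0]; exact h1
  have hF : AnalyticAt ℂ (fun p => (v p).2 / a p) 0 := hv2.div ha hane
  have hd : fderiv ℂ (fun p => (v p).2 / a p) 0 (0, 1) = dy (fun p => (v p).2) 0 / a 0 := by
    have e1 : (fun p => (v p).2) =ᶠ[𝓝 0] fun p => ((v p).2 / a p) * a p := by
      filter_upwards [ha.continuousAt.eventually_ne hane] with p hp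
      rw [div_mul_cancel₀ _ hp]
    have e2 : HasFDerivAt (fun p => ((v p).2 / a p) * a p) (((v 0).2 / a 0) • fderiv ℂ a 0 + a 0 • fderiv ℂ (fun p => (v p).2 / a p) 0) 0 :=
      hF.differentiableAt.hasFDerivAt.mul ha.differentiableAt.hasFDerivAt
    have e3 := (e2.congr_of_eventuallyEq e1).fderiv
    rw [dy, e3, h0]
    simp [hane]
  obtain ⟨s, hs, hs0, hs1⟩ := briot_bouquet hF (by simp [h0]) (by
    intro n hn
    rw [hd, Ne, div_eq_iff hane]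
    rw [← ha0]
    exact h2 n hn)
  have hγ : AnalyticAt ℂ (fun x : ℂ => (x, s x)) 0 := analyticAt_id.prod hs
  have hγt : Tendsto (fun x : ℂ => (x, s x)) (𝓝 0) (𝓝 0) := by
    have := hγ.continuousAt.tendsto
    rwa [hs0] at this
  have hinv : ∀ᶠ x in 𝓝 (0 : ℂ), (v (x, s x)).2 = deriv s x * (v (x, s x)).1 := by
    filter_upwards [hs1, hγt.eventually hva, hγt.eventually (ha.continuousAt.eventually_ne hane)] with x e1 e2 e3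
    rw [e2]
    rw [eq_div_iff e3] at e1
    linear_combination -e1
  obtain ⟨b, hb, hb0, hbD⟩ := axis_of_curve hv ha hva hs hs0 hinv
  exact ⟨s, a, b, hs, hs0, ha, ha0.symm, hb, hb0, hva, hbD⟩

/-! ### the normal forms with both axes -/

/-- a nondegenerate reduced point with the axes `{X = 0}`, `{Y = 0}` -/
def NodeAt (v : ℂ × ℂ → ℂ × ℂ) (X Y : ℂ × ℂ → ℂ) : Prop :=
  Coord X Y ∧ ∃ a b : ℂ × ℂ → ℂ, AnalyticAt ℂ a 0 ∧ AnalyticAt ℂ b 0 ∧ a 0 ≠ 0 ∧ b 0 ≠ 0 ∧ (∀ k l : ℕ, 1 ≤ k → 1 ≤ l → k * a 0 ≠ l * b 0) ∧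
    ∀ᶠ p in 𝓝 (0 : ℂ × ℂ), Dv v X p = X p * a p ∧ Dv v Y p = Y p * b p

/-- a saddle-node with the strong axis `{X = 0}` and the weak axis `{Y = 0}` -/
def SNAt (v : ℂ × ℂ → ℂ × ℂ) (X Y : ℂ × ℂ → ℂ) : Prop :=
  Coord X Y ∧ ∃ (k : ℕ) (a b : ℂ × ℂ → ℂ), 1 ≤ k ∧ AnalyticAt ℂ a 0 ∧ AnalyticAt ℂ b 0 ∧ a 0 ≠ 0 ∧ b 0 ≠ 0 ∧
    ∀ᶠ p in 𝓝 (0 : ℂ × ℂ), Dv v X p = X p ^ (k + 1) * a p ∧ Dv v Y p = Y p * b p

theorem dy_eq_of_tendsto {f g : ℂ × ℂ → ℂ} (h : f =ᶠ[𝓝 0] g) : dy f 0 = dy g 0 := by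
  rw [dy, dy, h.fderiv_eq]

theorem coord_mul_left {S T w : ℂ × ℂ → ℂ} (h : Coord S T) (hw : AnalyticAt ℂ w 0) (hw0 : w 0 ≠ 0) : Coord (fun p => S p * w (S p, T p)) T := by
  obtain ⟨hS, hT, hS0, hT0⟩ := h.parts
  have h1 : Coord (fun p : ℂ × ℂ => p.1 * w p) (fun p => p.2) := by
    rw [coord_iff (show AnalyticAt ℂ (fun p : ℂ × ℂ => p.1 * w p) 0 from analyticAt_fst.mul hw) analyticAt_snd (by simp) rfl]
    have e1 := dx_of_div hw (Eventually.of_forall fun p => rfl)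
    have e2 := dy_of_div (f := fun p : ℂ × ℂ => p.2) (a := fun _ => 1) analyticAt_const (Eventually.of_forall fun p => (mul_one _).symm)
    rw [e1.1, e1.2, e2.1]
    simpa using hw0
  exact Bihol.comp h1 h

/-- Dulac in the coordinates `S`, `T` -/
theorem dulac_coord {v : ℂ × ℂ → ℂ × ℂ} (hv : AnalyticAt ℂ v 0) (hiso : ∀ᶠ p in 𝓝[≠] (0 : ℂ × ℂ), v p ≠ 0) {S T a b : ℂ × ℂ → ℂ}
    (h : Coord S T) (ha : AnalyticAt ℂ a 0) (ha0 : a 0 = 0) (hb : AnalyticAt ℂ b 0) (hb0 : b 0 ≠ 0)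
    (hD : ∀ᶠ p in 𝓝 (0 : ℂ × ℂ), Dv v S p = S p * a p ∧ Dv v T p = T p * b p) :
    ∃ w : ℂ × ℂ → ℂ, AnalyticAt ℂ w 0 ∧ w 0 ≠ 0 ∧ SNAt v (fun p => S p * w p) T := by
  obtain ⟨hS, hT, hS0, hT0⟩ := h.parts
  obtain ⟨ψ, hψ, hl, hr⟩ := h.exists_inv
  obtain ⟨V, hV, hV1, hV2⟩ := exists_push hv h
  have hψS : ∀ᶠ q in 𝓝 (0 : ℂ × ℂ), S (ψ q) = q.1 ∧ T (ψ q) = q.2 := by
    filter_upwards [hr] with q hq
    exact ⟨congrArg Prod.fst hq, congrArg Prod.snd hq⟩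
  have hVq : ∀ᶠ q in 𝓝 (0 : ℂ × ℂ), V q = (q.1 * a (ψ q), q.2 * b (ψ q)) := by
    filter_upwards [hψ.tendsto.eventually hV1, hψ.tendsto.eventually hD, hψS, hr] with q e1 e2 e3 e4
    rw [e3.1, e3.2] at e1
    rw [← Prod.mk.eta (p := q), e1, e2.1, e2.2, e3.1, e3.2]
  have haψ : AnalyticAt ℂ (fun q => a (ψ q)) 0 := AnalyticAt.fun_comp (g := a) (f := ψ) (by rw [hψ.zero]; exact ha) hψ.an
  have hbψ : AnalyticAt ℂ (fun q => b (ψ q)) 0 := AnalyticAt.fun_comp (g := b) (f := ψ) (by rw [hψ.zero]; exact hb) hψ.an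
  have hV0 : V 0 = 0 := by rw [hVq.self_of_nhds]; simp
  have hV2y : dy (fun q => (V q).2) 0 ≠ 0 := by
    rw [(dy_of_div hbψ (by filter_upwards [hVq] with q hq using by rw [hq])).1]
    simp only [hψ.zero]
    exact hb0
  have hfst : Tendsto (fun y : ℂ => ((0, y) : ℂ × ℂ)) (𝓝 0) (𝓝 0) := (by fun_prop : Continuous fun y : ℂ => ((0, y) : ℂ × ℂ)).tendsto' _ _ rfl
  obtain ⟨n, w, A, hw, hw0, hA, hA0, hnw⟩ := dulac hV hV0 hV2y (by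
    filter_upwards [hfst.eventually hVq] with y hy
    rw [hy]; simp) (Coord.isolated h hV1 hiso)
  have hθ0 : (S 0, T 0) = (0 : ℂ × ℂ) := by rw [hS0, hT0]; rfl
  have hθa : AnalyticAt ℂ (fun p => (S p, T p)) 0 := hS.prod hT
  have hθt : Tendsto (fun p => (S p, T p)) (𝓝 0) (𝓝 0) := h.tendsto
  have hwθ : AnalyticAt ℂ (fun p => w (S p, T p)) 0 := AnalyticAt.fun_comp (g := w) (f := fun p => (S p, T p)) (by rw [hθ0]; exact hw) hθa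
  have hAθ : AnalyticAt ℂ (fun p => A (S p, T p)) 0 := AnalyticAt.fun_comp (g := A) (f := fun p => (S p, T p)) (by rw [hθ0]; exact hA) hθa
  have hDX : ∀ᶠ p in 𝓝 (0 : ℂ × ℂ), Dv v (fun p => S p * w (S p, T p)) p = (S p * w (S p, T p)) ^ (n + 1) * A (S p, T p) := by
    filter_upwards [hV2 (fun q => q.1 * w q) (analyticAt_fst.mul hw), hθt.eventually hnw] with p e1 e2
    exact e1.trans e2
  -- `n ≥ 1`
  have hn : 1 ≤ n := by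
    by_contra hn0
    have hn1 : n = 0 := by omega
    subst hn1
    -- `dx (V.1) 0 = a 0 = 0` but also `= A 0`
    have e1 : ∀ᶠ q in 𝓝 (0 : ℂ × ℂ), Dv V (fun q => q.1 * w q) q = q.1 * (a (ψ q) * w q + Dv V w q) := by
      filter_upwards [hVq, hw.eventually_analyticAt] with q e2 e3
      rw [Dv_mul differentiableAt_fst e3.differentiableAt, Dv_fst, e2]
      ring
    have e2 : ∀ᶠ q in 𝓝 (0 : ℂ × ℂ), Dv V (fun q => q.1 * w q) q = q.1 * (w q * A q) := by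
      filter_upwards [hnw] with q hq
      rw [hq]; ring
    have e3 := (dx_of_div ((haψ.mul hw).add (analyticAt_Dv hV hw)) e1).1
    have e4 := (dx_of_div (hw.mul hA) e2).1
    rw [e3] at e4
    simp only [Pi.add_apply, Pi.mul_apply, hψ.zero, ha0, zero_mul, zero_add] at e4
    have e5 : Dv V w 0 = 0 := by rw [Dv, hV0, map_zero]
    rw [e5] at e4
    exact mul_ne_zero hw0 hA0 e4.symm
  refine ⟨fun p => w (S p, T p), hwθ, by simp only [hθ0]; exact hw0, coord_mul_left h hw hw0, n, fun p => A (S p, T p), b, hn, hAθ, hb,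
    by simp only [hθ0]; exact hA0, hb0, ?_⟩
  filter_upwards [hDX, hD] with p e1 e2
  exact ⟨e1, e2.2⟩

/-- **Type A**: the eigenvalue transversal to `E = {x = 0}` is not `0`. -/
theorem typeA {v : ℂ × ℂ → ℂ × ℂ} (hv : AnalyticAt ℂ v 0) (h0 : v 0 = 0) (hE : ∀ᶠ y in 𝓝 (0 : ℂ), (v (0, y)).1 = 0)
    (hiso : ∀ᶠ p in 𝓝[≠] (0 : ℂ × ℂ), v p ≠ 0) (h1 : dx (fun p => (v p).1) 0 ≠ 0)
    (h2 : ∀ k l : ℕ, 1 ≤ k → 1 ≤ l → k * dx (fun p => (v p).1) 0 ≠ l * dy (fun p => (v p).2) 0) :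
    ∃ S : ℂ × ℂ → ℂ, NodeAt v (fun p => p.1) S ∨ SNAt v S (fun p => p.1) := by
  obtain ⟨s, a, b, hs, hs0, ha, ha0, hb, hb0, hva, hbD⟩ := exists_axis hv h0 hE h1 (fun n hn h => h2 n 1 hn le_rfl (by rw [h]; simp))
  have hco := coord_fst_sub hs hs0
  have hD : ∀ᶠ p in 𝓝 (0 : ℂ × ℂ), Dv v (fun p => p.1) p = p.1 * a p ∧ Dv v (fun q => q.2 - s q.1) p = (p.2 - s p.1) * b p := by
    filter_upwards [hva, hbD] with p e1 e2
    exact ⟨by rw [Dv_fst, e1], e2⟩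
  by_cases hb1 : b 0 = 0
  · obtain ⟨w, hw, hw0, hSN⟩ := dulac_coord hv hiso hco.symm hb hb1 ha (by rw [ha0]; exact h1) (hD.mono fun p hp => ⟨hp.2, hp.1⟩)
    exact ⟨_, Or.inr hSN⟩
  · exact ⟨_, Or.inl ⟨hco, a, b, ha, hb, by rw [ha0]; exact h1, hb1, by rw [ha0, hb0]; exact h2, hD⟩⟩

/-- **Corners**: both axes are invariant. -/
theorem corner {v : ℂ × ℂ → ℂ × ℂ} (hv : AnalyticAt ℂ v 0) (h0 : v 0 = 0) (hE : ∀ᶠ y in 𝓝 (0 : ℂ), (v (0, y)).1 = 0)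
    (hE' : ∀ᶠ x in 𝓝 (0 : ℂ), (v (x, 0)).2 = 0) (hiso : ∀ᶠ p in 𝓝[≠] (0 : ℂ × ℂ), v p ≠ 0)
    (hne : dx (fun p => (v p).1) 0 ≠ 0 ∨ dy (fun p => (v p).2) 0 ≠ 0)
    (h2 : ∀ k l : ℕ, 1 ≤ k → 1 ≤ l → k * dx (fun p => (v p).1) 0 ≠ l * dy (fun p => (v p).2) 0) :
    NodeAt v (fun p => p.1) (fun p => p.2) ∨
      (∃ w : ℂ × ℂ → ℂ, AnalyticAt ℂ w 0 ∧ w 0 ≠ 0 ∧ SNAt v (fun p => p.1 * w p) (fun p => p.2)) ∨
      ∃ w : ℂ × ℂ → ℂ, AnalyticAt ℂ w 0 ∧ w 0 ≠ 0 ∧ SNAt v (fun p => p.2 * w p) (fun p => p.1) := by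
  have hv1 : AnalyticAt ℂ (fun p => (v p).1) 0 := analyticAt_fst.comp hv
  have hv2 : AnalyticAt ℂ (fun p => (v p).2) 0 := analyticAt_snd.comp hv
  obtain ⟨a, ha, hva'⟩ := exists_div_x hv1 hE
  obtain ⟨b, hb, hvb'⟩ := exists_div_y hv2 hE'
  have hva : ∀ᶠ p in 𝓝 (0 : ℂ × ℂ), (v p).1 = p.1 * a p := by filter_upwards [hva'] with p hp using by simpa using hp
  have hvb : ∀ᶠ p in 𝓝 (0 : ℂ × ℂ), (v p).2 = p.2 * b p := by filter_upwards [hvb'] with p hp using by simpa using hp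
  have ha0 := (dx_of_div ha hva).1
  have hb0 := (dy_of_div hb hvb).1
  have hD : ∀ᶠ p in 𝓝 (0 : ℂ × ℂ), Dv v (fun p => p.1) p = p.1 * a p ∧ Dv v (fun q => q.2) p = p.2 * b p := by
    filter_upwards [hva, hvb] with p e1 e2
    exact ⟨by rw [Dv_fst, e1], by rw [Dv_snd, e2]⟩
  have hco : Coord (fun p => p.1) (fun p => p.2) := Pool.Agent.H17BP.coord_fst_snd
  rw [ha0, hb0] at hne
  by_cases ha1 : a 0 = 0
  · obtain ⟨w, hw, hw0, hSN⟩ := dulac_coord hv hiso hco ha ha1 hb (hne.resolve_left (fun h => h ha1)) hD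
    exact Or.inr (Or.inl ⟨w, hw, hw0, hSN⟩)
  · by_cases hb1 : b 0 = 0
    · obtain ⟨w, hw, hw0, hSN⟩ := dulac_coord hv hiso hco.symm hb hb1 ha ha1 (hD.mono fun p hp => ⟨hp.2, hp.1⟩)
      exact Or.inr (Or.inr ⟨w, hw, hw0, hSN⟩)
    · exact Or.inl ⟨hco, a, b, ha, hb, ha1, hb1, by rw [← ha0, ← hb0]; exact h2, hD⟩

end Pool.Agent.MQ2
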