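import Pool.Agent.MQ2.AlgConv
import Pool.Agent.MQ2.Term
import Pool.Agent.MQ2.Defs

/-!
# MQ2 TConv: a convergent weak separatrix is an invariant curve
-/

set_option autoImplicit false

open Topology Filter Metric Asymptotics

noncomputable section

namespace Pool.Agent.MQ2

open Pool.Agent.MQ (jet)
open AC (dv_of_isBigO not_eventually_iff dv_subst analytic_subst)

theorem AC_dv_deriv {n : ℕ} {g : ℂ → ℂ} (hg : AC.Dv (n + 1) g) : AC.Dv n (deriv g) := by
  obtain ⟨k, h1, h2⟩ := hg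
  refine ⟨fun t => ((n : ℂ) + 1) * k t + t * deriv k t, (analyticAt_const.mul h1).add (analyticAt_id.mul h1.deriv), ?_⟩
  filter_upwards [h2.eventually_nhds, h1.eventually_analyticAt] with t e1 e2
  have e3 : HasDerivAt (fun t : ℂ => t ^ (n + 1) * k t) (((n + 1 : ℕ) : ℂ) * t ^ n * k t + t ^ (n + 1) * deriv k t) t := by
    have e4 : HasDerivAt (fun t : ℂ => t ^ (n + 1)) (((n + 1 : ℕ) : ℂ) * t ^ n) t := by simpa using hasDerivAt_pow (n + 1) t
    exact e4.mul e2.differentiableAt.hasDerivAt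
  have e5 : g =ᶠ[𝓝 t] fun t => t ^ (n + 1) * k t := e1
  rw [e5.deriv_eq, e3.deriv]
  push_cast
  ring

/-- a flat analytic function is `0` -/
theorem eventually_zero_of_dv {g : ℂ → ℂ} (hg : AnalyticAt ℂ g 0) (h : ∀ n, AC.Dv n g) : ∀ᶠ t in 𝓝 (0 : ℂ), g t = 0 := by
  by_contra h0
  obtain ⟨n, hn⟩ := not_eventually_iff hg h0
  have := hn.dv_iff (h (n + 1))
  omega

/-- a convergent weak separatrix is the invariant curve `y = s (x)` -/
theorem exists_conv {k : ℕ} {a b : ℂ × ℂ → ℂ} (ha : AnalyticAt ℂ a 0) (hb : AnalyticAt ℂ b 0) {c : ℕ → ℂ} (hc : c 0 = 0)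
    (hJ : ∀ J, (fun t => b (t, jet c J t) - deriv (jet c J) t * (t ^ (k + 1) * a (t, jet c J t))) =O[𝓝 0] fun t : ℂ => t ^ (J + 1))
    {γ : ℂ → ℂ × ℂ} (hγ : AnalyticAt ℂ γ 0) (h : ∀ N, (fun t => γ t - (t, jet c N t)) =O[𝓝 0] fun t : ℂ => t ^ (N + 1)) :
    ∃ s : ℂ → ℂ, AnalyticAt ℂ s 0 ∧ s 0 = 0 ∧ ∀ᶠ x in 𝓝 (0 : ℂ), b (x, s x) = deriv s x * (x ^ (k + 1) * a (x, s x)) := by
  set s : ℂ → ℂ := fun t => (γ t).2 with hsd
  have hs : AnalyticAt ℂ s 0 := analyticAt_snd.comp hγ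
  have hsN : ∀ N, AC.Dv (N + 1) fun t => s t - jet c N t := by
    intro N
    refine dv_of_isBigO (hs.sub (AC.analytic_jet c N 0)) ?_
    have h1 : (fun t => s t - jet c N t) =O[𝓝 0] fun t : ℂ => t ^ (N + 1) := by
      refine IsBigO.trans (IsBigO.of_bound 1 (Eventually.of_forall fun t => ?_)) (h N)
      rw [one_mul]
      exact norm_snd_le (γ t - (t, jet c N t))
    exact h1.mono nhdsWithin_le_nhds
  have hs0 : s 0 = 0 := by
    have h1 := (hsN 0).zero
    rw [AC.jet_zero hc, sub_zero] at h1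
    exact h1
  refine ⟨s, hs, hs0, ?_⟩
  have hFa : AnalyticAt ℂ (fun t => b (t, s t) - deriv s t * (t ^ (k + 1) * a (t, s t))) 0 :=
    (analytic_subst hb hs hs0).sub (hs.deriv.mul ((analyticAt_id.pow (k + 1)).mul (analytic_subst ha hs hs0)))
  have hz := eventually_zero_of_dv hFa (by
    intro n
    have hj := AC.analytic_jet c n 0
    have hj0 := AC.jet_zero hc n
    -- the jet equation
    have e1 : AC.Dv (n + 1) fun t => b (t, jet c n t) - deriv (jet c n) t * (t ^ (k + 1) * a (t, jet c n t)) :=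
      dv_of_isBigO ((analytic_subst hb hj hj0).sub (hj.deriv.mul ((analyticAt_id.pow (k + 1)).mul (analytic_subst ha hj hj0)))) ((hJ n).mono nhdsWithin_le_nhds)
    have e2 : AC.Dv (n + 1) fun t => b (t, s t) - b (t, jet c n t) := dv_subst hb hs hs0 hj hj0 (hsN n)
    have e3 : AC.Dv (n + 1) fun t => a (t, s t) - a (t, jet c n t) := dv_subst ha hs hs0 hj hj0 (hsN n)
    have e4 : AC.Dv n (deriv fun t => s t - jet c n t) := AC_dv_deriv (hsN n)
    have e5 : AC.Dv n fun t => deriv s t - deriv (jet c n) t := by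
      refine e4.congr ?_
      filter_upwards [hs.eventually_analyticAt, hj.eventually_analyticAt] with t a1 a2
      rw [deriv_fun_sub a1.differentiableAt a2.differentiableAt]
    have hmul : ∀ {m : ℕ} {g f : ℂ → ℂ}, AC.Dv m g → AnalyticAt ℂ f 0 → AC.Dv m fun t => g t * f t := by
      rintro m g f ⟨κ, a1, a2⟩ hf
      exact ⟨fun t => κ t * f t, a1.mul hf, by filter_upwards [a2] with t a3; rw [a3]; ring⟩
    have e6 : AC.Dv n fun t => (deriv s t - deriv (jet c n) t) * (t ^ (k + 1) * a (t, s t)) :=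
      hmul e5 ((analyticAt_id.pow (k + 1)).mul (analytic_subst ha hs hs0))
    have e7 : AC.Dv n fun t => (a (t, s t) - a (t, jet c n t)) * (deriv (jet c n) t * t ^ (k + 1)) :=
      hmul (e3.mono (Nat.le_succ n)) (hj.deriv.mul (analyticAt_id.pow (k + 1)))
    refine ((((e1.mono (Nat.le_succ n)).add (e2.mono (Nat.le_succ n))).sub e6).sub e7).congr (Eventually.of_forall fun t => ?_)
    ring)
  filter_upwards [hz] with t ht
  exact sub_eq_zero.1 ht

end Pool.Agent.MQ2
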