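import Pool.Agent.MQ2.TSN
import Pool.Agent.MQ2.SepF
import Pool.Agent.MQ.LFormD

/-!
# MQ2 TForm: a saddle-node with the strong separatrix in the weight and a formal weak separatrix
-/

set_option autoImplicit false

open Topology Filter Metric MeasureTheory Asymptotics Laplacian

noncomputable section

namespace Pool.Agent.MQ2

open Pool.Agent.H36.BP (EN)
open Pool.Agent.H30M (tau LogSing)
open Pool.Agent.MQ

/-- the singular point of a saddle-node is isolated -/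
theorem iso_formal {k : ℕ} {a b : ℂ × ℂ → ℂ} (ha : AnalyticAt ℂ a 0) (hb : AnalyticAt ℂ b 0) (ha0 : a 0 ≠ 0) (hb0 : b 0 = 0)
    (hb1 : fderiv ℂ b 0 (0, 1) ≠ 0) : ∀ᶠ q in 𝓝 (0 : ℂ × ℂ), q ≠ 0 → ((q.1 ^ (k + 1) * a q, b q) : ℂ × ℂ) ≠ 0 := by
  have hline : HasDerivAt (fun t : ℂ => ((0, t) : ℂ × ℂ)) (0, 1) 0 := (hasDerivAt_const 0 (0 : ℂ)).prodMk (hasDerivAt_id 0)
  have h1 : HasDerivAt (fun t : ℂ => b (0, t)) (fderiv ℂ b 0 (0, 1)) 0 := by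
    have h2 : HasFDerivAt b (fderiv ℂ b 0) ((0, 0) : ℂ × ℂ) := hb.differentiableAt.hasFDerivAt
    exact h2.comp_hasDerivAt 0 hline
  have h2 : ∀ᶠ t : ℂ in 𝓝[≠] 0, b (0, t) ≠ b (0, 0) := h1.eventually_ne hb1
  have h3 : ∀ᶠ t : ℂ in 𝓝 0, t ≠ 0 → b (0, t) ≠ 0 := by
    filter_upwards [eventually_nhdsWithin_iff.1 h2] with t ht h0
    intro h4
    exact ht h0 (h4.trans (show b ((0 : ℂ), (0 : ℂ)) = 0 from hb0).symm)
  have h4 : ∀ᶠ q : ℂ × ℂ in 𝓝 0, q.2 ≠ 0 → b (0, q.2) ≠ 0 := (continuous_snd.tendsto (0 : ℂ × ℂ)).eventually h3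
  filter_upwards [ha.continuousAt.eventually_ne ha0, h4] with q e1 e2 e3 e4
  have h5 : q.1 ^ (k + 1) * a q = 0 := congrArg Prod.fst e4
  have h6 : b q = 0 := congrArg Prod.snd e4
  have h7 : q.1 = 0 := pow_eq_zero_iff (by omega) |>.1 ((mul_eq_zero.1 h5).resolve_right e1)
  have h8 : q.2 = 0 := by
    by_contra h9
    apply e2 h9
    have h10 : ((0 : ℂ), q.2) = q := Prod.ext h7.symm rfl
    rw [h10]
    exact h6
  exact e3 (Prod.ext h7 h8)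

theorem fzero_formal_false {c : ℕ → ℂ} {g : ℂ × ℂ → ℂ} (hc : c 0 = 0) (hg : ∀ᶠ p in 𝓝 (0 : ℂ × ℂ), g p = p.1) : ¬ FZero (fun N t => (t, MQ.jet c N t)) g := by
  intro h
  have h1 := h 1
  have h2 : Tendsto (fun t : ℂ => ((t, MQ.jet c 1 t) : ℂ × ℂ)) (𝓝 0) (𝓝 0) := by
    have h3 := (continuous_id.prodMk (jet_differentiable c 1).continuous).tendsto (0 : ℂ)
    have h4 : ((id (0 : ℂ), MQ.jet c 1 0) : ℂ × ℂ) = 0 := by rw [MQ.jet_zero hc]; rfl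
    rwa [h4] at h3
  have h5 : (fun t : ℂ => t) =O[𝓝 0] fun t : ℂ => t ^ (1 + 1) := by
    refine h1.congr' ?_ (Eventually.of_forall fun _ => rfl)
    filter_upwards [h2.eventually hg] with t ht using ht
  obtain ⟨C, hC0, hC⟩ := h5.exists_pos
  rw [isBigOWith_iff] at hC
  have h6 : ∀ᶠ t : ℂ in 𝓝[≠] 0, ‖t‖ < 1 / C := by
    refine nhdsWithin_le_nhds ?_
    filter_upwards [ball_mem_nhds (0 : ℂ) (show 0 < 1 / C by positivity)] with t ht using by simpa using ht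
  have h10 : ∀ᶠ t : ℂ in 𝓝[≠] 0, ‖t‖ ≤ C * ‖t ^ (1 + 1)‖ := nhdsWithin_le_nhds hC
  have h11 : ∀ᶠ t : ℂ in 𝓝[≠] 0, t ≠ 0 := self_mem_nhdsWithin
  obtain ⟨t, h7, h8, h9⟩ := (h6.and (h10.and h11)).exists
  have ht0 : 0 < ‖t‖ := norm_pos_iff.2 h9
  rw [norm_pow] at h8
  rw [lt_div_iff₀ hC0] at h7
  have h12 : C * ‖t‖ ^ (1 + 1) = (‖t‖ * C) * ‖t‖ := by ring
  have h13 : (‖t‖ * C) * ‖t‖ < 1 * ‖t‖ := mul_lt_mul_of_pos_right h7 ht0
  linarith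

theorem good_formal {k : ℕ} (hk : 1 ≤ k) {a b : ℂ × ℂ → ℂ} (ha : AnalyticAt ℂ a 0) (hb : AnalyticAt ℂ b 0) (ha0 : a 0 ≠ 0) (hb0 : b 0 = 0)
    (hb1 : fderiv ℂ b 0 (0, 1) ≠ 0) {c : ℕ → ℂ} (hc : c 0 = 0)
    (hJ : ∀ J, (fun t => b (t, jet c J t) - deriv (jet c J) t * (t ^ (k + 1) * a (t, jet c J t))) =O[𝓝 0] fun t : ℂ => t ^ (J + 1)) :
    Good (fun g J => (∀ᶠ p in 𝓝 (0 : ℂ × ℂ), g p = p.1) ∧ ∀ᶠ p in 𝓝 (0 : ℂ × ℂ), J p = p.1 ^ (k + 1)) fun p => (p.1 ^ (k + 1) * a p, b p) := by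
  refine ⟨1, fun _ N t => (t, jet c N t), fun _ => sep_formal hk ha hb hb0 hb1 hc hJ, fun g J hP hW _ => ?_⟩
  obtain ⟨hg, hJJ⟩ := hP
  obtain ⟨C₀, hC₀, H⟩ := localN1_formal_dens hk ha hb ha0 hb1 hc hJ
  set v : ℂ × ℂ → ℂ × ℂ := fun p => (p.1 ^ (k + 1) * a p, b p) with hv
  have hvan : AnalyticAt ℂ v 0 := ((analyticAt_fst.pow _).mul ha).prod hb
  have hiso : ∀ᶠ q in 𝓝 (0 : ℂ × ℂ), q ≠ 0 → v q ≠ 0 := iso_formal ha hb ha0 hb0 hb1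
  filter_upwards [ev_closedBall ha.eventually_analyticAt, ev_closedBall hb.eventually_analyticAt, ev_closedBall (ha.continuousAt.eventually_ne ha0),
    ev_closedBall hg, ev_closedBall hJJ, ev_closedBall hiso, DD_cof hvan hiso hW, self_mem_nhdsWithin]
    with r a1 a2 a3 a5 a6 a7 a8 a9
  intro s hs hsr B hB
  have hr : 0 < r := a9
  refine ⟨1, C₀, zero_le_one, hC₀, fun d n q ψ hd hn hq hψ hord M F Q lm Om p hD => ?_⟩
  obtain ⟨_, -, h1⟩ := a8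
  have hc1 : Crv1 v r Om p := hD.crv
  have hmem : ∀ z ∈ Om, p z ∈ closedBall (0 : ℂ × ℂ) r := fun z hz => ball_subset_closedBall (hc1.mem z hz)
  have hgz : ∀ z ∈ Om, p z ≠ 0 → g (p z) ≠ 0 := fun z hz h0 => (h1 Om p hc1 hD.g_ne z hz (a7 _ (hmem z hz) h0)).1
  have hgz' : ∀ z ∈ Om, p z ≠ 0 → (fun q : ℂ × ℂ => q.1) (p z) ≠ 0 := by
    intro z hz h0
    have := hgz z hz h0
    rwa [a5 _ (hmem z hz)] at this
  obtain ⟨n', hnn', hn'⟩ : HasOrd (fun N t => (t, jet c N t)) q n := by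
    rcases hord 0 with h2 | h2
    · exact absurd h2 (fzero_formal_false hc hg)
    · exact h2
  obtain ⟨c', hc', hrel⟩ := hD.Q_eq
  have hv0 : ∀ p ∈ closedBall (0 : ℂ × ℂ) r, v p = 0 → p = 0 := fun p hp h0 => by
    by_contra h2
    exact a7 p hp h2 h0
  have hN := H hr a1 a2 (v := v) (fun _ => rfl) hv0 (l := fun q => q.1) (Or.inl fun _ => rfl) hq (hn.trans hnn') hn' hψ d hD.F_diff hD.F_ne hD.Q_diff
    hD.Q_le hc' hc1 hrel hgz' hD.lm_cont hD.lam_le hs hsr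
  have hd0 : (0 : ℝ) ≤ d := Nat.cast_nonneg d
  have hn0 : (0 : ℝ) < n := by exact_mod_cast hn
  have hnr : (n : ℝ) ≤ n' := by exact_mod_cast hnn'
  have hI : ∀ R, 1 ≤ R → 0 ≤ ∫ z, tau R z * lm z ^ 2 := fun R hR =>
    integral_nonneg fun z => mul_nonneg (Pool.Agent.H30M.tau_nonneg hR z) (sq_nonneg _)
  have hN' : LocalN1 v g Om p (fun R => ∫ z, tau R z * lm z ^ 2) (fun R => ∫ z, ‖gr (tau R) z‖ * lm z) s (C₀ * d / n) :=
    (LocalN1.congr_weight hc1 (fun q hq => a5 q (ball_subset_closedBall hq)) hN).mono hI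
      (div_le_div_of_nonneg_left (by positivity) hn0 hnr)
  -- the pointwise bound
  obtain ⟨Cb, hCb⟩ := (isCompact_closedBall (0 : ℂ × ℂ) r).bddAbove_image (f := fun q => ‖a q‖⁻¹)
    (ContinuousOn.inv₀ (fun q hq => (a1 q hq).continuousAt.norm.continuousWithinAt) fun q hq => norm_ne_zero_iff.2 (a3 q hq))
  have hCb0 : 0 ≤ Cb := by
    have h0 : (0 : ℂ × ℂ) ∈ closedBall (0 : ℂ × ℂ) r := mem_closedBall_self hr.le
    exact (inv_nonneg.2 (norm_nonneg (a 0))).trans (hCb ⟨0, h0, rfl⟩)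
  refine locX_of_localN1 (C₁ := Cb * r * B) hB (by positivity) hD.lm_cont hD.lm_nonneg hD.lm_ge hN' fun z hz _ => ?_
  have hz' := hmem z hz
  rw [a5 _ hz', a6 _ hz']
  by_cases hx : (p z).1 = 0
  · rw [hx, norm_zero, mul_zero, zero_mul]
    exact mul_nonneg (by positivity) (hD.lm_nonneg z)
  · have hx0 : 0 < ‖(p z).1‖ := norm_pos_iff.2 hx
    have ha' : 0 < ‖a (p z)‖ := norm_pos_iff.2 (a3 _ hz')
    have hv1 : (v (p z)).1 ≠ 0 := mul_ne_zero (pow_ne_zero _ hx) (a3 _ hz')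
    rw [hc1.ztv_fst hz hv1]
    have hv1' : (v (p z)).1 = (p z).1 ^ (k + 1) * a (p z) := rfl
    rw [hv1', norm_div, norm_mul, norm_pow]
    have h2 : ‖(p z).1‖ ≤ r := by
      have := norm_fst_le (p z)
      rw [mem_closedBall_zero_iff] at hz'
      linarith
    have h3 : ‖(deriv p z).1‖ ≤ B * lm z := (norm_fst_le _).trans (hD.lm_ge z hz)
    have h4 : ‖a (p z)‖⁻¹ ≤ Cb := hCb ⟨p z, hz', rfl⟩
    have e : ‖(deriv p z).1‖ / (‖(p z).1‖ ^ (k + 1) * ‖a (p z)‖) * ‖(p z).1‖ * ‖(p z).1‖ ^ (k + 1) =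
        ‖a (p z)‖⁻¹ * ‖(p z).1‖ * ‖(deriv p z).1‖ := by
      field_simp
    have e' : ‖(p z).1 ^ (k + 1)‖ = ‖(p z).1‖ ^ (k + 1) := norm_pow _ _
    have hBl : 0 ≤ B * lm z := mul_nonneg hB (hD.lm_nonneg z)
    rw [e]
    calc ‖a (p z)‖⁻¹ * ‖(p z).1‖ * ‖(deriv p z).1‖ ≤ Cb * r * (B * lm z) :=
          mul_le_mul (mul_le_mul h4 h2 (by positivity) hCb0) h3 (norm_nonneg _) (by positivity)
      _ = Cb * r * B * lm z := by ring

end Pool.Agent.MQ2
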