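import Pool.Agent.MQ2.Defs

/-!
# MQ2 TLoc: from `LocalN1` to `LocX`, with `Φ = 0` and the same density; classes of weights
-/

set_option autoImplicit false

open Topology Filter Metric MeasureTheory Asymptotics Laplacian

noncomputable section

namespace Pool.Agent.MQ2

open Pool.Agent.H36.BP (EN)
open Pool.Agent.H30M (tau LogSing)
open Pool.Agent.MQ

theorem locX_of_localN1 {v : ℂ × ℂ → ℂ × ℂ} {g J : ℂ × ℂ → ℂ} {Om : Set ℂ} {p : ℂ → ℂ × ℂ} {lm : ℂ → ℝ} {s δ B C₁ : ℝ} (hB : 0 ≤ B) (hC₁ : 0 ≤ C₁)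
    (hlc : Continuous lm) (hl0 : ∀ z, 0 ≤ lm z) (hp : ∀ z ∈ Om, ‖deriv p z‖ ≤ B * lm z)
    (h : LocalN1 v g Om p (fun R => ∫ z, tau R z * lm z ^ 2) (fun R => ∫ z, ‖gr (tau R) z‖ * lm z) s δ)
    (hpt : ∀ z ∈ Om, ztv v p z ≠ 0 → ‖ztv v p z‖ * ‖g (p z)‖ * ‖J (p z)‖ ≤ C₁ * lm z) : LocX v g J Om p lm s 1 δ := by
  obtain ⟨C, η, err, hC, hη, herr, hout, hin, he0, hdv, hint⟩ := h
  have hL : ∀ R : ℝ, 0 ≤ ∫ z, ‖gr (tau R) z‖ * lm z := fun R => integral_nonneg fun z => mul_nonneg (norm_nonneg _) (hl0 z)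
  refine ⟨max (C * B) (max C (Real.log (1 + C₁))), lm, η, fun _ => 0, err, le_max_of_le_left (mul_nonneg hC hB), hlc, fun z => le_rfl, fun R _ => ?_, hη, herr,
    fun z _ => ⟨0, ?_⟩, fun z hz hs => ⟨(hout z hz hs).1, (hout z hz hs).2, rfl⟩, fun z hz hs => ?_, fun z hz _ => ?_, fun z hz _ h1 h2 h3 => ?_, fun R hR => ?_⟩
  · rw [one_mul]
    exact le_add_of_nonneg_right (le_max_of_le_left (mul_nonneg hC hB))
  · refine ⟨fun _ => 0, contDiff_const.contDiffAt, Eventually.of_forall fun w => by simp⟩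
  · refine (hin z hz hs).trans ?_
    calc C * ‖deriv p z‖ ≤ C * (B * lm z) := mul_le_mul_of_nonneg_left (hp z hz) hC
      _ = C * B * lm z := by ring
      _ ≤ _ := mul_le_mul_of_nonneg_right (le_max_left _ _) (hl0 z)
  · have h0 : Δ (fun _ : ℂ => (0 : ℝ)) z = 0 := by
      rw [InnerProductSpace.laplacian_const]
      rfl
    rw [h0, add_zero]
    exact hdv z hz
  · have h4 := hpt z hz h1
    have h5 : Real.log ‖ztv v p z‖ + Real.log ‖g (p z)‖ + Real.log ‖J (p z)‖ = Real.log (‖ztv v p z‖ * ‖g (p z)‖ * ‖J (p z)‖) := by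
      rw [Real.log_mul (mul_ne_zero (norm_ne_zero_iff.2 h1) (norm_ne_zero_iff.2 h2)) (norm_ne_zero_iff.2 h3), Real.log_mul (norm_ne_zero_iff.2 h1) (norm_ne_zero_iff.2 h2)]
    rw [h5, add_zero]
    have h6 : 0 < ‖ztv v p z‖ * ‖g (p z)‖ * ‖J (p z)‖ :=
      mul_pos (mul_pos (norm_pos_iff.2 h1) (norm_pos_iff.2 h2)) (norm_pos_iff.2 h3)
    have h7 : C₁ * lm z ≤ (1 + C₁) * (1 + lm z) := by nlinarith [hl0 z]
    calc Real.log (‖ztv v p z‖ * ‖g (p z)‖ * ‖J (p z)‖) ≤ Real.log ((1 + C₁) * (1 + lm z)) := Real.log_le_log h6 (h4.trans h7)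
      _ = Real.log (1 + C₁) + Real.log (1 + lm z) := Real.log_mul (by linarith) (by linarith [hl0 z])
      _ ≤ _ := by gcongr; exact (le_max_right _ _).trans (le_max_right _ _)
  · refine (hint R hR).trans ?_
    have h1 : C ≤ max (C * B) (max C (Real.log (1 + C₁))) := (le_max_left _ _).trans (le_max_right _ _)
    have h2 := mul_le_mul_of_nonneg_right h1 (hL R)
    simp only at h2 ⊢
    linarith

/-! ### classes of weights -/

theorem good_of_wt {v : ℂ × ℂ → ℂ × ℂ} {P P' : (ℂ × ℂ → ℂ) → (ℂ × ℂ → ℂ) → Prop} (h : Good P' v)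
    (hP : ∀ g J, P g J → Wt v g → AnalyticAt ℂ J 0 → P' g J) : Good P v := by
  obtain ⟨m, c, hc, h1⟩ := h
  exact ⟨m, c, hc, fun g J hg hw hJ => h1 g J (hP g J hg hw hJ) hw hJ⟩

theorem good_or {v : ℂ × ℂ → ℂ × ℂ} {P P' : (ℂ × ℂ → ℂ) → (ℂ × ℂ → ℂ) → Prop} (h : Good P v) (h' : Good P' v) :
    Good (fun g J => P g J ∨ P' g J) v := by
  obtain ⟨m, c, hc, h1⟩ := h
  obtain ⟨m', c', hc', h1'⟩ := h'
  refine ⟨m + m', Fin.append c c', ?_, ?_⟩
  · intro i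
    refine Fin.addCases (fun i => ?_) (fun i => ?_) i
    · rw [Fin.append_left]; exact hc i
    · rw [Fin.append_right]; exact hc' i
  · intro g J hg hw hJ
    rcases hg with hg | hg
    · filter_upwards [h1 g J hg hw hJ] with r hr s hs hsr B hB
      obtain ⟨A, C₀, hA, hC₀, h2⟩ := hr s hs hsr B hB
      refine ⟨A, C₀, hA, hC₀, fun d n q ψ hd hn hq hψ hi => h2 d n q ψ hd hn hq hψ fun i => ?_⟩
      have := hi (Fin.castAdd m' i)
      rwa [Fin.append_left] at this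
    · filter_upwards [h1' g J hg hw hJ] with r hr s hs hsr B hB
      obtain ⟨A, C₀, hA, hC₀, h2⟩ := hr s hs hsr B hB
      refine ⟨A, C₀, hA, hC₀, fun d n q ψ hd hn hq hψ hi => h2 d n q ψ hd hn hq hψ fun i => ?_⟩
      have := hi (Fin.natAdd m i)
      rwa [Fin.append_right] at this

end Pool.Agent.MQ2
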