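import Pool.Agent.MQ2.RegE
import Pool.Agent.MQ2.TLoc
import Pool.Agent.MQ.SNLocN

/-!
# MQ2 TSN: a saddle-node with both axes in the weight
-/

set_option autoImplicit false

open Topology Filter Metric MeasureTheory Asymptotics Laplacian

noncomputable section

namespace Pool.Agent.MQ2

open Pool.Agent.H36.BP (EN)
open Pool.Agent.H30M (tau LogSing)
open Pool.Agent.MQ

/-- the field depends only on the values of the weight in the ball -/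
theorem DDv_congr_weight {v : ℂ × ℂ → ℂ × ℂ} {g g' : ℂ × ℂ → ℂ} {r : ℝ} {Om : Set ℂ} {p : ℂ → ℂ × ℂ} (hc : Crv1 v r Om p)
    (h : ∀ q ∈ ball (0 : ℂ × ℂ) r, g q = g' q) {z : ℂ} (hz : z ∈ Om) : DDv v g p z = DDv v g' p z := by
  have e : (fun w => g (p w)) =ᶠ[𝓝 z] fun w => g' (p w) := by
    filter_upwards [hc.isOpen.mem_nhds hz] with w hw
    exact h _ (hc.mem w hw)
  unfold DDv
  rw [e.deriv_eq, h _ (hc.mem z hz)]

theorem LocalN1.congr_weight {v : ℂ × ℂ → ℂ × ℂ} {g g' : ℂ × ℂ → ℂ} {r : ℝ} {Om : Set ℂ} {p : ℂ → ℂ × ℂ} (hc : Crv1 v r Om p)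
    (h : ∀ q ∈ ball (0 : ℂ × ℂ) r, g q = g' q) {I Λ : ℝ → ℝ} {s δ : ℝ} (hN : LocalN1 v g' Om p I Λ s δ) : LocalN1 v g Om p I Λ s δ := by
  obtain ⟨C, η, err, h1, h2, h3, h4, h5⟩ := hN
  refine ⟨C, η, err, h1, h2, h3, fun z hz hz' => ?_, h5⟩
  rw [DDv_congr_weight hc h hz]
  exact h4 z hz hz'

/-- small radii -/
theorem ev_closedBall {Q : ℂ × ℂ → Prop} (h : ∀ᶠ q in 𝓝 (0 : ℂ × ℂ), Q q) : ∀ᶠ r in 𝓝[>] (0 : ℝ), ∀ q ∈ closedBall (0 : ℂ × ℂ) r, Q q := by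
  obtain ⟨e, he, h1⟩ := Metric.eventually_nhds_iff_ball.1 h
  filter_upwards [mem_nhdsWithin_of_mem_nhds (gt_mem_nhds he)] with r hr q hq
  exact h1 q (closedBall_subset_ball hr hq)

/-- the package of a saddle-node with both axes in the weight: every positive error -/
theorem locX_sn {k : ℕ} (hk : 1 ≤ k) {a b : ℂ × ℂ → ℂ} (ha : AnalyticAt ℂ a 0) (hb : AnalyticAt ℂ b 0) (ha0 : a 0 ≠ 0) (hb0 : b 0 ≠ 0)
    {g J : ℂ × ℂ → ℂ} (hg : ∀ᶠ p in 𝓝 (0 : ℂ × ℂ), g p = p.1 * p.2) (hJ : ∀ᶠ p in 𝓝 (0 : ℂ × ℂ), J p = p.1 ^ (k + 1))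
    (hW : Wt (fun p => (p.1 ^ (k + 1) * a p, p.2 * b p)) g) :
    ∀ᶠ r in 𝓝[>] (0 : ℝ), ∀ s, 0 < s → ∀ B, 0 ≤ B → ∀ (lm : ℂ → ℝ) (Om : Set ℂ) (p : ℂ → ℂ × ℂ), Crv1 (fun p => (p.1 ^ (k + 1) * a p, p.2 * b p)) r Om p →
      (∀ z ∈ Om, ∃ᶠ w in 𝓝 z, g (p w) ≠ 0) → Continuous lm → (∀ z, 0 ≤ lm z) → (∀ z ∈ Om, ‖deriv p z‖ ≤ B * lm z) → ∀ δ, 0 < δ →
        LocX (fun p => (p.1 ^ (k + 1) * a p, p.2 * b p)) g J Om p lm s 1 δ := by
  set v : ℂ × ℂ → ℂ × ℂ := fun p => (p.1 ^ (k + 1) * a p, p.2 * b p) with hv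
  have hvan : AnalyticAt ℂ v 0 := ((analyticAt_fst.pow _).mul ha).prod (analyticAt_snd.mul hb)
  have hiso : ∀ᶠ q in 𝓝 (0 : ℂ × ℂ), q ≠ 0 → v q ≠ 0 := by
    filter_upwards [ha.continuousAt.eventually_ne ha0, hb.continuousAt.eventually_ne hb0] with q h1 h2 h3 h4
    have h5 : q.1 ^ (k + 1) * a q = 0 := congrArg Prod.fst h4
    have h6 : q.2 * b q = 0 := congrArg Prod.snd h4
    refine h3 (Prod.ext ?_ ((mul_eq_zero.1 h6).resolve_right h2))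
    exact pow_eq_zero_iff (by omega) |>.1 ((mul_eq_zero.1 h5).resolve_right h1)
  filter_upwards [ev_closedBall ha.eventually_analyticAt, ev_closedBall hb.eventually_analyticAt, ev_closedBall (ha.continuousAt.eventually_ne ha0),
    ev_closedBall (hb.continuousAt.eventually_ne hb0), ev_closedBall hg, ev_closedBall hJ, ev_closedBall hiso, DD_cof hvan hiso hW, self_mem_nhdsWithin]
    with r a1 a2 a3 a4 a5 a6 a7 a8 a9
  intro s hs B hB lm Om p hc hgne hlc hl0 hp δ hδ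
  obtain ⟨_, -, h1⟩ := a8
  have hmem : ∀ z ∈ Om, p z ∈ closedBall (0 : ℂ × ℂ) r := fun z hz => ball_subset_closedBall (hc.mem z hz)
  have hgz : ∀ z ∈ Om, p z ≠ 0 → g (p z) ≠ 0 := fun z hz h0 => (h1 Om p hc hgne z hz (a7 _ (hmem z hz) h0)).1
  have hgz' : ∀ z ∈ Om, p z ≠ 0 → (fun q : ℂ × ℂ => q.1 * q.2) (p z) ≠ 0 := by
    intro z hz h0
    have := hgz z hz h0
    rwa [a5 _ (hmem z hz)] at this
  have hN := localN1_saddleNode (g := fun q => q.1 * q.2) (g₁ := fun q => q.1) hc hk a1 a2 a3 a4 (fun _ => rfl) (fun _ => rfl) (Or.inl fun _ => rfl) hgz' hlc hp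
    (I := fun R => ∫ z, tau R z * lm z ^ 2) (Λ := fun R => ∫ z, ‖gr (tau R) z‖ * lm z) (fun R _ => le_rfl)
    (fun R _ => integral_nonneg fun z => mul_nonneg (norm_nonneg _) (hl0 z)) hs hδ
  have hN' : LocalN1 v g Om p (fun R => ∫ z, tau R z * lm z ^ 2) (fun R => ∫ z, ‖gr (tau R) z‖ * lm z) s δ :=
    LocalN1.congr_weight hc (fun q hq => a5 q (ball_subset_closedBall hq)) hN
  -- the pointwise bound
  have hr : 0 < r := a9
  obtain ⟨Cb, hCb⟩ := (isCompact_closedBall (0 : ℂ × ℂ) r).bddAbove_image (f := fun q => ‖b q‖⁻¹)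
    (ContinuousOn.inv₀ (fun q hq => (a2 q hq).continuousAt.norm.continuousWithinAt) fun q hq => norm_ne_zero_iff.2 (a4 q hq))
  have hCb0 : 0 ≤ Cb := by
    have h0 : (0 : ℂ × ℂ) ∈ closedBall (0 : ℂ × ℂ) r := mem_closedBall_self hr.le
    exact (inv_nonneg.2 (norm_nonneg (b 0))).trans (hCb ⟨0, h0, rfl⟩)
  refine locX_of_localN1 (C₁ := Cb * r ^ (k + 2) * B) hB (by positivity) hlc hl0 hp hN' fun z hz hzt => ?_
  have hz' := hmem z hz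
  rw [a5 _ hz', a6 _ hz']
  by_cases hy : (p z).2 = 0
  · rw [hy, mul_zero, norm_zero, mul_zero, zero_mul]
    exact mul_nonneg (by positivity) (hl0 z)
  · have hy0 : 0 < ‖(p z).2‖ := norm_pos_iff.2 hy
    have hb' : 0 < ‖b (p z)‖ := norm_pos_iff.2 (a4 _ hz')
    have hv2 : (v (p z)).2 ≠ 0 := mul_ne_zero hy (a4 _ hz')
    rw [ztv_snd hv2]
    have hv2' : (v (p z)).2 = (p z).2 * b (p z) := rfl
    rw [hv2', norm_div, norm_mul, norm_mul, norm_pow]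
    have h2 : ‖(p z).1‖ ≤ r := by
      have := norm_fst_le (p z)
      rw [mem_closedBall_zero_iff] at hz'
      linarith
    have h3 : ‖(deriv p z).2‖ ≤ B * lm z := (norm_snd_le _).trans (hp z hz)
    have h4 : ‖b (p z)‖⁻¹ ≤ Cb := hCb ⟨p z, hz', rfl⟩
    have h5 : ‖(p z).1‖ ^ (k + 2) ≤ r ^ (k + 2) := pow_le_pow_left₀ (norm_nonneg _) h2 _
    have e : ‖(deriv p z).2‖ / (‖(p z).2‖ * ‖b (p z)‖) * (‖(p z).1‖ * ‖(p z).2‖) * ‖(p z).1‖ ^ (k + 1) =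
        ‖b (p z)‖⁻¹ * ‖(p z).1‖ ^ (k + 2) * ‖(deriv p z).2‖ := by
      rw [pow_succ' _ (k + 1)]
      field_simp
    rw [e]
    have hBl : 0 ≤ B * lm z := mul_nonneg hB (hl0 z)
    calc ‖b (p z)‖⁻¹ * ‖(p z).1‖ ^ (k + 2) * ‖(deriv p z).2‖ ≤ Cb * r ^ (k + 2) * (B * lm z) :=
          mul_le_mul (mul_le_mul h4 h5 (by positivity) hCb0) h3 (norm_nonneg _) (by positivity)
      _ = Cb * r ^ (k + 2) * B * lm z := by ring

theorem good_sn {k : ℕ} (hk : 1 ≤ k) {a b : ℂ × ℂ → ℂ} (ha : AnalyticAt ℂ a 0) (hb : AnalyticAt ℂ b 0) (ha0 : a 0 ≠ 0) (hb0 : b 0 ≠ 0) :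
    Good (fun g J => (∀ᶠ p in 𝓝 (0 : ℂ × ℂ), g p = p.1 * p.2) ∧ ∀ᶠ p in 𝓝 (0 : ℂ × ℂ), J p = p.1 ^ (k + 1))
      fun p => (p.1 ^ (k + 1) * a p, p.2 * b p) := by
  refine ⟨0, fun i => i.elim0, fun i => i.elim0, fun g J hP hW hJ => ?_⟩
  filter_upwards [locX_sn hk ha hb ha0 hb0 hP.1 hP.2 hW] with r hr
  intro s hs hsr B hB
  refine ⟨1, 1, zero_le_one, zero_le_one, fun d n q ψ hd hn hq hψ _ M F Q lm Om p hD => ?_⟩
  have hd' : (0 : ℝ) < d := by exact_mod_cast hd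
  have hn' : (0 : ℝ) < n := by exact_mod_cast hn
  exact hr s hs B hB lm Om p hD.crv hD.g_ne hD.lm_cont hD.lm_nonneg hD.lm_ge _ (by positivity)

end Pool.Agent.MQ2
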