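import Pool.Agent.MQ2.TTrB
import Pool.Agent.MQ.Bridge
import Pool.Agent.H30M.Key

/-!
# MQ2 TTr: the package in other coordinates
-/

set_option autoImplicit false

open Topology Filter Metric MeasureTheory Asymptotics Laplacian

noncomputable section

namespace Pool.Agent.MQ2

open Pool.Agent.H36.BP (EN)
open Pool.Agent.H30M (tau LogSing)
open Pool.Agent.H17BP (Bihol)
open Pool.Agent.MQ

/-- the class in the coordinates `θ`, up to a unit -/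
def TrP (θ : ℂ × ℂ → ℂ × ℂ) (P : (ℂ × ℂ → ℂ) → (ℂ × ℂ → ℂ) → Prop) (g J : ℂ × ℂ → ℂ) : Prop :=
  ∃ G K u κ : ℂ × ℂ → ℂ, P G K ∧ AnalyticAt ℂ G 0 ∧ AnalyticAt ℂ K 0 ∧ AnalyticAt ℂ u 0 ∧ u 0 ≠ 0 ∧ AnalyticAt ℂ κ 0 ∧
    (∀ᶠ p in 𝓝 (0 : ℂ × ℂ), g p = G (θ p) * u p) ∧ ∀ᶠ p in 𝓝 (0 : ℂ × ℂ), J p = K (θ p) * κ p

namespace TTr

variable {θ ϑ v V : ℂ × ℂ → ℂ × ℂ} {g G J K u κ : ℂ × ℂ → ℂ} {r s R : ℝ} {Om : Set ℂ} {p : ℂ → ℂ × ℂ}

theorem eventually_pt (h : Bi θ ϑ) (hv : AnalyticAt ℂ v 0) (hV : AnalyticAt ℂ V 0) (hpush : ∀ᶠ p in 𝓝 (0 : ℂ × ℂ), V (θ p) = fderiv ℂ θ p (v p))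
    (hg : AnalyticAt ℂ g 0) (hG : AnalyticAt ℂ G 0) (hu : AnalyticAt ℂ u 0) (hu0 : u 0 ≠ 0) (hgG : ∀ᶠ p in 𝓝 (0 : ℂ × ℂ), g p = G (θ p) * u p)
    (hJ : AnalyticAt ℂ J 0) (hκ : AnalyticAt ℂ κ 0) (hJK : ∀ᶠ p in 𝓝 (0 : ℂ × ℂ), J p = K (θ p) * κ p) :
    ∀ᶠ q in 𝓝 (0 : ℂ × ℂ), Pt θ ϑ v V g G J K u κ q := by
  filter_upwards [h.an.eventually_analyticAt, h.inv.eventually_nhds, h.tendsto.eventually h.an'.eventually_analyticAt, hv.eventually_analyticAt,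
    h.tendsto.eventually hV.eventually_analyticAt, hpush.eventually_nhds, hg.eventually_analyticAt, h.tendsto.eventually hG.eventually_analyticAt,
    hu.eventually_analyticAt, hu.continuousAt.eventually_ne hu0, hgG.eventually_nhds, hJ.eventually_analyticAt, hκ.eventually_analyticAt, hJK]
    with q a1 a2 a3 a4 a5 a6 a7 a8 a9 a10 a11 a12 a13 a14
  exact ⟨a1, a2, a3, Dt_ne a1 a3 a2, a4, a5, a6, a7, a8, a9, a10, a11, a12, a13, a14⟩

theorem ev_ball {A : ℂ × ℂ → Prop} (h : ∀ᶠ q in 𝓝 (0 : ℂ × ℂ), A q) : ∀ᶠ r in 𝓝[>] (0 : ℝ), ∀ q ∈ closedBall (0 : ℂ × ℂ) r, A q := by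
  obtain ⟨ε, hε, hε'⟩ := Metric.eventually_nhds_iff_ball.1 h
  filter_upwards [Ioo_mem_nhdsGT hε] with r hr q hq
  exact hε' q (closedBall_subset_ball hr.2 hq)

theorem exists_bd {f : ℂ × ℂ → ℝ} (hf : ContinuousOn f (closedBall 0 r)) : ∃ C : ℝ, 1 ≤ C ∧ ∀ q ∈ closedBall (0 : ℂ × ℂ) r, f q ≤ C := by
  obtain ⟨C, hC⟩ := (isCompact_closedBall (0 : ℂ × ℂ) r).exists_bound_of_continuousOn hf
  exact ⟨max C 1, le_max_right _ _, fun q hq => ((Real.le_norm_self _).trans (hC q hq)).trans (le_max_left _ _)⟩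

/-- the part of the curve near the center, in the coordinates `θ` -/
def Omθ (θ : ℂ × ℂ → ℂ × ℂ) (Om : Set ℂ) (p : ℂ → ℂ × ℂ) (R : ℝ) : Set ℂ := {z | z ∈ Om ∧ θ (p z) ∈ ball (0 : ℂ × ℂ) R}

theorem cont_θp (hPt : ∀ q ∈ closedBall (0 : ℂ × ℂ) r, Pt θ ϑ v V g G J K u κ q) (hp : Crv1 v r Om p) : ContinuousOn (fun z => θ (p z)) Om := fun z hz =>
  (ContinuousAt.comp (f := p) (g := θ) (hPt _ (ball_subset_closedBall (hp.mem z hz))).θan.continuousAt (hp.an z hz).continuousAt).continuousWithinAt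

theorem isOpen_Omθ (hPt : ∀ q ∈ closedBall (0 : ℂ × ℂ) r, Pt θ ϑ v V g G J K u κ q) (hp : Crv1 v r Om p) (R : ℝ) : IsOpen (Omθ θ Om p R) :=
  (cont_θp hPt hp).isOpen_inter_preimage hp.isOpen isOpen_ball

/-- the curve in the coordinates `θ` -/
theorem crv_tr (hPt : ∀ q ∈ closedBall (0 : ℂ × ℂ) r, Pt θ ϑ v V g G J K u κ q) (hp : Crv1 v r Om p) (hs : s < r)
    (hR : ∀ q ∈ closedBall (0 : ℂ × ℂ) r, θ q ∈ ball (0 : ℂ × ℂ) R → q ∈ ball (0 : ℂ × ℂ) s) : Crv1 V R (Omθ θ Om p R) fun z => θ (p z) := by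
  refine ⟨isOpen_Omθ hPt hp R, fun z hz => ?_, fun z hz => hz.2, fun S hS => ?_, fun z hz => ?_⟩
  · exact (hPt _ (ball_subset_closedBall (hp.mem z hz.1))).θan.comp (hp.an z hz.1)
  · have h1 : {z | z ∈ Omθ θ Om p R ∧ θ (p z) ∈ closedBall (0 : ℂ × ℂ) S} =
        {z | z ∈ Om ∧ p z ∈ closedBall (0 : ℂ × ℂ) s} ∩ (fun z => θ (p z)) ⁻¹' closedBall (0 : ℂ × ℂ) S := by
      ext z
      constructor
      · rintro ⟨h2, h3⟩
        exact ⟨⟨h2.1, ball_subset_closedBall (hR _ (ball_subset_closedBall (hp.mem z h2.1)) h2.2)⟩, h3⟩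
      · rintro ⟨h2, h3⟩
        exact ⟨⟨h2.1, closedBall_subset_ball hS h3⟩, h3⟩
    rw [h1]
    exact ((cont_θp hPt hp).mono fun z hz => hz.1).preimage_isClosed_of_isClosed (hp.closed s hs) isClosed_closedBall
  · have hq := hPt _ (ball_subset_closedBall (hp.mem z hz.1))
    rw [deriv_θp hq.θan (hp.an z hz.1), hq.push.self_of_nhds, wedge, hp.ode z hz.1, mul_zero]

theorem norm_hh_le (hPt : ∀ q ∈ closedBall (0 : ℂ × ℂ) r, Pt θ ϑ v V g G J K u κ q) : ∃ C : ℝ, 1 ≤ C ∧ ∀ (Om : Set ℂ) (p : ℂ → ℂ × ℂ), Crv1 v r Om p →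
    ∀ z ∈ Om, ‖hh θ u p z‖ ≤ C * ‖deriv p z‖ := by
  have hc : ContinuousOn (fun q => ‖fderiv ℂ (Dt θ) q‖ / ‖Dt θ q‖ + ‖fderiv ℂ u q‖ / ‖u q‖) (closedBall 0 r) := by
    intro q hq
    have h := hPt q hq
    have h1 := analyticAt_Dt h.θan
    exact ((h1.fderiv.continuousAt.norm.div h1.continuousAt.norm (norm_ne_zero_iff.2 h.D_ne)).add
      (h.uan.fderiv.continuousAt.norm.div h.uan.continuousAt.norm (norm_ne_zero_iff.2 h.u_ne))).continuousWithinAt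
  obtain ⟨C, hC1, hC⟩ := exists_bd hc
  refine ⟨C, hC1, fun Om p hp z hz => ?_⟩
  have hb := ball_subset_closedBall (hp.mem z hz)
  have h := hPt _ hb
  have hpz := (hp.an z hz).differentiableAt.hasDerivAt
  have hD : HasDerivAt (fun w => Dt θ (p w)) (fderiv ℂ (Dt θ) (p z) (deriv p z)) z :=
    (analyticAt_Dt h.θan).differentiableAt.hasFDerivAt.comp_hasDerivAt z hpz
  have hU : HasDerivAt (fun w => u (p w)) (fderiv ℂ u (p z) (deriv p z)) z := h.uan.differentiableAt.hasFDerivAt.comp_hasDerivAt z hpz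
  unfold hh
  rw [hD.deriv, hU.deriv]
  calc _ ≤ ‖fderiv ℂ (Dt θ) (p z) (deriv p z) / Dt θ (p z)‖ + ‖fderiv ℂ u (p z) (deriv p z) / u (p z)‖ := norm_add_le _ _
    _ ≤ ‖fderiv ℂ (Dt θ) (p z)‖ * ‖deriv p z‖ / ‖Dt θ (p z)‖ + ‖fderiv ℂ u (p z)‖ * ‖deriv p z‖ / ‖u (p z)‖ := by
        rw [norm_div, norm_div]
        gcongr
        · exact ContinuousLinearMap.le_opNorm _ _
        · exact ContinuousLinearMap.le_opNorm _ _
    _ = (‖fderiv ℂ (Dt θ) (p z)‖ / ‖Dt θ (p z)‖ + ‖fderiv ℂ u (p z)‖ / ‖u (p z)‖) * ‖deriv p z‖ := by ring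
    _ ≤ C * ‖deriv p z‖ := mul_le_mul_of_nonneg_right (hC _ hb) (norm_nonneg _)

theorem norm_θp_le (hPt : ∀ q ∈ closedBall (0 : ℂ × ℂ) r, Pt θ ϑ v V g G J K u κ q) : ∃ C : ℝ, 1 ≤ C ∧ ∀ (Om : Set ℂ) (p : ℂ → ℂ × ℂ), Crv1 v r Om p →
    ∀ z ∈ Om, ‖deriv (fun w => θ (p w)) z‖ ≤ C * ‖deriv p z‖ := by
  have hc : ContinuousOn (fun q => ‖fderiv ℂ θ q‖) (closedBall 0 r) := fun q hq => (hPt q hq).θan.fderiv.continuousAt.norm.continuousWithinAt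
  obtain ⟨C, hC1, hC⟩ := exists_bd hc
  refine ⟨C, hC1, fun Om p hp z hz => ?_⟩
  have hb := ball_subset_closedBall (hp.mem z hz)
  rw [deriv_θp (hPt _ hb).θan (hp.an z hz)]
  exact (ContinuousLinearMap.le_opNorm _ _).trans (mul_le_mul_of_nonneg_right (hC _ hb) (norm_nonneg _))

/-- **the conclusion in other coordinates** -/
theorem locX_tr {s₀ s' B A δ : ℝ} {lm : ℂ → ℝ} (hθ0 : θ 0 = 0) (hPt : ∀ q ∈ closedBall (0 : ℂ × ℂ) r, Pt θ ϑ v V g G J K u κ q)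
    (hiso : ∀ q ∈ closedBall (0 : ℂ × ℂ) r, v q = 0 → q = 0)
    (hcof : ∃ h : ℂ × ℂ → ℂ, AnalyticOnNhd ℂ h (closedBall 0 r) ∧ ∀ (Om : Set ℂ) (p : ℂ → ℂ × ℂ), Crv1 v r Om p →
      (∀ z ∈ Om, ∃ᶠ w in 𝓝 z, g (p w) ≠ 0) → ∀ z ∈ Om, v (p z) ≠ 0 → g (p z) ≠ 0 ∧ AnalyticAt ℂ (ztv v p) z ∧
        ∀ᶠ w in 𝓝 z, DDv v g p w = h (p w) * ztv v p w)
    (hbd : ∃ C : ℝ, 0 < C ∧ ∀ (Om : Set ℂ) (p : ℂ → ℂ × ℂ), Crv1 v r Om p →
      (∀ z ∈ Om, ∃ᶠ w in 𝓝 z, g (p w) ≠ 0) → ∀ z ∈ Om, p z ∉ ball (0 : ℂ × ℂ) s' → ‖ztv v p z‖ ≤ C * ‖deriv p z‖ ∧ ‖DDv v g p z‖ ≤ C * ‖deriv p z‖)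
    (hs₀ : s₀ < r) (hss : s₀ ≤ s) (hR0 : 0 < R) (hR : ∀ q ∈ closedBall (0 : ℂ × ℂ) r, θ q ∈ ball (0 : ℂ × ℂ) R → q ∈ ball (0 : ℂ × ℂ) s₀)
    (hs' : ∀ q ∈ ball (0 : ℂ × ℂ) s', θ q ∈ ball (0 : ℂ × ℂ) (R / 2)) (hB : 0 ≤ B) (hp : Crv1 v r Om p) (hgne : ∀ z ∈ Om, ∃ᶠ w in 𝓝 z, g (p w) ≠ 0)
    (hlm : ∀ z ∈ Om, ‖deriv p z‖ ≤ B * lm z) (hlm0 : ∀ z, 0 ≤ lm z)
    (hX : LocX V G K (Omθ θ Om p R) (fun z => θ (p z)) lm (R / 2) A δ) : LocX v g J Om p lm s A δ := by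
  classical
  obtain ⟨C₁, l, η₁, Φ₁, err₁, hC₁, hl, hll, hlA, hη₁, herr₁, hΦ₁, hout, hin, hineq, hup, hint⟩ := hX
  obtain ⟨h, hh1, hh2⟩ := hcof
  obtain ⟨C₂, hC₂, hbd⟩ := hbd
  obtain ⟨C₃, hC₃, hC₃'⟩ := norm_hh_le hPt
  have hPtc := hPt
  obtain ⟨Cu, hCu1, hCu⟩ := exists_bd (r := r) (f := fun q => ‖u q‖) fun q hq => (hPt q hq).uan.continuousAt.norm.continuousWithinAt
  obtain ⟨Cκ, hCκ1, hCκ⟩ := exists_bd (r := r) (f := fun q => ‖κ q‖) fun q hq => (hPt q hq).κan.continuousAt.norm.continuousWithinAt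
  obtain ⟨Cg, hCg1, hCg⟩ := exists_bd (r := r) (f := fun q => ‖g q‖) fun q hq => (hPt q hq).gan.continuousAt.norm.continuousWithinAt
  obtain ⟨CJ, hCJ1, hCJ⟩ := exists_bd (r := r) (f := fun q => ‖J q‖) fun q hq => (hPt q hq).Jan.continuousAt.norm.continuousWithinAt
  have hl0 : ∀ z, 0 ≤ l z := fun z => (hlm0 z).trans (hll z)
  have hmem : ∀ z ∈ Om, p z ∈ closedBall (0 : ℂ × ℂ) r := fun z hz => ball_subset_closedBall (hp.mem z hz)
  have hP := crv_tr hPt hp hs₀ hR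
  have hO' := isOpen_Omθ hPt hp R
  -- the outer part
  set Ou : Set ℂ := {z | z ∈ Om ∧ θ (p z) ∉ closedBall (0 : ℂ × ℂ) (R / 2)} with hOu
  have hOuo : IsOpen Ou := (cont_θp hPt hp).isOpen_inter_preimage hp.isOpen isClosed_closedBall.isOpen_compl
  have hcov : ∀ z ∈ Om, z ∉ Omθ θ Om p R → z ∈ Ou := by
    intro z hz h1
    refine ⟨hz, fun h2 => h1 ⟨hz, ?_⟩⟩
    exact closedBall_subset_ball (by linarith) h2
  have hvOu : ∀ z ∈ Om, θ (p z) ∉ ball (0 : ℂ × ℂ) (R / 2) → v (p z) ≠ 0 := by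
    intro z hz h1 h0
    rw [hiso _ (hmem z hz) h0, hθ0] at h1
    exact h1 (mem_ball_self (by linarith))
  have hgz : ∀ z ∈ Om, v (p z) ≠ 0 → g (p z) ≠ 0 := fun z hz hv => (hh2 Om p hp hgne z hz hv).1
  -- `DD` is analytic on the outer part
  have hDDan : ∀ z ∈ Om, v (p z) ≠ 0 → AnalyticAt ℂ (DDv v g p) z := by
    intro z hz hv
    obtain ⟨-, h1, h2⟩ := hh2 Om p hp hgne z hz hv
    have h3 : AnalyticAt ℂ (fun w => h (p w) * ztv v p w) z := ((hh1 _ (hmem z hz)).comp (hp.an z hz)).mul h1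
    exact h3.congr (h2.mono fun w hw => hw.symm)
  set η : ℂ → ℂ := fun z => if z ∈ Omθ θ Om p R then η₁ z - (starRingEnd ℂ) (hh θ u p z) else (starRingEnd ℂ) (DDv v g p z) with hη
  set Φ : ℂ → ℝ := (Omθ θ Om p R).indicator Φ₁ with hΦ
  set err : ℂ → ℝ := (Omθ θ Om p R).indicator err₁ with herr
  -- the values on the outer part
  have vOu : ∀ z ∈ Om, θ (p z) ∉ ball (0 : ℂ × ℂ) (R / 2) → η z = (starRingEnd ℂ) (DDv v g p z) ∧ err z = 0 ∧ Φ z = 0 := by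
    intro z hz h1
    have hv := hvOu z hz h1
    by_cases h2 : z ∈ Omθ θ Om p R
    · obtain ⟨a1, a2, a3⟩ := hout z h2 h1
      refine ⟨?_, ?_, ?_⟩
      · simp only [hη, if_pos h2]
        rw [a1, DDv_tr (hPt _ (hmem z hz)) hp hP hz h2 hv (hgz z hz hv), map_add]
        ring
      · rw [herr, Set.indicator_of_mem h2, a2]
      · rw [hΦ, Set.indicator_of_mem h2, a3]
    · refine ⟨?_, ?_, ?_⟩
      · simp only [hη, if_neg h2]
      · rw [herr, Set.indicator_of_notMem h2]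
      · rw [hΦ, Set.indicator_of_notMem h2]
  have eOu : ∀ z ∈ Ou, η =ᶠ[𝓝 z] (fun w => (starRingEnd ℂ) (DDv v g p w)) ∧ err =ᶠ[𝓝 z] (fun _ => 0) ∧ Φ =ᶠ[𝓝 z] fun _ => 0 := by
    intro z hz
    have h1 : ∀ᶠ w in 𝓝 z, w ∈ Ou := hOuo.mem_nhds hz
    have h2 : ∀ w ∈ Ou, θ (p w) ∉ ball (0 : ℂ × ℂ) (R / 2) := fun w hw h3 => hw.2 (ball_subset_closedBall h3)
    exact ⟨h1.mono fun w hw => (vOu w hw.1 (h2 w hw)).1, h1.mono fun w hw => (vOu w hw.1 (h2 w hw)).2.1, h1.mono fun w hw => (vOu w hw.1 (h2 w hw)).2.2⟩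
  have eIn : ∀ z ∈ Omθ θ Om p R, η =ᶠ[𝓝 z] (fun w => η₁ w - (starRingEnd ℂ) (hh θ u p w)) ∧ err =ᶠ[𝓝 z] err₁ ∧ Φ =ᶠ[𝓝 z] Φ₁ := by
    intro z hz
    have h1 : ∀ᶠ w in 𝓝 z, w ∈ Omθ θ Om p R := hO'.mem_nhds hz
    refine ⟨h1.mono fun w hw => ?_, h1.mono fun w hw => ?_, h1.mono fun w hw => ?_⟩
    · simp only [hη, if_pos hw]
    · rw [herr, Set.indicator_of_mem hw]
    · rw [hΦ, Set.indicator_of_mem hw]
  have hhan : ∀ z ∈ Om, AnalyticAt ℂ (hh θ u p) z := fun z hz => analyticAt_hh (hPt _ (hmem z hz)) (hp.an z hz)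
  -- the constant
  set C : ℝ := max (C₁ + C₃ * B + C₂ * B) (max (C₁ + Real.log Cu + Real.log Cκ) (Real.log (1 + C₂ * B * Cg * CJ))) with hC
  have hC1 : C₁ ≤ C := by
    refine le_trans ?_ (le_max_left _ _)
    nlinarith [mul_nonneg (zero_le_one.trans hC₃) hB, mul_nonneg hC₂.le hB]
  have hC0 : 0 ≤ C := hC₁.trans hC1
  refine ⟨C, l, η, Φ, err, hC0, hl, hll, fun R hR => (hlA R hR).trans (by linarith), ?_, ?_, ?_, ?_, ?_, ?_, ?_, ?_⟩
  · -- `η` is `C¹`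
    intro z hz
    refine ContDiffAt.contDiffWithinAt ?_
    by_cases h1 : z ∈ Omθ θ Om p R
    · refine ContDiffAt.congr_of_eventuallyEq ?_ (eIn z h1).1
      exact (hη₁.contDiffAt (hO'.mem_nhds h1)).sub (contDiffAt_conj_holo (hhan z hz))
    · have h2 := hcov z hz h1
      refine ContDiffAt.congr_of_eventuallyEq ?_ (eOu z h2).1
      exact contDiffAt_conj_holo (hDDan z hz (hvOu z hz fun h3 => h2.2 (ball_subset_closedBall h3)))
  · intro z hz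
    refine ContinuousAt.continuousWithinAt ?_
    by_cases h1 : z ∈ Omθ θ Om p R
    · exact (herr₁.continuousAt (hO'.mem_nhds h1)).congr (eIn z h1).2.1.symm
    · exact continuousAt_const.congr (eOu z (hcov z hz h1)).2.1.symm
  · intro z hz
    by_cases h1 : z ∈ Omθ θ Om p R
    · obtain ⟨c, hc⟩ := hΦ₁ z h1
      exact ⟨c, hc.congr ((eIn z h1).2.2.filter_mono nhdsWithin_le_nhds)⟩
    · exact ⟨0, (LogSing.of_contDiffAt contDiffAt_const).congr ((eOu z (hcov z hz h1)).2.2.filter_mono nhdsWithin_le_nhds)⟩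
  · -- outside
    intro z hz h1
    have h2 : z ∉ Omθ θ Om p R := fun h3 => h1 (ball_subset_ball hss (hR _ (hmem z hz) h3.2))
    refine vOu z hz fun h3 => h2 ⟨hz, ball_subset_ball (by linarith) h3⟩
  · -- the bound
    intro z hz _
    have hlz := hl0 z
    have hpz : ‖deriv p z‖ ≤ B * l z := (hlm z hz).trans (mul_le_mul_of_nonneg_left (hll z) hB)
    have hle : (C₁ + C₃ * B + C₂ * B) * l z ≤ C * l z := mul_le_mul_of_nonneg_right (le_max_left _ _) hlz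
    refine le_trans ?_ hle
    by_cases h1 : θ (p z) ∈ ball (0 : ℂ × ℂ) (R / 2)
    · have h2 : z ∈ Omθ θ Om p R := ⟨hz, ball_subset_ball (by linarith) h1⟩
      have e1 : η z = η₁ z - (starRingEnd ℂ) (hh θ u p z) := (eIn z h2).1.self_of_nhds
      rw [e1]
      calc _ ≤ ‖η₁ z‖ + ‖(starRingEnd ℂ) (hh θ u p z)‖ := norm_sub_le _ _
        _ ≤ C₁ * l z + C₃ * (B * l z) := by
            rw [RCLike.norm_conj]
            refine add_le_add (hin z h2 h1) ((hC₃' Om p hp z hz).trans (mul_le_mul_of_nonneg_left hpz (by linarith)))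
        _ ≤ _ := by nlinarith [mul_nonneg (mul_nonneg hC₂.le hB) hlz]
    · rw [(vOu z hz h1).1, RCLike.norm_conj]
      have h2 : p z ∉ ball (0 : ℂ × ℂ) s' := fun h3 => h1 (hs' _ h3)
      calc _ ≤ C₂ * ‖deriv p z‖ := (hbd Om p hp hgne z hz h2).2
        _ ≤ C₂ * (B * l z) := mul_le_mul_of_nonneg_left hpz hC₂.le
        _ ≤ _ := by nlinarith [mul_nonneg hC₁ hlz, mul_nonneg (mul_nonneg (zero_le_one.trans hC₃) hB) hlz]
  · -- the differential inequality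
    intro z hz hcd
    by_cases h1 : z ∈ Omθ θ Om p R
    · obtain ⟨e1, e2, e3⟩ := eIn z h1
      have h2 : ContDiffAt ℝ 2 Φ₁ z := hcd.congr_of_eventuallyEq e3.symm
      have h3 := hineq z h1 h2
      have h4 : dv η z = dv η₁ z := by
        rw [dv_congr e1, dv_sub ((hη₁.contDiffAt (hO'.mem_nhds h1)).differentiableAt (by norm_num))
          ((contDiffAt_conj_holo (n := 1) (hhan z hz)).differentiableAt (by norm_num)), dv_conj (hhan z hz).differentiableAt, sub_zero]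
      rw [h4, e2.self_of_nhds, Pool.Agent.H30M.lap_congr e3]
      exact h3
    · obtain ⟨e1, e2, e3⟩ := eOu z (hcov z hz h1)
      have h2 := hcov z hz h1
      have h3 : AnalyticAt ℂ (DDv v g p) z := hDDan z hz (hvOu z hz fun h3 => h2.2 (ball_subset_closedBall h3))
      have h4 : Δ (fun _ : ℂ => (0 : ℝ)) z = 0 := by
        simp
      rw [dv_congr e1, dv_conj h3.differentiableAt, e2.self_of_nhds, Pool.Agent.H30M.lap_congr e3, h4]
      simp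
  · -- the upper bound
    intro z hz hcd hzt hgz0 hJz
    have hv : v (p z) ≠ 0 := by
      intro h0
      apply hzt
      unfold ztv
      rw [h0]
      simp
    have hlz := hl0 z
    have hq := hPt _ (hmem z hz)
    by_cases h1 : z ∈ Omθ θ Om p R
    · obtain ⟨e1, e2, e3⟩ := eIn z h1
      have h2 : ContDiffAt ℝ 2 Φ₁ z := hcd.congr_of_eventuallyEq e3.symm
      have e4 := ztv_tr hq hp hP hz h1 hv
      have e5 : g (p z) = G (θ (p z)) * u (p z) := hq.g_eq.self_of_nhds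
      have e6 := hq.J_eq
      have hG : G (θ (p z)) ≠ 0 := fun h0 => hgz0 (by rw [e5, h0, zero_mul])
      have hK : K (θ (p z)) ≠ 0 := fun h0 => hJz (by rw [e6, h0, zero_mul])
      have hκ : κ (p z) ≠ 0 := fun h0 => hJz (by rw [e6, h0, mul_zero])
      have h3 := hup z h1 h2 (by rw [e4]; exact hzt) hG hK
      rw [e4] at h3
      have h4 : Real.log ‖u (p z)‖ ≤ Real.log Cu := Real.log_le_log (norm_pos_iff.2 hq.u_ne) (hCu _ (hmem z hz))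
      have h5 : Real.log ‖κ (p z)‖ ≤ Real.log Cκ := Real.log_le_log (norm_pos_iff.2 hκ) (hCκ _ (hmem z hz))
      rw [e3.self_of_nhds, e5, e6, norm_mul, norm_mul, Real.log_mul (norm_ne_zero_iff.2 hG) (norm_ne_zero_iff.2 hq.u_ne),
        Real.log_mul (norm_ne_zero_iff.2 hK) (norm_ne_zero_iff.2 hκ)]
      have h6 : C₁ + Real.log Cu + Real.log Cκ ≤ C := (le_max_left _ _).trans (le_max_right _ _)
      linarith
    · have h2 := hcov z hz h1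
      have h3 : θ (p z) ∉ ball (0 : ℂ × ℂ) (R / 2) := fun h3 => h2.2 (ball_subset_closedBall h3)
      have h4 : p z ∉ ball (0 : ℂ × ℂ) s' := fun h5 => h3 (hs' _ h5)
      have hpz : ‖deriv p z‖ ≤ B * l z := (hlm z hz).trans (mul_le_mul_of_nonneg_left (hll z) hB)
      have h5 : ‖ztv v p z‖ ≤ C₂ * (B * l z) := ((hbd Om p hp hgne z hz h4).1).trans (mul_le_mul_of_nonneg_left hpz hC₂.le)
      rw [(vOu z hz h3).2.2, add_zero, ← Real.log_mul (norm_ne_zero_iff.2 hzt) (norm_ne_zero_iff.2 hgz0),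
        ← Real.log_mul (mul_ne_zero (norm_ne_zero_iff.2 hzt) (norm_ne_zero_iff.2 hgz0)) (norm_ne_zero_iff.2 hJz)]
      have h6 : ‖ztv v p z‖ * ‖g (p z)‖ * ‖J (p z)‖ ≤ (1 + C₂ * B * Cg * CJ) * (1 + l z) := by
        have a1 : ‖ztv v p z‖ * ‖g (p z)‖ * ‖J (p z)‖ ≤ C₂ * (B * l z) * Cg * CJ := by
          have := hCg _ (hmem z hz)
          have := hCJ _ (hmem z hz)
          gcongr
        have a2 : 0 ≤ C₂ * B * Cg * CJ := by positivity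
        nlinarith
      have h7 : 0 < ‖ztv v p z‖ * ‖g (p z)‖ * ‖J (p z)‖ := by
        have := norm_pos_iff.2 hzt
        have := norm_pos_iff.2 hgz0
        have := norm_pos_iff.2 hJz
        positivity
      have a2 : 0 ≤ C₂ * B * Cg * CJ := by positivity
      have h8 := Real.log_le_log h7 h6
      have h10 : Real.log ((1 + C₂ * B * Cg * CJ) * (1 + l z)) = Real.log (1 + C₂ * B * Cg * CJ) + Real.log (1 + l z) :=
        Real.log_mul (by positivity) (by positivity)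
      rw [h10] at h8
      have h9 : Real.log (1 + C₂ * B * Cg * CJ) ≤ C := (le_max_right _ _).trans (le_max_right _ _)
      linarith
  · -- the error
    intro R' hR'
    have h1 : ∫ z in Om, tau R' z * err z = ∫ z in Omθ θ Om p R, tau R' z * err₁ z := by
      have h2 : (fun z => tau R' z * err z) = (Omθ θ Om p R).indicator fun z => tau R' z * err₁ z := by
        funext z
        rw [herr]
        by_cases h3 : z ∈ Omθ θ Om p R
        · rw [Set.indicator_of_mem h3, Set.indicator_of_mem h3]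
        · rw [Set.indicator_of_notMem h3, Set.indicator_of_notMem h3, mul_zero]
      rw [h2, setIntegral_indicator hO'.measurableSet]
      congr 2
      ext z
      constructor
      · exact fun h3 => h3.2
      · exact fun h3 => ⟨h3.1, h3⟩
    rw [h1]
    have h2 := hint R' hR'
    have h3 : 0 ≤ ∫ z, ‖gr (tau R') z‖ * l z := integral_nonneg fun z => mul_nonneg (norm_nonneg _) (hl0 z)
    nlinarith [mul_le_mul_of_nonneg_right hC1 h3]

end TTr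

open TTr

/-- **Module TTr.**  The separatrices are `θ⁻¹ ∘ c`; `D` changes by the logarithmic derivatives of `det θ'` and `u`; `dv (conj h') = 0`. -/
theorem good_tr {θ : ℂ × ℂ → ℂ × ℂ} (hθ : Bihol θ) {v V : ℂ × ℂ → ℂ × ℂ} (hv : Iso v) (hV : AnalyticAt ℂ V 0)
    (h : ∀ᶠ p in 𝓝 (0 : ℂ × ℂ), V (θ p) = fderiv ℂ θ p (v p)) {P : (ℂ × ℂ → ℂ) → (ℂ × ℂ → ℂ) → Prop} (hP : Good P V) : Good (TrP θ P) v := by
  obtain ⟨ϑ, hb⟩ := exists_bi hθ
  obtain ⟨m, c, hc, hG0⟩ := hP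
  refine ⟨m, fun i N t => ϑ (c i N t), fun i => sep_tr hb h (hc i), ?_⟩
  rintro g J ⟨G, K, u, κ, hPGK, hG, hK, hu, hu0, hκ, hgG, hJK⟩ hg hJ
  have hwt := wt_tr hb hv.1 h hG hu hu0 hgG hg
  have hpk := hG0 G K hPGK hwt hK
  have hPt := eventually_pt hb hv.1 hV h hg.an hG hu hu0 hgG hJ hκ hJK
  filter_upwards [ev_ball hPt, ev_ball hv.2.2, DD_cof hv.1 hv.2.2 hg, DD_bound hv.1 hv.2.2 hg, self_mem_nhdsWithin] with r hPtr hisor hcofr hbdr hr s hs hsr B hB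
  -- choose `R`
  have hR1 : ∀ᶠ R in 𝓝[>] (0 : ℝ), ∀ q ∈ closedBall (0 : ℂ × ℂ) R, ϑ q ∈ ball (0 : ℂ × ℂ) (s / 2) :=
    ev_ball (hb.tendsto'.eventually (ball_mem_nhds _ (by linarith)))
  obtain ⟨R, hRp, hRϑ, hR0⟩ := (hpk.and (hR1.and self_mem_nhdsWithin)).exists
  have hR0' : 0 < R := hR0
  have hRs : ∀ q ∈ closedBall (0 : ℂ × ℂ) r, θ q ∈ ball (0 : ℂ × ℂ) R → q ∈ ball (0 : ℂ × ℂ) (s / 2) := by
    intro q hq h1
    have h2 := hRϑ _ (ball_subset_closedBall h1)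
    rwa [(hPtr q hq).inv.self_of_nhds] at h2
  have hs1 : ∀ᶠ s' in 𝓝[>] (0 : ℝ), ∀ q ∈ closedBall (0 : ℂ × ℂ) s', θ q ∈ ball (0 : ℂ × ℂ) (R / 2) :=
    ev_ball (hb.tendsto.eventually (ball_mem_nhds _ (by linarith)))
  obtain ⟨s', hs', hs'0⟩ := (hs1.and self_mem_nhdsWithin).exists
  obtain ⟨Cθ, hCθ1, hCθ⟩ := norm_θp_le hPtr
  obtain ⟨A, C₀, hA, hC₀, hAC⟩ := hRp (R / 2) (by linarith) (by linarith) (Cθ * B) (by positivity)
  refine ⟨A, C₀, hA, hC₀, fun d n q ψ hd hn hq hψ hfz M F Q lm Om p hD => ?_⟩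
  have hp := hD.crv
  have hmem : ∀ z ∈ Om, p z ∈ closedBall (0 : ℂ × ℂ) r := fun z hz => ball_subset_closedBall (hp.mem z hz)
  have hPcrv := crv_tr hPtr hp (by linarith) hRs
  have hq' : AnalyticAt ℂ (fun P => q (ϑ P)) 0 := AnalyticAt.comp_of_eq hq hb.an' hb.zero'
  have hψ' : ContDiffAt ℝ 1 (fun P => ψ (ϑ P)) 0 := by
    have h1 : ContDiffAt ℝ 1 ϑ 0 := (hb.an'.contDiffAt (n := 1)).restrict_scalars ℝ
    have h2 : ContDiffAt ℝ 1 ψ (ϑ 0) := by rw [hb.zero']; exact hψ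
    exact h2.comp 0 h1
  have hfz' : ∀ i, FZero (c i) G ∨ HasOrd (c i) (fun P => q (ϑ P)) n := by
    intro i
    rcases hfz i with h1 | h1
    · left
      intro N
      have h2 := h1 N
      have hct : Tendsto (c i N) (𝓝 0) (𝓝 0) := by
        have := ((hc i).an N).continuousAt.tendsto
        rwa [(hc i).zero N] at this
      have hqt : Tendsto (fun t => ϑ (c i N t)) (𝓝 0) (𝓝 0) := hb.tendsto'.comp hct
      have hut : Tendsto (fun t => u (ϑ (c i N t))) (𝓝 0) (𝓝 (u 0)) := hu.continuousAt.tendsto.comp hqt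
      have h3 : (fun t => (u (ϑ (c i N t)))⁻¹) =O[𝓝 0] fun _ : ℂ => (1 : ℂ) := (hut.inv₀ hu0).isBigO_one ℂ
      have h4 := h3.mul h2
      simp only [one_mul] at h4
      refine h4.congr' ?_ EventuallyEq.rfl
      filter_upwards [hqt.eventually hgG, hct.eventually hb.inv', hut.eventually_ne hu0] with t a1 a2 a3
      rw [a1, a2]
      field_simp
    · exact Or.inr h1
  have hdat : Dat V G R (Cθ * B) d (fun P => q (ϑ P)) (fun P => ψ (ϑ P)) F Q lm (Omθ θ Om p R) fun z => θ (p z) := by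
    refine ⟨hPcrv, fun z hz => ?_, fun z hz => ?_, hD.lm_cont, hD.lm_nonneg, fun z hz => ?_, hD.F_diff, hD.F_ne, hD.lam_le, hD.Q_diff, hD.Q_ne, hD.Q_le, ?_⟩
    · have h1 := (hD.p_ne z hz.1).and_eventually (hp.isOpen.mem_nhds hz.1)
      refine h1.mono fun w hw h0 => hw.1 ?_
      have h2 := (hPtr _ (hmem w hw.2)).inv.self_of_nhds
      rw [h0, hb.zero'] at h2
      exact h2.symm
    · have h1 := (hD.g_ne z hz.1).and_eventually (hp.isOpen.mem_nhds hz.1)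
      refine h1.mono fun w hw h0 => hw.1 ?_
      rw [(hPtr _ (hmem w hw.2)).g_eq.self_of_nhds, h0, zero_mul]
    · calc _ ≤ Cθ * ‖deriv p z‖ := hCθ Om p hp z hz.1
        _ ≤ Cθ * (B * lm z) := mul_le_mul_of_nonneg_left (hD.lm_ge z hz.1) (by linarith)
        _ = _ := by ring
    · obtain ⟨c₁, hc₁, hQ⟩ := hD.Q_eq
      refine ⟨c₁, hc₁, fun z hz => ?_⟩
      have h2 := (hPtr _ (hmem z hz.1)).inv.self_of_nhds
      simp only [h2]
      exact hQ z hz.1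
  have hX := hAC d n (fun P => q (ϑ P)) (fun P => ψ (ϑ P)) hd hn hq' hψ' hfz' M F Q lm _ _ hdat
  refine locX_tr (s₀ := s / 2) (s' := s') hb.zero hPtr (fun q hq h0 => ?_) hcofr (hbdr s' (Or.inl hs'0)) (by linarith) (by linarith) hR0' hRs
    (fun q hq => hs' q (ball_subset_closedBall hq)) hB hp hD.g_ne hD.lm_ge hD.lm_nonneg hX
  by_contra h1
  exact hisor q hq h1 h0

end Pool.Agent.MQ2
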