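import Pool.Agent.MQ2.Defs
import Pool.Agent.MQ2.Term
import Pool.Agent.MQ2.Formal

/-!
# MQ2 WtN: the weights at the terminal points

`g = x g₀`, `v (g₀) = c₀ g₀`.  If `g₀ 0 = 0` then the restriction of this equation to `x = 0` gives `c₀ 0 = l b 0`, `l ≥ 1`, the restriction to `y = 0` (if
`g₀ (x, 0)` is not `0`) gives `c₀ 0 = k a 0`, `k ≥ 1`.
-/

set_option autoImplicit false

open Topology Filter Metric Asymptotics

noncomputable section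

namespace Pool.Agent.MQ2

open Pool.Agent.H17BP (dx dy exists_div_x exists_div_y)
open Pool.Agent.MQ

namespace WtN

/-- a factor which is not zero on a dense set can be cancelled -/
theorem zero_of_mul {ℓ E : ℂ × ℂ → ℂ} (hE : AnalyticAt ℂ E 0) (hℓ : ∀ p, ∃ᶠ q in 𝓝 p, ℓ q ≠ 0) (h : ∀ᶠ p in 𝓝 (0 : ℂ × ℂ), ℓ p * E p = 0) :
    ∀ᶠ p in 𝓝 (0 : ℂ × ℂ), E p = 0 := by
  filter_upwards [hE.eventually_analyticAt, eventually_eventually_nhds.2 h] with p hp hp2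
  by_contra hne
  have h1 : ∀ᶠ q in 𝓝 p, E q ≠ 0 := hp.continuousAt.eventually_ne hne
  obtain ⟨q, h2, h3, h4⟩ := ((hℓ p).and_eventually (h1.and hp2)).exists
  exact (mul_ne_zero h2 h3) h4

theorem freq_fst (p : ℂ × ℂ) : ∃ᶠ q in 𝓝 p, q.1 ≠ 0 := by
  have h1 : Tendsto (fun s : ℂ => ((p.1 + s, p.2) : ℂ × ℂ)) (𝓝 0) (𝓝 p) := by
    have h2 : Continuous fun s : ℂ => ((p.1 + s, p.2) : ℂ × ℂ) := by fun_prop
    have h3 := h2.tendsto 0
    rwa [add_zero] at h3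
  refine h1.frequently ?_
  by_cases hp : p.1 = 0
  · have h4 : ∃ᶠ s in 𝓝[≠] (0 : ℂ), p.1 + s ≠ 0 := by
      refine Filter.Eventually.frequently ?_
      filter_upwards [self_mem_nhdsWithin] with s hs
      rw [hp, zero_add]
      exact hs
    exact h4.filter_mono nhdsWithin_le_nhds
  · refine Filter.Eventually.frequently ?_
    have h5 : ContinuousAt (fun s : ℂ => p.1 + s) 0 := by fun_prop
    exact h5.eventually_ne (by rwa [add_zero])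

theorem freq_snd (p : ℂ × ℂ) : ∃ᶠ q in 𝓝 p, q.2 ≠ 0 := by
  have h1 : Tendsto (fun q : ℂ × ℂ => q.swap) (𝓝 p.swap) (𝓝 p) := by
    have h2 := (continuous_swap (X := ℂ) (Y := ℂ)).tendsto p.swap
    rwa [Prod.swap_swap] at h2
  exact h1.frequently (freq_fst p.swap)

/-- the cofactor of a quotient -/
theorem cof_div {v : ℂ × ℂ → ℂ × ℂ} {g h ℓ α c : ℂ × ℂ → ℂ} (hv : AnalyticAt ℂ v 0) (hh : AnalyticAt ℂ h 0) (hα : AnalyticAt ℂ α 0)
    (hc : AnalyticAt ℂ c 0) (hℓ : AnalyticAt ℂ ℓ 0) (hℓn : ∀ p, ∃ᶠ q in 𝓝 p, ℓ q ≠ 0) (hg : ∀ᶠ p in 𝓝 (0 : ℂ × ℂ), g p = ℓ p * h p)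
    (hcof : ∀ᶠ p in 𝓝 (0 : ℂ × ℂ), Dv v g p = c p * g p) (hl : ∀ᶠ p in 𝓝 (0 : ℂ × ℂ), Dv v ℓ p = α p * ℓ p) :
    ∀ᶠ p in 𝓝 (0 : ℂ × ℂ), Dv v h p = (c p - α p) * h p := by
  have hE : AnalyticAt ℂ (fun p => Dv v h p - (c p - α p) * h p) 0 := (analyticAt_Dv hv hh).sub ((hc.sub hα).mul hh)
  have h1 : ∀ᶠ p in 𝓝 (0 : ℂ × ℂ), ℓ p * (Dv v h p - (c p - α p) * h p) = 0 := by
    filter_upwards [hh.eventually_analyticAt, hℓ.eventually_analyticAt, eventually_eventually_nhds.2 hg, hg, hcof, hl] with p h1 h2 h3 h4 h5 h6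
    have h7 : Dv v g p = Dv v (fun q => ℓ q * h q) p := Dv_congr h3
    rw [Dv_mul h2.differentiableAt h1.differentiableAt, h5, h6, h4] at h7
    linear_combination -h7
  filter_upwards [zero_of_mul hE hℓn h1] with p hp
  exact sub_eq_zero.1 hp

theorem line_tendsto1 : Tendsto (fun y : ℂ => ((0, y) : ℂ × ℂ)) (𝓝 0) (𝓝 0) := by
  have h2 : Continuous fun x : ℂ => ((0, x) : ℂ × ℂ) := by fun_prop
  exact h2.tendsto 0

theorem line_tendsto2 : Tendsto (fun x : ℂ => ((x, 0) : ℂ × ℂ)) (𝓝 0) (𝓝 0) := by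
  have h2 : Continuous fun x : ℂ => ((x, 0) : ℂ × ℂ) := by fun_prop
  exact h2.tendsto 0

theorem red_fst {v : ℂ × ℂ → ℂ × ℂ} {g G : ℂ × ℂ → ℂ} (hg : Wt v g) (hG : AnalyticAt ℂ G 0) (h : ∀ᶠ p in 𝓝 (0 : ℂ × ℂ), g p = p.1 * G p) :
    ¬ ∀ᶠ y in 𝓝 (0 : ℂ), G (0, y) = 0 := by
  intro h0
  have h1 : ∀ᶠ y in 𝓝[≠] (0 : ℂ), False := by
    rw [eventually_nhdsWithin_iff]
    filter_upwards [h0, line_tendsto1.eventually hg.red, line_tendsto1.eventually (eventually_eventually_nhds.2 h),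
      line_tendsto1.eventually h, line_tendsto1.eventually hG.eventually_analyticAt] with y h2 h3 h4 h5 h6 hy
    refine h3 (fun h7 => hy (congrArg Prod.snd h7)) (by rw [h5]; exact zero_mul _) ?_
    have h7 : g =ᶠ[𝓝 (0, y)] fun p => p.1 * G p := h4
    have h8 : HasFDerivAt (fun p : ℂ × ℂ => p.1 * G p) (((0, y) : ℂ × ℂ).1 • fderiv ℂ G (0, y) + G (0, y) • ContinuousLinearMap.fst ℂ ℂ ℂ) (0, y) :=
      (hasFDerivAt_fst (𝕜 := ℂ) (p := ((0, y) : ℂ × ℂ))).mul h6.differentiableAt.hasFDerivAt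
    have h9 : ((0, y) : ℂ × ℂ).1 = 0 := rfl
    rw [h7.fderiv_eq, h8.fderiv, h2, h9]
    ext <;> simp
  exact h1.exists.elim fun _ h => h

theorem red_snd {v : ℂ × ℂ → ℂ × ℂ} {g G : ℂ × ℂ → ℂ} (hg : Wt v g) (hG : AnalyticAt ℂ G 0) (h : ∀ᶠ p in 𝓝 (0 : ℂ × ℂ), g p = p.2 * G p) :
    ¬ ∀ᶠ x in 𝓝 (0 : ℂ), G (x, 0) = 0 := by
  intro h0
  have h1 : ∀ᶠ y in 𝓝[≠] (0 : ℂ), False := by
    rw [eventually_nhdsWithin_iff]
    filter_upwards [h0, line_tendsto2.eventually hg.red, line_tendsto2.eventually (eventually_eventually_nhds.2 h),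
      line_tendsto2.eventually h, line_tendsto2.eventually hG.eventually_analyticAt] with y h2 h3 h4 h5 h6 hy
    refine h3 (fun h7 => hy (congrArg Prod.fst h7)) (by rw [h5]; exact zero_mul _) ?_
    have h7 : g =ᶠ[𝓝 (y, 0)] fun p => p.2 * G p := h4
    have h8 : HasFDerivAt (fun p : ℂ × ℂ => p.2 * G p) (((y, 0) : ℂ × ℂ).2 • fderiv ℂ G (y, 0) + G (y, 0) • ContinuousLinearMap.snd ℂ ℂ ℂ) (y, 0) :=
      (hasFDerivAt_snd (𝕜 := ℂ) (p := ((y, 0) : ℂ × ℂ))).mul h6.differentiableAt.hasFDerivAt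
    have h9 : ((y, 0) : ℂ × ℂ).2 = 0 := rfl
    rw [h7.fderiv_eq, h8.fderiv, h2, h9]
    ext <;> simp
  exact h1.exists.elim fun _ h => h

/-- the order of a solution -/
theorem ord_rel {φ β γ : ℂ → ℂ} (hφ : AnalyticAt ℂ φ 0) (hne : ¬ ∀ᶠ y in 𝓝 (0 : ℂ), φ y = 0) (h0 : φ 0 = 0) (hβ : ContinuousAt β 0)
    (hγ : ContinuousAt γ 0) (h : ∀ᶠ y in 𝓝 (0 : ℂ), y * β y * deriv φ y = γ y * φ y) : ∃ l : ℕ, 1 ≤ l ∧ (l : ℂ) * β 0 = γ 0 := by
  obtain ⟨l, ψ, hψ, hψ0, hl⟩ := (hφ.exists_eventuallyEq_pow_smul_nonzero_iff).2 hne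
  have hl1 : 1 ≤ l := by
    by_contra hlt
    have hl0 : l = 0 := by omega
    have h1 := hl.self_of_nhds
    rw [hl0, pow_zero, one_smul, h0] at h1
    exact hψ0 h1.symm
  refine ⟨l, hl1, ?_⟩
  obtain ⟨m, rfl⟩ : ∃ m, l = m + 1 := ⟨l - 1, by omega⟩
  have hl' : φ =ᶠ[𝓝 0] fun y => y ^ (m + 1) * ψ y := by
    filter_upwards [hl] with y hy
    rw [hy, sub_zero, smul_eq_mul]
  have h2 : ∀ᶠ y in 𝓝[≠] (0 : ℂ), β y * (((m + 1 : ℕ) : ℂ) * ψ y + y * deriv ψ y) - γ y * ψ y = 0 := by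
    rw [eventually_nhdsWithin_iff]
    filter_upwards [h, eventually_eventually_nhds.2 hl', hl', hψ.eventually_analyticAt] with y h3 h4 h5 h6 hy
    have h7 : deriv φ y = ((m + 1 : ℕ) : ℂ) * y ^ m * ψ y + y ^ (m + 1) * deriv ψ y := by
      have h8 : φ =ᶠ[𝓝 y] fun y => y ^ (m + 1) * ψ y := h4
      rw [h8.deriv_eq]
      exact ((hasDerivAt_pow (m + 1) y).mul h6.differentiableAt.hasDerivAt).deriv
    rw [h7, h5] at h3
    have hy0 : y ≠ 0 := hy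
    have hp : y ^ (m + 1) ≠ 0 := pow_ne_zero _ hy0
    refine mul_left_cancel₀ hp ?_
    rw [mul_zero]
    linear_combination h3
  have h3 : Tendsto (fun y => β y * (((m + 1 : ℕ) : ℂ) * ψ y + y * deriv ψ y) - γ y * ψ y) (𝓝[≠] 0)
      (𝓝 (β 0 * (((m + 1 : ℕ) : ℂ) * ψ 0 + 0 * deriv ψ 0) - γ 0 * ψ 0)) := by
    refine Tendsto.mono_left ?_ nhdsWithin_le_nhds
    have hψc := hψ.continuousAt
    have hψd := hψ.deriv.continuousAt
    exact ((hβ.mul ((continuousAt_const.mul hψc).add (continuousAt_id.mul hψd))).sub (hγ.mul hψc)).tendsto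
  have h4 : β 0 * (((m + 1 : ℕ) : ℂ) * ψ 0 + 0 * deriv ψ 0) - γ 0 * ψ 0 = 0 :=
    tendsto_nhds_unique (h3.congr' h2) tendsto_const_nhds
  refine mul_right_cancel₀ hψ0 ?_
  linear_combination h4

theorem line_deriv1 {h : ℂ × ℂ → ℂ} {y : ℂ} (hh : DifferentiableAt ℂ h (0, y)) : deriv (fun y : ℂ => h (0, y)) y = dy h (0, y) := by
  have h1 : HasDerivAt (fun t : ℂ => ((0, t) : ℂ × ℂ)) ((0, 1) : ℂ × ℂ) y := (hasDerivAt_const y (0 : ℂ)).prodMk (hasDerivAt_id y)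
  exact (hh.hasFDerivAt.comp_hasDerivAt y h1).deriv

theorem line_deriv2 {h : ℂ × ℂ → ℂ} {x : ℂ} (hh : DifferentiableAt ℂ h (x, 0)) : deriv (fun x : ℂ => h (x, 0)) x = dx h (x, 0) := by
  have h1 : HasDerivAt (fun t : ℂ => ((t, 0) : ℂ × ℂ)) ((1, 0) : ℂ × ℂ) x := (hasDerivAt_id x).prodMk (hasDerivAt_const x (0 : ℂ))
  exact (hh.hasFDerivAt.comp_hasDerivAt x h1).deriv

theorem line_an1 {h : ℂ × ℂ → ℂ} (hh : AnalyticAt ℂ h 0) : AnalyticAt ℂ (fun y : ℂ => h (0, y)) 0 :=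
  AnalyticAt.comp (g := h) (f := fun y : ℂ => ((0, y) : ℂ × ℂ)) (x := 0) hh (analyticAt_const.prod analyticAt_id)

theorem line_an2 {h : ℂ × ℂ → ℂ} (hh : AnalyticAt ℂ h 0) : AnalyticAt ℂ (fun x : ℂ => h (x, 0)) 0 :=
  AnalyticAt.comp (g := h) (f := fun x : ℂ => ((x, 0) : ℂ × ℂ)) (x := 0) hh (analyticAt_id.prod analyticAt_const)

/-- restriction to `x = 0` -/
theorem ord1 {v : ℂ × ℂ → ℂ × ℂ} {h β c : ℂ × ℂ → ℂ} (hh : AnalyticAt ℂ h 0) (hβ : AnalyticAt ℂ β 0) (hc : AnalyticAt ℂ c 0)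
    (h1 : ∀ᶠ y in 𝓝 (0 : ℂ), (v (0, y)).1 = 0) (h2 : ∀ᶠ y in 𝓝 (0 : ℂ), (v (0, y)).2 = y * β (0, y)) (hne : ¬ ∀ᶠ y in 𝓝 (0 : ℂ), h (0, y) = 0)
    (h0 : h 0 = 0) (hcof : ∀ᶠ p in 𝓝 (0 : ℂ × ℂ), Dv v h p = c p * h p) : ∃ l : ℕ, 1 ≤ l ∧ (l : ℂ) * β 0 = c 0 := by
  refine ord_rel (φ := fun y => h (0, y)) (β := fun y => β (0, y)) (γ := fun y => c (0, y)) (line_an1 hh) hne h0 (line_an1 hβ).continuousAt
    (line_an1 hc).continuousAt ?_
  filter_upwards [h1, h2, line_tendsto1.eventually hcof, line_tendsto1.eventually hh.eventually_analyticAt] with y h3 h4 h5 h6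
  rw [Dv_eq, h3, h4, zero_mul, zero_add] at h5
  rw [line_deriv1 h6.differentiableAt, h5]

/-- restriction to `y = 0` -/
theorem ord2 {v : ℂ × ℂ → ℂ × ℂ} {h α c : ℂ × ℂ → ℂ} (hh : AnalyticAt ℂ h 0) (hα : AnalyticAt ℂ α 0) (hc : AnalyticAt ℂ c 0)
    (h1 : ∀ᶠ x in 𝓝 (0 : ℂ), (v (x, 0)).2 = 0) (h2 : ∀ᶠ x in 𝓝 (0 : ℂ), (v (x, 0)).1 = x * α (x, 0)) (hne : ¬ ∀ᶠ x in 𝓝 (0 : ℂ), h (x, 0) = 0)
    (h0 : h 0 = 0) (hcof : ∀ᶠ p in 𝓝 (0 : ℂ × ℂ), Dv v h p = c p * h p) : ∃ l : ℕ, 1 ≤ l ∧ (l : ℂ) * α 0 = c 0 := by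
  refine ord_rel (φ := fun y => h (y, 0)) (β := fun y => α (y, 0)) (γ := fun y => c (y, 0)) (line_an2 hh) hne h0 (line_an2 hα).continuousAt
    (line_an2 hc).continuousAt ?_
  filter_upwards [h1, h2, line_tendsto2.eventually hcof, line_tendsto2.eventually hh.eventually_analyticAt] with y h3 h4 h5 h6
  rw [Dv_eq, h3, h4, zero_mul, add_zero] at h5
  rw [line_deriv2 h6.differentiableAt, h5]

end WtN

open WtN

theorem wt_node {a b g g₀ : ℂ × ℂ → ℂ} (ha : AnalyticAt ℂ a 0) (hb : AnalyticAt ℂ b 0) (hq : ∀ k l : ℕ, 1 ≤ k → 1 ≤ l → k * a 0 ≠ l * b 0)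
    (hg : Wt (fun p => (p.1 * a p, p.2 * b p)) g) (hg₀ : AnalyticAt ℂ g₀ 0) (h : ∀ᶠ p in 𝓝 (0 : ℂ × ℂ), g p = p.1 * g₀ p) :
    ∃ u : ℂ × ℂ → ℂ, AnalyticAt ℂ u 0 ∧ u 0 ≠ 0 ∧ ((∀ᶠ p in 𝓝 (0 : ℂ × ℂ), g p = p.1 * u p) ∨ ∀ᶠ p in 𝓝 (0 : ℂ × ℂ), g p = p.1 * p.2 * u p) := by
  by_cases h0 : g₀ 0 = 0
  swap
  · exact ⟨g₀, hg₀, h0, Or.inl h⟩
  set v : ℂ × ℂ → ℂ × ℂ := fun p => (p.1 * a p, p.2 * b p) with hvdef
  have hv : AnalyticAt ℂ v 0 := (analyticAt_fst.mul ha).prod (analyticAt_snd.mul hb)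
  obtain ⟨c, hc, hcof⟩ := hg.cof
  have hcof0 : ∀ᶠ p in 𝓝 (0 : ℂ × ℂ), Dv v g₀ p = (c p - a p) * g₀ p :=
    cof_div hv hg₀ ha hc analyticAt_fst freq_fst h hcof (Eventually.of_forall fun p => by rw [Dv_fst]; exact mul_comm _ _)
  obtain ⟨l, hl1, hl⟩ := ord1 (β := b) (c := fun p => c p - a p) hg₀ hb (hc.sub ha)
    (Eventually.of_forall fun y => zero_mul _) (Eventually.of_forall fun y => rfl) (red_fst hg hg₀ h) h0 hcof0
  by_cases hy : ∀ᶠ x in 𝓝 (0 : ℂ), g₀ (x, 0) = 0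
  swap
  · obtain ⟨k, hk1, hk⟩ := ord2 (α := a) (c := fun p => c p - a p) hg₀ ha (hc.sub ha)
      (Eventually.of_forall fun y => zero_mul _) (Eventually.of_forall fun y => rfl) hy h0 hcof0
    exact absurd (hk.trans hl.symm) (hq k l hk1 hl1)
  obtain ⟨g₁, hg₁, h1⟩ := exists_div_y hg₀ hy
  have h1' : ∀ᶠ p in 𝓝 (0 : ℂ × ℂ), g₀ p = p.2 * g₁ p := by
    filter_upwards [h1] with p hp
    rw [hp, smul_eq_mul]
  have hg12 : ∀ᶠ p in 𝓝 (0 : ℂ × ℂ), g p = p.1 * p.2 * g₁ p := by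
    filter_upwards [h, h1'] with p h2 h3
    rw [h2, h3, mul_assoc]
  refine ⟨g₁, hg₁, ?_, Or.inr hg12⟩
  intro h2
  have hcof1 : ∀ᶠ p in 𝓝 (0 : ℂ × ℂ), Dv v g₁ p = (c p - a p - b p) * g₁ p :=
    cof_div hv hg₁ hb (hc.sub ha) analyticAt_snd freq_snd h1' hcof0 (Eventually.of_forall fun p => by rw [Dv_snd]; exact mul_comm _ _)
  have hr1 : ¬ ∀ᶠ y in 𝓝 (0 : ℂ), g₁ (0, y) = 0 := fun h3 => red_fst (G := fun p => p.2 * g₁ p) hg (analyticAt_snd.mul hg₁)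
    (by filter_upwards [hg12] with p hp; rw [hp, mul_assoc]) (by filter_upwards [h3] with y hy; rw [hy, mul_zero])
  have hr2 : ¬ ∀ᶠ x in 𝓝 (0 : ℂ), g₁ (x, 0) = 0 := fun h3 => red_snd (G := fun p => p.1 * g₁ p) hg (analyticAt_fst.mul hg₁)
    (by filter_upwards [hg12] with p hp; rw [hp]; ring) (by filter_upwards [h3] with y hy; rw [hy, mul_zero])
  obtain ⟨l', hl1', hl'⟩ := ord1 (β := b) (c := fun p => c p - a p - b p) hg₁ hb ((hc.sub ha).sub hb)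
    (Eventually.of_forall fun y => zero_mul _) (Eventually.of_forall fun y => rfl) hr1 h2 hcof1
  obtain ⟨k', hk1', hk'⟩ := ord2 (α := a) (c := fun p => c p - a p - b p) hg₁ ha ((hc.sub ha).sub hb)
    (Eventually.of_forall fun y => zero_mul _) (Eventually.of_forall fun y => rfl) hr2 h2 hcof1
  exact hq k' l' hk1' hl1' (hk'.trans hl'.symm)

theorem wt_sn {k : ℕ} (hk : 1 ≤ k) {a b g g₀ : ℂ × ℂ → ℂ} (ha : AnalyticAt ℂ a 0) (hb : AnalyticAt ℂ b 0) (hb0 : b 0 ≠ 0)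
    (hg : Wt (fun p => (p.1 ^ (k + 1) * a p, p.2 * b p)) g) (hg₀ : AnalyticAt ℂ g₀ 0) (h : ∀ᶠ p in 𝓝 (0 : ℂ × ℂ), g p = p.1 * g₀ p) :
    ∃ u : ℂ × ℂ → ℂ, AnalyticAt ℂ u 0 ∧ u 0 ≠ 0 ∧ ((∀ᶠ p in 𝓝 (0 : ℂ × ℂ), g p = p.1 * u p) ∨ ∀ᶠ p in 𝓝 (0 : ℂ × ℂ), g p = p.1 * p.2 * u p) := by
  have h1 : (fun p : ℂ × ℂ => (p.1 ^ (k + 1) * a p, p.2 * b p)) = fun p => (p.1 * (p.1 ^ k * a p), p.2 * b p) := by
    funext p
    rw [pow_succ]
    congr 1
    ring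
  rw [h1] at hg
  refine wt_node (a := fun p => p.1 ^ k * a p) ((analyticAt_fst.pow k).mul ha) hb (fun i j _ hj => ?_) hg hg₀ h
  have h2 : ((0 : ℂ × ℂ).1 ^ k * a 0 : ℂ) = 0 := by
    rw [Prod.fst_zero, zero_pow (by omega), zero_mul]
  rw [h2, mul_zero]
  exact (mul_ne_zero (Nat.cast_ne_zero.2 (by omega)) hb0).symm

/-- if `g = x g₀`, `g₀ 0 = 0`, then the cofactor of `g₀` at `0` is a positive multiple of `∂b/∂y (0)`, so `g₀` vanishes on the formal curve -/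
theorem wt_formal {k : ℕ} (hk : 1 ≤ k) {a b g g₀ : ℂ × ℂ → ℂ} (ha : AnalyticAt ℂ a 0) (hb : AnalyticAt ℂ b 0) (hb0 : b 0 = 0)
    (hb1 : fderiv ℂ b 0 (0, 1) ≠ 0) {c : ℕ → ℂ} (hc : c 0 = 0)
    (hJ : ∀ J, (fun t => b (t, jet c J t) - deriv (jet c J) t * (t ^ (k + 1) * a (t, jet c J t))) =O[𝓝 0] fun t : ℂ => t ^ (J + 1))
    (hg : Wt (fun p => (p.1 ^ (k + 1) * a p, b p)) g) (hg₀ : AnalyticAt ℂ g₀ 0) (h : ∀ᶠ p in 𝓝 (0 : ℂ × ℂ), g p = p.1 * g₀ p) :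
    FZero (fun N t => (t, jet c N t)) g ∨ g₀ 0 ≠ 0 := by
  by_cases h0 : g₀ 0 = 0
  swap
  · exact Or.inr h0
  left
  set v : ℂ × ℂ → ℂ × ℂ := fun p => (p.1 ^ (k + 1) * a p, b p) with hvdef
  have hv : AnalyticAt ℂ v 0 := ((analyticAt_fst.pow (k + 1)).mul ha).prod hb
  obtain ⟨co, hco, hcof⟩ := hg.cof
  have hα : AnalyticAt ℂ (fun p : ℂ × ℂ => p.1 ^ k * a p) 0 := (analyticAt_fst.pow k).mul ha
  have hcof0 : ∀ᶠ p in 𝓝 (0 : ℂ × ℂ), Dv v g₀ p = (co p - p.1 ^ k * a p) * g₀ p :=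
    cof_div hv hg₀ hα hco analyticAt_fst freq_fst h hcof (Eventually.of_forall fun p => by
      rw [Dv_fst]
      show p.1 ^ (k + 1) * a p = p.1 ^ k * a p * p.1
      ring)
  -- `b (0, y) = y β (0, y)`
  have hJ0 : ∀ᶠ y in 𝓝 (0 : ℂ), b (0, y) = y * dslope (fun y => b (0, y)) 0 y := by
    refine Eventually.of_forall fun y => ?_
    have h1 := sub_smul_dslope (fun y => b (0, y)) 0 y
    rw [sub_zero, smul_eq_mul] at h1
    rw [h1]
    have h2 : b (0, 0) = 0 := hb0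
    rw [h2, sub_zero]
  have hβa : AnalyticAt ℂ (fun p : ℂ × ℂ => dslope (fun y => b (0, y)) 0 p.2) 0 := by
    have h1 : AnalyticAt ℂ (dslope (fun y => b (0, y)) 0) 0 := by
      obtain ⟨q, hq⟩ := line_an1 hb
      exact ⟨_, hq.has_fpower_series_dslope_fslope⟩
    exact AnalyticAt.comp (g := dslope (fun y => b (0, y)) 0) (f := fun p : ℂ × ℂ => p.2) (x := 0) h1 analyticAt_snd
  have hβ0 : dslope (fun y => b (0, y)) 0 (0 : ℂ × ℂ).2 = fderiv ℂ b 0 (0, 1) := by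
    rw [Prod.snd_zero, dslope_same, line_deriv1 hb.differentiableAt]
    rfl
  obtain ⟨l, hl1, hl⟩ := ord1 (v := v) (β := fun p => dslope (fun y => b (0, y)) 0 p.2) (c := fun p => co p - p.1 ^ k * a p) hg₀ hβa (hco.sub hα)
    (Eventually.of_forall fun y => by
      show (0 : ℂ) ^ (k + 1) * a (0, y) = 0
      rw [zero_pow (by omega), zero_mul]) hJ0 (red_fst hg hg₀ h) h0 hcof0
  rw [hβ0] at hl
  have hco0 : co 0 - (0 : ℂ × ℂ).1 ^ k * a 0 ≠ 0 := by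
    rw [← hl]
    exact mul_ne_zero (Nat.cast_ne_zero.2 (by omega)) hb1
  -- along the jets
  have key : ∀ N, (fun t => g₀ (t, jet c N t)) =O[𝓝 0] fun t : ℂ => t ^ (N + 1) := by
    intro N
    have hpa : AnalyticAt ℂ (fun t : ℂ => (t, jet c N t)) 0 := analyticAt_id.prod (Formal.analyticAt_jet c N 0)
    have hpt : Tendsto (fun t : ℂ => ((t, jet c N t) : ℂ × ℂ)) (𝓝 0) (𝓝 0) := by
      have h1 := hpa.continuousAt.tendsto
      rw [Formal.jet_zero hc] at h1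
      exact h1
    have hφ : AnalyticAt ℂ (fun t : ℂ => g₀ (t, jet c N t)) 0 := Formal.analyticAt_pair hc N hg₀
    by_cases hz : ∀ᶠ t in 𝓝 (0 : ℂ), g₀ (t, jet c N t) = 0
    · exact (isBigO_zero _ _).congr' (by filter_upwards [hz] with t ht; rw [ht]) EventuallyEq.rfl
    obtain ⟨m, ψ, hψ, hψ0, hm⟩ := (hφ.exists_eventuallyEq_pow_smul_nonzero_iff).2 hz
    have hm' : ∀ᶠ t in 𝓝 (0 : ℂ), g₀ (t, jet c N t) = t ^ m * ψ t := by
      filter_upwards [hm] with t ht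
      rw [ht, sub_zero, smul_eq_mul]
    by_cases hmN : N + 1 ≤ m
    · obtain ⟨j, rfl⟩ := Nat.exists_eq_add_of_le hmN
      have h1 : (fun t : ℂ => t ^ (N + 1) * (t ^ j * ψ t)) =O[𝓝 0] fun t : ℂ => t ^ (N + 1) * 1 := by
        refine (isBigO_refl _ _).mul ?_
        exact ((analyticAt_id.pow j).mul hψ).continuousAt.isBigO_one ℂ
      refine (h1.congr' ?_ ?_)
      · filter_upwards [hm'] with t ht
        rw [ht, pow_add]
        ring
      · exact Eventually.of_forall fun t => mul_one _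
    exfalso
    push Not at hmN
    -- `c₀ φ = t ^ (k + 1) a φ' + O (t ^ (N + 1))`
    have hD : ∀ᶠ t in 𝓝 (0 : ℂ), (co (t, jet c N t) - t ^ k * a (t, jet c N t)) * g₀ (t, jet c N t) =
        t ^ (k + 1) * a (t, jet c N t) * deriv (fun t => g₀ (t, jet c N t)) t +
          (b (t, jet c N t) - deriv (jet c N) t * (t ^ (k + 1) * a (t, jet c N t))) * dy g₀ (t, jet c N t) := by
      filter_upwards [hpt.eventually hcof0, hpt.eventually hg₀.eventually_analyticAt] with t h1 h2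
      have h3 : HasDerivAt (fun t : ℂ => ((t, jet c N t) : ℂ × ℂ)) ((1, deriv (jet c N) t) : ℂ × ℂ) t :=
        (hasDerivAt_id t).prodMk (Formal.analyticAt_jet c N t).differentiableAt.hasDerivAt
      have h4 : deriv (fun t => g₀ (t, jet c N t)) t = fderiv ℂ g₀ (t, jet c N t) (1, deriv (jet c N) t) :=
        (h2.differentiableAt.hasFDerivAt.comp_hasDerivAt t h3).deriv
      have h5 : fderiv ℂ g₀ (t, jet c N t) (1, deriv (jet c N) t) = dx g₀ (t, jet c N t) + deriv (jet c N) t * dy g₀ (t, jet c N t) := by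
        have h6 : ((1, deriv (jet c N) t) : ℂ × ℂ) = (1, 0) + deriv (jet c N) t • (0, 1) := by simp
        rw [h6, map_add, map_smul, smul_eq_mul]
        rfl
      rw [Dv_eq] at h1
      have h7 : (v (t, jet c N t)).1 = t ^ (k + 1) * a (t, jet c N t) := rfl
      have h8 : (v (t, jet c N t)).2 = b (t, jet c N t) := rfl
      rw [h7, h8] at h1
      rw [← h1, h4, h5]
      ring
    have hφd : (fun t : ℂ => t ^ (k + 1) * a (t, jet c N t) * deriv (fun t => g₀ (t, jet c N t)) t) =O[𝓝 0] fun t : ℂ => t ^ (m + 1) := by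
      have h1 : ∀ᶠ t in 𝓝 (0 : ℂ), t ^ (k + 1) * a (t, jet c N t) * deriv (fun t => g₀ (t, jet c N t)) t =
          t ^ (m + 1) * (t ^ (k - 1) * (a (t, jet c N t) * (m * ψ t + t * deriv ψ t))) := by
        filter_upwards [eventually_eventually_nhds.2 hm', hψ.eventually_analyticAt] with t h2 h3
        have h4 : deriv (fun t => g₀ (t, jet c N t)) t = (m : ℂ) * t ^ (m - 1) * ψ t + t ^ m * deriv ψ t := by
          have h5 : (fun t => g₀ (t, jet c N t)) =ᶠ[𝓝 t] fun t => t ^ m * ψ t := h2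
          rw [h5.deriv_eq]
          exact ((hasDerivAt_pow m t).mul h3.differentiableAt.hasDerivAt).deriv
        rw [h4]
        obtain ⟨k', rfl⟩ : ∃ k', k = k' + 1 := ⟨k - 1, by omega⟩
        rw [Nat.add_sub_cancel]
        rcases Nat.eq_zero_or_pos m with rfl | hm0
        · simp only [Nat.cast_zero, zero_mul, pow_zero]
          ring
        · obtain ⟨m', rfl⟩ : ∃ m', m = m' + 1 := ⟨m - 1, by omega⟩
          rw [Nat.add_sub_cancel]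
          ring
      have h2 : (fun t : ℂ => t ^ (m + 1) * (t ^ (k - 1) * (a (t, jet c N t) * (m * ψ t + t * deriv ψ t)))) =O[𝓝 0] fun t : ℂ => t ^ (m + 1) * 1 := by
        refine (isBigO_refl _ _).mul ?_
        have ha' : AnalyticAt ℂ (fun t : ℂ => a (t, jet c N t)) 0 := Formal.analyticAt_pair hc N ha
        exact ((analyticAt_id.pow (k - 1)).mul (ha'.mul ((analyticAt_const.mul hψ).add (analyticAt_id.mul hψ.deriv)))).continuousAt.isBigO_one ℂ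
      exact h2.congr' (by filter_upwards [h1] with t ht; rw [ht]) (Eventually.of_forall fun t => mul_one _)
    have herr : (fun t : ℂ => (b (t, jet c N t) - deriv (jet c N) t * (t ^ (k + 1) * a (t, jet c N t))) * dy g₀ (t, jet c N t)) =O[𝓝 0]
        fun t : ℂ => t ^ (m + 1) := by
      have h1 : (fun t : ℂ => dy g₀ (t, jet c N t)) =O[𝓝 0] fun _ : ℂ => (1 : ℂ) :=
        (Formal.analyticAt_pair hc N (Pool.Agent.H17BP.analyticAt_dy hg₀)).continuousAt.isBigO_one ℂ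
      have h2 : (fun t : ℂ => t ^ (N + 1)) =O[𝓝 0] fun t : ℂ => t ^ (m + 1) := by
        refine IsBigO.of_bound 1 ?_
        filter_upwards [Metric.ball_mem_nhds (0 : ℂ) one_pos] with t ht
        rw [mem_ball_zero_iff] at ht
        rw [norm_pow, norm_pow, one_mul]
        exact pow_le_pow_of_le_one (norm_nonneg _) ht.le (by omega)
      have h3 := ((hJ N).trans h2).mul h1
      exact h3.congr_right fun t => mul_one _
    have hL : (fun t : ℂ => (co (t, jet c N t) - t ^ k * a (t, jet c N t)) * g₀ (t, jet c N t)) =O[𝓝 0] fun t : ℂ => t ^ (m + 1) :=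
      (hφd.add herr).congr' (by filter_upwards [hD] with t ht; rw [ht]) EventuallyEq.rfl
    obtain ⟨w, hw, hwe⟩ := Formal.exists_div (n := m + 1)
      ((Formal.analyticAt_pair hc N (hco.sub hα)).mul hφ) hL
    have h4 : ∀ᶠ t in 𝓝[≠] (0 : ℂ), (co (t, jet c N t) - t ^ k * a (t, jet c N t)) * ψ t = t * w t := by
      rw [eventually_nhdsWithin_iff]
      filter_upwards [hwe, hm'] with t h5 h6 ht
      have h7 : (co (t, jet c N t) - t ^ k * a (t, jet c N t)) * g₀ (t, jet c N t) = t ^ (m + 1) * w t := h5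
      rw [h6] at h7
      have ht0 : t ≠ 0 := ht
      refine mul_left_cancel₀ (pow_ne_zero m ht0) ?_
      rw [← mul_assoc, mul_comm (t ^ m), mul_assoc, h7, pow_succ]
      ring
    have h5 : Tendsto (fun t : ℂ => (co (t, jet c N t) - t ^ k * a (t, jet c N t)) * ψ t) (𝓝[≠] 0)
        (𝓝 ((co 0 - (0 : ℂ × ℂ).1 ^ k * a 0) * ψ 0)) := by
      refine Tendsto.mono_left ?_ nhdsWithin_le_nhds
      have h6 := ((Formal.analyticAt_pair hc N (hco.sub hα)).mul hψ).continuousAt.tendsto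
      have h7 : ((0, jet c N 0) : ℂ × ℂ) = 0 := by rw [Formal.jet_zero hc]; rfl
      have h8 : ((fun t : ℂ => (co - fun p : ℂ × ℂ => p.1 ^ k * a p) (t, jet c N t)) * ψ) 0 = (co 0 - (0 : ℂ × ℂ).1 ^ k * a 0) * ψ 0 := by
        show (co (0, jet c N 0) - ((0, jet c N 0) : ℂ × ℂ).1 ^ k * a (0, jet c N 0)) * ψ 0 = _
        rw [h7]
      rw [h8] at h6
      exact h6
    have h6 : Tendsto (fun t : ℂ => t * w t) (𝓝[≠] 0) (𝓝 0) := by
      refine Tendsto.mono_left ?_ nhdsWithin_le_nhds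
      have h7 := ((continuousAt_id (x := (0 : ℂ))).mul hw.continuousAt).tendsto
      have h8 : ((id : ℂ → ℂ) * w) 0 = 0 := zero_mul _
      rw [h8] at h7
      exact h7
    have h7 := tendsto_nhds_unique (h5.congr' h4) h6
    exact (mul_ne_zero hco0 hψ0) h7
  intro N
  have hpa : AnalyticAt ℂ (fun t : ℂ => (t, jet c N t)) 0 := analyticAt_id.prod (Formal.analyticAt_jet c N 0)
  have hpt : Tendsto (fun t : ℂ => ((t, jet c N t) : ℂ × ℂ)) (𝓝 0) (𝓝 0) := by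
    have h1 := hpa.continuousAt.tendsto
    rw [Formal.jet_zero hc] at h1
    exact h1
  have h1 : (fun t : ℂ => t * g₀ (t, jet c N t)) =O[𝓝 0] fun t : ℂ => 1 * t ^ (N + 1) :=
    (continuousAt_id.isBigO_one ℂ).mul (key N)
  refine h1.congr' ?_ (Eventually.of_forall fun t => one_mul _)
  filter_upwards [hpt.eventually h] with t ht
  rw [ht]

end Pool.Agent.MQ2
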