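import Pool.Agent.MQ2.TLoc
import Pool.Agent.MQ2.TConv
import Pool.Agent.MQ2.TTr
import Pool.Agent.MQ2.WtN
import Pool.Agent.MQ2.SepF
import Pool.Agent.MQ2.TNode
import Pool.Agent.MQ2.TAxes
import Pool.Agent.MQ2.TSN
import Pool.Agent.MQ2.TForm

/-!
# MQ2 TAsm: the terminal packages
-/

set_option autoImplicit false

open Topology Filter Metric MeasureTheory Asymptotics Laplacian

noncomputable section

namespace Pool.Agent.MQ2

open Pool.Agent.H36.BP (EN)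
open Pool.Agent.H30M (tau LogSing)
open Pool.Agent.H17BP (Bihol Coord dx dy coord_iff exists_div_x exists_div_y)
open Pool.Agent.MQ

/-- `Iso` of a field in the form `(x a, b)` -/
theorem iso_of_node {a b : ℂ × ℂ → ℂ} (ha : AnalyticAt ℂ a 0) (hb : AnalyticAt ℂ b 0) (ha0 : a 0 ≠ 0) (hb0 : b 0 ≠ 0) :
    Iso fun p => (p.1 * a p, p.2 * b p) := by
  refine ⟨(analyticAt_fst.mul ha).prod (analyticAt_snd.mul hb), by simp, ?_⟩
  filter_upwards [ha.continuousAt.eventually_ne ha0, hb.continuousAt.eventually_ne hb0] with p h1 h2 hp h3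
  rw [Prod.mk_eq_zero] at h3
  exact hp (Prod.ext ((mul_eq_zero.1 h3.1).resolve_right h1) ((mul_eq_zero.1 h3.2).resolve_right h2))

/-- the node with all weights divisible by `x` -/
theorem good_N {a b : ℂ × ℂ → ℂ} (ha : AnalyticAt ℂ a 0) (hb : AnalyticAt ℂ b 0) (ha0 : a 0 ≠ 0) (hb0 : b 0 ≠ 0)
    (hq : ∀ k l : ℕ, 1 ≤ k → 1 ≤ l → k * a 0 ≠ l * b 0) : Good (PX 0) fun p => (p.1 * a p, p.2 * b p) := by
  have h1 : AnalyticAt ℂ (fun p : ℂ × ℂ => (p.1 * a p, p.2 * b p)) 0 := (analyticAt_fst.mul ha).prod (analyticAt_snd.mul hb)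
  refine good_of_wt (good_tr Bihol.id (iso_of_node ha hb ha0 hb0) h1 (Eventually.of_forall fun p => ?_) (good_node ha hb ha0 hb0 hq)) ?_
  · simp
  · rintro g J ⟨⟨g₀, hg₀, hg⟩, -⟩ hw hJ
    obtain ⟨u, hu, hu0, h2⟩ := wt_node ha hb hq hw hg₀ hg
    rcases h2 with h2 | h2
    · refine ⟨fun p => p.1, J, u, fun _ => 1, Or.inr (Eventually.of_forall fun p => rfl), analyticAt_fst, hJ, hu, hu0, analyticAt_const, h2, ?_⟩
      exact Eventually.of_forall fun p => (mul_one _).symm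
    · refine ⟨fun p => p.1 * p.2, J, u, fun _ => 1, Or.inl (Eventually.of_forall fun p => rfl), analyticAt_fst.mul analyticAt_snd, hJ, hu, hu0, analyticAt_const,
        h2, ?_⟩
      exact Eventually.of_forall fun p => (mul_one _).symm

/-- the field in the coordinates `(x, y - s x)` -/
theorem fderiv_pair {S T : ℂ × ℂ → ℂ} {v : ℂ × ℂ → ℂ × ℂ} {p : ℂ × ℂ} (hS : DifferentiableAt ℂ S p) (hT : DifferentiableAt ℂ T p) :
    fderiv ℂ (fun q => (S q, T q)) p (v p) = (Dv v S p, Dv v T p) := by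
  have h1 : HasFDerivAt (fun q => (S q, T q)) ((fderiv ℂ S p).prod (fderiv ℂ T p)) p := hS.hasFDerivAt.prodMk hT.hasFDerivAt
  rw [h1.fderiv]
  rfl

/-- transfer to the coordinates `S`, `T` in which the field is `(f, g)` -/
theorem good_coord {v : ℂ × ℂ → ℂ × ℂ} (hv : Iso v) {S T : ℂ × ℂ → ℂ} (h : Coord S T) {V : ℂ × ℂ → ℂ × ℂ} (hV : AnalyticAt ℂ V 0)
    (hV1 : ∀ᶠ p in 𝓝 (0 : ℂ × ℂ), V (S p, T p) = (Dv v S p, Dv v T p)) {P : (ℂ × ℂ → ℂ) → (ℂ × ℂ → ℂ) → Prop} (hP : Good P V) :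
    Good (TrP (fun p => (S p, T p)) P) v := by
  obtain ⟨hS, hT, hS0, hT0⟩ := h.parts
  refine good_tr h hv hV ?_ hP
  filter_upwards [hV1, hS.eventually_analyticAt, hT.eventually_analyticAt] with p e1 e2 e3
  rw [e1, fderiv_pair e2.differentiableAt e3.differentiableAt]

/-- a function in the coordinates `(S, T)` -/
theorem exists_in_coord {S T f : ℂ × ℂ → ℂ} (h : Coord S T) (hf : AnalyticAt ℂ f 0) :
    ∃ F : ℂ × ℂ → ℂ, AnalyticAt ℂ F 0 ∧ F 0 = f 0 ∧ ∀ᶠ p in 𝓝 (0 : ℂ × ℂ), F (S p, T p) = f p := by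
  obtain ⟨ψ, hψ, hl, hr⟩ := h.exists_inv
  refine ⟨fun q => f (ψ q), AnalyticAt.fun_comp (g := f) (f := ψ) (by rw [hψ.zero]; exact hf) hψ.an, by simp only [hψ.zero], ?_⟩
  filter_upwards [hl] with p hp
  simp only [hp]

theorem good_A {a b : ℂ × ℂ → ℂ} (ha : AnalyticAt ℂ a 0) (hb : AnalyticAt ℂ b 0) (ha0 : a 0 ≠ 0) (hb0 : b 0 = 0) (hb1 : fderiv ℂ b 0 (0, 1) ≠ 0)
    (hq : ∀ k l : ℕ, 1 ≤ k → 1 ≤ l → k * a 0 ≠ l * fderiv ℂ b 0 (0, 1)) : Good (PX 1) fun p => (p.1 * a p, b p) := by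
  set v : ℂ × ℂ → ℂ × ℂ := fun p => (p.1 * a p, b p) with hvd
  have hva : AnalyticAt ℂ v 0 := (analyticAt_fst.mul ha).prod hb
  have hv0 : v 0 = 0 := by simp [hvd, hb0]
  have hx : dx (fun p => (v p).1) 0 = a 0 := (dx_of_div ha (Eventually.of_forall fun p => rfl)).1
  have hy : dy (fun p => (v p).2) 0 = fderiv ℂ b 0 (0, 1) := rfl
  obtain ⟨s, a', b', hs, hs0, ha', ha'0, hb', hb'0, hva', hbD⟩ := exists_axis hva hv0 (Eventually.of_forall fun y => by simp [hvd]) (by rw [hx]; exact ha0)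
    (by
      intro n hn h
      rw [hx, hy] at h
      exact hq n 1 hn le_rfl (by rw [h]; simp))
  rw [hx] at ha'0
  rw [hy] at hb'0
  have hco := coord_fst_sub hs hs0
  obtain ⟨A, hA, hA0, hAe⟩ := exists_in_coord hco ha'
  obtain ⟨B, hB, hB0, hBe⟩ := exists_in_coord hco hb'
  have hqq : ∀ k l : ℕ, 1 ≤ k → 1 ≤ l → k * A 0 ≠ l * B 0 := by
    rw [hA0, hB0, ha'0, hb'0]; exact hq
  have hA0' : A 0 ≠ 0 := by rw [hA0, ha'0]; exact ha0
  have hB0' : B 0 ≠ 0 := by rw [hB0, hb'0]; exact hb1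
  have hiso : Iso v := by
    refine ⟨hva, hv0, ?_⟩
    obtain ⟨hS, hT, hS0, hT0⟩ := hco.parts
    filter_upwards [hva', hbD, ha'.continuousAt.eventually_ne (by rw [ha'0]; exact ha0), hb'.continuousAt.eventually_ne (by rw [hb'0]; exact hb1)] with p e1 e2 e3 e4 hp h0
    have e5 : (v p).1 = 0 := by rw [h0]; rfl
    rw [e1, mul_eq_zero, or_iff_left e3] at e5
    have e6 : Dv v (fun q => q.2 - s q.1) p = 0 := by rw [Dv, h0, map_zero]
    rw [e2, mul_eq_zero, or_iff_left e4, e5, hs0, sub_zero] at e6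
    exact hp (Prod.ext e5 e6)
  have hVan : AnalyticAt ℂ (fun q : ℂ × ℂ => (q.1 * A q, q.2 * B q)) 0 := (analyticAt_fst.mul hA).prod (analyticAt_snd.mul hB)
  have hV1 : ∀ᶠ p in 𝓝 (0 : ℂ × ℂ), (fun q : ℂ × ℂ => (q.1 * A q, q.2 * B q)) (p.1, p.2 - s p.1) = (Dv v (fun q => q.1) p, Dv v (fun q => q.2 - s q.1) p) := by
    filter_upwards [hva', hbD, hAe, hBe] with p e1 e2 e3 e4
    rw [Dv_fst, e1, e2, e3, e4]
  refine good_of_wt (good_coord hiso hco hVan hV1 (good_N hA hB hA0' hB0' hqq)) ?_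
  rintro g J ⟨⟨g₀, hg₀, hg⟩, J₀, hJ₀, hJe⟩ hw hJ
  obtain ⟨G₀, hG₀, -, hG⟩ := exists_in_coord hco hg₀
  obtain ⟨K, hK, -, hKe⟩ := exists_in_coord hco hJ
  refine ⟨fun q => q.1 * G₀ q, K, fun _ => 1, fun _ => 1, ⟨⟨G₀, hG₀, Eventually.of_forall fun q => rfl⟩, K, hK, Eventually.of_forall fun q => by simp⟩,
    analyticAt_fst.mul hG₀, hK, analyticAt_const, one_ne_zero, analyticAt_const, ?_, ?_⟩
  · filter_upwards [hg, hG] with p e1 e2
    rw [e1, e2, mul_one]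
  · filter_upwards [hKe] with p e1
    rw [e1, mul_one]

/-- the isolated zero of `(x ^ (k + 1) a, b)` -/
theorem iso_sn {k : ℕ} {a b : ℂ × ℂ → ℂ} (ha : AnalyticAt ℂ a 0) (hb : AnalyticAt ℂ b 0) (ha0 : a 0 ≠ 0) (hb0 : b 0 = 0)
    (hb1 : fderiv ℂ b 0 (0, 1) ≠ 0) : Iso fun p => (p.1 ^ (k + 1) * a p, b p) := by
  refine ⟨((analyticAt_fst.pow _).mul ha).prod hb, by simp [hb0], ?_⟩
  have h1 : Coord (fun p => p.1) b := by
    rw [coord_iff analyticAt_fst hb rfl hb0]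
    have e1 := dx_of_div (f := fun p : ℂ × ℂ => p.1) (a := fun _ => 1) analyticAt_const (Eventually.of_forall fun p => (mul_one _).symm)
    rw [e1.1, e1.2, one_mul, zero_mul, sub_zero]
    exact hb1
  obtain ⟨ψ, hψ, hl, hr⟩ := h1.exists_inv
  filter_upwards [hl, ha.continuousAt.eventually_ne ha0] with p e1 e2 hp h0
  apply hp
  rw [Prod.mk_eq_zero, mul_eq_zero, or_iff_left e2, pow_eq_zero_iff (Nat.succ_ne_zero k)] at h0
  rw [← e1]
  have e3 : ((p.1, b p) : ℂ × ℂ) = 0 := by rw [h0.1, h0.2]; rfl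
  rw [e3, hψ.zero]

/-- the saddle-node with two convergent separatrices -/
theorem good_S {k : ℕ} (hk : 1 ≤ k) {a b : ℂ × ℂ → ℂ} (ha : AnalyticAt ℂ a 0) (hb : AnalyticAt ℂ b 0) (ha0 : a 0 ≠ 0) (hb0 : b 0 ≠ 0) :
    Good (PX (k + 1)) fun p => (p.1 ^ (k + 1) * a p, p.2 * b p) := by
  have hyb : AnalyticAt ℂ (fun p : ℂ × ℂ => p.2 * b p) 0 := analyticAt_snd.mul hb
  have hyb0 : (fun p : ℂ × ℂ => p.2 * b p) 0 = 0 := by simp
  have hyb1 : fderiv ℂ (fun p : ℂ × ℂ => p.2 * b p) 0 (0, 1) ≠ 0 := by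
    have := (dy_of_div hb (Eventually.of_forall fun p => rfl)).1
    rw [Pool.Agent.H17BP.dy] at this
    rw [this]; exact hb0
  have hiso := iso_sn (k := k) ha hyb ha0 hyb0 hyb1
  obtain ⟨c, hc, hcJ⟩ := exists_formal ha hyb hyb0 hyb1 hk
  have h1 := good_or (good_sn hk ha hb ha0 hb0) (good_formal hk ha hyb ha0 hyb0 hyb1 hc hcJ)
  refine good_of_wt (good_tr Bihol.id hiso hiso.1 (Eventually.of_forall fun p => by simp) h1) ?_
  rintro g J ⟨⟨g₀, hg₀, hg⟩, J₀, hJ₀, hJe⟩ hw hJ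
  obtain ⟨u, hu, hu0, h2⟩ := wt_sn hk ha hb hb0 hw hg₀ hg
  rcases h2 with h2 | h2
  · exact ⟨fun q => q.1, fun q => q.1 ^ (k + 1), u, J₀, Or.inr ⟨Eventually.of_forall fun q => rfl, Eventually.of_forall fun q => rfl⟩, analyticAt_fst,
      analyticAt_fst.pow _, hu, hu0, hJ₀, h2, hJe⟩
  · exact ⟨fun q => q.1 * q.2, fun q => q.1 ^ (k + 1), u, J₀, Or.inl ⟨Eventually.of_forall fun q => rfl, Eventually.of_forall fun q => rfl⟩,
      analyticAt_fst.mul analyticAt_snd, analyticAt_fst.pow _, hu, hu0, hJ₀, h2, hJe⟩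

/-- the saddle-node with the strong separatrix `{x = 0}` exceptional of high multiplicity -/
theorem good_B' {k : ℕ} (hk : 1 ≤ k) {a b : ℂ × ℂ → ℂ} (ha : AnalyticAt ℂ a 0) (hb : AnalyticAt ℂ b 0) (ha0 : a 0 ≠ 0) (hb0 : b 0 = 0)
    (hb1 : fderiv ℂ b 0 (0, 1) ≠ 0) : Good (PX (k + 1)) fun p => (p.1 ^ (k + 1) * a p, b p) := by
  have hiso := iso_sn (k := k) ha hb ha0 hb0 hb1
  obtain ⟨c, hc, hcJ⟩ := exists_formal ha hb hb0 hb1 hk
  have hsep := sep_formal hk ha hb hb0 hb1 hc hcJ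
  by_cases hconv : ∃ γ : ℂ → ℂ × ℂ, AnalyticAt ℂ γ 0 ∧ ∀ N, (fun t => γ t - (t, jet c N t)) =O[𝓝 0] fun t : ℂ => t ^ (N + 1)
  · -- the weak separatrix converges
    obtain ⟨γ, hγ, hγN⟩ := hconv
    obtain ⟨s, hs, hs0, hinv⟩ := exists_conv ha hb hc hcJ hγ hγN
    have hva := hiso.1
    have ha1 : AnalyticAt ℂ (fun p : ℂ × ℂ => p.1 ^ k * a p) 0 := (analyticAt_fst.pow k).mul ha
    obtain ⟨b', hb', hb'0, hbD⟩ := axis_of_curve hva ha1 (Eventually.of_forall fun p => by simp only; ring) hs hs0 hinv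
    have hco := coord_fst_sub hs hs0
    obtain ⟨A, hA, hA0, hAe⟩ := exists_in_coord hco ha
    obtain ⟨B, hB, hB0, hBe⟩ := exists_in_coord hco hb'
    have hVan : AnalyticAt ℂ (fun q : ℂ × ℂ => (q.1 ^ (k + 1) * A q, q.2 * B q)) 0 := ((analyticAt_fst.pow _).mul hA).prod (analyticAt_snd.mul hB)
    have hV1 : ∀ᶠ p in 𝓝 (0 : ℂ × ℂ), (fun q : ℂ × ℂ => (q.1 ^ (k + 1) * A q, q.2 * B q)) (p.1, p.2 - s p.1) =
        (Dv (fun p => (p.1 ^ (k + 1) * a p, b p)) (fun q => q.1) p, Dv (fun p => (p.1 ^ (k + 1) * a p, b p)) (fun q => q.2 - s q.1) p) := by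
      filter_upwards [hbD, hAe, hBe] with p e2 e3 e4
      rw [Dv_fst, e2, e3, e4]
    have hA0' : A 0 ≠ 0 := by rw [hA0]; exact ha0
    have hB0' : B 0 ≠ 0 := by rw [hB0, hb'0]; exact hb1
    refine good_of_wt (good_coord hiso hco hVan hV1 (good_S hk hA hB hA0' hB0')) ?_
    rintro g J ⟨⟨g₀, hg₀, hg⟩, J₀, hJ₀, hJe⟩ hw hJ
    obtain ⟨G₀, hG₀, -, hG⟩ := exists_in_coord hco hg₀
    obtain ⟨K₀, hK₀, -, hKe⟩ := exists_in_coord hco hJ₀
    refine ⟨fun q => q.1 * G₀ q, fun q => q.1 ^ (k + 1) * K₀ q, fun _ => 1, fun _ => 1,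
      ⟨⟨G₀, hG₀, Eventually.of_forall fun q => rfl⟩, K₀, hK₀, Eventually.of_forall fun q => rfl⟩,
      analyticAt_fst.mul hG₀, (analyticAt_fst.pow _).mul hK₀, analyticAt_const, one_ne_zero, analyticAt_const, ?_, ?_⟩
    · filter_upwards [hg, hG] with p e1 e2
      rw [e1, e2, mul_one]
    · filter_upwards [hJe, hKe] with p e1 e2
      rw [e1, e2, mul_one]
  · -- it does not converge: the weight is `x` up to a unit
    have h1 := good_formal hk ha hb ha0 hb0 hb1 hc hcJ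
    refine good_of_wt (good_tr Bihol.id hiso hiso.1 (Eventually.of_forall fun p => by simp) h1) ?_
    rintro g J ⟨⟨g₀, hg₀, hg⟩, J₀, hJ₀, hJe⟩ hw hJ
    rcases wt_formal hk ha hb hb0 hb1 hc hcJ hw hg₀ hg with h2 | h2
    · exact absurd (hsep.alg g hw.an hw.ne h2) hconv
    · exact ⟨fun q => q.1, fun q => q.1 ^ (k + 1), g₀, J₀, ⟨Eventually.of_forall fun q => rfl, Eventually.of_forall fun q => rfl⟩, analyticAt_fst,
        analyticAt_fst.pow _, hg₀, h2, hJ₀, hg, hJe⟩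

end Pool.Agent.MQ2
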