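import Pool.Agent.MQ2.Defs
import Pool.Agent.MQ2.Term
import Pool.Agent.MQ2.Formal

/-!
# MQ2 TStub: the terminal packages (statements; never import this file in a hand-in)

Every theorem is in the module `Pool/Agent/MQ2/<Module>.lean`, with the same statement.
-/

set_option autoImplicit false

open Topology Filter Metric MeasureTheory Asymptotics Laplacian

noncomputable section

namespace Pool.Agent.MQ2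

open Pool.Agent.H36.BP (EN)
open Pool.Agent.H30M (tau LogSing)
open Pool.Agent.H17BP (Bihol Coord dx dy)
open Pool.Agent.MQ

/-! ## module TLoc (helper46): from `LocalN1` to `LocX`, with `Φ = 0`, `l = lm` -/

theorem locX_of_localN1 {v : ℂ × ℂ → ℂ × ℂ} {g J : ℂ × ℂ → ℂ} {Om : Set ℂ} {p : ℂ → ℂ × ℂ} {lm : ℂ → ℝ} {s δ B C₁ : ℝ} (hB : 0 ≤ B) (hC₁ : 0 ≤ C₁)
    (hlc : Continuous lm) (hl0 : ∀ z, 0 ≤ lm z) (hp : ∀ z ∈ Om, ‖deriv p z‖ ≤ B * lm z)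
    (h : LocalN1 v g Om p (fun R => ∫ z, tau R z * lm z ^ 2) (fun R => ∫ z, ‖gr (tau R) z‖ * lm z) s δ)
    (hpt : ∀ z ∈ Om, ztv v p z ≠ 0 → ‖ztv v p z‖ * ‖g (p z)‖ * ‖J (p z)‖ ≤ C₁ * lm z) : LocX v g J Om p lm s 1 δ := by sorry

/-! ## module TTr (helper58): the package in other coordinates -/

/-- the class in the coordinates `θ`, up to a unit -/
def TrP (θ : ℂ × ℂ → ℂ × ℂ) (P : (ℂ × ℂ → ℂ) → (ℂ × ℂ → ℂ) → Prop) (g J : ℂ × ℂ → ℂ) : Prop :=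
  ∃ G K u κ : ℂ × ℂ → ℂ, P G K ∧ AnalyticAt ℂ G 0 ∧ AnalyticAt ℂ K 0 ∧ AnalyticAt ℂ u 0 ∧ u 0 ≠ 0 ∧ AnalyticAt ℂ κ 0 ∧
    (∀ᶠ p in 𝓝 (0 : ℂ × ℂ), g p = G (θ p) * u p) ∧ ∀ᶠ p in 𝓝 (0 : ℂ × ℂ), J p = K (θ p) * κ p

/-- the separatrices are `θ⁻¹ ∘ c`; `D` changes by the logarithmic derivatives of `det θ'` and `u`; `dv (conj h') = 0` -/
theorem good_tr {θ : ℂ × ℂ → ℂ × ℂ} (hθ : Bihol θ) {v V : ℂ × ℂ → ℂ × ℂ} (hv : Iso v) (hV : AnalyticAt ℂ V 0)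
    (h : ∀ᶠ p in 𝓝 (0 : ℂ × ℂ), V (θ p) = fderiv ℂ θ p (v p)) {P : (ℂ × ℂ → ℂ) → (ℂ × ℂ → ℂ) → Prop} (hP : Good P V) : Good (TrP θ P) v := by sorry

/-! ## module TOr (helper46) -/

theorem good_or {v : ℂ × ℂ → ℂ × ℂ} {P P' : (ℂ × ℂ → ℂ) → (ℂ × ℂ → ℂ) → Prop} (h : Good P v) (h' : Good P' v) :
    Good (fun g J => P g J ∨ P' g J) v := by sorry

theorem good_of_wt {v : ℂ × ℂ → ℂ × ℂ} {P P' : (ℂ × ℂ → ℂ) → (ℂ × ℂ → ℂ) → Prop} (h : Good P' v)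
    (hP : ∀ g J, P g J → Wt v g → AnalyticAt ℂ J 0 → P' g J) : Good P v := by sorry

/-! ## module WtN (helper20): the weights at the terminal points -/

theorem wt_node {a b g g₀ : ℂ × ℂ → ℂ} (ha : AnalyticAt ℂ a 0) (hb : AnalyticAt ℂ b 0) (hq : ∀ k l : ℕ, 1 ≤ k → 1 ≤ l → k * a 0 ≠ l * b 0)
    (hg : Wt (fun p => (p.1 * a p, p.2 * b p)) g) (hg₀ : AnalyticAt ℂ g₀ 0) (h : ∀ᶠ p in 𝓝 (0 : ℂ × ℂ), g p = p.1 * g₀ p) :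
    ∃ u : ℂ × ℂ → ℂ, AnalyticAt ℂ u 0 ∧ u 0 ≠ 0 ∧ ((∀ᶠ p in 𝓝 (0 : ℂ × ℂ), g p = p.1 * u p) ∨ ∀ᶠ p in 𝓝 (0 : ℂ × ℂ), g p = p.1 * p.2 * u p) := by sorry

theorem wt_sn {k : ℕ} (hk : 1 ≤ k) {a b g g₀ : ℂ × ℂ → ℂ} (ha : AnalyticAt ℂ a 0) (hb : AnalyticAt ℂ b 0) (hb0 : b 0 ≠ 0)
    (hg : Wt (fun p => (p.1 ^ (k + 1) * a p, p.2 * b p)) g) (hg₀ : AnalyticAt ℂ g₀ 0) (h : ∀ᶠ p in 𝓝 (0 : ℂ × ℂ), g p = p.1 * g₀ p) :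
    ∃ u : ℂ × ℂ → ℂ, AnalyticAt ℂ u 0 ∧ u 0 ≠ 0 ∧ ((∀ᶠ p in 𝓝 (0 : ℂ × ℂ), g p = p.1 * u p) ∨ ∀ᶠ p in 𝓝 (0 : ℂ × ℂ), g p = p.1 * p.2 * u p) := by sorry

/-- if `g = x g₀`, `g₀ 0 = 0`, then the cofactor of `g₀` at `0` is a positive multiple of `∂b/∂y (0)`, so `g₀` vanishes on the formal curve -/
theorem wt_formal {k : ℕ} (hk : 1 ≤ k) {a b g g₀ : ℂ × ℂ → ℂ} (ha : AnalyticAt ℂ a 0) (hb : AnalyticAt ℂ b 0) (hb0 : b 0 = 0)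
    (hb1 : fderiv ℂ b 0 (0, 1) ≠ 0) {c : ℕ → ℂ} (hc : c 0 = 0)
    (hJ : ∀ J, (fun t => b (t, jet c J t) - deriv (jet c J) t * (t ^ (k + 1) * a (t, jet c J t))) =O[𝓝 0] fun t : ℂ => t ^ (J + 1))
    (hg : Wt (fun p => (p.1 ^ (k + 1) * a p, b p)) g) (hg₀ : AnalyticAt ℂ g₀ 0) (h : ∀ᶠ p in 𝓝 (0 : ℂ × ℂ), g p = p.1 * g₀ p) :
    FZero (fun N t => (t, jet c N t)) g ∨ g₀ 0 ≠ 0 := by sorry

/-! ## module SepF (helper20, from `conv_of_alg`) -/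

theorem sep_formal {k : ℕ} (hk : 1 ≤ k) {a b : ℂ × ℂ → ℂ} (ha : AnalyticAt ℂ a 0) (hb : AnalyticAt ℂ b 0) (hb0 : b 0 = 0)
    (hb1 : fderiv ℂ b 0 (0, 1) ≠ 0) {c : ℕ → ℂ} (hc : c 0 = 0)
    (hJ : ∀ J, (fun t => b (t, jet c J t) - deriv (jet c J) t * (t ^ (k + 1) * a (t, jet c J t))) =O[𝓝 0] fun t : ℂ => t ^ (J + 1)) :
    Sep (fun p => (p.1 ^ (k + 1) * a p, b p)) fun N t => (t, jet c N t) := by sorry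

theorem sep_axis {a b : ℂ × ℂ → ℂ} : Sep (fun p => (p.1 * a p, p.2 * b p)) fun _ t => (t, 0) := by sorry

/-! ## module TNode (helper64) -/

theorem good_node {a b : ℂ × ℂ → ℂ} (ha : AnalyticAt ℂ a 0) (hb : AnalyticAt ℂ b 0) (ha0 : a 0 ≠ 0) (hb0 : b 0 ≠ 0)
    (hq : ∀ k l : ℕ, 1 ≤ k → 1 ≤ l → k * a 0 ≠ l * b 0) :
    Good (fun g _ => (∀ᶠ p in 𝓝 (0 : ℂ × ℂ), g p = p.1 * p.2) ∨ ∀ᶠ p in 𝓝 (0 : ℂ × ℂ), g p = p.1) fun p => (p.1 * a p, p.2 * b p) := by sorry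

/-! ## module TSN (helper76) -/

theorem good_sn {k : ℕ} (hk : 1 ≤ k) {a b : ℂ × ℂ → ℂ} (ha : AnalyticAt ℂ a 0) (hb : AnalyticAt ℂ b 0) (ha0 : a 0 ≠ 0) (hb0 : b 0 ≠ 0) :
    Good (fun g J => (∀ᶠ p in 𝓝 (0 : ℂ × ℂ), g p = p.1 * p.2) ∧ ∀ᶠ p in 𝓝 (0 : ℂ × ℂ), J p = p.1 ^ (k + 1))
      fun p => (p.1 ^ (k + 1) * a p, p.2 * b p) := by sorry

/-! ## module TForm (helper90, helper91) -/

theorem good_formal {k : ℕ} (hk : 1 ≤ k) {a b : ℂ × ℂ → ℂ} (ha : AnalyticAt ℂ a 0) (hb : AnalyticAt ℂ b 0) (ha0 : a 0 ≠ 0) (hb0 : b 0 = 0)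
    (hb1 : fderiv ℂ b 0 (0, 1) ≠ 0) {c : ℕ → ℂ} (hc : c 0 = 0)
    (hJ : ∀ J, (fun t => b (t, jet c J t) - deriv (jet c J) t * (t ^ (k + 1) * a (t, jet c J t))) =O[𝓝 0] fun t : ℂ => t ^ (J + 1)) :
    Good (fun g J => (∀ᶠ p in 𝓝 (0 : ℂ × ℂ), g p = p.1) ∧ ∀ᶠ p in 𝓝 (0 : ℂ × ℂ), J p = p.1 ^ (k + 1)) fun p => (p.1 ^ (k + 1) * a p, b p) := by sorry

/-! ## module TAsm (helper46): `good_C`, `good_A`, `good_B'` of Stub from the above; module TB2 (helper46): `good_B`; module TE: `good_elem` -/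

end Pool.Agent.MQ2
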