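import Pool.Agent.MQ2.RegE
import Pool.Agent.H17BP.Germ

/-!
# MQ2 TTrA: the field in other coordinates
-/

set_option autoImplicit false

open Topology Filter Metric

noncomputable section

namespace Pool.Agent.MQ2

open Pool.Agent.MQ
open Pool.Agent.H17BP (Bihol)

namespace TTr

/-- the Jacobian determinant -/
def Dt (θ : ℂ × ℂ → ℂ × ℂ) (q : ℂ × ℂ) : ℂ :=
  (fderiv ℂ θ q (1, 0)).1 * (fderiv ℂ θ q (0, 1)).2 - (fderiv ℂ θ q (0, 1)).1 * (fderiv ℂ θ q (1, 0)).2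

theorem clm_apply (A : ℂ × ℂ →L[ℂ] ℂ × ℂ) (w : ℂ × ℂ) : A w = w.1 • A (1, 0) + w.2 • A (0, 1) := by
  rw [← map_smul, ← map_smul, ← map_add]
  congr 1
  ext <;> simp

theorem hasFDerivAt_Dt {θ : ℂ × ℂ → ℂ × ℂ} {q : ℂ × ℂ} (hθ : AnalyticAt ℂ θ q) (w : ℂ × ℂ) :
    fderiv ℂ (Dt θ) q w = (fderiv ℂ (fderiv ℂ θ) q w (1, 0)).1 * (fderiv ℂ θ q (0, 1)).2 + (fderiv ℂ θ q (1, 0)).1 * (fderiv ℂ (fderiv ℂ θ) q w (0, 1)).2 -
      ((fderiv ℂ (fderiv ℂ θ) q w (0, 1)).1 * (fderiv ℂ θ q (1, 0)).2 + (fderiv ℂ θ q (0, 1)).1 * (fderiv ℂ (fderiv ℂ θ) q w (1, 0)).2) := by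
  have hA : HasFDerivAt (fderiv ℂ θ) (fderiv ℂ (fderiv ℂ θ) q) q := hθ.fderiv.differentiableAt.hasFDerivAt
  have h1 : ∀ e : ℂ × ℂ, HasFDerivAt (fun q => fderiv ℂ θ q e) ((ContinuousLinearMap.apply ℂ (ℂ × ℂ) e).comp (fderiv ℂ (fderiv ℂ θ) q)) q := fun e =>
    (ContinuousLinearMap.apply ℂ (ℂ × ℂ) e).hasFDerivAt.comp q hA
  have hf : ∀ e : ℂ × ℂ, HasFDerivAt (fun q => (fderiv ℂ θ q e).1)
      ((ContinuousLinearMap.fst ℂ ℂ ℂ).comp ((ContinuousLinearMap.apply ℂ (ℂ × ℂ) e).comp (fderiv ℂ (fderiv ℂ θ) q))) q := fun e =>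
    (ContinuousLinearMap.fst ℂ ℂ ℂ).hasFDerivAt.comp q (h1 e)
  have hs : ∀ e : ℂ × ℂ, HasFDerivAt (fun q => (fderiv ℂ θ q e).2)
      ((ContinuousLinearMap.snd ℂ ℂ ℂ).comp ((ContinuousLinearMap.apply ℂ (ℂ × ℂ) e).comp (fderiv ℂ (fderiv ℂ θ) q))) q := fun e =>
    (ContinuousLinearMap.snd ℂ ℂ ℂ).hasFDerivAt.comp q (h1 e)
  have h2 := ((hf (1, 0)).mul (hs (0, 1))).sub ((hf (0, 1)).mul (hs (1, 0)))
  have h3 : HasFDerivAt (Dt θ) _ q := h2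
  rw [h3.fderiv]
  simp
  ring

theorem analyticAt_Dt {θ : ℂ × ℂ → ℂ × ℂ} {q : ℂ × ℂ} (hθ : AnalyticAt ℂ θ q) : AnalyticAt ℂ (Dt θ) q := by
  have h1 : ∀ e : ℂ × ℂ, AnalyticAt ℂ (fun q => fderiv ℂ θ q e) q := fun e => ((ContinuousLinearMap.apply ℂ (ℂ × ℂ) e).analyticAt _).comp hθ.fderiv
  exact ((analyticAt_fst.comp (h1 (1, 0))).mul (analyticAt_snd.comp (h1 (0, 1)))).sub ((analyticAt_fst.comp (h1 (0, 1))).mul (analyticAt_snd.comp (h1 (1, 0))))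

/-- **the divergence in other coordinates** -/
theorem dvg_tr {θ v V : ℂ × ℂ → ℂ × ℂ} {q : ℂ × ℂ} (hθ : AnalyticAt ℂ θ q) (hv : AnalyticAt ℂ v q) (hV : AnalyticAt ℂ V (θ q))
    (h : ∀ᶠ w in 𝓝 q, V (θ w) = fderiv ℂ θ w (v w)) : dvg V (θ q) * Dt θ q = dvg v q * Dt θ q + fderiv ℂ (Dt θ) q (v q) := by
  have hA : HasFDerivAt (fderiv ℂ θ) (fderiv ℂ (fderiv ℂ θ) q) q := hθ.fderiv.differentiableAt.hasFDerivAt
  have hsym : ∀ x y, fderiv ℂ (fderiv ℂ θ) q x y = fderiv ℂ (fderiv ℂ θ) q y x := by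
    have h0 : ContDiffAt ℂ ⊤ θ q := hθ.contDiffAt
    have h1 : IsSymmSndFDerivAt ℂ θ q := h0.isSymmSndFDerivAt (by simp)
    exact fun x y => h1 x y
  have h1 : HasFDerivAt (fun w => V (θ w)) ((fderiv ℂ V (θ q)).comp (fderiv ℂ θ q)) q :=
    hV.differentiableAt.hasFDerivAt.comp q hθ.differentiableAt.hasFDerivAt
  have h2 := hA.clm_apply hv.differentiableAt.hasFDerivAt
  have h3 := h1.unique (h2.congr_of_eventuallyEq h)
  have e1 := congrArg (fun T : ℂ × ℂ →L[ℂ] ℂ × ℂ => T (1, 0)) h3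
  have e2 := congrArg (fun T : ℂ × ℂ →L[ℂ] ℂ × ℂ => T (0, 1)) h3
  simp only [ContinuousLinearMap.coe_comp, Function.comp_apply, add_apply, ContinuousLinearMap.flip_apply] at e1 e2
  rw [clm_apply (fderiv ℂ V (θ q)) (fderiv ℂ θ q (1, 0)), clm_apply (fderiv ℂ θ q) (fderiv ℂ v q (1, 0)), hsym (1, 0) (v q)] at e1
  rw [clm_apply (fderiv ℂ V (θ q)) (fderiv ℂ θ q (0, 1)), clm_apply (fderiv ℂ θ q) (fderiv ℂ v q (0, 1)), hsym (0, 1) (v q)] at e2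
  have e11 := congrArg Prod.fst e1
  have e12 := congrArg Prod.snd e1
  have e21 := congrArg Prod.fst e2
  have e22 := congrArg Prod.snd e2
  simp only [Prod.fst_add, Prod.snd_add, Prod.smul_fst, Prod.smul_snd, smul_eq_mul] at e11 e12 e21 e22
  rw [hasFDerivAt_Dt hθ]
  unfold dvg Dt
  linear_combination (fderiv ℂ θ q (0, 1)).2 * e11 - (fderiv ℂ θ q (1, 0)).2 * e21 + (fderiv ℂ θ q (1, 0)).1 * e22 - (fderiv ℂ θ q (0, 1)).1 * e12

/-- `V ≠ 0` where `v ≠ 0` -/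
theorem V_ne {θ v V : ℂ × ℂ → ℂ × ℂ} {q : ℂ × ℂ} (hD : Dt θ q ≠ 0) (h : V (θ q) = fderiv ℂ θ q (v q)) (hv : v q ≠ 0) : V (θ q) ≠ 0 := by
  intro h0
  rw [h, clm_apply] at h0
  have h1 := congrArg Prod.fst h0
  have h2 := congrArg Prod.snd h0
  simp only [Prod.fst_add, Prod.snd_add, Prod.smul_fst, Prod.smul_snd, smul_eq_mul, Prod.fst_zero, Prod.snd_zero] at h1 h2
  unfold Dt at hD
  have h3 : (v q).1 * ((fderiv ℂ θ q (1, 0)).1 * (fderiv ℂ θ q (0, 1)).2 - (fderiv ℂ θ q (0, 1)).1 * (fderiv ℂ θ q (1, 0)).2) = 0 := by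
    linear_combination (fderiv ℂ θ q (0, 1)).2 * h1 - (fderiv ℂ θ q (0, 1)).1 * h2
  have h4 : (v q).2 * ((fderiv ℂ θ q (1, 0)).1 * (fderiv ℂ θ q (0, 1)).2 - (fderiv ℂ θ q (0, 1)).1 * (fderiv ℂ θ q (1, 0)).2) = 0 := by
    linear_combination (fderiv ℂ θ q (1, 0)).1 * h2 - (fderiv ℂ θ q (1, 0)).2 * h1
  exact hv (Prod.ext ((mul_eq_zero.1 h3).resolve_right hD) ((mul_eq_zero.1 h4).resolve_right hD))

/-- what holds at the points of a small closed polydisc; `ϑ` is the inverse of `θ` -/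
structure Pt (θ ϑ v V : ℂ × ℂ → ℂ × ℂ) (g G J K u κ : ℂ × ℂ → ℂ) (q : ℂ × ℂ) : Prop where
  θan : AnalyticAt ℂ θ q
  inv : ∀ᶠ w in 𝓝 q, ϑ (θ w) = w
  ϑan : AnalyticAt ℂ ϑ (θ q)
  D_ne : Dt θ q ≠ 0
  van : AnalyticAt ℂ v q
  Van : AnalyticAt ℂ V (θ q)
  push : ∀ᶠ w in 𝓝 q, V (θ w) = fderiv ℂ θ w (v w)
  gan : AnalyticAt ℂ g q
  Gan : AnalyticAt ℂ G (θ q)
  uan : AnalyticAt ℂ u q
  u_ne : u q ≠ 0
  g_eq : ∀ᶠ w in 𝓝 q, g w = G (θ w) * u w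
  Jan : AnalyticAt ℂ J q
  κan : AnalyticAt ℂ κ q
  J_eq : J q = K (θ q) * κ q

/-- the inverse is a local diffeomorphism: the determinant is not zero -/
theorem Dt_ne {θ ϑ : ℂ × ℂ → ℂ × ℂ} {q : ℂ × ℂ} (hθ : AnalyticAt ℂ θ q) (hϑ : AnalyticAt ℂ ϑ (θ q)) (h : ∀ᶠ w in 𝓝 q, ϑ (θ w) = w) : Dt θ q ≠ 0 := by
  have h1 : HasFDerivAt (fun w => ϑ (θ w)) ((fderiv ℂ ϑ (θ q)).comp (fderiv ℂ θ q)) q :=
    hϑ.differentiableAt.hasFDerivAt.comp q hθ.differentiableAt.hasFDerivAt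
  have h2 : HasFDerivAt (fun w => ϑ (θ w)) (ContinuousLinearMap.id ℂ (ℂ × ℂ)) q := (hasFDerivAt_id q).congr_of_eventuallyEq h
  have h3 := h1.unique h2
  intro h0
  have key : ∀ w, fderiv ℂ θ q w = 0 → w = 0 := by
    intro w hw
    have := congrArg (fun T : ℂ × ℂ →L[ℂ] ℂ × ℂ => T w) h3
    simp only [ContinuousLinearMap.coe_comp, Function.comp_apply, hw, map_zero, ContinuousLinearMap.id_apply] at this
    exact this.symm
  unfold Dt at h0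
  by_cases h4 : (fderiv ℂ θ q (0, 1)).2 = 0 ∧ (fderiv ℂ θ q (1, 0)).2 = 0
  · -- second components vanish
    have h5 : fderiv ℂ θ q ((fderiv ℂ θ q (0, 1)).1, -(fderiv ℂ θ q (1, 0)).1) = 0 := by
      rw [clm_apply]
      ext
      · simp only [Prod.fst_add, Prod.smul_fst, smul_eq_mul, Prod.fst_zero]
        ring
      · simp only [Prod.snd_add, Prod.smul_snd, smul_eq_mul, Prod.snd_zero, h4.1, h4.2]
        ring
    have h6 := key _ h5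
    have h6' : (fderiv ℂ θ q (0, 1)).1 = 0 := congrArg Prod.fst h6
    have h7 : fderiv ℂ θ q (0, 1) = 0 := Prod.ext h6' h4.1
    have h8 := key _ h7
    simp at h8
  · have h5 : fderiv ℂ θ q ((fderiv ℂ θ q (0, 1)).2, -(fderiv ℂ θ q (1, 0)).2) = 0 := by
      rw [clm_apply]
      ext
      · simp only [Prod.fst_add, Prod.smul_fst, smul_eq_mul, Prod.fst_zero]
        linear_combination h0
      · simp only [Prod.snd_add, Prod.smul_snd, smul_eq_mul, Prod.snd_zero]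
        ring
    have h6 := key _ h5
    have h6' : (fderiv ℂ θ q (0, 1)).2 = 0 := congrArg Prod.fst h6
    have h6'' : -(fderiv ℂ θ q (1, 0)).2 = 0 := congrArg Prod.snd h6
    exact h4 ⟨h6', neg_eq_zero.1 h6''⟩

variable {θ ϑ v V : ℂ × ℂ → ℂ × ℂ} {g G J K u κ : ℂ × ℂ → ℂ} {r R : ℝ} {Om Om' : Set ℂ} {p : ℂ → ℂ × ℂ}

theorem deriv_θp {z : ℂ} (hθ : AnalyticAt ℂ θ (p z)) (hp : AnalyticAt ℂ p z) : deriv (fun w => θ (p w)) z = fderiv ℂ θ (p z) (deriv p z) :=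
  (hθ.differentiableAt.hasFDerivAt.comp_hasDerivAt z hp.differentiableAt.hasDerivAt).deriv

/-- the parameter `ζ'` is the same -/
theorem ztv_tr {z : ℂ} (hq : Pt θ ϑ v V g G J K u κ (p z)) (hp : Crv1 v r Om p) (hP : Crv1 V R Om' fun w => θ (p w)) (hz : z ∈ Om) (hz' : z ∈ Om')
    (hv : v (p z) ≠ 0) : ztv V (fun w => θ (p w)) z = ztv v p z := by
  have h1 := hq.push.self_of_nhds
  have hV := V_ne hq.D_ne h1 hv
  have h2 := RegE.deriv_eq hP hz' hV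
  have h3 : deriv (fun w => θ (p w)) z = ztv v p z • V (θ (p z)) := by
    rw [deriv_θp hq.θan (hp.an z hz), RegE.deriv_eq hp hz hv, map_smul, h1]
  rw [h2] at h3
  exact smul_left_injective ℂ hV h3

/-- the difference of the fields -/
def hh (θ : ℂ × ℂ → ℂ × ℂ) (u : ℂ × ℂ → ℂ) (p : ℂ → ℂ × ℂ) (z : ℂ) : ℂ :=
  deriv (fun w => Dt θ (p w)) z / Dt θ (p z) + deriv (fun w => u (p w)) z / u (p z)

theorem analyticAt_hh {z : ℂ} (hq : Pt θ ϑ v V g G J K u κ (p z)) (hp : AnalyticAt ℂ p z) : AnalyticAt ℂ (hh θ u p) z := by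
  have h1 : AnalyticAt ℂ (fun w => Dt θ (p w)) z := (analyticAt_Dt hq.θan).comp hp
  have h2 : AnalyticAt ℂ (fun w => u (p w)) z := hq.uan.comp hp
  exact (h1.deriv.div h1 hq.D_ne).add (h2.deriv.div h2 hq.u_ne)

/-- **the field in other coordinates** -/
theorem DDv_tr {z : ℂ} (hq : Pt θ ϑ v V g G J K u κ (p z)) (hp : Crv1 v r Om p) (hP : Crv1 V R Om' fun w => θ (p w)) (hz : z ∈ Om) (hz' : z ∈ Om')
    (hv : v (p z) ≠ 0) (hg : g (p z) ≠ 0) : DDv V G (fun w => θ (p w)) z = DDv v g p z + hh θ u p z := by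
  have hpz := hp.an z hz
  have hD : HasDerivAt (fun w => Dt θ (p w)) (fderiv ℂ (Dt θ) (p z) (deriv p z)) z :=
    (analyticAt_Dt hq.θan).differentiableAt.hasFDerivAt.comp_hasDerivAt z hpz.differentiableAt.hasDerivAt
  have h1 := dvg_tr hq.θan hq.van hq.Van hq.push
  have h2 := RegE.deriv_eq hp hz hv
  have hθp : AnalyticAt ℂ (fun w => θ (p w)) z := hq.θan.comp hpz
  have hGp : AnalyticAt ℂ (fun w => G (θ (p w))) z := AnalyticAt.comp (f := fun w => θ (p w)) hq.Gan hθp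
  have hup : AnalyticAt ℂ (fun w => u (p w)) z := hq.uan.comp hpz
  have e1 : (fun w => g (p w)) =ᶠ[𝓝 z] fun w => G (θ (p w)) * u (p w) := hpz.continuousAt.eventually hq.g_eq
  have e2 : g (p z) = G (θ (p z)) * u (p z) := e1.self_of_nhds
  have hG : G (θ (p z)) ≠ 0 := fun h0 => hg (by rw [e2, h0, zero_mul])
  have hDer : deriv (fun w => g (p w)) z = deriv (fun w => G (θ (p w))) z * u (p z) + G (θ (p z)) * deriv (fun w => u (p w)) z := by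
    rw [e1.deriv_eq]
    exact (hGp.differentiableAt.hasDerivAt.mul hup.differentiableAt.hasDerivAt).deriv
  unfold DDv hh
  rw [ztv_tr hq hp hP hz hz' hv, hDer, e2, hD.deriv, h2, map_smul, smul_eq_mul]
  have hDn := hq.D_ne
  have hun := hq.u_ne
  have h3 : fderiv ℂ (Dt θ) (p z) (v (p z)) = (dvg V (θ (p z)) - dvg v (p z)) * Dt θ (p z) := by linear_combination -h1
  rw [h3]
  field_simp
  ring

end TTr

end Pool.Agent.MQ2
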