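import Pool.Agent.MQ2.TTrA

/-!
# MQ2 TTrB: separatrices and weights in other coordinates
-/

set_option autoImplicit false

open Topology Filter Metric Asymptotics

noncomputable section

namespace Pool.Agent.MQ2

open Pool.Agent.MQ
open Pool.Agent.H17BP (Bihol)

namespace TTr

/-- a biholomorphic germ with its inverse -/
structure Bi (θ ϑ : ℂ × ℂ → ℂ × ℂ) : Prop where
  an : AnalyticAt ℂ θ 0
  zero : θ 0 = 0
  an' : AnalyticAt ℂ ϑ 0
  zero' : ϑ 0 = 0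
  inv : ∀ᶠ x in 𝓝 0, ϑ (θ x) = x
  inv' : ∀ᶠ x in 𝓝 0, θ (ϑ x) = x

theorem exists_bi {θ : ℂ × ℂ → ℂ × ℂ} (h : Bihol θ) : ∃ ϑ, Bi θ ϑ := by
  obtain ⟨ϑ, h1, h2, h3, h4⟩ := h.inv
  exact ⟨ϑ, h.an, h.zero, h1, h2, h3, h4⟩

variable {θ ϑ v V : ℂ × ℂ → ℂ × ℂ}

theorem Bi.tendsto (h : Bi θ ϑ) : Tendsto θ (𝓝 0) (𝓝 0) := by
  have := h.an.continuousAt.tendsto
  rwa [h.zero] at this

theorem Bi.tendsto' (h : Bi θ ϑ) : Tendsto ϑ (𝓝 0) (𝓝 0) := by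
  have := h.an'.continuousAt.tendsto
  rwa [h.zero'] at this

theorem wedge (A : ℂ × ℂ →L[ℂ] ℂ × ℂ) (x y : ℂ × ℂ) : (A x).1 * (A y).2 - (A x).2 * (A y).1 =
    ((A (1, 0)).1 * (A (0, 1)).2 - (A (0, 1)).1 * (A (1, 0)).2) * (x.1 * y.2 - x.2 * y.1) := by
  rw [clm_apply A x, clm_apply A y]
  simp only [Prod.fst_add, Prod.snd_add, Prod.smul_fst, Prod.smul_snd, smul_eq_mul]
  ring

/-- separatrices in other coordinates -/
theorem sep_tr (h : Bi θ ϑ) (hpush : ∀ᶠ p in 𝓝 (0 : ℂ × ℂ), V (θ p) = fderiv ℂ θ p (v p)) {c : ℕ → ℂ → ℂ × ℂ} (hc : Sep V c) :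
    Sep v fun N t => ϑ (c N t) := by
  have hct : ∀ N, Tendsto (c N) (𝓝 0) (𝓝 0) := fun N => by
    have := (hc.an N).continuousAt.tendsto
    rwa [hc.zero N] at this
  have hqan : ∀ N, AnalyticAt ℂ (fun t => ϑ (c N t)) 0 := fun N => AnalyticAt.comp_of_eq h.an' (hc.an N) (hc.zero N)
  have hqt : ∀ N, Tendsto (fun t => ϑ (c N t)) (𝓝 0) (𝓝 0) := fun N => h.tendsto'.comp (hct N)
  have hcq : ∀ N, ∀ᶠ t in 𝓝 (0 : ℂ), θ (ϑ (c N t)) = c N t := fun N => (hct N).eventually h.inv'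
  refine ⟨hqan, fun N => by rw [hc.zero N, h.zero'], fun N => ?_, fun N => ?_, ?_, ?_⟩
  · have h1 := h.an'.hasStrictFDerivAt.isBigO_sub
    have h2 : Tendsto (fun t => (c (N + 1) t, c N t)) (𝓝 0) (𝓝 ((0 : ℂ × ℂ), (0 : ℂ × ℂ))) := by
      rw [nhds_prod_eq]
      exact (hct (N + 1)).prodMk (hct N)
    exact IsBigO.trans (h1.comp_tendsto h2) (hc.coh N)
  · -- tangency
    have h1 : ∀ᶠ t in 𝓝 (0 : ℂ), deriv (c N) t = fderiv ℂ θ (ϑ (c N t)) (deriv (fun t => ϑ (c N t)) t) := by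
      filter_upwards [(hcq N).eventually_nhds, (hqt N).eventually h.an.eventually_analyticAt, (hqan N).eventually_analyticAt] with t h2 h3 h4
      have h5 : c N =ᶠ[𝓝 t] fun t => θ (ϑ (c N t)) := by
        filter_upwards [h2] with w hw
        exact hw.symm
      rw [h5.deriv_eq]
      exact (h3.differentiableAt.hasFDerivAt.comp_hasDerivAt t h4.differentiableAt.hasDerivAt).deriv
    have h2 : ∀ᶠ t in 𝓝 (0 : ℂ), V (c N t) = fderiv ℂ θ (ϑ (c N t)) (v (ϑ (c N t))) := by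
      filter_upwards [hcq N, (hqt N).eventually hpush] with t h3 h4
      rw [← h4, h3]
    have hDt0 : Dt θ 0 ≠ 0 := Dt_ne h.an (by rw [h.zero]; exact h.an') h.inv
    have hDc : Tendsto (fun t => Dt θ (ϑ (c N t))) (𝓝 0) (𝓝 (Dt θ 0)) := by
      have h3 : ContinuousAt (Dt θ) 0 := (analyticAt_Dt h.an).continuousAt
      exact h3.tendsto.comp (hqt N)
    have h3 : (fun t => (Dt θ (ϑ (c N t)))⁻¹) =O[𝓝 0] fun _ : ℂ => (1 : ℂ) := (hDc.inv₀ hDt0).isBigO_one ℂ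
    have h4 := h3.mul (hc.tan N)
    simp only [one_mul] at h4
    refine h4.congr' ?_ EventuallyEq.rfl
    filter_upwards [h1, h2, hDc.eventually_ne hDt0] with t a1 a2 a3
    rw [a1, a2, wedge]
    have : (fderiv ℂ θ (ϑ (c N t)) (1, 0)).1 * (fderiv ℂ θ (ϑ (c N t)) (0, 1)).2 - (fderiv ℂ θ (ϑ (c N t)) (0, 1)).1 * (fderiv ℂ θ (ϑ (c N t)) (1, 0)).2 =
      Dt θ (ϑ (c N t)) := rfl
    rw [this]
    field_simp
  · obtain ⟨N, hN⟩ := hc.nc
    refine ⟨N, fun h1 => hN ?_⟩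
    have h2 : (fun t => θ (ϑ (c N t))) =O[𝓝 0] fun t => ϑ (c N t) := by
      have h3 := (h.an.differentiableAt.isBigO_sub).comp_tendsto (hqt N)
      have h4 : (fun t => θ (ϑ (c N t)) - θ 0) =O[𝓝 0] fun t => ϑ (c N t) - 0 := h3
      simpa [h.zero] using h4
    exact (h2.trans h1).congr' (hcq N) EventuallyEq.rfl
  · intro R hR hne hz
    have hR' : AnalyticAt ℂ (fun P => R (ϑ P)) 0 := AnalyticAt.comp_of_eq hR h.an' h.zero'
    have hne' : ∃ᶠ P in 𝓝 (0 : ℂ × ℂ), R (ϑ P) ≠ 0 := by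
      have h1 : ∃ᶠ q in 𝓝 (0 : ℂ × ℂ), R (ϑ (θ q)) ≠ 0 := (hne.and_eventually h.inv).mono fun q hq => by rw [hq.2]; exact hq.1
      exact h.tendsto.frequently h1
    obtain ⟨γ, hγ, hγc⟩ := hc.alg _ hR' hne' hz
    have hγ0 : γ 0 = 0 := by
      have h1 := hγc 0
      have h2 : Tendsto (fun t => γ t - c 0 t) (𝓝 0) (𝓝 0) := by
        refine h1.trans_tendsto ?_
        have : Continuous fun t : ℂ => t ^ (0 + 1) := by fun_prop
        simpa using this.tendsto 0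
      have h3 : Tendsto (fun t => γ t - c 0 t) (𝓝 0) (𝓝 (γ 0 - c 0 0)) := hγ.continuousAt.tendsto.sub (hc.an 0).continuousAt.tendsto
      have h4 := tendsto_nhds_unique h2 h3
      rw [hc.zero 0, sub_zero] at h4
      exact h4.symm
    have hγt : Tendsto γ (𝓝 0) (𝓝 0) := by
      have := hγ.continuousAt.tendsto
      rwa [hγ0] at this
    refine ⟨fun t => ϑ (γ t), AnalyticAt.comp_of_eq h.an' hγ hγ0, fun N => ?_⟩
    have h2 : Tendsto (fun t => (γ t, c N t)) (𝓝 0) (𝓝 ((0 : ℂ × ℂ), (0 : ℂ × ℂ))) := by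
      rw [nhds_prod_eq]
      exact hγt.prodMk (hct N)
    exact IsBigO.trans (h.an'.hasStrictFDerivAt.isBigO_sub.comp_tendsto h2) (hγc N)

/-- weights in other coordinates -/
theorem wt_tr (h : Bi θ ϑ) (hv : AnalyticAt ℂ v 0) (hpush : ∀ᶠ p in 𝓝 (0 : ℂ × ℂ), V (θ p) = fderiv ℂ θ p (v p)) {g G u : ℂ × ℂ → ℂ} (hG : AnalyticAt ℂ G 0)
    (hu : AnalyticAt ℂ u 0) (hu0 : u 0 ≠ 0) (hgG : ∀ᶠ p in 𝓝 (0 : ℂ × ℂ), g p = G (θ p) * u p) (hg : Wt v g) : Wt V G := by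
  obtain ⟨c, hc, hcof⟩ := hg.cof
  have hGθ : ∀ᶠ q in 𝓝 (0 : ℂ × ℂ), AnalyticAt ℂ G (θ q) := h.tendsto.eventually hG.eventually_analyticAt
  have hune : ∀ᶠ q in 𝓝 (0 : ℂ × ℂ), u q ≠ 0 := hu.continuousAt.eventually_ne hu0
  -- the derivative of `g`
  have hdg : ∀ᶠ q in 𝓝 (0 : ℂ × ℂ), ∀ w, fderiv ℂ g q w = u q * fderiv ℂ G (θ q) (fderiv ℂ θ q w) + G (θ q) * fderiv ℂ u q w := by
    filter_upwards [hgG.eventually_nhds, hGθ, h.an.eventually_analyticAt, hu.eventually_analyticAt] with q a1 a2 a3 a4 w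
    have h1 : HasFDerivAt (fun p => G (θ p)) ((fderiv ℂ G (θ q)).comp (fderiv ℂ θ q)) q :=
      a2.differentiableAt.hasFDerivAt.comp q a3.differentiableAt.hasFDerivAt
    have h2 := (h1.mul a4.differentiableAt.hasFDerivAt).congr_of_eventuallyEq a1
    rw [h2.fderiv]
    simp
    ring
  -- pull back by `ϑ`
  have pull : ∀ {A : ℂ × ℂ → Prop}, (∀ᶠ q in 𝓝 (0 : ℂ × ℂ), A (θ q)) → ∀ᶠ P in 𝓝 (0 : ℂ × ℂ), A P := by
    intro A hA
    filter_upwards [h.tendsto'.eventually hA, h.inv'] with P h1 h2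
    rwa [h2] at h1
  refine ⟨hG, ?_, ⟨fun P => c (ϑ P) - fderiv ℂ u (ϑ P) (v (ϑ P)) / u (ϑ P), ?_, ?_⟩, ?_⟩
  · have h1 : ∃ᶠ q in 𝓝 (0 : ℂ × ℂ), G (θ q) ≠ 0 := (hg.ne.and_eventually hgG).mono fun q hq h0 => hq.1 (by rw [hq.2, h0, zero_mul])
    exact h.tendsto.frequently h1
  · have h2 : ∀ e : ℂ × ℂ, AnalyticAt ℂ (fun q => fderiv ℂ u q e) 0 := fun e => ((ContinuousLinearMap.apply ℂ ℂ e).analyticAt _).comp hu.fderiv
    have h3 : AnalyticAt ℂ (fun q => fderiv ℂ u q (v q)) 0 := by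
      have h4 := ((analyticAt_fst.comp hv).mul (h2 (1, 0))).add ((analyticAt_snd.comp hv).mul (h2 (0, 1)))
      refine h4.congr (Eventually.of_forall fun q => ?_)
      show (v q).1 * fderiv ℂ u q (1, 0) + (v q).2 * fderiv ℂ u q (0, 1) = fderiv ℂ u q (v q)
      have h5 : v q = (v q).1 • ((1 : ℂ), (0 : ℂ)) + (v q).2 • ((0 : ℂ), (1 : ℂ)) := by ext <;> simp
      conv_rhs => rw [h5, map_add, map_smul, map_smul, smul_eq_mul, smul_eq_mul]
    have h1 : AnalyticAt ℂ (fun q => c q - fderiv ℂ u q (v q) / u q) 0 := hc.sub (h3.div hu hu0)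
    exact AnalyticAt.comp_of_eq h1 h.an' h.zero'
  · refine pull ?_
    filter_upwards [hdg, hcof, hpush, hgG, hune, h.inv] with q a1 a2 a3 a4 a5 a6
    have h1 := a1 (v q)
    rw [a2, a4, ← a3] at h1
    rw [a6]
    field_simp
    linear_combination -h1
  · refine pull ?_
    filter_upwards [hdg, hg.red, hgG, hune, h.inv] with q a1 a2 a3 a4 a6 hq0 hGq h0
    have hq : q ≠ 0 := fun h1 => hq0 (by rw [h1, h.zero])
    refine a2 hq (by rw [a3, hGq, zero_mul]) ?_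
    refine ContinuousLinearMap.ext fun w => ?_
    rw [a1, h0, hGq]
    simp

end TTr

end Pool.Agent.MQ2
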